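import Pool.Agent.P.MP_824f38_ag.N.Alg

/-! Row NEC-ADev: noetherian induction over pairs of ideals

Well-founded induction on 𝔞 (for the relation >), for all 𝔥. 𝔞 = ⊤ by h0. 𝔞 prime: h0 if 𝔥 ≤ 𝔞, else h2, h1
and the induction hypothesis for 𝔞 ⊔ 𝔥'. Otherwise f g in 𝔞, f, g not in 𝔞: P 𝔞 (𝔥 (f) (g)) by h0,
P (𝔞 ⊔ (g)) (𝔥 (f)) and P (𝔞 ⊔ (f)) 𝔥 by induction; apply h1 twice. -/

set_option linter.unusedVariables false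
set_option linter.unusedSectionVars false
set_option linter.style.haveILetI false
set_option linter.dupNamespace false

namespace Pool.Agent.P.MP_824f38_ag.N

theorem devissage {R : Type} [CommRing R] [IsNoetherianRing R] (P : Ideal R → Ideal R → Prop)
    (h0 : ∀ 𝔞 𝔥, 𝔥 ≤ 𝔞 → P 𝔞 𝔥) (h1 : ∀ 𝔞 𝔥 𝔥', P 𝔞 (𝔥 * 𝔥') → P (𝔞 ⊔ 𝔥') 𝔥 → P 𝔞 𝔥)
    (h2 : ∀ 𝔞 𝔥, 𝔞.IsPrime → ¬ 𝔥 ≤ 𝔞 → ∃ 𝔥', ¬ 𝔥' ≤ 𝔞 ∧ P 𝔞 (𝔥 * 𝔥')) (𝔞 𝔥 : Ideal R) :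
    P 𝔞 𝔥 := by
  induction 𝔞 using WellFoundedGT.induction generalizing 𝔥 with
  | ind 𝔞 ih =>
    have step : ∀ 𝔟 𝔠 : Ideal R, ¬ 𝔠 ≤ 𝔞 → P (𝔞 ⊔ 𝔠) 𝔟 := fun 𝔟 𝔠 h =>
      ih (𝔞 ⊔ 𝔠) (left_lt_sup.2 h) 𝔟
    by_cases hle : 𝔥 ≤ 𝔞
    · exact h0 _ _ hle
    by_cases hp : 𝔞.IsPrime
    · obtain ⟨𝔥', k1, k2⟩ := h2 _ _ hp hle
      exact h1 _ _ 𝔥' k2 (step _ _ k1)
    · have ht : 𝔞 ≠ ⊤ := fun e => hle (e ▸ le_top)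
      obtain ⟨f, hf, g, hg, hfg⟩ := (Ideal.not_isPrime_iff.1 hp).resolve_left ht
      have kf : ¬ Ideal.span {f} ≤ 𝔞 := fun h => hf (h (Ideal.mem_span_singleton_self f))
      have kg : ¬ Ideal.span {g} ≤ 𝔞 := fun h => hg (h (Ideal.mem_span_singleton_self g))
      refine h1 _ _ (Ideal.span {f}) (h1 _ _ (Ideal.span {g}) (h0 _ _ ?_) (step _ _ kg))
        (step _ _ kf)
      rw [mul_assoc, Ideal.span_singleton_mul_span_singleton]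
      exact Ideal.mul_le_right.trans ((Ideal.span_singleton_le_iff_mem _).2 hfg)

end Pool.Agent.P.MP_824f38_ag.N
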