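import Pool.Agent.P.MP_824f38_ag.N.SBase

/-! Triviality of Godement cochains of forms descends along Zariski covers. -/

set_option linter.unusedVariables false
set_option linter.unusedSectionVars false
set_option linter.style.haveILetI false

namespace Pool.Agent.P.MP_824f38_ag.N

variable {R : Type} [CommRing R] [Algebra ℂ R] [Algebra.FiniteType ℂ R]

/-- a principal open set -/
@[reducible] noncomputable def Ob.aw (A : Ob R) (h : A.A) : Ob R :=
  A.ext (Localization.Away h) (ft_away h) (toAway h)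

/-- the morphism to a principal open set -/
noncomputable def Ob.toAw (A : Ob R) (h : A.A) : Hom A (A.aw h) := ⟨toAway h, rfl⟩

theorem aw_lift {A B : Type} [CommRing A] [Algebra ℂ A] [CommRing B] [Algebra ℂ B]
    (φ : A →ₐ[ℂ] B) {h : A} (hu : IsUnit (φ h)) :
    ∃ ψ : Localization.Away h →ₐ[ℂ] B, ψ.comp (toAway h) = φ :=
  ⟨IsLocalization.Away.liftAlgHom h (f := φ) hu, AlgHom.ext fun a =>
    IsLocalization.Away.lift_eq (S := Localization.Away h) h (g := (φ : A →+* B)) hu a⟩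

theorem aw_ext {A B : Type} [CommRing A] [Algebra ℂ A] [CommRing B] [Algebra ℂ B] {h : A}
    {ψ ψ' : Localization.Away h →ₐ[ℂ] B} (e : ψ.comp (toAway h) = ψ'.comp (toAway h)) :
    ψ = ψ' :=
  AlgHom.coe_ringHom_injective (IsLocalization.ringHom_ext (Submonoid.powers h)
    (RingHom.ext fun a => DFunLike.congr_fun e a))

theorem aw_unit {A : Type} [CommRing A] [Algebra ℂ A] (h : A) : IsUnit (toAway h h) :=
  IsLocalization.Away.algebraMap_isUnit h

theorem aw_hom {A B : Ob R} (φ : Hom A B) {h : A.A} (hu : IsUnit (φ.f h)) :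
    ∃ ψ : Hom (A.aw h) B, ψ.comp (A.toAw h) = φ := by
  obtain ⟨ψ, e⟩ := aw_lift φ.f hu
  exact ⟨⟨ψ, by rw [← φ.hf, ← e]; rfl⟩, Hom.ext e⟩

theorem aw_pt {A : Ob R} {x : Pt R} (y : PtO A x) {h : A.A} (hu : IsUnit (y.y h)) :
    ∃ z : PtO (A.aw h) x, z.pre (A.toAw h) = y := by
  obtain ⟨ψ, e⟩ := aw_lift y.y hu
  exact ⟨y.lift (A.toAw h) ψ e, y.lift_pre (A.toAw h) ψ e⟩

theorem aw_pt_ext {A : Ob R} {x : Pt R} {h : A.A} {z z' : PtO (A.aw h) x}
    (e : z.pre (A.toAw h) = z'.pre (A.toAw h)) : z = z' := PtO.ext (aw_ext (pre_eq e))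

theorem aw_pt_unit {A : Ob R} {x : Pt R} {h : A.A} (z : PtO (A.aw h) x) :
    IsUnit ((z.pre (A.toAw h)).y h) := (aw_unit h).map z.y

theorem triv_aw {A B : Ob R} (φ : Hom A B) {h : A.A} (hu : IsUnit (φ.f h)) {j : ℕ} {c : CD A j}
    (H : (DRP R).res (A.toAw h) j c ∈ BdN (A.aw h) ⊤ ⊤ j) : (DRP R).res φ j c ∈ BdN B ⊤ ⊤ j := by
  obtain ⟨ψ, rfl⟩ := aw_hom φ hu
  exact res_BdT ψ H

theorem zar_two {j : ℕ} (H : IH R j) {A : Ob R} (hA : Reg A.A) {f g : A.A}
    (hfg : Ideal.span {f, g} = ⊤) {c : CD A j}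
    (h1 : (DRP R).res (A.toAw f) j c ∈ BdN (A.aw f) ⊤ ⊤ j)
    (h2 : (DRP R).res (A.toAw g) j c ∈ BdN (A.aw g) ⊤ ⊤ j) : c ∈ BdN A ⊤ ⊤ j := by
  have hu : IsUnit (toAway (f * g) f * toAway (f * g) g) := by
    rw [← map_mul]; exact aw_unit _
  obtain ⟨g1, e1⟩ := aw_hom (A.toAw (f * g)) (isUnit_of_mul_isUnit_left hu)
  obtain ⟨g2, e2⟩ := aw_hom (A.toAw (f * g)) (isUnit_of_mul_isUnit_right hu)
  have hU : Reg (A.aw (f * g)).A := hA.away _
  have M : MVSq (A.toAw f) (A.toAw g) g1 g2 ⊤ ⊤ ⊤ ⊤ := by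
    refine ⟨e1.trans e2.symm, fun x y => iff_of_false y.not_kills_top (PtO.not_kills_top _),
      fun x y => iff_of_false y.not_kills_top (PtO.not_kills_top _),
      fun x y => iff_of_false y.not_kills_top (PtO.not_kills_top _),
      fun x y y' _ e => aw_pt_ext e, fun x y y' _ e => aw_pt_ext e,
      fun x y y' e => aw_pt_ext (by rw [← e1, PtO.pre_comp, PtO.pre_comp, e]),
      fun x y _ => ?_, fun x y1 y2 _ e => ?_⟩
    · obtain ⟨a, b, hab⟩ := Ideal.mem_span_pair.1 (hfg ▸ Submodule.mem_top : (1 : A.A) ∈ _)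
      have h : y.y a * y.y f + y.y b * y.y g = 1 := by
        rw [← map_mul, ← map_mul, ← map_add, hab, map_one]
      exact (IsLocalRing.isUnit_or_isUnit_of_add_one h).imp
        (fun h => aw_pt y (isUnit_of_mul_isUnit_right h))
        (fun h => aw_pt y (isUnit_of_mul_isUnit_right h))
    · obtain ⟨z, hz⟩ := aw_pt (y1.pre (A.toAw f)) (h := f * g) (by
        rw [map_mul]; exact (aw_pt_unit y1).mul (e ▸ aw_pt_unit y2))
      exact ⟨z, aw_pt_ext (by rw [← PtO.pre_comp, e1, hz]),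
        aw_pt_ext (by rw [← PtO.pre_comp, e2, hz, e])⟩
  refine mv_forms M hU (etaN_le_top _) (etaN_le_top _) (etaN_le_top _) (fun α _ β _ e => ?_)
    (fun ω _ => ?_) (H _ hU) (mem_KT_top c) h1 h2
  · obtain ⟨ω, h⟩ := zar_glue hfg g1.f g2.f (congrArg Hom.f e1) (congrArg Hom.f e2) e
    exact ⟨ω, trivial, h⟩
  · obtain ⟨α, β, h⟩ := zar_sum hfg g1.f g2.f (congrArg Hom.f e1) (congrArg Hom.f e2) ω
    exact ⟨α, trivial, β, trivial, h⟩

theorem triv_zar {j : ℕ} (H : IH R j) {A : Ob R} (hA : Reg A.A) {c : CD A j}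
    (h : ∀ w : A.A →ₐ[ℂ] ℂ, ∃ s, w s ≠ 0 ∧ (DRP R).res (A.toAw s) j c ∈ BdN (A.aw s) ⊤ ⊤ j) :
    c ∈ BdN A ⊤ ⊤ j := by
  let T : Ideal A.A :=
    { carrier := {s | (DRP R).res (A.toAw s) j c ∈ BdN (A.aw s) ⊤ ⊤ j}
      zero_mem' := by
        have : (DRP R).res (A.toAw 0) j c = 0 := PSh.G_ext _ fun x y =>
          absurd (aw_pt_unit y) (by rw [map_zero]; exact not_isUnit_zero)
        exact (this ▸ zero_mem _ : (DRP R).res (A.toAw 0) j c ∈ BdN (A.aw 0) ⊤ ⊤ j)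
      smul_mem' := fun a s hs => triv_aw (A.toAw (a * s)) (h := s)
        (isUnit_of_mul_isUnit_right (map_mul (toAway (a * s)) a s ▸ aw_unit (a * s))) hs
      add_mem' := fun {f g} hf hg => by
        refine zar_two H (A := A.aw (f + g)) (hA.away _) (f := toAway (f + g) f)
          (g := toAway (f + g) g) ?_ ?_ ?_
        · refine Ideal.eq_top_of_isUnit_mem _ ?_ (aw_unit (f + g))
          rw [map_add]
          exact add_mem (Ideal.subset_span (by simp)) (Ideal.subset_span (by simp))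
        · exact triv_aw (((A.aw (f + g)).toAw _).comp (A.toAw (f + g))) (h := f) (aw_unit _) hf
        · exact triv_aw (((A.aw (f + g)).toAw _).comp (A.toAw (f + g))) (h := g) (aw_unit _) hg }
  have hT : (1 : A.A) ∈ T := by
    have := span_eq_top_of_pts (s := (T : Set A.A)) fun w => (h w).imp fun s hs => ⟨hs.2, hs.1⟩
    rw [Ideal.span_eq] at this
    rw [this]; trivial
  exact triv_aw (Hom.id A) (h := 1) isUnit_one hT

end Pool.Agent.P.MP_824f38_ag.N
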