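import Pool.Agent.P.MP_824f38_ag.N.CChart

/-! Row NEC-CBasis: the basis of the forms on a chart

The `d (y i)` form a basis of the one-forms, and their ordered products form a basis of all
forms. -/

set_option linter.unusedVariables false
set_option linter.unusedSectionVars false
set_option linter.style.haveILetI false
set_option linter.dupNamespace false

namespace Pool.Agent.P.MP_824f38_ag.N

variable {A : Type} [CommRing A] [Algebra ℂ A] [Algebra.FiniteType ℂ A] {N : ℕ}
  {y : Fin N → A}

theorem mono_empty {ι : Type} [LinearOrder ι] (z : ι → A) : mono z ∅ = 1 := by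
  simp [mono]

private theorem mono_insert_min {ι : Type} [LinearOrder ι] (z : ι → A) {S : Finset ι} {a : ι}
    (h : ∀ x ∈ S, a < x) : mono z (insert a S) = dd (z a) * mono z S := by
  rw [mono, Finset.sort_insert (· ≤ ·) (fun b hb => (h b hb).le) (fun ha => lt_irrefl _ (h a ha)),
    List.map_cons, List.prod_cons, mono]

private theorem mono_eq_multi {ι : Type} [LinearOrder ι] (z : ι → A) (S : Finset ι) :
    mono z S = ExteriorAlgebra.ιMulti A S.card
      fun i => KaehlerDifferential.D ℂ A (z (S.orderEmbOfFin rfl i)) := by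
  rw [mono, ← Finset.listMap_orderEmbOfFin_finRange S rfl, ExteriorAlgebra.ιMulti_apply,
    List.map_map, List.ofFn_eq_map]
  rfl

private theorem dd_anti (a b : A) : dd a * dd b = -(dd b * dd a) := V.dk_anti (k := ℂ) a b

private theorem dd_sq (a : A) : dd a * dd a = 0 := V.dk_sq (k := ℂ) a

theorem mono_mem {ι : Type} [LinearOrder ι] (z : ι → A) (S : Finset ι) :
    mono z S ∈ Forms A S.card := by
  rw [mono_eq_multi]
  exact ExteriorAlgebra.ιMulti_range A S.card ⟨_, rfl⟩

theorem pull_mono {B : Type} [CommRing B] [Algebra ℂ B] (φ : A →ₐ[ℂ] B) {ι : Type}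
    [LinearOrder ι] (z : ι → A) (S : Finset ι) :
    pull φ (mono z S) = mono (fun i => φ (z i)) S := by
  rw [mono, mono, map_list_prod, List.map_map]
  exact congrArg List.prod (List.map_congr_left fun i _ => pull_dd φ (z i))

theorem mono_congr {ι : Type} [LinearOrder ι] {z z' : ι → A} {S : Finset ι}
    (h : ∀ i ∈ S, z i = z' i) : mono z S = mono z' S := by
  rw [mono, mono]
  exact congrArg List.prod (List.map_congr_left fun i hi => by
    rw [h i ((Finset.mem_sort _).1 hi)])

theorem dR_mono {ι : Type} [LinearOrder ι] (z : ι → A) (S : Finset ι) : V.dR (mono z S) = 0 := by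
  induction S using Finset.induction_on_min with
  | empty => rw [mono_empty, V.dR_one]
  | insert a S h ih =>
    have h1 : V.dR (dd (z a)) = 0 := V.dR_dk (k := ℂ) (z a)
    rw [mono_insert_min z h, V.dR_mul, ih, h1, zero_mul, mul_zero, add_zero]

theorem dd_mul_mono_of_mem {ι : Type} [LinearOrder ι] (z : ι → A) {S : Finset ι} {i : ι}
    (h : i ∈ S) : dd (z i) * mono z S = 0 := by
  induction S using Finset.induction_on_min with
  | empty => simp at h
  | insert a S ha ih =>
    rw [mono_insert_min z ha, ← mul_assoc]
    rcases Finset.mem_insert.1 h with rfl | h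
    · rw [dd_sq, zero_mul]
    · rw [dd_anti, neg_mul, mul_assoc, ih h, mul_zero, neg_zero]

theorem dd_mul_mono {ι : Type} [LinearOrder ι] (z : ι → A) {S : Finset ι} {i : ι} (h : i ∉ S) :
    dd (z i) * mono z S = V.sgn (insert i S) i • mono z (insert i S) := by
  have base : ∀ T : Finset ι, (∀ x ∈ T, i < x) →
      dd (z i) * mono z T = V.sgn (insert i T) i • mono z (insert i T) := fun T hT => by
    have e : (insert i T).filter (· < i) = ∅ := Finset.filter_eq_empty_iff.2 fun x hx => by
      rcases Finset.mem_insert.1 hx with rfl | hx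
      · exact lt_irrefl _
      · exact (hT x hx).not_gt
    rw [mono_insert_min z hT, V.sgn, e, Finset.card_empty, pow_zero, one_smul]
  induction S using Finset.induction_on_min with
  | empty => exact base ∅ (by simp)
  | insert a S ha ih =>
    have hia : i ≠ a := fun e => h (e ▸ Finset.mem_insert_self a S)
    have hiS : i ∉ S := fun e => h (Finset.mem_insert_of_mem e)
    rcases lt_or_gt_of_ne hia with hlt | hlt
    · refine base _ fun x hx => ?_
      rcases Finset.mem_insert.1 hx with rfl | hx
      · exact hlt
      · exact hlt.trans (ha x hx)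
    · have ha' : ∀ x ∈ insert i S, a < x := fun x hx => by
        rcases Finset.mem_insert.1 hx with rfl | hx
        · exact hlt
        · exact ha x hx
      have e : V.sgn (insert a (insert i S)) i = -V.sgn (insert i S) i := by
        rw [V.sgn, V.sgn, Finset.filter_insert, if_pos hlt, Finset.card_insert_of_notMem
          (fun hx => lt_irrefl _ (ha' a (Finset.mem_filter.1 hx).1)), pow_succ, mul_neg_one]
      rw [Finset.insert_comm i a, mono_insert_min z ha', mono_insert_min z ha, e, ← mul_assoc,
        dd_anti, neg_mul, mul_assoc, ih hiS, neg_smul, mul_smul_comm]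

theorem mono_mul_mono {ι : Type} [LinearOrder ι] (z : ι → A) (S S' : Finset ι) :
    ∃ e : ℤ, (¬ Disjoint S S' → e = 0) ∧ mono z S * mono z S' = e • mono z (S ∪ S') := by
  induction S using Finset.induction_on_min with
  | empty => exact ⟨1, fun h => absurd (Finset.disjoint_empty_left S') h, by simp [mono_empty]⟩
  | insert a S ha ih =>
    obtain ⟨e, he, hm⟩ := ih
    have haS : a ∉ S := fun h => lt_irrefl _ (ha a h)
    by_cases h : a ∈ S'
    · refine ⟨0, fun _ => rfl, ?_⟩
      rw [mono_insert_min z ha, mul_assoc, hm, mul_smul_comm,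
        dd_mul_mono_of_mem z (Finset.mem_union_right S h), smul_zero, zero_smul]
    · refine ⟨e * V.sgn (insert a (S ∪ S')) a, fun hd => ?_, ?_⟩
      · rw [he fun hd' => hd (Finset.disjoint_insert_left.2 ⟨h, hd'⟩), zero_mul]
      · rw [mono_insert_min z ha, mul_assoc, hm, mul_smul_comm,
          dd_mul_mono z (by simp [haS, h]), Finset.insert_union, mul_smul]

theorem chart_basis (H : Chart y) :
    ∃ b : Module.Basis (Finset (Fin N)) A (DR A), ∀ S, b S = mono y S := by
  obtain ⟨E, hE⟩ := H.dual
  have li : LinearIndependent A fun i => KaehlerDifferential.D ℂ A (y i) := by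
    rw [Fintype.linearIndependent_iff]
    intro g hg i
    have h := congrArg (E i).liftKaehlerDifferential hg
    simpa [map_sum, Derivation.liftKaehlerDifferential_comp_D, hE] using h
  refine ⟨(Module.Basis.mk li H.span.ge).ExteriorAlgebra, fun S => ?_⟩
  rw [ExteriorAlgebra.basis_apply_ofCard _ (rfl : S.card = S.card), mono_eq_multi,
    Module.Basis.coe_mk]
  rfl

theorem chart_tf (H : Chart y) {a : A} (ha : a ∈ nonZeroDivisors A) {ω : DR A}
    (h : a • ω = 0) : ω = 0 := by
  obtain ⟨b, -⟩ := chart_basis H
  refine b.ext_elem fun S => ?_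
  have h1 := congrArg (fun x => b.repr x S) h
  simp only [map_smul, map_zero, Finsupp.smul_apply, smul_eq_mul, Finsupp.zero_apply] at h1 ⊢
  exact (mem_nonZeroDivisors_iff.1 ha).1 _ h1

end Pool.Agent.P.MP_824f38_ag.N
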