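import Pool.Agent.P.MP_824f38_ag.N.LBasic

/-! Row NEC-LDer: derivations and coordinates on localisations and quotients

der_loc: D (a / s) = (s D a - a D s) / s²; one construction: the ring map A → TrivSqZeroExt B B, a ↦ (a, D a) sends M to units, lift it
(IsLocalization.lift); or use KaehlerDifferential.isLocalizedModule_map. der_quot: Derivation.liftOfSurjective or a quotient construction.
snc_quot: if h 𝔞 ≤ span y_P and h' y_P ≤ 𝔞 then h h' E k (k ∉ P) preserves 𝔞. -/

set_option linter.unusedVariables false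
set_option linter.unusedSectionVars false
set_option linter.style.haveILetI false
set_option linter.dupNamespace false

namespace Pool.Agent.P.MP_824f38_ag.N

variable {A : Type} [CommRing A] [Algebra ℂ A] [Algebra.FiniteType ℂ A]
  {ι : Type} [Fintype ι] [DecidableEq ι] {w : A →ₐ[ℂ] ℂ}

theorem der_loc {B : Type} [CommRing B] [Algebra ℂ B] [Algebra A B] [IsScalarTower ℂ A B]
    (M : Submonoid A) [IsLocalization M B] (D : Derivation ℂ A A) :
    ∃ D' : Derivation ℂ B B, ∀ a, D' (algebraMap A B a) = algebraMap A B (D a) := by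
  have := Algebra.FormallyEtale.of_isLocalization (Rₘ := B) M
  have hb := KaehlerDifferential.isBaseChange_of_formallyEtale ℂ A B
  let D1 : Derivation ℂ A B := (Algebra.linearMap A B).compDer D
  refine ⟨(hb.lift D1.liftKaehlerDifferential).compDer (KaehlerDifferential.D ℂ B), fun a => ?_⟩
  have h1 : KaehlerDifferential.D ℂ B (algebraMap A B a) =
      KaehlerDifferential.map ℂ ℂ A B (KaehlerDifferential.D ℂ A a) :=
    (KaehlerDifferential.map_D ℂ ℂ A B a).symm
  change hb.lift D1.liftKaehlerDifferential (KaehlerDifferential.D ℂ B (algebraMap A B a)) = _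
  rw [h1, hb.lift_eq, Derivation.liftKaehlerDifferential_comp_D]
  rfl

theorem der_quot {B : Type} [CommRing B] [Algebra ℂ B] (π : A →ₐ[ℂ] B)
    (hπ : Function.Surjective π) (D : Derivation ℂ A A) (h : ∀ a, π a = 0 → π (D a) = 0) :
    ∃ D' : Derivation ℂ B B, ∀ a, D' (π a) = π (D a) := by
  exact ⟨Derivation.liftOfSurjective hπ h, fun a => Derivation.liftOfSurjective_apply hπ h a⟩

theorem LC.loc {B : Type} [CommRing B] [Algebra ℂ B] [Algebra A B] [IsScalarTower ℂ A B]
    (M : Submonoid A) [IsLocalization M B] {w' : B →ₐ[ℂ] ℂ} {y : ι → A}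
    (H : LC (w'.comp (IsScalarTower.toAlgHom ℂ A B)) y) : LC w' fun i => algebraMap A B (y i) := by
  refine ⟨fun i => H.van i, fun f hf => ?_, ?_⟩
  · obtain ⟨⟨a, s⟩, hs⟩ := IsLocalization.surj M f
    have hs' : f * algebraMap A B s = algebraMap A B a := hs
    have ha : (w'.comp (IsScalarTower.toAlgHom ℂ A B)) a = 0 := by
      change w' (algebraMap A B a) = 0
      rw [← hs', map_mul, hf, zero_mul]
    obtain ⟨h, h0, hh⟩ := H.gen a ha
    have hu : w' (algebraMap A B s) ≠ 0 := ((IsLocalization.map_units B s).map w').ne_zero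
    refine ⟨algebraMap A B h * algebraMap A B s, ?_, ?_⟩
    · rw [map_mul]; exact mul_ne_zero h0 hu
    · have e : algebraMap A B h * algebraMap A B s * f = algebraMap A B (h * a) := by
        rw [map_mul, ← hs']; ring
      rw [e]
      have hm := Ideal.mem_map_of_mem (algebraMap A B) hh
      rw [Ideal.map_span, ← Set.range_comp] at hm
      exact hm
  · obtain ⟨E, Δ, h0, hE⟩ := H.dual
    choose E' hE' using fun i => der_loc (B := B) M (E i)
    refine ⟨E', algebraMap A B Δ, h0, fun i j => ?_⟩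
    rw [hE', hE]
    split_ifs
    · rfl
    · exact map_zero _

theorem Snc.loc {B : Type} [CommRing B] [Algebra ℂ B] [Algebra A B] [IsScalarTower ℂ A B]
    (M : Submonoid A) [IsLocalization M B] {w' : B →ₐ[ℂ] ℂ} {σ : ℕ → A} {n : ℕ}
    (H : Snc σ (w'.comp (IsScalarTower.toAlgHom ℂ A B)) n) :
    Snc (fun j => algebraMap A B (σ j)) w' n := by
  obtain ⟨y, lab, H1, H2⟩ := H
  refine ⟨fun i => algebraMap A B (y i), lab, H1.loc M, fun i j h => ?_, fun j h => H2.ex j h⟩
  rw [H2.eq i j h]

theorem Reg.away (H : Reg A) (h : A) : Reg (Localization.Away h) := by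
  intro w'
  obtain ⟨n, y, hy⟩ := H (w'.comp (IsScalarTower.toAlgHom ℂ A (Localization.Away h)))
  exact ⟨n, _, hy.loc (Submonoid.powers h)⟩

private theorem lder_common [IsNoetherianRing A] (v : A →ₐ[ℂ] ℂ) {I J : Ideal A}
    (h : I ≤ sat v J) : ∃ g, v g ≠ 0 ∧ ∀ a ∈ I, g * a ∈ J := by
  classical
  obtain ⟨S, rfl⟩ := IsNoetherian.noetherian I
  have h1 : ∀ s ∈ S, ∃ g, v g ≠ 0 ∧ g * s ∈ J := fun s hs => h (Submodule.subset_span hs)
  choose! g g0 hg using h1
  refine ⟨∏ s ∈ S, g s, ?_, fun a ha => ?_⟩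
  · rw [map_prod]; exact Finset.prod_ne_zero_iff.mpr g0
  · induction ha using Submodule.span_induction with
    | mem x hx =>
      rw [← Finset.mul_prod_erase S g hx, mul_comm (g x), mul_assoc]
      exact J.mul_mem_left _ (hg x hx)
    | zero => rw [mul_zero]; exact zero_mem _
    | add x z _ _ hx hz => rw [mul_add]; exact add_mem hx hz
    | smul c x _ hx =>
      rw [smul_eq_mul, mul_left_comm]
      exact J.mul_mem_left _ hx

private theorem lder_pres (D : Derivation ℂ A A) {S : Set A} (h : ∀ s ∈ S, D s = 0) {a : A}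
    (ha : a ∈ Ideal.span S) : D a ∈ Ideal.span S := by
  induction ha using Submodule.span_induction with
  | mem x hx => rw [h x hx]; exact zero_mem _
  | zero => rw [map_zero]; exact zero_mem _
  | add x z _ _ hx hz => rw [map_add]; exact add_mem hx hz
  | smul c x hx' hx =>
    rw [smul_eq_mul, Derivation.leibniz, smul_eq_mul, smul_eq_mul]
    exact add_mem (Ideal.mul_mem_left _ _ hx) (Ideal.mul_mem_right _ _ hx')

theorem snc_quot {B : Type} [CommRing B] [Algebra ℂ B] (π : A →ₐ[ℂ] B)
    (hπ : Function.Surjective π) {w' : B →ₐ[ℂ] ℂ} {σ : ℕ → A} {y : ι → A} {lab : ι → WithBot ℕ}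
    (H : LC (w'.comp π) y) (L : Lab σ (w'.comp π) y lab) (P : Finset ι)
    (hk : sat (w'.comp π) (RingHom.ker π) = sat (w'.comp π) (Ideal.span (y '' P))) {σ' : ℕ → B}
    (hσ : ∀ j, (σ' j = π (σ j) ∧ ∀ i ∈ P, lab i ≠ j) ∨ w' (σ' j) ≠ 0) :
    Snc σ' w' (Fintype.card ι - P.card) := by
  classical
  haveI : IsNoetherianRing A := Algebra.FiniteType.isNoetherianRing ℂ A
  haveI : Algebra.FiniteType ℂ B := Algebra.FiniteType.of_surjective π hπ
  obtain ⟨h, h0, hh⟩ := lder_common (w'.comp π) (I := RingHom.ker π)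
    (J := Ideal.span (y '' P)) (hk ▸ le_sat _ _)
  obtain ⟨g, g0, hg⟩ := lder_common (w'.comp π) (I := Ideal.span (y '' P))
    (J := RingHom.ker π) (hk ▸ le_sat _ _)
  obtain ⟨E, Δ, hΔ, hE⟩ := H.dual
  have hpres : ∀ k, k ∉ P → ∀ a, π a = 0 → π (((g * h) • E k) a) = 0 := by
    intro k hkP a ha
    have h1 : E k (h * a) ∈ Ideal.span (y '' P) := by
      refine lder_pres (E k) ?_ (hh a ha)
      rintro _ ⟨p, hp, rfl⟩
      rw [hE, if_neg]
      rintro rfl
      exact hkP hp
    have h2 : π (g * E k (h * a)) = 0 := hg _ h1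
    have e : ((g * h) • E k) a = g * E k (h * a) - g * E k h * a := by
      simp only [Derivation.smul_apply, Derivation.leibniz, smul_eq_mul]; ring
    rw [e, map_sub, h2, map_mul, ha, mul_zero, sub_zero]
  choose E' hE' using fun k : {i // i ∉ P} => der_quot π hπ _ (hpres k.1 k.2)
  have hLC : LC w' fun k : {i // i ∉ P} => π (y k.1) := by
    refine ⟨fun k => H.van k.1, fun f hf => ?_, E', π (g * h * Δ), ?_, fun i j => ?_⟩
    · obtain ⟨a, rfl⟩ := hπ f
      obtain ⟨l, l0, hl⟩ := H.gen a hf
      refine ⟨π g * π l, by rw [map_mul]; exact mul_ne_zero g0 l0, ?_⟩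
      have key : ∀ x ∈ Ideal.span (Set.range y),
          π g * π x ∈ Ideal.span (Set.range fun k : {i // i ∉ P} => π (y k.1)) := by
        intro x hx
        induction hx using Submodule.span_induction with
        | mem x hx =>
          obtain ⟨i, rfl⟩ := hx
          by_cases hi : i ∈ P
          · have h3 : π (g * y i) = 0 := hg _ (Ideal.subset_span ⟨i, hi, rfl⟩)
            rw [← map_mul, h3]
            exact zero_mem _
          · exact Ideal.mul_mem_left _ _ (Ideal.subset_span ⟨⟨i, hi⟩, rfl⟩)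
        | zero => rw [map_zero, mul_zero]; exact zero_mem _
        | add x z _ _ hx hz => rw [map_add, mul_add]; exact add_mem hx hz
        | smul c x _ hx =>
          rw [smul_eq_mul, map_mul, mul_left_comm]
          exact Ideal.mul_mem_left _ _ hx
      have h4 := key _ hl
      rwa [map_mul, ← mul_assoc] at h4
    · have e : w' (π (g * h * Δ)) = (w'.comp π) g * (w'.comp π) h * (w'.comp π) Δ := by
        rw [← map_mul, ← map_mul]; rfl
      rw [e]
      exact mul_ne_zero (mul_ne_zero g0 h0) hΔ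
    · rw [hE', Derivation.smul_apply, hE, smul_eq_mul]
      by_cases hij : i = j
      · rw [if_pos hij, if_pos (congrArg Subtype.val hij)]
      · rw [if_neg hij, if_neg (fun e => hij (Subtype.ext e)), mul_zero, map_zero]
  refine Snc.of_fintype hLC (lab := fun k =>
    if ∃ j : ℕ, lab k.1 = j ∧ w' (σ' j) = 0 then lab k.1 else ⊥) ⟨fun k j hj => ?_, fun j hj => ?_⟩ ?_
  · by_cases hc : ∃ j : ℕ, lab k.1 = j ∧ w' (σ' j) = 0
    · rw [if_pos hc] at hj
      obtain ⟨j', h1, h2⟩ := hc
      have hjj : j' = j := by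
        rw [h1] at hj
        exact_mod_cast hj
      subst hjj
      rw [((hσ j').resolve_right (not_not.mpr h2)).1, L.eq _ _ h1]
    · rw [if_neg hc] at hj
      exact absurd hj WithBot.bot_ne_coe
  · obtain ⟨h1, h2⟩ := (hσ j).resolve_right (not_not.mpr hj)
    obtain ⟨i, hi⟩ := L.ex j (by rw [h1] at hj; exact hj)
    refine ⟨⟨i, fun hp => h2 i hp hi⟩, ?_⟩
    rw [if_pos ⟨j, hi, hj⟩]
    exact hi
  · rw [Fintype.card_subtype_compl, Fintype.card_coe]

theorem reg_field {K : Type} [Field K] [Algebra ℂ K] : Reg K := by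
  intro w'
  refine ⟨0, Fin.elim0, fun i => i.elim0, fun f hf => ?_, fun i => i.elim0, 1, by simp,
    fun i => i.elim0⟩
  rw [(map_eq_zero w').mp hf]
  exact zero_mem _

end Pool.Agent.P.MP_824f38_ag.N
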