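import Pool.Agent.P.MP_824f38_ag.N.LNbhd
import Pool.Agent.P.MP_824f38_ag.N.LDer

/-! Row NEC-CChart: charts

Chart.lc: lc_of_span with h = 1. lc_chart: h = Δ times the h of lc_span; extend E i (der_loc) and divide by Δ; the d y i span Ω of the localisation since
Ω is generated by the d (a / s). Chart.regular: if y i * f = 0, applying E i repeatedly gives f in (y i ^ n) for all n (y E^n f + n E^(n-1) f = 0);
conclude with sat_krull and mem_of_sat. Chart.reg_quot: snc_quot at a point of the quotient. -/

set_option linter.unusedVariables false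
set_option linter.unusedSectionVars false
set_option linter.style.haveILetI false
set_option linter.dupNamespace false

namespace Pool.Agent.P.MP_824f38_ag.N

variable {A : Type} [CommRing A] [Algebra ℂ A] [Algebra.FiniteType ℂ A] {N : ℕ}
  {y : Fin N → A}

private theorem cc_span {B : Type} [CommRing B] [Algebra ℂ B] [Algebra A B] [IsScalarTower ℂ A B]
    (M : Submonoid A) [IsLocalization M B] {h : A} (hu : IsUnit (algebraMap A B h))
    (hs : ∀ m : KaehlerDifferential ℂ A,
      h • m ∈ Submodule.span A (Set.range fun i => KaehlerDifferential.D ℂ A (y i))) :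
    Submodule.span B (Set.range fun i => KaehlerDifferential.D ℂ B (algebraMap A B (y i))) = ⊤ := by
  set S := Submodule.span B
    (Set.range fun i => KaehlerDifferential.D ℂ B (algebraMap A B (y i))) with hS
  have hunit : ∀ (u : B) (m : KaehlerDifferential ℂ B), IsUnit u → u • m ∈ S → m ∈ S := by
    intro u m hu hm
    obtain ⟨v, rfl⟩ := hu
    have := S.smul_mem (↑v⁻¹ : B) hm
    rwa [smul_smul, Units.inv_mul, one_smul] at this
  have hmap : ∀ m ∈ Submodule.span A (Set.range fun i => KaehlerDifferential.D ℂ A (y i)),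
      KaehlerDifferential.map ℂ ℂ A B m ∈ S := by
    intro m hm
    induction hm using Submodule.span_induction with
    | mem x hx =>
      obtain ⟨i, rfl⟩ := hx
      rw [KaehlerDifferential.map_D]
      exact Submodule.subset_span ⟨i, rfl⟩
    | zero => rw [map_zero]; exact S.zero_mem
    | add x z _ _ hx hz => rw [map_add]; exact S.add_mem hx hz
    | smul a x _ hx =>
      rw [map_smul, ← algebraMap_smul B a]
      exact S.smul_mem _ hx
  have hA : ∀ a : A, KaehlerDifferential.D ℂ B (algebraMap A B a) ∈ S := by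
    intro a
    refine hunit _ _ hu ?_
    have := hmap _ (hs (KaehlerDifferential.D ℂ A a))
    rwa [map_smul, KaehlerDifferential.map_D, ← algebraMap_smul B h] at this
  rw [eq_top_iff, ← KaehlerDifferential.span_range_derivation, Submodule.span_le]
  rintro _ ⟨b, rfl⟩
  obtain ⟨⟨a, s⟩, hb⟩ := IsLocalization.surj M b
  refine hunit _ _ (IsLocalization.map_units B s) ?_
  have h1 := hA a
  dsimp only at hb
  rw [← hb, Derivation.leibniz] at h1
  have h2 := S.sub_mem h1 (S.smul_mem b (hA s))
  rwa [add_sub_cancel_left] at h2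

private theorem cc_chart {B : Type} [CommRing B] [Algebra ℂ B] [Algebra A B] [IsScalarTower ℂ A B]
    (M : Submonoid A) [IsLocalization M B] {h Δ : A} (hu : IsUnit (algebraMap A B h))
    (hΔ : IsUnit (algebraMap A B Δ)) {E : Fin N → Derivation ℂ A A}
    (hE : ∀ i j, E i (y j) = if i = j then Δ else 0)
    (hs : ∀ m : KaehlerDifferential ℂ A,
      h • m ∈ Submodule.span A (Set.range fun i => KaehlerDifferential.D ℂ A (y i))) :
    Chart fun i => algebraMap A B (y i) := by
  refine ⟨?_, cc_span M hu hs⟩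
  choose E' hE' using fun i => der_loc (B := B) M (E i)
  obtain ⟨v, hv⟩ := hΔ
  refine ⟨fun i => (↑v⁻¹ : B) • E' i, fun i j => ?_⟩
  rw [Derivation.smul_apply, hE', hE, smul_eq_mul]
  split_ifs
  · rw [← hv, Units.inv_mul]
  · rw [map_zero, mul_zero]

private theorem cc_unit {h a : A} (ha : a ∣ h) :
    IsUnit (algebraMap A (Localization.Away h) a) :=
  isUnit_of_dvd_unit (map_dvd _ ha) (IsLocalization.Away.algebraMap_isUnit h)

theorem Chart.lc (H : Chart y) (w : A →ₐ[ℂ] ℂ) :
    LC w fun i => y i - algebraMap ℂ A (w (y i)) := by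
  obtain ⟨E, hE⟩ := H.dual
  refine ⟨fun i => ?_, ?_, E, 1, by simp, fun i j => ?_⟩
  · simp
  · exact lc_of_span (h := 1) (by simp) fun m => by rw [H.span]; trivial
  · rw [map_sub, Derivation.map_algebraMap, sub_zero, hE]

theorem Chart.reg (H : Chart y) : Reg A := by
  exact fun w => ⟨N, _, H.lc w⟩

theorem Chart.loc {B : Type} [CommRing B] [Algebra ℂ B] [Algebra A B] [IsScalarTower ℂ A B]
    (M : Submonoid A) [IsLocalization M B] (H : Chart y) :
    Chart fun i => algebraMap A B (y i) := by
  obtain ⟨E, hE⟩ := H.dual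
  exact cc_chart M (h := 1) (Δ := 1) (by simp) (by simp) hE fun m => by rw [H.span]; trivial

theorem lc_chart {w : A →ₐ[ℂ] ℂ} (H : LC w y) :
    ∃ h, w h ≠ 0 ∧ ∀ h', h ∣ h' → Chart fun i => toAway h' (y i) := by
  obtain ⟨E, Δ, hΔ, hE⟩ := H.dual
  obtain ⟨h, h0, hs⟩ := lc_span H
  refine ⟨Δ * h, by rw [map_mul]; exact mul_ne_zero hΔ h0, fun h' hh => ?_⟩
  exact cc_chart (B := Localization.Away h') (Submonoid.powers h')
    (cc_unit ((dvd_mul_left h Δ).trans hh)) (cc_unit ((dvd_mul_right Δ h).trans hh)) hE hs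

theorem chart_poly (ν : ℕ) : Chart (MvPolynomial.X : Fin ν → MvPolynomial (Fin ν) ℂ) := by
  refine ⟨⟨fun i => MvPolynomial.pderiv i, fun i j => ?_⟩, ?_⟩
  · by_cases h : i = j
    · subst h; simp
    · rw [if_neg h, MvPolynomial.pderiv_X_of_ne (Ne.symm h)]
  · rw [← (KaehlerDifferential.mvPolynomialBasis ℂ (Fin ν)).span_eq]
    congr 2
    funext i
    rw [KaehlerDifferential.mvPolynomialBasis_apply]

theorem Chart.regular (H : Chart y) (i : Fin N) : y i ∈ nonZeroDivisors A := by
  obtain ⟨E, hE⟩ := H.dual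
  have h1 : E i (y i) = 1 := by rw [hE, if_pos rfl]
  have key : ∀ f : A, y i * f = 0 → f = 0 := by
    intro f hf
    have hrec : ∀ n : ℕ, y i * (E i)^[n + 1] f + ((n : A) + 1) * (E i)^[n] f = 0 := by
      intro n
      induction n with
      | zero =>
        have := congrArg (E i) hf
        rw [Derivation.leibniz, h1, map_zero] at this
        simpa using this
      | succ n ih =>
        have := congrArg (E i) ih
        have hc : E i ((n : A) + 1) = 0 := by
          rw [map_add, Derivation.map_natCast, Derivation.map_one_eq_zero, add_zero]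
        rw [map_add, Derivation.leibniz, Derivation.leibniz, h1, hc, map_zero] at this
        rw [Function.iterate_succ_apply' (E i) (n + 1)]
        rw [Function.iterate_succ_apply' (E i) n] at this ⊢
        simp only [smul_eq_mul] at this
        push_cast
        linear_combination this
    have hpow : ∀ n m : ℕ, (E i)^[m] f ∈ Ideal.span {y i} ^ n := by
      intro n
      induction n with
      | zero => intro m; simp
      | succ n ih =>
        intro m
        have hm : ((m : ℂ) + 1) ≠ 0 := Nat.cast_add_one_ne_zero m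
        have hinv : algebraMap ℂ A ((m : ℂ) + 1)⁻¹ * ((m : A) + 1) = 1 := by
          have : ((m : A) + 1) = algebraMap ℂ A ((m : ℂ) + 1) := by simp
          rw [this, ← map_mul, inv_mul_cancel₀ hm, map_one]
        have he : (E i)^[m] f =
            -algebraMap ℂ A ((m : ℂ) + 1)⁻¹ * ((E i)^[m + 1] f * y i) := by
          linear_combination algebraMap ℂ A ((m : ℂ) + 1)⁻¹ * hrec m - (E i)^[m] f * hinv
        rw [he, pow_succ]
        exact Ideal.mul_mem_left _ _
          (Ideal.mul_mem_mul (ih (m + 1)) (Ideal.subset_span rfl))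
    have : f ∈ (⊥ : Ideal A) := by
      refine mem_of_sat fun w => ?_
      by_cases hw : w (y i) = 0
      · refine sat_krull fun n => le_sat w _ (Ideal.mem_sup_right ?_)
        have hle : Ideal.span {y i} ≤ RingHom.ker w := by
          rw [Ideal.span_le, Set.singleton_subset_iff]; exact hw
        exact Ideal.pow_right_mono hle n (hpow n 0)
      · exact ⟨y i, hw, by rw [hf]; exact Ideal.zero_mem _⟩
    simpa using this
  rw [mem_nonZeroDivisors_iff]
  exact ⟨fun f hf => key f hf, fun f hf => key f (by rw [mul_comm]; exact hf)⟩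

theorem Chart.reg_quot (H : Chart y) (P : Finset (Fin N)) :
    Reg (A ⧸ Ideal.span (y '' P)) := by
  intro w'
  set π : A →ₐ[ℂ] A ⧸ Ideal.span (y '' P) := Ideal.Quotient.mkₐ ℂ _ with hπ
  have hz : ∀ i ∈ P, (w'.comp π) (y i) = 0 := by
    intro i hi
    have : π (y i) = 0 := by
      rw [hπ, Ideal.Quotient.mkₐ_eq_mk, Ideal.Quotient.eq_zero_iff_mem]
      exact Ideal.subset_span ⟨i, hi, rfl⟩
    rw [AlgHom.comp_apply, this, map_zero]
  have himg : (fun i => y i - algebraMap ℂ A ((w'.comp π) (y i))) '' (P : Set (Fin N)) =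
      y '' P := by
    refine Set.image_congr fun i hi => ?_
    rw [hz i hi, map_zero, sub_zero]
  have hker : RingHom.ker π = Ideal.span (y '' P) := by
    ext a
    rw [RingHom.mem_ker, hπ, Ideal.Quotient.mkₐ_eq_mk, Ideal.Quotient.eq_zero_iff_mem]
  have := snc_quot π (Ideal.Quotient.mkₐ_surjective ℂ _) (σ := fun _ => 1) (lab := fun _ => ⊥)
    (H.lc (w'.comp π)) ⟨fun i j h => absurd h WithBot.bot_ne_coe, fun j h => by simp at h⟩ P
    (by rw [himg, hker]) (σ' := fun _ => 1) fun j => Or.inr (by simp)
  obtain ⟨z, _, hz, _⟩ := this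
  exact ⟨_, z, hz⟩

theorem snc_chart {σ : ℕ → A} (hσ : FinDiv σ) {w : A →ₐ[ℂ] ℂ} {n : ℕ} (H : Snc σ w n) :
    ∃ h0, w h0 ≠ 0 ∧ ∀ h, h0 ∣ h → ∃ (z : Fin n → Localization.Away h) (lab : Fin n → WithBot ℕ),
      Chart z ∧ (∀ i (j : ℕ), lab i = j → z i = toAway h (σ j)) ∧
        ∀ j : ℕ, IsUnit (toAway h (σ j)) ∨ ∃ i, lab i = j := by
  classical
  obtain ⟨y, lab, hy, hl⟩ := H
  obtain ⟨m, hm⟩ := hσ
  obtain ⟨h1, h10, hc⟩ := lc_chart hy
  refine ⟨h1 * ∏ j ∈ (Finset.range m).filter (fun j => w (σ j) ≠ 0), σ j, ?_, fun h hh => ?_⟩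
  · rw [map_mul, map_prod]
    exact mul_ne_zero h10 (Finset.prod_ne_zero_iff.2 fun j hj => (Finset.mem_filter.1 hj).2)
  · refine ⟨_, lab, hc h ((dvd_mul_right _ _).trans hh), fun i j hij => by rw [hl.eq i j hij],
      fun j => ?_⟩
    by_cases hw : w (σ j) = 0
    · exact Or.inr (hl.ex j hw)
    · left
      by_cases hj : j < m
      · exact cc_unit (((Finset.dvd_prod_of_mem σ
          (Finset.mem_filter.2 ⟨Finset.mem_range.2 hj, hw⟩)).trans (dvd_mul_left _ _)).trans hh)
      · rw [hm j (not_lt.1 hj), map_one]; exact isUnit_one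

theorem Chart.injective [Nontrivial A] (H : Chart y) : Function.Injective y := by
  obtain ⟨E, hE⟩ := H.dual
  intro i j hij
  by_contra hne
  have h1 := hE i j
  rw [← hij, hE, if_pos rfl, if_neg hne] at h1
  exact one_ne_zero h1

theorem ft_away (h : A) : Algebra.FiniteType ℂ (Localization.Away h) := by
  haveI : Algebra.FinitePresentation A (Localization.Away h) :=
    IsLocalization.Away.finitePresentation h
  exact Algebra.FiniteType.trans (S := A) inferInstance inferInstance

end Pool.Agent.P.MP_824f38_ag.N
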