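import Pool.Agent.P.MP_824f38_ag.N.DRP
import Pool.Agent.P.MP_824f38_ag.F.Defs

/-! Row NEC-GHyp: descent of discontinuous sections along a hypercovering

Fix x and the point set Y k = PtO (hOb X k) x (in bijection with the y of Descent with y.comp (X.str k) = x.x; extend functions
by zero). Descent says that the complex of functions Y k → ℚ, augmented by ℚ, is exact. It is the dual of the
complex of the Y k →₀ ℚ, which is therefore exact (Submodule.exists_le_ker_of_notMem or a dual-annihilator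
argument), and for every ℚ-vector space M the functions Y k → M are the linear maps (Y k →₀ ℚ) → M; extend linear
maps from a subspace (LinearMap.exists_extend). Take M = T x with Module.compHom along ℚ → ℂ → R. -/

set_option linter.unusedVariables false
set_option linter.unusedSectionVars false
set_option linter.style.haveILetI false
set_option linter.dupNamespace false

namespace Pool.Agent.P.MP_824f38_ag.N

private theorem alt_sq {M : Type*} [AddCommGroup M] :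
    ∀ (n : ℕ) (F : Fin (n + 1) → Fin n → M),
      (∀ i j : Fin n, i ≤ j → F j.succ i = F i.castSucc j) →
      ∑ j : Fin (n + 1), (-1 : ℤ) ^ (j : ℕ) • ∑ i : Fin n, (-1 : ℤ) ^ (i : ℕ) • F j i = 0
  | 0, F, _ => by simp
  | n + 1, F, h => by
    have ih := alt_sq n (fun j i => F j.succ i.succ) (fun i j hij => by
      have := h i.succ j.succ (Fin.succ_le_succ_iff.2 hij)
      rwa [Fin.castSucc_succ] at this)
    rw [Fin.sum_univ_succ]
    have e : ∀ j : Fin (n + 1), (-1 : ℤ) ^ ((j.succ : Fin (n + 2)) : ℕ) •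
        ∑ i : Fin (n + 1), (-1 : ℤ) ^ (i : ℕ) • F j.succ i =
        -((-1 : ℤ) ^ (j : ℕ) • F 0 j) +
          (-1 : ℤ) ^ (j : ℕ) • ∑ i : Fin n, (-1 : ℤ) ^ (i : ℕ) • F j.succ i.succ := by
      intro j
      rw [Fin.sum_univ_succ, h 0 j (Fin.zero_le j)]
      simp only [Fin.val_succ, pow_succ, Fin.val_zero, pow_zero, one_smul, mul_neg, mul_one,
        neg_smul, Finset.sum_neg_distrib, smul_add, smul_neg, neg_neg,
        Fin.castSucc_zero]
    rw [Finset.sum_congr rfl fun j _ => e j, Finset.sum_add_distrib, ih, Finset.sum_neg_distrib]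
    simp

private theorem factor {B C M : Type*} [AddCommGroup B] [Module ℚ B] [AddCommGroup C]
    [Module ℚ C] [AddCommGroup M] [Module ℚ M] (β : B →ₗ[ℚ] C) (φ : B →ₗ[ℚ] M)
    (h : LinearMap.ker β ≤ LinearMap.ker φ) : ∃ ψ : C →ₗ[ℚ] M, ∀ b, ψ (β b) = φ b := by
  obtain ⟨ψ, hψ⟩ := LinearMap.exists_extend
    (((LinearMap.ker β).liftQ φ h).comp β.quotKerEquivRange.symm.toLinearMap)
  refine ⟨ψ, fun b => ?_⟩
  have := LinearMap.congr_fun hψ ⟨β b, LinearMap.mem_range_self β b⟩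
  simp only [LinearMap.comp_apply, Submodule.subtype_apply, LinearEquiv.coe_coe] at this
  rw [this, LinearMap.quotKerEquivRange_symm_apply_image]
  rfl

/-- the boundary operator on chains -/
private noncomputable def bd {ι Y Y' : Type} [Fintype ι] (s : ι → ℤ) (f : ι → Y → Y') :
    (Y →₀ ℚ) →ₗ[ℚ] (Y' →₀ ℚ) :=
  Finsupp.linearCombination ℚ fun y => ∑ i, s i • Finsupp.single (f i y) (1 : ℚ)

private theorem bd_single {ι Y Y' M : Type*} [Fintype ι] [AddCommGroup M] [Module ℚ M]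
    (s : ι → ℤ) (f : ι → Y → Y') (φ : (Y' →₀ ℚ) →ₗ[ℚ] M) (y : Y) :
    φ (Finsupp.linearCombination ℚ (fun y => ∑ i, s i • Finsupp.single (f i y) (1 : ℚ))
      (Finsupp.single y 1)) = ∑ i, s i • φ (Finsupp.single (f i y) 1) := by
  rw [Finsupp.linearCombination_single, one_smul, map_sum]
  exact Finset.sum_congr rfl fun i _ => map_zsmul φ _ _

private theorem transfer {ι κ Y₀ Y₁ Y₂ : Type} [Fintype ι] [Fintype κ] (s : ι → ℤ)
    (f : ι → Y₁ → Y₀) (t : κ → ℤ) (e : κ → Y₂ → Y₁)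
    (H : ∀ h : Y₁ → ℚ, (∀ y, ∑ j, t j • h (e j y) = 0) →
      ∃ g : Y₀ → ℚ, ∀ y, h y = ∑ i, s i • g (f i y))
    {M : Type*} [AddCommGroup M] [Module ℚ M] (h : Y₁ → M)
    (hh : ∀ y, ∑ j, t j • h (e j y) = 0) : ∃ g : Y₀ → M, ∀ y, h y = ∑ i, s i • g (f i y) := by
  have ex : LinearMap.ker (bd s f) ≤ LinearMap.range (bd t e) := by
    intro v hv
    by_contra hn
    obtain ⟨φ, hφ, hr⟩ := Submodule.exists_le_ker_of_notMem hn
    obtain ⟨g, hg⟩ := H (fun y => φ (Finsupp.single y 1)) (fun y => by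
      rw [← bd_single t e φ y]
      exact hr (LinearMap.mem_range_self (bd t e) _))
    have : φ = (Finsupp.linearCombination ℚ g).comp (bd s f) := by
      refine Finsupp.lhom_ext' fun y => LinearMap.ext_ring ?_
      change φ (Finsupp.single y 1) =
        Finsupp.linearCombination ℚ g (bd s f (Finsupp.single y 1))
      rw [bd, bd_single, hg y]
      simp
    apply hφ
    rw [this, LinearMap.comp_apply, LinearMap.mem_ker.1 hv, map_zero]
  have h0 : (Finsupp.linearCombination ℚ h).comp (bd t e) = 0 := by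
    refine Finsupp.lhom_ext' fun y => LinearMap.ext_ring ?_
    change Finsupp.linearCombination ℚ h (bd t e (Finsupp.single y 1)) = 0
    rw [bd, bd_single, ← hh y]
    simp
  obtain ⟨ψ, hψ⟩ := factor (bd s f) (Finsupp.linearCombination ℚ h)
    (ex.trans (LinearMap.range_le_ker_iff.2 h0))
  refine ⟨fun y => ψ (Finsupp.single y 1), fun y => ?_⟩
  rw [← bd_single s f ψ y]
  refine Eq.trans ?_ (hψ (Finsupp.single y 1)).symm
  simp

variable {R : Type} [CommRing R] [Algebra ℂ R] [Algebra.FiniteType ℂ R] (Z : PSh R)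
  (X : Hyper R)

private theorem G_sum {A : Ob R} {ι : Type} (S : Finset ι) (c : ι → Z.G.F A) (x : Pt R)
    (y : PtO A x) : (∑ i ∈ S, c i) x y = ∑ i ∈ S, c i x y := by
  classical
  induction S using Finset.induction_on with
  | empty => rfl
  | insert a S ha ih => rw [Finset.sum_insert ha, Finset.sum_insert ha, PSh.G_add, ih]

theorem hAlt_apply (k : ℕ) (c : Z.G.F (hOb X k)) (x : Pt R) (y : PtO (hOb X (k + 1)) x) :
    hAlt Z X k c x y = ∑ i : Fin (k + 2), (-1 : ℤ) ^ (i : ℕ) • c x (y.pre (hFace X k i)) := by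
  rw [hAlt, LinearMap.sum_apply, G_sum]
  rfl

theorem hAlt_sq (k : ℕ) (c : Z.G.F (hOb X k)) : hAlt Z X (k + 1) (hAlt Z X k c) = 0 := by
  refine Z.G_ext fun x y => ?_
  rw [hAlt_apply, PSh.G_zero]
  simp only [hAlt_apply]
  refine alt_sq (k + 2) (fun j i => c x ((y.pre (hFace X (k + 1) j)).pre (hFace X k i)))
    fun i j hij => congrArg (c x) (PtO.ext ?_)
  change (y.y.comp (X.d (k + 1) j.succ)).comp (X.d k i) =
    (y.y.comp (X.d (k + 1) i.castSucc)).comp (X.d k j)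
  rw [AlgHom.comp_assoc, AlgHom.comp_assoc, X.d_d k i j hij]

private theorem self_eq {x : Pt R} (y y' : PtO (Ob.self R) x) : y = y' :=
  PtO.ext (y.hy.trans y'.hy.symm)

theorem hAlt_aug (c : Z.G.F (Ob.self R)) : hAlt Z X 0 (Z.G.map (hAug X) c) = 0 := by
  refine Z.G_ext fun x y => ?_
  rw [hAlt_apply, PSh.G_zero, Fin.sum_univ_two, PSh.G_map, PSh.G_map,
    self_eq ((y.pre (hFace X 0 0)).pre (hAug X)) ((y.pre (hFace X 0 1)).pre (hAug X))]
  simp

theorem hyp_injR (hX : X.DescentR) {c : Z.G.F (Ob.self R)} (h : Z.G.map (hAug X) c = 0) :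
    c = 0 := by
  refine Z.G_ext fun x y => ?_
  obtain ⟨y', hy'⟩ := (hX x.V x.root x.x).1
  rw [self_eq y (PtO.pre (hAug X) ⟨y', hy'⟩)]
  exact congrFun (congrFun h x) ⟨y', hy'⟩

open Classical in
/-- extension by zero -/
private noncomputable def ext0 {k : ℕ} {x : Pt R} (h : PtO (hOb X k) x → ℚ)
    (y : X.B k →ₐ[ℂ] x.V) : ℚ :=
  if hy : y.comp (X.str k) = x.x then h ⟨y, hy⟩ else 0

private theorem ext0_y {k : ℕ} {x : Pt R} (h : PtO (hOb X k) x → ℚ) (y : PtO (hOb X k) x) :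
    ext0 X h y.y = h y := dif_pos y.hy

private theorem cob_y {k : ℕ} {x : Pt R} (g : (X.B k →ₐ[ℂ] x.V) → ℚ)
    (y : PtO (hOb X (k + 1)) x) :
    X.cob k g y.y = ∑ i : Fin (k + 2), (-1 : ℤ) ^ (i : ℕ) • g (y.pre (hFace X k i)).y := by
  refine Finset.sum_congr rfl fun i _ => ?_
  rw [zsmul_eq_mul]
  push_cast
  rfl

private theorem cob_ext0 {k : ℕ} {x : Pt R} (h : PtO (hOb X k) x → ℚ)
    (hh : ∀ y : PtO (hOb X (k + 1)) x,
      ∑ i : Fin (k + 2), (-1 : ℤ) ^ (i : ℕ) • h (y.pre (hFace X k i)) = 0)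
    (y : X.B (k + 1) →ₐ[ℂ] x.V) (hy : y.comp (X.str (k + 1)) = x.x) :
    X.cob k (ext0 X h) y = 0 := by
  refine (cob_y X (ext0 X h) ⟨y, hy⟩).trans (Eq.trans ?_ (hh ⟨y, hy⟩))
  exact Finset.sum_congr rfl fun i _ => by rw [ext0_y]

private theorem val_alt {k : ℕ} (T : ∀ x, Submodule R (Z.Stalk x)) {c : Z.G.F (hOb X k)}
    (hc : c ∈ KK T (hOb X k) ⊤) (h : hAlt Z X k c = 0) (x : Pt R)
    (y : PtO (hOb X (k + 1)) x) :
    ∑ i : Fin (k + 2), (-1 : ℤ) ^ (i : ℕ) •
      (⟨c x (y.pre (hFace X k i)), (hc x _).1⟩ : T x) = 0 := by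
  refine Subtype.ext ?_
  rw [Submodule.coe_sum]
  exact (hAlt_apply Z X k c x y).symm.trans (congrFun (congrFun h x) y)

theorem hyp_zeroR (hX : X.DescentR) (T : ∀ x, Submodule R (Z.Stalk x)) {c : Z.G.F (hOb X 0)}
    (hc : c ∈ KK T (hOb X 0) ⊤) (h : hAlt Z X 0 c = 0) :
    ∃ b ∈ KK T (Ob.self R) ⊤, Z.G.map (hAug X) b = c := by
  have key : ∀ x : Pt R, ∃ g : T x, ∀ y, c x y = g := by
    intro x
    letI : Module ℚ (T x) := Module.compHom (T x) ((algebraMap ℂ R).comp (algebraMap ℚ ℂ))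
    obtain ⟨g, hg⟩ := transfer (ι := Unit) (Y₀ := Unit) (fun _ => 1) (fun _ _ => ())
      (fun i : Fin (0 + 2) => (-1 : ℤ) ^ (i : ℕ))
      (fun i (y : PtO (hOb X (0 + 1)) x) => y.pre (hFace X 0 i))
      (fun h' hh' => by
        obtain ⟨q, hq⟩ := (hX x.V x.root x.x).2.1 (ext0 X h') (cob_ext0 X h' hh')
        refine ⟨fun _ => q, fun y => ?_⟩
        rw [← ext0_y X h' y, hq y.y y.hy]
        simp)
      (fun y => (⟨c x y, (hc x y).1⟩ : T x)) (val_alt Z X T hc h x)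
    refine ⟨g (), fun y => ?_⟩
    have := congrArg Subtype.val (hg y)
    simpa using this
  choose g hg using key
  exact ⟨fun x _ => g x, fun x y => ⟨(g x).2, fun h => absurd h y.not_kills_top⟩,
    Z.G_ext fun x y => (hg x y).symm⟩

theorem hyp_succR (hX : X.DescentR) (T : ∀ x, Submodule R (Z.Stalk x)) (k : ℕ)
    {c : Z.G.F (hOb X (k + 1))} (hc : c ∈ KK T (hOb X (k + 1)) ⊤) (h : hAlt Z X (k + 1) c = 0) :
    ∃ b ∈ KK T (hOb X k) ⊤, hAlt Z X k b = c := by
  have key : ∀ x : Pt R, ∃ g : PtO (hOb X k) x → T x, ∀ y, c x y =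
      ∑ i : Fin (k + 2), (-1 : ℤ) ^ (i : ℕ) • (g (y.pre (hFace X k i)) : Z.Stalk x) := by
    intro x
    letI : Module ℚ (T x) := Module.compHom (T x) ((algebraMap ℂ R).comp (algebraMap ℚ ℂ))
    obtain ⟨g, hg⟩ := transfer (fun i : Fin (k + 2) => (-1 : ℤ) ^ (i : ℕ))
      (fun i (y : PtO (hOb X (k + 1)) x) => y.pre (hFace X k i))
      (fun i : Fin (k + 1 + 2) => (-1 : ℤ) ^ (i : ℕ))
      (fun i (y : PtO (hOb X (k + 1 + 1)) x) => y.pre (hFace X (k + 1) i))
      (fun h' hh' => by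
        obtain ⟨q, hq⟩ := (hX x.V x.root x.x).2.2 k (ext0 X h') (cob_ext0 X h' hh')
        refine ⟨fun y => q y.y, fun y => ?_⟩
        rw [← ext0_y X h' y, hq y.y y.hy, cob_y])
      (fun y => (⟨c x y, (hc x y).1⟩ : T x)) (val_alt Z X T hc h x)
    refine ⟨g, fun y => ?_⟩
    have := congrArg Subtype.val (hg y)
    rw [Submodule.coe_sum] at this
    exact this
  choose g hg using key
  exact ⟨fun x y => g x y, fun x y => ⟨(g x y).2, fun h => absurd h y.not_kills_top⟩,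
    Z.G_ext fun x y => (hAlt_apply Z X k _ x y).trans (hg x y).symm⟩

theorem _root_.Pool.Agent.P.MP_824f38_ag.Hyper.Descent.toR {X : Hyper R} (h : X.Descent) :
    X.DescentR := fun V _ _ _ _ _ x => h V x

theorem hyp_inj (hX : X.Descent) {c : Z.G.F (Ob.self R)} (h : Z.G.map (hAug X) c = 0) :
    c = 0 := hyp_injR Z X hX.toR h

theorem hyp_zero (hX : X.Descent) (T : ∀ x, Submodule R (Z.Stalk x)) {c : Z.G.F (hOb X 0)}
    (hc : c ∈ KK T (hOb X 0) ⊤) (h : hAlt Z X 0 c = 0) :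
    ∃ b ∈ KK T (Ob.self R) ⊤, Z.G.map (hAug X) b = c := hyp_zeroR Z X hX.toR T hc h

theorem hyp_succ (hX : X.Descent) (T : ∀ x, Submodule R (Z.Stalk x)) (k : ℕ)
    {c : Z.G.F (hOb X (k + 1))} (hc : c ∈ KK T (hOb X (k + 1)) ⊤) (h : hAlt Z X (k + 1) c = 0) :
    ∃ b ∈ KK T (hOb X k) ⊤, hAlt Z X k b = c := hyp_succR Z X hX.toR T k hc h

end Pool.Agent.P.MP_824f38_ag.N
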