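import Pool.Agent.P.MP_824f38_ag.V.All

/-! The results of block V. -/

namespace Pool.Agent.P.MP_824f38_ag.N

theorem v_vanish : V.VanishStmt := V.vanish

theorem v_fin : V.FinStmt := V.fin

theorem v_gen : V.GenStmt := V.gen

theorem v_inj : V.InjStmt := V.inj

theorem v_chart : V.ChartStmt := V.chart

theorem v_rad : V.RadStmt := V.rad

theorem v_field_inj : V.FieldInjStmt := V.field_inj

end Pool.Agent.P.MP_824f38_ag.N
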