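import Pool.Agent.P.MP_824f38_ag.N.XDefs
import Pool.Agent.P.MP_824f38_ag.N.VIn
import Pool.Agent.P.MP_824f38_ag.N.CBasis
import Pool.Agent.P.MP_824f38_ag.N.CChart
import Pool.Agent.P.MP_824f38_ag.N.GHyp

/-! Row NEC-XB: the column q = 0

Lift t to R and take ω = pull X.aug of mono (lifts) S with S of cardinality p (mono_mem, pull_mem); X.delta 0 ω = 0 by d_aug (Fin.sum_univ_two). The field K = FractionRing B is a valuation ring; Descent lifts R → B → K to y on X.B 0; pull y ω = pull ψ (mono X S) with ψ = aeval t injective (pull_mono), which is nonzero by v_field_inj, chart_basis chart_poly, Basis.ne_zero. -/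

set_option linter.unusedVariables false
set_option linter.unusedSectionVars false
set_option linter.style.haveILetI false
set_option linter.dupNamespace false

namespace Pool.Agent.P.MP_824f38_ag.N

variable {R : Type} [CommRing R] [Algebra ℂ R] [Algebra.FiniteType ℂ R]

theorem h_zeroR (X : Hyper R) (hX : X.DescentR) {B : Type} [CommRing B] [IsDomain B] [Algebra ℂ B]
    (π : R →ₐ[ℂ] B) (hπ : Function.Surjective π) {n : ℕ} {t : Fin n → B}
    (ht : AlgebraicIndependent ℂ t) {p : ℕ} (hp : p ≤ n) : X.HNonzero p 0 := by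
  classical
  choose s hs using fun i => hπ (t i)
  obtain ⟨S, -, hS⟩ := Finset.exists_subset_card_eq (s := (Finset.univ : Finset (Fin n))) (n := p)
    (by rwa [Finset.card_univ, Fintype.card_fin])
  let x : R →ₐ[ℂ] KB B := (IsScalarTower.toAlgHom ℂ B (KB B)).comp π
  obtain ⟨⟨y, hy⟩, -⟩ := hX (KB B) (rootClosed_of_isAlgClosed _) x
  let ψ : MvPolynomial (Fin n) ℂ →ₐ[ℂ] KB B :=
    (IsScalarTower.toAlgHom ℂ B (KB B)).comp (MvPolynomial.aeval t)
  have hψ : Function.Injective ψ :=
    (inj_KB B).comp (algebraicIndependent_iff_injective_aeval.1 ht)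
  refine ⟨pull X.aug (mono s S), pull_mem _ (hS ▸ mono_mem s S), ?_, fun h0 => ?_⟩
  · show altSum (X.d 0) _ = 0
    rw [altSum, Fin.sum_univ_two, pull_pull, pull_pull, X.d_aug]
    simp
  · have h1 : pull y (pull X.aug (mono s S)) = pull ψ (mono MvPolynomial.X S) := by
      have hy' : y.comp X.aug = x := hy
      have h2 : mono s S = pull (MvPolynomial.aeval s) (mono MvPolynomial.X S) := by
        rw [pull_mono]
        simp only [MvPolynomial.aeval_X]
      have h3 : x.comp (MvPolynomial.aeval s) = ψ := by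
        refine MvPolynomial.algHom_ext fun i => ?_
        simp only [x, ψ, AlgHom.comp_apply, MvPolynomial.aeval_X, hs]
      rw [pull_pull, hy', h2, pull_pull, h3]
    rw [h0, map_zero] at h1
    obtain ⟨b, hb⟩ := chart_basis (chart_poly n)
    refine b.ne_zero S ?_
    rw [hb]
    have hsm : Algebra.Smooth ℂ (MvPolynomial (Fin n) ℂ) := ⟨inferInstance, inferInstance⟩
    exact v_field_inj _ _ ψ hψ (h1.symm.trans (map_zero _).symm)

theorem h_zero (X : Hyper R) (hX : X.Descent) {B : Type} [CommRing B] [IsDomain B] [Algebra ℂ B]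
    (π : R →ₐ[ℂ] B) (hπ : Function.Surjective π) {n : ℕ} {t : Fin n → B}
    (ht : AlgebraicIndependent ℂ t) {p : ℕ} (hp : p ≤ n) : X.HNonzero p 0 :=
  h_zeroR X hX.toR π hπ ht hp

end Pool.Agent.P.MP_824f38_ag.N
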