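import Pool.Agent.P.MP_824f38_ag.N.Alg

/-! Row NEC-AChase: the Hodge-de Rham chase

Signs are not needed since d and δ commute. (1) Extend ω_p = ω to ω_k in K 0 k (n-k), p <= k <= n, with
d ω_k = δ ω_(k+1), d ω_n = 0 (hvan; d ω_k is δ-closed). Put ω_k = 0 for k < p. (2) For any a there are
η_k in K 0 k (n-1-k), k < n, with ω_k - δ η_k - d η_(k-1) in K a k (n-k) (descending induction with
hrow, hrow0; η_n = 0, η_(-1) = 0). (3) Ascending: statement P(k): for every a there are η_k with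
ω_k - δ η_k in K a k (n-k) and, if k < p, η_(k+1) with ω_(k+1) - δ η_(k+1) - d η_k in K a, and so on up to p.
Step for k < p: ω'_k = - δ η_k lies in Zy (K a k) ⊓ Bd (K 0 k), so it is δ ξ with ξ in K a' k (hpz);
η_k + ξ = δ ζ by hlow; then ω_(k+1) = δ (η_(k+1) + d ζ) + (ω'_(k+1) - d ξ). It is convenient to index
by pairs (k, j) with an equation k + j = n and to store the families as functions ∀ j, W j. -/

set_option linter.unusedVariables false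
set_option linter.unusedSectionVars false
set_option linter.style.haveILetI false
set_option linter.dupNamespace false

namespace Pool.Agent.P.MP_824f38_ag.N

universe u

variable {R : Type} [CommRing R] {W : ℕ → Type u} [∀ j, AddCommGroup (W j)] [∀ j, Module R (W j)]

private theorem anti_le (K : ℕ → ℕ → Fm R W) (anti : ∀ a p j, K (a + 1) p j ≤ K a p j)
    {a b : ℕ} (h : a ≤ b) (p j : ℕ) : K b p j ≤ K a p j := by
  induction h with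
  | refl => exact le_rfl
  | step _ ih => exact (anti _ p j).trans ih

/-- the part of the chase below the given class -/
private theorem chaseA {δ : Df R W} (hδ : Sq δ) (d : ∀ j, W j →+ W j)
    (comm : ∀ j c, d (j + 1) (δ j c) = δ j (d j c)) (dd : ∀ j c, d j (d j c) = 0)
    (K : ℕ → ℕ → Fm R W) (sc : ∀ a p, Sc δ (K a p))
    (dmem : ∀ a p j, ∀ c ∈ K a p j, d j c ∈ K a (p + 1) j)
    (hrow : ∀ a p j, ∀ c ∈ K 0 (p + 1) j, d j c ∈ K a (p + 2) j →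
      ∃ b ∈ K 0 p j, c - d j b ∈ K a (p + 1) j)
    (hrow0 : ∀ a j, ∀ c ∈ K 0 0 j, d j c ∈ K a 1 j → c ∈ K a 0 j) (n : ℕ)
    (hvan : ∀ p q, n < p + q → Van δ (K 0 p) q) (a : ℕ) :
    ∀ j k, k + j = n → ∀ x ∈ K 0 k j, δ j (d j x) = 0 →
      ∃ b ∈ Bd δ (K 0 k) ⊥ j, δ j b = 0 ∧ d j (x - b) ∈ K a (k + 1) j := by
  intro j
  induction j with
  | zero =>
    intro k hk x hx hdx
    have h1 : d 0 x ∈ Bd δ (K 0 (k + 1)) ⊥ 0 :=
      hvan (k + 1) 0 (by omega) (mem_Zy.2 ⟨dmem 0 k 0 x hx, hdx⟩)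
    rw [Bd_zero, Submodule.mem_bot] at h1
    refine ⟨0, zero_mem _, map_zero _, ?_⟩
    rw [sub_zero, h1]
    exact zero_mem _
  | succ j ih =>
    intro k hk x hx hdx
    have h1 : d (j + 1) x ∈ Bd δ (K 0 (k + 1)) ⊥ (j + 1) :=
      hvan (k + 1) (j + 1) (by omega) (mem_Zy.2 ⟨dmem 0 k (j + 1) x hx, hdx⟩)
    obtain ⟨y, hy, hyx⟩ := mem_Bd_succ.1 h1
    have h2 : δ j (d j y) = 0 := by rw [← comm, hyx, dd]
    obtain ⟨b, hb, hb0, hb1⟩ := ih (k + 1) (by omega) y hy h2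
    have hbK : b ∈ K 0 (k + 1) j := by
      cases j with
      | zero =>
        rw [Bd_zero, Submodule.mem_bot] at hb
        rw [hb]; exact zero_mem _
      | succ i =>
        obtain ⟨z, hz, rfl⟩ := mem_Bd_succ.1 hb
        exact sc 0 (k + 1) i z hz
    obtain ⟨η, hη, hη1⟩ := hrow a k j (y - b) (sub_mem hy hbK) hb1
    refine ⟨δ j η, mem_Bd_succ.2 ⟨η, hη, rfl⟩, hδ j η, ?_⟩
    have h3 : d (j + 1) (x - δ j η) = δ j (y - b - d j η) := by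
      rw [map_sub, comm, map_sub, map_sub, hyx, hb0, sub_zero]
    rw [h3]
    exact sc a (k + 1) j _ hη1

/-- the part of the chase above the given class -/
private theorem chaseB {δ : Df R W} (hδ : Sq δ) (d : ∀ j, W j →+ W j)
    (comm : ∀ j c, d (j + 1) (δ j c) = δ j (d j c)) (dd : ∀ j c, d j (d j c) = 0)
    (K : ℕ → ℕ → Fm R W) (sc : ∀ a p, Sc δ (K a p)) (anti : ∀ a p j, K (a + 1) p j ≤ K a p j)
    (dmem : ∀ a p j, ∀ c ∈ K a p j, d j c ∈ K a (p + 1) j)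
    (hrow : ∀ a p j, ∀ c ∈ K 0 (p + 1) j, d j c ∈ K a (p + 2) j →
      ∃ b ∈ K 0 p j, c - d j b ∈ K a (p + 1) j)
    (hrow0 : ∀ a j, ∀ c ∈ K 0 0 j, d j c ∈ K a 1 j → c ∈ K a 0 j) (n : ℕ)
    (hpz : ∀ p q a', ∃ a, Zy δ (K a p) q ⊓ Bd δ (K 0 p) ⊥ q ≤ Bd δ (K a' p) ⊥ q)
    {p : ℕ} (hlow : ∀ p' q', p' < p → p' + q' + 1 = n → Van δ (K 0 p') q') :
    ∀ k j, k < p → k + (j + 1) + 1 = n → ∀ a', ∃ a, ∀ η ∈ K 0 k (j + 1),
      d (j + 2) (δ (j + 1) η) ∈ K a (k + 1) (j + 2) →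
      ∃ μ ∈ K 0 (k + 1) j, d j μ = 0 ∧ d (j + 1) η - δ j μ ∈ K a' (k + 1) (j + 1) := by
  have fin : ∀ k j, k < p → k + (j + 1) + 1 = n → ∀ a', ∃ a, ∀ η ∈ K 0 k (j + 1),
      δ (j + 1) η ∈ K a k (j + 2) →
      ∃ μ ∈ K 0 (k + 1) j, d j μ = 0 ∧ d (j + 1) η - δ j μ ∈ K a' (k + 1) (j + 1) := by
    intro k j hk hn a'
    obtain ⟨a, ha⟩ := hpz k (j + 2) a'
    refine ⟨a, fun η hη h => ?_⟩
    have h1 : δ (j + 1) η ∈ Bd δ (K a' k) ⊥ (j + 2) :=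
      ha ⟨mem_Zy.2 ⟨h, hδ _ _⟩, mem_Bd_succ.2 ⟨η, hη, rfl⟩⟩
    obtain ⟨ξ, hξ, hξη⟩ := mem_Bd_succ.1 h1
    have h2 : η - ξ ∈ Bd δ (K 0 k) ⊥ (j + 1) := by
      refine hlow k (j + 1) hk hn (mem_Zy.2 ⟨sub_mem hη (anti_le K anti (Nat.zero_le a') _ _ hξ), ?_⟩)
      rw [map_sub, hξη, sub_self]
    obtain ⟨ζ, hζ, hζη⟩ := mem_Bd_succ.1 h2
    refine ⟨d j ζ, dmem 0 k j ζ hζ, dd j ζ, ?_⟩
    have h3 : d (j + 1) η - δ j (d j ζ) = d (j + 1) ξ := by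
      rw [← comm, hζη, map_sub, sub_sub_cancel]
    rw [h3]
    exact dmem a' k (j + 1) ξ hξ
  intro k
  induction k with
  | zero =>
    intro j hk hn a'
    obtain ⟨a, ha⟩ := fin 0 j hk hn a'
    exact ⟨a, fun η hη h => ha η hη (hrow0 a (j + 2) _ (sc 0 0 (j + 1) η hη) h)⟩
  | succ k ih =>
    intro j hk hn a'
    obtain ⟨a1, ha1⟩ := fin (k + 1) j hk hn a'
    obtain ⟨a2, ha2⟩ := ih (j + 1) (by omega) (by omega) a1
    refine ⟨max a1 a2, fun η hη h => ?_⟩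
    obtain ⟨θ, hθ, hθ1⟩ := hrow (max a1 a2) k (j + 2) _ (sc 0 (k + 1) (j + 1) η hη) h
    have h1 : d (j + 1 + 2) (δ (j + 1 + 1) θ) ∈ K a2 (k + 1) (j + 1 + 2) := by
      have h2 := sc (max a1 a2) (k + 1) (j + 2) _ (neg_mem hθ1)
      have h3 : δ (j + 2) (-(δ (j + 1) η - d (j + 2) θ)) = d (j + 2 + 1) (δ (j + 2) θ) := by
        rw [comm, neg_sub, map_sub, hδ (j + 1) η, sub_zero]
      rw [h3] at h2
      exact anti_le K anti (le_max_right a1 a2) _ _ h2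
    obtain ⟨μ, hμ, hμ0, hμ1⟩ := ha2 θ hθ h1
    have h4 : δ (j + 1) (η - μ) ∈ K a1 (k + 1) (j + 2) := by
      have h5 := add_mem (anti_le K anti (le_max_left a1 a2) _ _ hθ1) hμ1
      rw [map_sub]
      have h6 : δ (j + 1) η - δ (j + 1) μ =
          δ (j + 1) η - d (j + 2) θ + (d (j + 2) θ - δ (j + 1) μ) := by abel
      rw [h6]
      exact h5
    obtain ⟨ν, hν, hν0, hν1⟩ := ha1 (η - μ) (sub_mem hη hμ) h4
    refine ⟨ν, hν, hν0, ?_⟩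
    rw [map_sub, hμ0, sub_zero] at hν1
    exact hν1

theorem chase {δ : Df R W} (hδ : Sq δ) (d : ∀ j, W j →+ W j)
    (comm : ∀ j c, d (j + 1) (δ j c) = δ j (d j c)) (dd : ∀ j c, d j (d j c) = 0)
    (K : ℕ → ℕ → Fm R W) (sc : ∀ a p, Sc δ (K a p)) (anti : ∀ a p j, K (a + 1) p j ≤ K a p j)
    (dmem : ∀ a p j, ∀ c ∈ K a p j, d j c ∈ K a (p + 1) j)
    (hrow : ∀ a p j, ∀ c ∈ K 0 (p + 1) j, d j c ∈ K a (p + 2) j →
      ∃ b ∈ K 0 p j, c - d j b ∈ K a (p + 1) j)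
    (hrow0 : ∀ a j, ∀ c ∈ K 0 0 j, d j c ∈ K a 1 j → c ∈ K a 0 j) (n : ℕ)
    (hvan : ∀ p q, n < p + q → Van δ (K 0 p) q)
    (hpz : ∀ p q a', ∃ a, Zy δ (K a p) q ⊓ Bd δ (K 0 p) ⊥ q ≤ Bd δ (K a' p) ⊥ q)
    {p q : ℕ} (hn : p + q = n) (hq : 1 ≤ q)
    (hlow : ∀ p' q', p' < p → p' + q' + 1 = n → Van δ (K 0 p') q') (a : ℕ) :
    Zy δ (K 0 p) q ≤ Zy δ (K a p) q ⊔ Bd δ (K 0 p) ⊥ q := by
  obtain ⟨m, rfl⟩ : ∃ m, q = m + 1 := ⟨q - 1, by omega⟩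
  intro ω hω
  obtain ⟨hωK, hω0⟩ := mem_Zy.1 hω
  have hdω : δ (m + 1) (d (m + 1) ω) = 0 := by rw [← comm, hω0, map_zero]
  have key : ∀ β ∈ K 0 p m, ω - δ m β ∈ K a p (m + 1) →
      ω ∈ Zy δ (K a p) (m + 1) ⊔ Bd δ (K 0 p) ⊥ (m + 1) := by
    intro β hβ h
    refine Submodule.mem_sup.2 ⟨ω - δ m β, mem_Zy.2 ⟨h, ?_⟩, δ m β, mem_Bd_succ.2 ⟨β, hβ, rfl⟩,
      sub_add_cancel _ _⟩
    rw [map_sub, hω0, hδ, sub_zero]
  cases p with
  | zero =>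
    obtain ⟨b, hb, -, hb1⟩ := chaseA hδ d comm dd K sc dmem hrow hrow0 n hvan a (m + 1) 0 hn ω hωK hdω
    obtain ⟨β, hβ, rfl⟩ := mem_Bd_succ.1 hb
    exact key β hβ (hrow0 a (m + 1) _ (sub_mem hωK (sc 0 0 m β hβ)) hb1)
  | succ k =>
    obtain ⟨a1, ha1⟩ := chaseB hδ d comm dd K sc anti dmem hrow hrow0 n hpz hlow k m
      (Nat.lt_succ_self k) (by omega) a
    obtain ⟨b, hb, -, hb1⟩ := chaseA hδ d comm dd K sc dmem hrow hrow0 n hvan (max a a1) (m + 1)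
      (k + 1) hn ω hωK hdω
    obtain ⟨β, hβ, rfl⟩ := mem_Bd_succ.1 hb
    obtain ⟨θ, hθ, hθ1⟩ := hrow (max a a1) k (m + 1) _ (sub_mem hωK (sc 0 (k + 1) m β hβ)) hb1
    have h1 : d (m + 2) (δ (m + 1) θ) ∈ K a1 (k + 1) (m + 2) := by
      have h2 := sc (max a a1) (k + 1) (m + 1) _ (neg_mem hθ1)
      have h3 : δ (m + 1) (-(ω - δ m β - d (m + 1) θ)) = d (m + 1 + 1) (δ (m + 1) θ) := by
        rw [comm, neg_sub, map_sub, map_sub, hω0, hδ m β, sub_zero, sub_zero]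
      rw [h3] at h2
      exact anti_le K anti (le_max_right a a1) _ _ h2
    obtain ⟨μ, hμ, -, hμ1⟩ := ha1 θ hθ h1
    refine key (β + μ) (add_mem hβ hμ) ?_
    have h5 := add_mem (anti_le K anti (le_max_left a a1) _ _ hθ1) hμ1
    have h6 : ω - δ m (β + μ) = ω - δ m β - d (m + 1) θ + (d (m + 1) θ - δ m μ) := by
      rw [map_add]; abel
    rw [h6]
    exact h5

end Pool.Agent.P.MP_824f38_ag.N
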