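import Pool.Agent.P.MP_824f38_ag.N.CNe

/-! Row NEC-CRes: the residue homotopy

One step e → e + single i 1 (i ∈ J): let θ = y i • E i. V.iota θ preserves Ne y J e and Ne y J (e + single i 1), and V.lie θ ω - e i • ω lies in Ne y J (e + single i 1) for ω in Ne y J e
(check on the generators a • (y^(e - 1_P) mono P * β): lie θ multiplies y^(e-1_P) mono P by e i, and lie θ maps all forms into Kil (y i), whose product with a generator lies in the next module).
So e i • ω = d (iota ω) + iota (d ω) - (lie ω - e i ω). Then induct on Σ (e' j - e j). -/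

set_option linter.unusedVariables false
set_option linter.unusedSectionVars false
set_option linter.style.haveILetI false
set_option linter.dupNamespace false

namespace Pool.Agent.P.MP_824f38_ag.N

variable {A : Type} [CommRing A] [Algebra ℂ A] [Algebra.FiniteType ℂ A] {N : ℕ}
  {y : Fin N → A}

/-- the coefficient of a generator -/
private noncomputable def CRes_g (y : Fin N → A) (J P : Finset (Fin N)) (f : Fin N → ℕ) : A :=
  ∏ j ∈ J, y j ^ (if j ∈ P then f j - 1 else f j)

private theorem CRes_gen {J P : Finset (Fin N)} (f : Fin N → ℕ) (hP : P ⊆ J) (β : DR A) :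
    CRes_g y J P f • (mono y P * β) ∈ Ne y J f :=
  Submodule.subset_span ⟨P, hP, β, rfl⟩

private theorem CRes_ind {J : Finset (Fin N)} {f : Fin N → ℕ} {Q : DR A → Prop} (h0 : Q 0)
    (hadd : ∀ a b, Q a → Q b → Q (a + b))
    (hg : ∀ P, P ⊆ J → ∀ β, Q (CRes_g y J P f • (mono y P * β))) {ω : DR A}
    (h : ω ∈ Ne y J f) : Q ω := by
  suffices hs : ∀ a : A, Q (a • ω) by simpa using hs 1
  induction h using Submodule.span_induction with
  | mem x hx =>
    obtain ⟨P, hP, β, rfl⟩ := hx
    intro a
    have := hg P hP (a • β)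
    rw [mul_smul_comm, smul_comm] at this
    exact this
  | zero => intro a; rw [smul_zero]; exact h0
  | add x z _ _ hx hz => intro a; rw [smul_add]; exact hadd _ _ (hx a) (hz a)
  | smul c x _ hx => intro a; rw [smul_smul]; exact hx _

private theorem CRes_step (y : Fin N → A) {J : Finset (Fin N)} {i : Fin N} (hi : i ∈ J)
    (n m : Fin N → ℕ) (h : m i = n i + 1) (h' : ∀ j, j ≠ i → m j = n j) :
    ∏ j ∈ J, y j ^ m j = (∏ j ∈ J, y j ^ n j) * y i := by
  rw [← Finset.mul_prod_erase J _ hi, ← Finset.mul_prod_erase J (fun j => y j ^ n j) hi, h,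
    pow_succ, Finset.prod_congr rfl (fun j hj => by rw [h' j (Finset.ne_of_mem_erase hj)])]
  ring

private theorem CRes_inv (P : Finset (Fin N)) :
    V.inv (mono y P) = mono y P ∨ V.inv (mono y P) = -mono y P := by
  rw [V.inv_of_mem (mono_mem y P)]
  rcases neg_one_pow_eq_or (DR A) P.card with h | h
  · left; rw [h, one_mul]
  · right; rw [h, neg_one_mul]

private theorem CRes_split {P : Finset (Fin N)} {i : Fin N} (hi : i ∈ P) :
    mono y P = V.sgn P i • (dd (y i) * mono y (P.erase i)) := by
  have := dd_mul_mono y (S := P.erase i) (i := i) (Finset.notMem_erase i P)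
  rw [Finset.insert_erase hi] at this
  rw [this, smul_smul, V.sgn_sq, one_smul]

section
variable {θ : Derivation ℂ A A} {i : Fin N} (hθ : ∀ j, θ (y j) = if i = j then y i else 0)
include hθ

private theorem CRes_list (L : List (Fin N)) (hL : i ∉ L) :
    V.iota θ (L.map fun j => dd (y j)).prod = 0 ∧ V.lie θ (L.map fun j => dd (y j)).prod = 0 := by
  induction L with
  | nil =>
    have h1 : ((1 : DR A)) = V.fn ℂ (1 : A) := (map_one _).symm
    rw [List.map_nil, List.prod_nil, h1, V.iota_fn, V.lie_fn, Derivation.map_one_eq_zero, map_zero]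
    exact ⟨rfl, rfl⟩
  | cons j L ih =>
    rw [List.mem_cons, not_or] at hL
    obtain ⟨h1, h2⟩ := ih hL.2
    have hj : θ (y j) = 0 := by rw [hθ, if_neg hL.1]
    have e : dd (y j) = V.dk ℂ (y j) := rfl
    rw [List.map_cons, List.prod_cons, V.iota_mul, V.lie_mul, h1, h2, e, V.iota_dk, V.lie_dk, hj,
      map_zero, V.dk_zero, zero_mul, mul_zero, mul_zero, add_zero]
    exact ⟨rfl, rfl⟩

private theorem CRes_not {P : Finset (Fin N)} (hi : i ∉ P) :
    V.iota θ (mono y P) = 0 ∧ V.lie θ (mono y P) = 0 :=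
  CRes_list hθ _ (by rwa [Finset.mem_sort])

private theorem CRes_mem {P : Finset (Fin N)} (hi : i ∈ P) :
    V.iota θ (mono y P) = V.sgn P i • (y i • mono y (P.erase i)) ∧
      V.lie θ (mono y P) = mono y P := by
  obtain ⟨h1, h2⟩ := CRes_not hθ (Finset.notMem_erase i P)
  have e : dd (y i) = V.dk ℂ (y i) := rfl
  have hj : θ (y i) = y i := by rw [hθ, if_pos rfl]
  constructor
  · rw [CRes_split hi, map_zsmul, V.iota_mul, h1, mul_zero, add_zero, e, V.iota_dk, hj,
      V.smul_eq]
  · conv_lhs => rw [CRes_split hi, map_zsmul, V.lie_mul, h2, mul_zero, add_zero, e, V.lie_dk, hj]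
    rw [← e, ← CRes_split hi]

private theorem CRes_der (n : Fin N → ℕ) (S : Finset (Fin N)) :
    θ (∏ j ∈ S, y j ^ n j) = ((if i ∈ S then n i else 0 : ℕ) : A) * ∏ j ∈ S, y j ^ n j := by
  induction S using Finset.induction_on with
  | empty => simp
  | insert j S hj ih =>
    rw [Finset.prod_insert hj, Derivation.leibniz, ih, Derivation.leibniz_pow, hθ]
    by_cases h : i = j
    · subst h
      rw [if_neg hj, if_pos rfl, if_pos (Finset.mem_insert_self _ _)]
      rcases Nat.eq_zero_or_pos (n i) with h0 | h0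
      · simp [h0]
      · obtain ⟨m, hm⟩ : ∃ m, n i = m + 1 := ⟨n i - 1, by omega⟩
        rw [hm, Nat.add_sub_cancel]
        simp only [smul_eq_mul, nsmul_eq_mul]
        push_cast
        ring
    · rw [if_neg h]
      simp only [Finset.mem_insert, h, false_or, smul_eq_mul, mul_zero, smul_zero, add_zero]
      ring

private theorem CRes_iota {J : Finset (Fin N)} {f : Fin N → ℕ} (hf : ∀ j ∈ J, 1 ≤ f j)
    {ω : DR A} (h : ω ∈ Ne y J f) : V.iota θ ω ∈ Ne y J f := by
  refine CRes_ind (Q := fun ω => V.iota θ ω ∈ Ne y J f) ?_ ?_ ?_ h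
  · rw [map_zero]; exact zero_mem _
  · intro a b ha hb; rw [map_add]; exact add_mem ha hb
  · intro P hP β
    rw [V.smul_eq, V.iota_fn_mul, ← V.smul_eq, V.iota_mul, smul_add]
    refine add_mem ?_ ?_
    · by_cases hi : i ∈ P
      · have hg : CRes_g y J (P.erase i) f = CRes_g y J P f * y i := by
          refine CRes_step y (hP hi) _ _ ?_ ?_
          · have := hf i (hP hi)
            rw [if_neg (Finset.notMem_erase i P), if_pos hi]; omega
          · intro j hj
            simp only [Finset.mem_erase, ne_eq, hj, not_false_eq_true, true_and]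
        rw [(CRes_mem hθ hi).1, smul_mul_assoc, smul_mul_assoc, smul_comm, smul_smul, ← hg]
        exact zsmul_mem (CRes_gen f ((Finset.erase_subset i P).trans hP) β) _
      · rw [(CRes_not hθ hi).1, zero_mul, smul_zero]; exact zero_mem _
    · rcases CRes_inv (y := y) P with e | e
      · rw [e]; exact CRes_gen f hP _
      · rw [e, neg_mul, smul_neg]; exact neg_mem (CRes_gen f hP _)

private theorem CRes_lie {J : Finset (Fin N)} {f f' : Fin N → ℕ} (hf : ∀ j ∈ J, 1 ≤ f j)
    (hi : i ∈ J) (h1 : f' i = f i + 1) (h2 : ∀ j, j ≠ i → f' j = f j)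
    (hl : ∀ γ, ∃ β β', V.lie θ γ = y i • β + dd (y i) * β')
    {ω : DR A} (h : ω ∈ Ne y J f) : V.lie θ ω - (f i : A) • ω ∈ Ne y J f' := by
  refine CRes_ind (Q := fun ω => V.lie θ ω - (f i : A) • ω ∈ Ne y J f') ?_ ?_ ?_ h
  · rw [map_zero, smul_zero, sub_zero]; exact zero_mem _
  · intro a b ha hb
    rw [map_add, smul_add, add_sub_add_comm]; exact add_mem ha hb
  · intro P hP γ
    have hd : θ (CRes_g y J P f) =
        ((if i ∈ P then f i - 1 else f i : ℕ) : A) * CRes_g y J P f := by
      have := CRes_der hθ (fun j => if j ∈ P then f j - 1 else f j) J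
      rw [if_pos hi] at this
      exact this
    have key : V.lie θ (CRes_g y J P f • (mono y P * γ)) -
        (f i : A) • CRes_g y J P f • (mono y P * γ) =
          CRes_g y J P f • (mono y P * V.lie θ γ) := by
      rw [V.smul_eq (CRes_g y J P f), V.lie_mul, V.lie_fn, V.lie_mul, hd, ← V.smul_eq,
        ← V.smul_eq, ← V.smul_eq, smul_add, mul_smul]
      by_cases hP' : i ∈ P
      · have h3 : (f i : A) = ((f i - 1 : ℕ) : A) + 1 := by
          have := hf i hi
          rw [← Nat.cast_succ]; congr 1; omega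
        rw [if_pos hP', (CRes_mem hθ hP').2, h3, add_smul, one_smul]
        abel
      · rw [if_neg hP', (CRes_not hθ hP').2, zero_mul, smul_zero]
        abel
    rw [key]
    obtain ⟨β, β', hβ⟩ := hl γ
    rw [hβ, mul_add, smul_add]
    refine add_mem ?_ ?_
    · have hg : CRes_g y J P f' = CRes_g y J P f * y i := by
        refine CRes_step y hi _ _ ?_ ?_
        · have := hf i hi
          rw [h1]; split_ifs <;> omega
        · intro j hj
          rw [h2 j hj]
      rw [mul_smul_comm, smul_smul, ← hg]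
      exact CRes_gen f' hP β
    · have e : dd (y i) = V.dk ℂ (y i) := rfl
      have hc : mono y P * dd (y i) = dd (y i) * V.inv (mono y P) := by
        rw [e, V.dk_mul_comm, V.inv_inv]
      have hm : CRes_g y J P f • (dd (y i) * mono y P * β') ∈ Ne y J f' := by
        by_cases hP' : i ∈ P
        · rw [dd_mul_mono_of_mem y hP', zero_mul, smul_zero]; exact zero_mem _
        · have hg : CRes_g y J P f = CRes_g y J (insert i P) f' := by
            refine Finset.prod_congr rfl fun j _ => ?_
            by_cases hj : j = i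
            · subst hj
              rw [if_neg hP', if_pos (Finset.mem_insert_self _ _), h1, Nat.add_sub_cancel]
            · simp only [Finset.mem_insert, hj, false_or, h2 j hj]
          rw [dd_mul_mono y hP', smul_mul_assoc, smul_comm, hg]
          exact zsmul_mem (CRes_gen f' (Finset.insert_subset hi hP) β') _
      rw [← mul_assoc, hc]
      rcases CRes_inv (y := y) P with e' | e'
      · rw [e']; exact hm
      · rw [e', mul_neg, neg_mul, smul_neg]; exact neg_mem hm

end

private theorem CRes_iota_smul (a : A) (E : Derivation ℂ A A) (γ : DR A) :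
    V.iota (a • E) γ = a • V.iota E γ := by
  induction γ using V.DR_induction with
  | h0 b => rw [V.iota_fn, V.iota_fn, smul_zero]
  | h1 b => rw [V.iota_dk, V.iota_dk, Derivation.smul_apply, smul_eq_mul, map_mul, V.smul_eq]
  | hadd x z hx hz => rw [map_add, map_add, hx, hz, smul_add]
  | hmul x z hx hz =>
    rw [V.iota_mul, V.iota_mul, hx, hz, smul_add, smul_mul_assoc, mul_smul_comm]

private theorem CRes_one (H : Chart y) {J : Finset (Fin N)} {f f' : Fin N → ℕ}
    (hf : ∀ j ∈ J, 1 ≤ f j) {i : Fin N} (hi : i ∈ J) (h1 : f' i = f i + 1)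
    (h2 : ∀ j, j ≠ i → f' j = f j) {ω : DR A} (h : ω ∈ Ne y J f) (hd : V.dR ω ∈ Ne y J f') :
    ∃ η ∈ Ne y J f, ω - V.dR η ∈ Ne y J f' := by
  obtain ⟨E, hE⟩ := H.dual
  have hθ : ∀ j, (y i • E i) (y j) = if i = j then y i else 0 := by
    intro j
    rw [Derivation.smul_apply, hE]
    split_ifs
    · rw [smul_eq_mul, mul_one]
    · rw [smul_zero]
  have hf' : ∀ j ∈ J, 1 ≤ f' j := by
    intro j hj
    by_cases e : j = i
    · subst e; omega
    · rw [h2 j e]; exact hf j hj
  have hl : ∀ γ, ∃ β β', V.lie (y i • E i) γ = y i • β + dd (y i) * β' := by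
    intro γ
    refine ⟨V.dR (V.iota (E i) γ) + V.iota (E i) (V.dR γ), V.iota (E i) γ, ?_⟩
    have e : dd (y i) = V.dk ℂ (y i) := rfl
    rw [V.lie_def, CRes_iota_smul, CRes_iota_smul, V.smul_eq (y i) (V.iota (E i) γ), V.dR_mul,
      V.dR_fn, V.inv_fn, ← V.smul_eq, smul_add, e]
    abel
  have hne : (f i : ℂ) ≠ 0 := by
    have := hf i hi
    exact Nat.cast_ne_zero.2 (by omega)
  let c : A := algebraMap ℂ A (f i : ℂ)⁻¹
  have hc : c * (f i : A) = 1 := by
    rw [← map_natCast (algebraMap ℂ A), ← map_mul, inv_mul_cancel₀ hne, map_one]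
  refine ⟨c • V.iota (y i • E i) ω, Submodule.smul_mem _ _ (CRes_iota hθ hf h), ?_⟩
  have hη : V.dR (c • V.iota (y i • E i) ω) = c • V.dR (V.iota (y i • E i) ω) := by
    rw [V.smul_eq, V.dR_fn_mul (V.dk_algebraMap _), ← V.smul_eq]
  have key : ω - V.dR (c • V.iota (y i • E i) ω) =
      c • (V.iota (y i • E i) (V.dR ω) - (V.lie (y i • E i) ω - (f i : A) • ω)) := by
    rw [hη, V.lie_def, smul_sub, smul_sub, smul_add, smul_smul, hc, one_smul]
    abel
  rw [key]
  exact Submodule.smul_mem _ _ (sub_mem (CRes_iota hθ hf' hd) (CRes_lie hθ hf hi h1 h2 hl h))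

theorem residue (H : Chart y) {J : Finset (Fin N)} {e e' : Fin N → ℕ} (he : ∀ j ∈ J, 1 ≤ e j)
    (hee : ∀ j ∈ J, e j ≤ e' j) {ω : DR A} (h : ω ∈ Ne y J e) (hd : V.dR ω ∈ Ne y J e') :
    ∃ η ∈ Ne y J e, ω - V.dR η ∈ Ne y J e' := by
  induction hn : ∑ j ∈ J, (e' j - e j) using Nat.strong_induction_on generalizing e ω with
  | _ n ih =>
    by_cases hex : ∃ i ∈ J, e i < e' i
    · obtain ⟨i, hi, hlt⟩ := hex
      have h1 : Function.update e i (e i + 1) i = e i + 1 := Function.update_self _ _ _
      have h2 : ∀ j, j ≠ i → Function.update e i (e i + 1) j = e j :=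
        fun j hj => Function.update_of_ne hj _ _
      generalize Function.update e i (e i + 1) = e1 at h1 h2
      have ha : ∀ j ∈ J, e j ≤ e1 j := by
        intro j hj
        by_cases c : j = i
        · subst c; omega
        · rw [h2 j c]
      have hb : ∀ j ∈ J, e1 j ≤ e' j := by
        intro j hj
        by_cases c : j = i
        · subst c; omega
        · rw [h2 j c]; exact hee j hj
      obtain ⟨η, hη, hr⟩ := CRes_one H he hi h1 h2 h (Ne_anti hb hd)
      have hlt' : ∑ j ∈ J, (e' j - e1 j) < n := by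
        rw [← hn]
        refine Finset.sum_lt_sum (fun j hj => ?_) ⟨i, hi, by omega⟩
        have := ha j hj
        omega
      obtain ⟨η', hη', hr'⟩ := ih _ hlt' (fun j hj => (he j hj).trans (ha j hj)) hb hr
        (by rw [map_sub, V.dR_dR, sub_zero]; exact hd) rfl
      refine ⟨η + η', add_mem hη (Ne_anti ha hη'), ?_⟩
      rw [map_add, ← sub_sub]
      exact hr'
    · refine ⟨0, zero_mem _, ?_⟩
      rw [map_zero, sub_zero]
      refine Ne_anti (fun j hj => ?_) h
      by_contra c
      exact hex ⟨j, hj, by omega⟩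

end Pool.Agent.P.MP_824f38_ag.N
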