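import Pool.Agent.P.MP_824f38_ag.N.GNt

/-! Row NEC-GRow: stalkwise exact sequences give exact rows

Induction on j over the tower: let Hyp(Z,u,S,T) be the list of hypotheses. (a) Hyp gives the conclusion for j = 0
by a pointwise choice (choose 0 at the points that kill 𝔥; every element of a stalk of S at a point of A is a germ over some B
under A, in 𝒞). (b) Hyp(Z,u,S,T) gives Hyp(Z.Q, u.Q, S.Q, T.Q): let c in KK (S (p+1)).st B ⊤ with u c = t + η z, t in KK (T (p+2)).st.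
At the point y the germ of z is in the stalk of S (p+2), so locally z in S (p+2); η (u z) = - u t, so locally u z in T (p+3);
by hex locally z = u s + t'; then u (c - η s) lies in KK (T (p+2)).st and (a) applies. Local statements are combined with
PtO.Loc (compose morphisms). -/

set_option linter.unusedVariables false
set_option linter.unusedSectionVars false
set_option linter.style.haveILetI false
set_option linter.dupNamespace false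

namespace Pool.Agent.P.MP_824f38_ag.N

variable {R : Type} [CommRing R] [Algebra ℂ R] [Algebra.FiniteType ℂ R] {Z Z' Z'' : PSh R}

private theorem grow_rep (S : Sub Z) {A : Ob R} {x : Pt R} (y : PtO A x) {s : Z.Stalk x}
    (hs : s ∈ S.st x) : ∃ (B : Ob R) (φ : Hom A B) (y' : PtO B x), y'.pre φ = y ∧
      ∃ z ∈ S.S B, Z.germ y' z = s := by
  rcases hs with rfl | ⟨B, y', z, hz, rfl⟩
  · exact ⟨A, Hom.id A, y, rfl, 0, zero_mem _, map_zero _⟩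
  · obtain ⟨i, φ, ψ, e, rfl⟩ := y.exists_common y'
    exact ⟨_, φ, i.pt, e, Z.map ψ z, S.mem ψ z hz, Z.germ_map _ _ _⟩

private theorem grow_st_mono {S T : Sub Z} (h : ∀ A, T.S A ≤ S.S A) (x : Pt R) :
    T.st x ≤ S.st x := by
  rintro s (rfl | ⟨B, y, z, hz, rfl⟩)
  · exact zero_mem _
  · exact S.germ_mem y (h B hz)

private theorem grow_maps {𝒞 : Ob R → Prop} (h𝒞 : UpC 𝒞) {u : NT Z Z'} {S : Sub Z} {T : Sub Z'}
    (h : LocMaps 𝒞 u S T) {A : Ob R} (hA : 𝒞 A) {x : Pt R} (y : PtO A x) {s : Z.Stalk x}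
    (hs : s ∈ S.st x) : u.st x s ∈ T.st x := by
  obtain ⟨B, φ, y', -, z, hz, rfl⟩ := grow_rep S y hs
  rw [u.st_germ]
  exact T.germ_mem_iff.2 (h B (h𝒞 A B φ hA) z hz x y')

private theorem grow_eta (S : Sub Z) {A : Ob R} {z : Z.F A} (hz : z ∈ S.S A) :
    Z.eta A z ∈ KK S.st A ⊤ :=
  fun x y => ⟨S.germ_mem y hz, fun h => absurd h y.not_kills_top⟩

private theorem grow_res (S : Sub Z) {A B : Ob R} (φ : Hom A B) {c : Z.G.F A}
    (hc : c ∈ KK S.st A ⊤) : Z.G.map φ c ∈ KK S.st B ⊤ :=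
  fun x y => ⟨(hc x _).1, fun h => absurd h y.not_kills_top⟩

private structure RHyp (𝒞 : Ob R → Prop) (Z : PSh R) (u : ℕ → NT Z Z) (S T : ℕ → Sub Z) :
    Prop where
  uu : ∀ p x s, (u (p + 1)).st x ((u p).st x s) = 0
  le : ∀ p x, (T p).st x ≤ (S p).st x
  hS : ∀ p, LocMaps 𝒞 (u p) (S p) (S (p + 1))
  hT : ∀ p, LocMaps 𝒞 (u p) (T p) (T (p + 1))
  ex : ∀ p A, 𝒞 A → ∀ (x : Pt R) (y : PtO A x), ∀ s ∈ (S (p + 1)).st x,
    (u (p + 1)).st x s ∈ (T (p + 2)).st x →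
      ∃ s' ∈ (S p).st x, s - (u p).st x s' ∈ (T (p + 1)).st x

private theorem RHyp.row {𝒞 : Ob R → Prop} {u : ℕ → NT Z Z} {S T : ℕ → Sub Z}
    (H : RHyp 𝒞 Z u S T) (p : ℕ) {A : Ob R} (hA : 𝒞 A) (𝔥 : Ideal A.A) {c : Z.G.F A}
    (hc : c ∈ KK (S (p + 1)).st A 𝔥) (h : (u (p + 1)).G.app A c ∈ KK (T (p + 2)).st A 𝔥) :
    ∃ c' ∈ KK (S p).st A 𝔥, c - (u p).G.app A c' ∈ KK (T (p + 1)).st A 𝔥 := by
  have key : ∀ (x : Pt R) (y : PtO A x), ∃ s' : Z.Stalk x,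
      (s' ∈ (S p).st x ∧ (y.Kills 𝔥 → s' = 0)) ∧ c x y - (u p).st x s' ∈ (T (p + 1)).st x := by
    intro x y
    by_cases e : y.Kills 𝔥
    · exact ⟨0, ⟨zero_mem _, fun _ => rfl⟩, by
        rw [(hc x y).2 e, map_zero, sub_zero]; exact zero_mem _⟩
    · obtain ⟨s', h1, h2⟩ := H.ex p A hA x y _ (hc x y).1 (h x y).1
      exact ⟨s', ⟨h1, fun e' => absurd e' e⟩, h2⟩
  choose c' h1 h2 using key
  refine ⟨c', h1, fun x y => ⟨h2 x y, fun e => ?_⟩⟩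
  rw [PSh.G_sub, NT.G_app, (hc x y).2 e, (h1 x y).2 e, map_zero, sub_zero]

private theorem RHyp.succ {𝒞 : Ob R → Prop} (h𝒞 : UpC 𝒞) {u : ℕ → NT Z Z} {S T : ℕ → Sub Z}
    (H : RHyp 𝒞 Z u S T) :
    RHyp 𝒞 Z.Q (fun p => (u p).Q) (fun p => (S p).Q) (fun p => (T p).Q) := by
  refine ⟨fun p x s => ?_, fun p x => grow_st_mono (fun A => ?_) x,
    fun p => locMaps_tw h𝒞 (H.hS p) 1, fun p => locMaps_tw h𝒞 (H.hT p) 1, ?_⟩
  · obtain ⟨i, z, rfl⟩ := Z.Q.germ_surj s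
    obtain ⟨c, rfl⟩ := Z.cls_surj _ z
    rw [NT.st_germ, NT.st_germ, NT.Q_cls, NT.Q_cls,
      show (u (p + 1)).G.app _ ((u p).G.app _ c) = 0 from Z.G_ext fun x y => H.uu p x _,
      map_zero, map_zero]
  · exact Submodule.map_mono fun c hc x y => ⟨H.le p x (hc x y).1, (hc x y).2⟩
  intro p A hA x y s hs h
  obtain ⟨B, φ, y1, -, _, ⟨c, hc, rfl⟩, rfl⟩ := grow_rep _ y hs
  have hB := h𝒞 A B φ hA
  rw [NT.st_germ, NT.Q_cls] at h
  obtain ⟨B2, φ2, y2, rfl, t, ht, e⟩ := (T (p + 2)).Q.germ_mem_iff.1 h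
  have hB2 := h𝒞 B B2 φ2 hB
  rw [PSh.map_cls, eq_comm, ← sub_eq_zero, ← map_sub, PSh.cls_eq_zero] at e
  obtain ⟨z, hz⟩ := e
  have hz' : Z.germ y2 z = (u (p + 1)).st x (c x (y2.pre φ2)) - t x y2 :=
    congrFun (congrFun hz x) y2
  obtain ⟨s', h1, h2⟩ := H.ex (p + 1) B2 hB2 x y2 (Z.germ y2 z) (by
    rw [hz']
    exact sub_mem (grow_maps h𝒞 (H.hS _) hB2 y2 (hc x _).1) (H.le _ x (ht x y2).1)) (by
    rw [hz', map_sub, H.uu, zero_sub]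
    exact neg_mem (grow_maps h𝒞 (H.hT _) hB2 y2 (ht x y2).1))
  obtain ⟨B3, φ3, y3, rfl, w, hw, rfl⟩ := grow_rep _ y2 h1
  rw [NT.st_germ, ← Z.germ_map, ← map_sub] at h2
  obtain ⟨B4, φ4, y4, rfl, h3⟩ := (T (p + 2)).germ_mem_iff.1 h2
  have hB4 := h𝒞 B3 B4 φ4 (h𝒞 B2 B3 φ3 hB2)
  obtain ⟨c', h4, h5⟩ := H.row p hB4 ⊤
    (c := Z.G.map φ4 (Z.G.map φ3 (Z.G.map φ2 c)) - Z.eta B4 (Z.map φ4 w))
    (sub_mem (grow_res _ _ (grow_res _ _ (grow_res _ _ hc))) (grow_eta _ ((S _).mem φ4 w hw))) (by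
      have e1 : (u (p + 1)).G.app B4 (Z.G.map φ4 (Z.G.map φ3 (Z.G.map φ2 c)) -
          Z.eta B4 (Z.map φ4 w)) = Z.G.map φ4 (Z.G.map φ3 t) +
            Z.eta B4 (Z.map φ4 (Z.map φ3 z - (u (p + 1)).app B3 w)) := by
        rw [map_sub, NT.G_eta, NT.nat, NT.nat, NT.nat, NT.nat, map_sub, map_sub, ← Z.map_eta,
          ← Z.map_eta, ← Z.map_eta, hz, map_sub, map_sub]
        abel
      rw [e1]
      exact add_mem (grow_res _ _ (grow_res _ _ ht)) (grow_eta _ h3))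
  refine ⟨Z.Q.germ y4 (Z.cls B4 c'), (S p).Q.germ_mem y4 ⟨c', h4, rfl⟩, ?_⟩
  rw [NT.st_germ, NT.Q_cls, ← Z.Q.germ_map, ← Z.Q.germ_map, ← Z.Q.germ_map, ← map_sub,
    PSh.map_cls, PSh.map_cls, PSh.map_cls, ← map_sub]
  refine (T (p + 1)).Q.germ_mem y4 ⟨_, h5, ?_⟩
  rw [map_sub, map_sub, map_sub, Z.cls_eq_zero.2 ⟨_, rfl⟩, sub_zero]

theorem row_exact {𝒞 : Ob R → Prop} (h𝒞 : UpC 𝒞) (u : ℕ → NT Z Z)
    (huu : ∀ p A z, (u (p + 1)).app A ((u p).app A z) = 0) (S T : ℕ → Sub Z)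
    (hTS : ∀ p A, (T p).S A ≤ (S p).S A) (hS : ∀ p, LocMaps 𝒞 (u p) (S p) (S (p + 1)))
    (hT : ∀ p, LocMaps 𝒞 (u p) (T p) (T (p + 1)))
    (hex : ∀ p A, 𝒞 A → ∀ z ∈ (S (p + 1)).S A, (u (p + 1)).app A z ∈ (T (p + 2)).S A →
      ∀ (x : Pt R) (y : PtO A x), y.Loc fun B φ =>
        ∃ z' ∈ (S p).S B, Z.map φ z - (u p).app B z' ∈ (T (p + 1)).S B)
    (j p : ℕ) {A : Ob R} (hA : 𝒞 A) (𝔥 : Ideal A.A) {c : Z.C A j} (hc : c ∈ (S (p + 1)).K A 𝔥 j)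
    (h : (u (p + 1)).C A j c ∈ (T (p + 2)).K A 𝔥 j) :
    ∃ c' ∈ (S p).K A 𝔥 j, c - (u p).C A j c' ∈ (T (p + 1)).K A 𝔥 j := by
  have H0 : RHyp 𝒞 Z u S T := by
    refine ⟨fun p x s => ?_, fun p x => grow_st_mono (hTS p) x, hS, hT, ?_⟩
    · obtain ⟨i, z, rfl⟩ := Z.germ_surj s
      rw [NT.st_germ, NT.st_germ, huu, map_zero]
    intro p A hA x y s hs h
    obtain ⟨B, φ, y1, -, z, hz, rfl⟩ := grow_rep _ y hs
    rw [NT.st_germ] at h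
    obtain ⟨B2, φ2, y2, rfl, h2⟩ := (T (p + 2)).germ_mem_iff.1 h
    obtain ⟨B3, φ3, y3, rfl, z', h3, h4⟩ := hex p B2 (h𝒞 B B2 φ2 (h𝒞 A B φ hA)) (Z.map φ2 z)
      ((S _).mem φ2 z hz) (by rw [NT.nat]; exact h2) x y2
    refine ⟨Z.germ y3 z', (S p).germ_mem y3 h3, ?_⟩
    rw [NT.st_germ, ← Z.germ_map, ← Z.germ_map, ← map_sub]
    exact (T _).germ_mem y3 h4
  have H : ∀ j, RHyp 𝒞 (Z.tw j) (fun p => (u p).tw j) (fun p => (S p).tw j)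
      (fun p => (T p).tw j) := by
    intro j
    induction j with
    | zero => exact H0
    | succ j ih => exact ih.succ h𝒞
  exact (H j).row p hA 𝔥 hc h

end Pool.Agent.P.MP_824f38_ag.N
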