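import Pool.Agent.P.MP_824f38_ag.N.GBasic

/-! Functoriality of the Godement complexes in natural maps. -/

set_option linter.unusedVariables false
set_option linter.unusedSectionVars false
set_option linter.style.haveILetI false
set_option linter.dupNamespace false

namespace Pool.Agent.P.MP_824f38_ag.N

variable {R : Type} [CommRing R] [Algebra ℂ R] [Algebra.FiniteType ℂ R] {Z Z' Z'' : PSh R}

theorem gnt_st_smul {u : NT Z Z} {r : R} (h : ∀ A z, u.app A z = r • z) (x : Pt R)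
    (s : Z.Stalk x) : u.st x s = r • s := by
  obtain ⟨i, z, rfl⟩ := Z.germ_surj s
  rw [u.st_germ, h, map_smul]

theorem gnt_tw_smul {u : NT Z Z} {r : R} (h : ∀ A z, u.app A z = r • z) (j : ℕ) :
    ∀ A z, (u.tw j).app A z = r • z := by
  induction j with
  | zero => exact h
  | succ j ih =>
    intro A z
    obtain ⟨c, rfl⟩ := Z.cl_surj A j z
    rw [u.tw_cl, ← map_smul]
    exact congrArg _ (PSh.G_ext _ fun x y => gnt_st_smul ih x _)

theorem gnt_C_smul {u : NT Z Z} {r : R} (h : ∀ A z, u.app A z = r • z) (A : Ob R) (j : ℕ)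
    (c : Z.C A j) : u.C A j c = r • c :=
  PSh.G_ext _ fun x y => gnt_st_smul (gnt_tw_smul h j) x _

theorem gnt_st_comm {Z₁ Z₂ : PSh R} {u : NT Z₁ Z'} {v : NT Z Z₁} {u' : NT Z₂ Z'} {v' : NT Z Z₂}
    (h : ∀ A z, u.app A (v.app A z) = u'.app A (v'.app A z)) (x : Pt R) (s : Z.Stalk x) :
    u.st x (v.st x s) = u'.st x (v'.st x s) := by
  obtain ⟨i, z, rfl⟩ := Z.germ_surj s
  rw [v.st_germ, u.st_germ, v'.st_germ, u'.st_germ, h]

theorem gnt_tw_comm {Z₁ Z₂ : PSh R} {u : NT Z₁ Z'} {v : NT Z Z₁} {u' : NT Z₂ Z'} {v' : NT Z Z₂}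
    (h : ∀ A z, u.app A (v.app A z) = u'.app A (v'.app A z)) (j : ℕ) :
    ∀ A z, (u.tw j).app A ((v.tw j).app A z) = (u'.tw j).app A ((v'.tw j).app A z) := by
  induction j with
  | zero => exact h
  | succ j ih =>
    intro A z
    obtain ⟨c, rfl⟩ := Z.cl_surj A j z
    rw [v.tw_cl, u.tw_cl, v'.tw_cl, u'.tw_cl]
    exact congrArg _ (PSh.G_ext _ fun x y => gnt_st_comm ih x _)

theorem gnt_C_comm {Z₁ Z₂ : PSh R} {u : NT Z₁ Z'} {v : NT Z Z₁} {u' : NT Z₂ Z'} {v' : NT Z Z₂}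
    (h : ∀ A z, u.app A (v.app A z) = u'.app A (v'.app A z)) (A : Ob R) (j : ℕ) (c : Z.C A j) :
    u.C A j (v.C A j c) = u'.C A j (v'.C A j c) :=
  PSh.G_ext _ fun x y => gnt_st_comm (gnt_tw_comm h j) x _

theorem gnt_st_self {u : NT Z Z} {S : Sub Z} (h : ∀ A, ∀ z ∈ S.S A, u.app A z = z) (x : Pt R)
    {s : Z.Stalk x} (hs : s ∈ S.st x) : u.st x s = s := by
  rcases hs with rfl | ⟨A, y, z, hz, rfl⟩
  · exact map_zero _
  · rw [u.st_germ, h A z hz]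

theorem gnt_tw_self {u : NT Z Z} {S : Sub Z} (h : ∀ A, ∀ z ∈ S.S A, u.app A z = z) (j : ℕ) :
    ∀ A, ∀ z ∈ (S.tw j).S A, (u.tw j).app A z = z := by
  induction j with
  | zero => exact h
  | succ j ih =>
    intro A z hz
    obtain ⟨c, hc, rfl⟩ := S.mem_tw_succ.1 hz
    rw [u.tw_cl]
    exact congrArg _ (PSh.G_ext _ fun x y => gnt_st_self ih x (S.mem_K.1 hc x y).1)

theorem C_mul (r : R) (A : Ob R) (j : ℕ) (c : Z.C A j) : (NT.mul Z r).C A j c = r • c := by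
  exact gnt_C_smul (fun _ _ => rfl) A j c

theorem C_id (A : Ob R) (j : ℕ) (c : Z.C A j) : (NT.id Z).C A j c = c := by
  exact (gnt_C_smul (r := 1) (fun _ z => (one_smul R z).symm) A j c).trans (one_smul R c)

theorem C_zero (A : Ob R) (j : ℕ) (c : Z.C A j) : (NT.zero Z Z').C A j c = 0 := by
  have h := gnt_C_comm (u := NT.zero Z Z') (v := NT.id Z) (u' := NT.mul Z' 0)
    (v' := NT.zero Z Z') (fun _ _ => (zero_smul R _).symm) A j c
  rwa [C_id, C_mul, zero_smul] at h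

theorem C_comp {u : NT Z' Z''} {v : NT Z Z'} {w : NT Z Z''}
    (h : ∀ A z, u.app A (v.app A z) = w.app A z) (A : Ob R) (j : ℕ) (c : Z.C A j) :
    u.C A j (v.C A j c) = w.C A j c := by
  have h' := gnt_C_comm (u := u) (v := v) (u' := w) (v' := NT.id Z) h A j c
  rwa [C_id] at h'

theorem C_comm {Z₁ Z₂ : PSh R} {u : NT Z₁ Z'} {v : NT Z Z₁} {u' : NT Z₂ Z'} {v' : NT Z Z₂}
    (h : ∀ A z, u.app A (v.app A z) = u'.app A (v'.app A z)) (A : Ob R) (j : ℕ) (c : Z.C A j) :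
    u.C A j (v.C A j c) = u'.C A j (v'.C A j c) := by
  exact gnt_C_comm h A j c

theorem C_eq_self {u : NT Z Z} {S : Sub Z} (h : ∀ A, ∀ z ∈ S.S A, u.app A z = z) {A : Ob R}
    {𝔥 : Ideal A.A} {j : ℕ} {c : Z.C A j} (hc : c ∈ S.K A 𝔥 j) : u.C A j c = c := by
  exact PSh.G_ext _ fun x y => gnt_st_self (gnt_tw_self h j) x (S.mem_K.1 hc x y).1

theorem K_mono {S T : Sub Z} (h : ∀ A, S.S A ≤ T.S A) (A : Ob R) (𝔥 : Ideal A.A) (j : ℕ) :
    S.K A 𝔥 j ≤ T.K A 𝔥 j := by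
  intro c hc
  have h' := K_maps (u := NT.id Z) (fun A z hz => h A hz) 𝔥 hc
  rwa [C_id] at h'

theorem K_locLe {𝒞 : Ob R → Prop} (h𝒞 : UpC 𝒞) {S T : Sub Z} (h : LocMaps 𝒞 (NT.id Z) S T)
    {A : Ob R} (hA : 𝒞 A) (𝔥 : Ideal A.A) (j : ℕ) : S.K A 𝔥 j ≤ T.K A 𝔥 j := by
  intro c hc
  have h' := K_locMaps h𝒞 h hA 𝔥 hc
  rwa [C_id] at h'

theorem K_smul {S T : Sub Z} {r : R} (h : ∀ A, ∀ z ∈ S.S A, r • z ∈ T.S A) {A : Ob R}
    {𝔥 : Ideal A.A} {j : ℕ} {c : Z.C A j} (hc : c ∈ S.K A 𝔥 j) : r • c ∈ T.K A 𝔥 j := by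
  have h' := K_maps (u := NT.mul Z r) h 𝔥 hc
  rwa [C_mul] at h'

theorem res_surj {A B : Ob R} (φ : Hom A B) (h : Function.Surjective φ.f) (j : ℕ) :
    Function.Surjective (Z.res φ j) := by
  classical
  intro c
  refine ⟨fun x y => if h : ∃ y' : PtO B x, y'.pre φ = y then c x h.choose else 0,
    PSh.G_ext _ fun x y => ?_⟩
  have e : ∃ y' : PtO B x, y'.pre φ = y.pre φ := ⟨y, rfl⟩
  have e' : e.choose = y := PtO.ext (AlgHom.ext fun b => by
    obtain ⟨a, rfl⟩ := h b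
    exact DFunLike.congr_fun (congrArg PtO.y e.choose_spec) a)
  rw [PSh.res_apply, dif_pos e, e']

theorem tw_map_surj {A B : Ob R} (φ : Hom A B) (h : Function.Surjective φ.f)
    (h0 : Function.Surjective (Z.map φ)) (j : ℕ) : Function.Surjective ((Z.tw j).map φ) := by
  cases j with
  | zero => exact h0
  | succ j =>
    intro z
    obtain ⟨c, rfl⟩ := Z.cl_surj B j z
    obtain ⟨b, rfl⟩ := res_surj (Z := Z) φ h j c
    exact ⟨Z.cl A j b, Z.map_cl φ j b⟩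

end Pool.Agent.P.MP_824f38_ag.N
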