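import Pool.Agent.P.MP_824f38_ag.N.XDefs
import Pool.Agent.P.MP_824f38_ag.N.GNt

/-! Row NEC-XProj: projection to the forms of degree p

e = eN R p acts on Godement cochains by e.C; it commutes with the differential (NT.C_δ), maps S.K to S'.K (K_maps), fixes S'.K (C_eq_self), S'.K ≤ S.K (K_mono), and e.C (etaD ω) = etaD (ep p ω) (NT.C_eta, eN_app).
proj_FS: I • ⊤ is stable under the linear map ep p. -/

set_option linter.unusedVariables false
set_option linter.unusedSectionVars false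
set_option linter.style.haveILetI false
set_option linter.dupNamespace false

namespace Pool.Agent.P.MP_824f38_ag.N

variable {R : Type} [CommRing R] [Algebra ℂ R] [Algebra.FiniteType ℂ R]

theorem proj_top (p : ℕ) : Proj p (Sub.top (DRP R)) (FmS R p) := by
  refine ⟨fun A => le_top, fun A z _ => ?_, fun A z hz => ?_⟩
  · obtain ⟨ω, rfl⟩ := up_surj z
    exact V.ep_mem p ω
  · obtain ⟨ω, rfl⟩ := up_surj z
    exact congrArg (up A) (V.ep_of_mem hz)

theorem proj_FS (m : Ideal R) (a p : ℕ) : Proj p (FS m a) (FSp m a p) := by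
  refine ⟨fun A => inf_le_left, fun A z hz => ?_, fun A z hz => ?_⟩
  · obtain ⟨ω, rfl⟩ := up_surj z
    refine ⟨?_, V.ep_mem p ω⟩
    have h1 : ω ∈ twI (A.ex m) a • (⊤ : Submodule A.A (DR A.A)) := hz
    show V.ep p ω ∈ twI (A.ex m) a • (⊤ : Submodule A.A (DR A.A))
    refine Submodule.smul_induction_on h1 (fun r hr β _ => ?_) (fun x y hx hy => ?_)
    · rw [map_smul]; exact Submodule.smul_mem_smul hr trivial
    · rw [map_add]; exact add_mem hx hy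
  · obtain ⟨ω, rfl⟩ := up_surj z
    exact congrArg (up A) (V.ep_of_mem hz.2)

theorem eC_etaD (p : ℕ) (A : Ob R) (ω : DR A.A) :
    (eN R p).C A 0 (etaD A ω) = etaD A (V.ep p ω) := by
  exact (eN R p).C_eta A 0 (up A ω)

theorem Proj.acyc {p : ℕ} {S S' : Sub (DRP R)} (H : Proj p S S') {A : Ob R} {𝔥 : Ideal A.A}
    {N : Submodule A.A (DR A.A)} (hN : ∀ ω ∈ N, V.ep p ω ∈ N)
    (h : Acyc (δD A) (S.K A 𝔥) (etaN A N)) :
    Acyc (δD A) (S'.K A 𝔥) (etaN A (N ⊓ Forms A.A p)) := by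
  refine ⟨fun c hc => ?_, fun i c hc => ?_⟩
  · obtain ⟨ω, hω, rfl⟩ := mem_etaN.1 hc
    refine ⟨?_, δ_etaD A ω⟩
    have h1 := K_maps H.map 𝔥 (h.le (mem_etaN.2 ⟨ω, hω.1, rfl⟩)).1
    rwa [eC_etaD, V.ep_of_mem hω.2] at h1
  · have h1 := h.ex i ⟨K_mono H.le A 𝔥 i hc.1, hc.2⟩
    have h2 := C_eq_self H.fix hc.1
    cases i with
    | zero =>
      obtain ⟨ω, hω, rfl⟩ := mem_etaN.1 h1
      exact mem_etaN.2 ⟨V.ep p ω, ⟨hN ω hω, V.ep_mem p ω⟩, (eC_etaD p A ω).symm.trans h2⟩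
    | succ j =>
      obtain ⟨b, hb, rfl⟩ := mem_Bd_succ.1 h1
      exact mem_Bd_succ.2 ⟨_, K_maps H.map 𝔥 hb, ((eN R p).C_δ A j b).symm.trans h2⟩

theorem Proj.relex {p : ℕ} {S S' T T' : Sub (DRP R)} (H : Proj p S S') (H' : Proj p T T')
    {A : Ob R} {𝔥 𝔥' : Ideal A.A} (h : RelEx (δD A) (S.K A 𝔥) (T.K A 𝔥')) :
    RelEx (δD A) (S'.K A 𝔥) (T'.K A 𝔥') := by
  intro j c hc hd
  obtain ⟨u, hu, v, hv, e⟩ := Submodule.mem_sup.1
    (h j c (K_mono H'.le A 𝔥' j hc) (K_mono H.le A 𝔥 (j + 1) hd))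
  have h2 := C_eq_self H'.fix hc
  rw [← h2, ← e, map_add]
  refine Submodule.add_mem_sup (K_maps H.map 𝔥 hu) ?_
  cases j with
  | zero =>
    rw [(Submodule.mem_bot R).1 hv, map_zero]
    exact zero_mem _
  | succ j =>
    obtain ⟨b, hb, rfl⟩ := mem_Bd_succ.1 hv
    exact mem_Bd_succ.2 ⟨_, K_maps H'.map 𝔥' hb, ((eN R p).C_δ A j b).symm⟩

end Pool.Agent.P.MP_824f38_ag.N
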