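import Pool.Agent.P.MP_824f38_ag.N.XDefs

/-! Row NEC-XdF: the filtration is locally stable under the exterior derivative

If x kills m use loc_killed (the form is locally zero). Otherwise m is finitely generated, so some π in m has x π ≠ 0 and x π divides all x r, r in m (ValuationRing.dvd_total). It suffices (PtO.Loc.and, induction over I • ⊤ and over the product ideal) to treat (u ρ) • β
with u in (A.ex m) ^ a, ρ in the radical. Pass to a finitely generated subalgebra B of x.V (an Idx, see Idx.ob, PtO.toIdx, Idx.inc) that contains: the quotients r / π (so B.ex m = span π, u = π ^ a u'), a square root ρ1 of ρ, a root π1 with π1 ^ (2N) = π where ρ ^ N = π t, and s with ρ = π1 ^ 2 s (s ^ N = t; s exists in the valuation ring by dvd_total).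
Then d (π ^ a u' ρ β) = a π ^ (a-1) u' ρ dπ β + π ^ a (u' 2 ρ1 dρ1 β + ρ du' β + ρ u' dβ) and ρ dπ = π π1 (2N s dπ1); ρ1, π1, ρ lie in the radical of span π. -/

set_option linter.unusedVariables false
set_option linter.unusedSectionVars false
set_option linter.style.haveILetI false
set_option linter.dupNamespace false

namespace Pool.Agent.P.MP_824f38_ag.N

variable {R : Type} [CommRing R] [Algebra ℂ R] [Algebra.FiniteType ℂ R]

/-- some element of `m` divides all elements of `m` at the point -/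
private theorem XdF_gen (m : Ideal R) (x : Pt R) : ∃ π ∈ m, ∀ r ∈ m, x.x π ∣ x.x r := by
  haveI : IsNoetherianRing R := Algebra.FiniteType.isNoetherianRing ℂ R
  obtain ⟨s, rfl⟩ : m.FG := IsNoetherian.noetherian m
  have key : ∀ t : Finset R, ∃ π ∈ Ideal.span (t : Set R), ∀ r ∈ t, x.x π ∣ x.x r := by
    intro t
    classical
    induction t using Finset.induction_on with
    | empty => exact ⟨0, zero_mem _, fun r hr => absurd hr (Finset.notMem_empty r)⟩
    | insert b t hb ih =>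
      obtain ⟨π, hπ, H⟩ := ih
      rcases ValuationRing.dvd_total (x.x π) (x.x b) with h | h
      · refine ⟨π, Ideal.span_mono (by simp) hπ, fun r hr => ?_⟩
        rcases Finset.mem_insert.1 hr with rfl | hr
        · exact h
        · exact H r hr
      · refine ⟨b, Ideal.subset_span (by simp), fun r hr => ?_⟩
        rcases Finset.mem_insert.1 hr with rfl | hr
        · exact dvd_rfl
        · exact h.trans (H r hr)
  obtain ⟨π, hπ, H⟩ := key s
  refine ⟨π, hπ, fun r hr => ?_⟩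
  induction hr using Submodule.span_induction with
  | mem r hr => exact H r hr
  | zero => simp
  | add r r' _ _ h h' => rw [map_add]; exact dvd_add h h'
  | smul c r _ h => rw [smul_eq_mul, map_mul]; exact h.mul_left _

/-- roots in the valuation ring -/
private theorem XdF_roots (x : Pt R) (π g : x.V) (a : ℕ) (hg : g ∈ twI (Ideal.span {π}) a) :
    ∃ (p r c : x.V) (M N : ℕ), g = (p ^ a * r) ^ (M + 1) ∧
      (p ^ a * r) ^ M = π ^ a * (c ^ a * r) ∧ r ^ N = π * c ^ (M + 1) := by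
  rw [twI, Ideal.span_singleton_pow, Ideal.mem_span_singleton_mul] at hg
  obtain ⟨ρ, ⟨N, hN⟩, rfl⟩ := hg
  obtain ⟨p, rfl⟩ := x.root π (a * N + 1 + 1) (Nat.succ_pos _)
  obtain ⟨r, rfl⟩ := x.root ρ (a * N + 1 + 1) (Nat.succ_pos _)
  rw [Ideal.mem_span_singleton, pow_right_comm,
    IsIntegrallyClosed.pow_dvd_pow_iff (Nat.succ_ne_zero _)] at hN
  obtain ⟨c, hc⟩ := hN
  refine ⟨p, r, c, a * N + 1, N * (a * N + 1 + 1), by ring, ?_, ?_⟩
  · have : r ^ (a * N + 1) = (r ^ N) ^ a * r := by ring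
    rw [mul_pow, this, hc]; ring
  · rw [pow_mul, hc, mul_pow]

private theorem XdF_mul {B : Type} [CommRing B] [Algebra ℂ B] (I : Ideal B) {ω : DR B}
    (h : ω ∈ I • (⊤ : Submodule B (DR B))) (β : DR B) :
    ω * β ∈ I • (⊤ : Submodule B (DR B)) := by
  refine Submodule.smul_induction_on h (fun a ha γ _ => ?_) (fun u v hu hv => ?_)
  · rw [smul_mul_assoc]; exact Submodule.smul_mem_smul ha trivial
  · rw [add_mul]; exact add_mem hu hv

private theorem XdF_scal (m : Ideal R) (a : ℕ) (A : Ob R) (g : A.A) (hg : g ∈ twI (A.ex m) a)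
    (x : Pt R) (y : PtO A x) :
    y.Loc fun B φ => dd (φ.f g) ∈ twI (B.ex m) a • (⊤ : Submodule B.A (DR B.A)) := by
  obtain ⟨π, hπ, H⟩ := XdF_gen m x
  have e : ∀ r, y.y (A.str r) = x.x r := fun r => DFunLike.congr_fun y.hy r
  have h1 : (A.ex m).map (y.y : A.A →+* x.V) ≤ Ideal.span {x.x π} := by
    rw [Ob.ex, Ideal.map_map, Ideal.map_le_iff_le_comap]
    intro r hr
    rw [Ideal.mem_comap, Ideal.mem_span_singleton]
    exact (e r).symm ▸ H r hr
  have h2 : y.y g ∈ twI (Ideal.span {x.x π}) a := by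
    have := twI_map (y.y : A.A →+* x.V) (A.ex m) a (Ideal.mem_map_of_mem _ hg)
    exact Ideal.mul_mono (Ideal.pow_right_mono h1 a) (Ideal.radical_mono h1) this
  obtain ⟨p, r, c, M, N, e1, e2, e3⟩ := XdF_roots x _ _ a h2
  classical
  let T : Subalgebra ℂ x.V := Algebra.adjoin ℂ (({p, r, c} : Finset x.V) : Set x.V)
  let i : Idx x := ⟨y.idx.1 ⊔ T, y.idx.2.1.sup ⟨_, rfl⟩,
    fun s => le_sup_left (a := y.idx.1) (y.idx.2.2 s)⟩
  have hi : y.idx ≤ i := (le_sup_left : y.idx.1 ≤ y.idx.1 ⊔ T)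
  have hT : ∀ v ∈ ({p, r, c} : Finset x.V), v ∈ i.1 := fun v hv =>
    (le_sup_right : T ≤ y.idx.1 ⊔ T) (Algebra.subset_adjoin (Finset.mem_coe.2 hv))
  let p' : i.ob.A := ⟨p, hT p (by simp)⟩
  let r' : i.ob.A := ⟨r, hT r (by simp)⟩
  let c' : i.ob.A := ⟨c, hT c (by simp)⟩
  refine ⟨i.ob, (Idx.inc hi).comp y.toIdx, i.pt, rfl, ?_⟩
  have f1 : ((Idx.inc hi).comp y.toIdx).f g = (p' ^ a * r') ^ (M + 1) := Subtype.ext e1
  have f2 : (p' ^ a * r') ^ M = i.ob.str π ^ a * (c' ^ a * r') := Subtype.ext e2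
  have f3 : r' ^ N = i.ob.str π * c' ^ (M + 1) := Subtype.ext e3
  have hπ' : i.ob.str π ∈ i.ob.ex m := Ideal.mem_map_of_mem _ hπ
  have hr' : r' ∈ (i.ob.ex m).radical := ⟨N, f3 ▸ Ideal.mul_mem_right _ _ hπ'⟩
  beta_reduce
  rw [f1, dd_eq_dk, V.dk_pow, ← V.smul_eq, f2]
  refine Submodule.smul_mem_smul (Ideal.mul_mem_left _ _ ?_) trivial
  exact Ideal.mul_mem_mul (Ideal.pow_mem_pow hπ' a) (Ideal.mul_mem_left _ _ hr')

theorem dN_FS (m : Ideal R) (a : ℕ) : LocMaps (fun _ => True) (dN R) (FS m a) (FS m a) := by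
  intro A _ z hz x y
  obtain ⟨ω, rfl⟩ := up_surj z
  have hω : ω ∈ twI (A.ex m) a • (⊤ : Submodule A.A (DR A.A)) := hz
  change y.Loc fun B φ => pull φ.f (V.dR ω) ∈ twI (B.ex m) a • (⊤ : Submodule B.A (DR B.A))
  have hs : ∀ (γ : DR A.A) (B D : Ob R) (φ : Hom A B) (ψ : Hom B D),
      pull φ.f γ ∈ twI (B.ex m) a • (⊤ : Submodule B.A (DR B.A)) →
      pull (ψ.comp φ).f γ ∈ twI (D.ex m) a • (⊤ : Submodule D.A (DR D.A)) := by
    intro γ B D φ ψ h
    have := pull_smul_top ψ.f (ψ.twI_mem m a) h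
    rwa [pull_pull] at this
  clear hz
  refine Submodule.smul_induction_on hω (fun g hg β _ => ?_) (fun u v hu hv => ?_)
  · refine (XdF_scal m a A g hg x y).imp fun B φ h => ?_
    have e : V.dR (g • β) = dd g * β + g • V.dR β := by
      rw [V.smul_eq (k := ℂ), V.dR_mul, V.dR_fn, V.inv_fn, ← V.smul_eq, dd_eq_dk]
    rw [e, map_add, map_mul, pull_dd, pull_smul]
    exact add_mem (XdF_mul _ h _) (Submodule.smul_mem_smul (φ.twI_mem m a g hg) trivial)
  · refine (PtO.Loc.and (hs _) (hs _) hu hv).imp fun B φ h => ?_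
    rw [map_add, map_add]
    exact add_mem h.1 h.2

end Pool.Agent.P.MP_824f38_ag.N
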