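import Pool.Agent.P.MP_824f38_ag.N.XChS
import Pool.Agent.P.MP_824f38_ag.N.XdF
import Pool.Agent.P.MP_824f38_ag.N.XProj
import Pool.Agent.P.MP_824f38_ag.N.GRow
import Pool.Agent.P.MP_824f38_ag.N.CRes

/-! Row NEC-XRow: the rows of the Hodge-de Rham double complex

poinc_loc: if x kills m, loc_killed (z is locally zero). Otherwise loc_chart, tw_le_Ne (for 0 and a), residue, then PtO.Loc.bind with loc_Ne. row_FS: row_exact with u p = dN R, S p = FS m 0, T p = FS m a, class True, dN_FS.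
hrow, hrow0: apply the projection (eN R (p+1)).C, resp. (eN R 0).C, to row_FS; C_comm with V.ep_dR, C_comp with NT.zero and V.ep_zero_dR, C_zero, K_maps, C_eq_self, proj_FS. -/

set_option linter.unusedVariables false
set_option linter.unusedSectionVars false
set_option linter.style.haveILetI false
set_option linter.dupNamespace false

namespace Pool.Agent.P.MP_824f38_ag.N

variable {R : Type} [CommRing R] [Algebra ℂ R] [Algebra.FiniteType ℂ R]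

private theorem XRow_ed (p : ℕ) (A : Ob R) (j : ℕ) (c : CD A j) :
    (eN R (p + 1)).C A j ((dN R).C A j c) = (dN R).C A j ((eN R p).C A j c) := by
  refine C_comm (fun B z => ?_) A j c
  obtain ⟨ω, rfl⟩ := up_surj z
  exact congrArg (up B) (V.ep_dR p ω)

private theorem XRow_e0 (A : Ob R) (j : ℕ) (c : CD A j) :
    (eN R 0).C A j ((dN R).C A j c) = 0 := by
  rw [C_comp (w := NT.zero _ _) ?_ A j c, C_zero]
  intro B z
  obtain ⟨ω, rfl⟩ := up_surj z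
  rw [dN_app, eN_app, V.ep_zero_dR, map_zero]
  rfl

theorem poinc_loc (m : Ideal R) (a : ℕ) (A : Ob R) {z : (DRP R).F A} (hz : z ∈ (FS m 0).S A)
    (h : (dN R).app A z ∈ (FS m a).S A) (x : Pt R) (y : PtO A x) : y.Loc fun B φ =>
      ∃ z' ∈ (FS m 0).S B, (DRP R).map φ z - (dN R).app B z' ∈ (FS m a).S B := by
  obtain ⟨ω, rfl⟩ := up_surj z
  by_cases hx : ∀ r ∈ m, x.x r = 0
  · refine (loc_killed y hx).imp fun B φ hB => ⟨0, zero_mem _, ?_⟩
    obtain ⟨hd, hb⟩ := hB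
    have h1 : pull φ.f ω ∈ twI (B.ex m) 0 • (⊤ : Submodule B.A (DR B.A)) := (FS m 0).mem φ _ hz
    rw [hb, twI, Ideal.isPrime_bot.radical, Ideal.mul_bot, Submodule.bot_smul,
      Submodule.mem_bot] at h1
    rw [map_zero, sub_zero, DRP_map, h1, map_zero]
    exact zero_mem _
  · push Not at hx
    refine (loc_chart y hx).bind fun B φ y' _ hB => ?_
    obtain ⟨-, N, z, c, H, e⟩ := hB
    have h1 : pull φ.f ω ∈ twI (B.ex m) 0 • (⊤ : Submodule B.A (DR B.A)) := (FS m 0).mem φ _ hz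
    have h2 : pull φ.f (V.dR ω) ∈ twI (B.ex m) a • (⊤ : Submodule B.A (DR B.A)) :=
      (FS m a).mem φ _ h
    rw [e] at h1 h2
    rw [pull_dR] at h2
    obtain ⟨η, h3, h4⟩ := residue H (fun j _ => Nat.le_add_left 1 _)
      (fun j _ => Nat.add_le_add_right (Nat.mul_le_mul_right _ (Nat.zero_le a)) 1)
      (tw_le_Ne H c 0 h1) (tw_le_Ne H c a h2)
    refine (loc_Ne y' e).imp fun D ψ hD => ⟨up D (pull ψ.f η), hD 0 η h3, ?_⟩
    have h5 := hD a _ h4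
    rw [map_sub, map_sub, pull_dR] at h5
    rw [(DRP R).map_comp, DRP_map, DRP_map, dN_app]
    exact h5

theorem row_FS (m : Ideal R) (a : ℕ) (A : Ob R) (𝔥 : Ideal A.A) (j : ℕ) {c : CD A j}
    (hc : c ∈ (FS m 0).K A 𝔥 j) (h : (dN R).C A j c ∈ (FS m a).K A 𝔥 j) :
    ∃ b ∈ (FS m 0).K A 𝔥 j, c - (dN R).C A j b ∈ (FS m a).K A 𝔥 j := by
  refine row_exact (𝒞 := fun _ => True) (fun _ _ _ _ => trivial) (fun _ => dN R) ?_
    (fun _ => FS m 0) (fun _ => FS m a) ?_ (fun _ => dN_FS m 0) (fun _ => dN_FS m a)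
    (fun _ B _ z hz hd x y => poinc_loc m a B hz hd x y) j 0 trivial 𝔥 hc h
  · intro _ B z
    obtain ⟨ω, rfl⟩ := up_surj z
    rw [dN_app, dN_app, V.dR_dR, map_zero]
  · intro _ B z hz
    obtain ⟨ω, rfl⟩ := up_surj z
    have h1 : ω ∈ twI (B.ex m) a • (⊤ : Submodule B.A (DR B.A)) := hz
    have h2 : twI (B.ex m) a ≤ twI (B.ex m) 0 :=
      Ideal.mul_mono_left (Ideal.pow_le_pow_right (Nat.zero_le a))
    exact Submodule.smul_mono_left h2 h1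

theorem dC_dC (A : Ob R) (j : ℕ) (c : CD A j) : (dN R).C A j ((dN R).C A j c) = 0 := by
  rw [C_comp (w := NT.zero _ _) ?_ A j c, C_zero]
  intro B z
  obtain ⟨ω, rfl⟩ := up_surj z
  rw [dN_app, dN_app, V.dR_dR, map_zero]
  rfl

theorem dC_mem (m : Ideal R) (a p : ℕ) (A : Ob R) (𝔥 : Ideal A.A) (j : ℕ) :
    ∀ c ∈ KP m a p A 𝔥 j, (dN R).C A j c ∈ KP m a (p + 1) A 𝔥 j := by
  intro c hc
  have h1 : (dN R).C A j c ∈ (FS m a).K A 𝔥 j :=
    K_locMaps (fun _ _ _ _ => trivial) (dN_FS m a) trivial 𝔥 (K_mono (proj_FS m a p).le A 𝔥 j hc)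
  have h2 := K_maps (proj_FS m a (p + 1)).map 𝔥 h1
  rwa [XRow_ed, C_eq_self (proj_FS m a p).fix hc] at h2

theorem hrow (m : Ideal R) (a p : ℕ) (A : Ob R) (𝔥 : Ideal A.A) (j : ℕ) :
    ∀ c ∈ KP m 0 (p + 1) A 𝔥 j, (dN R).C A j c ∈ KP m a (p + 2) A 𝔥 j →
      ∃ b ∈ KP m 0 p A 𝔥 j, c - (dN R).C A j b ∈ KP m a (p + 1) A 𝔥 j := by
  intro c hc hd
  obtain ⟨b, hb, h⟩ := row_FS m a A 𝔥 j (K_mono (proj_FS m 0 (p + 1)).le A 𝔥 j hc)
    (K_mono (proj_FS m a (p + 2)).le A 𝔥 j hd)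
  refine ⟨(eN R p).C A j b, K_maps (proj_FS m 0 p).map 𝔥 hb, ?_⟩
  have h2 := K_maps (proj_FS m a (p + 1)).map 𝔥 h
  rwa [map_sub, XRow_ed, C_eq_self (proj_FS m 0 (p + 1)).fix hc] at h2

theorem hrow0 (m : Ideal R) (a : ℕ) (A : Ob R) (𝔥 : Ideal A.A) (j : ℕ) :
    ∀ c ∈ KP m 0 0 A 𝔥 j, (dN R).C A j c ∈ KP m a 1 A 𝔥 j → c ∈ KP m a 0 A 𝔥 j := by
  intro c hc hd
  obtain ⟨b, hb, h⟩ := row_FS m a A 𝔥 j (K_mono (proj_FS m 0 0).le A 𝔥 j hc)
    (K_mono (proj_FS m a 1).le A 𝔥 j hd)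
  have h2 := K_maps (proj_FS m a 0).map 𝔥 h
  rwa [map_sub, XRow_e0, sub_zero, C_eq_self (proj_FS m 0 0).fix hc] at h2

end Pool.Agent.P.MP_824f38_ag.N
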