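import Pool.Agent.P.MP_824f38_ag.N.XRel
import Pool.Agent.P.MP_824f38_ag.N.XProj
import Pool.Agent.P.MP_824f38_ag.N.LDer

/-! Row NEC-XTr: plain cohomology and cohomology filtered at a closed point

Let A = Ob.self R, B = A.ext ℂ _ w, φ = A.toExt; pair_ses (FmS R p) gives KF p A (ker w) → KF p A ⊤ → KF p B ⊤. B is regular (reg_field), so s_main and Proj.acyc proj_top give Acyc with N'' = etaN (⊤ ⊓ Forms p); N = etaN A (Forms p) surjects (pull_surjective and pull_ep, res_etaD), N ≤ Zy (eta_mem_K, δ_etaD).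
pair_triv, pair_lift; then Proj.relex (proj_FS, proj_top) of rel_ex m A ⊤, KP_le_rel, ex_self, relex_van, relex_cyc; in positive degrees Bd does not depend on the augmentation. -/

set_option linter.unusedVariables false
set_option linter.unusedSectionVars false
set_option linter.style.haveILetI false
set_option linter.dupNamespace false

namespace Pool.Agent.P.MP_824f38_ag.N

variable {R : Type} [CommRing R] [Algebra ℂ R] [Algebra.FiniteType ℂ R]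

/-- the closed point as an object -/
private noncomputable abbrev xtrB (w : R →ₐ[ℂ] ℂ) : Ob R := (Ob.self R).ext ℂ inferInstance w

/-- the inclusion of the closed point -/
private noncomputable abbrev xtrF (w : R →ₐ[ℂ] ℂ) : Hom (Ob.self R) (xtrB w) :=
  (Ob.self R).toExt ℂ inferInstance w

private theorem xtr_surj (w : R →ₐ[ℂ] ℂ) : Function.Surjective w :=
  fun c => ⟨algebraMap ℂ R c, w.commutes c⟩

private theorem xtr_ses (w : R →ₐ[ℂ] ℂ) (p : ℕ) :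
    SES (δD (Ob.self R)) (δD (xtrB w)) ((DRP R).res (xtrF w))
      (KF p (Ob.self R) (RingHom.ker w)) (KF p (Ob.self R) ⊤) (KF p (xtrB w) ⊤) :=
  pair_ses (FmS R p) (xtrF w) (xtr_surj w)
    (fun x y => ⟨Or.inr, fun h => h.resolve_left y.not_kills_top⟩)
    (fun x y => iff_of_false y.not_kills_top (PtO.not_kills_top _))

private theorem xtr_acyc (w : R →ₐ[ℂ] ℂ) (p : ℕ) :
    Acyc (δD (xtrB w)) (KF p (xtrB w) ⊤) (etaN (xtrB w) (⊤ ⊓ Forms ℂ p)) :=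
  (proj_top p).acyc (fun _ _ => trivial) (s_main (A := xtrB w) (reg_field (K := ℂ)))

private theorem xtr_le (p : ℕ) :
    etaN (Ob.self R) (Forms R p) ≤ Zy (δD (Ob.self R)) (KF p (Ob.self R) ⊤) 0 := by
  intro c hc
  obtain ⟨ω, hω, rfl⟩ := mem_etaN.1 hc
  exact ⟨eta_mem_K (FmS R p) (j := 0) (z := up (Ob.self R) ω) hω, δ_etaD _ ω⟩

private theorem xtr_onto (w : R →ₐ[ℂ] ℂ) (p : ℕ) :
    ∀ c ∈ etaN (xtrB w) (⊤ ⊓ Forms ℂ p), ∃ b ∈ etaN (Ob.self R) (Forms R p),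
      (DRP R).res (xtrF w) 0 b = c := by
  intro c hc
  obtain ⟨ω, hω, rfl⟩ := mem_etaN.1 hc
  obtain ⟨β, rfl⟩ := pull_surjective w (xtr_surj w) ω
  refine ⟨etaD (Ob.self R) (V.ep p β), mem_etaN.2 ⟨_, V.ep_mem p β, rfl⟩, ?_⟩
  rw [res_etaD]
  exact congrArg (etaD (xtrB w)) ((pull_ep w p β).symm.trans (V.ep_of_mem hω.2))

private theorem xtr_ideal (w : R →ₐ[ℂ] ℂ) :
    (⊤ : Ideal R) * (Ob.self R).ex (RingHom.ker w) = RingHom.ker w := by
  rw [ex_self, Ideal.top_mul]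

private theorem xtr_rel (w : R →ₐ[ℂ] ℂ) (p : ℕ) :
    RelEx (δD (Ob.self R)) (KP (RingHom.ker w) 0 p (Ob.self R) ⊤)
      (KF p (Ob.self R) (RingHom.ker w)) := by
  have h := (proj_FS (RingHom.ker w) 0 p).relex (proj_top p) (rel_ex (RingHom.ker w) (Ob.self R) ⊤)
  rwa [xtr_ideal] at h

theorem tr_van (w : R →ₐ[ℂ] ℂ) {p q : ℕ}
    (h : Van (δD (Ob.self R)) (KF p (Ob.self R) ⊤) (q + 1)) :
    Van (δD (Ob.self R)) (KP (RingHom.ker w) 0 p (Ob.self R) ⊤) (q + 1) := by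
  refine relex_van ((DRP R).sq_δ _) (fun j => ?_) (xtr_rel w p) fun c hc => ?_
  · have h1 := KP_le_rel (RingHom.ker w) 0 p (Ob.self R) ⊤ j
    rwa [xtr_ideal] at h1
  · exact pair_triv ((DRP R).sq_δ _) (xtr_ses w p) (K_sc _ _ _) (N' := ⊤) (xtr_le p)
      (xtr_onto w p) (fun _ _ _ => trivial) (fun i _ => (xtr_acyc w p).ex i) hc.1
      (h ⟨(((xtr_ses w p).ker _ _).1 hc.1).1, hc.2⟩)

theorem tr_cyc (w : R →ₐ[ℂ] ℂ) {p q : ℕ} {c : CD (Ob.self R) (q + 1)}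
    (hc : c ∈ Zy (δD (Ob.self R)) (KF p (Ob.self R) ⊤) (q + 1)) :
    ∃ k ∈ Zy (δD (Ob.self R)) (KP (RingHom.ker w) 0 p (Ob.self R) ⊤) (q + 1),
      c - k ∈ Bd (δD (Ob.self R)) (KF p (Ob.self R) ⊤) ⊥ (q + 1) := by
  have H := xtr_ses w p
  have h1 : (DRP R).res (xtrF w) (q + 1) c ∈ Zy (δD (xtrB w)) (KF p (xtrB w) ⊤) (q + 1) :=
    mem_Zy.2 ⟨H.mem _ _ hc.1, by rw [← H.comm, (mem_Zy.1 hc).2, map_zero]⟩
  obtain ⟨b, hb, h2⟩ := pair_lift ((DRP R).sq_δ _) H (K_sc _ _ _) (xtr_le p) (xtr_onto w p) hc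
    ((xtr_acyc w p).ex _ h1)
  obtain ⟨k, hk, e, he, h3⟩ := relex_cyc ((DRP R).sq_δ _) (xtr_rel w p) h2
  obtain ⟨e', he', rfl⟩ := hb
  exact ⟨k, hk, e + e', add_mem ((H.ker _ _).1 he).1 he', by rw [map_add, h3]; abel⟩

end Pool.Agent.P.MP_824f38_ag.N
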