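import Pool.Agent.P.MP_824f38_ag.N.XDev
import Pool.Agent.P.MP_824f38_ag.N.XTr
import Pool.Agent.P.MP_824f38_ag.N.XRow
import Pool.Agent.P.MP_824f38_ag.N.AChase

/-! Row NEC-XC: the two vanishing theorems for the Godement complex

van_a: qq_all hn ⊤, Ob.ex_top, KP_top. van_c: mem_of_loc; for w let m = ker w, tr_cyc gives k; chase (d = (dN R).C, NT.C_δ, dC_dC, K_sc, KP_anti, dC_mem, hrow, hrow0, qq_all.van, fg_pz with tw_Zy, tw_Bd, Bd_le_Zy; hlow from tr_van since q' ≥ 1) and fg_krull give r with w r = 1 and r • k a coboundary; KP_le_KF. -/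

set_option linter.unusedVariables false
set_option linter.unusedSectionVars false
set_option linter.style.haveILetI false
set_option linter.dupNamespace false

namespace Pool.Agent.P.MP_824f38_ag.N

variable {R : Type} [CommRing R] [Algebra ℂ R] [Algebra.FiniteType ℂ R]

private theorem mem_of_loc1 {P : Type 1} [AddCommGroup P] [Module R P] {N : Submodule R P} {x : P}
    (h : ∀ w : R →ₐ[ℂ] ℂ, ∃ a, w a ≠ 0 ∧ a • x ∈ N) : x ∈ N := by
  have : (1 : R) ∈ (N.colon {x}).radical := mem_radical_of_pts fun w hw => by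
    obtain ⟨k, k0, hk⟩ := h w
    exact absurd (hw k (Submodule.mem_colon_singleton.2 hk)) k0
  obtain ⟨n, hn⟩ := this
  simpa using Submodule.mem_colon_singleton.1 hn

theorem van_a {n : ℕ} (hn : DimLe R n) {p q : ℕ} (h : n < p + q) :
    Van (δD (Ob.self R)) (KF p (Ob.self R) ⊤) q := by
  have H := (qq_all hn ⊤).van p q h
  rwa [Ob.ex_top, KP_top] at H

theorem van_c {n : ℕ} (hn : DimLe R n) {p q : ℕ} (hpq : p + q = n) (hq : 1 ≤ q)
    (hlow : ∀ p' q', p' < p → p' + q' + 1 = n → Van (δD (Ob.self R)) (KF p' (Ob.self R) ⊤) q') :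
    Van (δD (Ob.self R)) (KF p (Ob.self R) ⊤) q := by
  haveI : IsNoetherianRing R := Algebra.FiniteType.isNoetherianRing ℂ R
  obtain ⟨q, rfl⟩ : ∃ q', q = q' + 1 := ⟨q - 1, by omega⟩
  intro c hc
  refine mem_of_loc1 (N := Bd (δD (Ob.self R)) (KF p (Ob.self R) ⊤) ⊥ (q + 1)) (x := c)
    fun w => ?_
  obtain ⟨k, hk, hck⟩ := tr_cyc w hc
  have Q := qq_all hn (RingHom.ker w)
  have Qv := Q.van
  have Qf := Q.fg
  rw [Ob.ex_top] at Qv Qf
  have hsq : Sq (δD (Ob.self R)) := (DRP R).sq_δ _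
  have hch : ∀ a, Zy (δD (Ob.self R)) (KP (RingHom.ker w) 0 p (Ob.self R) ⊤) (q + 1) ≤
      Zy (δD (Ob.self R)) (KP (RingHom.ker w) a p (Ob.self R) ⊤) (q + 1) ⊔
        Bd (δD (Ob.self R)) (KP (RingHom.ker w) 0 p (Ob.self R) ⊤) ⊥ (q + 1) := fun a =>
    chase hsq (fun j => (dN R).C (Ob.self R) j) (fun j c => (dN R).C_δ _ j c)
      (fun j c => dC_dC _ j c) (fun a p => KP (RingHom.ker w) a p (Ob.self R) ⊤)
      (fun a p => K_sc _ _ _) (fun a p j => KP_anti _ a p _ _ j)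
      (fun a p j => dC_mem _ a p _ _ j) (fun a p j => hrow _ a p _ _ j)
      (fun a j => hrow0 _ a _ _ j) n Qv
      (fun p q a' => fg_pz (tw_Zy _ p _ _ q) (tw_Bd _ p _ _ q)
        (fun a => Bd_le_Zy hsq (K_sc _ _ _) bot_le q) (Qf p q) a') hpq hq
      (fun p' q' h1 h2 => by
        obtain ⟨q'', rfl⟩ : ∃ q'', q' = q'' + 1 := ⟨q' - 1, by omega⟩
        exact tr_van w (hlow p' _ h1 h2)) a
  obtain ⟨r, hr, hrk⟩ := fg_krull (tw_Zy _ p _ _ (q + 1)) (tw_Bd _ p _ _ (q + 1)) (Qf p (q + 1))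
    hk (fun a => hch a hk)
  refine ⟨r, ?_, ?_⟩
  · have h1 : w (r - 1) = 0 := hr
    rw [map_sub, map_one, sub_eq_zero] at h1
    rw [h1]; exact one_ne_zero
  · have e : r • c = r • (c - k) + r • k := by rw [smul_sub, sub_add_cancel]
    rw [e]
    refine add_mem (Submodule.smul_mem _ r hck) ?_
    obtain ⟨b, hb, hbe⟩ := mem_Bd_succ.1 hrk
    exact mem_Bd_succ.2 ⟨b, KP_le_KF _ _ _ _ _ _ hb, hbe⟩

end Pool.Agent.P.MP_824f38_ag.N
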