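import Pool.Agent.P.MP_824f38_ag.N.XDefs

/-! Row NEC-XDim: dimension and transcendence degree

Noether normalisation (exists_finite_inj_algHom_of_fg, or exists_integral_inj_algHom_of_fg) and invariance of ringKrullDim under integral injective extensions (see the proofs of dim_le, le_dim in Cohom.lean and pure_dim in Pad.lean of this folder's parent, or Mathlib), MvPolynomial.ringKrullDim_of_isNoetherianRing. exists_indep: R is nontrivial, P = ℂ[X_1..X_s] → R, s = n, lying over for the zero ideal gives 𝔭 with P → R / 𝔭 injective.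
dimLe: normalise A.A, s = dim A.A ≤ dim R (ringKrullDim_le_of_surjective); the variables form a transcendence basis, so k ≤ s (AlgebraicIndependent.cardinalMk_le_trdeg, IsTranscendenceBasis.cardinalMk_eq_trdeg or similar). -/

set_option linter.unusedVariables false
set_option linter.unusedSectionVars false
set_option linter.style.haveILetI false
set_option linter.dupNamespace false

namespace Pool.Agent.P.MP_824f38_ag.N

variable {R : Type} [CommRing R] [Algebra ℂ R] [Algebra.FiniteType ℂ R]

private theorem dim_eq_of_norm {S : Type} [CommRing S] [Algebra ℂ S] {s : ℕ}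
    (g : MvPolynomial (Fin s) ℂ →ₐ[ℂ] S) (hg : Function.Injective g) (hint : g.IsIntegral) :
    ringKrullDim S = s := by
  letI : Algebra (MvPolynomial (Fin s) ℂ) S := g.toRingHom.toAlgebra
  haveI : Algebra.IsIntegral (MvPolynomial (Fin s) ℂ) S := ⟨hint⟩
  have hP : ringKrullDim (MvPolynomial (Fin s) ℂ) = s := by
    rw [MvPolynomial.ringKrullDim_of_isNoetherianRing, ringKrullDim_eq_zero_of_field, zero_add]
    simp
  rw [← hP]
  apply le_antisymm
  · refine Order.krullDim_le_of_strictMono
      (fun I : PrimeSpectrum S => PrimeSpectrum.comap (algebraMap _ S) I) ?_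
    intro I J hIJ
    exact Ideal.IsIntegral.comap_lt_comap (R := MvPolynomial (Fin s) ℂ) (I := I.asIdeal)
      (J := J.asIdeal) hIJ
  · unfold ringKrullDim Order.krullDim
    refine iSup_le fun l => ?_
    have hker : (⊥ : Ideal S).comap (algebraMap (MvPolynomial (Fin s) ℂ) S) ≤
        (RelSeries.head l).asIdeal := by
      intro x hx
      have hx0 : g x = 0 := Ideal.mem_bot.mp (Ideal.mem_comap.mp hx)
      have : x = 0 := hg (hx0.trans (map_zero g).symm)
      rw [this]; exact zero_mem _
    obtain ⟨Q, -, hQ, hQ'⟩ := Ideal.exists_ideal_over_prime_of_isIntegral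
      (RelSeries.head l).asIdeal (⊥ : Ideal S) hker
    haveI := hQ
    haveI : Q.LiesOver (RelSeries.head l).asIdeal := ⟨hQ'.symm⟩
    obtain ⟨L, hL, -, -⟩ := Ideal.exists_ltSeries_of_hasGoingUp l Q
    rw [← hL]
    exact le_iSup (fun p : LTSeries (PrimeSpectrum S) => (p.length : WithBot ℕ∞)) L

theorem exists_indep {n : ℕ} (h : ringKrullDim R = n) :
    ∃ 𝔭 : Ideal R, 𝔭.IsPrime ∧ ∃ t : Fin n → R ⧸ 𝔭, AlgebraicIndependent ℂ t := by
  haveI : Nontrivial R := by
    by_contra hn
    haveI : Subsingleton R := not_nontrivial_iff_subsingleton.mp hn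
    rw [ringKrullDim_eq_bot_of_subsingleton] at h
    exact absurd h (by simp)
  obtain ⟨s, g, hg, hint⟩ := exists_integral_inj_algHom_of_fg ℂ R
  have hs : s = n := by
    have := (dim_eq_of_norm g hg hint).symm.trans h
    exact_mod_cast this
  subst hs
  letI : Algebra (MvPolynomial (Fin s) ℂ) R := g.toRingHom.toAlgebra
  haveI : Algebra.IsIntegral (MvPolynomial (Fin s) ℂ) R := ⟨hint⟩
  have hker : (⊥ : Ideal R).comap (algebraMap (MvPolynomial (Fin s) ℂ) R) ≤
      (⊥ : Ideal (MvPolynomial (Fin s) ℂ)) := by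
    intro x hx
    have hx0 : g x = 0 := Ideal.mem_bot.mp (Ideal.mem_comap.mp hx)
    have : x = 0 := hg (hx0.trans (map_zero g).symm)
    rw [this]; exact zero_mem _
  obtain ⟨Q, -, hQ, hQ'⟩ := Ideal.exists_ideal_over_prime_of_isIntegral
    (⊥ : Ideal (MvPolynomial (Fin s) ℂ)) (⊥ : Ideal R) hker
  refine ⟨Q, hQ, fun i => ((Ideal.Quotient.mkₐ ℂ Q).comp g) (MvPolynomial.X i), ?_⟩
  have hinj : Function.Injective ((Ideal.Quotient.mkₐ ℂ Q).comp g) := by
    rw [injective_iff_map_eq_zero]
    intro x hx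
    have hx' : g x ∈ Q := Ideal.Quotient.eq_zero_iff_mem.mp hx
    have : x ∈ Q.comap (algebraMap (MvPolynomial (Fin s) ℂ) R) := hx'
    rw [hQ'] at this
    simpa using this
  exact (MvPolynomial.algebraicIndependent_X (Fin s) ℂ).map' hinj

theorem dimLe_of_le {n : ℕ} (h : ringKrullDim R ≤ n) : DimLe R n := by
  intro A hA hsurj k t ht
  haveI := hA
  obtain ⟨s, g, hg, hint⟩ := exists_integral_inj_algHom_of_fg ℂ A.A
  have hsn : s ≤ n := by
    have h1 := ringKrullDim_le_of_surjective A.str.toRingHom hsurj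
    rw [dim_eq_of_norm g hg hint] at h1
    exact_mod_cast h1.trans h
  letI : Algebra (MvPolynomial (Fin s) ℂ) A.A := g.toRingHom.toAlgebra
  haveI : Algebra.IsIntegral (MvPolynomial (Fin s) ℂ) A.A := ⟨hint⟩
  haveI : IsScalarTower ℂ (MvPolynomial (Fin s) ℂ) A.A :=
    IsScalarTower.of_algebraMap_eq fun c => (g.commutes c).symm
  haveI : FaithfulSMul (MvPolynomial (Fin s) ℂ) A.A :=
    (faithfulSMul_iff_algebraMap_injective _ _).mpr hg
  have h2 : Algebra.trdeg ℂ A.A = s := by
    rw [← trdeg_add_eq ℂ (MvPolynomial (Fin s) ℂ),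
      trdeg_eq_zero (R := MvPolynomial (Fin s) ℂ) (A := A.A), add_zero,
      MvPolynomial.trdeg_of_isDomain]
    simp
  have h3 := ht.cardinalMk_le_trdeg
  rw [h2] at h3
  have h4 : k ≤ s := by simpa using h3
  omega

theorem dimLe {n : ℕ} (h : ringKrullDim R = n) : DimLe R n := dimLe_of_le h.le

end Pool.Agent.P.MP_824f38_ag.N
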