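import Pool.Agent.P.MP_824f38_ag.N.AFgMisc

/-! Row NEC-ADc: the two edge complexes of a double complex

Define by recursion on i the staircase relation St M i j q (a : W i j) (y : W 0 q):
for i = 0 it is j = q and HEq a y; for i+1 it is: exists b in M i j, h b = a and St M i (j+1) q (v b) y.
It is additive and compatible with scalars (r maps M into M' gives r maps St M into St M').
For closed a in M i j (h a = 0, v a = 0) there is y (rows), for closed y there is a (columns), and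
a trivial iff y trivial (compare H/Zigzag.lean for the pure vanishing statement). dc_fg follows from
fg_corr with Rel a = {(x,y) | St (M a) q 0 q x y} (a submodule). -/

set_option linter.unusedVariables false
set_option linter.unusedSectionVars false
set_option linter.style.haveILetI false
set_option linter.dupNamespace false

namespace Pool.Agent.P.MP_824f38_ag.N

universe u

variable {R : Type} [CommRing R] {W : ℕ → ℕ → Type u} [∀ i j, AddCommGroup (W i j)]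
  [∀ i j, Module R (W i j)] {h : ∀ i j, W i j →ₗ[R] W (i + 1) j}
  {v : ∀ i j, W i j →ₗ[R] W i (j + 1)}

/-- the staircase relation -/
private def St (h : ∀ i j, W i j →ₗ[R] W (i + 1) j) (v : ∀ i j, W i j →ₗ[R] W i (j + 1))
    (M : ∀ i j, Submodule R (W i j)) (q : ℕ) : ∀ i j : ℕ, W i j → W 0 q → Prop
  | 0, j, a, y => j = q ∧ HEq a y
  | i + 1, j, a, y => ∃ b ∈ M i j, h i j b = a ∧ St h v M q i (j + 1) (v i j b) y

private theorem St_zero (M : ∀ i j, Submodule R (W i j)) (q : ℕ) :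
    ∀ i j : ℕ, i + j = q → St h v M q i j 0 0
  | 0, j, e => by
    obtain rfl : j = q := by omega
    exact ⟨rfl, HEq.rfl⟩
  | i + 1, j, e => by
    refine ⟨0, zero_mem _, map_zero _, ?_⟩
    rw [map_zero]
    exact St_zero M q i (j + 1) (by omega)

private theorem St_add {M : ∀ i j, Submodule R (W i j)} {q : ℕ} :
    ∀ (i j : ℕ) (a a' : W i j) (y y' : W 0 q), St h v M q i j a y → St h v M q i j a' y' →
      St h v M q i j (a + a') (y + y')
  | 0, j, a, a', y, y', h1, h2 => by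
    obtain ⟨rfl, e1⟩ := h1
    obtain ⟨-, e2⟩ := h2
    rw [eq_of_heq e1, eq_of_heq e2]
    exact ⟨rfl, HEq.rfl⟩
  | i + 1, j, a, a', y, y', h1, h2 => by
    obtain ⟨b, hb, e1, s1⟩ := h1
    obtain ⟨b', hb', e2, s2⟩ := h2
    refine ⟨b + b', add_mem hb hb', by rw [map_add, e1, e2], ?_⟩
    rw [map_add]
    exact St_add i (j + 1) _ _ _ _ s1 s2

private theorem St_smul {M M' : ∀ i j, Submodule R (W i j)} {q : ℕ} (r : R)
    (hr : ∀ i j, ∀ x ∈ M i j, r • x ∈ M' i j) :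
    ∀ (i j : ℕ) (a : W i j) (y : W 0 q), St h v M q i j a y →
      St h v M' q i j (r • a) (r • y)
  | 0, j, a, y, h1 => by
    obtain ⟨rfl, e1⟩ := h1
    rw [eq_of_heq e1]
    exact ⟨rfl, HEq.rfl⟩
  | i + 1, j, a, y, h1 => by
    obtain ⟨b, hb, e1, s1⟩ := h1
    refine ⟨r • b, hr _ _ _ hb, by rw [map_smul, e1], ?_⟩
    rw [map_smul]
    exact St_smul r hr i (j + 1) _ _ s1

private theorem St_exy {M : ∀ i j, Submodule R (W i j)} (H : DC h v M) {q : ℕ} :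
    ∀ (i j : ℕ) (a : W i j), i + j = q → a ∈ M i j → h i j a = 0 → v i j a = 0 →
      ∃ y ∈ M 0 q, h 0 q y = 0 ∧ v 0 q y = 0 ∧ St h v M q i j a y
  | 0, j, a, e, ha, h1, h2 => by
    obtain rfl : j = q := by omega
    exact ⟨a, ha, h1, h2, rfl, HEq.rfl⟩
  | i + 1, j, a, e, ha, h1, h2 => by
    obtain ⟨b, hb, rfl⟩ := H.hex i j a ha h1
    obtain ⟨y, hy, y1, y2, s⟩ := St_exy H i (j + 1) (v i j b) (by omega : i + (j + 1) = q)
      (H.vmem _ _ _ hb) (by rw [H.comm, h2]) (H.vv _ _ _)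
    exact ⟨y, hy, y1, y2, b, hb, rfl, s⟩

private theorem St_exa {M : ∀ i j, Submodule R (W i j)} (H : DC h v M) {q : ℕ} (y : W 0 q)
    (hy : y ∈ M 0 q) (y1 : h 0 q y = 0) (y2 : v 0 q y = 0) :
    ∀ i j : ℕ, i + j = q → ∃ a ∈ M i j, h i j a = 0 ∧ v i j a = 0 ∧ St h v M q i j a y
  | 0, j, e => by
    obtain rfl : j = q := by omega
    exact ⟨y, hy, y1, y2, rfl, HEq.rfl⟩
  | i + 1, j, e => by
    obtain ⟨a, ha, a1, a2, s⟩ := St_exa H y hy y1 y2 i (j + 1) (by omega)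
    obtain ⟨b, hb, rfl⟩ := H.vex i j a ha a2
    exact ⟨h i j b, H.hmem _ _ _ hb, H.hh _ _ _, by rw [← H.comm, a1], b, hb, rfl, s⟩

/-- horizontal boundaries of vertically closed elements -/
private def TH (h : ∀ i j, W i j →ₗ[R] W (i + 1) j) (v : ∀ i j, W i j →ₗ[R] W i (j + 1))
    (M : ∀ i j, Submodule R (W i j)) (i j : ℕ) : Submodule R (W i j) :=
  Bd (W := fun i => W i j) (fun i => h i j) (fun i => M i j ⊓ LinearMap.ker (v i j)) ⊥ i

/-- vertical boundaries of horizontally closed elements -/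
private def TV (h : ∀ i j, W i j →ₗ[R] W (i + 1) j) (v : ∀ i j, W i j →ₗ[R] W i (j + 1))
    (M : ∀ i j, Submodule R (W i j)) (i j : ℕ) : Submodule R (W i j) :=
  Bd (W := fun j => W i j) (fun j => v i j) (fun j => M i j ⊓ LinearMap.ker (h i j)) ⊥ j

private theorem mem_TH {M : ∀ i j, Submodule R (W i j)} {i j : ℕ} {a : W (i + 1) j} :
    a ∈ TH h v M (i + 1) j ↔ ∃ b, (b ∈ M i j ∧ v i j b = 0) ∧ h i j b = a := Iff.rfl

private theorem mem_TV {M : ∀ i j, Submodule R (W i j)} {i j : ℕ} {a : W i (j + 1)} :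
    a ∈ TV h v M i (j + 1) ↔ ∃ b, (b ∈ M i j ∧ h i j b = 0) ∧ v i j b = a := Iff.rfl

private theorem mem_TH0 {M : ∀ i j, Submodule R (W i j)} {j : ℕ} {a : W 0 j} :
    a ∈ TH h v M 0 j ↔ a = 0 := Iff.rfl

private theorem mem_TV0 {M : ∀ i j, Submodule R (W i j)} {i : ℕ} {a : W i 0} :
    a ∈ TV h v M i 0 ↔ a = 0 := Iff.rfl

private theorem TV_TH {M : ∀ i j, Submodule R (W i j)} (H : DC h v M) (i j : ℕ)
    {a : W (i + 1) j} (ha : a ∈ TV h v M (i + 1) j) : a ∈ TH h v M (i + 1) j := by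
  cases j with
  | zero =>
    rw [mem_TV0.1 ha]
    exact zero_mem _
  | succ j =>
    obtain ⟨c, ⟨hc, c1⟩, rfl⟩ := mem_TV.1 ha
    obtain ⟨d, hd, rfl⟩ := H.hex i j c hc c1
    exact mem_TH.2 ⟨v i j d, ⟨H.vmem _ _ _ hd, H.vv _ _ _⟩, H.comm _ _ _⟩

private theorem TH_TV {M : ∀ i j, Submodule R (W i j)} (H : DC h v M) (i j : ℕ)
    {a : W i (j + 1)} (ha : a ∈ TH h v M i (j + 1)) : a ∈ TV h v M i (j + 1) := by
  cases i with
  | zero =>
    rw [mem_TH0.1 ha]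
    exact zero_mem _
  | succ i =>
    obtain ⟨c, ⟨hc, c1⟩, rfl⟩ := mem_TH.1 ha
    obtain ⟨d, hd, rfl⟩ := H.vex i j c hc c1
    exact mem_TV.2 ⟨h i j d, ⟨H.hmem _ _ _ hd, H.hh _ _ _⟩, (H.comm _ _ _).symm⟩

private theorem TH_iff_TV {M : ∀ i j, Submodule R (W i j)} (i j : ℕ) {b : W i j}
    (hb : b ∈ M i j) : h i j b ∈ TH h v M (i + 1) j ↔ v i j b ∈ TV h v M i (j + 1) := by
  rw [mem_TH, mem_TV]
  constructor
  · rintro ⟨c, ⟨hc, c1⟩, e⟩
    exact ⟨b - c, ⟨sub_mem hb hc, by rw [map_sub, e, sub_self]⟩, by rw [map_sub, c1, sub_zero]⟩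
  · rintro ⟨c, ⟨hc, c1⟩, e⟩
    exact ⟨b - c, ⟨sub_mem hb hc, by rw [map_sub, e, sub_self]⟩, by rw [map_sub, c1, sub_zero]⟩

private theorem St_triv {M : ∀ i j, Submodule R (W i j)} (H : DC h v M) {q : ℕ} :
    ∀ (i j : ℕ) (a : W i j) (y : W 0 q), St h v M q i j a y →
      ((a ∈ TH h v M i j ∨ a ∈ TV h v M i j) ↔ y ∈ TV h v M 0 q)
  | 0, j, a, y, h1 => by
    obtain ⟨rfl, e1⟩ := h1
    rw [eq_of_heq e1]
    refine ⟨fun hh => hh.elim (fun h0 => ?_) id, Or.inr⟩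
    rw [mem_TH0.1 h0]
    exact zero_mem _
  | i + 1, j, a, y, h1 => by
    obtain ⟨b, hb, rfl, s1⟩ := h1
    rw [← St_triv H i (j + 1) _ _ s1]
    constructor
    · intro hh
      exact Or.inr ((TH_iff_TV i j hb).1 (hh.elim id (TV_TH H i j)))
    · intro hh
      exact Or.inl ((TH_iff_TV i j hb).2 (hh.elim (TH_TV H i j) id))

private theorem St_triv' {M : ∀ i j, Submodule R (W i j)} (H : DC h v M) {q : ℕ}
    {a : W q 0} {y : W 0 q} (s : St h v M q q 0 a y) :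
    a ∈ Bd (W := fun i => W i 0) (fun i => h i 0) (EdgeH v M) ⊥ q ↔
      y ∈ Bd (W := fun j => W 0 j) (fun j => v 0 j) (EdgeV h M) ⊥ q := by
  have h1 := St_triv H q 0 a y s
  change a ∈ TH h v M q 0 ↔ y ∈ TV h v M 0 q
  rw [← h1]
  refine ⟨Or.inl, fun hh => hh.elim id fun h0 => ?_⟩
  rw [mem_TV0.1 h0]
  exact zero_mem _

theorem dc_van {M : ∀ i j, Submodule R (W i j)} (H : DC h v M) (q : ℕ) :
    Van (W := fun i => W i 0) (fun i => h i 0) (EdgeH v M) q ↔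
      Van (W := fun j => W 0 j) (fun j => v 0 j) (EdgeV h M) q := by
  constructor
  · intro hv y hy
    obtain ⟨⟨hy1, hy2⟩, hy3⟩ := hy
    obtain ⟨a, ha, a1, a2, s⟩ := St_exa H y hy1 hy2 hy3 q 0 rfl
    exact (St_triv' H s).1 (hv ⟨⟨ha, a2⟩, a1⟩)
  · intro hv a ha
    obtain ⟨⟨ha1, ha2⟩, ha3⟩ := ha
    obtain ⟨y, hy, y1, y2, s⟩ := St_exy H q 0 a rfl ha1 ha3 ha2
    exact (St_triv' H s).2 (hv ⟨⟨hy, y1⟩, y2⟩)

theorem dc_fg [IsNoetherianRing R] {m : Ideal R} {M : ℕ → ∀ i j, Submodule R (W i j)}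
    (H : ∀ a, DC h v (M a)) (hs : ∀ i j, Up m fun a => M a i j) (q : ℕ)
    (hf : FGP m (fun a => Zy (W := fun i => W i 0) (fun i => h i 0) (EdgeH v (M a)) q)
      (fun a => Bd (W := fun i => W i 0) (fun i => h i 0) (EdgeH v (M a)) ⊥ q)) :
    FGP m (fun a => Zy (W := fun j => W 0 j) (fun j => v 0 j) (EdgeV h (M a)) q)
      (fun a => Bd (W := fun j => W 0 j) (fun j => v 0 j) (EdgeV h (M a)) ⊥ q) := by
  let Rel : ℕ → Submodule R (W q 0 × W 0 q) := fun a =>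
    { carrier := {p | St h v (M a) q q 0 p.1 p.2}
      add_mem' := fun {p p'} hp hp' => St_add q 0 _ _ _ _ hp hp'
      zero_mem' := St_zero (M a) q q 0 rfl
      smul_mem' := fun r p hp => St_smul r (fun i j x hx => Submodule.smul_mem _ r hx) q 0 _ _ hp }
  refine fg_corr Rel ?_ ?_ ?_ ?_ ?_ ?_ ?_ hf
  · rintro a r hr x ⟨⟨h1, h2⟩, h3⟩
    exact ⟨⟨hs q 0 a r hr x h1, Submodule.smul_mem _ r h2⟩, Submodule.smul_mem _ r h3⟩
  · intro a r hr x hx
    cases q with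
    | zero => exact Submodule.smul_mem _ r hx
    | succ q =>
      obtain ⟨b, ⟨h1, h2⟩, rfl⟩ := hx
      exact ⟨r • b, ⟨hs q 0 a r hr b h1, Submodule.smul_mem _ r h2⟩, map_smul _ _ _⟩
  · intro a x hx
    cases q with
    | zero =>
      rw [(Submodule.mem_bot R).1 hx]
      exact zero_mem _
    | succ q =>
      obtain ⟨b, ⟨h1, h2⟩, rfl⟩ := hx
      refine ⟨⟨(H a).hmem _ _ _ h1, ?_⟩, (H a).hh _ _ _⟩
      have h3 : v q 0 b = 0 := h2
      change v (q + 1) 0 (h q 0 b) = 0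
      rw [← (H a).comm, h3, map_zero]
  · rintro a r hr x ⟨⟨h1, h2⟩, h3⟩
    exact ⟨⟨hs 0 q a r hr x h1, Submodule.smul_mem _ r h2⟩, Submodule.smul_mem _ r h3⟩
  · intro a r hr p hp
    exact St_smul r (fun i j x hx => hs i j a r hr x hx) q 0 _ _ hp
  · rintro a y ⟨⟨hy1, hy2⟩, hy3⟩
    obtain ⟨x, hx, a1, a2, s⟩ := St_exa (H a) y hy1 hy2 hy3 q 0 rfl
    exact ⟨x, ⟨⟨hx, a2⟩, a1⟩, s⟩
  · intro a x y s hy hx
    exact (St_triv' (H a) s).1 hx

end Pool.Agent.P.MP_824f38_ag.N
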