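import Pool.Agent.P.MP_824f38_ag.N.AFgMisc

/-! Row NEC-ALes: diagram chases for short exact sequences of complexes

All statements are elementwise chases (cases on the degree: 0 or j+1). les_fg: fg_corr with
Z1 = Zy K'', B1 = Bd K'', Z2 = Zy K, B2 = Zy K' ⊔ Bd K, Rel a = graph of f on K a q; then fg_quot and
fg_ext. relex_pair: write c = k + δ b; δ (f b) lies in K0'', so f b = k'' + δ b''; lift. -/

set_option linter.unusedVariables false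
set_option linter.unusedSectionVars false
set_option linter.style.haveILetI false
set_option linter.dupNamespace false

namespace Pool.Agent.P.MP_824f38_ag.N

universe u v

variable {R : Type} [CommRing R] {W : ℕ → Type u} [∀ j, AddCommGroup (W j)]
  [∀ j, Module R (W j)] {W' : ℕ → Type v} [∀ j, AddCommGroup (W' j)] [∀ j, Module R (W' j)]

variable {δ : Df R W} {δ' : Df R W'} {f : ∀ j, W j →ₗ[R] W' j}

theorem Bd_le_Zy (hδ : Sq δ) {K : Fm R W} (hK : Sc δ K) {N : Submodule R (W 0)}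
    (hN : N ≤ Zy δ K 0) (j : ℕ) : Bd δ K N j ≤ Zy δ K j := by
  cases j with
  | zero => exact hN
  | succ j =>
    rintro c ⟨b, hb, rfl⟩
    exact ⟨hK _ _ hb, hδ _ _⟩

theorem SES.sc {K' K : Fm R W} {K'' : Fm R W'} (H : SES δ δ' f K' K K'') (hK : Sc δ K) :
    Sc δ K' := by
  intro j c hc
  rw [H.ker] at hc ⊢
  exact ⟨hK _ _ hc.1, by rw [H.comm, hc.2, map_zero]⟩

private theorem ales_bot : ∀ c ∈ (⊥ : Submodule R (W' 0)), ∃ b ∈ (⊥ : Submodule R (W 0)),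
    f 0 b = c := fun c hc => ⟨0, zero_mem _, by rw [map_zero, (Submodule.mem_bot R).1 hc]⟩

private theorem ales_mono {K' K : Fm R W} (h : ∀ j, K' j ≤ K j) {N' N : Submodule R (W 0)}
    (hN : N' ≤ N) (j : ℕ) : Bd δ K' N' j ≤ Bd δ K N j := by
  cases j with
  | zero => exact hN
  | succ j => exact Submodule.map_mono (h j)

private theorem ales_dbd (hδ : Sq δ) {K : Fm R W} {j : ℕ} {z : W j} (hz : z ∈ Bd δ K ⊥ j) :
    δ j z = 0 := by
  cases j with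
  | zero => rw [(Submodule.mem_bot R).1 hz, map_zero]
  | succ j =>
    obtain ⟨b, -, rfl⟩ := hz
    exact hδ _ _

private theorem ales_zy {K' K : Fm R W} {K'' : Fm R W'} (H : SES δ δ' f K' K K'') {j : ℕ}
    {c : W j} (hc : c ∈ Zy δ K j) : f j c ∈ Zy δ' K'' j := by
  refine ⟨H.mem _ _ hc.1, ?_⟩
  have e : δ j c = 0 := hc.2
  change δ' j (f j c) = 0
  rw [← H.comm, e, map_zero]

private theorem ales_bd {K' K : Fm R W} {K'' : Fm R W'} (H : SES δ δ' f K' K K'')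
    {N : Submodule R (W 0)} {N'' : Submodule R (W' 0)} (hs : ∀ c ∈ N'', ∃ b ∈ N, f 0 b = c)
    {j : ℕ} {y : W' j} (hy : y ∈ Bd δ' K'' N'' j) : ∃ z ∈ Bd δ K N j, f j z = y := by
  cases j with
  | zero => exact hs y hy
  | succ j =>
    obtain ⟨b, hb, rfl⟩ := hy
    obtain ⟨e, he, rfl⟩ := H.surj _ _ hb
    exact ⟨δ j e, ⟨e, he, rfl⟩, H.comm _ _⟩

private theorem ales_lift (hδ : Sq δ) {K' K : Fm R W} {K'' : Fm R W'} (H : SES δ δ' f K' K K'')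
    (hK : Sc δ K) {N : Submodule R (W 0)} {N'' : Submodule R (W' 0)} (hN : N ≤ Zy δ K 0)
    (hs : ∀ c ∈ N'', ∃ b ∈ N, f 0 b = c) {j : ℕ} {c : W j} (hc : c ∈ Zy δ K j)
    (h : f j c ∈ Bd δ' K'' N'' j) : ∃ b ∈ Bd δ K N j, c - b ∈ Zy δ K' j := by
  obtain ⟨z, hz, e⟩ := ales_bd H hs h
  have hz' := Bd_le_Zy hδ hK hN j hz
  have h1 : c - z ∈ Zy δ K j := sub_mem hc hz'
  exact ⟨z, hz, (H.ker _ _).2 ⟨h1.1, by rw [map_sub, e, sub_self]⟩, h1.2⟩

private theorem ales_rel (hδ : Sq δ) {K0 K1 : Fm R W} (h : RelEx δ K0 K1)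
    {N : Submodule R (W 0)} {q : ℕ} {c : W q} (hc : c ∈ K0 q) (hb : c ∈ Bd δ K1 N q) :
    c ∈ Bd δ K0 N q := by
  cases q with
  | zero => exact hb
  | succ i =>
    obtain ⟨b, hb, rfl⟩ := hb
    obtain ⟨k, hk, z, hz, rfl⟩ := Submodule.mem_sup.1 (h i b hb hc)
    exact ⟨k, hk, by rw [map_add, ales_dbd hδ hz, add_zero]⟩

/-- the graph of a linear map on a submodule, value first -/
private def grfL {A : Type u} {B : Type v} [AddCommGroup A] [Module R A] [AddCommGroup B]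
    [Module R B] (g : A →ₗ[R] B) (K : Submodule R A) : Submodule R (B × A) where
  carrier := {p | p.2 ∈ K ∧ g p.2 = p.1}
  add_mem' := fun {a b} ha hb => ⟨add_mem ha.1 hb.1, by
    rw [Prod.snd_add, Prod.fst_add, map_add, ha.2, hb.2]⟩
  zero_mem' := ⟨zero_mem _, map_zero _⟩
  smul_mem' := fun s a ha => ⟨Submodule.smul_mem _ s ha.1, by
    rw [Prod.smul_snd, Prod.smul_fst, map_smul, ha.2]⟩

/-- the graph of a linear map on a submodule, argument first -/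
private def grfR {A : Type u} {B : Type v} [AddCommGroup A] [Module R A] [AddCommGroup B]
    [Module R B] (g : A →ₗ[R] B) (K : Submodule R A) : Submodule R (A × B) where
  carrier := {p | p.1 ∈ K ∧ g p.1 = p.2}
  add_mem' := fun {a b} ha hb => ⟨add_mem ha.1 hb.1, by
    rw [Prod.snd_add, Prod.fst_add, map_add, ha.2, hb.2]⟩
  zero_mem' := ⟨zero_mem _, map_zero _⟩
  smul_mem' := fun s a ha => ⟨Submodule.smul_mem _ s ha.1, by
    rw [Prod.smul_snd, Prod.smul_fst, map_smul, ha.2]⟩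

private theorem up_grfL {A : Type u} {B : Type v} [AddCommGroup A] [Module R A] [AddCommGroup B]
    [Module R B] (g : A →ₗ[R] B) {m : Ideal R} {K : ℕ → Submodule R A} (h : Up m K) :
    Up m fun a => grfL g (K a) := fun a r hr p hp =>
  ⟨h a r hr _ hp.1, ((grfL g (K a)).smul_mem r hp).2⟩

private theorem up_grfR {A : Type u} {B : Type v} [AddCommGroup A] [Module R A] [AddCommGroup B]
    [Module R B] (g : A →ₗ[R] B) {m : Ideal R} {K : ℕ → Submodule R A} (h : Up m K) :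
    Up m fun a => grfR g (K a) := fun a r hr p hp =>
  ⟨h a r hr _ hp.1, ((grfR g (K a)).smul_mem r hp).2⟩

private theorem up_zy {m : Ideal R} {K : ℕ → Fm R W} (hU : ∀ j, Up m fun a => K a j) (q : ℕ) :
    Up m fun a => Zy δ (K a) q := fun a r hr x hx =>
  ⟨hU q a r hr x hx.1, ((Zy δ (K a) q).smul_mem r hx).2⟩

private theorem up_bd {m : Ideal R} {K : ℕ → Fm R W} (hU : ∀ j, Up m fun a => K a j) (q : ℕ) :
    Up m fun a => Bd δ (K a) ⊥ q := by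
  intro a r hr x hx
  cases q with
  | zero => exact Submodule.smul_mem _ r hx
  | succ i =>
    obtain ⟨b, hb, rfl⟩ := hx
    exact ⟨r • b, hU i a r hr b hb, map_smul _ _ _⟩

private theorem iso_zy {K : Fm R W} {K' : Fm R W'}
    (comm : ∀ j, ∀ c ∈ K j, f (j + 1) (δ j c) = δ' j (f j c))
    (im : ∀ j c, c ∈ K' j ↔ ∃ b ∈ K j, f j b = c) {q : ℕ} {c : W q} (hc : c ∈ Zy δ K q) :
    f q c ∈ Zy δ' K' q := by
  refine ⟨(im _ _).2 ⟨c, hc.1, rfl⟩, ?_⟩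
  have e : δ q c = 0 := hc.2
  change δ' q (f q c) = 0
  rw [← comm q c hc.1, e, map_zero]

private theorem iso_zy' {K : Fm R W} {K' : Fm R W'}
    (comm : ∀ j, ∀ c ∈ K j, f (j + 1) (δ j c) = δ' j (f j c)) (hK : Sc δ K)
    (inj : ∀ j, ∀ c ∈ K j, f j c = 0 → c = 0) (im : ∀ j c, c ∈ K' j ↔ ∃ b ∈ K j, f j b = c)
    {q : ℕ} {c : W' q} (hc : c ∈ Zy δ' K' q) : ∃ b ∈ Zy δ K q, f q b = c := by
  obtain ⟨b, hb, rfl⟩ := (im _ _).1 hc.1
  refine ⟨b, ⟨hb, ?_⟩, rfl⟩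
  change δ q b = 0
  refine inj _ _ (hK _ _ hb) ?_
  rw [comm q b hb]
  exact hc.2

private theorem iso_bd {K : Fm R W} {K' : Fm R W'}
    (comm : ∀ j, ∀ c ∈ K j, f (j + 1) (δ j c) = δ' j (f j c))
    (im : ∀ j c, c ∈ K' j ↔ ∃ b ∈ K j, f j b = c) {q : ℕ} {c : W q} (hc : c ∈ Bd δ K ⊥ q) :
    f q c ∈ Bd δ' K' ⊥ q := by
  cases q with
  | zero => rw [(Submodule.mem_bot R).1 hc, map_zero]; exact zero_mem _
  | succ i =>
    obtain ⟨b, hb, rfl⟩ := hc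
    exact ⟨f i b, (im _ _).2 ⟨b, hb, rfl⟩, (comm i b hb).symm⟩

private theorem iso_bd' {K : Fm R W} {K' : Fm R W'}
    (comm : ∀ j, ∀ c ∈ K j, f (j + 1) (δ j c) = δ' j (f j c)) (hK : Sc δ K)
    (inj : ∀ j, ∀ c ∈ K j, f j c = 0 → c = 0) (im : ∀ j c, c ∈ K' j ↔ ∃ b ∈ K j, f j b = c)
    {q : ℕ} {c : W q} (hc : c ∈ K q) (h : f q c ∈ Bd δ' K' ⊥ q) : c ∈ Bd δ K ⊥ q := by
  cases q with
  | zero => rw [inj 0 c hc ((Submodule.mem_bot R).1 h)]; exact zero_mem _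
  | succ i =>
    obtain ⟨b, hb, e⟩ := h
    obtain ⟨a, ha, rfl⟩ := (im _ _).1 hb
    refine ⟨a, ha, ?_⟩
    have := inj _ (δ i a - c) (sub_mem (hK _ _ ha) hc) (by rw [map_sub, comm i a ha, e, sub_self])
    exact sub_eq_zero.1 this

theorem les_van (hδ : Sq δ) {K' K : Fm R W} {K'' : Fm R W'} (H : SES δ δ' f K' K K'')
    (hK : Sc δ K) {q : ℕ} (h1 : Van δ K' q) (h2 : Van δ' K'' q) : Van δ K q := by
  intro c hc
  obtain ⟨b, hb, hcb⟩ := ales_lift hδ H hK (N := ⊥) (N'' := ⊥) bot_le ales_bot hc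
    (h2 (ales_zy H hc))
  have h3 : c - b ∈ Bd δ K ⊥ q :=
    ales_mono (fun j x hx => ((H.ker j x).1 hx).1) le_rfl q (h1 hcb)
  simpa using add_mem h3 hb

theorem les_fg [IsNoetherianRing R] (hδ : Sq δ) (hδ' : Sq δ') {m : Ideal R} {K' K : ℕ → Fm R W}
    {K'' : ℕ → Fm R W'} (H : ∀ a, SES δ δ' f (K' a) (K a) (K'' a)) (hK : ∀ a, Sc δ (K a))
    (hK'' : ∀ a, Sc δ' (K'' a)) (hU : ∀ j, Up m fun a => K a j) (hU'' : ∀ j, Up m fun a => K'' a j)
    {q : ℕ} (h1 : FGP m (fun a => Zy δ (K' a) q) (fun a => Bd δ (K' a) ⊥ q))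
    (h2 : FGP m (fun a => Zy δ' (K'' a) q) (fun a => Bd δ' (K'' a) ⊥ q)) :
    FGP m (fun a => Zy δ (K a) q) (fun a => Bd δ (K a) ⊥ q) := by
  have hle : ∀ a j, K' a j ≤ K a j := fun a j x hx => (((H a).ker j x).1 hx).1
  have A : FGP m (fun a => Zy δ (K a) q) (fun a => Zy δ (K' a) q ⊔ Bd δ (K a) ⊥ q) := by
    refine fg_corr (fun a => grfL (f q) (K a q)) (up_zy hU'' q) (up_bd hU'' q)
      (fun a => Bd_le_Zy hδ' (hK'' a) bot_le q) (up_zy hU q) (up_grfL (f q) (hU q)) ?_ ?_ h2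
    · intro a y hy
      exact ⟨f q y, ales_zy (H a) hy, hy.1, rfl⟩
    · rintro a x y ⟨-, hxy⟩ hy hx
      have hx' : f q y ∈ Bd δ' (K'' a) ⊥ q := by
        have e : f q y = x := hxy
        rw [e]; exact hx
      obtain ⟨b, hb, hcb⟩ := ales_lift hδ (H a) (hK a) (N := ⊥) (N'' := ⊥) bot_le ales_bot hy hx'
      have := add_mem (Submodule.mem_sup_left (T := Bd δ (K a) ⊥ q) hcb)
        (Submodule.mem_sup_right (S := Zy δ (K' a) q) hb)
      simpa using this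
  have B := fg_quot (B' := fun a => Bd δ (K a) ⊥ q)
    (fun a => ales_mono (hle a) le_rfl q) h1
  refine fg_ext (Z' := fun a => Zy δ (K' a) q ⊔ Bd δ (K a) ⊥ q) (fun a => ?_) B A
  exact sup_le (fun x hx => ⟨hle a q hx.1, hx.2⟩) (Bd_le_Zy hδ (hK a) bot_le q)

theorem pair_lift (hδ : Sq δ) {K' K : Fm R W} {K'' : Fm R W'} (H : SES δ δ' f K' K K'')
    (hK : Sc δ K) {N : Submodule R (W 0)} {N'' : Submodule R (W' 0)} (hN : N ≤ Zy δ K 0)
    (hs : ∀ c ∈ N'', ∃ b ∈ N, f 0 b = c) {j : ℕ} {c : W j} (hc : c ∈ Zy δ K j)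
    (h : f j c ∈ Bd δ' K'' N'' j) : ∃ b ∈ Bd δ K N j, c - b ∈ Zy δ K' j := by
  exact ales_lift hδ H hK hN hs hc h

theorem pair_triv (hδ : Sq δ) {K' K : Fm R W} {K'' : Fm R W'} (H : SES δ δ' f K' K K'')
    (hK : Sc δ K) {N N' : Submodule R (W 0)} {N'' : Submodule R (W' 0)} (hN : N ≤ Zy δ K 0)
    (hs : ∀ c ∈ N'', ∃ b ∈ N, f 0 b = c) (hk : ∀ c ∈ N, f 0 c = 0 → c ∈ N') {j : ℕ}
    (hA : AcycLt δ' K'' N'' j) {c : W j} (hc : c ∈ K' j) (h : c ∈ Bd δ K N j) :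
    c ∈ Bd δ K' N' j := by
  cases j with
  | zero => exact hk c h ((H.ker _ _).1 hc).2
  | succ j =>
    obtain ⟨b, hb, rfl⟩ := h
    have h1 : f j b ∈ Zy δ' K'' j :=
      ⟨H.mem _ _ hb, by
        change δ' j (f j b) = 0
        rw [← H.comm]; exact ((H.ker _ _).1 hc).2⟩
    obtain ⟨z, hz, hfz⟩ := ales_bd H hs (hA j (Nat.lt_succ_self j) h1)
    have hz' := Bd_le_Zy hδ hK hN j hz
    refine ⟨b - z, (H.ker _ _).2 ⟨sub_mem hb hz'.1, by rw [map_sub, hfz, sub_self]⟩, ?_⟩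
    have e : δ j z = 0 := hz'.2
    rw [map_sub, e, sub_zero]

theorem pair_acycLt (hδ : Sq δ) {K' K : Fm R W} {K'' : Fm R W'} (H : SES δ δ' f K' K K'')
    (hK : Sc δ K) {N N' : Submodule R (W 0)} {N'' : Submodule R (W' 0)} (hN : N ≤ Zy δ K 0)
    (hs : ∀ c ∈ N'', ∃ b ∈ N, f 0 b = c) (hk : ∀ c ∈ N, f 0 c = 0 → c ∈ N') {j : ℕ}
    (hA : AcycLt δ K N j) (hA'' : AcycLt δ' K'' N'' j) : AcycLt δ K' N' j := by
  intro i hi c hc
  refine pair_triv hδ H hK hN hs hk (fun i' hi' => hA'' i' (hi'.trans hi)) hc.1 ?_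
  exact hA i hi ⟨((H.ker _ _).1 hc.1).1, hc.2⟩

theorem pair_acyc (hδ : Sq δ) {K' K : Fm R W} {K'' : Fm R W'} (H : SES δ δ' f K' K K'')
    (hK : Sc δ K) {N N' : Submodule R (W 0)} {N'' : Submodule R (W' 0)}
    (hs : ∀ c ∈ N'', ∃ b ∈ N, f 0 b = c) (hk : ∀ c, c ∈ N' ↔ c ∈ N ∧ f 0 c = 0)
    (hA : Acyc δ K N) (hA'' : Acyc δ' K'' N'') : Acyc δ K' N' := by
  refine ⟨fun c hc => ?_, fun i => ?_⟩
  · have h1 := (hk c).1 hc
    have h2 := hA.le h1.1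
    exact ⟨(H.ker _ _).2 ⟨h2.1, h1.2⟩, h2.2⟩
  · exact pair_acycLt hδ H hK hA.le hs (fun c hc h0 => (hk c).2 ⟨hc, h0⟩) (j := i + 1)
      (fun i' _ => hA.ex i') (fun i' _ => hA''.ex i') i (Nat.lt_succ_self i)

theorem relex_pair (hδ : Sq δ) (hδ' : Sq δ') {K0' K0 K1' K1 : Fm R W} {K0'' K1'' : Fm R W'}
    (H0 : SES δ δ' f K0' K0 K0'') (H1 : SES δ δ' f K1' K1 K1'') (s0 : Sc δ K0) (s1 : Sc δ K1)
    (hle : ∀ j, K0 j ≤ K1 j) (h : RelEx δ K0 K1) (h'' : RelEx δ' K0'' K1'') :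
    RelEx δ K0' K1' := by
  intro j c hc hd
  have hc' := (H1.ker _ _).1 hc
  obtain ⟨k, hk, z, hz, rfl⟩ := Submodule.mem_sup.1 (h j c hc'.1 ((H0.ker _ _).1 hd).1)
  cases j with
  | zero =>
    have e : z = 0 := (Submodule.mem_bot R).1 hz
    subst e
    refine Submodule.mem_sup_left ((H0.ker _ _).2 ⟨?_, hc'.2⟩)
    simpa using hk
  | succ i =>
    obtain ⟨b, hb, rfl⟩ := hz
    have e1 : δ' i (f i b) = -f (i + 1) k := by
      have := hc'.2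
      rw [map_add, H1.comm] at this
      exact eq_neg_of_add_eq_zero_right this
    have h1 : δ' i (f i b) ∈ K0'' (i + 1) := by
      rw [e1]; exact neg_mem (H0.mem _ _ hk)
    obtain ⟨k2, hk2, z2, hz2, e2⟩ := Submodule.mem_sup.1 (h'' i _ (H1.mem _ _ hb) h1)
    obtain ⟨k0, hk0, rfl⟩ := H0.surj _ _ hk2
    obtain ⟨z1, hz1, rfl⟩ := ales_bd (N := ⊥) H1 ales_bot hz2
    have hz1' := Bd_le_Zy hδ s1 bot_le i hz1
    have e3 : δ i z1 = 0 := hz1'.2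
    have e4 : f i (b - k0 - z1) = 0 := by
      rw [map_sub, map_sub, ← e2]; abel
    have hb' : b - k0 - z1 ∈ K1' i :=
      (H1.ker _ _).2 ⟨sub_mem (sub_mem hb (hle _ hk0)) hz1'.1, e4⟩
    have e5 : k + δ i b = (k + δ i k0) + δ i (b - k0 - z1) := by
      rw [map_sub, map_sub, e3]; abel
    refine Submodule.mem_sup.2 ⟨k + δ i k0, (H0.ker _ _).2 ⟨add_mem hk (s0 _ _ hk0), ?_⟩,
      δ i (b - k0 - z1), ⟨_, hb', rfl⟩, e5.symm⟩
    have := hc'.2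
    rw [e5, map_add, H1.comm, e4, map_zero, add_zero] at this
    exact this

theorem relex_van (hδ : Sq δ) {K0 K1 : Fm R W} (hle : ∀ j, K0 j ≤ K1 j) (h : RelEx δ K0 K1)
    {q : ℕ} (hv : Van δ K1 q) : Van δ K0 q := by
  intro c hc
  exact ales_rel hδ h hc.1 (hv ⟨hle _ hc.1, hc.2⟩)

theorem relex_acyc (hδ : Sq δ) {K0 K1 : Fm R W} (hle : ∀ j, K0 j ≤ K1 j) (h : RelEx δ K0 K1)
    {N : Submodule R (W 0)} (hA : Acyc δ K1 N) : Acyc δ K0 N := by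
  refine ⟨fun c hc => ?_, fun i c hc => ales_rel hδ h hc.1 (hA.ex i ⟨hle _ hc.1, hc.2⟩)⟩
  have h1 := hA.le hc
  have e : δ 0 c = 0 := h1.2
  have h2 := h 0 c h1.1 (by rw [e]; exact zero_mem _)
  rw [Bd_zero, sup_bot_eq] at h2
  exact ⟨h2, h1.2⟩

theorem relex_cyc (hδ : Sq δ) {K0 K1 : Fm R W} (h : RelEx δ K0 K1) {q : ℕ} {c : W q}
    (hc : c ∈ Zy δ K1 q) : ∃ k ∈ Zy δ K0 q, c - k ∈ Bd δ K1 ⊥ q := by
  have e : δ q c = 0 := hc.2
  obtain ⟨k, hk, z, hz, rfl⟩ :=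
    Submodule.mem_sup.1 (h q c hc.1 (by rw [e]; exact zero_mem _))
  refine ⟨k, ⟨hk, ?_⟩, by simpa using hz⟩
  change δ q k = 0
  rw [map_add, ales_dbd hδ hz, add_zero] at e
  exact e

/-- transport along an injective chain map with image `K'` -/
theorem van_iff_of_iso {K : Fm R W} {K' : Fm R W'}
    (comm : ∀ j, ∀ c ∈ K j, f (j + 1) (δ j c) = δ' j (f j c)) (hK : Sc δ K)
    (inj : ∀ j, ∀ c ∈ K j, f j c = 0 → c = 0) (im : ∀ j c, c ∈ K' j ↔ ∃ b ∈ K j, f j b = c)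
    (q : ℕ) : Van δ K q ↔ Van δ' K' q := by
  constructor
  · intro hv c hc
    obtain ⟨b, hb, rfl⟩ := iso_zy' comm hK inj im hc
    exact iso_bd comm im (hv hb)
  · intro hv c hc
    exact iso_bd' comm hK inj im hc.1 (hv (iso_zy comm im hc))

theorem fg_iff_of_iso [IsNoetherianRing R] {m : Ideal R} {K : ℕ → Fm R W} {K' : ℕ → Fm R W'}
    (comm : ∀ a j, ∀ c ∈ K a j, f (j + 1) (δ j c) = δ' j (f j c)) (hK : ∀ a, Sc δ (K a))
    (hδ : Sq δ) (hδ' : Sq δ') (hU : ∀ j, Up m fun a => K a j)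
    (inj : ∀ a j, ∀ c ∈ K a j, f j c = 0 → c = 0)
    (im : ∀ a j c, c ∈ K' a j ↔ ∃ b ∈ K a j, f j b = c) (q : ℕ) :
    FGP m (fun a => Zy δ (K a) q) (fun a => Bd δ (K a) ⊥ q) ↔
      FGP m (fun a => Zy δ' (K' a) q) (fun a => Bd δ' (K' a) ⊥ q) := by
  have hU' : ∀ j, Up m fun a => K' a j := by
    intro j a r hr x hx
    obtain ⟨b, hb, rfl⟩ := (im a j x).1 hx
    exact (im _ j _).2 ⟨r • b, hU j a r hr b hb, map_smul _ _ _⟩
  have hK' : ∀ a, Sc δ' (K' a) := by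
    intro a j x hx
    obtain ⟨b, hb, rfl⟩ := (im a j x).1 hx
    exact (im _ _ _).2 ⟨δ j b, hK a j b hb, comm a j b hb⟩
  constructor
  · intro H
    refine fg_corr (fun a => grfR (f q) (K a q)) (up_zy hU q) (up_bd hU q)
      (fun a => Bd_le_Zy hδ (hK a) bot_le q) (up_zy hU' q) (up_grfR (f q) (hU q)) ?_ ?_ H
    · intro a y hy
      obtain ⟨b, hb, rfl⟩ := iso_zy' (comm a) (hK a) (inj a) (im a) hy
      exact ⟨b, hb, hb.1, rfl⟩
    · rintro a x y ⟨-, hxy⟩ - hx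
      have e : f q x = y := hxy
      rw [← e]
      exact iso_bd (comm a) (im a) hx
  · intro H
    refine fg_corr (fun a => grfL (f q) (K a q)) (up_zy hU' q) (up_bd hU' q)
      (fun a => Bd_le_Zy hδ' (hK' a) bot_le q) (up_zy hU q) (up_grfL (f q) (hU q)) ?_ ?_ H
    · intro a y hy
      exact ⟨f q y, iso_zy (comm a) (im a) hy, hy.1, rfl⟩
    · rintro a x y ⟨-, hxy⟩ hy hx
      have e : f q y = x := hxy
      exact iso_bd' (comm a) (hK a) (inj a) (im a) hy.1 (by rw [e]; exact hx)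

end Pool.Agent.P.MP_824f38_ag.N
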