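import Pool.Agent.P.MP_824f38_ag.N.CEt

/-! Row NEC-CSm: smoothness from local coordinates, and conversely

Reg.smooth: RingHom.Smooth.ofLocalizationSpanTarget with the h of lc_smooth (span_eq_top_of_pts); MvPolynomial ι ℂ is smooth over ℂ. smooth_base: the map
P → MvPolynomial (Fin n) ℂ, X j ↦ X (castLE j) + C (w (σ j)), is smooth (an automorphism composed with a polynomial extension). forms_base: by lc_span h Ω_(A/P) is spanned by the n - m elements
d y i, i ≥ m, so h^(p) kills the forms of degree p > n - m; conclude with mem_of_loc. reg_of_smooth: choose a ℂ-basis y of ker w / (ker w)²; Nakayama gives gen; the dual point derivations A → ℂ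
give A-linear maps Ω → A / ker w that lift to Ω → A because Ω is projective (Module.projective_lifting_property); LC.of_diag. -/

set_option linter.unusedVariables false
set_option linter.unusedSectionVars false
set_option linter.style.haveILetI false
set_option linter.dupNamespace false

namespace Pool.Agent.P.MP_824f38_ag.N

variable {A : Type} [CommRing A] [Algebra ℂ A]

theorem csm_local [Algebra.FiniteType ℂ A] {P : Type} [CommRing P] [Algebra P A]
    (h : ∀ w : A →ₐ[ℂ] ℂ, ∃ a, w a ≠ 0 ∧
      ((algebraMap A (Localization.Away a)).comp (algebraMap P A)).Smooth) :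
    Algebra.Smooth P A := by
  rw [← RingHom.smooth_algebraMap]
  refine RingHom.Smooth.ofLocalizationSpanTarget _
    {a | ((algebraMap A (Localization.Away a)).comp (algebraMap P A)).Smooth}
    (span_eq_top_of_pts fun w => ?_) fun r => r.2
  obtain ⟨a, ha, hs⟩ := h w
  exact ⟨a, hs, ha⟩

theorem csm_poly (P σ : Type) [CommRing P] [Finite σ] :
    (MvPolynomial.C : P →+* MvPolynomial σ P).Smooth :=
  RingHom.smooth_algebraMap.2 ⟨inferInstance, inferInstance⟩

theorem csm_rename {σ τ : Type} [Finite τ] (f : σ → τ) (hf : Function.Injective f) :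
    (MvPolynomial.rename f : MvPolynomial σ ℂ →ₐ[ℂ] MvPolynomial τ ℂ).toRingHom.Smooth := by
  classical
  obtain ⟨e, he⟩ : ∃ e : ((Set.range f)ᶜ : Set τ) ⊕ σ ≃ τ, ∀ j, e (Sum.inr j) = f j :=
    ⟨(Equiv.sumComm _ _).trans (((Equiv.ofInjective f hf).sumCongr (Equiv.refl _)).trans
      (Equiv.Set.sumCompl (Set.range f))), fun j => rfl⟩
  have h1 : (MvPolynomial.rename f : MvPolynomial σ ℂ →ₐ[ℂ] MvPolynomial τ ℂ).toRingHom =
      ((MvPolynomial.sumRingEquiv ℂ ((Set.range f)ᶜ : Set τ) σ).symm.trans
        (MvPolynomial.renameEquiv ℂ e).toRingEquiv).toRingHom.comp MvPolynomial.C := by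
    refine MvPolynomial.ringHom_ext (fun r => ?_) fun j => ?_
    · simp
    · simp [he]
  rw [h1]
  exact (csm_poly _ _).comp (RingHom.Smooth.of_bijective (RingEquiv.bijective _))

theorem csm_shift {σ : Type} (c : σ → ℂ) : Function.Bijective
    (MvPolynomial.aeval (R := ℂ) fun j => (MvPolynomial.X j + MvPolynomial.C (c j) :
      MvPolynomial σ ℂ)) := by
  have h : ∀ c c' : σ → ℂ, (∀ j, c j + c' j = 0) → ∀ p : MvPolynomial σ ℂ,
      (MvPolynomial.aeval (R := ℂ) fun j => (MvPolynomial.X j + MvPolynomial.C (c j) :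
        MvPolynomial σ ℂ)) ((MvPolynomial.aeval (R := ℂ) fun j =>
          (MvPolynomial.X j + MvPolynomial.C (c' j) : MvPolynomial σ ℂ)) p) = p := by
    intro c c' hc p
    induction p using MvPolynomial.induction_on with
    | C a => rw [MvPolynomial.aeval_C, AlgHom.commutes, MvPolynomial.algebraMap_eq]
    | add p q hp hq => rw [map_add, map_add, hp, hq]
    | mul_X p j hp =>
      rw [map_mul, map_mul, hp, MvPolynomial.aeval_X, map_add, MvPolynomial.aeval_X,
        MvPolynomial.aeval_C, MvPolynomial.algebraMap_eq, add_assoc, ← map_add, hc, map_zero,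
        add_zero]
  exact Function.bijective_iff_has_inverse.2
    ⟨_, h (fun j => -c j) c fun j => neg_add_cancel _, h c (fun j => -c j) fun j => add_neg_cancel _⟩

/-- the point derivations attached to an element -/
noncomputable def csmT (w : A →ₐ[ℂ] ℂ) (a : A) : Derivation ℂ A A →ₗ[ℂ] ℂ where
  toFun D := w (D a)
  map_add' D D' := by rw [Derivation.add_apply, map_add]
  map_smul' c D := by rw [Derivation.smul_apply, map_smul, RingHom.id_apply]

theorem csmT_apply (w : A →ₐ[ℂ] ℂ) (a : A) (D : Derivation ℂ A A) : csmT w a D = w (D a) := rfl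

theorem csm_ker [Module.Projective A (KaehlerDifferential ℂ A)] (w : A →ₐ[ℂ] ℂ) {a : A}
    (h : ∀ D : Derivation ℂ A A, w (D a) = 0) : KaehlerDifferential.D ℂ A a ∈
      RingHom.ker w • (⊤ : Submodule A (KaehlerDifferential ℂ A)) := by
  obtain ⟨s, hs⟩ := Module.projective_def.1
    (inferInstance : Module.Projective A (KaehlerDifferential ℂ A))
  rw [← hs (KaehlerDifferential.D ℂ A a), Finsupp.linearCombination_apply, Finsupp.sum]
  refine sum_mem fun x _ => Submodule.smul_mem_smul ?_ trivial
  exact h (((Finsupp.lapply x).comp s).compDer (KaehlerDifferential.D ℂ A))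

theorem csm_wedge {M : Type} [AddCommGroup M] [Module A M] {m n p : ℕ} (hm : m ≤ n)
    (hp : n < p + m) (u : Fin n → M) (hu : ∀ k : Fin n, (k : ℕ) < m → u k = 0) {h : A}
    (hs : ∀ x : M, h • x ∈ Submodule.span A (Set.range u)) {x : ExteriorAlgebra A M}
    (hx : x ∈ ExteriorAlgebra.exteriorPower A p M) : h ^ p • x = 0 := by
  classical
  rw [← ExteriorAlgebra.ιMulti_span_fixedDegree] at hx
  refine Submodule.span_induction (p := fun x _ => h ^ p • x = 0) ?_ (smul_zero _) ?_ ?_ hx
  · rintro _ ⟨v, rfl⟩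
    choose c hc using fun i => (Submodule.mem_span_range_iff_exists_fun A).1 (hs (v i))
    have h1 := (ExteriorAlgebra.ιMulti A p (M := M)).map_smul_univ (fun _ => h) v
    rw [Finset.prod_const, Finset.card_univ, Fintype.card_fin] at h1
    rw [← h1]
    simp only [← hc]
    refine ((ExteriorAlgebra.ιMulti A p (M := M)).toMultilinearMap.map_sum
      (fun i k => c i k • u k)).trans (Finset.sum_eq_zero fun r _ => ?_)
    refine ((ExteriorAlgebra.ιMulti A p (M := M)).map_smul_univ (fun i => c i (r i))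
      (fun i => u (r i))).trans ?_
    suffices h2 : ExteriorAlgebra.ιMulti A p (M := M) (fun i => u (r i)) = 0 by
      rw [h2, smul_zero]
    by_cases hr : ∃ i, (r i : ℕ) < m
    · obtain ⟨i, hi⟩ := hr
      exact AlternatingMap.map_coord_zero _ i (hu _ hi)
    · have hr' : ∀ i, m ≤ (r i : ℕ) := fun i => not_lt.1 fun hi => hr ⟨i, hi⟩
      obtain ⟨i, j, hij, e⟩ := Fintype.exists_ne_map_eq_of_card_lt
        (fun i : Fin p => (⟨r i - m, by have := (r i).2; have := hr' i; omega⟩ : Fin (n - m)))
        (by rw [Fintype.card_fin, Fintype.card_fin]; omega)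
      have e' : r i = r j := by
        have h3 : (r i : ℕ) - m = r j - m := congrArg Fin.val e
        have := hr' i
        have := hr' j
        exact Fin.ext (by omega)
      exact AlternatingMap.map_eq_zero_of_eq _ _ (congrArg u e') hij
  · intro x z _ _ hx hz
    rw [smul_add, hx, hz, add_zero]
  · intro c x _ hx
    rw [smul_comm, hx, smul_zero]

theorem Reg.smooth [Algebra.FiniteType ℂ A] (H : Reg A) : Algebra.Smooth ℂ A := by
  refine csm_local fun w => ?_
  obtain ⟨n, y, hy⟩ := H w
  obtain ⟨h, hw, hs⟩ := lc_smooth hy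
  refine ⟨h, hw, ?_⟩
  have h1 : (algebraMap A (Localization.Away h)).comp (algebraMap ℂ A) =
      (MvPolynomial.aeval (R := ℂ) fun i => toAway h (y i)).toRingHom.comp MvPolynomial.C := by
    refine RingHom.ext fun c => ?_
    rw [RingHom.comp_apply, RingHom.comp_apply, ← IsScalarTower.algebraMap_apply]
    exact (MvPolynomial.aeval_C _ c).symm
  rw [h1]
  exact (csm_poly _ _).comp hs

theorem reg_of_smooth [Algebra.Smooth ℂ A] : Reg A := by
  classical
  intro w
  obtain ⟨s, hs⟩ := (inferInstance : Algebra.FiniteType ℂ A).out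
  haveI : Module.Finite ℂ (Submodule.span ℂ (csmT w '' (s : Set A))) :=
    Module.Finite.span_of_finite ℂ (s.finite_toSet.image _)
  obtain ⟨f, hf, hsp, hli⟩ := Submodule.exists_fun_fin_finrank_span_eq ℂ (csmT w '' (s : Set A))
  choose z hz hzf using hf
  have hall : ∀ a, csmT w a ∈ Submodule.span ℂ (Set.range f) := by
    intro a
    rw [hsp]
    have ha : a ∈ Algebra.adjoin ℂ (s : Set A) := hs ▸ Algebra.mem_top
    induction ha using Algebra.adjoin_induction with
    | mem x hx => exact Submodule.subset_span ⟨x, hx, rfl⟩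
    | algebraMap c =>
      have h1 : csmT w (algebraMap ℂ A c) = 0 := LinearMap.ext fun D => by
        rw [csmT_apply, Derivation.map_algebraMap, map_zero, LinearMap.zero_apply]
      rw [h1]; exact zero_mem _
    | add x x' _ _ hx hx' =>
      have h1 : csmT w (x + x') = csmT w x + csmT w x' := LinearMap.ext fun D => by
        rw [LinearMap.add_apply, csmT_apply, csmT_apply, csmT_apply, map_add, map_add]
      rw [h1]; exact add_mem hx hx'
    | mul x x' _ _ hx hx' =>
      have h1 : csmT w (x * x') = w x • csmT w x' + w x' • csmT w x := LinearMap.ext fun D => by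
        rw [LinearMap.add_apply, LinearMap.smul_apply, LinearMap.smul_apply, csmT_apply,
          csmT_apply, csmT_apply, Derivation.leibniz, map_add, smul_eq_mul, smul_eq_mul, map_mul,
          map_mul, smul_eq_mul, smul_eq_mul]
      rw [h1]; exact add_mem (Submodule.smul_mem _ _ hx') (Submodule.smul_mem _ _ hx)
  have hle : (⊤ : Submodule A (KaehlerDifferential ℂ A)) ≤
      Submodule.span A (Set.range fun i => KaehlerDifferential.D ℂ A (z i)) ⊔
        RingHom.ker w • ⊤ := by
    rw [← KaehlerDifferential.span_range_derivation, Submodule.span_le]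
    rintro _ ⟨a, rfl⟩
    rw [KaehlerDifferential.span_range_derivation]
    obtain ⟨c, hc⟩ := (Submodule.mem_span_range_iff_exists_fun ℂ).1 (hall a)
    have h1 := csm_ker w (a := a - ∑ i, c i • z i) fun D => by
      have h2 := LinearMap.congr_fun hc D
      rw [LinearMap.sum_apply, csmT_apply] at h2
      rw [map_sub, map_sub, ← h2, map_sum, map_sum, sub_eq_zero]
      refine Finset.sum_congr rfl fun i _ => ?_
      rw [LinearMap.smul_apply, ← hzf, csmT_apply, Derivation.map_smul, map_smul]
    have h3 : KaehlerDifferential.D ℂ A a = ∑ i, algebraMap ℂ A (c i) •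
        KaehlerDifferential.D ℂ A (z i) + KaehlerDifferential.D ℂ A (a - ∑ i, c i • z i) := by
      rw [map_sub, map_sum]
      simp only [Derivation.map_smul, algebraMap_smul]
      rw [add_sub_cancel]
    rw [h3]
    exact Submodule.add_mem_sup
      (sum_mem fun i _ => Submodule.smul_mem _ _ (Submodule.subset_span ⟨i, rfl⟩)) h1
  obtain ⟨r, hr, hr'⟩ := Submodule.exists_sub_one_mem_and_smul_le_of_fg_of_le_sup
    Module.Finite.fg_top le_rfl hle
  have hw : w r ≠ 0 := by
    rw [RingHom.mem_ker, map_sub, map_one, sub_eq_zero] at hr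
    rw [hr]; exact one_ne_zero
  have hE : ∀ i, ∃ D : Derivation ℂ A A, f i D ≠ 0 ∧ ∀ j, i ≠ j → f j D = 0 := by
    intro i
    by_contra hcon
    refine hli.notMem_span_image (s := {j | i ≠ j}) (x := i) (fun h => h rfl) ?_
    rw [Set.image_eq_range]
    refine mem_span_of_iInf_ker_le_ker fun D hD => ?_
    by_contra h0
    exact hcon ⟨D, h0, fun j hj => (Submodule.mem_iInf _).1 hD ⟨j, hj⟩⟩
  choose E hE1 hE2 using hE
  have hD : ∀ (D : Derivation ℂ A A) j, w (D (z j - algebraMap ℂ A (w (z j)))) = f j D := by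
    intro D j
    rw [map_sub, Derivation.map_algebraMap, sub_zero, ← hzf, csmT_apply]
  refine ⟨_, fun i => z i - algebraMap ℂ A (w (z i)), LC.of_diag (fun i => ?_)
    (lc_of_span hw fun m => hr' (Submodule.smul_mem_pointwise_smul m r ⊤ trivial)) E
    (fun i => ?_) fun i j hij => ?_⟩
  · rw [map_sub, AlgHom.commutes]; exact sub_self _
  · rw [hD]; exact hE1 i
  · rw [hD]; exact hE2 i j hij

theorem smooth_base [Algebra.FiniteType ℂ A] {m n : ℕ} [Algebra (MvPolynomial (Fin m) ℂ) A]
    [IsScalarTower ℂ (MvPolynomial (Fin m) ℂ) A] (hm : m ≤ n)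
    (H : ∀ w : A →ₐ[ℂ] ℂ, ∃ y : Fin n → A, LC w y ∧ ∀ j : Fin m, y (Fin.castLE hm j) =
      algebraMap (MvPolynomial (Fin m) ℂ) A (MvPolynomial.X j) -
        algebraMap ℂ A (w (algebraMap (MvPolynomial (Fin m) ℂ) A (MvPolynomial.X j)))) :
    Algebra.Smooth (MvPolynomial (Fin m) ℂ) A := by
  refine csm_local fun w => ?_
  obtain ⟨y, hy, hj⟩ := H w
  obtain ⟨h, hw, hs⟩ := lc_smooth hy
  refine ⟨h, hw, ?_⟩
  have h1 : (toAway h).comp (IsScalarTower.toAlgHom ℂ (MvPolynomial (Fin m) ℂ) A) =
      (MvPolynomial.aeval (R := ℂ) fun i => toAway h (y i)).comp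
        ((MvPolynomial.rename (Fin.castLE hm)).comp (MvPolynomial.aeval fun j =>
          (MvPolynomial.X j + MvPolynomial.C (w (algebraMap (MvPolynomial (Fin m) ℂ) A
            (MvPolynomial.X j))) : MvPolynomial (Fin m) ℂ))) := by
    refine MvPolynomial.algHom_ext fun j => ?_
    rw [AlgHom.comp_apply, AlgHom.comp_apply, AlgHom.comp_apply, MvPolynomial.aeval_X, map_add,
      MvPolynomial.rename_X, MvPolynomial.rename_C, map_add, MvPolynomial.aeval_X,
      MvPolynomial.aeval_C, hj, map_sub, AlgHom.commutes, sub_add_cancel]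
    rfl
  have h2 := ((RingHom.Smooth.of_bijective (f := AlgHom.toRingHom _) (csm_shift fun j =>
    w (algebraMap (MvPolynomial (Fin m) ℂ) A (MvPolynomial.X j)))).comp
      (csm_rename _ (Fin.castLE_injective hm))).comp hs
  have h3 := congrArg AlgHom.toRingHom h1
  exact (h3 ▸ h2 : ((toAway h).comp
    (IsScalarTower.toAlgHom ℂ (MvPolynomial (Fin m) ℂ) A)).toRingHom.Smooth)

theorem forms_base [Algebra.FiniteType ℂ A] {m n : ℕ} [Algebra (MvPolynomial (Fin m) ℂ) A]
    [IsScalarTower ℂ (MvPolynomial (Fin m) ℂ) A] (hm : m ≤ n)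
    (H : ∀ w : A →ₐ[ℂ] ℂ, ∃ y : Fin n → A, LC w y ∧ ∀ j : Fin m, y (Fin.castLE hm j) =
      algebraMap (MvPolynomial (Fin m) ℂ) A (MvPolynomial.X j) -
        algebraMap ℂ A (w (algebraMap (MvPolynomial (Fin m) ℂ) A (MvPolynomial.X j))))
    {p : ℕ} (hp : n < p + m) : ∀ x ∈ V.Fk (MvPolynomial (Fin m) ℂ) A p, x = 0 := by
  intro x hx
  refine (Submodule.mem_bot A).1 (mem_of_loc fun w => ?_)
  obtain ⟨y, hy, hj⟩ := H w
  obtain ⟨h, hw, hs⟩ := lc_span hy
  refine ⟨h ^ p, by rw [map_pow]; exact pow_ne_zero _ hw, (Submodule.mem_bot A).2 ?_⟩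
  refine csm_wedge hm hp (fun k => KaehlerDifferential.D (MvPolynomial (Fin m) ℂ) A (y k))
    (fun k hk => ?_) (fun z => ?_) hx
  · have h1 : y k = _ := hj ⟨k, hk⟩
    rw [h1, IsScalarTower.algebraMap_apply ℂ (MvPolynomial (Fin m) ℂ) A, ← map_sub,
      Derivation.map_algebraMap]
  · obtain ⟨z, rfl⟩ := KaehlerDifferential.map_surjective ℂ (MvPolynomial (Fin m) ℂ) A z
    obtain ⟨c, hc⟩ := (Submodule.mem_span_range_iff_exists_fun A).1 (hs z)
    rw [← map_smul, ← hc, map_sum]
    refine sum_mem fun i _ => ?_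
    rw [map_smul, KaehlerDifferential.map_D]
    exact Submodule.smul_mem _ _ (Submodule.subset_span ⟨i, rfl⟩)

end Pool.Agent.P.MP_824f38_ag.N
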