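import Pool.Agent.P.MP_824f38_ag.N.SMain

/-! The results of block S: the Godement complex of the forms on a regular object is a
resolution of the forms, also relative to a divisor with normal crossings. -/

set_option linter.unusedVariables false
set_option linter.unusedSectionVars false

namespace Pool.Agent.P.MP_824f38_ag.N

variable {R : Type} [CommRing R] [Algebra ℂ R] [Algebra.FiniteType ℂ R]

theorem s_inj {A : Ob R} (hA : Reg A.A) : Function.Injective (etaD A) := etaD_inj hA

theorem s_main {A : Ob R} (hA : Reg A.A) : Acyc (δD A) (KT A ⊤) (etaN A ⊤) := main_acyc hA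

theorem s_snc {A : Ob R} {σ : ℕ → A.A} (hσ : FinDiv σ) (H : SReg σ) (J : Finset ℕ) :
    Acyc (δD A) (KT A (Ideal.span {∏ j ∈ J, σ j})) (etaN A (Ne σ J fun _ => 1)) :=
  snc_acyc J hσ H

end Pool.Agent.P.MP_824f38_ag.N
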