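import Pool.Agent.P.MP_824f38_ag.N.XProj
import Pool.Agent.P.MP_824f38_ag.N.SIn
import Pool.Agent.P.MP_824f38_ag.N.GHyp
import Pool.Agent.P.MP_824f38_ag.N.ADc
import Pool.Agent.P.MP_824f38_ag.N.ALes
import Pool.Agent.P.MP_824f38_ag.N.CSm

/-! Row NEC-XH1: the hypercovering computes the Godement cohomology

Double complex W i j = CD (hOb X i) j, h i j = hAlt ((DRP R).tw j) X i, v i j = δD (hOb X i) j, M i j = KF p (hOb X i) ⊤ j. Rows: hyp_succ with T = ((FmS R p).tw j).st; columns: s_main, Proj.acyc proj_top (hOb X i is regular by reg_of_smooth). EdgeH i = etaN (Forms p), hAlt (etaD ω) = etaD (X.delta i ω) (res_etaD), etaD injective (s_inj).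
EdgeV is the image of KF p (Ob.self R) ⊤ under res (hAug X): hyp_inj, hyp_zero, hAlt_aug, van_iff_of_iso. dc_van. -/

set_option linter.unusedVariables false
set_option linter.unusedSectionVars false
set_option linter.style.haveILetI false
set_option linter.dupNamespace false

namespace Pool.Agent.P.MP_824f38_ag.N

variable {R : Type} [CommRing R] [Algebra ℂ R] [Algebra.FiniteType ℂ R]

theorem hAlt_etaD (X : Hyper R) (i : ℕ) (ω : DR (X.B i)) :
    hAlt (DRP R) X i (etaD (hOb X i) ω) = etaD (hOb X (i + 1)) (X.delta i ω) := by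
  rw [hAlt, LinearMap.sum_apply, Hyper.delta, altSum, map_sum]
  refine Finset.sum_congr rfl fun k _ => ?_
  have e : (DRP R).G.map (hFace X i k) (etaD (hOb X i) ω) =
      etaD (hOb X (i + 1)) (pull (X.d i k) ω) := res_etaD (hFace X i k) ω
  have e2 : ((-1 : ℤ) ^ (k : ℕ)) • pull (X.d i k) ω = (-1) ^ (k : ℕ) * pull (X.d i k) ω := by
    rw [zsmul_eq_mul, Int.cast_pow, Int.cast_neg, Int.cast_one]
  rw [LinearMap.smul_apply, e, ← e2]
  exact (map_zsmul (etaD (hOb X (i + 1))) _ _).symm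

private theorem xh_res (X : Hyper R) (i j : ℕ) (c : CD (hOb X i) j) :
    hAlt ((DRP R).tw j) X i c =
      ∑ k : Fin (i + 2), (-1 : ℤ) ^ (k : ℕ) • (DRP R).res (hFace X i k) j c := by
  rw [hAlt, LinearMap.sum_apply]
  rfl

private theorem xh_mem {p j : ℕ} {A B : Ob R} (φ : Hom A B) {c : CD A j}
    (hc : c ∈ KF p A ⊤ j) : (DRP R).res φ j c ∈ KF p B ⊤ j :=
  fun x y => ⟨(hc x (y.pre φ)).1, fun h => absurd h y.not_kills_top⟩

private theorem xh_acyc (X : Hyper R) (p i : ℕ) :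
    Acyc (δD (hOb X i)) (KF p (hOb X i) ⊤) (etaN (hOb X i) (⊤ ⊓ Forms (X.B i) p)) :=
  haveI := X.smooth i
  (proj_top p).acyc (fun _ _ => trivial) (s_main (A := hOb X i) reg_of_smooth)

private theorem xh_dc (X : Hyper R) (hX : X.DescentR) (p : ℕ) :
    DC (W := fun i j => CD (hOb X i) j) (fun i j => hAlt ((DRP R).tw j) X i)
      (fun i j => δD (hOb X i) j) (fun i j => KF p (hOb X i) ⊤ j) where
  comm i j x := by
    rw [xh_res, xh_res, map_sum]
    refine Finset.sum_congr rfl fun k _ => ?_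
    rw [map_zsmul, PSh.res_δ]
  hh i j x := hAlt_sq _ X i x
  vv i j x := (DRP R).sq_δ _ j x
  hmem i j x hx := by
    rw [xh_res]
    exact Submodule.sum_mem _ fun k _ => zsmul_mem (xh_mem _ hx) _
  vmem i j x hx := K_sc (FmS R p) _ ⊤ j x hx
  hex i j x hx h := hyp_succR _ X hX _ i hx h
  vex i j x hx h := (xh_acyc X p i).ex (j + 1) ⟨hx, h⟩

private theorem xh_edge (X : Hyper R) (p i : ℕ) (c : CD (hOb X i) 0) :
    c ∈ EdgeH (W := fun i j => CD (hOb X i) j) (fun i j => δD (hOb X i) j)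
      (fun i j => KF p (hOb X i) ⊤ j) i ↔ ∃ ω ∈ Forms (X.B i) p, etaD (hOb X i) ω = c := by
  constructor
  · intro hc
    obtain ⟨ω, hω, e⟩ := mem_etaN.1 ((xh_acyc X p i).ex 0 hc)
    exact ⟨ω, hω.2, e⟩
  · rintro ⟨ω, hω, e⟩
    exact (xh_acyc X p i).le (mem_etaN.2 ⟨ω, ⟨trivial, hω⟩, e⟩)

private theorem xh_inj (X : Hyper R) (i : ℕ) : Function.Injective (etaD (hOb X i)) :=
  haveI := X.smooth i
  s_inj (A := hOb X i) reg_of_smooth

theorem h_succR (X : Hyper R) (hX : X.DescentR) (p q : ℕ) :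
    ¬ X.HNonzero p (q + 1) ↔ Van (δD (Ob.self R)) (KF p (Ob.self R) ⊤) (q + 1) := by
  have H2 : Van (δD (Ob.self R)) (KF p (Ob.self R) ⊤) (q + 1) ↔
      Van (W := fun j => CD (hOb X 0) j) (fun j => δD (hOb X 0) j)
        (EdgeV (W := fun i j => CD (hOb X i) j) (fun i j => hAlt ((DRP R).tw j) X i)
          (fun i j => KF p (hOb X i) ⊤ j)) (q + 1) := by
    refine van_iff_of_iso (f := fun j => (DRP R).res (hAug X) j)
      (fun j c _ => (DRP R).res_δ (hAug X) j c) (K_sc (FmS R p) _ ⊤)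
      (fun j c _ h => hyp_injR _ X hX h) (fun j c => ⟨fun hc => ?_, ?_⟩) (q + 1)
    · exact hyp_zeroR _ X hX _ hc.1 hc.2
    · rintro ⟨b, hb, rfl⟩
      exact ⟨xh_mem _ hb, hAlt_aug _ X b⟩
  rw [H2, ← dc_van (xh_dc X hX p) (q + 1)]
  constructor
  · intro h c hc
    obtain ⟨ω, hω, rfl⟩ := (xh_edge X p (q + 1) c).1 hc.1
    have h0 : X.delta (q + 1) ω = 0 := by
      refine xh_inj X (q + 2) ?_
      rw [← hAlt_etaD, map_zero]
      exact hc.2
    by_contra hn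
    refine h ⟨ω, hω, h0, fun η hη e => hn ?_⟩
    refine mem_Bd_succ.2 ⟨etaD (hOb X q) η, (xh_edge X p q _).2 ⟨η, hη, rfl⟩, ?_⟩
    exact (hAlt_etaD X q η).trans (congrArg _ e)
  · rintro h ⟨ω, hω, h0, hn⟩
    have hz : hAlt (DRP R) X (q + 1) (etaD (hOb X (q + 1)) ω) = 0 := by
      rw [hAlt_etaD, h0]
      exact map_zero (etaD (hOb X (q + 2)))
    obtain ⟨b, hb, e⟩ := mem_Bd_succ.1
      (h (show etaD (hOb X (q + 1)) ω ∈ _ from ⟨(xh_edge X p (q + 1) _).2 ⟨ω, hω, rfl⟩, hz⟩))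
    obtain ⟨η, hη, rfl⟩ := (xh_edge X p q b).1 hb
    exact hn η hη (xh_inj X (q + 1) ((hAlt_etaD X q η).symm.trans e))

theorem h_succ (X : Hyper R) (hX : X.Descent) (p q : ℕ) :
    ¬ X.HNonzero p (q + 1) ↔ Van (δD (Ob.self R)) (KF p (Ob.self R) ⊤) (q + 1) :=
  h_succR X hX.toR p q

end Pool.Agent.P.MP_824f38_ag.N
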