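import Pool.Agent.P.MP_824f38_ag.N.ALes

/-! Row NEC-ACech: linear Cech complexes and their transport

cechL_sq as V.cech_cech. cech_van / cech_fg: van_iff_of_iso and fg_iff_of_iso for the map
c ↦ fun I => ev I (c I); cochains of degree q live on nonempty sets only. -/

set_option linter.unusedVariables false
set_option linter.unusedSectionVars false
set_option linter.style.haveILetI false
set_option linter.dupNamespace false

namespace Pool.Agent.P.MP_824f38_ag.N

universe u v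

variable {R : Type} [CommRing R] {ι : Type} [LinearOrder ι] {F : Finset ι → Type u}
  [∀ I, AddCommGroup (F I)] [∀ I, Module R (F I)] {W : Type v} [AddCommGroup W] [Module R W]
  {r : ∀ I J : Finset ι, I ⊆ J → F I →ₗ[R] F J}

theorem cechL_sq (hr : ∀ I J K h h' x, r J K h' (r I J h x) = r I K (h.trans h') x)
    (c : ∀ I, F I) : cechL r (cechL r c) = 0 := by
  have rc : ∀ {I I' J : Finset ι} (e : I = I') (h : I ⊆ J) (h' : I' ⊆ J),
      r I J h (c I) = r I' J h' (c I') := by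
    intro I I' J e h h'
    subst e
    rfl
  funext J
  simp only [cechL_apply, map_sum, map_zsmul, hr, Finset.smul_sum, smul_smul, Pi.zero_apply]
  rw [Finset.sum_sigma']
  refine Finset.sum_involution (fun x _ => ⟨x.2, x.1⟩) ?_ ?_ ?_ ?_
  · rintro ⟨a, b⟩ h
    simp only [Finset.mem_sigma, Finset.mem_erase] at h
    rw [V.sgn_swap h.1 h.2.2 h.2.1.symm, neg_smul,
      rc (Finset.erase_right_comm (a := a) (b := b)) _
        ((Finset.erase_subset _ _).trans (Finset.erase_subset _ _)), neg_add_cancel]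
  · rintro ⟨a, b⟩ h _ e
    simp only [Finset.mem_sigma, Finset.mem_erase] at h
    exact h.2.1 (congrArg Sigma.fst e)
  · rintro ⟨a, b⟩ h
    simp only [Finset.mem_sigma, Finset.mem_erase] at h ⊢
    exact ⟨h.2.2, h.2.1.symm, h.1⟩
  · rintro ⟨a, b⟩ h
    rfl

theorem cechL_mem {G : ∀ I, Submodule R (F I)} (hG : ∀ I J h, ∀ x ∈ G I, r I J h x ∈ G J) {q : ℕ}
    {c : ∀ I, F I} (hc : c ∈ CochL G q) : cechL r c ∈ CochL G (q + 1) := by
  intro J
  rw [cechL_apply]
  refine ⟨sum_mem fun a _ => zsmul_mem (hG _ _ _ _ (hc _).1) _, fun h => ?_⟩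
  refine Finset.sum_eq_zero fun a ha => ?_
  rw [(hc _).2 (fun e => h (by rw [← Finset.card_erase_add_one ha, e])), map_zero, smul_zero]

/-- evaluation of cochains -/
private def evC (ev : ∀ I, F I →ₗ[R] W) : (∀ I, F I) →ₗ[R] (Finset ι → W) :=
  LinearMap.pi fun I => ev I ∘ₗ LinearMap.proj I

private theorem evC_apply (ev : ∀ I, F I →ₗ[R] W) (c : ∀ I, F I) (I : Finset ι) :
    evC ev c I = ev I (c I) := rfl

private theorem evC_comm (ev : ∀ I, F I →ₗ[R] W) (hev : ∀ I J h x, ev J (r I J h x) = ev I x)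
    (c : ∀ I, F I) :
    evC ev (cechL r c) =
      cechL (R := R) (F := fun _ => W) (fun _ _ _ => LinearMap.id) (evC ev c) := by
  funext J
  simp only [evC_apply, cechL_apply, map_sum, map_zsmul, hev, LinearMap.id_apply]

private theorem evC_inj {G : ∀ I, Submodule R (F I)} (ev : ∀ I, F I →ₗ[R] W)
    (inj : ∀ I, I.Nonempty → ∀ x ∈ G I, ev I x = 0 → x = 0) (q : ℕ) (c : ∀ I, F I)
    (hc : c ∈ CochK G q) (h : evC ev c = 0) : c = 0 := by
  funext I
  by_cases hI : I.card = q + 1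
  · exact inj I (Finset.card_pos.1 (by omega)) _ (hc I).1 (congrFun h I)
  · exact (hc I).2 hI

private theorem evC_im {G : ∀ I, Submodule R (F I)} (ev : ∀ I, F I →ₗ[R] W)
    {Λ : Finset ι → Submodule R W}
    (im : ∀ I, I.Nonempty → ∀ w, w ∈ Λ I ↔ ∃ x ∈ G I, ev I x = w) (q : ℕ) (c : Finset ι → W) :
    c ∈ CochK (F := fun _ => W) Λ q ↔ ∃ b ∈ CochK G q, evC ev b = c := by
  constructor
  · intro hc
    have key : ∀ I, ∃ x ∈ G I, (I.card ≠ q + 1 → x = 0) ∧ ev I x = c I := by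
      intro I
      by_cases hI : I.card = q + 1
      · obtain ⟨x, hx, e⟩ := (im I (Finset.card_pos.1 (by omega)) _).1 (hc I).1
        exact ⟨x, hx, fun h => absurd hI h, e⟩
      · exact ⟨0, zero_mem _, fun _ => rfl, by rw [map_zero, (hc I).2 hI]⟩
    choose b hb hb0 hbe using key
    exact ⟨b, fun I => ⟨hb I, hb0 I⟩, funext hbe⟩
  · rintro ⟨b, hb, rfl⟩ I
    rw [evC_apply]
    by_cases hI : I.card = q + 1
    · exact ⟨(im I (Finset.card_pos.1 (by omega)) _).2 ⟨_, (hb I).1, rfl⟩, fun h => absurd hI h⟩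
    · rw [(hb I).2 hI, map_zero]
      exact ⟨zero_mem _, fun _ => rfl⟩

theorem cech_van (hr : ∀ I J K h h' x, r J K h' (r I J h x) = r I K (h.trans h') x)
    {G : ∀ I, Submodule R (F I)} (hG : ∀ I J h, ∀ x ∈ G I, r I J h x ∈ G J)
    (ev : ∀ I, F I →ₗ[R] W) (hev : ∀ I J h x, ev J (r I J h x) = ev I x)
    {Λ : Finset ι → Submodule R W} (inj : ∀ I, I.Nonempty → ∀ x ∈ G I, ev I x = 0 → x = 0)
    (im : ∀ I, I.Nonempty → ∀ w, w ∈ Λ I ↔ ∃ x ∈ G I, ev I x = w) (q : ℕ)
    (h : Van (cechD (F := fun _ => W) fun _ _ _ => LinearMap.id) (CochK Λ) q) :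
    Van (cechD r) (CochK G) q := by
  exact (van_iff_of_iso (W := fun _ => ∀ I, F I) (W' := fun _ => Finset ι → W)
    (f := fun _ => evC ev) (K := CochK G) (K' := CochK Λ)
    (fun j c _ => evC_comm ev hev c) (fun j c hc => cechL_mem hG hc)
    (evC_inj ev inj) (evC_im ev im) q).2 h

theorem cech_fg [IsNoetherianRing R]
    (hr : ∀ I J K h h' x, r J K h' (r I J h x) = r I K (h.trans h') x) {m : Ideal R}
    {G : ℕ → ∀ I, Submodule R (F I)} (hG : ∀ a I J h, ∀ x ∈ G a I, r I J h x ∈ G a J)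
    (hU : ∀ I, Up m fun a => G a I) (ev : ∀ I, F I →ₗ[R] W)
    (hev : ∀ I J h x, ev J (r I J h x) = ev I x) {Λ : ℕ → Finset ι → Submodule R W}
    (inj : ∀ a I, I.Nonempty → ∀ x ∈ G a I, ev I x = 0 → x = 0)
    (im : ∀ a I, I.Nonempty → ∀ w, w ∈ Λ a I ↔ ∃ x ∈ G a I, ev I x = w) (q : ℕ)
    (h : FGP m (fun a => Zy (cechD (F := fun _ => W) fun _ _ _ => LinearMap.id) (CochK (Λ a)) q)
      (fun a => Bd (cechD (F := fun _ => W) fun _ _ _ => LinearMap.id) (CochK (Λ a)) ⊥ q)) :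
    FGP m (fun a => Zy (cechD r) (CochK (G a)) q) (fun a => Bd (cechD r) (CochK (G a)) ⊥ q) := by
  exact (fg_iff_of_iso (W := fun _ => ∀ I, F I) (W' := fun _ => Finset ι → W)
    (f := fun _ => evC ev) (K := fun a => CochK (G a)) (K' := fun a => CochK (Λ a))
    (fun a j c _ => evC_comm ev hev c) (fun a j c hc => cechL_mem (hG a) hc)
    (fun j c => cechL_sq hr c)
    (fun j c => cechL_sq (F := fun _ => W) (fun _ _ _ _ _ _ => rfl) c)
    (fun j a s hs x hx I => ⟨hU I a s hs _ (hx I).1, fun h => by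
      rw [Pi.smul_apply, (hx I).2 h, smul_zero]⟩)
    (fun a => evC_inj ev (inj a)) (fun a => evC_im ev (im a)) q).2 h

end Pool.Agent.P.MP_824f38_ag.N
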