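import Pool.Agent.P.MP_824f38_ag.N.Alg

/-! Row NEC-ADcPair: a double complex of quotients with exact rows

Induct on j, for all levels i at once (replace 0 by i in the statement). Take y from hex; v y lies in
M j (i+1), v v y = 0, h v y in N. For j = 0 it is 0. Otherwise the induction hypothesis at level i+1 gives
y' with v y - h y' in N and v y' in N; vex writes y' = v y'' modulo N; take y - h y''. -/

set_option linter.unusedVariables false
set_option linter.unusedSectionVars false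
set_option linter.style.haveILetI false
set_option linter.dupNamespace false

namespace Pool.Agent.P.MP_824f38_ag.N

universe u v

variable {R : Type} [CommRing R] {W : ℕ → Type u} [∀ j, AddCommGroup (W j)]
  [∀ j, Module R (W j)] {W' : ℕ → Type v} [∀ j, AddCommGroup (W' j)] [∀ j, Module R (W' j)]

theorem dc_pair (v : Df R W) (h : ∀ i, W i →+ W i) (M N : ℕ → Fm R W)
    (comm : ∀ i x, h (i + 1) (v i x) = v i (h i x)) (hh : ∀ i x, h i (h i x) = 0) (vv : Sq v)
    (hNM : ∀ j i, N j i ≤ M j i) (M0 : ∀ i, M 0 i = ⊥)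
    (hM : ∀ j i, ∀ x ∈ M j i, h i x ∈ M (j + 1) i) (hN : ∀ j i, ∀ x ∈ N j i, h i x ∈ N (j + 1) i)
    (vM : ∀ j, Sc v (M j)) (vN : ∀ j, Sc v (N j))
    (hex : ∀ j i, ∀ x ∈ M (j + 1) i, h i x ∈ N (j + 2) i → ∃ y ∈ M j i, x - h i y ∈ N (j + 1) i)
    (vex : ∀ j i, ∀ x ∈ M j (i + 1), v (i + 1) x ∈ N j (i + 2) →
      ∃ y ∈ M j i, x - v i y ∈ N j (i + 1))
    (j : ℕ) (x : W 0) (hx : x ∈ M (j + 1) 0) (h1 : v 0 x ∈ N (j + 1) 1) (h2 : h 0 x ∈ N (j + 2) 0) :
    ∃ y ∈ M j 0, v 0 y ∈ N j 1 ∧ x - h 0 y ∈ N (j + 1) 0 := by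
  have key : ∀ (j i : ℕ) (x : W i), x ∈ M (j + 1) i → v i x ∈ N (j + 1) (i + 1) →
      h i x ∈ N (j + 2) i → ∃ y ∈ M j i, v i y ∈ N j (i + 1) ∧ x - h i y ∈ N (j + 1) i := by
    intro j
    induction j with
    | zero =>
      intro i x hx h1 h2
      obtain ⟨y, hy, e⟩ := hex 0 i x hx h2
      refine ⟨y, hy, ?_, e⟩
      rw [M0 i, Submodule.mem_bot] at hy
      rw [hy, map_zero]
      exact zero_mem _
    | succ j ih =>
      intro i x hx h1 h2
      obtain ⟨y, hy, e⟩ := hex (j + 1) i x hx h2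
      have e1 : h (i + 1) (v i y) ∈ N (j + 2) (i + 1) := by
        have e2 : h (i + 1) (v i y) = v i x - v i (x - h i y) := by
          rw [comm, map_sub, sub_sub_cancel]
        rw [e2]
        exact sub_mem h1 (vN (j + 2) i _ e)
      obtain ⟨y', hy', a1, a2⟩ := ih (i + 1) (v i y) (vM (j + 1) i y hy)
        (by rw [vv]; exact zero_mem _) e1
      obtain ⟨z, hz, b1⟩ := vex j i y' hy' a1
      refine ⟨y - h i z, sub_mem hy (hM j i z hz), ?_, ?_⟩
      · have e2 : v i (y - h i z) = (v i y - h (i + 1) y') + h (i + 1) (y' - v i z) := by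
          rw [map_sub, map_sub, comm]
          abel
        rw [e2]
        exact add_mem a2 (hN j (i + 1) _ b1)
      · rw [map_sub, hh, sub_zero]
        exact e
  exact key j 0 x hx h1 h2

end Pool.Agent.P.MP_824f38_ag.N
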