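import Pool.Agent.P.MP_824f38_ag.N.AFgSub

/-! Row NEC-AFgMisc: correspondences, extensions, quotients, pro-vanishing, Krull

fg_corr: apply fg_sub to Z' a = {x in Z1 a | exists y in Z2 a, (x,y) in Rel a} ⊔ B1 a and transport
generators along Rel. fg_pz: N a = Z a ⊓ B 0 is a subtower (fg_sub), N (a1+k) <= m^k N a1 ⊔ B (a1+k) and
m^k B 0 <= B k; take a = a1 + a'. fg_krull: Z (a0+k) <= m^k Z 0 ⊔ B 0; apply
Ideal.mem_iInf_smul_pow_eq_bot_iff in the finitely generated module (Z 0).map (B 0).mkQ. -/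

set_option linter.unusedVariables false
set_option linter.unusedSectionVars false
set_option linter.style.haveILetI false
set_option linter.dupNamespace false

namespace Pool.Agent.P.MP_824f38_ag.N

universe u v

variable {R : Type} [CommRing R] {W : Type u} [AddCommGroup W] [Module R W]
  {W' : Type v} [AddCommGroup W'] [Module R W']

theorem fg_corr [IsNoetherianRing R] {m : Ideal R} {Z1 B1 : ℕ → Submodule R W}
    {Z2 B2 : ℕ → Submodule R W'} (Rel : ℕ → Submodule R (W × W')) (hZ1 : Up m Z1) (hB1 : Up m B1)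
    (hBZ : ∀ a, B1 a ≤ Z1 a) (hZ2 : Up m Z2) (hR : Up m Rel)
    (E : ∀ a, ∀ y ∈ Z2 a, ∃ x ∈ Z1 a, (x, y) ∈ Rel a)
    (T : ∀ a x y, (x, y) ∈ Rel a → y ∈ Z2 a → x ∈ B1 a → y ∈ B2 a) (H : FGP m Z1 B1) :
    FGP m Z2 B2 := by
  classical
  let Q : ℕ → Submodule R W' → Submodule R W := fun a K =>
    (Rel a ⊓ K.comap (LinearMap.snd R W W')).map (LinearMap.fst R W W')
  have memQ : ∀ a K x, x ∈ Q a K ↔ ∃ y ∈ K, (x, y) ∈ Rel a := by
    intro a K x
    constructor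
    · rintro ⟨⟨p, y⟩, ⟨h1, h2⟩, rfl⟩
      exact ⟨y, h2, h1⟩
    · rintro ⟨y, h1, h2⟩
      exact ⟨(x, y), ⟨h2, h1⟩, rfl⟩
  have key : ∀ a (K : Submodule R W'), K ≤ Z2 a → Z1 a ⊓ Q a (Z2 a) ≤ Q a K ⊔ B1 a →
      Z2 a ≤ K ⊔ B2 a := by
    intro a K hK h y hy
    obtain ⟨x, hx, hxy⟩ := E a y hy
    obtain ⟨p, hp, b, hb, rfl⟩ := Submodule.mem_sup.1 (h ⟨hx, (memQ _ _ _).2 ⟨y, hy, hxy⟩⟩)
    obtain ⟨y', hy', hpy⟩ := (memQ _ _ _).1 hp
    have h1 : (b, y - y') ∈ Rel a := by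
      have := sub_mem hxy hpy
      rwa [Prod.mk_sub_mk, add_sub_cancel_left] at this
    have h2 := T a b (y - y') h1 (sub_mem hy (hK hy')) hb
    rw [← add_sub_cancel y' y]
    exact Submodule.add_mem_sup hy' h2
  have hU : Up m fun a => (Z1 a ⊓ Q a (Z2 a)) ⊔ B1 a := by
    intro a r hr x hx
    obtain ⟨p, ⟨hp1, hp2⟩, b, hb, rfl⟩ := Submodule.mem_sup.1 hx
    obtain ⟨y, hy, hpy⟩ := (memQ _ _ _).1 hp2
    rw [smul_add]
    exact Submodule.add_mem_sup ⟨hZ1 a r hr p hp1,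
      (memQ _ _ _).2 ⟨r • y, hZ2 a r hr y hy, hR a r hr _ hpy⟩⟩ (hB1 a r hr b hb)
  have H' := fg_sub hZ1 hU hB1 (fun a => le_sup_right) (fun a => sup_le inf_le_left (hBZ a)) H
  refine ⟨fun a => ?_, ?_⟩
  · obtain ⟨s, hs1, hs2⟩ := H'.fin a
    have hy : ∀ x : s, ∃ y ∈ Z2 a, ∃ p, (p, y) ∈ Rel a ∧ ∃ b ∈ B1 a, p + b = x := by
      intro x
      obtain ⟨p, ⟨hp1, hp2⟩, b, hb, e⟩ := Submodule.mem_sup.1 (hs1 x.2)
      obtain ⟨y, hy, hpy⟩ := (memQ _ _ _).1 hp2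
      exact ⟨y, hy, p, hpy, b, hb, e⟩
    choose y hy p hp b hb e using hy
    have ht : ((Finset.univ.image y : Finset W') : Set W') ⊆ Z2 a := by
      intro z hz
      obtain ⟨x, -, rfl⟩ := Finset.mem_image.1 (Finset.mem_coe.1 hz)
      exact hy x
    refine ⟨Finset.univ.image y, ht, key a _ (Submodule.span_le.2 ht) ?_⟩
    refine le_sup_left.trans (hs2.trans (sup_le (Submodule.span_le.2 fun x hx => ?_) le_sup_right))
    have := e ⟨x, hx⟩
    change _ = x at this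
    rw [← this]
    exact Submodule.add_mem_sup ((memQ _ _ _).2 ⟨y ⟨x, hx⟩, Submodule.subset_span
      (Finset.mem_coe.2 (Finset.mem_image_of_mem y (Finset.mem_univ _))), hp _⟩) (hb _)
  · obtain ⟨a0, h0⟩ := H'.gen
    refine ⟨a0, fun a ha => key (a + 1) _
      (Submodule.smul_le.2 fun r hr x hx => hZ2 a r hr x hx) ?_⟩
    refine le_sup_left.trans ((h0 a ha).trans
      (sup_le (Submodule.smul_le.2 fun r hr x hx => ?_) le_sup_right))
    obtain ⟨p, ⟨hp1, hp2⟩, b, hb, rfl⟩ := Submodule.mem_sup.1 hx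
    obtain ⟨y, hy, hpy⟩ := (memQ _ _ _).1 hp2
    rw [smul_add]
    exact Submodule.add_mem_sup
      ((memQ _ _ _).2 ⟨r • y, Submodule.smul_mem_smul hr hy, hR a r hr _ hpy⟩) (hB1 a r hr b hb)

theorem fg_ext {m : Ideal R} {Z Z' B : ℕ → Submodule R W} (h : ∀ a, Z' a ≤ Z a)
    (H1 : FGP m Z' B) (H2 : FGP m Z Z') : FGP m Z B := by
  classical
  refine ⟨fun a => ?_, ?_⟩
  · obtain ⟨s, hs1, hs2⟩ := H1.fin a
    obtain ⟨t, ht1, ht2⟩ := H2.fin a
    refine ⟨t ∪ s, ?_, ?_⟩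
    · rw [Finset.coe_union]
      exact Set.union_subset ht1 (hs1.trans (h a))
    · rw [Finset.coe_union, Submodule.span_union, sup_assoc]
      exact ht2.trans (sup_le_sup_left hs2 _)
  · obtain ⟨a1, h1⟩ := H1.gen
    obtain ⟨a2, h2⟩ := H2.gen
    refine ⟨max a1 a2, fun a ha => (h2 a (le_of_max_le_right ha)).trans (sup_le le_sup_left ?_)⟩
    exact (h1 a (le_of_max_le_left ha)).trans (sup_le_sup_right (smul_mono_right _ (h a)) _)

theorem fg_quot {m : Ideal R} {Z B B' : ℕ → Submodule R W} (h : ∀ a, B a ≤ B' a)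
    (H : FGP m Z B) : FGP m (fun a => Z a ⊔ B' a) B' := by
  refine ⟨fun a => ?_, ?_⟩
  · obtain ⟨s, hs1, hs2⟩ := H.fin a
    exact ⟨s, fun x hx => Submodule.mem_sup_left (hs1 hx),
      sup_le (hs2.trans (sup_le_sup_left (h a) _)) le_sup_right⟩
  · obtain ⟨a1, h1⟩ := H.gen
    exact ⟨a1, fun a ha => sup_le
      ((h1 a ha).trans (sup_le_sup (smul_mono_right _ le_sup_left) (h _))) le_sup_right⟩

theorem fg_of_le {m : Ideal R} {Z B : ℕ → Submodule R W} (h : ∀ a, Z a ≤ B a) : FGP m Z B := by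
  refine ⟨fun a => ⟨∅, ?_, (h a).trans le_sup_right⟩, 0, fun a _ => (h _).trans le_sup_right⟩
  rw [Finset.coe_empty]
  exact Set.empty_subset _

theorem fg_pz [IsNoetherianRing R] {m : Ideal R} {Z B : ℕ → Submodule R W} (hZ : Tw m Z)
    (hB : Tw m B) (hBZ : ∀ a, B a ≤ Z a) (H : FGP m Z B) (a' : ℕ) : ∃ a, Z a ⊓ B 0 ≤ B a' := by
  have hanti : Antitone B := antitone_nat_of_succ_le hB.anti
  have hU : Up m fun a => Z a ⊓ B 0 := fun a r hr x hx =>
    ⟨hZ.smul a r hr x hx.1, (B 0).smul_mem r hx.2⟩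
  have H' := fg_sub hZ.smul hU hB.smul (fun a => le_inf (hBZ a) (hanti (Nat.zero_le a)))
    (fun a => inf_le_left) H
  obtain ⟨a1, h1⟩ := H'.gen
  refine ⟨a1 + a', ?_⟩
  induction a' with
  | zero => exact inf_le_right
  | succ k ih =>
    refine (h1 (a1 + k) (Nat.le_add_right _ _)).trans (sup_le ?_ (hanti (by omega)))
    exact Submodule.smul_le.2 fun r hr x hx => hB.smul k r hr x (ih hx)

theorem fg_krull [IsNoetherianRing R] {m : Ideal R} {Z B : ℕ → Submodule R W} (hZ : Tw m Z)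
    (hB : Tw m B) (H : FGP m Z B) {x : W} (hx : x ∈ Z 0) (h : ∀ a, x ∈ Z a ⊔ B 0) :
    ∃ r : R, r - 1 ∈ m ∧ r • x ∈ B 0 := by
  have hZa : Antitone Z := antitone_nat_of_succ_le hZ.anti
  have hBa : Antitone B := antitone_nat_of_succ_le hB.anti
  obtain ⟨a0, h0⟩ := H.gen
  obtain ⟨s, hs1, hs2⟩ := H.fin 0
  have h1 : ∀ k : ℕ, Z (a0 + k) ≤ m ^ k • Z 0 ⊔ B 0 := by
    intro k
    induction k with
    | zero =>
      rw [pow_zero, one_smul]
      exact (hZa (Nat.zero_le _)).trans le_sup_left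
    | succ k ih =>
      refine (h0 (a0 + k) (Nat.le_add_right _ _)).trans
        (sup_le ?_ ((hBa (Nat.zero_le _)).trans le_sup_right))
      refine (smul_mono_right _ ih).trans ?_
      rw [Submodule.smul_sup, pow_succ', mul_smul]
      exact sup_le_sup_left Submodule.smul_le_right _
  have hfg : ((Z 0).map (B 0).mkQ).FG := by
    have e : (Z 0).map (B 0).mkQ = (Submodule.span R (s : Set W)).map (B 0).mkQ := by
      refine le_antisymm ?_ (Submodule.map_mono (Submodule.span_le.2 hs1))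
      refine (Submodule.map_mono hs2).trans ?_
      rw [Submodule.map_sup, Submodule.mkQ_map_self, sup_bot_eq]
    rw [e]
    exact (Submodule.fg_span s.finite_toSet).map _
  haveI : Module.Finite R ((Z 0).map (B 0).mkQ) := Module.Finite.iff_fg.2 hfg
  have h2 : (⟨(B 0).mkQ x, Submodule.mem_map_of_mem hx⟩ : (Z 0).map (B 0).mkQ) ∈
      (⨅ i : ℕ, m ^ i • ⊤ : Submodule R ((Z 0).map (B 0).mkQ)) := by
    refine (Submodule.mem_iInf _).2 fun k => (Submodule.mem_smul_top_iff _ _ _).2 ?_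
    have h3 : x ∈ m ^ k • Z 0 ⊔ B 0 := sup_le (h1 k) le_sup_right (h (a0 + k))
    have h4 := Submodule.mem_map_of_mem (f := (B 0).mkQ) h3
    rwa [Submodule.map_sup, Submodule.mkQ_map_self, sup_bot_eq, Submodule.map_smul''] at h4
  obtain ⟨r, hr⟩ := (Ideal.mem_iInf_smul_pow_eq_bot_iff m _).1 h2
  have h5 : (r : R) • (B 0).mkQ x = (B 0).mkQ x := congrArg Subtype.val hr
  refine ⟨1 - r, ?_, ?_⟩
  · rw [sub_sub_cancel_left]
    exact neg_mem r.2
  · rw [← Submodule.Quotient.mk_eq_zero, ← Submodule.mkQ_apply, map_smul, sub_smul, one_smul, h5,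
      sub_self]

end Pool.Agent.P.MP_824f38_ag.N
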