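import Pool.Agent.P.MP_824f38_ag.N.Alg

/-! Row NEC-AFgSub: subtowers of finitely generated towers are finitely generated

Proof. Choose generators m_1..m_l of m and generators z_(b,i) of Z b modulo B b for b <= a0. Let
P = MvPolynomial (Fin l) R, Q = finite free P-module on the (b,i), graded by deg (X^e e_(b,i)) = |e|+b.
ev : Q -> W, X^e e_(b,i) -> m^e z_(b,i) (R-linear; ev (X_k q) = m_k ev q). Q_a maps onto Z a modulo B a
(induction on a from gen). The P-submodule generated by the homogeneous q in Q_a with ev q in Z' a is
finitely generated (P noetherian), hence generated by homogeneous such q of degree <= a1; take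
homogeneous components (a component of degree a of an element of this submodule has ev in Z' a).
For fin use that (Z a + B a) / B a is a finitely generated module over a noetherian ring.
Any other route is welcome (for instance a noetherian argument with reesAlgebra). -/

set_option linter.unusedVariables false
set_option linter.unusedSectionVars false
set_option linter.style.haveILetI false
set_option linter.dupNamespace false

namespace Pool.Agent.P.MP_824f38_ag.N

universe u v

variable {R : Type} [CommRing R] {W : Type u} [AddCommGroup W] [Module R W]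
  {W' : Type v} [AddCommGroup W'] [Module R W']

theorem fgs_pow {m : Ideal R} {Z : ℕ → Submodule R W} (hZ : Up m Z) (i j : ℕ) :
    m ^ i • Z j ≤ Z (i + j) := by
  induction i with
  | zero => simp
  | succ i ih =>
    rw [pow_succ', mul_smul, add_assoc, add_comm 1, ← add_assoc]
    exact (smul_mono_right _ ih).trans (Submodule.smul_le.2 fun r hr x hx => hZ _ r hr x hx)

/-- the module over the Rees algebra attached to a tower -/
noncomputable def fgsSub {m : Ideal R} {Z : ℕ → Submodule R W} (hZ : Up m Z) :
    Submodule (reesAlgebra m) (PolynomialModule R W) where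
  carrier := {f | ∀ i, f.coeff i ∈ Z i}
  add_mem' hf hg i := Submodule.add_mem _ (hf i) (hg i)
  zero_mem' _ := Submodule.zero_mem _
  smul_mem' r f hf i := by
    rw [Subalgebra.smul_def, PolynomialModule.smul_apply]
    apply Submodule.sum_mem
    rintro ⟨j, k⟩ e
    rw [Finset.HasAntidiagonal.mem_antidiagonal] at e
    subst e
    exact fgs_pow hZ j k (Submodule.smul_mem_smul (r.2 j) (hf k))

theorem fgs_mem {m : Ideal R} {Z : ℕ → Submodule R W} (hZ : Up m Z) {f : PolynomialModule R W} :
    f ∈ fgsSub hZ ↔ ∀ i, f.coeff i ∈ Z i := Iff.rfl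

theorem fgs_single {m : Ideal R} {Z : ℕ → Submodule R W} (hZ : Up m Z) {a : ℕ} {x : W}
    (hx : x ∈ Z a) : PolynomialModule.single R a x ∈ fgsSub hZ := by
  intro j
  rw [PolynomialModule.coeff_single, Finsupp.single_apply]
  split_ifs with h
  · rwa [← h]
  · exact (Z j).zero_mem

theorem fgs_gen {m : Ideal R} {Z B : ℕ → Submodule R W} (hB : Up m B) (H : FGP m Z B) :
    ∃ G : Submodule (reesAlgebra m) (PolynomialModule R W), G.FG ∧
      ∀ a, ∀ x ∈ Z a, PolynomialModule.single R a x ∈ G ⊔ fgsSub hB := by
  classical
  choose s hs1 hs2 using H.fin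
  obtain ⟨a0, ha0⟩ := H.gen
  set S : Finset (PolynomialModule R W) := (Finset.range (a0 + 1)).biUnion fun b =>
    (s b).image (PolynomialModule.single R b) with hS
  refine ⟨Submodule.span _ (S : Set (PolynomialModule R W)),
    Submodule.fg_span (Finset.finite_toSet _), ?_⟩
  set G := Submodule.span (reesAlgebra m) (S : Set (PolynomialModule R W)) with hG
  have low : ∀ a, a ≤ a0 → ∀ x ∈ Z a, PolynomialModule.single R a x ∈ G ⊔ fgsSub hB := by
    intro a ha x hx
    obtain ⟨y, hy, b, hb, rfl⟩ := Submodule.mem_sup.1 (hs2 a hx)
    rw [PolynomialModule.single_add]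
    refine Submodule.add_mem_sup ?_ (fgs_single hB hb)
    have : Submodule.span R (s a : Set W) ≤
        (G.restrictScalars R).comap (PolynomialModule.lsingle R a) := by
      refine Submodule.span_le.2 fun z hz => ?_
      refine Submodule.subset_span (Finset.mem_coe.2 (Finset.mem_biUnion.2 ⟨a,
        Finset.mem_range.2 (Nat.lt_succ_of_le ha), Finset.mem_image.2 ⟨z, hz, rfl⟩⟩))
    exact this hy
  intro a
  induction a with
  | zero => exact low 0 (Nat.zero_le _)
  | succ a ih =>
    intro x hx
    rcases le_or_gt (a + 1) a0 with h | h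
    · exact low _ h x hx
    · obtain ⟨y, hy, b, hb, rfl⟩ := Submodule.mem_sup.1 (ha0 a (by omega) hx)
      rw [PolynomialModule.single_add]
      refine Submodule.add_mem _ ?_ (Submodule.mem_sup_right (fgs_single hB hb))
      refine Submodule.smul_induction_on hy (fun r hr z hz => ?_) (fun y y' e e' => ?_)
      · rw [add_comm, ← PolynomialModule.monomial_smul_single]
        exact (G ⊔ fgsSub hB).smul_mem
          ⟨_, reesAlgebra.monomial_mem.mpr (by rwa [pow_one])⟩ (ih z hz)
      · rw [PolynomialModule.single_add]
        exact Submodule.add_mem _ e e'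

theorem fg_sub [IsNoetherianRing R] {m : Ideal R} {Z Z' B : ℕ → Submodule R W} (hZ : Up m Z)
    (hZ' : Up m Z') (hB : Up m B) (h1 : ∀ a, B a ≤ Z' a) (h2 : ∀ a, Z' a ≤ Z a) (H : FGP m Z B) :
    FGP m Z' B := by
  refine ⟨fun a => ?_, ?_⟩
  · obtain ⟨s, -, hs⟩ := H.fin a
    have hfg : (Submodule.span R (s : Set W) ⊓ Z' a).FG := by
      have := isNoetherian_of_fg_of_noetherian _ (Submodule.fg_span (R := R) s.finite_toSet)
      rw [isNoetherian_submodule] at this
      exact this _ inf_le_left
    obtain ⟨t, ht⟩ := hfg
    refine ⟨t, fun x hx => ?_, fun x hx => ?_⟩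
    · have : x ∈ Submodule.span R (t : Set W) := Submodule.subset_span hx
      rw [ht] at this
      exact this.2
    · obtain ⟨y, hy, b, hb, rfl⟩ := Submodule.mem_sup.1 (hs (h2 a hx))
      rw [ht]
      refine Submodule.add_mem_sup ⟨hy, ?_⟩ hb
      exact (Submodule.add_mem_iff_left _ (h1 a hb)).1 hx
  · classical
    obtain ⟨G, hG, hgen⟩ := fgs_gen hB H
    have hfg : (G ⊓ fgsSub hZ').FG := by
      have := isNoetherian_of_fg_of_noetherian _ hG
      rw [isNoetherian_submodule] at this
      exact this _ inf_le_left
    obtain ⟨T, hT⟩ := hfg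
    set a1 := T.sup fun t => t.coeff.support.sup id with ha1
    have hsm : ∀ a, m • Z' a ≤ Z' (a + 1) := fun a =>
      Submodule.smul_le.2 fun r hr x hx => hZ' _ r hr x hx
    have hY : Up m fun a => if a ≤ a1 then Z' a else m • Z' (a - 1) := by
      intro a r hr x hx
      have hx' : x ∈ Z' a := by
        by_cases h : a ≤ a1
        · simpa only [if_pos h] using hx
        · simp only [if_neg h] at hx
          have := hsm _ hx
          rwa [Nat.sub_add_cancel (by omega)] at this
      by_cases h : a + 1 ≤ a1
      · simp only [if_pos h]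
        exact hZ' a r hr x hx'
      · simp only [if_neg h, Nat.add_sub_cancel]
        exact Submodule.smul_mem_smul hr hx'
    have hTY : G ⊓ fgsSub hZ' ≤ fgsSub hY := by
      rw [← hT]
      refine Submodule.span_le.2 fun t ht i => ?_
      by_cases h : i ≤ a1
      · simp only [if_pos h]
        have : t ∈ Submodule.span (reesAlgebra m) (T : Set _) := Submodule.subset_span ht
        rw [hT] at this
        exact this.2 i
      · have : t.coeff i = 0 := by
          by_contra hne
          exact h ((Finset.le_sup (f := id) (Finsupp.mem_support_iff.2 hne)).trans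
            (Finset.le_sup (f := fun t : PolynomialModule R W => t.coeff.support.sup id) ht))
        rw [this]
        exact Submodule.zero_mem _
    refine ⟨a1, fun a ha x hx => ?_⟩
    obtain ⟨g, hg, b, hb, e⟩ := Submodule.mem_sup.1 (hgen (a + 1) x (h2 _ hx))
    have hb' : b ∈ fgsSub hZ' := fun i => h1 i (hb i)
    have hg' : g ∈ fgsSub hZ' := by
      rw [← Submodule.add_mem_iff_left _ hb', e]
      exact fgs_single hZ' hx
    have e1 := hTY ⟨hg, hg'⟩ (a + 1)
    simp only [if_neg (show ¬ a + 1 ≤ a1 by omega), Nat.add_sub_cancel] at e1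
    have e2 : x = g.coeff (a + 1) + b.coeff (a + 1) := by
      have := congrArg (fun f : PolynomialModule R W => f.coeff (a + 1)) e
      simp only [PolynomialModule.coeff_single, Finsupp.single_eq_same] at this
      rw [← this]
      rfl
    rw [e2]
    exact Submodule.add_mem_sup e1 (hb (a + 1))

end Pool.Agent.P.MP_824f38_ag.N
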