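import Pool.Agent.P.MP_824f38_ag.N.Alg

/-! Row NEC-AMv: the Mayer-Vietoris chase

j = 0: glue with Nglue and use inj. j+1: f1 c = δ b1, f2 c = δ b2; g1 b1 - g2 b2 is a cocycle of K12 in
degree j, hence in Bd; write it as g1 a1 - g2 a2 with cocycles a1, a2 (Nsum if j = 0, surj and δ
otherwise); glue b1 - a1 and b2 - a2 to b; δ b - c is killed by f1 and f2. -/

set_option linter.unusedVariables false
set_option linter.unusedSectionVars false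
set_option linter.style.haveILetI false
set_option linter.dupNamespace false

namespace Pool.Agent.P.MP_824f38_ag.N

universe u

variable {R : Type} [CommRing R] {W W1 W2 W12 : ℕ → Type u} [∀ j, AddCommGroup (W j)]
  [∀ j, Module R (W j)] [∀ j, AddCommGroup (W1 j)] [∀ j, Module R (W1 j)]
  [∀ j, AddCommGroup (W2 j)] [∀ j, Module R (W2 j)] [∀ j, AddCommGroup (W12 j)]
  [∀ j, Module R (W12 j)]

theorem mv_chase {δ : Df R W} {δ1 : Df R W1} {δ2 : Df R W2} {δ12 : Df R W12}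
    {f1 : ∀ j, W j →ₗ[R] W1 j} {f2 : ∀ j, W j →ₗ[R] W2 j} {g1 : ∀ j, W1 j →ₗ[R] W12 j}
    {g2 : ∀ j, W2 j →ₗ[R] W12 j} {K : Fm R W} {K1 : Fm R W1} {K2 : Fm R W2} {K12 : Fm R W12}
    {N : Submodule R (W 0)} {N1 : Submodule R (W1 0)} {N2 : Submodule R (W2 0)}
    {N12 : Submodule R (W12 0)} (q1 : Sq δ1) (q2 : Sq δ2) (s : Sc δ K) (s1 : Sc δ1 K1)
    (s2 : Sc δ2 K2) (cf1 : ∀ j c, f1 (j + 1) (δ j c) = δ1 j (f1 j c))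
    (cf2 : ∀ j c, f2 (j + 1) (δ j c) = δ2 j (f2 j c))
    (cg1 : ∀ j c, g1 (j + 1) (δ1 j c) = δ12 j (g1 j c))
    (cg2 : ∀ j c, g2 (j + 1) (δ2 j c) = δ12 j (g2 j c))
    (sq : ∀ j c, g1 j (f1 j c) = g2 j (f2 j c))
    (m1 : ∀ j, ∀ c ∈ K1 j, g1 j c ∈ K12 j) (m2 : ∀ j, ∀ c ∈ K2 j, g2 j c ∈ K12 j)
    (inj : ∀ j, ∀ c ∈ K j, f1 j c = 0 → f2 j c = 0 → c = 0)
    (glue : ∀ j, ∀ a ∈ K1 j, ∀ b ∈ K2 j, g1 j a = g2 j b → ∃ c ∈ K j, f1 j c = a ∧ f2 j c = b)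
    (surj : ∀ j, ∀ c ∈ K12 j, ∃ a ∈ K1 j, ∃ b ∈ K2 j, c = g1 j a - g2 j b)
    (n0 : N ≤ K 0) (n1 : N1 ≤ Zy δ1 K1 0) (n2 : N2 ≤ Zy δ2 K2 0)
    (Nglue : ∀ a ∈ N1, ∀ b ∈ N2, g1 0 a = g2 0 b → ∃ c ∈ N, f1 0 c = a ∧ f2 0 c = b)
    (Nsum : ∀ c ∈ N12, ∃ a ∈ N1, ∃ b ∈ N2, c = g1 0 a - g2 0 b) {j : ℕ}
    (hA : AcycLt δ12 K12 N12 j) {c : W j} (hc : c ∈ K j) (h1 : f1 j c ∈ Bd δ1 K1 N1 j)
    (h2 : f2 j c ∈ Bd δ2 K2 N2 j) : c ∈ Bd δ K N j := by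
  cases j with
  | zero =>
    obtain ⟨c', hc', e1, e2⟩ := Nglue _ h1 _ h2 (sq 0 c)
    have h0 : c - c' = 0 := inj 0 _ (sub_mem hc (n0 hc')) (by rw [map_sub, e1, sub_self])
      (by rw [map_sub, e2, sub_self])
    rw [sub_eq_zero.1 h0]
    exact hc'
  | succ j =>
    obtain ⟨b1, hb1, e1⟩ := mem_Bd_succ.1 h1
    obtain ⟨b2, hb2, e2⟩ := mem_Bd_succ.1 h2
    have hz : g1 j b1 - g2 j b2 ∈ Zy δ12 K12 j :=
      mem_Zy.2 ⟨sub_mem (m1 j _ hb1) (m2 j _ hb2), by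
        rw [map_sub, ← cg1, ← cg2, e1, e2, sq, sub_self]⟩
    have hb := hA j (Nat.lt_succ_self j) hz
    have key : ∃ a1 ∈ Zy δ1 K1 j, ∃ a2 ∈ Zy δ2 K2 j,
        g1 j b1 - g2 j b2 = g1 j a1 - g2 j a2 := by
      cases j with
      | zero =>
        obtain ⟨a1, h1', a2, h2', e⟩ := Nsum _ hb
        exact ⟨a1, n1 h1', a2, n2 h2', e⟩
      | succ i =>
        obtain ⟨d, hd, e⟩ := mem_Bd_succ.1 hb
        obtain ⟨u, hu, v, hv, e'⟩ := surj i d hd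
        refine ⟨δ1 i u, mem_Zy.2 ⟨s1 i u hu, q1 i u⟩, δ2 i v, mem_Zy.2 ⟨s2 i v hv, q2 i v⟩, ?_⟩
        rw [← e, e', map_sub, cg1, cg2]
    obtain ⟨a1, ha1, a2, ha2, e⟩ := key
    obtain ⟨ha1, za1⟩ := mem_Zy.1 ha1
    obtain ⟨ha2, za2⟩ := mem_Zy.1 ha2
    obtain ⟨b, hbK, eb1, eb2⟩ := glue j (b1 - a1) (sub_mem hb1 ha1) (b2 - a2) (sub_mem hb2 ha2)
      (by rw [map_sub, map_sub, sub_eq_sub_iff_sub_eq_sub]; exact e)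
    refine mem_Bd_succ.2 ⟨b, hbK, sub_eq_zero.1 (inj (j + 1) _ (sub_mem (s j b hbK) hc) ?_ ?_)⟩
    · rw [map_sub, cf1, eb1, map_sub, za1, sub_zero, e1, sub_self]
    · rw [map_sub, cf2, eb2, map_sub, za2, sub_zero, e2, sub_self]

end Pool.Agent.P.MP_824f38_ag.N
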