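import Pool.Agent.P.MP_824f38_ag.N.Alg

/-! Row NEC-ARz: quasi-compactness of the space of valuation rings

Suppose not. The sets {V | U ⊆ V, not t ⊆ V} for P t have the finite intersection property; take an
ultrafilter on the valuation subrings that contains them and let V0 = {x | for almost all V, x in V}. It is
a valuation subring containing U; it contains some t with P t, so almost all V contain t. -/

set_option linter.unusedVariables false
set_option linter.unusedSectionVars false
set_option linter.style.haveILetI false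
set_option linter.dupNamespace false

namespace Pool.Agent.P.MP_824f38_ag.N

theorem rz_compact {L : Type} [Field L] (U : Set L) (P : Finset L → Prop)
    (h : ∀ V : ValuationSubring L, U ⊆ V → ∃ t : Finset L, (t : Set L) ⊆ V ∧ P t) :
    ∃ T : Finset (Finset L), (∀ t ∈ T, P t) ∧
      ∀ V : ValuationSubring L, U ⊆ V → ∃ t ∈ T, (t : Set L) ⊆ V := by
  classical
  by_contra hcon
  have hex : ∀ T : Finset (Finset L), ∃ V : ValuationSubring L,
      (∀ t ∈ T, P t) → U ⊆ V ∧ ∀ t ∈ T, ¬ (t : Set L) ⊆ V := by
    intro T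
    by_cases hT : ∀ t ∈ T, P t
    · by_contra hn
      refine hcon ⟨T, hT, fun V hV => ?_⟩
      by_contra hn'
      exact hn ⟨V, fun _ => ⟨hV, fun t ht h' => hn' ⟨t, ht, h'⟩⟩⟩
    · exact ⟨⊤, fun h' => absurd h' hT⟩
  choose W hW using hex
  let ι := {t : Finset L // P t}
  let W' : Finset ι → ValuationSubring L := fun T => W (T.image Subtype.val)
  have hW' : ∀ T : Finset ι, U ⊆ W' T ∧ ∀ t ∈ T, ¬ ((t.1 : Finset L) : Set L) ⊆ W' T := by
    intro T
    have := hW (T.image Subtype.val) (fun t ht => by
      obtain ⟨t', _, rfl⟩ := Finset.mem_image.1 ht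
      exact t'.2)
    exact ⟨this.1, fun t ht => this.2 _ (Finset.mem_image_of_mem _ ht)⟩
  let 𝓕 : Ultrafilter (Finset ι) := Ultrafilter.of Filter.atTop
  have hle : (𝓕 : Filter (Finset ι)) ≤ Filter.atTop := Ultrafilter.of_le _
  let V0 : ValuationSubring L :=
    { carrier := {x | ∀ᶠ T in (𝓕 : Filter (Finset ι)), x ∈ W' T}
      mul_mem' := fun ha hb => (Filter.Eventually.and ha hb).mono fun T hT => mul_mem hT.1 hT.2
      one_mem' := Filter.Eventually.of_forall fun T => one_mem _
      add_mem' := fun ha hb => (Filter.Eventually.and ha hb).mono fun T hT => add_mem hT.1 hT.2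
      zero_mem' := Filter.Eventually.of_forall fun T => zero_mem _
      neg_mem' := fun ha => Filter.Eventually.mono ha fun T hT => neg_mem hT
      mem_or_inv_mem' := fun x =>
        Ultrafilter.eventually_or.1
          (Filter.Eventually.of_forall fun T => (W' T).mem_or_inv_mem x) }
  obtain ⟨t, ht, hP⟩ := h V0 fun x hx => Filter.Eventually.of_forall fun T => (hW' T).1 hx
  have h1 : ∀ᶠ T in (𝓕 : Filter (Finset ι)), ∀ x ∈ t, x ∈ W' T :=
    (Filter.eventually_all_finset t).2 fun x hx => ht hx
  have h2 : ∀ᶠ T in (𝓕 : Filter (Finset ι)), ({⟨t, hP⟩} : Finset ι) ≤ T :=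
    hle (Filter.eventually_ge_atTop _)
  obtain ⟨T, h3, h4⟩ := (h1.and h2).exists
  exact (hW' T).2 ⟨t, hP⟩ (h4 (Finset.mem_singleton_self _)) fun x hx => h3 x hx

end Pool.Agent.P.MP_824f38_ag.N
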