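import Pool.Agent.P.MP_824f38_ag.N.Alg

/-! Row NEC-AWf: the generated invariants of bounded length are well founded

Descending induction on i <= ν: for every fixed initial segment (k 0, ..., k (i-1)) of keys with
nonnegative weights, the set of k with GenInv ν k and this initial segment is well founded for <. For the
step, the possible keys at position i form a well founded set: the padding mkKey 0 ⊥ is its top; the weights
are (1 - s) / n with s in a finite set (sums of r t * wt t below 1), so only finitely many exceed a given positive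
number (a smaller key has a larger weight or the same weight and a smaller label). Use
Set.WellFoundedOn / Set.IsWF or show that there is no strictly decreasing sequence. -/

set_option linter.unusedVariables false
set_option linter.unusedSectionVars false
set_option linter.style.haveILetI false
set_option linter.dupNamespace false

namespace Pool.Agent.P.MP_824f38_ag.N

theorem mkKey_wt (c : ℚ) (l : WithBot ℕ) : (mkKey c l).wt = c := by
  unfold mkKey
  split_ifs with h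
  · rw [h]; rfl
  · rfl

theorem mkKey_lab {c : ℚ} (h : c ≠ 0) (l : WithBot ℕ) : (mkKey c l).lab = l := by
  unfold mkKey
  rw [if_neg h]; rfl

theorem key_le_iff (k k' : Key) : k ≤ k' ↔ k'.wt < k.wt ∨ (k.wt = k'.wt ∧ k.lab ≤ k'.lab) :=
  Prod.Lex.le_iff

theorem key_ext {k k' : Key} (h : k.wt = k'.wt) (h' : k.lab = k'.lab) : k = k' :=
  le_antisymm ((key_le_iff _ _).2 (Or.inr ⟨h, h'.le⟩)) ((key_le_iff _ _).2 (Or.inr ⟨h.symm, h'.ge⟩))

theorem mkKey_le_pad {c : ℚ} (h : 0 ≤ c) (l : WithBot ℕ) : mkKey c l ≤ mkKey 0 ⊥ := by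
  rcases h.eq_or_lt with rfl | h
  · simp [mkKey]
  · rw [key_le_iff, mkKey_wt, mkKey_wt]; exact Or.inl h

theorem mkKey_le_iff {c c' : ℚ} (h : c ≠ 0) (h' : c' ≠ 0) (l l' : WithBot ℕ) :
    mkKey c l ≤ mkKey c' l' ↔ c' < c ∨ (c = c' ∧ l ≤ l') := by
  rw [key_le_iff, mkKey_wt, mkKey_wt, mkKey_lab h, mkKey_lab h']

theorem wt_le_of_le {k k' : Key} (h : k ≤ k') : k'.wt ≤ k.wt := by
  rcases (key_le_iff _ _).1 h with h | h
  · exact h.le
  · exact h.1.ge

theorem awf_mult {p : ℚ} (hp : 0 ≤ p) : {x : ℚ | x ≤ 1 ∧ ∃ r : ℕ, x = r * p}.Finite := by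
  rcases hp.eq_or_lt with rfl | hp
  · refine (Set.finite_singleton 0).subset ?_
    rintro x ⟨-, r, rfl⟩
    simp
  · refine ((Set.finite_Iic ⌈1 / p⌉₊).image fun r : ℕ => (r : ℚ) * p).subset ?_
    rintro x ⟨hx, r, rfl⟩
    refine ⟨r, ?_, rfl⟩
    have h1 : (r : ℚ) ≤ 1 / p := by rwa [le_div_iff₀ hp]
    exact_mod_cast h1.trans (Nat.le_ceil _)

theorem awf_sums (p : ℕ → ℚ) (hp : ∀ t, 0 ≤ p t) (i : ℕ) :
    {s : ℚ | s ≤ 1 ∧ ∃ r : ℕ → ℕ, s = ∑ t ∈ Finset.range i, (r t : ℚ) * p t}.Finite := by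
  induction i with
  | zero =>
    refine (Set.finite_singleton 0).subset ?_
    rintro x ⟨-, r, rfl⟩
    simp
  | succ i ih =>
    refine (Set.Finite.image2 (· + ·) ih (awf_mult (hp i))).subset ?_
    rintro x ⟨hx, r, rfl⟩
    rw [Finset.sum_range_succ] at hx ⊢
    have h1 : 0 ≤ ∑ t ∈ Finset.range i, (r t : ℚ) * p t :=
      Finset.sum_nonneg fun t _ => mul_nonneg (Nat.cast_nonneg _) (hp t)
    have h2 : 0 ≤ (r i : ℚ) * p i := mul_nonneg (Nat.cast_nonneg _) (hp i)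
    exact ⟨_, ⟨by linarith, r, rfl⟩, _, ⟨by linarith, r i, rfl⟩, rfl⟩

theorem awf_wts (p : ℕ → ℚ) (hp : ∀ t, 0 ≤ p t) (i : ℕ) {ε : ℚ} (hε : 0 < ε) :
    {c : ℚ | ε ≤ c ∧ ∃ (r : ℕ → ℕ) (n : ℕ), 1 ≤ n ∧
      ∑ t ∈ Finset.range i, (r t : ℚ) * p t + n * c = 1}.Finite := by
  refine (Set.Finite.image2 (fun s (n : ℕ) => (1 - s) / (n : ℚ)) (awf_sums p hp i)
    (Set.finite_Iic ⌈1 / ε⌉₊)).subset ?_
  rintro c ⟨hc, r, n, hn, e⟩
  have h1 : 0 ≤ ∑ t ∈ Finset.range i, (r t : ℚ) * p t :=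
    Finset.sum_nonneg fun t _ => mul_nonneg (Nat.cast_nonneg _) (hp t)
  have hn' : (0 : ℚ) < n := by exact_mod_cast hn
  have h2 : (n : ℚ) * ε ≤ n * c := mul_le_mul_of_nonneg_left hc hn'.le
  have h3 : 0 < (n : ℚ) * ε := mul_pos hn' hε
  refine ⟨_, ⟨by linarith, r, rfl⟩, n, ?_, ?_⟩
  · have h4 : (n : ℚ) ≤ 1 / ε := by rw [le_div_iff₀ hε]; linarith
    exact_mod_cast h4.trans (Nat.le_ceil _)
  · change (1 - _) / (n : ℚ) = c
    rw [div_eq_iff hn'.ne']; linarith

theorem awf_stab (p : ℕ → ℚ) (hp : ∀ t, 0 ≤ p t) (i : ℕ) (g : ℕ → Key) (hg : Antitone g)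
    (h : ∀ n, g n = mkKey 0 ⊥ ∨ (0 < (g n).wt ∧ ∃ (r : ℕ → ℕ) (m : ℕ), 1 ≤ m ∧
      ∑ t ∈ Finset.range i, (r t : ℚ) * p t + m * (g n).wt = 1)) :
    ∃ M, ∀ n, M ≤ n → g n = g M := by
  by_cases h0 : ∀ n, g n = mkKey 0 ⊥
  · exact ⟨0, fun n _ => by rw [h0, h0]⟩
  obtain ⟨n0, hn0⟩ := not_forall.1 h0
  have hε := ((h n0).resolve_left hn0).1
  have hfin : ((fun n => (g n).wt) '' Set.Ici n0).Finite := by
    refine (awf_wts p hp i hε).subset ?_
    rintro _ ⟨n, hn, rfl⟩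
    have h1 : (g n0).wt ≤ (g n).wt := wt_le_of_le (hg hn)
    refine ⟨h1, ((h n).resolve_left fun e => ?_).2⟩
    rw [e, mkKey_wt] at h1
    exact absurd hε (not_lt.2 h1)
  obtain ⟨_, ⟨n1, hn1, rfl⟩, hmax⟩ := Set.exists_max_image _ id hfin ⟨_, n0, Set.mem_Ici.2 le_rfl, rfl⟩
  have hw : ∀ n, n1 ≤ n → (g n).wt = (g n1).wt := fun n hn =>
    le_antisymm (hmax _ ⟨n, le_trans hn1 hn, rfl⟩) (wt_le_of_le (hg hn))
  obtain ⟨_, ⟨n2, hn2, rfl⟩, hmin⟩ := (wellFounded_lt (α := WithBot ℕ)).has_min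
    ((fun n => (g n).lab) '' Set.Ici n1) ⟨_, n1, Set.mem_Ici.2 le_rfl, rfl⟩
  refine ⟨n2, fun n hn => ?_⟩
  have e : (g n).wt = (g n2).wt := (hw n (le_trans hn2 hn)).trans (hw n2 hn2).symm
  refine key_ext e (le_antisymm ?_ (not_lt.1 (hmin _ ⟨n, le_trans hn2 hn, rfl⟩)))
  rcases (key_le_iff _ _).1 (hg hn) with h1 | h1
  · exact absurd h1 (by rw [e]; exact lt_irrefl _)
  · exact h1.2

theorem inv_lt_iff (a b : Inv) :
    a < b ↔ ∃ i, (∀ j, j < i → ofLex a j = ofLex b j) ∧ ofLex a i < ofLex b i := Iff.rfl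

theorem genInv_wf (ν : ℕ) : Set.WellFoundedOn {k : Inv | GenInv ν k} (· < ·) := by
  rw [Set.wellFoundedOn_iff_no_descending_seq]
  intro f hf
  have hlt : ∀ n, f (n + 1) < f n := fun n => f.map_rel_iff.2 (Nat.lt_succ_self n)
  have key : ∀ i, ∃ M, ∀ n, M ≤ n → ∀ t, t < i → ofLex (f n) t = ofLex (f M) t := by
    intro i
    induction i with
    | zero => exact ⟨0, fun n _ t ht => absurd ht (Nat.not_lt_zero t)⟩
    | succ i ih =>
      obtain ⟨M, hM⟩ := ih
      have hanti : Antitone fun n => ofLex (f (M + n)) i := by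
        refine antitone_nat_of_succ_le fun n => ?_
        obtain ⟨j, h1, h2⟩ := (inv_lt_iff _ _).1 (hlt (M + n))
        rcases lt_trichotomy j i with hj | rfl | hj
        · rw [hM (M + n + 1) (by omega) j hj, hM (M + n) (by omega) j hj] at h2
          exact absurd h2 (lt_irrefl _)
        · exact h2.le
        · exact (h1 i hj).le
      obtain ⟨K, hK⟩ := awf_stab (fun t => (ofLex (f M) t).wt) (fun t => by
          rcases (hf M).cases t with e | e
          · rw [e, mkKey_wt]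
          · exact e.1.le) i _ hanti (fun n => by
          rcases (hf (M + n)).cases i with e | ⟨e0, r, m, hm, e⟩
          · exact Or.inl e
          · refine Or.inr ⟨e0, r, m, hm, ?_⟩
            rw [← e]
            congr 1
            exact Finset.sum_congr rfl fun t ht => by
              rw [hM (M + n) (by omega) t (Finset.mem_range.1 ht)])
      refine ⟨M + K, fun n hn t ht => ?_⟩
      rcases (Nat.lt_succ_iff.1 ht).eq_or_lt with rfl | ht'
      · have := hK (n - M) (by omega)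
        rwa [show M + (n - M) = n by omega] at this
      · rw [hM n (by omega) t ht', hM (M + K) (by omega) t ht']
  obtain ⟨M, hM⟩ := key ν
  obtain ⟨j, -, h2⟩ := (inv_lt_iff _ _).1 (hlt M)
  rcases lt_or_ge j ν with hj | hj
  · rw [hM (M + 1) (by omega) j hj] at h2
    exact absurd h2 (lt_irrefl _)
  · rw [(hf (M + 1)).pad j hj, (hf M).pad j hj] at h2
    exact absurd h2 (lt_irrefl _)

end Pool.Agent.P.MP_824f38_ag.N
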