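import Pool.Agent.P.MP_824f38_ag.V.Cech

/-! Complexes of submodules, towers of cohomology pairs, double complexes, Cech complexes. -/

set_option linter.unusedVariables false
set_option linter.unusedSectionVars false

namespace Pool.Agent.P.MP_824f38_ag.N

universe u v

section Towers

variable {R : Type} [CommRing R] {W : Type u} [AddCommGroup W] [Module R W]

/-- a decreasing family of submodules on which `m` raises the index -/
structure Tw (m : Ideal R) (Z : ℕ → Submodule R W) : Prop where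
  anti : ∀ a, Z (a + 1) ≤ Z a
  smul : ∀ a, ∀ r ∈ m, ∀ x ∈ Z a, r • x ∈ Z (a + 1)

/-- the sum of the quotients `Z a / B a` is finitely generated over the Rees algebra of `m` -/
structure FGP (m : Ideal R) (Z B : ℕ → Submodule R W) : Prop where
  fin : ∀ a, ∃ s : Finset W, (s : Set W) ⊆ Z a ∧ Z a ≤ Submodule.span R (s : Set W) ⊔ B a
  gen : ∃ a0, ∀ a, a0 ≤ a → Z (a + 1) ≤ m • Z a ⊔ B (a + 1)

/-- `m` raises the index -/
def Up (m : Ideal R) (Z : ℕ → Submodule R W) : Prop := ∀ a, ∀ r ∈ m, ∀ x ∈ Z a, r • x ∈ Z (a + 1)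

end Towers

section Complexes

variable {R : Type} [CommRing R] {W : ℕ → Type u} [∀ j, AddCommGroup (W j)]
  [∀ j, Module R (W j)] {W' : ℕ → Type v} [∀ j, AddCommGroup (W' j)] [∀ j, Module R (W' j)]

/-- a differential -/
abbrev Df (R : Type) [CommRing R] (W : ℕ → Type u) [∀ j, AddCommGroup (W j)]
    [∀ j, Module R (W j)] : Type u := ∀ j, W j →ₗ[R] W (j + 1)

/-- a family of submodules -/
abbrev Fm (R : Type) [CommRing R] (W : ℕ → Type u) [∀ j, AddCommGroup (W j)]
    [∀ j, Module R (W j)] : Type u := ∀ j, Submodule R (W j)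

/-- the differential has square zero -/
def Sq (δ : Df R W) : Prop := ∀ j c, δ (j + 1) (δ j c) = 0

/-- `K` is a subcomplex -/
def Sc (δ : Df R W) (K : Fm R W) : Prop := ∀ j, ∀ c ∈ K j, δ j c ∈ K (j + 1)

/-- cocycles -/
def Zy (δ : Df R W) (K : Fm R W) (j : ℕ) : Submodule R (W j) := K j ⊓ LinearMap.ker (δ j)

/-- coboundaries of the complex `K` augmented by `N` -/
def Bd (δ : Df R W) (K : Fm R W) (N : Submodule R (W 0)) : ∀ j, Submodule R (W j)
  | 0 => N
  | j + 1 => (K j).map (δ j)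

theorem mem_Zy {δ : Df R W} {K : Fm R W} {j : ℕ} {c : W j} :
    c ∈ Zy δ K j ↔ c ∈ K j ∧ δ j c = 0 := Iff.rfl

@[simp] theorem Bd_zero (δ : Df R W) (K : Fm R W) (N : Submodule R (W 0)) : Bd δ K N 0 = N := rfl

theorem mem_Bd_succ {δ : Df R W} {K : Fm R W} {N : Submodule R (W 0)} {j : ℕ} {c : W (j + 1)} :
    c ∈ Bd δ K N (j + 1) ↔ ∃ b ∈ K j, δ j b = c := Iff.rfl

/-- the cohomology of `K` vanishes in degree `q` -/
def Van (δ : Df R W) (K : Fm R W) (q : ℕ) : Prop := Zy δ K q ≤ Bd δ K ⊥ q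

/-- `K` augmented by `N` is exact in the degrees below `j` -/
def AcycLt (δ : Df R W) (K : Fm R W) (N : Submodule R (W 0)) (j : ℕ) : Prop :=
  ∀ i, i < j → Zy δ K i ≤ Bd δ K N i

/-- `K` is a resolution of `N` -/
structure Acyc (δ : Df R W) (K : Fm R W) (N : Submodule R (W 0)) : Prop where
  le : N ≤ Zy δ K 0
  ex : ∀ i, Zy δ K i ≤ Bd δ K N i

/-- the quotient complex `K1 / K0` is exact -/
def RelEx (δ : Df R W) (K0 K1 : Fm R W) : Prop :=
  ∀ j, ∀ c ∈ K1 j, δ j c ∈ K0 (j + 1) → c ∈ K0 j ⊔ Bd δ K1 ⊥ j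

/-- a short exact sequence of complexes `K' → K → K''` with `K' ≤ K` -/
structure SES (δ : Df R W) (δ' : Df R W') (f : ∀ j, W j →ₗ[R] W' j) (K' K : Fm R W)
    (K'' : Fm R W') : Prop where
  comm : ∀ j c, f (j + 1) (δ j c) = δ' j (f j c)
  mem : ∀ j, ∀ c ∈ K j, f j c ∈ K'' j
  surj : ∀ j, ∀ c ∈ K'' j, ∃ b ∈ K j, f j b = c
  ker : ∀ j c, c ∈ K' j ↔ c ∈ K j ∧ f j c = 0

end Complexes

section Double

variable {R : Type} [CommRing R] {W : ℕ → ℕ → Type u} [∀ i j, AddCommGroup (W i j)]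
  [∀ i j, Module R (W i j)]

/-- a double complex of submodules whose rows and columns are exact in positive degrees -/
structure DC (h : ∀ i j, W i j →ₗ[R] W (i + 1) j) (v : ∀ i j, W i j →ₗ[R] W i (j + 1))
    (M : ∀ i j, Submodule R (W i j)) : Prop where
  comm : ∀ i j x, h i (j + 1) (v i j x) = v (i + 1) j (h i j x)
  hh : ∀ i j x, h (i + 1) j (h i j x) = 0
  vv : ∀ i j x, v i (j + 1) (v i j x) = 0
  hmem : ∀ i j, ∀ x ∈ M i j, h i j x ∈ M (i + 1) j
  vmem : ∀ i j, ∀ x ∈ M i j, v i j x ∈ M i (j + 1)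
  hex : ∀ i j, ∀ x ∈ M (i + 1) j, h (i + 1) j x = 0 → ∃ y ∈ M i j, h i j y = x
  vex : ∀ i j, ∀ x ∈ M i (j + 1), v i (j + 1) x = 0 → ∃ y ∈ M i j, v i j y = x

/-- the edge complex of the kernels of `v`; its differential is `fun i => h i 0` -/
def EdgeH (v : ∀ i j, W i j →ₗ[R] W i (j + 1)) (M : ∀ i j, Submodule R (W i j)) :
    Fm R (fun i => W i 0) := fun i => M i 0 ⊓ LinearMap.ker (v i 0)

/-- the edge complex of the kernels of `h`; its differential is `fun j => v 0 j` -/
def EdgeV (h : ∀ i j, W i j →ₗ[R] W (i + 1) j) (M : ∀ i j, Submodule R (W i j)) :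
    Fm R (fun j => W 0 j) := fun j => M 0 j ⊓ LinearMap.ker (h 0 j)

end Double

section Cech

variable {R : Type} [CommRing R] {ι : Type} [LinearOrder ι] {F : Finset ι → Type u}
  [∀ I, AddCommGroup (F I)] [∀ I, Module R (F I)]

/-- the Cech differential of a family with linear restriction maps -/
def cechL (r : ∀ I J : Finset ι, I ⊆ J → F I →ₗ[R] F J) : (∀ I, F I) →ₗ[R] (∀ I, F I) where
  toFun c J := ∑ a ∈ J, V.sgn J a • r (J.erase a) J (Finset.erase_subset a J) (c (J.erase a))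
  map_add' c c' := by funext J; simp [Finset.sum_add_distrib]
  map_smul' s c := by
    funext J
    simp only [Pi.smul_apply, map_smul, RingHom.id_apply, Finset.smul_sum, smul_comm s]

theorem cechL_apply (r : ∀ I J : Finset ι, I ⊆ J → F I →ₗ[R] F J) (c : ∀ I, F I) (J : Finset ι) :
    cechL r c J =
      ∑ a ∈ J, V.sgn J a • r (J.erase a) J (Finset.erase_subset a J) (c (J.erase a)) := rfl

/-- cochains with values in `G` that live on the sets with `q` elements -/
def CochL (G : ∀ I, Submodule R (F I)) (q : ℕ) : Submodule R (∀ I, F I) where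
  carrier := {c | ∀ I, c I ∈ G I ∧ (I.card ≠ q → c I = 0)}
  add_mem' := fun {a b} ha hb I => ⟨add_mem (ha I).1 (hb I).1, fun h => by
    rw [Pi.add_apply, (ha I).2 h, (hb I).2 h, add_zero]⟩
  zero_mem' := fun I => ⟨zero_mem _, fun _ => rfl⟩
  smul_mem' := fun s a ha I => ⟨Submodule.smul_mem _ s (ha I).1, fun h => by
    rw [Pi.smul_apply, (ha I).2 h, smul_zero]⟩

theorem mem_CochL {G : ∀ I, Submodule R (F I)} {q : ℕ} {c : ∀ I, F I} :
    c ∈ CochL G q ↔ ∀ I, c I ∈ G I ∧ (I.card ≠ q → c I = 0) := Iff.rfl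

/-- the Cech differential as the differential of a complex -/
def cechD (r : ∀ I J : Finset ι, I ⊆ J → F I →ₗ[R] F J) : Df R (fun _ => ∀ I, F I) :=
  fun _ => cechL r

/-- the Cech complex: degree `q` lives on the sets with `q + 1` elements -/
def CochK (G : ∀ I, Submodule R (F I)) : Fm R (fun _ => ∀ I, F I) := fun q => CochL G (q + 1)

end Cech

/-- keys of weighted coordinates: the weight (large weights first) and the label -/
abbrev Key : Type := ℚᵒᵈ ×ₗ WithBot ℕ

/-- invariants: sequences of keys in the lexicographic order -/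
abbrev Inv : Type := Lex (ℕ → Key)

/-- the key of a weight and a label; weight zero is the padding -/
def mkKey (c : ℚ) (l : WithBot ℕ) : Key :=
  if c = 0 then toLex (OrderDual.toDual 0, ⊥) else toLex (OrderDual.toDual c, l)

/-- the weight of a key -/
def Key.wt (k : Key) : ℚ := OrderDual.ofDual (ofLex k).1

/-- the label of a key -/
def Key.lab (k : Key) : WithBot ℕ := (ofLex k).2

/-- the invariants of length at most `ν` whose weights are generated step by step -/
structure GenInv (ν : ℕ) (k : Inv) : Prop where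
  pad : ∀ i, ν ≤ i → ofLex k i = mkKey 0 ⊥
  cases : ∀ i, ofLex k i = mkKey 0 ⊥ ∨ (0 < (ofLex k i).wt ∧ ∃ (r : ℕ → ℕ) (n : ℕ), 1 ≤ n ∧
    ∑ t ∈ Finset.range i, (r t : ℚ) * (ofLex k t).wt + n * (ofLex k i).wt = 1)

/-- the invariant of a smooth centre of codimension `c` -/
def unitInv (c : ℕ) : Inv := toLex fun i => if i < c then mkKey 1 ⊥ else mkKey 0 ⊥

end Pool.Agent.P.MP_824f38_ag.N
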