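import Pool.Agent.P.MP_824f38_ag.N.BDer

/-! Row NEC-BCertOff: the certificate lifts to the blow-up, outside the centre

y' i = blU (y i) (ω j) if i < N and lab i = j, and C (y i) otherwise. Derivations lift by der_bl_off (D' = h^L coefDer D); levels are preserved. Drv q g implies Drv' q (C (h^k g)) for some k; base: C f = s^L blU f L.
The certificate as in row BCertOn with wt = 0. -/

set_option linter.unusedVariables false
set_option linter.unusedSectionVars false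
set_option linter.style.haveILetI false
set_option linter.dupNamespace false

namespace Pool.Agent.P.MP_824f38_ag.N

open LaurentPolynomial

variable {A : Type} [CommRing A] [Algebra ℂ A] [Algebra.FiniteType ℂ A] {𝓙 : ℕ → Ideal A}
  {L : ℕ} {σ : ℕ → A} {m : ℕ} {ω : ℕ → ℕ}

/-- the weight of the lifted element number `i` -/
private def offWt (Γ : WS A) (ω : ℕ → ℕ) (i : ℕ) : ℕ :=
  if i < Γ.N then WithBot.recBotCoe 0 ω (Γ.lab i) else 0

private theorem offWt_bot (Γ : WS A) (ω : ℕ → ℕ) {i : ℕ} (h : Γ.lab i = ⊥) :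
    offWt Γ ω i = 0 := by
  unfold offWt
  rw [h]
  split_ifs <;> rfl

private theorem offWt_lab (Γ : WS A) (ω : ℕ → ℕ) {i j : ℕ} (hi : i < Γ.N) (h : Γ.lab i = j) :
    offWt Γ ω i = ω j := by
  unfold offWt
  rw [if_pos hi, h]
  rfl

private theorem offWt_ok (G : BlGlob 𝓙 L σ m ω) {w : A →ₐ[ℂ] ℂ} {Γ : WS A} (hΓ : Γ.IsCtr σ w)
    (i : ℕ) : offWt Γ ω i ≤ L ∧ (offWt Γ ω i = 0 ∨ Γ.y i ∈ 𝓙 (offWt Γ ω i)) := by
  by_cases hi : i < Γ.N
  · cases hl : Γ.lab i with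
    | bot => rw [offWt_bot Γ ω hl]; exact ⟨Nat.zero_le _, Or.inl rfl⟩
    | coe j =>
      rw [offWt_lab Γ ω hi hl]
      have h1 : Γ.y i = σ j := hΓ.lab.eq ⟨i, hi⟩ j hl
      rw [h1]
      exact ⟨G.ω_le j, G.σ_mem j⟩
  · have h0 : offWt Γ ω i = 0 := by unfold offWt; rw [if_neg hi]
    rw [h0]
    exact ⟨Nat.zero_le _, Or.inl rfl⟩

private theorem off_dvd {r : A} {D : Derivation ℂ A A} {D' : Derivation ℂ (Bl 𝓙 L) (Bl 𝓙 L)}
    (hD' : ∀ (x : Bl 𝓙 L) (a : A) (n : ℤ),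
      (x : A[T;T⁻¹]) = C a * T n → (D' x : A[T;T⁻¹]) = C (r * D a) * T n)
    {l : ℕ} {f : A} (hl : l ≤ L) (hf : l = 0 ∨ f ∈ 𝓙 l) (hd : f ∣ D f) :
    blU 𝓙 L f l ∣ D' (blU 𝓙 L f l) := by
  obtain ⟨t, ht⟩ := hd
  refine ⟨blC 𝓙 L (r * t), Subtype.ext ?_⟩
  rw [hD' _ f l (blU_val 𝓙 L hl hf), MulMemClass.coe_mul, blU_val 𝓙 L hl hf, blC_val, ht]
  simp only [map_mul]
  ring

private theorem off_C {r : A} {D : Derivation ℂ A A} {D' : Derivation ℂ (Bl 𝓙 L) (Bl 𝓙 L)}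
    (hD' : ∀ (x : Bl 𝓙 L) (a : A) (n : ℤ),
      (x : A[T;T⁻¹]) = C a * T n → (D' x : A[T;T⁻¹]) = C (r * D a) * T n) (a : A) :
    D' (blC 𝓙 L a) = blC 𝓙 L (r * D a) := by
  refine Subtype.ext ?_
  rw [hD' _ a 0 (by rw [blC_val, T_zero, mul_one]), T_zero, mul_one, blC_val]

private theorem off_drv (G : BlGlob 𝓙 L σ m ω) {I : Ideal A} (hI : I ≤ 𝓙 L) {w : A →ₐ[ℂ] ℂ}
    {h : A} (hh : h ∈ 𝓙 L) (hw : w h ≠ 0) {Γ : WS A} (hΓ : Γ.IsCtr σ w) {i : ℕ} {q : ℚ} {g : A}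
    (H : Drv I Γ.y Γ.c i q g) : ∃ r, w r ≠ 0 ∧ Drv (blI 𝓙 L I)
      (fun t => blU 𝓙 L (Γ.y t) (offWt Γ ω t)) Γ.c i q (blC 𝓙 L (r * g)) := by
  induction H with
  | base f hf =>
    refine ⟨1, by simp, ?_⟩
    rw [one_mul, ← blS_pow_mul (le_refl L) (Or.inr (hI hf))]
    exact Drv.smul _ (Drv.base _ (Ideal.subset_span ⟨f, hf, rfl⟩))
  | smul b _ ih =>
    obtain ⟨r, hr, H⟩ := ih
    refine ⟨r, hr, ?_⟩
    rw [mul_left_comm, map_mul]
    exact Drv.smul _ H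
  | @add q g g' _ _ ih ih' =>
    obtain ⟨r, hr, H⟩ := ih
    obtain ⟨r', hr', H'⟩ := ih'
    refine ⟨r * r', by rw [map_mul]; exact mul_ne_zero hr hr', ?_⟩
    rw [show r * r' * (g + g') = r' * (r * g) + r * (r' * g') by ring, map_add, map_mul _ r',
      map_mul _ r (r' * g')]
    exact Drv.add (Drv.smul _ H) (Drv.smul _ H')
  | mono hq _ ih =>
    obtain ⟨r, hr, H⟩ := ih
    exact ⟨r, hr, Drv.mono hq H⟩
  | @der D l hl hD q g _ ih =>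
    obtain ⟨r, hr, H⟩ := ih
    obtain ⟨D', hD'⟩ := der_bl_off G hh D
    have hlev : Lev (fun t => blU 𝓙 L (Γ.y t) (offWt Γ ω t)) l D' := fun t ht =>
      off_dvd hD' (offWt_ok G hΓ t).1 (offWt_ok G hΓ t).2 (hD t ht)
    refine ⟨h ^ L * r ^ 2, by
      rw [map_mul, map_pow, map_pow]; exact mul_ne_zero (pow_ne_zero _ hw) (pow_ne_zero _ hr), ?_⟩
    have key : blC 𝓙 L (h ^ L * r ^ 2 * D g) = blC 𝓙 L r * D' (blC 𝓙 L (r * g)) +
        blC 𝓙 L (-(h ^ L * D r)) * blC 𝓙 L (r * g) := by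
      rw [off_C hD', ← map_mul, ← map_mul, ← map_add, D.leibniz, smul_eq_mul, smul_eq_mul]
      exact congrArg _ (by ring)
    rw [key]
    exact Drv.add (Drv.smul _ (Drv.der D' l hl hlev H))
      (Drv.smul _ (Drv.mono (sub_le_self _ (hΓ.sorted.nonneg l)) H))

theorem cert_bl_off (G : BlGlob 𝓙 L σ m ω) {I : Ideal A} (hI : I ≤ 𝓙 L) {w' : Bl 𝓙 L →ₐ[ℂ] ℂ}
    {h : A} (hh : h ∈ 𝓙 L) (hw : w' (blC 𝓙 L h) ≠ 0) {Γ : WS A}
    (hΓ : Γ.IsCtr σ (w'.comp (blC 𝓙 L))) (hc : Γ.Cert σ I (w'.comp (blC 𝓙 L))) :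
    ∃ y' : ℕ → Bl 𝓙 L, (⟨Γ.N, y', Γ.c, Γ.lab⟩ : WS (Bl 𝓙 L)).Cert
      (blσ 𝓙 L σ m ω) (blI 𝓙 L I) w' := by
  refine ⟨fun t => blU 𝓙 L (Γ.y t) (offWt Γ ω t), fun i hi => ?_⟩
  have hi' : 0 < Γ.c i := hi
  have hiN : i < Γ.N := by
    by_contra hn
    exact hi'.ne' (hΓ.sorted.pad i (not_lt.1 hn))
  have hw0 : (w'.comp (blC 𝓙 L)) h ≠ 0 := hw
  have hs : w' (blS 𝓙 L) ≠ 0 := by
    intro h0
    apply hw
    rw [← blS_pow_mul (le_refl L) (Or.inr hh), map_mul, map_pow, h0,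
      zero_pow (Nat.one_le_iff_ne_zero.1 G.pos), zero_mul]
  obtain ⟨u, D, b, hu, hD, hσ, hne, hbot, hlab⟩ := hc i hi'
  obtain ⟨r, hr, H⟩ := off_drv G hI hh hw0 hΓ hu
  obtain ⟨D', hD'⟩ := der_bl_off G hh D
  refine ⟨blC 𝓙 L (r * u), blC 𝓙 L r • D', blC 𝓙 L (h ^ L * (r * b - D r)), H, ?_, ?_, ?_, ?_, ?_⟩
  · intro t ht
    rw [Derivation.smul_apply, smul_eq_mul]
    exact Dvd.dvd.mul_left
      (off_dvd hD' (offWt_ok G hΓ t).1 (offWt_ok G hΓ t).2 (hD t ht)) _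
  · intro j hj
    by_cases hjm : j < m
    · have e : blσ 𝓙 L σ m ω j = blU 𝓙 L (σ j) (ω j) := by unfold blσ; rw [if_pos hjm]
      rw [e]
      rcases hσ j hj with h1 | h1
      · left
        rw [Derivation.smul_apply, smul_eq_mul]
        exact Dvd.dvd.mul_left (off_dvd hD' (G.ω_le j) (G.σ_mem j) h1) _
      · right
        intro h0
        apply h1
        change w' (blC 𝓙 L (σ j)) = 0
        rw [← blS_pow_mul (G.ω_le j) (G.σ_mem j), map_mul, h0, mul_zero]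
    · right
      unfold blσ
      rw [if_neg hjm]
      by_cases hjm' : j = m
      · rw [if_pos hjm']; exact hs
      · rw [if_neg hjm', map_one]; exact one_ne_zero
  · have key : (blC 𝓙 L r • D') (blC 𝓙 L (r * u)) +
        blC 𝓙 L (h ^ L * (r * b - D r)) * blC 𝓙 L (r * u) =
        blC 𝓙 L (h ^ L * r ^ 2 * (D u + b * u)) := by
      rw [Derivation.smul_apply, smul_eq_mul, off_C hD', ← map_mul, ← map_mul, ← map_add,
        D.leibniz, smul_eq_mul, smul_eq_mul]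
      exact congrArg _ (by ring)
    rw [key]
    change (w'.comp (blC 𝓙 L)) (h ^ L * r ^ 2 * (D u + b * u)) ≠ 0
    rw [map_mul, map_mul, map_pow, map_pow]
    exact mul_ne_zero (mul_ne_zero (pow_ne_zero _ hw0) (pow_ne_zero _ hr)) hne
  · intro hb
    have hb' : Γ.lab i = ⊥ := hb
    obtain ⟨ε, hε, hue⟩ := hbot hb'
    refine ⟨blC 𝓙 L (r * ε), ?_, ?_⟩
    · change (w'.comp (blC 𝓙 L)) (r * ε) ≠ 0
      rw [map_mul]
      exact mul_ne_zero hr hε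
    · change blC 𝓙 L (r * u) = blC 𝓙 L (r * ε) * blU 𝓙 L (Γ.y i) (offWt Γ ω i)
      rw [offWt_bot Γ ω hb', blU_zero, ← map_mul, hue, mul_assoc]
  · intro j hj
    have hj' : Γ.lab i = j := hj
    have h1 : Γ.y i = σ j := hlab j hj'
    have hjm : j < m := by
      by_contra hn
      have h2 : (w'.comp (blC 𝓙 L)) (Γ.y i) = 0 := hΓ.lc.van ⟨i, hiN⟩
      rw [h1, G.one j (not_lt.1 hn), map_one] at h2
      exact one_ne_zero h2
    change blU 𝓙 L (Γ.y i) (offWt Γ ω i) = blσ 𝓙 L σ m ω j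
    unfold blσ
    rw [if_pos hjm, offWt_lab Γ ω hiN hj', h1]

end Pool.Agent.P.MP_824f38_ag.N
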