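import Pool.Agent.P.MP_824f38_ag.N.BDer

/-! Row NEC-BCertOn: the certificate lifts to the blow-up, over the centre

Let w = w'.comp blC, y' i = blU (y i) (wt i) (y' i = C (y i) for i ≥ N, where wt i = 0). A derivation D of level l ≤ i lifts by der_bl with d = wt l (D (y t) is in J (c t) for t < l, and c t ≤ c l for t ≥ l) to D' of level l.
Induction on Drv: Drv q g implies, for all n : ℕ with n ≤ q L, there are h with w h ≠ 0 and G with Drv' (n / L) G and G = C (h g) T^n. base: blU f L times s^(L-n). der: use n + wt l; with G = C (h g) T^(n + wt l),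
D' G = C (h' h D g) T^n + C (h' D h) s^(wt l) C g T^(n + wt l), so C h D' G - C (h' D h) s^(wt l) G = C (h' h² D g) T^n. For the certificate: u' = C (h u) T^(wt i), D'' = C h • D', b' = C (h' (h b - D h)) s^(wt i), so that
D'' u' + b' u' = C (h' h² (D u + b u)). D' kills s; blσ j divides D' (blσ j) if σ j divides D (σ j); if w (σ j) ≠ 0 then w' (blσ j) ≠ 0. -/

set_option linter.unusedVariables false
set_option linter.unusedSectionVars false
set_option linter.style.haveILetI false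
set_option linter.dupNamespace false

namespace Pool.Agent.P.MP_824f38_ag.N

open LaurentPolynomial

variable {A : Type} [CommRing A] [Algebra ℂ A] [Algebra.FiniteType ℂ A] {𝓙 : ℕ → Ideal A}
  {L : ℕ} {σ : ℕ → A} {m : ℕ} {ω : ℕ → ℕ}

private theorem bco_S_pow (d : ℕ) : ((blS 𝓙 L ^ d : Bl 𝓙 L) : A[T;T⁻¹]) = T (-(d : ℤ)) := by
  rw [SubmonoidClass.coe_pow, blS_val, T_pow]
  simp

private theorem bco_mul (a b : A) (n k : ℤ) :
    (C a * T n : A[T;T⁻¹]) * (C b * T k) = C (a * b) * T (n + k) := by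
  rw [map_mul, T_add]
  ring

private theorem bco_CS (a : A) (d : ℕ) :
    ((blC 𝓙 L a * blS 𝓙 L ^ d : Bl 𝓙 L) : A[T;T⁻¹]) = C a * T (-(d : ℤ)) := by
  rw [MulMemClass.coe_mul, blC_val, bco_S_pow]

private theorem bco_dvd {D : Derivation ℂ A A} {D' : Derivation ℂ (Bl 𝓙 L) (Bl 𝓙 L)} {h : A}
    {d : ℕ} (hD : ∀ (x : Bl 𝓙 L) (a : A) (n : ℤ), (x : A[T;T⁻¹]) = C a * T n →
      (D' x : A[T;T⁻¹]) = C (h * D a) * T (n - d))
    {x : Bl 𝓙 L} {a : A} {n : ℤ} (hx : (x : A[T;T⁻¹]) = C a * T n) (ha : a ∣ D a) :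
    x ∣ D' x := by
  obtain ⟨b, hb⟩ := ha
  refine ⟨blC 𝓙 L (h * b) * blS 𝓙 L ^ d, Subtype.ext ?_⟩
  rw [hD x a n hx, MulMemClass.coe_mul, hx, bco_CS, bco_mul, hb, sub_eq_add_neg,
    show h * (a * b) = a * (h * b) by ring]

private theorem bco_wt {w : A →ₐ[ℂ] ℂ} {Γ : WS A} {wt : ℕ → ℕ} (hL : 1 ≤ L)
    (H : BlLoc 𝓙 L σ m ω w Γ wt) (i : ℕ) : (wt i : ℚ) / L = Γ.c i := by
  have hL' : (L : ℚ) ≠ 0 := by exact_mod_cast (by omega : L ≠ 0)
  rw [H.wt_eq, mul_div_cancel_left₀ _ hL']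

private theorem bco_lift {w : A →ₐ[ℂ] ℂ} {Γ : WS A} {wt : ℕ → ℕ} (hL : 1 ≤ L)
    (H : BlLoc 𝓙 L σ m ω w Γ wt) {D : Derivation ℂ A A} {l : ℕ} (hD : Lev Γ.y l D) :
    ∃ (h : A) (D' : Derivation ℂ (Bl 𝓙 L) (Bl 𝓙 L)), w h ≠ 0 ∧
      (∀ (x : Bl 𝓙 L) (a : A) (n : ℤ), (x : A[T;T⁻¹]) = C a * T n →
        (D' x : A[T;T⁻¹]) = C (h * D a) * T (n - (wt l : ℕ))) ∧
      Lev (fun i => blU 𝓙 L (Γ.y i) (wt i)) l D' := by
  obtain ⟨h, D', h0, hD'⟩ := der_bl hL H D (wt l) (fun i hi => by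
    rw [bco_wt hL H]
    refine le_sat _ _ ?_
    rcases lt_or_ge i l with hil | hil
    · have h1 : Γ.y i ∈ Γ.J (Γ.c i) := mem_JJ_self Γ.yF Γ.cF ⟨i, hi⟩
      have h2 : Γ.J (Γ.c i) ≤ Γ.J (Γ.c i - Γ.c l) :=
        JJ_anti Γ.yF Γ.cF (by have := H.ctr.sorted.nonneg l; linarith)
      exact Ideal.mem_of_dvd _ (hD i hil) (h2 h1)
    · have h1 : Γ.c i ≤ Γ.c l := H.ctr.sorted.anti hil
      have h2 : Γ.J (Γ.c i - Γ.c l) = ⊤ := JJ_nonpos Γ.yF Γ.cF (by linarith)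
      rw [h2]
      exact Submodule.mem_top)
  exact ⟨h, D', h0, hD', fun t ht => bco_dvd hD' (blU_val 𝓙 L (H.wt_le t) (H.mem t)) (hD t ht)⟩

private theorem bco_drv {w : A →ₐ[ℂ] ℂ} {Γ : WS A} {wt : ℕ → ℕ} (hL : 1 ≤ L) {I : Ideal A}
    (hI : I ≤ 𝓙 L) (H : BlLoc 𝓙 L σ m ω w Γ wt) {i : ℕ} {q : ℚ} {g : A}
    (hg : Drv I Γ.y Γ.c i q g) : ∀ n : ℕ, (n : ℚ) ≤ q * L → ∃ (h : A) (G : Bl 𝓙 L), w h ≠ 0 ∧
      Drv (blI 𝓙 L I) (fun i => blU 𝓙 L (Γ.y i) (wt i)) Γ.c i (n / L) G ∧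
      (G : A[T;T⁻¹]) = C (h * g) * T (n : ℤ) := by
  have hL0 : (0 : ℚ) < L := by exact_mod_cast (by omega : 0 < L)
  induction hg with
  | base f hf =>
    intro n hn
    have hn' : n ≤ L := by
      rw [one_mul] at hn
      exact_mod_cast hn
    refine ⟨1, blS 𝓙 L ^ (L - n) * blU 𝓙 L f L, by simp, ?_, ?_⟩
    · refine Drv.smul _ (Drv.mono ?_ (Drv.base _ (Ideal.subset_span ⟨f, hf, rfl⟩)))
      rw [div_le_one hL0]
      exact_mod_cast hn'
    · rw [MulMemClass.coe_mul, bco_S_pow, blU_val 𝓙 L le_rfl (Or.inr (hI hf)), one_mul,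
        mul_left_comm, ← T_add]
      have e : -((L - n : ℕ) : ℤ) + (L : ℤ) = n := by omega
      rw [e]
  | smul b _ ih =>
    intro n hn
    obtain ⟨h, G, h0, hG, e⟩ := ih n hn
    refine ⟨h, blC 𝓙 L b * G, h0, Drv.smul _ hG, ?_⟩
    rw [MulMemClass.coe_mul, blC_val, e, ← mul_assoc, ← map_mul, mul_left_comm]
  | add _ _ ih ih' =>
    intro n hn
    obtain ⟨h, G, h0, hG, e⟩ := ih n hn
    obtain ⟨h', G', h0', hG', e'⟩ := ih' n hn
    refine ⟨h * h', blC 𝓙 L h' * G + blC 𝓙 L h * G', by rw [map_mul]; exact mul_ne_zero h0 h0',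
      Drv.add (Drv.smul _ hG) (Drv.smul _ hG'), ?_⟩
    rw [AddMemClass.coe_add, MulMemClass.coe_mul, MulMemClass.coe_mul, blC_val, blC_val, e, e']
    simp only [map_mul, map_add]
    ring
  | mono hq _ ih =>
    intro n hn
    exact ih n (hn.trans (mul_le_mul_of_nonneg_right hq hL0.le))
  | @der D l hl hD q g _ ih =>
    intro n hn
    obtain ⟨h, G, h0, hG, e⟩ := ih (n + wt l) (by
      rw [Nat.cast_add, H.wt_eq]
      linarith)
    obtain ⟨h', D', h0', hD', hlev⟩ := bco_lift hL H hD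
    have e1 : ((n + wt l : ℕ) : ℚ) / L - Γ.c l = n / L := by
      rw [Nat.cast_add, add_div, bco_wt hL H, add_sub_cancel_right]
    have d1 := Drv.der D' l hl hlev hG
    rw [e1] at d1
    have d2 : Drv (blI 𝓙 L I) (fun i => blU 𝓙 L (Γ.y i) (wt i)) Γ.c i (n / L) G :=
      Drv.mono (by rw [← e1]; have := H.ctr.sorted.nonneg l; linarith) hG
    refine ⟨h' * h * h, blC 𝓙 L h * D' G + blC 𝓙 L (-(h' * D h)) * blS 𝓙 L ^ wt l * G,
      by rw [map_mul, map_mul]; exact mul_ne_zero (mul_ne_zero h0' h0) h0,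
      Drv.add (Drv.smul _ d1) (Drv.smul _ d2), ?_⟩
    have e2 : ((n + wt l : ℕ) : ℤ) - (wt l : ℕ) = n := by omega
    have e3 : -((wt l : ℕ) : ℤ) + ((n + wt l : ℕ) : ℤ) = n := by omega
    rw [AddMemClass.coe_add, MulMemClass.coe_mul, MulMemClass.coe_mul, blC_val, hD' G _ _ e, bco_CS,
      e, bco_mul, e2, e3, ← mul_assoc, ← map_mul, ← add_mul, ← map_add, Derivation.leibniz]
    simp only [smul_eq_mul]
    rw [show h * (h' * (h * D g + g * D h)) + -(h' * D h) * (h * g) = h' * h * h * D g by ring]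

theorem cert_bl_on (G : BlGlob 𝓙 L σ m ω) {I : Ideal A} (hI : I ≤ 𝓙 L) {w' : Bl 𝓙 L →ₐ[ℂ] ℂ}
    {Γ : WS A} {wt : ℕ → ℕ} (H : BlLoc 𝓙 L σ m ω (w'.comp (blC 𝓙 L)) Γ wt)
    (hc : Γ.Cert σ I (w'.comp (blC 𝓙 L))) :
    (⟨Γ.N, fun i => blU 𝓙 L (Γ.y i) (wt i), Γ.c, Γ.lab⟩ : WS (Bl 𝓙 L)).Cert
      (blσ 𝓙 L σ m ω) (blI 𝓙 L I) w' := by
  intro i hi
  have hL := G.pos
  have hL0 : (0 : ℚ) < L := by exact_mod_cast (by omega : 0 < L)
  obtain ⟨u, D, b, hu, hD, hσ, hw, hbot, hlab⟩ := hc i hi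
  obtain ⟨h, U, h0, hU, e⟩ := bco_drv hL hI H hu (wt i) (by rw [H.wt_eq, mul_comm])
  rw [bco_wt hL H] at hU
  obtain ⟨h', D', h0', hD', hlev⟩ := bco_lift hL H hD
  have hsm : ∀ x, (blC 𝓙 L h • D') x = blC 𝓙 L h * D' x := fun x => by
    rw [Derivation.smul_apply, smul_eq_mul]
  refine ⟨U, blC 𝓙 L h • D', blC 𝓙 L (h' * (h * b - D h)) * blS 𝓙 L ^ wt i, hU, ?_, ?_, ?_, ?_, ?_⟩
  · intro t ht
    rw [hsm]
    exact Dvd.dvd.mul_left (hlev t ht) _
  · intro j hj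
    rw [hsm]
    unfold blσ
    split_ifs with h1 h2
    · rcases hσ j hj with h3 | h3
      · exact Or.inl (Dvd.dvd.mul_left
          (bco_dvd hD' (blU_val 𝓙 L (G.ω_le j) (G.σ_mem j)) h3) _)
      · rw [H.off j h3, blU_zero]
        exact Or.inr h3
    · refine Or.inl (Dvd.dvd.mul_left (bco_dvd hD' (a := 1) (n := -1) ?_ (one_dvd _)) _)
      rw [blS_val, map_one, one_mul]
    · exact Or.inl (one_dvd _)
  · have e1 : (blC 𝓙 L h • D') U + blC 𝓙 L (h' * (h * b - D h)) * blS 𝓙 L ^ wt i * U =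
        blC 𝓙 L (h' * h * h * (D u + b * u)) := by
      refine Subtype.ext ?_
      rw [hsm, AddMemClass.coe_add, MulMemClass.coe_mul, MulMemClass.coe_mul, blC_val,
        hD' U _ _ e, bco_CS, e, bco_mul, sub_self, neg_add_cancel, T_zero, mul_one, mul_one,
        ← map_mul, ← map_add, blC_val, Derivation.leibniz]
      simp only [smul_eq_mul]
      rw [show h * (h' * (h * D u + u * D h)) + h' * (h * b - D h) * (h * u) =
        h' * h * h * (D u + b * u) by ring]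
    rw [e1]
    change (w'.comp (blC 𝓙 L)) _ ≠ 0
    rw [map_mul, map_mul, map_mul]
    exact mul_ne_zero (mul_ne_zero (mul_ne_zero h0' h0) h0) hw
  · intro hl
    obtain ⟨ε, hε, rfl⟩ := hbot hl
    refine ⟨blC 𝓙 L (h * ε), ?_, Subtype.ext ?_⟩
    · change (w'.comp (blC 𝓙 L)) _ ≠ 0
      rw [map_mul]
      exact mul_ne_zero h0 hε
    · change _ = ((blC 𝓙 L (h * ε) * blU 𝓙 L (Γ.y i) (wt i) : Bl 𝓙 L) : A[T;T⁻¹])
      rw [e, MulMemClass.coe_mul, blC_val, blU_val 𝓙 L (H.wt_le i) (H.mem i), ← mul_assoc,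
        ← mul_assoc, ← map_mul]
  · intro j hj
    have hiN : i < Γ.N := by
      by_contra hn
      have := H.ctr.sorted.pad i (by omega)
      exact hi.ne' this
    have hy := hlab j hj
    have hjm : j < m := by
      by_contra hn
      have h1 := H.ctr.lc.van ⟨i, hiN⟩
      change (w'.comp (blC 𝓙 L)) (Γ.y i) = 0 at h1
      rw [hy, G.one j (by omega), map_one] at h1
      exact one_ne_zero h1
    change blU 𝓙 L (Γ.y i) (wt i) = _
    rw [blσ, if_pos hjm, hy, H.lab i j hiN hj]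

end Pool.Agent.P.MP_824f38_ag.N
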