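import Pool.Agent.P.MP_824f38_ag.N.BGen

/-! Row NEC-BDer: derivations on the cobordant blow-up

exists_coefDer, exists_degDer: coefficientwise D, and T d/dT, on A[T;T⁻¹] (define on single n a; Leibniz by induction). restrict_der: a derivation of an algebra that maps generators of a subalgebra into it restricts
(Algebra.adjoin_induction). der_bl: D̃ = T^(-d) coefDer D maps the generators of the subalgebra B' of bl_loc_gen into Bl (exists_bl_of_mem_J with a uniform denominator for the finitely many D (y i));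
Bl is generated by finitely many x_k with h^n x_k in B', and h^(n+1) D̃ x = h D̃ (h^n x) - n h^n (D h) s^d x. euler_bl: use T (Σ wt i y i E i~ - Δ T d/dT): it kills the y i T^(wt i), sends s to Δ and C a to
Σ wt i (E i a) (y i T^(wt i)) s^(wt i - 1). der_bl_off: C (h^l D f) T^l = C (D f) (C h T)^l. -/

set_option linter.unusedVariables false
set_option linter.unusedSectionVars false
set_option linter.style.haveILetI false
set_option linter.dupNamespace false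

namespace Pool.Agent.P.MP_824f38_ag.N

open LaurentPolynomial

variable {A : Type} [CommRing A] [Algebra ℂ A] [Algebra.FiniteType ℂ A] {𝓙 : ℕ → Ideal A}
  {L : ℕ} {σ : ℕ → A} {m : ℕ} {ω : ℕ → ℕ}

omit [Algebra.FiniteType ℂ A] in
theorem bder_exists (φ : ℤ → A →ₗ[ℂ] A)
    (hφ : ∀ m n a b, φ (m + n) (a * b) = a * φ n b + b * φ m a) :
    ∃ D' : Derivation ℂ A[T;T⁻¹] A[T;T⁻¹], ∀ (a : A) (n : ℤ), D' (C a * T n) = C (φ n a) * T n := by
  let Φ : A[T;T⁻¹] →ₗ[ℂ] A[T;T⁻¹] :=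
    (Finsupp.lsum ℂ fun n : ℤ => (AddMonoidAlgebra.lsingle n : A →ₗ[ℂ] A[T;T⁻¹]) ∘ₗ φ n) ∘ₗ
      (AddMonoidAlgebra.coeffLinearEquiv ℂ).toLinearMap
  have hΦ : ∀ (a : A) (n : ℤ), Φ (C a * T n) = C (φ n a) * T n := by
    intro a n
    rw [← single_eq_C_mul_T, ← single_eq_C_mul_T]
    exact Finsupp.lsum_single ℂ
      (fun n : ℤ => (AddMonoidAlgebra.lsingle n : A →ₗ[ℂ] A[T;T⁻¹]) ∘ₗ φ n) n a
  refine ⟨Derivation.mk' Φ fun x z => ?_, hΦ⟩
  simp only [smul_eq_mul]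
  induction x using LaurentPolynomial.induction_on' with
  | add p q hp hq => rw [add_mul, map_add, map_add, hp, hq]; ring
  | C_mul_T m a =>
    induction z using LaurentPolynomial.induction_on' with
    | add p q hp hq => rw [mul_add, map_add, map_add, hp, hq]; ring
    | C_mul_T n b =>
      have e : C a * T m * (C b * T n) = (C (a * b) * T (m + n) : A[T;T⁻¹]) := by
        rw [map_mul, T_add]; ring
      rw [e, hΦ, hΦ, hΦ, hφ, map_add, map_mul, map_mul, T_add]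
      ring

theorem exists_coefDer (D : Derivation ℂ A A) : ∃ D' : Derivation ℂ A[T;T⁻¹] A[T;T⁻¹],
    ∀ (a : A) (n : ℤ), D' (C a * T n) = C (D a) * T n := by
  exact bder_exists (fun _ => D.toLinearMap) fun _ _ a b => by simp

theorem exists_degDer (A : Type) [CommRing A] [Algebra ℂ A] :
    ∃ D' : Derivation ℂ A[T;T⁻¹] A[T;T⁻¹],
      ∀ (a : A) (n : ℤ), D' (C a * T n) = n • (C a * T n) := by
  obtain ⟨D', h⟩ := bder_exists (A := A) (fun n => n • LinearMap.id) fun m n a b => by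
    simp only [LinearMap.smul_apply, LinearMap.id_apply]
    simp only [zsmul_eq_mul]
    push_cast
    ring
  refine ⟨D', fun a n => ?_⟩
  rw [h, LinearMap.smul_apply, LinearMap.id_apply, map_zsmul, smul_mul_assoc]

theorem bder_restrict {B : Type} [CommRing B] [Algebra ℂ B] (D : Derivation ℂ B B)
    (S : Subalgebra ℂ B) (h : ∀ x ∈ S, D x ∈ S) :
    ∃ D' : Derivation ℂ S S, ∀ x, (D' x : B) = D x := by
  let Φ : S →ₗ[ℂ] S :=
    { toFun := fun x => ⟨D x, h x x.2⟩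
      map_add' := fun x z => Subtype.ext (by simp)
      map_smul' := fun c x => Subtype.ext (by simp) }
  exact ⟨Derivation.mk' Φ fun x z => Subtype.ext (by simp [Φ]), fun x => rfl⟩

theorem bder_adjoin {B : Type} [CommRing B] [Algebra ℂ B] (D : Derivation ℂ B B)
    (S : Subalgebra ℂ B) (t : Set S) (h : ∀ x ∈ t, D x ∈ S) (x : S)
    (hx : x ∈ Algebra.adjoin ℂ t) : D x ∈ S := by
  induction hx using Algebra.adjoin_induction with
  | mem x hx => exact h x hx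
  | algebraMap r =>
    rw [Subalgebra.coe_algebraMap, D.map_algebraMap]; exact S.zero_mem
  | add x z _ _ hx hz =>
    rw [Subalgebra.coe_add, map_add]; exact S.add_mem hx hz
  | mul x z _ _ hx hz =>
    rw [Subalgebra.coe_mul, D.leibniz, smul_eq_mul, smul_eq_mul]
    exact S.add_mem (S.mul_mem x.2 hz) (S.mul_mem z.2 hx)

theorem restrict_der {B : Type} [CommRing B] [Algebra ℂ B] (D : Derivation ℂ B B) (s : Set B)
    (h : ∀ x ∈ s, D x ∈ Algebra.adjoin ℂ s) :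
    ∃ D' : Derivation ℂ (Algebra.adjoin ℂ s) (Algebra.adjoin ℂ s), ∀ x, (D' x : B) = D x := by
  refine bder_restrict D _ fun x hx => ?_
  induction hx using Algebra.adjoin_induction with
  | mem x hx => exact h x hx
  | algebraMap r => rw [D.map_algebraMap]; exact zero_mem _
  | add x z _ _ hx hz => rw [map_add]; exact add_mem hx hz
  | mul x z h1 h2 hx hz =>
    rw [D.leibniz, smul_eq_mul, smul_eq_mul]
    exact add_mem (mul_mem h1 hz) (mul_mem h2 hx)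

theorem bder_sum {B ι : Type} [CommRing B] [Algebra ℂ B] (s : Finset ι)
    (f : ι → Derivation ℂ B B) (x : B) : (∑ i ∈ s, f i) x = ∑ i ∈ s, f i x := by
  have := map_sum (Derivation.coeFnAddMonoidHom (R := ℂ) (A := B) (M := B)) f s
  exact (congrFun this x).trans (Finset.sum_apply x s _)

theorem bder_C_mem (𝓙 : ℕ → Ideal A) (L : ℕ) (a : A) : C a ∈ Bl 𝓙 L := (blC 𝓙 L a).2

theorem bder_T_mem (𝓙 : ℕ → Ideal A) (L : ℕ) (d : ℕ) : (T (-(d : ℤ)) : A[T;T⁻¹]) ∈ Bl 𝓙 L := by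
  have := (Bl 𝓙 L).pow_mem (blS 𝓙 L).2 d
  rwa [blS_val, T_pow, mul_neg_one] at this

/-- a derivation that maps the local generators into the blow-up preserves it after clearing a
denominator -/
theorem bder_loc {w : A →ₐ[ℂ] ℂ} {Γ : WS A} {wt : ℕ → ℕ} (hL : 1 ≤ L)
    (H : BlLoc 𝓙 L σ m ω w Γ wt) (D : Derivation ℂ A[T;T⁻¹] A[T;T⁻¹])
    (h0 : ∀ a, D (C a) ∈ Bl 𝓙 L) (h1 : D (T (-1)) ∈ Bl 𝓙 L)
    (h2 : ∀ i, i < Γ.N → D (C (Γ.y i) * T (wt i : ℤ)) ∈ Bl 𝓙 L) :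
    ∃ (h : A) (D' : Derivation ℂ (Bl 𝓙 L) (Bl 𝓙 L)), w h ≠ 0 ∧
      ∀ x : Bl 𝓙 L, (D' x : A[T;T⁻¹]) = C h * D x := by
  obtain ⟨h, hw, hg, -⟩ := bl_loc_gen hL H
  have k1 : ∀ x : Bl 𝓙 L, ∃ n : ℕ, C h ^ n * D x ∈ Bl 𝓙 L := by
    intro x
    obtain ⟨n, hn⟩ := hg x
    refine ⟨n, ?_⟩
    have a1 := bder_adjoin D (Bl 𝓙 L) _ (by
      rintro z ((⟨a, rfl⟩ | rfl) | ⟨i, rfl⟩)
      · exact h0 a
      · exact h1
      · beta_reduce
        rw [blU_val 𝓙 L (H.wt_le i) (H.mem i)]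
        exact h2 i i.2) _ hn
    rw [Subalgebra.coe_mul, Subalgebra.coe_pow, blC_val, D.leibniz, smul_eq_mul,
      smul_eq_mul] at a1
    have a2 : (x : A[T;T⁻¹]) * D (C h ^ n) ∈ Bl 𝓙 L :=
      (Bl 𝓙 L).mul_mem x.2 (by rw [← map_pow]; exact h0 _)
    simpa using (Bl 𝓙 L).sub_mem a1 a2
  choose n hn using k1
  obtain ⟨t, ht⟩ := (ft_bl 𝓙 L).out
  have k2 : ∀ x : Bl 𝓙 L, ((C (h ^ t.sup n) : A[T;T⁻¹]) • D) x ∈ Bl 𝓙 L := by
    intro x
    refine bder_adjoin _ _ (t : Set (Bl 𝓙 L)) (fun z hz => ?_) x (ht ▸ Algebra.mem_top)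
    obtain ⟨e, he⟩ := Nat.exists_eq_add_of_le (Finset.le_sup (f := n) (Finset.mem_coe.1 hz))
    rw [Derivation.smul_apply, smul_eq_mul, he, add_comm, pow_add, map_mul, mul_assoc, map_pow C h (n z)]
    exact (Bl 𝓙 L).mul_mem (bder_C_mem 𝓙 L _) (hn z)
  obtain ⟨D', hD'⟩ := bder_restrict _ (Bl 𝓙 L) fun x hx => k2 ⟨x, hx⟩
  refine ⟨h ^ t.sup n, D', by rw [map_pow]; exact pow_ne_zero _ hw, fun x => ?_⟩
  rw [hD', Derivation.smul_apply, smul_eq_mul]

theorem der_bl {w : A →ₐ[ℂ] ℂ} {Γ : WS A} {wt : ℕ → ℕ} (hL : 1 ≤ L)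
    (H : BlLoc 𝓙 L σ m ω w Γ wt) (D : Derivation ℂ A A) (d : ℕ)
    (hD : ∀ i, i < Γ.N → D (Γ.y i) ∈ sat w (Γ.J (Γ.c i - d / L))) :
    ∃ (h : A) (D' : Derivation ℂ (Bl 𝓙 L) (Bl 𝓙 L)), w h ≠ 0 ∧
      ∀ (x : Bl 𝓙 L) (a : A) (n : ℤ), (x : A[T;T⁻¹]) = C a * T n →
        (D' x : A[T;T⁻¹]) = C (h * D a) * T (n - d) := by
  obtain ⟨E, hE⟩ := exists_coefDer D
  choose k hk0 hk using fun i : Fin Γ.N => mem_sat.1 (hD i i.2)
  have hv : ∀ (a : A) (n : ℤ), ((C (∏ i, k i) * T (-(d : ℤ)) : A[T;T⁻¹]) • E) (C a * T n) =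
      C ((∏ i, k i) * D a) * T (n - d) := by
    intro a n
    rw [Derivation.smul_apply, smul_eq_mul, hE, map_mul, T_sub]
    ring
  obtain ⟨h, D', hw, hD'⟩ := bder_loc hL H ((C (∏ i, k i) * T (-(d : ℤ)) : A[T;T⁻¹]) • E)
    (fun a => by
      have := hv a 0
      rw [T_zero, mul_one, zero_sub] at this
      rw [this]
      exact mul_mem (bder_C_mem 𝓙 L _) (bder_T_mem 𝓙 L d))
    (by
      have := hv 1 (-1)
      rw [map_one, one_mul, D.map_one_eq_zero, mul_zero, map_zero, zero_mul] at this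
      rw [this]
      exact zero_mem _)
    (fun i hi => by
      rw [hv]
      refine exists_bl_of_mem_J hL H ?_
      have hL' : (L : ℚ) ≠ 0 := by exact_mod_cast (show L ≠ 0 by omega)
      have e : ((((wt i : ℤ) - (d : ℤ) : ℤ) : ℚ)) / L = Γ.c i - d / L := by
        push_cast
        rw [H.wt_eq i]
        field_simp
      rw [e, ← Finset.prod_erase_mul _ _ (Finset.mem_univ (⟨i, hi⟩ : Fin Γ.N)), mul_assoc]
      exact Ideal.mul_mem_left _ _ (hk ⟨i, hi⟩))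
  refine ⟨h * ∏ i, k i, D', ?_, fun x a n hx => ?_⟩
  · rw [map_mul, map_prod]
    exact mul_ne_zero hw (Finset.prod_ne_zero_iff.2 fun i _ => hk0 i)
  · rw [hD', hx, hv, ← mul_assoc, ← map_mul, mul_assoc h]

theorem euler_bl {w : A →ₐ[ℂ] ℂ} {Γ : WS A} {wt : ℕ → ℕ} (hL : 1 ≤ L)
    (H : BlLoc 𝓙 L σ m ω w Γ wt) : ∃ (h : A) (D' : Derivation ℂ (Bl 𝓙 L) (Bl 𝓙 L)), w h ≠ 0 ∧
      D' (blS 𝓙 L) = blC 𝓙 L h ∧ ∀ i, i < Γ.N → D' (blU 𝓙 L (Γ.y i) (wt i)) = 0 := by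
  obtain ⟨E, Δ, hΔ, hE⟩ := H.ctr.lc.dual
  choose F hF using fun i => exists_coefDer (E i)
  obtain ⟨P, hP⟩ := exists_degDer A
  set D : Derivation ℂ A[T;T⁻¹] A[T;T⁻¹] := (T 1 : A[T;T⁻¹]) •
    ((∑ i : Fin Γ.N, (C ((wt i : A) * Γ.y i) : A[T;T⁻¹]) • F i) - (C Δ : A[T;T⁻¹]) • P) with hD
  have hv : ∀ (a : A) (n : ℤ), D (C a * T n) =
      C ((∑ i : Fin Γ.N, (wt i : A) * Γ.y i * E i a) - n * (Δ * a)) * T (n + 1) := by
    intro a n
    rw [hD, Derivation.smul_apply, Derivation.sub_apply, Derivation.smul_apply, hP,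
      bder_sum, map_sub, map_sum, T_add]
    simp only [Derivation.smul_apply, hF, smul_eq_mul, zsmul_eq_mul, map_mul, map_intCast,
      ← mul_assoc, ← Finset.sum_mul]
    ring
  have v1 : D (T (-1)) = C Δ := by
    have := hv 1 (-1)
    simpa using this
  have v2 : ∀ i, i < Γ.N → D (C (Γ.y i) * T (wt i : ℤ)) = 0 := by
    intro i hi
    have e : ∀ j : Fin Γ.N, E j (Γ.y i) = if j = ⟨i, hi⟩ then Δ else 0 := fun j => hE j ⟨i, hi⟩
    rw [hv]
    simp only [e, mul_ite, mul_zero, Finset.sum_ite_eq', Finset.mem_univ, if_true]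
    rw [show (wt i : A) * Γ.y i * Δ - ((wt i : ℤ) : A) * (Δ * Γ.y i) = 0 by push_cast; ring,
      map_zero, zero_mul]
  obtain ⟨h, D', hw, hD'⟩ := bder_loc hL H D
    (fun a => by
      have := hv a 0
      rw [T_zero, mul_one, zero_add, Int.cast_zero, zero_mul, sub_zero, map_sum,
        Finset.sum_mul] at this
      rw [this]
      refine Subalgebra.sum_mem _ fun i _ => ?_
      rcases Nat.eq_zero_or_pos (wt i) with h0 | h0
      · rw [h0, Nat.cast_zero, zero_mul, zero_mul, map_zero, zero_mul]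
        exact zero_mem _
      · obtain ⟨e, he⟩ := Nat.exists_eq_add_of_le h0
        have e1 : (C ((wt i : A) * Γ.y i * E i a) * T 1 : A[T;T⁻¹]) =
            C ((wt i : A) * E i a) * (C (Γ.y i) * T (wt i : ℤ)) * T (-(e : ℤ)) := by
          rw [show (1 : ℤ) = (wt i : ℤ) + -(e : ℤ) by omega, T_add]
          simp only [map_mul]
          ring
        rw [e1]
        exact mul_mem (mul_mem (bder_C_mem 𝓙 L _) (mem_Bl 𝓙 L (H.wt_le i) (H.mem i)))
          (bder_T_mem 𝓙 L e))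
    (by rw [v1]; exact bder_C_mem 𝓙 L _)
    (fun i hi => by rw [v2 i hi]; exact zero_mem _)
  refine ⟨h * Δ, D', by rw [map_mul]; exact mul_ne_zero hw hΔ, Subtype.ext ?_,
    fun i hi => Subtype.ext ?_⟩
  · rw [hD', blS_val, v1, blC_val, map_mul]
  · rw [hD', blU_val 𝓙 L (H.wt_le i) (H.mem i), v2 i hi, mul_zero, Subalgebra.coe_zero]

theorem der_bl_off (G : BlGlob 𝓙 L σ m ω) {h : A} (hh : h ∈ 𝓙 L) (D : Derivation ℂ A A) :
    ∃ D' : Derivation ℂ (Bl 𝓙 L) (Bl 𝓙 L), ∀ (x : Bl 𝓙 L) (a : A) (n : ℤ),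
      (x : A[T;T⁻¹]) = C a * T n → (D' x : A[T;T⁻¹]) = C (h ^ L * D a) * T n := by
  obtain ⟨E, hE⟩ := exists_coefDer D
  have hv : ∀ (a : A) (n : ℤ), ((C (h ^ L) : A[T;T⁻¹]) • E) (C a * T n) =
      C (h ^ L * D a) * T n := by
    intro a n
    rw [Derivation.smul_apply, smul_eq_mul, hE, map_mul, mul_assoc]
  have h1 : C h * T ((1 : ℕ) : ℤ) ∈ Bl 𝓙 L :=
    mem_Bl 𝓙 L G.pos (Or.inr (antitone_nat_of_succ_le G.anti G.pos hh))
  obtain ⟨D', hD'⟩ := restrict_der ((C (h ^ L) : A[T;T⁻¹]) • E)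
    (Set.range (C : A →+* A[T;T⁻¹]) ∪ {T (-1)} ∪
      {x | ∃ (l : ℕ) (f : A), 1 ≤ l ∧ l ≤ L ∧ f ∈ 𝓙 l ∧ x = C f * T (l : ℤ)}) (by
    rintro x ((⟨a, rfl⟩ | rfl) | ⟨l, f, l1, l2, hf, rfl⟩)
    · have := hv a 0
      rw [T_zero, mul_one, mul_one] at this
      rw [this]
      exact bder_C_mem 𝓙 L _
    · have := hv 1 (-1)
      rw [map_one, one_mul, D.map_one_eq_zero, mul_zero, map_zero, zero_mul] at this
      rw [this]
      exact zero_mem _
    · obtain ⟨e, he⟩ := Nat.exists_eq_add_of_le l2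
      have e1 : (C (h ^ L * D f) * T (l : ℤ) : A[T;T⁻¹]) =
          C (h ^ e * D f) * (C h * T ((1 : ℕ) : ℤ)) ^ l := by
        rw [mul_pow, T_pow, he, Nat.cast_one, mul_one]
        simp only [map_mul, map_pow]
        ring
      rw [hv, e1]
      exact mul_mem (bder_C_mem 𝓙 L _) (pow_mem h1 l))
  refine ⟨D', fun x a n hx => ?_⟩
  rw [← hv, ← hx]
  exact hD' x

theorem deg_bl (𝓙 : ℕ → Ideal A) (L : ℕ) : ∃ D' : Derivation ℂ (Bl 𝓙 L) (Bl 𝓙 L),
    ∀ (x : Bl 𝓙 L) (a : A) (n : ℤ), (x : A[T;T⁻¹]) = C a * T n → D' x = n • x := by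
  obtain ⟨P, hP⟩ := exists_degDer A
  obtain ⟨D', hD'⟩ := restrict_der P
    (Set.range (C : A →+* A[T;T⁻¹]) ∪ {T (-1)} ∪
      {x | ∃ (l : ℕ) (f : A), 1 ≤ l ∧ l ≤ L ∧ f ∈ 𝓙 l ∧ x = C f * T (l : ℤ)}) (by
    intro x hx
    have hx' := Algebra.subset_adjoin (R := ℂ) hx
    have : ∃ (a : A) (n : ℤ), x = C a * T n := by
      rcases hx with ((⟨a, rfl⟩ | rfl) | ⟨l, f, -, -, -, rfl⟩)
      · exact ⟨a, 0, by rw [T_zero, mul_one]⟩
      · exact ⟨1, -1, by rw [map_one, one_mul]⟩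
      · exact ⟨f, l, rfl⟩
    obtain ⟨a, n, rfl⟩ := this
    rw [hP]
    exact zsmul_mem hx' n)
  refine ⟨D', fun x a n hx => Subtype.ext ?_⟩
  rw [AddSubgroupClass.coe_zsmul, hx, ← hP, ← hx]
  exact hD' x

end Pool.Agent.P.MP_824f38_ag.N
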