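import Pool.Agent.P.MP_824f38_ag.N.LExch

/-! Row NEC-LMax: the certificate bounds every admissible centre

Induction on i (while 0 < Γ.c t for t < i): there is Θ' with IsCtr, the same N, c, lab and sat J as Θ, with Θ'.y t = Γ.y t
and Θ.key t = Γ.key t for t < i, or else Θ.inv < Γ.inv. Step: if Θ.key i < Γ.key i we are done. Otherwise Θ.c t ≤ Γ.c i for t ≥ i. A derivation
of level l ≤ i lowers the Θ'-weight by at most Γ.c l (der_sat), so Drv q g gives g in sat (Θ'.J q). Thus u in sat (Θ'.J (c i)), w u = 0,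
w (D u) ≠ 0, and lin_part gives t ≥ i with a t ≠ 0, w (D (y t)) ≠ 0, Θ.c t = Γ.c i; the label of t is ⊥ or Γ.lab i;
key t ≤ Γ.key i ≤ Θ.key i ≤ key t forces equality. If the label is j then Θ'.y i = σ j = Γ.y i. If it is ⊥, exchange y t with Γ.y i (exch with
the dual derivation E t) and swap the places t and i (same key). At the end the keys of Γ are the padding, the top key. -/

set_option linter.unusedVariables false
set_option linter.unusedSectionVars false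
set_option linter.style.haveILetI false
set_option linter.dupNamespace false

namespace Pool.Agent.P.MP_824f38_ag.N

variable {A : Type} [CommRing A] [Algebra ℂ A] [Algebra.FiniteType ℂ A] {w : A →ₐ[ℂ] ℂ}

private theorem mx_c_eq {Γ Θ : WS A} {s t : ℕ} (h : Θ.key s = Γ.key t) : Θ.c s = Γ.c t := by
  have h1 := congrArg Key.wt h
  rwa [WS.key, WS.key, mkKey_wt, mkKey_wt] at h1

private theorem mx_c_le {Γ Θ : WS A} {s t : ℕ} (h : Θ.key s ≤ Γ.key t) : Γ.c t ≤ Θ.c s := by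
  have h1 := wt_le_of_le h
  rwa [WS.key, WS.key, mkKey_wt, mkKey_wt] at h1

private theorem mx_lab_eq {Γ Θ : WS A} {s t : ℕ} (h : Θ.key s = Γ.key t) (h0 : 0 < Γ.c t) :
    Θ.lab s = Γ.lab t := by
  have h1 := congrArg Key.lab h
  rwa [WS.key, WS.key, mkKey_lab ((mx_c_eq h).trans_ne h0.ne'), mkKey_lab h0.ne'] at h1

private theorem mx_lt_N {Θ : WS A} (h : Θ.Sorted) {s : ℕ} (h0 : 0 < Θ.c s) : s < Θ.N :=
  lt_of_not_ge fun h1 => h0.ne' (h.pad s h1)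

private theorem mx_dvd {a b : A} (h : a ∣ b) (h0 : w a = 0) : w b = 0 := by
  obtain ⟨c, rfl⟩ := h
  rw [map_mul, h0, zero_mul]

private theorem mx_drv {I : Ideal A} {Γ Θ : WS A} (hΓ : Γ.Sorted) (hΘ : Θ.Sorted)
    (ha : I ≤ sat w (Θ.J 1)) {i : ℕ} (h : ∀ t, t < i → Θ.y t = Γ.y t ∧ Θ.key t = Γ.key t)
    (hk : Γ.key i ≤ Θ.key i) {q : ℚ} {g : A} (hg : Drv I Γ.y Γ.c i q g) :
    g ∈ sat w (Θ.J q) := by
  induction hg with
  | base f hf => exact ha hf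
  | smul b _ ih => exact Ideal.mul_mem_left _ b ih
  | add _ _ ih ih' => exact add_mem ih ih'
  | mono hq _ ih => exact sat_mono w (JJ_anti _ _ hq) ih
  | der D l hl hD _ ih =>
    refine der_sat D (hΓ.nonneg l) (fun s => le_sat w _ ?_) ih
    rcases lt_or_ge s.val l with hs | hs
    · obtain ⟨r, hr⟩ := hD s hs
      rw [← (h s (hs.trans_le hl)).1] at hr
      have h1 : D (Θ.yF s) = Θ.yF s * r := hr
      rw [h1]
      exact JJ_anti _ _ (sub_le_self _ (hΓ.nonneg l))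
        (Ideal.mul_mem_right _ _ (mem_JJ_self Θ.yF Θ.cF s))
    · have h1 : Θ.cF s ≤ Γ.c l := by
        show Θ.c s ≤ Γ.c l
        rcases lt_or_ge s.val i with h2 | h2
        · rw [mx_c_eq (h s h2).2]
          exact hΓ.anti hs
        · exact (hΘ.anti h2).trans ((mx_c_le hk).trans (hΓ.anti hl))
      rw [JJ_nonpos _ _ (sub_nonpos.2 h1)]
      exact Submodule.mem_top

private theorem mx_perm {ι : Type} [Fintype ι] [DecidableEq ι] (y : ι → A) (c : ι → ℚ) (e : ι ≃ ι)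
    (he : ∀ t, c (e t) = c t) (q : ℚ) : sat w (JJ (y ∘ e) c q) = sat w (JJ y c q) := by
  refine le_antisymm (JJ_le_of_mem (fun t => le_sat w _ ?_) q)
    (JJ_le_of_mem (fun t => le_sat w _ ?_) q)
  · rw [← he t]
    exact mem_JJ_self y c (e t)
  · have h1 := mem_JJ_self (y ∘ e) c (e.symm t)
    rwa [← he, Function.comp_apply, e.apply_symm_apply] at h1

private theorem mx_swap {σ : ℕ → A} {Θ : WS A} (hΘ : Θ.IsCtr σ w) (i s : Fin Θ.N)
    (hc : Θ.c s = Θ.c i) (hi : Θ.lab i = ⊥) (hs : Θ.lab s = ⊥) {v : A}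
    (H : LC w (Function.update Θ.yF s v))
    (hJ : ∀ q, sat w (JJ (Function.update Θ.yF s v) Θ.cF q) = sat w (Θ.J q)) :
    ∃ Θ' : WS A, Θ'.IsCtr σ w ∧ Θ'.key = Θ.key ∧ (∀ q, sat w (Θ'.J q) = sat w (Θ.J q)) ∧
      Θ'.y i = v ∧ ∀ t, t ≠ i.val → t ≠ s.val → Θ'.y t = Θ.y t := by
  obtain ⟨y, hy⟩ : ∃ y : ℕ → A, y = fun t => if t = i.val then v else
    if t = s.val then Θ.y i else Θ.y t := ⟨_, rfl⟩
  have h1 : y i = v := by rw [hy]; exact if_pos rfl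
  have h2 : ∀ t, t ≠ i.val → t ≠ s.val → y t = Θ.y t := fun t a b => by
    rw [hy]
    exact (if_neg a).trans (if_neg b)
  have h3 : (fun t : Fin Θ.N => y t) = Function.update Θ.yF s v ∘ Equiv.swap i s := by
    funext t
    rw [Function.comp_apply]
    rcases eq_or_ne t i with rfl | a
    · rw [Equiv.swap_apply_left, Function.update_self, h1]
    · rcases eq_or_ne t s with rfl | b
      · rw [Equiv.swap_apply_right, Function.update_of_ne a.symm, hy]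
        exact (if_neg fun e => a (Fin.ext e)).trans (if_pos rfl)
      · rw [Equiv.swap_apply_of_ne_of_ne a b, Function.update_of_ne b]
        exact h2 t (fun e => a (Fin.ext e)) fun e => b (Fin.ext e)
  have h4 : ∀ t, Θ.cF (Equiv.swap i s t) = Θ.cF t := by
    intro t
    rcases eq_or_ne t i with rfl | a
    · rw [Equiv.swap_apply_left]; exact hc
    · rcases eq_or_ne t s with rfl | b
      · rw [Equiv.swap_apply_right]; exact hc.symm
      · rw [Equiv.swap_apply_of_ne_of_ne a b]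
  refine ⟨⟨Θ.N, y, Θ.c, Θ.lab⟩, ⟨⟨hΘ.sorted.nonneg, hΘ.sorted.pad, hΘ.sorted.mono⟩, ?_,
    ⟨fun t j ht => ?_, hΘ.lab.ex⟩⟩, rfl, fun q => ?_, h1, h2⟩
  · show LC w fun t : Fin Θ.N => y t
    rw [h3]
    exact H.reindex _
  · have ht' : Θ.lab t = j := ht
    refine (h2 t (fun e => ?_) fun e => ?_).trans (hΘ.lab.eq t j ht)
    · rw [e, hi] at ht'
      exact WithBot.bot_ne_coe ht'
    · rw [e, hs] at ht'
      exact WithBot.bot_ne_coe ht'
  · show sat w (JJ (fun t : Fin Θ.N => y t) Θ.cF q) = _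
    rw [h3, mx_perm _ _ _ h4, hJ]

private theorem mx_step {σ : ℕ → A} {I : Ideal A} {Γ Θ : WS A} (hΓ : Γ.Sorted)
    (hΘ : Θ.IsCtr σ w) (ha : I ≤ sat w (Θ.J 1)) {i : ℕ} (h0 : 0 < Γ.c i) (hc : Γ.CertAt σ I w i)
    (h : ∀ t, t < i → Θ.y t = Γ.y t ∧ Θ.key t = Γ.key t) (hk : Γ.key i ≤ Θ.key i) :
    ∃ Θ' : WS A, Θ'.IsCtr σ w ∧ Θ'.key = Θ.key ∧ (∀ q, sat w (Θ'.J q) = sat w (Θ.J q)) ∧
      ∀ t, t < i + 1 → Θ'.y t = Γ.y t ∧ Θ.key t = Γ.key t := by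
  obtain ⟨u, D, b, hu, hD, hσ, hw, hb, hl⟩ := hc
  have u1 : u ∈ sat w (JJ Θ.yF Θ.cF (Γ.c i)) := mx_drv hΓ hΘ.sorted ha h hk hu
  have u0 : w u = 0 := sat_JJ_van hΘ.lc.van _ h0 u1
  rw [map_add, map_mul, u0, mul_zero, add_zero] at hw
  have cn : ∀ t, 0 ≤ Θ.cF t := fun t => hΘ.sorted.nonneg t
  obtain ⟨a, a1, a2⟩ := lin_part hΘ.lc cn u0 u1
  obtain ⟨s, -, hs⟩ := Finset.exists_ne_zero_of_sum_ne_zero (a2 D ▸ hw)
  have s1 : a s ≠ 0 := left_ne_zero_of_mul hs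
  have s2 : w (D (Θ.yF s)) ≠ 0 := right_ne_zero_of_mul hs
  have s3 : i ≤ s.val := by
    by_contra h1
    have h2 := hD s (lt_of_not_ge h1)
    rw [← (h s (lt_of_not_ge h1)).1] at h2
    exact s2 (mx_dvd h2 (hΘ.lc.van s))
  have s4 : Θ.c s = Γ.c i :=
    le_antisymm ((hΘ.sorted.anti s3).trans (mx_c_le hk)) (a1 s s1)
  have s5 : Θ.lab s ≤ Γ.lab i := by
    rcases eq_or_ne (Θ.lab s) ⊥ with e | e
    · rw [e]; exact bot_le
    · obtain ⟨j, hj⟩ := WithBot.ne_bot_iff_exists.1 e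
      have e1 : Θ.yF s = σ j := hΘ.lab.eq s j hj.symm
      have e2 : w (σ j) = 0 := e1 ▸ hΘ.lc.van s
      by_contra h1
      rcases hσ j (fun e3 => h1 (hj.symm.trans e3).le) with e3 | e3
      · exact s2 (e1 ▸ mx_dvd e3 e2)
      · exact e3 e2
  have k1 : Θ.key s ≤ Γ.key i :=
    (mkKey_le_iff (s4.trans_ne h0.ne') h0.ne' _ _).2 (Or.inr ⟨s4, s5⟩)
  have k2 : Θ.key i ≤ Θ.key s := hΘ.sorted.mono s3
  have k3 : Θ.key i = Γ.key i := le_antisymm (k2.trans k1) hk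
  have k4 : Θ.key s = Γ.key i := le_antisymm k1 (hk.trans k2)
  have iN : i < Θ.N := lt_of_le_of_lt s3 s.2
  have hkey : ∀ t, t < i + 1 → Θ.key t = Γ.key t := fun t ht => by
    rcases (Nat.lt_succ_iff.1 ht).eq_or_lt with rfl | e
    · exact k3
    · exact (h t e).2
  rcases eq_or_ne (Γ.lab i) ⊥ with e | e
  · obtain ⟨ε, e0, e1⟩ := hb e
    obtain ⟨E, Δ, d0, d1⟩ := hΘ.lc.dual
    have v0 : w (Γ.y i) = 0 := by
      rw [e1, map_mul] at u0
      exact (mul_eq_zero.1 u0).resolve_left e0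
    have v1 : Γ.y i ∈ sat w (JJ Θ.yF Θ.cF (Θ.cF s)) := by
      obtain ⟨k, k0, hk'⟩ := u1
      refine ⟨k * ε, by rw [map_mul]; exact mul_ne_zero k0 e0, ?_⟩
      rw [mul_assoc, ← e1, show Θ.cF s = Γ.c i from s4]
      exact hk'
    have d2 : ∀ t, t ≠ s → w (E s (Θ.yF t)) = 0 := fun t ht => by
      rw [d1, if_neg ht.symm, map_zero]
    have v2 : w (E s (Γ.y i)) ≠ 0 := by
      intro e2
      have e3 := a2 (E s)
      rw [Finset.sum_eq_single s (fun t _ ht => by rw [d2 t ht, mul_zero])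
        (fun hh => absurd (Finset.mem_univ s) hh), d1, if_pos rfl, e1, Derivation.leibniz,
        smul_eq_mul, smul_eq_mul, map_add, map_mul, map_mul, e2, v0, mul_zero, zero_mul,
        add_zero] at e3
      exact mul_ne_zero s1 d0 e3.symm
    obtain ⟨H, hJ⟩ := exch hΘ.lc cn s v0 v1 (E s) v2 d2
    obtain ⟨Θ', t1, t2, t3, t4, t5⟩ := mx_swap hΘ ⟨i, iN⟩ s (s4.trans (mx_c_eq k3).symm)
      ((mx_lab_eq k3 h0).trans e) ((mx_lab_eq k4 h0).trans e) H hJ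
    refine ⟨Θ', t1, t2, t3, fun t ht => ⟨?_, hkey t ht⟩⟩
    rcases (Nat.lt_succ_iff.1 ht).eq_or_lt with rfl | e2
    · exact t4
    · exact (t5 t e2.ne (e2.trans_le s3).ne).trans (h t e2).1
  · obtain ⟨j, hj⟩ := WithBot.ne_bot_iff_exists.1 e
    refine ⟨Θ, hΘ, rfl, fun _ => rfl, fun t ht => ⟨?_, hkey t ht⟩⟩
    rcases (Nat.lt_succ_iff.1 ht).eq_or_lt with rfl | e2
    · exact (hΘ.lab.eq ⟨t, iN⟩ j ((mx_lab_eq k3 h0).trans hj.symm)).trans (hl j hj.symm).symm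
    · exact (h t e2).1

private theorem mx_run {σ : ℕ → A} {I : Ideal A} {Γ Θ : WS A} (hΓ : Γ.Sorted)
    (hc : Γ.Cert σ I w) (hΘ : Θ.IsCtr σ w) (ha : I ≤ sat w (Θ.J 1)) (i : ℕ)
    (hi : ∀ t, t < i → 0 < Γ.c t) : Θ.inv < Γ.inv ∨
      ∃ Θ' : WS A, Θ'.IsCtr σ w ∧ Θ'.key = Θ.key ∧ (∀ q, sat w (Θ'.J q) = sat w (Θ.J q)) ∧
        ∀ t, t < i → Θ'.y t = Γ.y t ∧ Θ.key t = Γ.key t := by
  induction i with
  | zero => exact Or.inr ⟨Θ, hΘ, rfl, fun _ => rfl, fun t ht => absurd ht (Nat.not_lt_zero t)⟩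
  | succ i ih =>
    rcases ih fun t ht => hi t (Nat.lt_succ_of_lt ht) with h | ⟨Θ', t1, t2, t3, t4⟩
    · exact Or.inl h
    · rcases lt_or_ge (Θ.key i) (Γ.key i) with h | h
      · exact Or.inl ⟨i, fun t ht => (t4 t ht).2, h⟩
      · have h0 := hi i (Nat.lt_succ_self i)
        obtain ⟨Θ'', r1, r2, r3, r4⟩ := mx_step hΓ t1 (by rw [t3]; exact ha) h0 (hc i h0)
          (fun t ht => by rw [t2]; exact t4 t ht) (by rw [t2]; exact h)
        exact Or.inr ⟨Θ'', r1, r2.trans t2, fun q => (r3 q).trans (t3 q),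
          fun t ht => by rw [← t2]; exact r4 t ht⟩

theorem max_lemma {σ : ℕ → A} {I : Ideal A} {Γ Θ : WS A} (hΓ : Γ.Sorted) (hc : Γ.Cert σ I w)
    (hΘ : Θ.IsCtr σ w) (ha : I ≤ sat w (Θ.J 1)) : Θ.inv ≤ Γ.inv ∧ (Θ.inv = Γ.inv →
      (∀ i, 0 < Γ.c i → w (Γ.y i) = 0) ∧ ∀ q, sat w (Θ.J q) = sat w (Γ.J q)) := by
  classical
  have hex : ∃ i, Γ.c i = 0 := ⟨Γ.N, hΓ.pad _ le_rfl⟩
  have hpos : ∀ t, t < Nat.find hex → 0 < Γ.c t := fun t ht =>
    lt_of_le_of_ne (hΓ.nonneg t) (Nat.find_min hex ht ∘ Eq.symm)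
  have hz : ∀ t, Nat.find hex ≤ t → Γ.c t = 0 := fun t ht =>
    le_antisymm ((hΓ.anti ht).trans (Nat.find_spec hex).le) (hΓ.nonneg t)
  rcases mx_run hΓ hc hΘ ha _ hpos with h | ⟨Θ', t1, t2, t3, t4⟩
  · exact ⟨h.le, fun e => absurd e h.ne⟩
  · refine ⟨Pi.toLex_monotone fun t => ?_, fun e => ?_⟩
    · rcases lt_or_ge t (Nat.find hex) with ht | ht
      · exact (t4 t ht).2.le
      · have e1 : Γ.key t = mkKey 0 ⊥ := by
          rw [WS.key, hz t ht, mkKey, mkKey, if_pos rfl, if_pos rfl]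
        rw [e1]
        exact mkKey_le_pad (hΘ.sorted.nonneg t) _
    · have e1 : Θ'.key = Γ.key := t2.trans (toLex.injective e)
      have e2 : ∀ t, Θ'.c t = Γ.c t := fun t => mx_c_eq (congrFun e1 t)
      have e3 : ∀ t, 0 < Γ.c t → Θ'.y t = Γ.y t := fun t ht =>
        (t4 t (lt_of_not_ge fun h1 => ht.ne' (hz t h1))).1
      refine ⟨fun t ht => ?_, fun q => ?_⟩
      · rw [← e3 t ht]
        exact t1.lc.van ⟨t, mx_lt_N t1.sorted (e2 t ▸ ht)⟩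
      · rw [← t3, WS.J_congr t1.sorted hΓ e2 fun t ht => e3 t (e2 t ▸ ht)]

theorem good_unique {σ : ℕ → A} {I : Ideal A} {Γ Θ : WS A} (hΓ : Γ.Good σ I w)
    (hΘ : Θ.Good σ I w) : Θ.inv = Γ.inv ∧ ∀ q, sat w (Θ.J q) = sat w (Γ.J q) :=
  have h1 := max_lemma hΓ.ctr.sorted hΓ.cert hΘ.ctr hΘ.adm
  have h2 := max_lemma hΘ.ctr.sorted hΘ.cert hΓ.ctr hΓ.adm
  ⟨le_antisymm h1.1 h2.1, (h1.2 (le_antisymm h1.1 h2.1)).2⟩

end Pool.Agent.P.MP_824f38_ag.N
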