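import Pool.Agent.P.MP_824f38_ag.N.LRun
import Pool.Agent.P.MP_824f38_ag.N.LMax

/-! Row NEC-LNbhd: openness of coordinates, certificates and centres

lc_span: Ω is finitely generated and Ω / (ker w) Ω is spanned by the d y i (d f for f in ker w: h f = Σ b y); Nakayama
(Submodule.exists_sub_one_mem_and_smul_eq_zero_of_fg_of_le_smul). lc_open: with h Ω ≤ span d y and w' h ≠ 0, the point derivation
a ↦ a - w' a mod (ker w')² shows ker w' = span (y - w' y) + (ker w')²; Nakayama. good_open: new coordinates y i - w' (y i), labels kept where w' (y i) = 0 and ⊥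
elsewhere; h contains the σ j that do not vanish at w, a uniform denominator for adm (exists_unif), and the h of cert_open, lc_open; use Drv.congr, J_congr. -/

set_option linter.unusedVariables false
set_option linter.unusedSectionVars false
set_option linter.style.haveILetI false
set_option linter.dupNamespace false

namespace Pool.Agent.P.MP_824f38_ag.N

variable {A : Type} [CommRing A] [Algebra ℂ A] [Algebra.FiniteType ℂ A]
  {ι : Type} [Fintype ι] [DecidableEq ι] {w : A →ₐ[ℂ] ℂ}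

/-- a property of closed points that holds near `w` -/
private def Near (w : A →ₐ[ℂ] ℂ) (P : (A →ₐ[ℂ] ℂ) → Prop) : Prop :=
  ∃ h, w h ≠ 0 ∧ ∀ w' : A →ₐ[ℂ] ℂ, w' h ≠ 0 → P w'

private theorem Near.mono {P Q : (A →ₐ[ℂ] ℂ) → Prop} (h : Near w P) (hPQ : ∀ w', P w' → Q w') :
    Near w Q := by
  obtain ⟨a, ha, H⟩ := h
  exact ⟨a, ha, fun w' hw' => hPQ w' (H w' hw')⟩

private theorem Near.and {P Q : (A →ₐ[ℂ] ℂ) → Prop} (h : Near w P) (h' : Near w Q) :
    Near w fun w' => P w' ∧ Q w' := by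
  obtain ⟨a, ha, H⟩ := h
  obtain ⟨b, hb, H'⟩ := h'
  refine ⟨a * b, by rw [map_mul]; exact mul_ne_zero ha hb, fun w' hw' => ?_⟩
  rw [map_mul] at hw'
  exact ⟨H w' (left_ne_zero_of_mul hw'), H' w' (right_ne_zero_of_mul hw')⟩

private theorem Near.of_forall {P : (A →ₐ[ℂ] ℂ) → Prop} (h : ∀ w', P w') : Near w P :=
  ⟨1, by simp, fun w' _ => h w'⟩

private theorem Near.ne {a : A} (ha : w a ≠ 0) : Near w fun w' => w' a ≠ 0 :=
  ⟨a, ha, fun _ h => h⟩

private theorem Near.range {P : ℕ → (A →ₐ[ℂ] ℂ) → Prop} (n : ℕ) (h : ∀ i, i < n → Near w (P i)) :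
    Near w fun w' => ∀ i, i < n → P i w' := by
  induction n with
  | zero => exact Near.of_forall fun w' i hi => absurd hi (Nat.not_lt_zero i)
  | succ n ih =>
    refine ((ih fun i hi => h i (Nat.lt_succ_of_lt hi)).and (h n (Nat.lt_succ_self n))).mono ?_
    rintro w' ⟨h1, h2⟩ i hi
    rcases Nat.lt_succ_iff_lt_or_eq.1 hi with hi | rfl
    · exact h1 i hi
    · exact h2

private theorem div_near {σ : ℕ → A} (hσ : FinDiv σ) :
    Near w fun w' => ∀ j, w (σ j) ≠ 0 → w' (σ j) ≠ 0 := by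
  obtain ⟨m, hm⟩ := hσ
  have h1 : Near w fun w' => ∀ j, j < m → (w (σ j) ≠ 0 → w' (σ j) ≠ 0) := by
    refine Near.range (P := fun j w' => w (σ j) ≠ 0 → w' (σ j) ≠ 0) m fun j _ => ?_
    by_cases hj : w (σ j) = 0
    · exact Near.of_forall fun w' h => absurd hj h
    · exact (Near.ne hj).mono fun w' h _ => h
  refine h1.mono fun w' H j hj => ?_
  rcases lt_or_ge j m with h | h
  · exact H j h hj
  · rw [hm j h]
    simp

private theorem mem_of_const_mul {P : Type} [AddCommGroup P] [Module A P] {N : Submodule A P}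
    {x : P} {c : ℂ} (hc : c ≠ 0) (h : algebraMap ℂ A c • x ∈ N) : x ∈ N := by
  have := N.smul_mem (algebraMap ℂ A c⁻¹) h
  rwa [smul_smul, ← map_mul, inv_mul_cancel₀ hc, map_one, one_smul] at this

private theorem sub_mem_ker (w : A →ₐ[ℂ] ℂ) (a : A) :
    a - algebraMap ℂ A (w a) ∈ RingHom.ker w := by
  rw [RingHom.mem_ker, map_sub, AlgHom.commutes]
  simp

theorem lc_span {y : ι → A} (H : LC w y) : ∃ h, w h ≠ 0 ∧ ∀ m : KaehlerDifferential ℂ A,
    h • m ∈ Submodule.span A (Set.range fun i => KaehlerDifferential.D ℂ A (y i)) := by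
  set N := Submodule.span A (Set.range fun i => KaehlerDifferential.D ℂ A (y i)) with hN
  set K : Submodule A (KaehlerDifferential ℂ A) := N ⊔ RingHom.ker w • ⊤ with hK
  have hsm : ∀ a : A, w a = 0 → ∀ m : KaehlerDifferential ℂ A, a • m ∈ K := fun a ha m =>
    Submodule.mem_sup_right (Submodule.smul_mem_smul (RingHom.mem_ker.2 ha) Submodule.mem_top)
  have hJ : ∀ g ∈ Ideal.span (Set.range y), w g = 0 ∧ KaehlerDifferential.D ℂ A g ∈ K := by
    intro g hg
    induction hg using Submodule.span_induction with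
    | mem x hx =>
      obtain ⟨i, rfl⟩ := hx
      exact ⟨H.van i, Submodule.mem_sup_left (Submodule.subset_span ⟨i, rfl⟩)⟩
    | zero => simp
    | add a b _ _ ha hb =>
      refine ⟨by rw [map_add, ha.1, hb.1, add_zero], ?_⟩
      rw [map_add]
      exact K.add_mem ha.2 hb.2
    | smul a b _ hb =>
      refine ⟨by rw [smul_eq_mul, map_mul, hb.1, mul_zero], ?_⟩
      rw [smul_eq_mul, Derivation.leibniz]
      exact K.add_mem (K.smul_mem _ hb.2) (hsm b hb.1 _)
  have h0 : ∀ f : A, w f = 0 → KaehlerDifferential.D ℂ A f ∈ K := by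
    intro f hf
    obtain ⟨h, hh, hm⟩ := H.gen f hf
    have h1 := (hJ _ hm).2
    rw [Derivation.leibniz] at h1
    have h2 : h • KaehlerDifferential.D ℂ A f ∈ K := by
      have := K.sub_mem h1 (hsm f hf (KaehlerDifferential.D ℂ A h))
      rwa [add_sub_cancel_right] at this
    have h3 := K.sub_mem h2 (hsm _ (RingHom.mem_ker.1 (sub_mem_ker w h))
      (KaehlerDifferential.D ℂ A f))
    rw [← sub_smul, sub_sub_cancel] at h3
    exact mem_of_const_mul hh h3
  have htop : (⊤ : Submodule A (KaehlerDifferential ℂ A)) ≤ N ⊔ RingHom.ker w • ⊤ := by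
    rw [← hK, ← KaehlerDifferential.span_range_derivation, Submodule.span_le]
    rintro _ ⟨f, rfl⟩
    have := h0 _ (RingHom.mem_ker.1 (sub_mem_ker w f))
    rwa [map_sub, Derivation.map_algebraMap, sub_zero] at this
  obtain ⟨r, hr, hle⟩ := Submodule.exists_sub_one_mem_and_smul_le_of_fg_of_le_sup
    (Module.Finite.fg_top (R := A) (M := KaehlerDifferential ℂ A)) le_rfl htop
  refine ⟨r, ?_, fun m => hle (Submodule.smul_mem_pointwise_smul m r ⊤ Submodule.mem_top)⟩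
  rw [RingHom.mem_ker, map_sub, map_one, sub_eq_zero] at hr
  rw [show w r = 1 from hr]
  exact one_ne_zero

theorem lc_of_span {y : ι → A} {h : A} (hw : w h ≠ 0) (hs : ∀ m : KaehlerDifferential ℂ A,
    h • m ∈ Submodule.span A (Set.range fun i => KaehlerDifferential.D ℂ A (y i))) :
    ∀ f, w f = 0 →
      f ∈ sat w (Ideal.span (Set.range fun i => y i - algebraMap ℂ A (w (y i)))) := by
  set J : Ideal A := Ideal.span (Set.range fun i => y i - algebraMap ℂ A (w (y i))) with hJ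
  set K : Ideal A := J ⊔ RingHom.ker w • RingHom.ker w with hK
  have hsq : ∀ a b : A, a ∈ RingHom.ker w → b ∈ RingHom.ker w → a * b ∈ K := fun a b ha hb =>
    Submodule.mem_sup_right (Submodule.smul_mem_smul ha hb)
  let δ0 : A →ₗ[ℂ] A ⧸ K := (Ideal.Quotient.mkₐ ℂ K).toLinearMap ∘ₗ
    (LinearMap.id - Algebra.linearMap ℂ A ∘ₗ w.toLinearMap)
  have hδ0 : ∀ a, δ0 a = Ideal.Quotient.mk K (a - algebraMap ℂ A (w a)) := fun a => rfl
  have hsm : ∀ a b : A, a • Ideal.Quotient.mk K b = Ideal.Quotient.mk K (a * b) := fun a b => rfl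
  let δ : Derivation ℂ A (A ⧸ K) := Derivation.mk' δ0 (by
    intro a b
    rw [hδ0, hδ0, hδ0, hsm, hsm, ← map_add, Ideal.Quotient.eq]
    have h1 := hsq _ _ (sub_mem_ker w a) (sub_mem_ker w b)
    have h2 : a * b - algebraMap ℂ A (w (a * b)) - (a * (b - algebraMap ℂ A (w b)) +
        b * (a - algebraMap ℂ A (w a))) =
        -((a - algebraMap ℂ A (w a)) * (b - algebraMap ℂ A (w b))) := by
      rw [map_mul, map_mul]
      ring
    rw [h2]
    exact K.neg_mem h1)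
  have hδ : ∀ a, δ a = Ideal.Quotient.mk K (a - algebraMap ℂ A (w a)) := fun a => rfl
  have hker : Submodule.span A (Set.range fun i => KaehlerDifferential.D ℂ A (y i)) ≤
      LinearMap.ker δ.liftKaehlerDifferential := by
    rw [Submodule.span_le]
    rintro _ ⟨i, rfl⟩
    rw [SetLike.mem_coe, LinearMap.mem_ker, Derivation.liftKaehlerDifferential_comp_D, hδ,
      Ideal.Quotient.eq_zero_iff_mem]
    exact Submodule.mem_sup_left (Submodule.subset_span ⟨i, rfl⟩)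
  have hle : RingHom.ker w ≤ J ⊔ RingHom.ker w • RingHom.ker w := by
    intro f hf
    have h1 := hker (hs (KaehlerDifferential.D ℂ A f))
    rw [LinearMap.mem_ker, map_smul, Derivation.liftKaehlerDifferential_comp_D, hδ, hsm,
      Ideal.Quotient.eq_zero_iff_mem, show w f = 0 from hf, map_zero, sub_zero] at h1
    have h2 := K.sub_mem h1 (hsq _ _ (sub_mem_ker w h) hf)
    rw [← sub_mul, sub_sub_cancel] at h2
    exact mem_of_const_mul (N := K) hw h2
  haveI : IsNoetherianRing A := Algebra.FiniteType.isNoetherianRing ℂ A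
  obtain ⟨r, hr, hr'⟩ := Submodule.exists_sub_one_mem_and_smul_le_of_fg_of_le_sup
    (IsNoetherian.noetherian (RingHom.ker w)) le_rfl hle
  intro f hf
  refine ⟨r, ?_, hr' (Submodule.smul_mem_pointwise_smul f r _ (RingHom.mem_ker.2 hf))⟩
  rw [RingHom.mem_ker, map_sub, map_one, sub_eq_zero] at hr
  rw [show w r = 1 from hr]
  exact one_ne_zero

theorem lc_open {y : ι → A} (H : LC w y) : ∃ h, w h ≠ 0 ∧ ∀ w' : A →ₐ[ℂ] ℂ, w' h ≠ 0 →
    LC w' fun i => y i - algebraMap ℂ A (w' (y i)) := by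
  obtain ⟨h, hh, hs⟩ := lc_span H
  obtain ⟨E, Δ, hΔ, hE⟩ := H.dual
  refine ((Near.ne hh).and (Near.ne hΔ)).mono ?_
  rintro w' ⟨h1, h2⟩
  refine ⟨fun i => RingHom.mem_ker.1 (sub_mem_ker w' (y i)), lc_of_span h1 hs, E, Δ, h2, ?_⟩
  intro i j
  rw [map_sub, Derivation.map_algebraMap, sub_zero, hE]

theorem cert_open {σ : ℕ → A} (hσ : FinDiv σ) {I : Ideal A} {Γ : WS A} (hs : Γ.Sorted)
    (H : Γ.Cert σ I w) : ∃ h, w h ≠ 0 ∧ ∀ w' : A →ₐ[ℂ] ℂ, w' h ≠ 0 → Γ.Cert σ I w' := by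
  have h1 : Near w fun w' => ∀ i, i < Γ.N → (0 < Γ.c i → Γ.CertAt σ I w' i) := by
    refine Near.range (P := fun i w' => 0 < Γ.c i → Γ.CertAt σ I w' i) Γ.N fun i _ => ?_
    by_cases hi : 0 < Γ.c i
    · obtain ⟨u, D, b, h1, h2, h3, h4, h5, h6⟩ := H i hi
      have h7 : Near w fun w' => Γ.lab i = ⊥ → ∃ ε, w' ε ≠ 0 ∧ u = ε * Γ.y i := by
        by_cases hl : Γ.lab i = ⊥
        · obtain ⟨ε, hε, hu⟩ := h5 hl
          exact (Near.ne hε).mono fun w' h _ => ⟨ε, h, hu⟩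
        · exact Near.of_forall fun w' h => absurd h hl
      refine (((div_near hσ).and (Near.ne h4)).and h7).mono ?_
      rintro w' ⟨⟨k1, k2⟩, k3⟩ _
      exact ⟨u, D, b, h1, h2, fun j hj => (h3 j hj).imp id (k1 j), k2, k3, h6⟩
    · exact Near.of_forall fun w' h => absurd h hi
  refine h1.mono fun w' h i hi => h i ?_ hi
  by_contra hN
  exact hi.ne' (hs.pad i (not_lt.1 hN))

theorem good_open {σ : ℕ → A} (hσ : FinDiv σ) {I : Ideal A} {Γ : WS A} (H : Γ.Good σ I w) :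
    ∃ h, w h ≠ 0 ∧ ∀ w' : A →ₐ[ℂ] ℂ, w' h ≠ 0 → Γ.Cert σ I w' ∧
      ((∀ i, 0 < Γ.c i → w' (Γ.y i) = 0) → ∃ Γ' : WS A, Γ'.N = Γ.N ∧ Γ'.Good σ I w' ∧
        Γ'.inv = Γ.inv ∧ ∀ q, Γ'.J q = Γ.J q) := by
  classical
  have hs := H.ctr.sorted
  have hc : Near w fun w' => Γ.Cert σ I w' := cert_open hσ hs H.cert
  have hl : Near w fun w' => LC w' fun i => Γ.yF i - algebraMap ℂ A (w' (Γ.yF i)) :=
    lc_open H.ctr.lc
  obtain ⟨a, ha, hI⟩ := exists_unif H.adm
  refine (((hc.and hl).and (div_near hσ)).and (Near.ne ha)).mono ?_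
  rintro w' ⟨⟨⟨k1, k2⟩, k3⟩, k4⟩
  refine ⟨k1, fun hv => ?_⟩
  let Γ' : WS A := ⟨Γ.N, fun i => Γ.y i - algebraMap ℂ A (w' (Γ.y i)), Γ.c,
    fun i => if w' (Γ.y i) = 0 then Γ.lab i else ⊥⟩
  have hy : ∀ i, w' (Γ.y i) = 0 → Γ'.y i = Γ.y i := by
    intro i hi
    show Γ.y i - algebraMap ℂ A (w' (Γ.y i)) = Γ.y i
    rw [hi, map_zero, sub_zero]
  have hlab : ∀ i, w' (Γ.y i) = 0 → Γ'.lab i = Γ.lab i := fun i hi => if_pos hi
  have hkey : Γ'.key = Γ.key := by
    funext i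
    show mkKey (Γ.c i) (Γ'.lab i) = mkKey (Γ.c i) (Γ.lab i)
    rcases (hs.nonneg i).eq_or_lt with h0 | h0
    · unfold mkKey
      rw [if_pos h0.symm, if_pos h0.symm]
    · rw [hlab i (hv i h0)]
  have hs' : Γ'.Sorted := ⟨hs.nonneg, hs.pad, by rw [hkey]; exact hs.mono⟩
  have hJ : ∀ q, Γ'.J q = Γ.J q :=
    WS.J_congr hs' hs (fun _ => rfl) fun i hi => hy i (hv i hi)
  refine ⟨Γ', rfl, ⟨⟨hs', k2, ?_, ?_⟩, ?_, ?_, H.gen⟩, by unfold WS.inv; rw [hkey], hJ⟩
  · intro i j hij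
    have hij' : (if w' (Γ.y i) = 0 then Γ.lab i else ⊥) = (j : WithBot ℕ) := hij
    by_cases h0 : w' (Γ.y i) = 0
    · rw [if_pos h0] at hij'
      exact (hy i h0).trans (H.ctr.lab.eq i j hij')
    · rw [if_neg h0] at hij'
      exact absurd hij' WithBot.bot_ne_coe
  · intro j hj
    have h0 : w (σ j) = 0 := by
      by_contra h
      exact k3 j h hj
    obtain ⟨i, hi⟩ := H.ctr.lab.ex j h0
    have h1 : Γ.y i = σ j := H.ctr.lab.eq i j hi
    exact ⟨i, (hlab i (by rw [h1]; exact hj)).trans hi⟩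
  · intro f hf
    exact ⟨a, k4, by rw [hJ]; exact hI f hf⟩
  · intro i hi
    have hi' : 0 < Γ.c i := hi
    have hlt : ∀ t, t < i → Γ.y t = Γ'.y t := fun t ht =>
      (hy t (hv t (hi'.trans_le (hs.anti ht.le)))).symm
    obtain ⟨u, D, b, h1, h2, h3, h4, h5, h6⟩ := k1 i hi'
    refine ⟨u, D, b, Drv.congr hlt (fun _ _ => rfl) h1, fun t ht => ?_, ?_, h4, ?_, ?_⟩
    · rw [← hlt t ht]
      exact h2 t ht
    · rw [hlab i (hv i hi')]
      exact h3
    · rw [hlab i (hv i hi'), hy i (hv i hi')]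
      exact h5
    · rw [hlab i (hv i hi'), hy i (hv i hi')]
      exact h6

theorem WS.Good.van {σ : ℕ → A} {I : Ideal A} {Γ : WS A} (H : Γ.Good σ I w) :
    ∀ f ∈ I, w f = 0 :=
  fun f hf => sat_JJ_van H.ctr.lc.van Γ.cF one_pos (H.adm hf)

private theorem nb_mkKey_wt (c : ℚ) (l : WithBot ℕ) : (mkKey c l).wt = c := by
  unfold mkKey Key.wt
  split_ifs with h
  · rw [h]
    rfl
  · rfl

private theorem nb_mkKey_zero (l : WithBot ℕ) : mkKey 0 l = mkKey 0 ⊥ := by
  unfold mkKey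
  rw [if_pos rfl, if_pos rfl]

theorem WS.Good.genInv {σ : ℕ → A} {I : Ideal A} {Γ : WS A} (H : Γ.Good σ I w) {ν : ℕ}
    (h : ∀ i, ν ≤ i → Γ.c i = 0) : GenInv ν Γ.inv := by
  have hk : ∀ i, ofLex Γ.inv i = mkKey (Γ.c i) (Γ.lab i) := fun i => rfl
  refine ⟨fun i hi => by rw [hk, h i hi, nb_mkKey_zero], fun i => ?_⟩
  rcases (H.ctr.sorted.nonneg i).eq_or_lt with h0 | h0
  · left
    rw [hk, ← h0, nb_mkKey_zero]
  · right
    simp only [hk, nb_mkKey_wt]
    exact ⟨h0, H.gen i h0⟩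

theorem WS.Good.c_le_one {σ : ℕ → A} {I : Ideal A} {Γ : WS A} (H : Γ.Good σ I w) (i : ℕ) :
    Γ.c i ≤ 1 := by
  rcases (H.ctr.sorted.nonneg i).eq_or_lt with h0 | h0
  · rw [← h0]
    exact zero_le_one
  · obtain ⟨r, n, hn, h1⟩ := H.gen i h0
    have h2 : 0 ≤ ∑ t ∈ Finset.range i, (r t : ℚ) * Γ.c t :=
      Finset.sum_nonneg fun t _ => mul_nonneg (Nat.cast_nonneg _) (H.ctr.sorted.nonneg t)
    have h3 : (1 : ℚ) ≤ n := by exact_mod_cast hn
    nlinarith

end Pool.Agent.P.MP_824f38_ag.N
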