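import Pool.Agent.P.MP_824f38_ag.N.BCertOn
import Pool.Agent.P.MP_824f38_ag.N.BCertOff
import Pool.Agent.P.MP_824f38_ag.N.LNbhd

/-! Row NEC-BDrop: the invariant drops on the blow-up

Let Θ be the good centre at w' and w = w'.comp blC. Case on: max_lemma with the lifted certificate gives Θ.inv ≤ k; equality would make all y' i with 0 < c i vanish at w', and bl_loc_gen would contradict blPlus.
Case off: all f in I vanish at w (C f = s^L blU f L, WS.Good.van); run gives a good Γ at w, Γ.inv < k by hypothesis; cert_bl_off and max_lemma. -/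

set_option linter.unusedVariables false
set_option linter.unusedSectionVars false
set_option linter.style.haveILetI false
set_option linter.dupNamespace false

namespace Pool.Agent.P.MP_824f38_ag.N

open LaurentPolynomial

variable {A : Type} [CommRing A] [Algebra ℂ A] [Algebra.FiniteType ℂ A] {𝓙 : ℕ → Ideal A}
  {L : ℕ} {σ : ℕ → A} {m : ℕ} {ω : ℕ → ℕ}

theorem drop (G : BlGlob 𝓙 L σ m ω) {I : Ideal A} (hI : I ≤ 𝓙 L) {w' : Bl 𝓙 L →ₐ[ℂ] ℂ}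
    (hp : blPlus 𝓙 L w') {k : Inv} {n : ℕ} (hs : Snc σ (w'.comp (blC 𝓙 L)) n)
    (h : ((∃ h ∈ 𝓙 L, w' (blC 𝓙 L h) ≠ 0) ∧
        ∀ Γ : WS A, Γ.N = n → Γ.Good σ I (w'.comp (blC 𝓙 L)) → Γ.inv < k) ∨
      ∃ Γ wt, BlLoc 𝓙 L σ m ω (w'.comp (blC 𝓙 L)) Γ wt ∧ Γ.Cert σ I (w'.comp (blC 𝓙 L)) ∧
        Γ.inv = k)
    {Θ : WS (Bl 𝓙 L)} (hΘ : Θ.Good (blσ 𝓙 L σ m ω) (blI 𝓙 L I) w') : Θ.inv < k := by
  haveI := ft_bl 𝓙 L
  rcases h with ⟨⟨h, hh, hw⟩, hk⟩ | ⟨Γ, wt, H, hc, rfl⟩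
  · have hvan : ∀ f ∈ I, (w'.comp (blC 𝓙 L)) f = 0 := by
      intro f hf
      have e : w' (blU 𝓙 L f L) = 0 := hΘ.van _ (Ideal.subset_span ⟨f, hf, rfl⟩)
      change w' (blC 𝓙 L f) = 0
      rw [← blS_pow_mul le_rfl (Or.inr (hI hf)), map_mul, e, mul_zero]
    obtain ⟨Γ, hN, hΓ⟩ := run hs hvan
    obtain ⟨y', hy'⟩ := cert_bl_off G hI hh hw hΓ.ctr hΓ.cert
    have hS := hΓ.ctr.sorted
    have h1 := (max_lemma (Γ := (⟨Γ.N, y', Γ.c, Γ.lab⟩ : WS (Bl 𝓙 L)))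
      ⟨hS.nonneg, hS.pad, hS.mono⟩ hy' hΘ.ctr hΘ.adm).1
    exact lt_of_le_of_lt h1 (hk Γ hN hΓ)
  · have hS := H.ctr.sorted
    have h1 := max_lemma
      (Γ := (⟨Γ.N, fun i => blU 𝓙 L (Γ.y i) (wt i), Γ.c, Γ.lab⟩ : WS (Bl 𝓙 L)))
      ⟨hS.nonneg, hS.pad, hS.mono⟩ (cert_bl_on G hI H hc) hΘ.ctr hΘ.adm
    refine lt_of_le_of_ne h1.1 fun e => ?_
    have h2 := (h1.2 e).1
    obtain ⟨h, hw, -, hg⟩ := bl_loc_gen G.pos H
    obtain ⟨l, f, hl1, hl, hf, hne⟩ := hp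
    have h3 : Ideal.span {x | ∃ i, 0 < Γ.c i ∧ x = blU 𝓙 L (Γ.y i) (wt i)} ≤
        RingHom.ker (w' : Bl 𝓙 L →+* ℂ) := by
      refine Ideal.span_le.2 ?_
      rintro _ ⟨i, hi, rfl⟩
      exact h2 i hi
    have h4 : w' (blC 𝓙 L h * blU 𝓙 L f l) = 0 := h3 (hg l f hl1 hl hf)
    rw [map_mul] at h4
    exact mul_ne_zero hw hne h4

end Pool.Agent.P.MP_824f38_ag.N
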