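import Pool.Agent.P.MP_824f38_ag.N.LBasic

/-! Row NEC-BGen: generators of the cobordant blow-up, maps out of it

ft_bl: finitely many generators of A, blS, and the blU f l for f in a finite generating set of 𝓙 l. bl_lift: lift C a ↦ φ a, T ↦ s⁻¹ on A[T;T⁻¹] into a localisation B' of B at s
(LaurentPolynomial.eval₂ or IsLocalization.Away.lift) and restrict; B injects into B'. bl_loc_gen: Bl_induction; h f = Σ a y^α with Σ α wt ≥ l gives C (h f) T^l = Σ C a y'^α s^(Σ α wt - l). -/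

set_option linter.unusedVariables false
set_option linter.unusedSectionVars false
set_option linter.style.haveILetI false
set_option linter.dupNamespace false

namespace Pool.Agent.P.MP_824f38_ag.N

open LaurentPolynomial

variable {A : Type} [CommRing A] [Algebra ℂ A] [Algebra.FiniteType ℂ A] {𝓙 : ℕ → Ideal A}
  {L : ℕ} {σ : ℕ → A} {m : ℕ} {ω : ℕ → ℕ}

theorem ft_bl (𝓙 : ℕ → Ideal A) (L : ℕ) : Algebra.FiniteType ℂ (Bl 𝓙 L) := by
  classical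
  haveI : IsNoetherianRing A := Algebra.FiniteType.isNoetherianRing ℂ A
  obtain ⟨S, hS⟩ : (⊤ : Subalgebra ℂ A).FG := Algebra.FiniteType.out
  have hG : ∀ l, ∃ G : Finset A, Ideal.span (G : Set A) = 𝓙 l := fun l =>
    (IsNoetherian.noetherian (𝓙 l))
  choose G hG using hG
  rw [← Subalgebra.fg_iff_finiteType, Subalgebra.fg_def]
  let t : Set A[T;T⁻¹] := (fun a => (C a : A[T;T⁻¹])) '' (S : Set A) ∪ {T (-1)} ∪
    ⋃ l ∈ Set.Icc 1 L, (fun f => (C f * T (l : ℤ) : A[T;T⁻¹])) '' (G l : Set A)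
  have hC : ∀ a : A, (C a : A[T;T⁻¹]) ∈ Algebra.adjoin ℂ t := by
    intro a
    have h1 : (⊤ : Subalgebra ℂ A) ≤ (Algebra.adjoin ℂ t).comap (lC A) := by
      rw [← hS]
      exact Algebra.adjoin_le fun b hb => Algebra.subset_adjoin (Or.inl (Or.inl ⟨b, hb, rfl⟩))
    exact h1 (Algebra.mem_top (x := a))
  refine ⟨t, ?_, le_antisymm (Algebra.adjoin_le ?_) (Algebra.adjoin_le ?_)⟩
  · refine ((S.finite_toSet.image _).union (Set.finite_singleton _)).union ?_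
    exact (Set.finite_Icc 1 L).biUnion fun l _ => (G l).finite_toSet.image _
  · rintro x ((⟨a, -, rfl⟩ | rfl) | hx)
    · exact (blC 𝓙 L a).2
    · exact (blS 𝓙 L).2
    · simp only [Set.mem_iUnion] at hx
      obtain ⟨l, hl, f, hf, rfl⟩ := hx
      exact mem_Bl 𝓙 L hl.2 (Or.inr (hG l ▸ Ideal.subset_span hf))
  · rintro x ((⟨a, rfl⟩ | rfl) | ⟨l, f, h1, h2, hf, rfl⟩)
    · exact hC a
    · exact Algebra.subset_adjoin (Or.inl (Or.inr rfl))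
    · rw [← hG l] at hf
      induction hf using Submodule.span_induction with
      | mem g hg =>
        exact Algebra.subset_adjoin (Or.inr (Set.mem_biUnion (x := l) ⟨h1, h2⟩ ⟨g, hg, rfl⟩))
      | zero => rw [map_zero, zero_mul]; exact zero_mem _
      | add a b _ _ ha hb => rw [map_add, add_mul]; exact add_mem ha hb
      | smul a b _ hb => rw [smul_eq_mul, map_mul, mul_assoc]; exact mul_mem (hC a) hb

theorem Bl_induction {P : Bl 𝓙 L → Prop} (h0 : ∀ a, P (blC 𝓙 L a)) (h1 : P (blS 𝓙 L))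
    (h2 : ∀ l f, 1 ≤ l → l ≤ L → f ∈ 𝓙 l → P (blU 𝓙 L f l))
    (hadd : ∀ x z, P x → P z → P (x + z)) (hmul : ∀ x z, P x → P z → P (x * z)) (x : Bl 𝓙 L) :
    P x := by
  obtain ⟨x, hx⟩ := x
  induction hx using Algebra.adjoin_induction with
  | mem x hx =>
    rcases hx with (⟨a, rfl⟩ | rfl) | ⟨l, f, h1', h2', hf, rfl⟩
    · exact h0 a
    · exact h1
    · have e : blU 𝓙 L f l = ⟨C f * T (l : ℤ), mem_Bl 𝓙 L h2' (Or.inr hf)⟩ :=
        Subtype.ext (blU_val 𝓙 L h2' (Or.inr hf))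
      have := h2 l f h1' h2' hf
      rw [e] at this
      exact this
  | algebraMap r =>
    have := h0 (algebraMap ℂ A r)
    rw [AlgHom.commutes] at this
    exact this
  | add x z hx hz px pz => exact hadd ⟨x, hx⟩ ⟨z, hz⟩ px pz
  | mul x z hx hz px pz => exact hmul ⟨x, hx⟩ ⟨z, hz⟩ px pz

theorem blS_pow_mul {l : ℕ} {f : A} (hl : l ≤ L) (hf : l = 0 ∨ f ∈ 𝓙 l) :
    blS 𝓙 L ^ l * blU 𝓙 L f l = blC 𝓙 L f := by
  apply Subtype.ext
  rw [Subalgebra.coe_mul, Subalgebra.coe_pow, blS_val, blU_val 𝓙 L hl hf, blC_val, T_pow,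
    mul_left_comm, ← T_add]
  simp

theorem blU_zero (f : A) : blU 𝓙 L f 0 = blC 𝓙 L f := by
  have := blS_pow_mul (𝓙 := 𝓙) (L := L) (l := 0) (f := f) (Nat.zero_le _) (Or.inl rfl)
  rwa [pow_zero, one_mul] at this

theorem blS_regular : blS 𝓙 L ∈ nonZeroDivisors (Bl 𝓙 L) := by
  rw [mem_nonZeroDivisors_iff_right]
  intro x hx
  have h1 : (x : A[T;T⁻¹]) * T (-1) = 0 := congrArg Subtype.val hx
  exact Subtype.ext ((isUnit_T (R := A) (-1)).mul_left_eq_zero.mp h1)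

theorem blC_injective : Function.Injective (blC 𝓙 L) := by
  intro a b h
  have h1 : (C a : A[T;T⁻¹]) = C b := congrArg Subtype.val h
  have h2 := congrArg (eval₂ (RingHom.id A) 1) h1
  rwa [eval₂_C, eval₂_C] at h2

theorem bl_lift {B : Type} [CommRing B] [Algebra ℂ B] (φ : A →ₐ[ℂ] B) {s : B}
    (hs : s ∈ nonZeroDivisors B) (h : ∀ l, 1 ≤ l → l ≤ L → ∀ f ∈ 𝓙 l, s ^ l ∣ φ f) :
    ∃ ψ : Bl 𝓙 L →ₐ[ℂ] B, ψ.comp (blC 𝓙 L) = φ ∧ ψ (blS 𝓙 L) = s := by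
  let B' := Localization.Away s
  let ι : B →ₐ[ℂ] B' := IsScalarTower.toAlgHom ℂ B B'
  have hι : Function.Injective ι :=
    IsLocalization.injective B' (M := Submonoid.powers s) (Submonoid.powers_le.mpr hs)
  let v : B'ˣ := (IsLocalization.Away.algebraMap_isUnit (S := B') s).unit
  have hv : (v : B') = ι s := rfl
  let ψ0 : A[T;T⁻¹] →ₐ[ℂ] B' :=
    { eval₂ (ι.comp φ).toRingHom v⁻¹ with
      commutes' := fun c => by
        have : algebraMap ℂ A[T;T⁻¹] c = C (algebraMap ℂ A c) := ((lC A).commutes c).symm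
        rw [this]
        exact (eval₂_C _ _ _).trans ((ι.comp φ).commutes c) }
  have hC : ∀ a, ψ0 (C a) = ι (φ a) := fun a => eval₂_C _ _ _
  have hT : ∀ n : ℤ, ψ0 (T n) = (v⁻¹ ^ n : B'ˣ) := fun n => eval₂_T _ _ _
  have hS : ψ0 (T (-1)) = ι s := by rw [hT, ← hv]; simp
  have hr : Bl 𝓙 L ≤ ι.range.comap ψ0 := by
    refine Algebra.adjoin_le ?_
    rintro x ((⟨a, rfl⟩ | rfl) | ⟨l, f, h1, h2, hf, rfl⟩)
    · exact ⟨φ a, (hC a).symm⟩
    · exact ⟨s, hS.symm⟩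
    · obtain ⟨g, hg⟩ := h l h1 h2 f hf
      refine ⟨g, ?_⟩
      change ι g = ψ0 (C f * T l)
      rw [map_mul, hC, hT, hg, map_mul, map_pow, ← hv, zpow_natCast, mul_right_comm,
        ← Units.val_pow_eq_pow_val, ← Units.val_mul, ← mul_pow, mul_inv_cancel, one_pow,
        Units.val_one, one_mul]
  let e := AlgEquiv.ofInjective ι hι
  let ψ : Bl 𝓙 L →ₐ[ℂ] B :=
    e.symm.toAlgHom.comp ((ψ0.comp (Bl 𝓙 L).val).codRestrict ι.range fun x => hr x.2)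
  have hψ : ∀ x, ι (ψ x) = ψ0 x := fun x =>
    congrArg Subtype.val (e.apply_symm_apply ⟨ψ0 x, hr x.2⟩)
  refine ⟨ψ, AlgHom.ext fun a => hι ?_, hι ?_⟩
  · exact (hψ _).trans (hC a)
  · exact (hψ _).trans hS

private theorem bl_key {w : A →ₐ[ℂ] ℂ} {Γ : WS A} {wt : ℕ → ℕ} (hL : 1 ≤ L)
    (H : BlLoc 𝓙 L σ m ω w Γ wt) {n : ℤ} {f : A} (hf : f ∈ Γ.J (n / L)) :
    ∃ x : Bl 𝓙 L, (x : A[T;T⁻¹]) = C f * T n ∧
      x ∈ Algebra.adjoin ℂ (Set.range (blC 𝓙 L) ∪ {blS 𝓙 L} ∪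
        Set.range fun i : Fin Γ.N => blU 𝓙 L (Γ.y i) (wt i)) ∧
      (0 < n → x ∈ Ideal.span {x | ∃ i, 0 < Γ.c i ∧ x = blU 𝓙 L (Γ.y i) (wt i)}) := by
  have hL' : (0 : ℚ) < L := by exact_mod_cast hL
  induction hf using Submodule.span_induction with
  | mem g hg =>
    obtain ⟨α, hα, rfl⟩ := hg
    have h1 : n ≤ ((∑ i : Fin Γ.N, α i * wt i : ℕ) : ℤ) := by
      rw [div_le_iff₀ hL', Finset.sum_mul] at hα
      have h2 : ∑ i : Fin Γ.N, (α i : ℚ) * Γ.cF i * L =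
          ((∑ i : Fin Γ.N, α i * wt i : ℕ) : ℚ) := by
        rw [Nat.cast_sum]
        refine Finset.sum_congr rfl fun i _ => ?_
        rw [Nat.cast_mul, H.wt_eq, WS.cF]; ring
      rw [h2] at hα
      exact_mod_cast hα
    obtain ⟨k, hk⟩ := Int.le.dest h1
    have hp : ∀ s : Finset (Fin Γ.N),
        ((∏ i ∈ s, blU 𝓙 L (Γ.y i) (wt i) ^ α i : Bl 𝓙 L) : A[T;T⁻¹]) =
          C (∏ i ∈ s, Γ.yF i ^ α i) * T ((∑ i ∈ s, α i * wt i : ℕ) : ℤ) := by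
      intro s
      induction s using Finset.induction_on with
      | empty => simp
      | insert a s ha ih =>
        rw [Finset.prod_insert ha, Finset.prod_insert ha, Finset.sum_insert ha,
          Subalgebra.coe_mul, ih, Subalgebra.coe_pow, blU_val 𝓙 L (H.wt_le a) (H.mem a), mul_pow,
          T_pow, map_mul, map_pow, Nat.cast_add, T_add, Nat.cast_mul, WS.yF]
        ring
    refine ⟨(∏ i : Fin Γ.N, blU 𝓙 L (Γ.y i) (wt i) ^ α i) * blS 𝓙 L ^ k, ?_, ?_, fun hn => ?_⟩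
    · rw [Subalgebra.coe_mul, hp, Subalgebra.coe_pow, blS_val, T_pow, mul_assoc, ← T_add, ← hk]
      simp
    · refine mul_mem (prod_mem fun i _ => Subalgebra.pow_mem _ ?_ _) (Subalgebra.pow_mem _ ?_ _)
      · exact Algebra.subset_adjoin (Or.inr ⟨i, rfl⟩)
      · exact Algebra.subset_adjoin (Or.inl (Or.inr rfl))
    · have h2 : ∑ i : Fin Γ.N, α i * wt i ≠ 0 := by omega
      obtain ⟨i, -, hi⟩ := Finset.exists_ne_zero_of_sum_ne_zero h2
      have h3 : 0 < Γ.c i := by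
        have h4 : (0 : ℚ) < wt i := by
          exact_mod_cast Nat.pos_of_ne_zero (right_ne_zero_of_mul hi)
        rw [H.wt_eq] at h4
        exact (mul_pos_iff_of_pos_left hL').mp h4
      refine Ideal.mul_mem_right _ _ ?_
      rw [← Finset.mul_prod_erase _ _ (Finset.mem_univ i)]
      refine Ideal.mul_mem_right _ _ (Ideal.pow_mem_of_mem _ ?_ _
        (Nat.pos_of_ne_zero (left_ne_zero_of_mul hi)))
      exact Ideal.subset_span ⟨i, h3, rfl⟩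
  | zero => exact ⟨0, by simp, zero_mem _, fun _ => zero_mem _⟩
  | add a b _ _ ha hb =>
    obtain ⟨x, hx, hx1, hx2⟩ := ha
    obtain ⟨z, hz, hz1, hz2⟩ := hb
    exact ⟨x + z, by rw [Subalgebra.coe_add, hx, hz, map_add, add_mul], add_mem hx1 hz1,
      fun hn => add_mem (hx2 hn) (hz2 hn)⟩
  | smul a b _ hb =>
    obtain ⟨z, hz, hz1, hz2⟩ := hb
    exact ⟨blC 𝓙 L a * z, by rw [Subalgebra.coe_mul, hz, blC_val, smul_eq_mul, map_mul, mul_assoc],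
      mul_mem (Algebra.subset_adjoin (Or.inl (Or.inl ⟨a, rfl⟩))) hz1,
      fun hn => Ideal.mul_mem_left _ _ (hz2 hn)⟩

theorem bl_loc_gen {w : A →ₐ[ℂ] ℂ} {Γ : WS A} {wt : ℕ → ℕ} (hL : 1 ≤ L)
    (H : BlLoc 𝓙 L σ m ω w Γ wt) : ∃ h, w h ≠ 0 ∧ (∀ x : Bl 𝓙 L, ∃ n : ℕ, blC 𝓙 L h ^ n * x ∈
      Algebra.adjoin ℂ (Set.range (blC 𝓙 L) ∪ {blS 𝓙 L} ∪
        Set.range fun i : Fin Γ.N => blU 𝓙 L (Γ.y i) (wt i))) ∧
      ∀ l f, 1 ≤ l → l ≤ L → f ∈ 𝓙 l → blC 𝓙 L h * blU 𝓙 L f l ∈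
        Ideal.span {x | ∃ i, 0 < Γ.c i ∧ x = blU 𝓙 L (Γ.y i) (wt i)} := by
  obtain ⟨h, h0, hh⟩ := H.loc
  have key : ∀ l f, 1 ≤ l → l ≤ L → f ∈ 𝓙 l → blC 𝓙 L h * blU 𝓙 L f l ∈
      Algebra.adjoin ℂ (Set.range (blC 𝓙 L) ∪ {blS 𝓙 L} ∪
        Set.range fun i : Fin Γ.N => blU 𝓙 L (Γ.y i) (wt i)) ∧
      blC 𝓙 L h * blU 𝓙 L f l ∈
        Ideal.span {x | ∃ i, 0 < Γ.c i ∧ x = blU 𝓙 L (Γ.y i) (wt i)} := by
    intro l f h1 h2 hf
    obtain ⟨x, hx, hx1, hx2⟩ := bl_key hL H (n := l) (f := h * f)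
      (by rw [Int.cast_natCast]; exact hh l h1 h2 f hf)
    have e : blC 𝓙 L h * blU 𝓙 L f l = x := Subtype.ext (by
      rw [Subalgebra.coe_mul, hx, blC_val, blU_val 𝓙 L h2 (Or.inr hf), map_mul, mul_assoc])
    rw [e]
    exact ⟨hx1, hx2 (by exact_mod_cast h1)⟩
  refine ⟨h, h0, fun x => ?_, fun l f h1 h2 hf => (key l f h1 h2 hf).2⟩
  have hm : blC 𝓙 L h ∈ Algebra.adjoin ℂ (Set.range (blC 𝓙 L) ∪ {blS 𝓙 L} ∪
        Set.range fun i : Fin Γ.N => blU 𝓙 L (Γ.y i) (wt i)) :=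
    Algebra.subset_adjoin (Or.inl (Or.inl ⟨h, rfl⟩))
  induction x using Bl_induction with
  | h0 a => exact ⟨0, by rw [pow_zero, one_mul]; exact Algebra.subset_adjoin (Or.inl (Or.inl ⟨a, rfl⟩))⟩
  | h1 => exact ⟨0, by rw [pow_zero, one_mul]; exact Algebra.subset_adjoin (Or.inl (Or.inr rfl))⟩
  | h2 l f h1 h2 hf => exact ⟨1, by rw [pow_one]; exact (key l f h1 h2 hf).1⟩
  | hadd x z hx hz =>
    obtain ⟨a, ha⟩ := hx
    obtain ⟨b, hb⟩ := hz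
    refine ⟨a + b, ?_⟩
    rw [show blC 𝓙 L h ^ (a + b) * (x + z) = blC 𝓙 L h ^ b * (blC 𝓙 L h ^ a * x) +
      blC 𝓙 L h ^ a * (blC 𝓙 L h ^ b * z) by ring]
    exact add_mem (mul_mem (pow_mem hm _) ha) (mul_mem (pow_mem hm _) hb)
  | hmul x z hx hz =>
    obtain ⟨a, ha⟩ := hx
    obtain ⟨b, hb⟩ := hz
    refine ⟨a + b, ?_⟩
    rw [show blC 𝓙 L h ^ (a + b) * (x * z) = (blC 𝓙 L h ^ a * x) * (blC 𝓙 L h ^ b * z) by ring]
    exact mul_mem ha hb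

/-- an element of the weight filtration, divided by the matching power of `s` -/
theorem exists_bl_of_mem_J {w : A →ₐ[ℂ] ℂ} {Γ : WS A} {wt : ℕ → ℕ} (hL : 1 ≤ L)
    (H : BlLoc 𝓙 L σ m ω w Γ wt) {n : ℤ} {f : A} (hf : f ∈ Γ.J (n / L)) :
    C f * T n ∈ Bl 𝓙 L := by
  obtain ⟨x, hx, -⟩ := bl_key hL H hf
  exact hx ▸ x.2

end Pool.Agent.P.MP_824f38_ag.N
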