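import Pool.Agent.P.MP_824f38_ag.N.BDer

/-! Row NEC-BSnc: normal crossings on the cobordant blow-up

snc_bl_on: coordinates on Option (Fin Γ.N): s - w' s and y' i - w' (y' i), y' i = blU (y i) (wt i). gen: bl_loc_gen; C (ker w) lies in sat of the C (y i) = s^(wt i) y' i, which vanish at w' and lie in the ideal of the new coordinates.
Duals: der_bl for E i with d = wt i, and euler_bl; LC.of_diag. Labels: lab i if w' (y' i) = 0, else ⊥; m for s if w' s = 0. If lab i = j then j < m (σ j vanishes at w) and y' i = blσ j by BlLoc.lab.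
snc_bl_off: s * blU h 1 = C h, so w' s ≠ 0. Coordinates s - w' s and y' i = blU (y i) (ω j) if lab i = j, C (y i) otherwise; s^l blU f l = C f gives gen; duals der_bl_off for E i and deg_bl; LC.of_matrix or of_diag
(deg_bl sends y' i into ker w'). -/

set_option linter.unusedVariables false
set_option linter.unusedSectionVars false
set_option linter.style.haveILetI false
set_option linter.dupNamespace false

namespace Pool.Agent.P.MP_824f38_ag.N

open LaurentPolynomial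

variable {A : Type} [CommRing A] [Algebra ℂ A] [Algebra.FiniteType ℂ A] {𝓙 : ℕ → Ideal A}
  {L : ℕ} {σ : ℕ → A} {m : ℕ} {ω : ℕ → ℕ}

section Aux

variable {B : Type} [CommRing B] [Algebra ℂ B]

private theorem bsnc_cancel {w : B →ₐ[ℂ] ℂ} {J : Ideal B} {t x : B} (ht : w t ≠ 0)
    (h : t * x ∈ sat w J) : x ∈ sat w J := by
  obtain ⟨k, k0, hk⟩ := h
  exact ⟨k * t, by rw [map_mul]; exact mul_ne_zero k0 ht, by rwa [mul_assoc]⟩

private theorem bsnc_sub (w : B →ₐ[ℂ] ℂ) (J : Ideal B) : ∃ S : Subalgebra ℂ B,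
    ∀ x, x ∈ S ↔ x - algebraMap ℂ B (w x) ∈ sat w J := by
  refine ⟨{ carrier := {x | x - algebraMap ℂ B (w x) ∈ sat w J}
            mul_mem' := ?_
            add_mem' := ?_
            algebraMap_mem' := ?_ }, fun x => Iff.rfl⟩
  · intro a b ha hb
    change a * b - algebraMap ℂ B (w (a * b)) ∈ sat w J
    rw [show a * b - algebraMap ℂ B (w (a * b)) = a * (b - algebraMap ℂ B (w b)) +
      algebraMap ℂ B (w b) * (a - algebraMap ℂ B (w a)) by rw [map_mul, map_mul]; ring]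
    exact add_mem (Ideal.mul_mem_left _ _ hb) (Ideal.mul_mem_left _ _ ha)
  · intro a b ha hb
    change a + b - algebraMap ℂ B (w (a + b)) ∈ sat w J
    rw [show a + b - algebraMap ℂ B (w (a + b)) = (a - algebraMap ℂ B (w a)) +
      (b - algebraMap ℂ B (w b)) by rw [map_add, map_add]; ring]
    exact add_mem ha hb
  · intro c
    change algebraMap ℂ B c - algebraMap ℂ B (w (algebraMap ℂ B c)) ∈ sat w J
    rw [AlgHom.commutes, Algebra.algebraMap_self, RingHom.id_apply, sub_self]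
    exact zero_mem _

private theorem bsnc_div {w : B →ₐ[ℂ] ℂ} {J : Ideal B} {S : Subalgebra ℂ B}
    (hS : ∀ x, x ∈ S ↔ x - algebraMap ℂ B (w x) ∈ sat w J) {t x : B} (ht : w t ≠ 0) (h1 : t ∈ S)
    (h2 : t * x ∈ S) : x ∈ S := by
  rw [hS] at h1 h2 ⊢
  refine bsnc_cancel ht ?_
  rw [show t * (x - algebraMap ℂ B (w x)) = (t * x - algebraMap ℂ B (w (t * x))) -
    algebraMap ℂ B (w x) * (t - algebraMap ℂ B (w t)) by rw [map_mul, map_mul]; ring]
  exact sub_mem h2 (Ideal.mul_mem_left _ _ h1)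

private theorem bsnc_base {A : Type} [CommRing A] [Algebra ℂ A] {w : B →ₐ[ℂ] ℂ} {J : Ideal B}
    {S : Subalgebra ℂ B} (hS : ∀ x, x ∈ S ↔ x - algebraMap ℂ B (w x) ∈ sat w J) (φ : A →ₐ[ℂ] B)
    {ι : Type} [DecidableEq ι] {y : ι → A} (H : LC (w.comp φ) y) (hy : ∀ i, φ (y i) ∈ S) (a : A) :
    φ a ∈ S := by
  have h1 : Ideal.span (Set.range y) ≤ (sat w J).comap (φ : A →+* B) := by
    rw [Ideal.span_le]
    rintro _ ⟨i, rfl⟩
    have := (hS _).1 (hy i)
    rw [show w (φ (y i)) = 0 from H.van i, map_zero, sub_zero] at this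
    exact this
  obtain ⟨k, k0, hk⟩ := H.gen (a - algebraMap ℂ A (w (φ a))) (by simp)
  have h2 : φ (k * (a - algebraMap ℂ A (w (φ a)))) ∈ sat w J := h1 hk
  rw [map_mul, map_sub, AlgHom.commutes] at h2
  exact (hS _).2 (bsnc_cancel k0 h2)

private theorem bsnc_lc {w : B →ₐ[ℂ] ℂ} [Algebra.FiniteType ℂ B] {κ : Type} [Fintype κ]
    [DecidableEq κ] (z : κ → B)
    (gen : ∀ S : Subalgebra ℂ B, (∀ k, z k ∈ S) → (∀ t x, w t ≠ 0 → t ∈ S → t * x ∈ S → x ∈ S) →
      (∀ {A : Type} [CommRing A] [Algebra ℂ A] (φ : A →ₐ[ℂ] B) {ι : Type} [DecidableEq ι]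
        {y : ι → A}, LC (w.comp φ) y → (∀ i, φ (y i) ∈ S) → ∀ a, φ a ∈ S) → ∀ x, x ∈ S)
    (E : κ → Derivation ℂ B B) (h : ∀ k, w (E k (z k)) ≠ 0)
    (h' : ∀ k l, k ≠ l → w (E k (z l)) = 0) :
    LC w fun k => z k - algebraMap ℂ B (w (z k)) := by
  obtain ⟨S, hS⟩ := bsnc_sub w (Ideal.span (Set.range fun k => z k - algebraMap ℂ B (w (z k))))
  refine LC.of_diag (fun k => by simp) (fun f hf => ?_) E (fun k => ?_) (fun k l hkl => ?_)
  · have := (hS f).1 (gen S (fun k => (hS _).2 (le_sat _ _ (Ideal.subset_span ⟨k, rfl⟩)))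
      (fun t x ht h1 h2 => bsnc_div hS ht h1 h2) (fun φ _ _ _ H hy a => bsnc_base hS φ H hy a) f)
    rwa [hf, map_zero, sub_zero] at this
  · rw [map_sub, Derivation.map_algebraMap, sub_zero]; exact h k
  · rw [map_sub, Derivation.map_algebraMap, sub_zero]; exact h' k l hkl

end Aux

private theorem bsnc_s_val : (blS 𝓙 L : A[T;T⁻¹]) = C 1 * T (-1) := by
  rw [blS_val, map_one, one_mul]

private theorem bsnc_lt (G : BlGlob 𝓙 L σ m ω) {w : A →ₐ[ℂ] ℂ} {j : ℕ} (h : w (σ j) = 0) :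
    j < m := by
  by_contra hc
  rw [G.one j (not_lt.1 hc), map_one] at h
  exact one_ne_zero h

private theorem bsnc_ex (G : BlGlob 𝓙 L σ m ω) {w' : Bl 𝓙 L →ₐ[ℂ] ℂ} {j : ℕ}
    (h : w' (blσ 𝓙 L σ m ω j) = 0) :
    (j < m ∧ w' (blU 𝓙 L (σ j) (ω j)) = 0 ∧ w' (blC 𝓙 L (σ j)) = 0) ∨
      (j = m ∧ w' (blS 𝓙 L) = 0) := by
  unfold blσ at h
  split_ifs at h with h1 h2
  · refine Or.inl ⟨h1, h, ?_⟩
    rw [← blS_pow_mul (G.ω_le j) (G.σ_mem j), map_mul, h, mul_zero]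
  · exact Or.inr ⟨h2, h⟩
  · rw [map_one] at h; exact absurd h one_ne_zero

theorem snc_bl_on (G : BlGlob 𝓙 L σ m ω) {w' : Bl 𝓙 L →ₐ[ℂ] ℂ} {Γ : WS A} {wt : ℕ → ℕ}
    (H : BlLoc 𝓙 L σ m ω (w'.comp (blC 𝓙 L)) Γ wt) : Snc (blσ 𝓙 L σ m ω) w' (Γ.N + 1) := by
  classical
  haveI := ft_bl 𝓙 L
  obtain ⟨E, Δ, hΔ, hE⟩ := H.ctr.lc.dual
  have hL : (L : ℚ) ≠ 0 := by have := G.pos; positivity
  have hD : ∀ i : Fin Γ.N, ∃ D' : Derivation ℂ (Bl 𝓙 L) (Bl 𝓙 L), D' (blS 𝓙 L) = 0 ∧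
      w' (D' (blU 𝓙 L (Γ.y i) (wt i))) ≠ 0 ∧
      ∀ j : Fin Γ.N, i ≠ j → D' (blU 𝓙 L (Γ.y j) (wt j)) = 0 := by
    intro i
    obtain ⟨h, D', h0, hD'⟩ := der_bl G.pos H (E i) (wt i) (fun j hj => by
      have e := hE i ⟨j, hj⟩
      change E i (Γ.y j) = _ at e
      rw [e]
      split_ifs with e'
      · have e2 : Γ.c j - wt i / L ≤ 0 := by
          rw [H.wt_eq, e', mul_div_cancel_left₀ _ hL, sub_self]
        apply le_sat
        rw [WS.J, JJ_nonpos _ _ e2]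
        trivial
      · exact zero_mem _)
    refine ⟨D', Subtype.ext ?_, ?_, fun j hij => Subtype.ext ?_⟩
    · rw [hD' _ _ _ bsnc_s_val, Derivation.map_one_eq_zero, mul_zero, map_zero, zero_mul]
      rfl
    · have e : D' (blU 𝓙 L (Γ.y i) (wt i)) = blC 𝓙 L (h * Δ) := by
        apply Subtype.ext
        have e1 := hE i i
        change E i (Γ.y i) = _ at e1
        rw [hD' _ _ _ (blU_val 𝓙 L (H.wt_le i) (H.mem i)), e1, if_pos rfl, sub_self, T_zero,
          mul_one, blC_val]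
      rw [e, map_mul, map_mul]
      exact mul_ne_zero h0 hΔ
    · have e1 := hE i j
      change E i (Γ.y j) = _ at e1
      rw [hD' _ _ _ (blU_val 𝓙 L (H.wt_le j) (H.mem j)), e1, if_neg hij, mul_zero, map_zero,
        zero_mul]
      rfl
  choose D hD1 hD2 hD3 using hD
  obtain ⟨h0, D0, hh0, hD0, hD0'⟩ := euler_bl G.pos H
  let z : Option (Fin Γ.N) → Bl 𝓙 L := fun o =>
    o.elim (blS 𝓙 L) fun i => blU 𝓙 L (Γ.y i) (wt i)
  have hlc := bsnc_lc (w := w') z (fun S hz hdiv hbase x => by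
      have hC : ∀ a, blC 𝓙 L a ∈ S := hbase (blC 𝓙 L) H.ctr.lc fun i => by
        change blC 𝓙 L (Γ.y i) ∈ S
        rw [← blS_pow_mul (H.wt_le i) (H.mem i)]
        exact mul_mem (pow_mem (hz none) _) (hz (some i))
      obtain ⟨h, h1, h2, -⟩ := bl_loc_gen G.pos H
      obtain ⟨n, hn⟩ := h2 x
      refine hdiv _ x (by rw [map_pow]; exact pow_ne_zero _ h1) (pow_mem (hC h) n) ?_
      refine Algebra.adjoin_le ?_ hn
      rintro _ ((⟨a, rfl⟩ | rfl) | ⟨i, rfl⟩)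
      · exact hC a
      · exact hz none
      · exact hz (some i))
    (fun o => o.elim D0 D) (by
      rintro (_ | i)
      · change w' (D0 (blS 𝓙 L)) ≠ 0
        rw [hD0]; exact hh0
      · exact hD2 i) (by
      rintro (_ | i) (_ | j) hij
      · exact absurd rfl hij
      · change w' (D0 (blU 𝓙 L (Γ.y j) (wt j))) = 0
        rw [hD0' j j.2, map_zero]
      · change w' (D i (blS 𝓙 L)) = 0
        rw [hD1, map_zero]
      · change w' (D i (blU 𝓙 L (Γ.y j) (wt j))) = 0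
        rw [hD3 i j fun e => hij (by rw [e]), map_zero])
  have key : ∀ (i : Fin Γ.N) (j : ℕ), Γ.lab i = j →
      blU 𝓙 L (Γ.y i) (wt i) = blσ 𝓙 L σ m ω j := by
    intro i j hij
    have e : Γ.y i = σ j := H.ctr.lab.eq i j hij
    have e2 : j < m := bsnc_lt G (w := w'.comp (blC 𝓙 L)) (by rw [← e]; exact H.ctr.lc.van i)
    rw [blσ, if_pos e2, e, H.lab i j i.2 hij]
  refine Snc.of_fintype (lab := fun o => if w' (z o) = 0 then
    o.elim (m : WithBot ℕ) fun i => Γ.lab i else ⊥) hlc ⟨fun o j hj => ?_, fun j hj => ?_⟩ (by simp)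
  · split_ifs at hj with e
    · rw [e, map_zero, sub_zero]
      rcases o with _ | i
      · obtain rfl : m = j := WithBot.coe_injective hj
        rw [blσ, if_neg (lt_irrefl _), if_pos rfl]
        rfl
      · exact key i j hj
    · exact absurd hj WithBot.bot_ne_coe
  · rcases bsnc_ex G hj with ⟨-, -, h3⟩ | ⟨rfl, h2⟩
    · obtain ⟨i, hi⟩ := H.ctr.lab.ex j h3
      refine ⟨some i, ?_⟩
      rw [if_pos (show w' (z (some i)) = 0 from (congrArg w' (key i j hi)).trans hj)]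
      exact hi
    · exact ⟨none, by rw [if_pos (show w' (z none) = 0 from h2)]; rfl⟩

theorem snc_bl_off (G : BlGlob 𝓙 L σ m ω) {w' : Bl 𝓙 L →ₐ[ℂ] ℂ} {h : A} (hh : h ∈ 𝓙 L)
    (hw : w' (blC 𝓙 L h) ≠ 0) {n : ℕ} (H : Snc σ (w'.comp (blC 𝓙 L)) n) :
    Snc (blσ 𝓙 L σ m ω) w' (n + 1) := by
  classical
  haveI := ft_bl 𝓙 L
  obtain ⟨y, lab, Hy, Hl⟩ := H
  obtain ⟨E, Δ, hΔ, hE⟩ := Hy.dual
  have hs : w' (blS 𝓙 L) ≠ 0 := by
    intro e
    apply hw
    rw [← blS_pow_mul le_rfl (Or.inr hh), map_mul, map_pow, e,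
      zero_pow (Nat.one_le_iff_ne_zero.1 G.pos), zero_mul]
  have he : ∀ i, ∃ e : ℕ, e ≤ L ∧ (e = 0 ∨ y i ∈ 𝓙 e) ∧ ∀ j : ℕ, lab i = j → e = ω j := by
    intro i
    by_cases e : ∃ j : ℕ, lab i = j
    · obtain ⟨j, hj⟩ := e
      refine ⟨ω j, G.ω_le j, Hl.eq i j hj ▸ G.σ_mem j, fun k hk => ?_⟩
      rw [show j = k from WithBot.coe_injective (hj.symm.trans hk)]
    · exact ⟨0, Nat.zero_le _, Or.inl rfl, fun j hj => absurd ⟨j, hj⟩ e⟩
  choose e he1 he2 he3 using he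
  have hz0 : ∀ i, w' (blU 𝓙 L (y i) (e i)) = 0 := by
    intro i
    have h1 : w' (blC 𝓙 L (y i)) = 0 := Hy.van i
    rw [← blS_pow_mul (he1 i) (he2 i), map_mul, map_pow] at h1
    exact (mul_eq_zero.1 h1).resolve_left (pow_ne_zero _ hs)
  have hD : ∀ i : Fin n, ∃ D' : Derivation ℂ (Bl 𝓙 L) (Bl 𝓙 L), D' (blS 𝓙 L) = 0 ∧
      w' (D' (blU 𝓙 L (y i) (e i))) ≠ 0 ∧
      ∀ j : Fin n, i ≠ j → D' (blU 𝓙 L (y j) (e j)) = 0 := by
    intro i
    obtain ⟨D', hD'⟩ := der_bl_off G hh (E i)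
    refine ⟨D', Subtype.ext ?_, ?_, fun j hij => Subtype.ext ?_⟩
    · rw [hD' _ _ _ bsnc_s_val, Derivation.map_one_eq_zero, mul_zero, map_zero, zero_mul]
      rfl
    · have e1 : blS 𝓙 L ^ e i * D' (blU 𝓙 L (y i) (e i)) = blC 𝓙 L (h ^ L * Δ) := by
        apply Subtype.ext
        rw [MulMemClass.coe_mul, SubmonoidClass.coe_pow, blS_val,
          hD' _ _ _ (blU_val 𝓙 L (he1 i) (he2 i)), hE i i, if_pos rfl, blC_val, T_pow,
          mul_left_comm, ← T_add, show (e i : ℤ) * -1 + e i = 0 by ring, T_zero, mul_one]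
      intro e2
      have e3 := congrArg w' e1
      rw [map_mul, e2, mul_zero, map_mul, map_mul, map_pow, map_pow] at e3
      exact mul_ne_zero (pow_ne_zero _ hw) hΔ e3.symm
    · rw [hD' _ _ _ (blU_val 𝓙 L (he1 j) (he2 j)), hE i j, if_neg hij, mul_zero, map_zero,
        zero_mul]
      rfl
  choose D hD1 hD2 hD3 using hD
  obtain ⟨D0, hD0⟩ := deg_bl 𝓙 L
  let z : Option (Fin n) → Bl 𝓙 L := fun o =>
    o.elim (blS 𝓙 L) fun i => blU 𝓙 L (y i) (e i)
  have hlc := bsnc_lc (w := w') z (fun S hz hdiv hbase x => by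
      have hC : ∀ a, blC 𝓙 L a ∈ S := hbase (blC 𝓙 L) Hy fun i => by
        rw [← blS_pow_mul (he1 i) (he2 i)]
        exact mul_mem (pow_mem (hz none) _) (hz (some i))
      refine Bl_induction (P := fun x => x ∈ S) hC (hz none) (fun l f _ h2 h3 => ?_)
        (fun _ _ => add_mem) (fun _ _ => mul_mem) x
      refine hdiv _ _ (by rw [map_pow]; exact pow_ne_zero _ hs) (pow_mem (hz none) l) ?_
      change blS 𝓙 L ^ l * _ ∈ S
      rw [blS_pow_mul h2 (Or.inr h3)]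
      exact hC f)
    (fun o => o.elim D0 D) (by
      rintro (_ | i)
      · change w' (D0 (blS 𝓙 L)) ≠ 0
        rw [hD0 _ _ _ bsnc_s_val, neg_smul, one_smul, map_neg]
        exact neg_ne_zero.2 hs
      · exact hD2 i) (by
      rintro (_ | i) (_ | j) hij
      · exact absurd rfl hij
      · change w' (D0 (blU 𝓙 L (y j) (e j))) = 0
        rw [hD0 _ _ _ (blU_val 𝓙 L (he1 j) (he2 j)), map_zsmul, hz0, smul_zero]
      · change w' (D i (blS 𝓙 L)) = 0
        rw [hD1, map_zero]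
      · change w' (D i (blU 𝓙 L (y j) (e j))) = 0
        rw [hD3 i j fun e => hij (by rw [e]), map_zero])
  refine Snc.of_fintype (lab := fun o => o.elim ⊥ lab) hlc ⟨?_, fun j hj => ?_⟩ (by simp)
  · rintro (_ | i) j hj
    · exact absurd hj WithBot.bot_ne_coe
    · have e1 : y i = σ j := Hl.eq i j hj
      have e2 : j < m := bsnc_lt G (e1 ▸ Hy.van i)
      change blU 𝓙 L (y i) (e i) - algebraMap ℂ _ (w' (blU 𝓙 L (y i) (e i))) = _
      rw [hz0, map_zero, sub_zero, blσ, if_pos e2, e1, he3 i j hj]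
  · rcases bsnc_ex G hj with ⟨-, -, h3⟩ | ⟨-, h2⟩
    · obtain ⟨i, hi⟩ := Hl.ex j h3
      exact ⟨some i, hi⟩
    · exact absurd h2 hs

end Pool.Agent.P.MP_824f38_ag.N
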