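import Pool.Agent.P.MP_824f38_ag.N.CPrime

/-! Row NEC-CBch: charts of the blow-up of two elements

bch_lift: φ extends to Localization.Away a → Localization.Away (φ a); the image of Bch a b lies in the image of B', which injects as φ a is regular.
chart_bch: extend E to Localization.Away (y i) (der_loc); with t = y j / y i the derivations y i • E j, E i + t • E j and E k preserve Bch and are dual to the new coordinates;
d (y j) = y i dt + t d (y i). exists_bch_sec: A[T] → Bch, T ↦ t, is onto; if Σ c_k T^k is in the kernel then c_0 is in (y i, y j) (induction on the degree: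
c_n (y j)^n in (y i) gives c_n = y i c' by Chart.reg_mod; subtract c' T^(n-1) (y i T - y j)); so T ↦ 0 descends. -/

set_option linter.unusedVariables false
set_option linter.unusedSectionVars false
set_option linter.style.haveILetI false
set_option linter.dupNamespace false

namespace Pool.Agent.P.MP_824f38_ag.N

variable {A : Type} [CommRing A] [Algebra ℂ A] [Algebra.FiniteType ℂ A] {N : ℕ}
  {y : Fin N → A}

theorem bchC_val (a b x : A) :
    (bchC a b x : Localization.Away a) = algebraMap A (Localization.Away a) x := rfl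

theorem bchT_val (a b : A) : (bchT a b : Localization.Away a) =
    algebraMap A (Localization.Away a) b * IsLocalization.Away.invSelf a := rfl

theorem bch_mul (a b : A) : bchC a b a * bchT a b = bchC a b b := by
  apply Subtype.ext
  rw [Subalgebra.coe_mul, bchC_val, bchC_val, bchT_val, mul_left_comm,
    IsLocalization.Away.mul_invSelf, mul_one]

theorem bch_unit (a : A) : IsUnit (algebraMap A (Localization.Away a) a) :=
  IsLocalization.Away.algebraMap_isUnit a

theorem bch_regular (a b : A) : bchC a b a ∈ nonZeroDivisors (Bch a b) := by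
  rw [mem_nonZeroDivisors_iff_left]
  intro x hx
  apply Subtype.ext
  have h := congrArg Subtype.val hx
  rw [Subalgebra.coe_mul, bchC_val] at h
  exact (bch_unit a).mul_right_eq_zero.1 h

theorem bch_induction {a b : A} {P : Bch a b → Prop} (h0 : ∀ x, P (bchC a b x))
    (h1 : P (bchT a b)) (hadd : ∀ x z, P x → P z → P (x + z))
    (hmul : ∀ x z, P x → P z → P (x * z)) (x : Bch a b) : P x := by
  obtain ⟨x, hx⟩ := x
  induction hx using Algebra.adjoin_induction with
  | mem x hx =>
    rcases hx with ⟨z, rfl⟩ | rfl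
    · exact h0 z
    · exact h1
  | algebraMap r =>
    have h := h0 (algebraMap ℂ A r)
    rw [AlgHom.commutes] at h
    exact h
  | add x z hx hz px pz => exact hadd _ _ px pz
  | mul x z hx hz px pz => exact hmul _ _ px pz

/-- evaluation of polynomials -/
noncomputable def bchEv {B : Type} [CommRing B] [Algebra ℂ B] (φ : A →ₐ[ℂ] B) (t : B) :
    Polynomial A →ₐ[ℂ] B :=
  Polynomial.eval₂AlgHom φ t fun _ => Commute.all _ _

theorem bchEv_apply {B : Type} [CommRing B] [Algebra ℂ B] (φ : A →ₐ[ℂ] B) (t : B)
    (p : Polynomial A) : bchEv φ t p = Polynomial.eval₂ (φ : A →+* B) t p := rfl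

theorem bchEv_C {B : Type} [CommRing B] [Algebra ℂ B] (φ : A →ₐ[ℂ] B) (t : B) (x : A) :
    bchEv φ t (Polynomial.C x) = φ x := by
  rw [bchEv_apply, Polynomial.eval₂_C]; rfl

theorem bchEv_X {B : Type} [CommRing B] [Algebra ℂ B] (φ : A →ₐ[ℂ] B) (t : B) :
    bchEv φ t Polynomial.X = t := by
  rw [bchEv_apply, Polynomial.eval₂_X]

theorem bchEv_surj (a b : A) : Function.Surjective (bchEv (bchC a b) (bchT a b)) := by
  intro x
  induction x using bch_induction with
  | h0 x => exact ⟨_, bchEv_C _ _ x⟩
  | h1 => exact ⟨_, bchEv_X _ _⟩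
  | hadd x z hx hz =>
    obtain ⟨p, rfl⟩ := hx
    obtain ⟨q, rfl⟩ := hz
    exact ⟨p + q, map_add _ _ _⟩
  | hmul x z hx hz =>
    obtain ⟨p, rfl⟩ := hx
    obtain ⟨q, rfl⟩ := hz
    exact ⟨p * q, map_mul _ _ _⟩

theorem ft_bch (a b : A) : Algebra.FiniteType ℂ (Bch a b) := by
  have h : Algebra.FiniteType ℂ (Polynomial A) :=
    Algebra.FiniteType.trans (S := A) inferInstance inferInstance
  exact h.of_surjective _ (bchEv_surj a b)

theorem bch_homog {B : Type} [CommRing B] [Algebra ℂ B] (φ : A →ₐ[ℂ] B) {a b : A} {t : B}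
    (h : φ a * t = φ b) {p : Polynomial A} {n : ℕ} (hn : p.natDegree ≤ n) :
    φ (∑ k ∈ Finset.range (n + 1), p.coeff k * b ^ k * a ^ (n - k)) =
      φ a ^ n * bchEv φ t p := by
  rw [bchEv_apply, Polynomial.eval₂_eq_sum_range' _ (Nat.lt_succ_of_le hn), map_sum,
    Finset.mul_sum]
  refine Finset.sum_congr rfl fun k hk => ?_
  have hk' : k ≤ n := Nat.lt_succ_iff.1 (Finset.mem_range.1 hk)
  obtain ⟨m, rfl⟩ := Nat.exists_eq_add_of_le hk'
  rw [map_mul, map_mul, map_pow, map_pow, ← h, Nat.add_sub_cancel_left]
  change _ = _ * (φ _ * _)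
  ring

theorem bch_ker {a b : A} {p : Polynomial A} (hp : bchEv (bchC a b) (bchT a b) p = 0) {n : ℕ}
    (hn : p.natDegree ≤ n) :
    ∃ m : ℕ, a ^ m * ∑ k ∈ Finset.range (n + 1), p.coeff k * b ^ k * a ^ (n - k) = 0 := by
  have h := bch_homog (bchC a b) (bch_mul a b) hn
  rw [hp, mul_zero] at h
  have h2 := congrArg Subtype.val h
  rw [bchC_val] at h2
  obtain ⟨⟨_, m, rfl⟩, hm⟩ :=
    (IsLocalization.map_eq_zero_iff (Submonoid.powers a) (Localization.Away a) _).1 h2
  exact ⟨m, hm⟩

theorem bch_desc {B : Type} [CommRing B] [Algebra ℂ B] (φ : A →ₐ[ℂ] B) {a b : A} (t : B)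
    (h : ∀ p, bchEv (bchC a b) (bchT a b) p = 0 → bchEv φ t p = 0) :
    ∃ ψ : Bch a b →ₐ[ℂ] B, ψ.comp (bchC a b) = φ ∧ ψ (bchT a b) = t := by
  have key := AlgHom.liftOfSurjective_apply _ (bchEv_surj a b) (bchEv φ t) (fun p hp => h p hp)
  refine ⟨AlgHom.liftOfSurjective _ (bchEv_surj a b) (bchEv φ t) (fun p hp => h p hp), ?_, ?_⟩
  · ext x
    have := key (Polynomial.C x)
    rwa [bchEv_C, bchEv_C] at this
  · have := key Polynomial.X
    rwa [bchEv_X, bchEv_X] at this

theorem bch_lift {B : Type} [CommRing B] [Algebra ℂ B] (φ : A →ₐ[ℂ] B) {a b : A} {t : B}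
    (ha : φ a ∈ nonZeroDivisors B) (h : φ a * t = φ b) :
    ∃ ψ : Bch a b →ₐ[ℂ] B, ψ.comp (bchC a b) = φ ∧ ψ (bchT a b) = t := by
  refine bch_desc φ t fun p hp => ?_
  obtain ⟨m, hm⟩ := bch_ker hp le_rfl
  have h2 := congrArg φ hm
  rw [map_mul, map_pow, bch_homog φ h le_rfl, map_zero, ← mul_assoc, ← pow_add] at h2
  exact (mul_left_mem_nonZeroDivisors_eq_zero_iff (pow_mem ha _)).1 h2

theorem bch_ext {B : Type} [CommRing B] [Algebra ℂ B] {a b : A} {ψ ψ' : Bch a b →ₐ[ℂ] B}
    (h : ψ.comp (bchC a b) = ψ'.comp (bchC a b)) (h' : ψ (bchT a b) = ψ' (bchT a b)) :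
    ψ = ψ' := by
  ext x
  induction x using bch_induction with
  | h0 x => exact DFunLike.congr_fun h x
  | h1 => exact h'
  | hadd x z hx hz => rw [map_add, map_add, hx, hz]
  | hmul x z hx hz => rw [map_mul, map_mul, hx, hz]

theorem exists_bch_g2 (a b : A) : ∃ g : Bch b a →ₐ[ℂ] Localization.Away (bchT a b),
    g.comp (bchC b a) = (toAway (bchT a b)).comp (bchC a b) ∧
      g (bchT b a) * toAway (bchT a b) (bchT a b) = 1 := by
  haveI := ft_bch a b
  have hu : toAway (bchT a b) (bchT a b) * IsLocalization.Away.invSelf (bchT a b) = 1 :=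
    IsLocalization.Away.mul_invSelf _
  have e : ((toAway (bchT a b)).comp (bchC a b)) b =
      toAway (bchT a b) (bchC a b a) * toAway (bchT a b) (bchT a b) := by
    rw [← map_mul, bch_mul]; rfl
  have ha : toAway (bchT a b) (bchC a b a) ∈ nonZeroDivisors (Localization.Away (bchT a b)) :=
    IsLocalization.nonZeroDivisors_le_comap (Submonoid.powers (bchT a b)) _ (bch_regular a b)
  obtain ⟨g, h1, h2⟩ := bch_lift ((toAway (bchT a b)).comp (bchC a b)) (a := b) (b := a)
    (t := IsLocalization.Away.invSelf (bchT a b))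
    (by rw [e]; exact mul_mem ha (IsUnit.mem_nonZeroDivisors (bch_unit _)))
    (by rw [e, mul_assoc, hu, mul_one]; rfl)
  exact ⟨g, h1, by rw [h2, mul_comm, hu]⟩

theorem bch_coeff {a b : A} (ha : a ∈ nonZeroDivisors A) (hab : ∀ z, a ∣ b * z → a ∣ z) (n : ℕ) :
    ∀ p : Polynomial A, p.natDegree ≤ n → bchEv (bchC a b) (bchT a b) p = 0 →
      p.coeff 0 ∈ Ideal.span {a, b} := by
  have hpow : ∀ (m : ℕ) (z : A), a ∣ z * b ^ m → a ∣ z := by
    intro m
    induction m with
    | zero => intro z hz; simpa using hz
    | succ m ih =>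
      intro z hz
      refine ih z (hab _ ?_)
      rwa [show b * (z * b ^ m) = z * b ^ (m + 1) by ring]
  induction n with
  | zero =>
    intro p hn hp
    obtain ⟨m, hm⟩ := bch_ker hp hn
    have := (mul_left_mem_nonZeroDivisors_eq_zero_iff (pow_mem ha m)).1 hm
    simp only [zero_add, Finset.sum_range_one, pow_zero, mul_one, Nat.sub_self] at this
    rw [this]; exact zero_mem _
  | succ n ih =>
    intro p hn hp
    obtain ⟨m, hm⟩ := bch_ker hp hn
    have h1 := (mul_left_mem_nonZeroDivisors_eq_zero_iff (pow_mem ha m)).1 hm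
    rw [Finset.sum_range_succ, Nat.sub_self, pow_zero, mul_one] at h1
    have h2 : a ∣ p.coeff (n + 1) * b ^ (n + 1) := by
      rw [eq_neg_of_add_eq_zero_right h1, dvd_neg]
      refine Finset.dvd_sum fun k hk => Dvd.dvd.mul_left (dvd_pow_self a ?_) _
      have := Finset.mem_range.1 hk
      omega
    obtain ⟨c, hc⟩ := hpow _ _ h2
    have h3 := ih (p - (Polynomial.monomial (n + 1) (a * c) - Polynomial.monomial n (b * c)))
      (by
        rw [Polynomial.natDegree_le_iff_coeff_eq_zero]
        intro k hk
        rw [Polynomial.coeff_sub, Polynomial.coeff_sub, Polynomial.coeff_monomial,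
          Polynomial.coeff_monomial, if_neg (show n ≠ k by omega), sub_zero]
        split_ifs with e
        · rw [← e, hc, sub_self]
        · rw [Polynomial.coeff_eq_zero_of_natDegree_lt (by omega), sub_zero])
      (by
        rw [map_sub, map_sub, hp, ← Polynomial.C_mul_X_pow_eq_monomial,
          ← Polynomial.C_mul_X_pow_eq_monomial]
        simp only [map_mul, map_pow, bchEv_C, bchEv_X]
        rw [← bch_mul a b]
        ring)
    rw [Polynomial.coeff_sub, Polynomial.coeff_sub, Polynomial.coeff_monomial,
      Polynomial.coeff_monomial, if_neg (Nat.succ_ne_zero n), zero_sub, sub_neg_eq_add] at h3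
    have h4 : (if n = 0 then b * c else 0) ∈ Ideal.span {a, b} := by
      split_ifs
      · exact Ideal.mul_mem_right _ _ (Ideal.subset_span (by simp))
      · exact zero_mem _
    simpa using sub_mem h3 h4

/-- the section of the exceptional divisor over the centre -/
theorem exists_bch_sec (H : Chart y) {i j : Fin N} (h : i ≠ j) :
    ∃ s : Bch (y i) (y j) →ₐ[ℂ] A ⧸ Ideal.span {y i, y j},
      s.comp (bchC (y i) (y j)) = Ideal.Quotient.mkₐ ℂ _ := by
  obtain ⟨s, hs, -⟩ := bch_desc (a := y i) (b := y j)
    (Ideal.Quotient.mkₐ ℂ (Ideal.span {y i, y j})) 0 fun p hp => by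
      rw [bchEv_apply, Polynomial.eval₂_at_zero]
      exact Ideal.Quotient.eq_zero_iff_mem.2
        (bch_coeff (H.regular i) (fun z hz => H.reg_mod h hz) _ p le_rfl hp)
  exact ⟨s, hs⟩

theorem bch_der {a b : A} (D : Derivation ℂ (Localization.Away a) (Localization.Away a))
    (h0 : ∀ x, D (algebraMap A _ x) ∈ Bch a b) (h1 : D (bchT a b) ∈ Bch a b) :
    ∃ D' : Derivation ℂ (Bch a b) (Bch a b), ∀ x, (D' x : Localization.Away a) = D x := by
  have key : ∀ x : Bch a b, D x ∈ Bch a b := by
    intro x
    induction x using bch_induction with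
    | h0 x => exact h0 x
    | h1 => exact h1
    | hadd x z hx hz => rw [Subalgebra.coe_add, map_add]; exact add_mem hx hz
    | hmul x z hx hz =>
      rw [Subalgebra.coe_mul, D.leibniz, smul_eq_mul, smul_eq_mul]
      exact add_mem (mul_mem x.2 hz) (mul_mem z.2 hx)
  refine ⟨Derivation.mk'
    { toFun := fun x => ⟨D x, key x⟩
      map_add' := fun x z => Subtype.ext (map_add D _ _)
      map_smul' := fun c x => Subtype.ext (D.map_smul c _) }
    (fun x z => Subtype.ext (D.leibniz _ _)), fun x => rfl⟩

theorem bch_der_T {a b : A} (D : Derivation ℂ (Localization.Away a) (Localization.Away a))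
    {z : Localization.Away a}
    (h : D (algebraMap A _ b) = algebraMap A _ a * z + bchT a b * D (algebraMap A _ a)) :
    D (bchT a b) = z := by
  have e : algebraMap A (Localization.Away a) a * bchT a b = algebraMap A _ b :=
    congrArg Subtype.val (bch_mul a b)
  rw [← e, D.leibniz, smul_eq_mul, smul_eq_mul, add_left_inj] at h
  exact (bch_unit a).mul_left_cancel h

theorem chart_bch (H : Chart y) {i j : Fin N} (h : i ≠ j) :
    Chart (Function.update (fun k => bchC (y i) (y j) (y k)) j (bchT (y i) (y j))) := by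
  constructor
  · obtain ⟨E, hE⟩ := H.dual
    choose E' hE' using fun k =>
      der_loc (B := Localization.Away (y i)) (Submonoid.powers (y i)) (E k)
    have hd : ∀ k l, E' k (algebraMap A _ (y l)) = if k = l then 1 else 0 := fun k l => by
      rw [hE', hE]; split_ifs <;> simp
    have hm : ∀ k x, E' k (algebraMap A _ x) ∈ Bch (y i) (y j) := fun k x => by
      rw [hE']; exact (bchC (y i) (y j) _).2
    have main : ∀ k, ∃ D : Derivation ℂ (Localization.Away (y i)) (Localization.Away (y i)),
        (∀ x, D (algebraMap A _ x) ∈ Bch (y i) (y j)) ∧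
          D (bchT (y i) (y j)) = (if k = j then 1 else 0) ∧
          ∀ l, l ≠ j → D (algebraMap A _ (y l)) = if k = l then 1 else 0 := by
      intro k
      by_cases hkj : k = j
      · subst hkj
        refine ⟨algebraMap A (Localization.Away (y i)) (y i) • E' k, fun x => ?_, ?_,
          fun l hl => ?_⟩
        · rw [Derivation.smul_apply, smul_eq_mul]
          exact mul_mem (bchC (y i) (y k) _).2 (hm k x)
        · apply bch_der_T
          simp only [Derivation.smul_apply, smul_eq_mul, hd, if_true, if_neg h.symm, mul_zero,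
            add_zero]
        · rw [Derivation.smul_apply, hd, if_neg hl.symm, smul_zero]
      · by_cases hki : k = i
        · subst hki
          refine ⟨E' k + (bchT (y k) (y j) : Localization.Away (y k)) • E' j, fun x => ?_, ?_,
            fun l hl => ?_⟩
          · rw [Derivation.add_apply, Derivation.smul_apply, smul_eq_mul]
            exact add_mem (hm k x) (mul_mem (bchT (y k) (y j)).2 (hm j x))
          · apply bch_der_T
            simp only [Derivation.add_apply, Derivation.smul_apply, smul_eq_mul, hd, if_true,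
              if_neg h, if_neg h.symm, mul_zero, add_zero, zero_add]
          · rw [Derivation.add_apply, Derivation.smul_apply, hd, hd, if_neg hl.symm, smul_zero,
              add_zero]
        · refine ⟨E' k, hm k, ?_, fun l _ => hd k l⟩
          apply bch_der_T
          simp only [hd, if_neg hkj, if_neg hki, mul_zero, add_zero]
    choose D hD0 hD1 hD2 using main
    have hT : ∀ k, D k (bchT (y i) (y j)) ∈ Bch (y i) (y j) := fun k => by
      rw [hD1]; split_ifs
      · exact one_mem _
      · exact zero_mem _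
    choose F hF using fun k => bch_der (D k) (hD0 k) (hT k)
    refine ⟨F, fun k l => Subtype.ext ?_⟩
    rw [hF]
    by_cases hl : l = j
    · subst hl
      rw [Function.update_self, hD1]; split_ifs <;> rfl
    · rw [Function.update_of_ne hl, bchC_val, hD2 k l hl]; split_ifs <;> rfl
  · letI : Algebra A (Bch (y i) (y j)) := (bchC (y i) (y j)).toRingHom.toAlgebra
    haveI : IsScalarTower ℂ A (Bch (y i) (y j)) :=
      IsScalarTower.of_algebraMap_eq fun c => ((bchC (y i) (y j)).commutes c).symm
    set M := Submodule.span (Bch (y i) (y j)) (Set.range fun k =>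
      KaehlerDifferential.D ℂ (Bch (y i) (y j))
        (Function.update (fun k => bchC (y i) (y j) (y k)) j (bchT (y i) (y j)) k)) with hM
    have g0 : ∀ k, k ≠ j → KaehlerDifferential.D ℂ _ (bchC (y i) (y j) (y k)) ∈ M :=
      fun k hk => Submodule.subset_span ⟨k, by simp only [Function.update_of_ne hk]⟩
    have g1 : KaehlerDifferential.D ℂ _ (bchT (y i) (y j)) ∈ M :=
      Submodule.subset_span ⟨j, by simp only [Function.update_self]⟩
    have g2 : ∀ k, KaehlerDifferential.D ℂ _ (bchC (y i) (y j) (y k)) ∈ M := fun k => by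
      by_cases hk : k = j
      · rw [hk, ← bch_mul, Derivation.leibniz]
        exact add_mem (M.smul_mem _ g1) (M.smul_mem _ (g0 i h))
      · exact g0 k hk
    have g3 : ∀ ω, KaehlerDifferential.map ℂ ℂ A (Bch (y i) (y j)) ω ∈ M := fun ω => by
      have hω : ω ∈ Submodule.span A (Set.range fun k => KaehlerDifferential.D ℂ A (y k)) := by
        rw [H.span]; trivial
      induction hω using Submodule.span_induction with
      | mem x hx =>
        obtain ⟨k, rfl⟩ := hx
        rw [KaehlerDifferential.map_D]; exact g2 k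
      | zero => rw [map_zero]; exact zero_mem _
      | add x z _ _ hx hz => rw [map_add]; exact add_mem hx hz
      | smul c x _ hx =>
        rw [map_smul, ← algebraMap_smul (Bch (y i) (y j))]; exact M.smul_mem _ hx
    rw [eq_top_iff, ← KaehlerDifferential.span_range_derivation, Submodule.span_le]
    rintro _ ⟨x, rfl⟩
    change KaehlerDifferential.D ℂ _ x ∈ M
    induction x using bch_induction with
    | h0 x =>
      have := g3 (KaehlerDifferential.D ℂ A x)
      rwa [KaehlerDifferential.map_D] at this
    | h1 => exact g1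
    | hadd x z hx hz => rw [map_add]; exact add_mem hx hz
    | hmul x z hx hz =>
      rw [Derivation.leibniz]; exact add_mem (M.smul_mem _ hz) (M.smul_mem _ hx)

end Pool.Agent.P.MP_824f38_ag.N
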