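import Pool.Agent.P.MP_824f38_ag.N.Loc

/-! Row NEC-CLoc: forms on localisations

dr_loc_surj: dr_induction; h² d (a / h) = h d a - a d h. dr_loc_ker: build the ring T = LocalizedModule or Localization of DR A at the central powers of h
(for instance B ⊗[A] DR A, or OreLocalization) and a ring map DR B → T with V.exists_lift that inverts the pull-back; an element of DR A that dies in
B ⊗[A] DR A is killed by a power of h (IsLocalizedModule). zar_glue, zar_sum: the usual sheaf property of a module for two opens with a f^n + b g^n = 1. -/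

set_option linter.unusedVariables false
set_option linter.unusedSectionVars false
set_option linter.style.haveILetI false
set_option linter.dupNamespace false

namespace Pool.Agent.P.MP_824f38_ag.N

variable {A : Type} [CommRing A] [Algebra ℂ A]

theorem dr_loc_surj (h : A) {B : Type} [CommRing B] [Algebra ℂ B] [Algebra A B]
    [IsScalarTower ℂ A B] [IsLocalization.Away h B] (ω : DR B) : ∃ (n : ℕ) (β : DR A),
      pull (IsScalarTower.toAlgHom ℂ A B) β = algebraMap A B h ^ n • ω := by
  set φ := IsScalarTower.toAlgHom ℂ A B with hφ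
  have e : ∀ a, algebraMap A B a = φ a := fun _ => rfl
  simp only [e]
  induction ω using dr_induction with
  | h0 b =>
    obtain ⟨n, a, ha⟩ := IsLocalization.Away.surj h b
    rw [e, e] at ha
    refine ⟨n, algebraMap A _ a, ?_⟩
    rw [pull_algebraMap, ← ha, Algebra.smul_def, ← map_mul, mul_comm]
  | h1 b =>
    obtain ⟨n, a, ha⟩ := IsLocalization.Away.surj h b
    rw [e, e] at ha
    refine ⟨n + n, h ^ n • dd a - a • dd (h ^ n), ?_⟩
    rw [map_sub, pull_smul, pull_smul, pull_dd, pull_dd, map_pow, ← ha, dd_mul, smul_add,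
      smul_smul, smul_smul, mul_comm b, pow_add, add_sub_cancel_left]
  | hadd x y hx hy =>
    obtain ⟨n, α, hα⟩ := hx
    obtain ⟨m, β, hβ⟩ := hy
    refine ⟨n + m, h ^ m • α + h ^ n • β, ?_⟩
    rw [map_add, pull_smul, pull_smul, hα, hβ, smul_smul, smul_smul, map_pow, map_pow, smul_add,
      pow_add, mul_comm (φ h ^ m)]
  | hmul x y hx hy =>
    obtain ⟨n, α, hα⟩ := hx
    obtain ⟨m, β, hβ⟩ := hy
    exact ⟨n + m, α * β, by rw [map_mul, hα, hβ, smul_mul_smul_comm, pow_add]⟩

theorem dr_loc_ker (h : A) {B : Type} [CommRing B] [Algebra ℂ B] [Algebra A B]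
    [IsScalarTower ℂ A B] [IsLocalization.Away h B] {β : DR A}
    (hβ : pull (IsScalarTower.toAlgHom ℂ A B) β = 0) : ∃ n : ℕ, h ^ n • β = 0 := by
  haveI : Algebra.FormallyEtale A B := Algebra.FormallyEtale.of_isLocalization (Submonoid.powers h)
  have hb := KaehlerDifferential.isBaseChange_of_formallyEtale ℂ A B
  let l : KaehlerDifferential ℂ A →ₗ[A] TensorProduct A B (DR A) :=
    (TensorProduct.mk A B (DR A) 1).comp (ExteriorAlgebra.ι A)
  let l' := hb.lift l
  have hl : ∀ m, l' (KaehlerDifferential.map ℂ ℂ A B m) = 1 ⊗ₜ ExteriorAlgebra.ι A m :=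
    fun m => hb.lift_eq l m
  have hsq : ∀ x, l' x * l' x = 0 := by
    intro x
    obtain ⟨⟨m, s⟩, hs⟩ :=
      IsLocalizedModule.surj (Submonoid.powers h) (KaehlerDifferential.map ℂ ℂ A B) x
    obtain ⟨u, hu⟩ := IsLocalization.map_units B s
    have hx : x = (↑u⁻¹ : B) • KaehlerDifferential.map ℂ ℂ A B m := by
      rw [← hs, Submonoid.smul_def, ← algebraMap_smul B (s : A) x, ← hu, smul_smul,
        Units.inv_mul, one_smul]
    rw [hx, map_smul, hl, smul_mul_smul_comm, Algebra.TensorProduct.tmul_mul_tmul,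
      ExteriorAlgebra.ι_sq_zero, TensorProduct.tmul_zero, smul_zero]
  let F : DR B →ₐ[B] TensorProduct A B (DR A) := ExteriorAlgebra.lift B ⟨l', hsq⟩
  have key : ∀ x : DR A, F (pull (IsScalarTower.toAlgHom ℂ A B) x) = 1 ⊗ₜ x := by
    intro x
    induction x using dr_induction with
    | h0 a =>
      rw [pull_algebraMap, AlgHom.commutes, Algebra.TensorProduct.algebraMap_apply,
        Algebra.algebraMap_eq_smul_one a, TensorProduct.tmul_smul, TensorProduct.smul_tmul',
        ← Algebra.algebraMap_eq_smul_one]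
      rfl
    | h1 a =>
      rw [pull_dd]
      change F (ExteriorAlgebra.ι B _) = _
      rw [ExteriorAlgebra.lift_ι_apply]
      exact (congrArg l' (KaehlerDifferential.map_D ℂ ℂ A B a).symm).trans (hl _)
    | hadd x y hx hy => rw [map_add, map_add, hx, hy, TensorProduct.tmul_add]
    | hmul x y hx hy =>
      rw [map_mul, map_mul, hx, hy, Algebra.TensorProduct.tmul_mul_tmul, mul_one]
  have h0 := key β
  rw [hβ, map_zero] at h0
  haveI : IsLocalizedModule (Submonoid.powers h) (TensorProduct.mk A B (DR A) 1) :=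
    (isLocalizedModule_iff_isBaseChange (Submonoid.powers h) B _).2
      (TensorProduct.isBaseChange A (DR A) B)
  obtain ⟨⟨s, n, rfl⟩, hs⟩ := (IsLocalizedModule.eq_zero_iff (Submonoid.powers h)
    (TensorProduct.mk A B (DR A) 1)).1 h0.symm
  exact ⟨n, hs⟩

theorem cloc_cancel {B : Type} [CommRing B] [Algebra ℂ B] {u : B} (hu : IsUnit u) {x z : DR B}
    (h : u • x = u • z) : x = z := hu.smul_left_cancel.1 h

theorem cloc_coprime {f g : A} (hfg : Ideal.span {f, g} = ⊤) (n m : ℕ) :
    ∃ u v : A, u * f ^ n + v * g ^ m = 1 := by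
  have h : IsCoprime f g := by
    have h1 : (1 : A) ∈ Ideal.span {f, g} := by rw [hfg]; trivial
    exact Ideal.mem_span_pair.1 h1
  exact h.pow

theorem cloc_unit (f : A) (n : ℕ) : IsUnit (toAway f (f ^ n)) := by
  rw [map_pow]
  exact (IsLocalization.Away.algebraMap_isUnit f).pow n

theorem cloc_surj (f : A) (ω : DR (Localization.Away f)) : ∃ (n : ℕ) (β : DR A),
    pull (toAway f) β = toAway f (f ^ n) • ω := by
  obtain ⟨n, β, h⟩ := dr_loc_surj f ω
  exact ⟨n, β, by rw [map_pow]; exact h⟩

theorem zar_glue {f g : A} (hfg : Ideal.span {f, g} = ⊤)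
    (g1 : Localization.Away f →ₐ[ℂ] Localization.Away (f * g))
    (g2 : Localization.Away g →ₐ[ℂ] Localization.Away (f * g))
    (e1 : g1.comp (toAway f) = toAway (f * g)) (e2 : g2.comp (toAway g) = toAway (f * g))
    {a : DR (Localization.Away f)} {b : DR (Localization.Away g)} (h : pull g1 a = pull g2 b) :
    ∃ ω : DR A, pull (toAway f) ω = a ∧ pull (toAway g) ω = b := by
  obtain ⟨n, α, hα⟩ := cloc_surj f a
  obtain ⟨m, β, hβ⟩ := cloc_surj g b
  have h1 : pull (toAway (f * g)) α = toAway (f * g) (f ^ n) • pull g1 a := by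
    rw [← e1, ← pull_pull, hα, pull_smul]; rfl
  have h2 : pull (toAway (f * g)) β = toAway (f * g) (g ^ m) • pull g1 a := by
    rw [h, ← e2, ← pull_pull, hβ, pull_smul]; rfl
  obtain ⟨k, hk⟩ := dr_loc_ker (f * g) (B := Localization.Away (f * g))
    (β := g ^ m • α - f ^ n • β) (by
      rw [map_sub, pull_smul, pull_smul, h1, h2, smul_comm, sub_self])
  obtain ⟨u, v, huv⟩ := cloc_coprime hfg (k + n) (k + m)
  have h3 : g ^ (k + m) • f ^ k • α = f ^ (k + n) • g ^ k • β := by
    rw [smul_sub, sub_eq_zero, smul_smul, smul_smul] at hk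
    rw [smul_smul, smul_smul, show g ^ (k + m) * f ^ k = (f * g) ^ k * g ^ m by ring, hk,
      show f ^ (k + n) * g ^ k = (f * g) ^ k * f ^ n by ring]
  refine ⟨u • f ^ k • α + v • g ^ k • β, cloc_cancel (cloc_unit f (k + n)) ?_,
    cloc_cancel (cloc_unit g (k + m)) ?_⟩
  · rw [← pull_smul, smul_add, smul_comm _ u, smul_comm _ v, ← h3, smul_smul u, smul_smul v,
      ← add_smul, huv, one_smul, pull_smul, hα, smul_smul, ← map_mul, pow_add]
  · rw [← pull_smul, smul_add, smul_comm _ u, smul_comm _ v, h3, smul_smul u, smul_smul v,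
      ← add_smul, huv, one_smul, pull_smul, hβ, smul_smul, ← map_mul, pow_add]

theorem zar_sum {f g : A} (hfg : Ideal.span {f, g} = ⊤)
    (g1 : Localization.Away f →ₐ[ℂ] Localization.Away (f * g))
    (g2 : Localization.Away g →ₐ[ℂ] Localization.Away (f * g))
    (e1 : g1.comp (toAway f) = toAway (f * g)) (e2 : g2.comp (toAway g) = toAway (f * g))
    (ω : DR (Localization.Away (f * g))) : ∃ a b, ω = pull g1 a - pull g2 b := by
  have c1 : ∀ x, g1 (toAway f x) = toAway (f * g) x := fun x => DFunLike.congr_fun e1 x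
  have c2 : ∀ x, g2 (toAway g x) = toAway (f * g) x := fun x => DFunLike.congr_fun e2 x
  obtain ⟨n, β, hβ⟩ := cloc_surj (f * g) ω
  obtain ⟨u, v, huv⟩ := cloc_coprime hfg n n
  obtain ⟨f', hf'⟩ := (cloc_unit f n).exists_right_inv
  obtain ⟨g', hg'⟩ := (cloc_unit g n).exists_right_inv
  have d1 := congrArg g1 hf'
  have d2 := congrArg g2 hg'
  rw [map_mul, c1, map_one] at d1
  rw [map_mul, c2, map_one] at d2
  refine ⟨f' • pull (toAway f) (v • β), -(g' • pull (toAway g) (u • β)),
    cloc_cancel (cloc_unit (f * g) n) ?_⟩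
  rw [← hβ, map_neg, sub_neg_eq_add, pull_smul g1, pull_smul g2, pull_pull, pull_pull, e1, e2,
    pull_smul, pull_smul, smul_smul, smul_smul, ← add_smul, smul_smul]
  have d3 := congrArg (toAway (f * g)) huv
  rw [map_add, map_mul, map_mul, map_one] at d3
  have d4 : toAway (f * g) ((f * g) ^ n) *
      (g1 f' * toAway (f * g) v + g2 g' * toAway (f * g) u) = 1 := by
    rw [mul_pow, map_mul]
    linear_combination d3 + toAway (f * g) v * toAway (f * g) (g ^ n) * d1 +
      toAway (f * g) u * toAway (f * g) (f ^ n) * d2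
  rw [d4, one_smul]

end Pool.Agent.P.MP_824f38_ag.N
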