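import Pool.Agent.P.MP_824f38_ag.N.LTaylor

/-! Row NEC-LPrime: ideals of coordinates are locally prime

Let J = span (y '' P), 𝔪 = ker w. If f is not in sat J there is (sat_krull) a least d with f not in sat (J ⊔ 𝔪^(d+1)); then f ≡ F(y) with F a nonzero
homogeneous polynomial of degree d in the y i, i ∉ P (expand). Same for g, G, e. f g ≡ (F G)(y) modulo sat (J ⊔ 𝔪^(d+e+1)), and this ideal lies in
sat (JJ y c (d+e+1)) for c i = d+e+1 on P and 1 elsewhere; aeval_mem_sat gives a contradiction. lc_domain: sat w ⊥ is prime and killed by one h. -/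

set_option linter.unusedVariables false
set_option linter.unusedSectionVars false
set_option linter.style.haveILetI false
set_option linter.dupNamespace false

namespace Pool.Agent.P.MP_824f38_ag.N

variable {A : Type} [CommRing A] [Algebra ℂ A] [Algebra.FiniteType ℂ A]
  {ι : Type} [Fintype ι] [DecidableEq ι] {w : A →ₐ[ℂ] ℂ}

/-- all monomials avoid the variables of `P` -/
private def Free (P : Set ι) (F : MvPolynomial ι ℂ) : Prop := ∀ α ∈ F.support, ∀ i ∈ P, α i = 0

/-- all monomials have degree `d` -/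
private def Deg (d : ℕ) (F : MvPolynomial ι ℂ) : Prop := ∀ α ∈ F.support, ∑ i, α i = d

private theorem Free.mul {P : Set ι} {F G : MvPolynomial ι ℂ} (hF : Free P F) (hG : Free P G) :
    Free P (F * G) := by
  intro α hα i hi
  obtain ⟨β, hβ, γ, hγ, rfl⟩ := Finset.mem_add.1 (MvPolynomial.support_mul F G hα)
  rw [Finsupp.add_apply, hF β hβ i hi, hG γ hγ i hi]

private theorem Deg.mul {d e : ℕ} {F G : MvPolynomial ι ℂ} (hF : Deg d F) (hG : Deg e G) :
    Deg (d + e) (F * G) := by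
  intro α hα
  obtain ⟨β, hβ, γ, hγ, rfl⟩ := Finset.mem_add.1 (MvPolynomial.support_mul F G hα)
  simp only [Finsupp.add_apply]
  rw [Finset.sum_add_distrib, hF β hβ, hG γ hγ]

private theorem aeval_mon (y : ι → A) (α : ι →₀ ℕ) (a : ℂ) :
    MvPolynomial.aeval y (MvPolynomial.monomial α a) = algebraMap ℂ A a * ∏ i, y i ^ α i := by
  rw [MvPolynomial.aeval_monomial, Finsupp.prod_fintype _ _ (fun i => pow_zero _)]

private theorem mon_mem_pow {y : ι → A} (van : ∀ i, w (y i) = 0) (α : ι →₀ ℕ) (a : ℂ) :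
    MvPolynomial.aeval y (MvPolynomial.monomial α a) ∈ RingHom.ker w ^ (∑ i, α i) := by
  rw [aeval_mon, ← Finset.prod_pow_eq_pow_sum]
  refine Ideal.mul_mem_left _ _ (Ideal.prod_mem_prod fun i _ => Ideal.pow_mem_pow ?_ _)
  exact (RingHom.mem_ker).2 (van i)

private theorem mon_mem_span (y : ι → A) {P : Set ι} (α : ι →₀ ℕ) (a : ℂ) {i : ι} (hi : i ∈ P)
    (h : α i ≠ 0) :
    MvPolynomial.aeval y (MvPolynomial.monomial α a) ∈ Ideal.span (y '' P) := by
  rw [aeval_mon, ← Finset.mul_prod_erase _ _ (Finset.mem_univ i)]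
  refine Ideal.mul_mem_left _ _ (Ideal.mul_mem_right _ _ ?_)
  exact Ideal.pow_mem_of_mem _ (Ideal.subset_span (Set.mem_image_of_mem y hi)) _
    (Nat.pos_of_ne_zero h)

private theorem Deg.mem_pow {y : ι → A} (van : ∀ i, w (y i) = 0) {d : ℕ} {F : MvPolynomial ι ℂ}
    (hF : Deg d F) : MvPolynomial.aeval y F ∈ RingHom.ker w ^ d := by
  rw [F.as_sum, map_sum]
  refine Ideal.sum_mem _ fun α hα => ?_
  rw [← hF α hα]
  exact mon_mem_pow van α _

private theorem ker_pow_le {y : ι → A} (H : LC w y) {c : ι → ℚ} (hc : ∀ i, 1 ≤ c i) (n : ℕ) :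
    RingHom.ker w ^ n ≤ sat w (JJ y c n) := by
  have h1 : RingHom.ker w ≤ sat w (JJ y c 1) := by
    intro f hf
    refine sat_mono w ?_ (H.gen f ((RingHom.mem_ker).1 hf))
    rw [Ideal.span_le]
    rintro _ ⟨i, rfl⟩
    exact JJ_anti y c (hc i) (mem_JJ_self y c i)
  induction n with
  | zero =>
    rw [Nat.cast_zero, JJ_nonpos y c le_rfl]
    exact le_top.trans (le_sat w ⊤)
  | succ n ih =>
    rw [pow_succ, Ideal.mul_le, Nat.cast_succ]
    intro f hf g hg
    exact sat_mul (JJ_mul y c n 1) (ih hf) (h1 hg)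

private theorem Free.le_deg {y : ι → A} (H : LC w y) {P : Set ι} {F : MvPolynomial ι ℂ}
    (hF : Free P F) {n : ℕ}
    (h : MvPolynomial.aeval y F ∈ sat w (Ideal.span (y '' P) ⊔ RingHom.ker w ^ n)) :
    ∀ α ∈ F.support, n ≤ ∑ i, α i := by
  classical
  let c : ι → ℚ := fun i => if i ∈ P then n + 1 else 1
  have hn : (0 : ℚ) ≤ n := Nat.cast_nonneg n
  have hc : ∀ i, 1 ≤ c i := fun i => by
    by_cases hi : i ∈ P
    · simp only [c, if_pos hi]; linarith
    · simp only [c, if_neg hi]; exact le_rfl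
  have hle : Ideal.span (y '' P) ⊔ RingHom.ker w ^ n ≤ sat w (JJ y c n) := by
    refine sup_le ?_ (ker_pow_le H hc n)
    rw [Ideal.span_le]
    rintro _ ⟨i, hi, rfl⟩
    refine le_sat w _ (JJ_anti y c ?_ (mem_JJ_self y c i))
    simp only [c, if_pos hi]; linarith
  intro α hα
  have h1 := aeval_mem_sat H (fun i => zero_le_one.trans (hc i)) (sat_le_sat w hle h) α hα
  have h2 : ∑ i, (α i : ℚ) * c i = ((∑ i, α i : ℕ) : ℚ) := by
    rw [Nat.cast_sum]
    refine Finset.sum_congr rfl fun i _ => ?_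
    by_cases hi : i ∈ P
    · rw [hF α hα i hi, Nat.cast_zero, zero_mul]
    · simp only [c, if_neg hi, mul_one]
  rw [h2] at h1
  exact_mod_cast h1

private theorem exists_ini {y : ι → A} (H : LC w y) {P : Set ι} {f : A}
    (hf : f ∉ sat w (Ideal.span (y '' P))) : ∃ (d : ℕ) (F : MvPolynomial ι ℂ), F ≠ 0 ∧ Free P F ∧
      Deg d F ∧ f ∈ sat w (Ideal.span (y '' P) ⊔ RingHom.ker w ^ d) ∧
      f - MvPolynomial.aeval y F ∈ sat w (Ideal.span (y '' P) ⊔ RingHom.ker w ^ (d + 1)) := by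
  classical
  have hex : ∃ n, f ∉ sat w (Ideal.span (y '' P) ⊔ RingHom.ker w ^ n) := by
    by_contra hn
    exact hf (sat_krull fun n => not_not.1 fun h => hn ⟨n, h⟩)
  have h0 : Nat.find hex ≠ 0 := by
    intro h0
    have h1 := Nat.find_spec hex
    rw [h0, pow_zero, Ideal.one_eq_top, sup_top_eq] at h1
    exact h1 (le_sat w ⊤ Submodule.mem_top)
  obtain ⟨d, hd⟩ := Nat.exists_eq_succ_of_ne_zero h0
  have h1 : f ∉ sat w (Ideal.span (y '' P) ⊔ RingHom.ker w ^ (d + 1)) := by
    have := Nat.find_spec hex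
    rwa [hd] at this
  have h2 : f ∈ sat w (Ideal.span (y '' P) ⊔ RingHom.ker w ^ d) :=
    not_not.1 (Nat.find_min hex (by rw [hd]; exact Nat.lt_succ_self d))
  obtain ⟨Q, hQ⟩ := expand H f (d + 1)
  let p : (ι →₀ ℕ) → Prop := fun α => (∀ i ∈ P, α i = 0) ∧ ∑ i, α i ≤ d
  let F : MvPolynomial ι ℂ :=
    ∑ α ∈ Q.support.filter p, MvPolynomial.monomial α (MvPolynomial.coeff α Q)
  have hsupp : ∀ α ∈ F.support, p α := by
    intro α hα
    by_contra hp
    refine MvPolynomial.mem_support_iff.1 hα ?_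
    rw [MvPolynomial.coeff_sum]
    refine Finset.sum_eq_zero fun β hβ => ?_
    rw [MvPolynomial.coeff_monomial, if_neg]
    rintro rfl
    exact hp (Finset.mem_filter.1 hβ).2
  have hrest : MvPolynomial.aeval y Q - MvPolynomial.aeval y F ∈
      Ideal.span (y '' P) ⊔ RingHom.ker w ^ (d + 1) := by
    have e : Q = F + ∑ α ∈ Q.support.filter (fun α => ¬ p α),
        MvPolynomial.monomial α (MvPolynomial.coeff α Q) := by
      rw [Finset.sum_filter_add_sum_filter_not]
      exact Q.as_sum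
    have e' : MvPolynomial.aeval y Q - MvPolynomial.aeval y F =
        MvPolynomial.aeval y (∑ α ∈ Q.support.filter (fun α => ¬ p α),
          MvPolynomial.monomial α (MvPolynomial.coeff α Q)) := by
      rw [← map_sub, sub_eq_of_eq_add' e]
    rw [e', map_sum]
    refine Ideal.sum_mem _ fun α hα => ?_
    have hp : ¬ p α := (Finset.mem_filter.1 hα).2
    by_cases hP : ∀ i ∈ P, α i = 0
    · have h3 : d + 1 ≤ ∑ i, α i := by
        by_contra h3
        exact hp ⟨hP, by omega⟩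
      exact Ideal.mem_sup_right (Ideal.pow_le_pow_right h3 (mon_mem_pow H.van α _))
    · obtain ⟨i, hi⟩ := not_forall.1 hP
      obtain ⟨hi, hi'⟩ := Classical.not_imp.1 hi
      exact Ideal.mem_sup_left (mon_mem_span y α _ hi hi')
  have h3 : f - MvPolynomial.aeval y F ∈
      sat w (Ideal.span (y '' P) ⊔ RingHom.ker w ^ (d + 1)) := by
    rw [← sub_add_sub_cancel f (MvPolynomial.aeval y Q)]
    exact add_mem (sat_mono w le_sup_right hQ) (le_sat w _ hrest)
  have hfree : Free P F := fun α hα => (hsupp α hα).1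
  have h4 : MvPolynomial.aeval y F ∈ sat w (Ideal.span (y '' P) ⊔ RingHom.ker w ^ d) := by
    rw [← sub_sub_cancel f (MvPolynomial.aeval y F)]
    exact sub_mem h2
      (sat_mono w (sup_le_sup_left (Ideal.pow_le_pow_right (Nat.le_succ d)) _) h3)
  refine ⟨d, F, ?_, hfree, fun α hα => le_antisymm (hsupp α hα).2 (hfree.le_deg H h4 α hα), h2, h3⟩
  intro hF
  rw [hF, map_zero, sub_zero] at h3
  exact h1 h3

private theorem sup_pow_mul (J K : Ideal A) (a b : ℕ) :
    (J ⊔ K ^ a) * (J ⊔ K ^ b) ≤ J ⊔ K ^ (a + b) := by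
  rw [Ideal.mul_le]
  intro f hf g hg
  obtain ⟨f1, hf1, f2, hf2, rfl⟩ := Submodule.mem_sup.1 hf
  obtain ⟨g1, hg1, g2, hg2, rfl⟩ := Submodule.mem_sup.1 hg
  rw [show (f1 + f2) * (g1 + g2) = (f1 * (g1 + g2) + f2 * g1) + f2 * g2 by ring, pow_add]
  exact Ideal.add_mem _ (Ideal.mem_sup_left
    (Ideal.add_mem _ (Ideal.mul_mem_right _ _ hf1) (Ideal.mul_mem_left _ _ hg1)))
    (Ideal.mem_sup_right (Ideal.mul_mem_mul hf2 hg2))

theorem sat_prime {y : ι → A} (H : LC w y) (P : Set ι) :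
    (sat w (Ideal.span (y '' P))).IsPrime := by
  refine ⟨?_, fun {f g} hfg => ?_⟩
  · rw [Ideal.ne_top_iff_one]
    rintro ⟨h, h0, hh⟩
    have hle : Ideal.span (y '' P) ≤ RingHom.ker w := by
      rw [Ideal.span_le]
      rintro _ ⟨i, -, rfl⟩
      exact (RingHom.mem_ker).2 (H.van i)
    rw [mul_one] at hh
    exact h0 ((RingHom.mem_ker).1 (hle hh))
  · by_contra hn
    obtain ⟨hf, hg⟩ := not_or.1 hn
    obtain ⟨d, F, hF0, hF, hFd, -, hf2⟩ := exists_ini H hf
    obtain ⟨e, G, hG0, hG, hGe, hg1, hg2⟩ := exists_ini H hg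
    have h1 : (f - MvPolynomial.aeval y F) * g ∈
        sat w (Ideal.span (y '' P) ⊔ RingHom.ker w ^ (d + e + 1)) := by
      rw [show d + e + 1 = d + 1 + e by ring]
      exact sat_mul (sup_pow_mul _ _ _ _) hf2 hg1
    have h2 : MvPolynomial.aeval y F * (g - MvPolynomial.aeval y G) ∈
        sat w (Ideal.span (y '' P) ⊔ RingHom.ker w ^ (d + e + 1)) := by
      rw [add_assoc]
      exact sat_mul (sup_pow_mul _ _ _ _)
        (le_sat w _ (Ideal.mem_sup_right (hFd.mem_pow H.van))) hg2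
    have h3 : MvPolynomial.aeval y (F * G) ∈
        sat w (Ideal.span (y '' P) ⊔ RingHom.ker w ^ (d + e + 1)) := by
      rw [map_mul, show MvPolynomial.aeval y F * MvPolynomial.aeval y G =
        f * g - (f - MvPolynomial.aeval y F) * g -
          MvPolynomial.aeval y F * (g - MvPolynomial.aeval y G) by ring]
      exact sub_mem (sub_mem (sat_mono w le_sup_left hfg) h1) h2
    obtain ⟨α, hα⟩ := MvPolynomial.support_nonempty.2 (mul_ne_zero hF0 hG0)
    have h4 := (hF.mul hG).le_deg H h3 α hα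
    rw [hFd.mul hGe α hα] at h4
    omega

theorem notMem_sat_span {y : ι → A} (H : LC w y) {P : Set ι} {i : ι} (hi : i ∉ P) :
    y i ∉ sat w (Ideal.span (y '' P)) := by
  intro h
  have hF : Free P (MvPolynomial.X i : MvPolynomial ι ℂ) := by
    intro α hα j hj
    rw [MvPolynomial.support_X, Finset.mem_singleton] at hα
    rw [hα, Finsupp.single_apply, if_neg]
    rintro rfl
    exact hi hj
  have h1 : MvPolynomial.aeval y (MvPolynomial.X i : MvPolynomial ι ℂ) ∈
      sat w (Ideal.span (y '' P) ⊔ RingHom.ker w ^ 2) := by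
    rw [MvPolynomial.aeval_X]
    exact sat_mono w le_sup_left h
  have h2 := hF.le_deg H h1 (Finsupp.single i 1)
    (by rw [MvPolynomial.support_X]; exact Finset.mem_singleton_self _)
  simp only [Finsupp.single_apply] at h2
  rw [Finset.sum_ite_eq] at h2
  simp at h2

theorem lc_domain {y : ι → A} (H : LC w y) :
    ∃ h, w h ≠ 0 ∧ ∀ h', w h' ≠ 0 → h ∣ h' → IsDomain (Localization.Away h') := by
  have hp : (sat w (⊥ : Ideal A)).IsPrime := by
    have := sat_prime H ∅
    rwa [Set.image_empty, Ideal.span_empty] at this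
  obtain ⟨a, ha, hk⟩ := exists_unif (w := w) (I := sat w (⊥ : Ideal A)) (J := ⊥) le_rfl
  refine ⟨a, ha, fun h' hw hd => ?_⟩
  obtain ⟨w', -⟩ := exists_pt_away hw
  haveI : Nontrivial (Localization.Away h') := w'.toRingHom.domain_nontrivial
  have hz : ∀ (x : A) (s : Submonoid.powers h'), x ∈ sat w (⊥ : Ideal A) →
      IsLocalization.mk' (Localization.Away h') x s = 0 := by
    intro x s hx
    rw [IsLocalization.mk'_eq_zero_iff]
    refine ⟨⟨h', Submonoid.mem_powers h'⟩, ?_⟩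
    obtain ⟨t, rfl⟩ := hd
    change a * t * x = 0
    rw [mul_right_comm, (Ideal.mem_bot).1 (hk x hx), zero_mul]
  haveI : NoZeroDivisors (Localization.Away h') := by
    refine ⟨fun {x z} hxz => ?_⟩
    obtain ⟨f, s, rfl⟩ := IsLocalization.exists_mk'_eq (Submonoid.powers h') x
    obtain ⟨g, t, rfl⟩ := IsLocalization.exists_mk'_eq (Submonoid.powers h') z
    rw [← IsLocalization.mk'_mul, IsLocalization.mk'_eq_zero_iff] at hxz
    obtain ⟨⟨_, n, rfl⟩, hn⟩ := hxz
    have h1 : f * g ∈ sat w (⊥ : Ideal A) :=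
      ⟨h' ^ n, by rw [map_pow]; exact pow_ne_zero _ hw, (Ideal.mem_bot).2 hn⟩
    exact (hp.mem_or_mem h1).imp (hz f s) (hz g t)
  exact NoZeroDivisors.to_isDomain _

end Pool.Agent.P.MP_824f38_ag.N
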