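import Pool.Agent.P.MP_824f38_ag.N.CChart
import Pool.Agent.P.MP_824f38_ag.N.LPrime

/-! Row NEC-CPrime: coordinates of a chart behave like distinct primes

All statements are local at closed points (mem_of_sat). At w with w (y i) = 0 the ideal sat w (span {y i}) is prime (sat_prime for the shifted coordinates of Chart.lc) and does not
contain y j (if w (y j) = 0 by notMem_sat_span, otherwise since it is proper). prod_dvd: induction on J with reg_mod. -/

set_option linter.unusedVariables false
set_option linter.unusedSectionVars false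
set_option linter.style.haveILetI false
set_option linter.dupNamespace false

namespace Pool.Agent.P.MP_824f38_ag.N

variable {A : Type} [CommRing A] [Algebra ℂ A] [Algebra.FiniteType ℂ A] {N : ℕ}
  {y : Fin N → A}

private theorem cprime_all {w : A →ₐ[ℂ] ℂ} {a : A} (h : w a ≠ 0) (z : A) :
    z ∈ sat w (Ideal.span {a}) :=
  ⟨a, h, Ideal.mem_span_singleton.2 (Dvd.intro _ rfl)⟩

private theorem cprime_img {w : A →ₐ[ℂ] ℂ} {i : Fin N} (h : w (y i) = 0) :
    (fun k => y k - algebraMap ℂ A (w (y k))) '' {i} = {y i} := by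
  rw [Set.image_singleton, h, map_zero, sub_zero]

private theorem cprime_prime (H : Chart y) {w : A →ₐ[ℂ] ℂ} {i : Fin N} (h : w (y i) = 0) :
    (sat w (Ideal.span {y i})).IsPrime := by
  have := sat_prime (H.lc w) {i}
  rwa [cprime_img h] at this

private theorem cprime_not (H : Chart y) {w : A →ₐ[ℂ] ℂ} {i j : Fin N} (hij : i ≠ j)
    (h : w (y i) = 0) : y j ∉ sat w (Ideal.span {y i}) := by
  by_cases hj : w (y j) = 0
  · have := notMem_sat_span (H.lc w) (P := {i}) (i := j) (by simpa using hij.symm)
    rw [cprime_img h] at this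
    simpa [hj] using this
  · rintro ⟨k, k0, hk⟩
    obtain ⟨c, hc⟩ := Ideal.mem_span_singleton.1 hk
    have := congrArg w hc
    rw [map_mul, map_mul, h, zero_mul] at this
    exact mul_ne_zero k0 hj this

theorem Chart.reg_mod (H : Chart y) {i j : Fin N} (h : i ≠ j) {z : A} (hz : y i ∣ y j * z) :
    y i ∣ z := by
  refine Ideal.mem_span_singleton.1 (mem_of_sat fun w => ?_)
  by_cases hi : w (y i) = 0
  · have hm : y j * z ∈ sat w (Ideal.span {y i}) := le_sat w _ (Ideal.mem_span_singleton.2 hz)
    exact ((cprime_prime H hi).mem_or_mem hm).resolve_left (cprime_not H h hi)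
  · exact cprime_all hi z

theorem Chart.dvd_of_pow (H : Chart y) {i : Fin N} {z : A} {n : ℕ} (hz : y i ∣ z ^ n) :
    y i ∣ z := by
  refine Ideal.mem_span_singleton.1 (mem_of_sat fun w => ?_)
  by_cases hi : w (y i) = 0
  · have hm : z ^ n ∈ sat w (Ideal.span {y i}) := le_sat w _ (Ideal.mem_span_singleton.2 hz)
    exact (cprime_prime H hi).mem_of_pow_mem n hm
  · exact cprime_all hi z

theorem Chart.prod_dvd (H : Chart y) (J : Finset (Fin N)) {z : A} (hz : ∀ j ∈ J, y j ∣ z) :
    ∏ j ∈ J, y j ∣ z := by
  induction J using Finset.induction_on generalizing z with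
  | empty => simp
  | insert a J ha ih =>
    obtain ⟨z', rfl⟩ := hz a (Finset.mem_insert_self a J)
    rw [Finset.prod_insert ha]
    refine mul_dvd_mul_left _ (ih fun j hj => ?_)
    have hja : j ≠ a := fun e => ha (e ▸ hj)
    exact H.reg_mod hja (hz j (Finset.mem_insert_of_mem hj))

theorem Chart.radical_le (H : Chart y) (c : Fin N → ℕ) :
    (Ideal.span {∏ i, y i ^ c i}).radical ≤
      Ideal.span {∏ i ∈ Finset.univ.filter (fun i => c i ≠ 0), y i} := by
  rintro f ⟨n, hn⟩
  refine Ideal.mem_span_singleton.2 (H.prod_dvd _ fun j hj => ?_)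
  have hc : c j ≠ 0 := (Finset.mem_filter.1 hj).2
  refine H.dvd_of_pow (n := n) (dvd_trans ?_ (Ideal.mem_span_singleton.1 hn))
  exact dvd_trans (dvd_pow_self (y j) hc)
    (Finset.dvd_prod_of_mem (fun i => y i ^ c i) (Finset.mem_univ j))

end Pool.Agent.P.MP_824f38_ag.N
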