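import Pool.Agent.P.MP_824f38_ag.N.CNe
import Pool.Agent.P.MP_824f38_ag.N.CPrime
import Pool.Agent.P.MP_824f38_ag.N.CLoc

/-! Row NEC-CDiv: logarithmic forms that vanish on one more divisor

div_chart: in the basis mono y S, ω is in Ne y J 1 iff ∏ (j ∈ J, j ∉ S) y j divides the coefficient f_S, and ω in Kil (y i) gives y i ∣ f_S for i ∉ S; use Chart.prod_dvd.
div_snc: local at w (mem_of_loc): on the chart of snc_chart remove the units from J (Ne_insert_unit), rename the others by their labels (Ne_map, Ne_congr), apply div_chart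
(if σ i is a unit use Ne_insert_unit), and come back with dr_loc_surj, dr_loc_ker: an element of Ne on the localisation times a power of h is the pull-back of an element of Ne. -/

set_option linter.unusedVariables false
set_option linter.unusedSectionVars false
set_option linter.style.haveILetI false
set_option linter.dupNamespace false

namespace Pool.Agent.P.MP_824f38_ag.N

variable {A : Type} [CommRing A] [Algebra ℂ A] [Algebra.FiniteType ℂ A] {N : ℕ}
  {y : Fin N → A}

private theorem mono_single {ι : Type} [LinearOrder ι] (z : ι → A) (i : ι) :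
    mono z {i} = dd (z i) := by
  simp [mono]

private theorem repr_mono_mul (b : Module.Basis (Finset (Fin N)) A (DR A))
    (hb : ∀ S, b S = mono y S) (P : Finset (Fin N)) (β : DR A) {S : Finset (Fin N)}
    (hS : ¬ P ⊆ S) : b.repr (mono y P * β) S = 0 := by
  rw [← b.sum_repr β, Finset.mul_sum, map_sum, Finsupp.finsetSum_apply]
  refine Finset.sum_eq_zero fun T _ => ?_
  obtain ⟨e, -, he⟩ := mono_mul_mono y P T
  have hne : ¬ (P ∪ T = S) := fun h => hS (h ▸ Finset.subset_union_left)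
  have h0 : b.repr (b (P ∪ T)) S = 0 := by
    rw [b.repr_self]; exact Finsupp.single_eq_of_ne' hne
  rw [mul_smul_comm, hb T, he, map_smul, map_zsmul, Finsupp.smul_apply, Finsupp.smul_apply,
    ← hb, h0, smul_zero, smul_zero]

private theorem dvd_repr_of_Ne (b : Module.Basis (Finset (Fin N)) A (DR A))
    (hb : ∀ S, b S = mono y S) {J : Finset (Fin N)} {ω : DR A}
    (h : ω ∈ Ne y J (fun _ => 1)) {S : Finset (Fin N)} {j : Fin N} (hj : j ∈ J) (hS : j ∉ S) :
    y j ∣ b.repr ω S := by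
  induction h using Submodule.span_induction with
  | mem x hx =>
    obtain ⟨P, hP, β, rfl⟩ := hx
    rw [map_smul, Finsupp.smul_apply, smul_eq_mul]
    by_cases hPS : P ⊆ S
    · refine Dvd.dvd.mul_right ?_ _
      refine Dvd.dvd.trans ?_ (Finset.dvd_prod_of_mem _ hj)
      rw [if_neg fun h => hS (hPS h), pow_one]
    · rw [repr_mono_mul b hb P β hPS, mul_zero]; exact dvd_zero _
  | zero => simp
  | add x y' _ _ hx hy => rw [map_add, Finsupp.add_apply]; exact dvd_add hx hy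
  | smul a x _ hx => rw [map_smul, Finsupp.smul_apply, smul_eq_mul]; exact hx.mul_left _

private theorem dvd_repr_of_Kil (b : Module.Basis (Finset (Fin N)) A (DR A))
    (hb : ∀ S, b S = mono y S) {i : Fin N} {ω : DR A}
    (h : ω ∈ Kil (Ideal.span {y i})) {S : Finset (Fin N)} (hS : i ∉ S) :
    y i ∣ b.repr ω S := by
  rw [Kil_span] at h
  induction h using Submodule.span_induction with
  | mem x hx =>
    obtain ⟨a, ha, β, hx⟩ := hx
    rw [Set.mem_singleton_iff] at ha
    subst ha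
    rcases hx with rfl | rfl
    · rw [map_smul, Finsupp.smul_apply, smul_eq_mul]; exact dvd_mul_right _ _
    · rw [← mono_single, repr_mono_mul b hb {i} β (by simpa using hS)]; exact dvd_zero _
  | zero => simp
  | add x y' _ _ hx hy => rw [map_add, Finsupp.add_apply]; exact dvd_add hx hy
  | smul a x _ hx => rw [map_smul, Finsupp.smul_apply, smul_eq_mul]; exact hx.mul_left _

private theorem smul_mono_union {ι : Type} [LinearOrder ι] {z : ι → A} {J : Finset ι}
    {e : ι → ℕ} {c : A} {P : Finset ι} (h : c • mono z P ∈ Ne z J e) (T : Finset ι) :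
    c • mono z (T ∪ P) ∈ Ne z J e := by
  induction T using Finset.induction_on with
  | empty => simpa using h
  | insert i T hi ih =>
    rw [Finset.insert_union]
    by_cases hm : i ∈ T ∪ P
    · rwa [Finset.insert_eq_of_mem hm]
    · have h1 := Ne_mul_left ih (dd (z i))
      rw [mul_smul_comm, dd_mul_mono z hm] at h1
      have h2 := zsmul_mem h1 (V.sgn (insert i (T ∪ P)) i)
      rwa [smul_comm, smul_smul, V.sgn_sq, one_smul] at h2

private theorem smul_mono_mem {ι : Type} [LinearOrder ι] (z : ι → A) (J S : Finset ι) :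
    (∏ j ∈ J \ S, z j) • mono z S ∈ Ne z J (fun _ => 1) := by
  have h1 : (∏ j ∈ J \ S, z j) • mono z (J ∩ S) ∈ Ne z J (fun _ => 1) := by
    refine Submodule.subset_span ⟨J ∩ S, Finset.inter_subset_left, 1, ?_⟩
    rw [mul_one]
    congr 1
    rw [Finset.sdiff_eq_filter, Finset.prod_filter]
    refine Finset.prod_congr rfl fun j hj => ?_
    by_cases h : j ∈ S
    · simp [h, hj]
    · simp [h]
  have h2 := smul_mono_union h1 S
  rwa [Finset.union_eq_left.2 Finset.inter_subset_right] at h2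

theorem div_chart (H : Chart y) {J : Finset (Fin N)} {i : Fin N} (hi : i ∉ J) :
    Ne y J (fun _ => 1) ⊓ Kil (Ideal.span {y i}) ≤ Ne y (insert i J) (fun _ => 1) := by
  rintro ω ⟨h1, h2⟩
  obtain ⟨b, hb⟩ := chart_basis H
  rw [← b.sum_repr ω]
  refine Submodule.sum_mem _ fun S _ => ?_
  have hd : ∏ j ∈ insert i J \ S, y j ∣ b.repr ω S := by
    refine H.prod_dvd _ fun j hj => ?_
    rw [Finset.mem_sdiff, Finset.mem_insert] at hj
    rcases hj with ⟨rfl | hj, hS⟩
    · exact dvd_repr_of_Kil b hb h2 hS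
    · exact dvd_repr_of_Ne b hb h1 hj hS
  obtain ⟨g, hg⟩ := hd
  rw [hg, mul_comm, mul_smul, hb]
  exact Submodule.smul_mem _ _ (smul_mono_mem y _ S)

private theorem Ne_union_unit {ι : Type} [LinearOrder ι] {z : ι → A} (J T : Finset ι)
    (hT : ∀ j ∈ T, IsUnit (z j)) : Ne z (T ∪ J) (fun _ => 1) = Ne z J (fun _ => 1) := by
  induction T using Finset.induction_on with
  | empty => rw [Finset.empty_union]
  | insert i T hi ih =>
    rw [Finset.insert_union, Ne_insert_unit (hT i (Finset.mem_insert_self _ _)),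
      ih fun j hj => hT j (Finset.mem_insert_of_mem hj)]

private theorem Ne_rename {ι : Type} [LinearOrder ι] {s : ι → A} (l : ι → Fin N)
    (h1 : ∀ j, ¬ IsUnit (s j) → y (l j) = s j) (h2 : Set.InjOn l {j | ¬ IsUnit (s j)})
    (J : Finset ι) (K : Finset (Fin N)) (hK : ∀ k, k ∈ K ↔ ∃ j ∈ J, ¬ IsUnit (s j) ∧ l j = k) :
    Ne s J (fun _ => 1) = Ne y K (fun _ => 1) := by
  classical
  obtain ⟨J0, hJ0⟩ : ∃ J0 : Finset ι, ∀ j, j ∈ J0 ↔ j ∈ J ∧ ¬ IsUnit (s j) :=
    ⟨J.filter fun j => ¬ IsUnit (s j), fun j => Finset.mem_filter⟩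
  obtain ⟨T, hT⟩ : ∃ T : Finset ι, ∀ j, j ∈ T ↔ j ∈ J ∧ IsUnit (s j) :=
    ⟨J.filter fun j => IsUnit (s j), fun j => Finset.mem_filter⟩
  have e1 := Ne_union_unit (z := s) J0 T fun j hj => ((hT j).1 hj).2
  have e2 : Ne s J0 (fun _ => 1) = Ne (fun j => y (l j)) J0 (fun _ => 1) :=
    Ne_congr (fun j hj => (h1 j ((hJ0 j).1 hj).2).symm) (fun _ _ => rfl)
  have e3 := Ne_map (z := y) (e := fun _ => 1) l (J' := J0)
    (h2.mono fun j hj => ((hJ0 j).1 hj).2)
  refine Eq.trans ?_ (e1.trans (e2.trans (e3.trans ?_)))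
  · refine congrArg (fun X => Ne s X (fun _ => 1)) (Finset.ext fun j => ?_)
    rw [Finset.mem_union, hT, hJ0]
    tauto
  · refine congrArg (fun X => Ne y X (fun _ => 1)) (Finset.ext fun k => ?_)
    rw [Finset.mem_image, hK]
    constructor
    · rintro ⟨j, hj, e⟩; exact ⟨j, ((hJ0 j).1 hj).1, ((hJ0 j).1 hj).2, e⟩
    · rintro ⟨j, hj, hu, e⟩; exact ⟨j, (hJ0 j).2 ⟨hj, hu⟩, e⟩

private theorem div_lab {s : ℕ → A} (H : Chart y) (lab : Fin N → WithBot ℕ)
    (h1 : ∀ k (j : ℕ), lab k = j → y k = s j) (h2 : ∀ j : ℕ, IsUnit (s j) ∨ ∃ k, lab k = j)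
    {J : Finset ℕ} {i : ℕ} (hi : i ∉ J) :
    Ne s J (fun _ => 1) ⊓ Kil (Ideal.span {s i}) ≤ Ne s (insert i J) (fun _ => 1) := by
  by_cases hu : IsUnit (s i)
  · exact inf_le_left.trans (Ne_insert_unit (J := J) hu).ge
  obtain ⟨k0, hk0⟩ := (h2 i).resolve_left hu
  have hl : ∀ j : ℕ, ∃ k : Fin N, ¬ IsUnit (s j) → lab k = j := fun j => by
    rcases h2 j with h | ⟨k, hk⟩
    · exact ⟨k0, fun h' => absurd h h'⟩
    · exact ⟨k, fun _ => hk⟩
  choose l hl using hl
  have hy : ∀ j, ¬ IsUnit (s j) → y (l j) = s j := fun j hj => h1 _ _ (hl j hj)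
  have hinj : Set.InjOn l {j | ¬ IsUnit (s j)} := fun a ha b hb e => by
    have h3 : ((a : ℕ) : WithBot ℕ) = (b : ℕ) := by rw [← hl a ha, ← hl b hb, e]
    exact_mod_cast h3
  obtain ⟨K, hK⟩ : ∃ K : Finset (Fin N), ∀ k, k ∈ K ↔ ∃ j ∈ J, ¬ IsUnit (s j) ∧ l j = k := by
    classical
    exact ⟨Finset.univ.filter fun k => ∃ j ∈ J, ¬ IsUnit (s j) ∧ l j = k, fun k => by simp⟩
  have hiK : l i ∉ K := fun h => by
    obtain ⟨j, hj, hju, e⟩ := (hK _).1 h
    exact hi (hinj hju hu e ▸ hj)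
  have e1 := Ne_rename l hy hinj J K hK
  have e2 := Ne_rename l hy hinj (insert i J) (insert (l i) K) fun k => by
    rw [Finset.mem_insert, hK]
    constructor
    · rintro (rfl | ⟨j, hj, hju, e⟩)
      · exact ⟨i, Finset.mem_insert_self _ _, hu, rfl⟩
      · exact ⟨j, Finset.mem_insert_of_mem hj, hju, e⟩
    · rintro ⟨j, hj, hju, e⟩
      rcases Finset.mem_insert.1 hj with rfl | hj
      · exact Or.inl e.symm
      · exact Or.inr ⟨j, hj, hju, e⟩
  rw [e1, e2, ← hy i hu]
  exact div_chart H hiK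

private theorem Ne_descend {ι : Type} [LinearOrder ι] (z : ι → A) (J : Finset ι) (e : ι → ℕ)
    (h : A) {η : DR (Localization.Away h)} (hη : η ∈ Ne (fun j => toAway h (z j)) J e) :
    ∃ (n : ℕ) (β : DR A), β ∈ Ne z J e ∧ pull (toAway h) β = toAway h h ^ n • η := by
  induction hη using Submodule.span_induction with
  | mem x hx =>
    obtain ⟨P, hP, β', rfl⟩ := hx
    obtain ⟨n, β, hβ⟩ := dr_loc_surj h β'
    refine ⟨n, _, Submodule.subset_span ⟨P, hP, β, rfl⟩, ?_⟩
    have hβ' : pull (toAway h) β = toAway h h ^ n • β' := hβ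
    rw [pull_smul, map_mul, pull_mono, hβ', mul_smul_comm, smul_comm, map_prod]
    simp only [map_pow]
  | zero => exact ⟨0, 0, zero_mem _, by simp⟩
  | add x y' _ _ hx hy =>
    obtain ⟨n, β, hβ, e1⟩ := hx
    obtain ⟨m, γ, hγ, e2⟩ := hy
    refine ⟨n + m, h ^ m • β + h ^ n • γ,
      add_mem (Submodule.smul_mem _ _ hβ) (Submodule.smul_mem _ _ hγ), ?_⟩
    rw [map_add, pull_smul, pull_smul, e1, e2, smul_smul, smul_smul, map_pow, map_pow, smul_add,
      ← pow_add, ← pow_add, add_comm m n]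
  | smul a x _ hx =>
    obtain ⟨n, β, hβ, e1⟩ := hx
    obtain ⟨k, c, hc⟩ := IsLocalization.Away.surj h a
    have hc' : a * toAway h h ^ k = toAway h c := hc
    refine ⟨k + n, c • β, Submodule.smul_mem _ _ hβ, ?_⟩
    rw [pull_smul, e1, smul_smul, smul_smul, ← hc', pow_add]
    congr 1
    ring

theorem div_snc {σ : ℕ → A} (hσ : FinDiv σ) (H : SReg σ) {J : Finset ℕ} {i : ℕ} (hi : i ∉ J) :
    Ne σ J (fun _ => 1) ⊓ Kil (Ideal.span {σ i}) ≤ Ne σ (insert i J) (fun _ => 1) := by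
  rintro ω ⟨h1, h2⟩
  refine mem_of_loc fun w => ?_
  obtain ⟨n, hn⟩ := H w
  obtain ⟨h, hw, hh⟩ := snc_chart hσ hn
  obtain ⟨z, lab, hz, hl, hu⟩ := hh h dvd_rfl
  haveI := ft_away h
  have h3 : pull (toAway h) ω ∈ Ne (fun j => toAway h (σ j)) (insert i J) (fun _ => 1) := by
    refine div_lab hz lab hl hu hi ⟨pull_Ne _ h1, pull_Kil _ (fun a ha => ?_) h2⟩
    obtain ⟨c, rfl⟩ := Ideal.mem_span_singleton'.1 ha
    rw [map_mul]
    exact Ideal.mul_mem_left _ _ (Ideal.subset_span rfl)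
  obtain ⟨k, β, hβ, e⟩ := Ne_descend σ _ _ h h3
  have h4 : pull (toAway h) (h ^ k • ω - β) = 0 := by
    rw [map_sub, pull_smul, e, map_pow, sub_self]
  obtain ⟨m, hm⟩ := dr_loc_ker h h4
  refine ⟨h ^ m * h ^ k, ?_, ?_⟩
  · rw [map_mul, map_pow, map_pow]
    exact mul_ne_zero (pow_ne_zero _ hw) (pow_ne_zero _ hw)
  · rw [smul_sub, sub_eq_zero] at hm
    rw [mul_smul, hm]
    exact Submodule.smul_mem _ _ hβ

end Pool.Agent.P.MP_824f38_ag.N
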