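import Pool.Agent.P.MP_824f38_ag.N.LTaylor
import Pool.Agent.P.MP_824f38_ag.N.LDer
import Pool.Agent.P.MP_824f38_ag.N.LNbhd

/-! Row NEC-CEt: local coordinates are etale

Let P = MvPolynomial ι ℂ → A, X ↦ y, and present A = P[T_1..T_k] / J (finite type over P). Let t = w (T). Since ker w = (y) locally, for each a there is f_a in J with
f_a ≡ unit (T_a - t_a) modulo (X) (clear the denominator h of LC.gen), so the Jacobian matrix (∂ f_a / ∂ T_b) is invertible at w. Let A' = P[T][1/jac] / (f), standard smooth of relative dimension 0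
(Algebra.SubmersivePresentation / PreSubmersivePresentation.naive, or Algebra.IsStandardSmooth via an extra variable), with the surjection A' → A_jac. X is a system of local
coordinates of A' at w with dual derivations ∂_i (extend by formal smoothness or explicitly), and Δ ∂_i is compatible with E i: both are derivations A' → A_jac that agree on X, hence on T because jac is a unit.
So the kernel J' is stable under the Δ' ∂_i (Δ' a lift of Δ), all words of them map J' into ker w, and taylor (c = 0, q = 1, JJ = ⊥) gives J' ≤ sat w ⊥; J' is finitely generated, so one h kills it and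
A_(h jac) = A'_h is smooth over P. An alternative route: Algebra.FormallySmooth via the Jacobian criterion in Mathlib.RingTheory.Smooth. -/

set_option linter.unusedVariables false
set_option linter.unusedSectionVars false
set_option linter.style.haveILetI false
set_option linter.dupNamespace false

namespace Pool.Agent.P.MP_824f38_ag.N

variable {A : Type} [CommRing A] [Algebra ℂ A] [Algebra.FiniteType ℂ A]
  {ι : Type} [Fintype ι] [DecidableEq ι] {w : A →ₐ[ℂ] ℂ}

open TensorProduct in
lemma cet_inj {R Q S K : Type} [CommRing R] [CommRing Q] [CommRing S] [Field K] [Algebra R Q]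
    [Algebra Q S] [Algebra S K] [Algebra Q K] [IsScalarTower Q S K] {n : ℕ}
    (b : Module.Basis (Fin n) Q (KaehlerDifferential R Q)) (f : Fin n → Q)
    (hker : RingHom.ker (algebraMap Q S) = Ideal.span (Set.range f)) (c : Fin n → K)
    (hc : ∀ a, c a ≠ 0)
    (hD : ∀ a, (1 : K) ⊗ₜ[Q] KaehlerDifferential.D R Q (f a) = c a • ((1 : K) ⊗ₜ[Q] b a)) :
    Function.Injective (KaehlerDifferential.cotangentComplexBaseChange R S Q K) := by
  have hf : ∀ a, f a ∈ RingHom.ker (algebraMap Q S) := fun a =>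
    hker ▸ Ideal.subset_span ⟨a, rfl⟩
  let F : Fin n → K ⊗[Q] RingHom.ker (algebraMap Q S) := fun a => 1 ⊗ₜ ⟨f a, hf a⟩
  have hsp : ∀ x, ∃ k : Fin n → K, x = ∑ a, k a • F a := by
    intro x
    induction x with
    | zero => exact ⟨0, by simp⟩
    | add x y hx hy =>
      obtain ⟨k, rfl⟩ := hx
      obtain ⟨l, rfl⟩ := hy
      exact ⟨k + l, by simp [add_smul, Finset.sum_add_distrib]⟩
    | tmul k g =>
      obtain ⟨q, hq⟩ := Ideal.mem_span_range_iff_exists_fun.1 (hker.le g.2)
      refine ⟨fun a => q a • k, ?_⟩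
      have e : g = ∑ a, q a • (⟨f a, hf a⟩ : RingHom.ker (algebraMap Q S)) :=
        Subtype.ext (by simp [hq])
      rw [e, tmul_sum]
      refine Finset.sum_congr rfl fun a _ => ?_
      simp only [F]
      rw [tmul_smul, smul_tmul', smul_tmul', smul_eq_mul, mul_one]
  have hL : ∀ a, KaehlerDifferential.cotangentComplexBaseChange R S Q K (F a) =
      c a • (b.baseChange K) a := by
    intro a
    simp only [F]
    rw [KaehlerDifferential.cotangentComplexBaseChange_tmul, one_smul,
      KaehlerDifferential.kerToTensor_apply, Module.Basis.baseChange_apply]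
    exact hD a
  rw [injective_iff_map_eq_zero]
  intro x hx
  obtain ⟨k, rfl⟩ := hsp x
  rw [map_sum] at hx
  simp only [map_smul, hL, smul_smul] at hx
  have h1 := Fintype.linearIndependent_iff.1 (b.baseChange K).linearIndependent _ hx
  have hk : ∀ a, k a = 0 := fun a => (mul_eq_zero.1 (h1 a)).resolve_right (hc a)
  simp [hk]

lemma cet_expand {Q : Type} [CommRing Q] [Algebra ℂ Q] (x : ι → Q) (N : Ideal Q)
    (hgen : ∀ g, ∃ c : ℂ, g - algebraMap ℂ Q c ∈ Ideal.span (Set.range x) ⊔ N) (m : ℕ) (g : Q) :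
    ∃ P : MvPolynomial ι ℂ, g - MvPolynomial.aeval x P ∈ Ideal.span (Set.range x) ^ m ⊔ N := by
  induction m generalizing g with
  | zero => exact ⟨0, by simp⟩
  | succ m ih =>
    obtain ⟨c, hc⟩ := hgen g
    obtain ⟨a, ha, r, hr, e⟩ := Submodule.mem_sup.1 hc
    obtain ⟨k, rfl⟩ := Ideal.mem_span_range_iff_exists_fun.1 ha
    choose P hP using ih
    refine ⟨MvPolynomial.C c + ∑ i, P (k i) * MvPolynomial.X i, ?_⟩
    have e2 : g - MvPolynomial.aeval x (MvPolynomial.C c + ∑ i, P (k i) * MvPolynomial.X i) =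
        ∑ i, (k i - MvPolynomial.aeval x (P (k i))) * x i + r := by
      simp only [map_add, map_sum, map_mul, MvPolynomial.aeval_X, MvPolynomial.aeval_C, sub_mul,
        Finset.sum_sub_distrib]
      linear_combination -e
    rw [e2]
    refine add_mem (Ideal.sum_mem _ fun i _ => ?_) (Ideal.mem_sup_right hr)
    obtain ⟨u, hu, t, ht, e3⟩ := Submodule.mem_sup.1 (hP (k i))
    rw [← e3, add_mul, pow_succ]
    exact add_mem (Ideal.mem_sup_left (Ideal.mul_mem_mul hu (Ideal.subset_span ⟨i, rfl⟩)))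
      (Ideal.mem_sup_right (N.mul_mem_right _ ht))

lemma cet_krull {Q : Type} [CommRing Q] [IsNoetherianRing Q] [IsLocalRing Q] {X N : Ideal Q}
    (hX : X ≠ ⊤) {g : Q} (hg : ∀ m, g ∈ X ^ m ⊔ N) : g ∈ N := by
  have h := Ideal.iInf_pow_smul_eq_bot_of_isLocalRing (M := Q ⧸ N) (I := X) hX
  rw [← Ideal.Quotient.eq_zero_iff_mem, ← Submodule.mem_bot Q, ← h, Submodule.mem_iInf]
  intro m
  obtain ⟨a, ha, r, hr, rfl⟩ := Submodule.mem_sup.1 (hg m)
  rw [map_add, Ideal.Quotient.eq_zero_iff_mem.2 hr, add_zero]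
  have e : Ideal.Quotient.mk N a = a • (1 : Q ⧸ N) := by
    rw [Algebra.smul_def, mul_one]; rfl
  rw [e]
  exact Submodule.smul_mem_smul ha Submodule.mem_top

lemma cet_pow_le (y : ι → A) (m : ℕ) :
    Ideal.span (Set.range y) ^ m ≤ JJ y (fun _ => 1) m := by
  induction m with
  | zero => rw [JJ_nonpos y _ (by simp)]; exact le_top
  | succ m ih =>
    rw [pow_succ, Nat.cast_succ]
    refine le_trans (Ideal.mul_mono ih ?_) (JJ_mul y _ m 1)
    rw [Ideal.span_le]
    rintro _ ⟨i, rfl⟩
    exact mem_JJ_self y (fun _ => 1) i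

lemma cet_aeval_mem {Q : Type} [CommRing Q] [Algebra ℂ Q] (x : ι → Q) {m : ℕ}
    {P : MvPolynomial ι ℂ} (h : ∀ α ∈ P.support, (m : ℚ) ≤ ∑ i, (α i : ℚ) * 1) :
    MvPolynomial.aeval x P ∈ Ideal.span (Set.range x) ^ m := by
  rw [P.as_sum, map_sum]
  refine Ideal.sum_mem _ fun α hα => ?_
  rw [MvPolynomial.aeval_monomial, Finsupp.prod_fintype _ _ (by simp)]
  refine Ideal.mul_mem_left _ _ ?_
  have h1 : m ≤ ∑ i, α i := by
    have h2 := h α hα
    simp only [mul_one] at h2
    exact_mod_cast h2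
  refine Ideal.pow_le_pow_right h1 ?_
  rw [← Finset.prod_pow_eq_pow_sum]
  exact Ideal.prod_mem_prod fun i _ =>
    Ideal.pow_mem_pow (Ideal.subset_span (Set.mem_range_self i)) _

open TensorProduct MvPolynomial in
lemma cet_local [Algebra (MvPolynomial ι ℂ) A] [IsScalarTower ℂ (MvPolynomial ι ℂ) A] {y : ι → A}
    (hy : ∀ i, algebraMap (MvPolynomial ι ℂ) A (X i) = y i) (H : LC w y) {n : ℕ}
    (φ : MvPolynomial (Fin n) (MvPolynomial ι ℂ) →ₐ[MvPolynomial ι ℂ] A)
    (hφ : Function.Surjective φ) [(RingHom.ker w).IsPrime] [((RingHom.ker w).comap φ).IsPrime]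
    (Q S : Type) [CommRing Q] [CommRing S] [Algebra (MvPolynomial (Fin n) (MvPolynomial ι ℂ)) Q]
    [IsLocalization.AtPrime Q ((RingHom.ker w).comap φ)] [Algebra (MvPolynomial ι ℂ) Q]
    [IsScalarTower (MvPolynomial ι ℂ) (MvPolynomial (Fin n) (MvPolynomial ι ℂ)) Q] [Algebra ℂ Q]
    [IsScalarTower ℂ (MvPolynomial ι ℂ) Q] [Algebra A S] [IsLocalization.AtPrime S (RingHom.ker w)]
    [Algebra (MvPolynomial ι ℂ) S] [IsScalarTower (MvPolynomial ι ℂ) A S] :
    Algebra.FormallySmooth (MvPolynomial ι ℂ) S := by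
  let R := MvPolynomial ι ℂ
  let p : Ideal A := RingHom.ker w
  let Q0 := MvPolynomial (Fin n) R
  let q : Ideal Q0 := p.comap φ
  haveI : IsLocalRing Q := IsLocalization.AtPrime.isLocalRing Q q
  haveI : IsLocalRing S := IsLocalization.AtPrime.isLocalRing S p
  haveI : IsNoetherianRing Q := IsLocalization.isNoetherianRing q.primeCompl Q inferInstance
  let ψ : Q →ₐ[R] S := IsLocalization.liftAlgHom (M := q.primeCompl)
    (f := (IsScalarTower.toAlgHom R A S).comp φ)
    fun s => IsLocalization.map_units S (⟨φ s, s.2⟩ : p.primeCompl)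
  have hψ0 : ∀ g : Q0, ψ (algebraMap Q0 Q g) = algebraMap A S (φ g) := fun g =>
    IsLocalization.lift_eq (M := q.primeCompl) _ g
  have hψ : Function.Surjective ψ := by
    intro s
    obtain ⟨⟨a, u, hu⟩, e⟩ := IsLocalization.surj p.primeCompl s
    obtain ⟨a, rfl⟩ := hφ a
    obtain ⟨u, rfl⟩ := hφ u
    obtain ⟨v, hv⟩ := (IsLocalization.map_units Q (⟨u, hu⟩ : q.primeCompl)).exists_right_inv
    have e1 := congrArg ψ hv
    rw [map_mul, map_one, hψ0] at e1
    refine ⟨algebraMap Q0 Q a * v, ?_⟩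
    rw [map_mul, hψ0, ← e, mul_assoc]
    exact (congrArg (s * ·) e1).trans (mul_one s)
  let wS : S →+* ℂ := IsLocalization.lift (M := p.primeCompl) (g := w.toRingHom)
    fun s => isUnit_iff_ne_zero.2 s.2
  have hwS : ∀ a : A, wS (algebraMap A S a) = w a := fun a => IsLocalization.lift_eq _ a
  letI : Algebra Q S := ψ.toRingHom.toAlgebra
  letI : Algebra S ℂ := wS.toAlgebra
  letI : Algebra Q ℂ := (wS.comp ψ.toRingHom).toAlgebra
  haveI : IsScalarTower R Q S := .of_algebraMap_eq fun r => (ψ.commutes r).symm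
  haveI : IsScalarTower Q S ℂ := .of_algebraMap_eq fun r => rfl
  have hv : ∀ g : Q0, algebraMap Q ℂ (algebraMap Q0 Q g) = w (φ g) := fun g => by
    show wS (ψ (algebraMap Q0 Q g)) = _
    rw [hψ0, hwS]
  haveI : Algebra.FormallyEtale Q0 Q := .of_isLocalization q.primeCompl
  haveI : Algebra.FormallySmooth R Q := .comp _ Q0 _
  let b : Module.Basis (Fin n) Q (KaehlerDifferential R Q) :=
    ((KaehlerDifferential.mvPolynomialBasis R (Fin n)).baseChange Q).map
      (KaehlerDifferential.tensorKaehlerEquivOfFormallyEtale R Q0 Q)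
  have hb : ∀ a, b a = KaehlerDifferential.D R Q (algebraMap Q0 Q (X a)) := by
    intro a
    simp only [b]
    rw [Module.Basis.map_apply, Module.Basis.baseChange_apply,
      KaehlerDifferential.mvPolynomialBasis_apply,
      ← KaehlerDifferential.tensorKaehlerEquivOfFormallyEtale_symm_D_algebraMap,
      LinearEquiv.apply_symm_apply]
  haveI : Module.Free Q (KaehlerDifferential R Q) := .of_basis b
  haveI : Module.Finite Q (KaehlerDifferential R Q) := .of_basis b
  have hRA : ∀ P : R, algebraMap R A P = aeval y P := by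
    intro P
    have e : IsScalarTower.toAlgHom ℂ R A = aeval y := MvPolynomial.algHom_ext fun i => by
      rw [aeval_X]; exact hy i
    exact DFunLike.congr_fun e P
  -- the equations
  have hex : ∀ a : Fin n, ∃ (h : Q0) (G : ι → Q0), w (φ h) ≠ 0 ∧
      φ (h * (X a - C (C (w (φ (X a))))) - ∑ i, G i * C (X i)) = 0 := by
    intro a
    obtain ⟨h, h0, hh⟩ := H.gen (φ (X a) - algebraMap ℂ A (w (φ (X a)))) (by simp)
    obtain ⟨g, hg⟩ := Ideal.mem_span_range_iff_exists_fun.1 hh
    obtain ⟨h, rfl⟩ := hφ h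
    choose G hG using fun i => hφ (g i)
    refine ⟨h, G, h0, ?_⟩
    simp only [map_sub, map_mul, map_sum, hG, algHom_C, hy]
    rw [hg, hRA, aeval_C, sub_self]
  choose h G hh hG using hex
  let x : ι → Q := fun i => algebraMap R Q (X i)
  let t : Fin n → ℂ := fun a => w (φ (X a))
  have hCQ : ∀ r : R, algebraMap Q0 Q (C r) = algebraMap R Q r := fun r =>
    (IsScalarTower.algebraMap_apply R Q0 Q r).symm
  have hcQ : ∀ c : ℂ, algebraMap R Q (C c) = algebraMap ℂ Q c := fun c =>
    (IsScalarTower.algebraMap_apply ℂ R Q c).symm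
  let f : Fin n → Q := fun a =>
    algebraMap Q0 Q (h a * (X a - C (C (t a))) - ∑ i, G a i * C (X i))
  have hf : ∀ a, f a = algebraMap Q0 Q (h a) * (algebraMap Q0 Q (X a) - algebraMap R Q (C (t a))) -
      ∑ i, algebraMap Q0 Q (G a i) * x i := by
    intro a
    simp only [f, map_sub, map_mul, map_sum, hCQ, x]
  have hfk : ∀ a, ψ (f a) = 0 := fun a => by
    simp only [f]
    rw [hψ0, hG, map_zero]
  have hxv : ∀ i, algebraMap Q ℂ (x i) = 0 := fun i => by
    simp only [x]
    rw [← hCQ, hv, algHom_C, hy, H.van]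
  have hxψ : ∀ i, ψ (x i) = algebraMap A S (y i) := fun i => by
    simp only [x]
    rw [← hCQ, hψ0, algHom_C, hy]
  have hRQ : ∀ P : R, algebraMap R Q P = aeval x P := by
    intro P
    have e : IsScalarTower.toAlgHom ℂ R Q = aeval x := MvPolynomial.algHom_ext fun i => by
      rw [aeval_X]; rfl
    exact DFunLike.congr_fun e P
  let N : Ideal Q := Ideal.span (Set.range f)
  let XI : Ideal Q := Ideal.span (Set.range x)
  have hXI : XI ≠ ⊤ := by
    intro e
    have e1 : XI ≤ RingHom.ker (algebraMap Q ℂ) := by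
      rw [Ideal.span_le]
      rintro _ ⟨i, rfl⟩
      exact hxv i
    have e2 := e1 (e ▸ Submodule.mem_top : (1 : Q) ∈ XI)
    rw [RingHom.mem_ker, map_one] at e2
    exact one_ne_zero e2
  have hgen : ∀ g : Q, ∃ c : ℂ, g - algebraMap ℂ Q c ∈ XI ⊔ N := by
    let π := Ideal.Quotient.mk (XI ⊔ N)
    have hπx : ∀ i, π (x i) = 0 := fun i =>
      Ideal.Quotient.eq_zero_iff_mem.2 (Ideal.mem_sup_left (Ideal.subset_span ⟨i, rfl⟩))
    have h1 : ∀ r : R, ∃ c : ℂ, π (algebraMap R Q r) = π (algebraMap ℂ Q c) := by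
      intro r
      induction r using MvPolynomial.induction_on with
      | C c => exact ⟨c, by rw [hcQ]⟩
      | add r s hr hs =>
        obtain ⟨c, hc⟩ := hr
        obtain ⟨d, hd⟩ := hs
        exact ⟨c + d, by rw [map_add, map_add, hc, hd, map_add, map_add]⟩
      | mul_X r i hr =>
        refine ⟨0, ?_⟩
        rw [map_mul, map_mul, map_zero, map_zero]
        exact mul_eq_zero_of_right _ (hπx i)
    have h2 : ∀ a, π (algebraMap Q0 Q (X a)) = π (algebraMap ℂ Q (t a)) := by
      intro a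
      have e1 : π (f a) = 0 :=
        Ideal.Quotient.eq_zero_iff_mem.2 (Ideal.mem_sup_right (Ideal.subset_span ⟨a, rfl⟩))
      have hu : IsUnit (algebraMap Q0 Q (h a)) :=
        IsLocalization.map_units Q (⟨h a, hh a⟩ : q.primeCompl)
      rw [hf, hcQ] at e1
      simp only [map_sub, map_mul, map_sum, hπx, mul_zero, Finset.sum_const_zero, sub_zero] at e1
      exact sub_eq_zero.1 ((hu.map π).mul_right_eq_zero.1 e1)
    have h3 : ∀ g : Q0, ∃ c : ℂ, π (algebraMap Q0 Q g) = π (algebraMap ℂ Q c) := by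
      intro g
      induction g using MvPolynomial.induction_on with
      | C r => rw [hCQ]; exact h1 r
      | add r s hr hs =>
        obtain ⟨c, hc⟩ := hr
        obtain ⟨d, hd⟩ := hs
        exact ⟨c + d, by rw [map_add, map_add, hc, hd, map_add, map_add]⟩
      | mul_X r a hr =>
        obtain ⟨c, hc⟩ := hr
        exact ⟨c * t a, by rw [map_mul, map_mul, hc, h2, map_mul, map_mul]⟩
    intro g
    obtain ⟨⟨g0, s⟩, e⟩ := IsLocalization.surj q.primeCompl g
    obtain ⟨c, hc⟩ := h3 g0
    obtain ⟨d, hd⟩ := h3 s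
    have e1 := congrArg π e
    rw [map_mul, hc, hd] at e1
    have hu := (IsLocalization.map_units Q s).map π
    rw [hd] at hu
    refine ⟨c / d, Ideal.Quotient.eq.1 ?_⟩
    rcases eq_or_ne d 0 with rfl | hd0
    · rw [map_zero, map_zero] at hu
      haveI := subsingleton_of_zero_eq_one (isUnit_zero_iff.1 hu)
      exact Subsingleton.elim _ _
    · refine hu.mul_right_cancel ?_
      show π g * _ = π _ * _
      rw [e1, ← map_mul, ← map_mul, div_mul_cancel₀ _ hd0]
  have hker : RingHom.ker (algebraMap Q S) = N := by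
    refine le_antisymm (fun g hg => ?_) ?_
    · refine cet_krull hXI fun m => ?_
      obtain ⟨P, hP⟩ := cet_expand x N hgen m g
      have hg0 : ψ g = 0 := hg
      have e1 : (XI ^ m ⊔ N).map ψ ≤ (Ideal.span (Set.range y) ^ m).map (algebraMap A S) := by
        rw [Ideal.map_sup, Ideal.map_pow, Ideal.map_pow]
        refine sup_le (Ideal.pow_right_mono ?_ m) ?_
        · rw [Ideal.map_le_iff_le_comap, Ideal.span_le]
          rintro _ ⟨i, rfl⟩
          show ψ (x i) ∈ Ideal.map _ _
          rw [hxψ]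
          exact Ideal.mem_map_of_mem _ (Ideal.subset_span ⟨i, rfl⟩)
        · rw [Ideal.map_le_iff_le_comap, Ideal.span_le]
          rintro _ ⟨a, rfl⟩
          exact Ideal.mem_comap.2 (hfk a ▸ zero_mem _)
      have e2 := e1 (Ideal.mem_map_of_mem ψ hP)
      rw [map_sub, hg0, zero_sub, neg_mem_iff, ← hRQ, ψ.commutes,
        IsScalarTower.algebraMap_apply R A S, hRA] at e2
      obtain ⟨⟨⟨u, hu⟩, s⟩, e3⟩ := (IsLocalization.mem_map_algebraMap_iff p.primeCompl S).1 e2
      rw [← map_mul] at e3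
      obtain ⟨s', e4⟩ := (IsLocalization.eq_iff_exists p.primeCompl S).1 e3
      have e5 : aeval y P ∈ sat w (JJ y (fun _ => 1) m) := by
        refine ⟨s' * s, ?_, cet_pow_le y m ?_⟩
        · rw [map_mul]; exact mul_ne_zero s'.2 s.2
        · rw [mul_assoc, mul_comm (s : A)]
          exact e4 ▸ Ideal.mul_mem_left _ _ hu
      have e6 := cet_aeval_mem x (aeval_mem_sat H (fun _ => zero_le_one) e5)
      have e7 := add_mem hP (Ideal.mem_sup_left e6)
      rwa [sub_add_cancel] at e7
    · rw [Ideal.span_le]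
      rintro _ ⟨a, rfl⟩
      exact hfk a
  have hsm : ∀ (r : Q) (ω : KaehlerDifferential R Q),
      (1 : ℂ) ⊗ₜ[Q] (r • ω) = algebraMap Q ℂ r • ((1 : ℂ) ⊗ₜ[Q] ω) := fun r ω => by
    rw [tmul_smul, algebraMap_smul]
  refine (Algebra.FormallySmooth.iff_injective_cotangentComplexBaseChange Q ℂ hψ
    (IsNoetherian.noetherian _) ?_).2 (cet_inj b f hker (fun a => w (φ (h a))) hh fun a => ?_)
  · intro s hs
    obtain ⟨⟨a, u⟩, e⟩ := IsLocalization.surj p.primeCompl s
    have e1 : algebraMap A S a ∈ IsLocalRing.maximalIdeal S := e ▸ Ideal.mul_mem_right _ _ hs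
    have e2 : w a = 0 := (IsLocalization.AtPrime.to_map_mem_maximal_iff S p a).1 e1
    have e3 := congrArg wS e
    rw [map_mul, hwS, hwS, e2] at e3
    exact (mul_eq_zero.1 e3).resolve_right u.2
  · have e0 : algebraMap Q ℂ (algebraMap Q0 Q (X a) - algebraMap R Q (C (t a))) = 0 := by
      rw [map_sub, ← hCQ, hv, hv, algHom_C, hRA, aeval_C, AlgHom.commutes]
      exact sub_self _
    have e1 : ∀ i, KaehlerDifferential.D R Q (x i) = 0 := fun i => Derivation.map_algebraMap _ _
    rw [hf, hb]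
    rw [map_sub, Derivation.leibniz, map_sub, Derivation.map_algebraMap, sub_zero, map_sum, tmul_sub,
      tmul_add, hsm, hsm, e0, hv, zero_smul, add_zero, tmul_sum, Finset.sum_eq_zero, sub_zero]
    intro i _
    rw [Derivation.leibniz, e1, smul_zero, zero_add, hsm, hxv, zero_smul]

lemma cet_main [Algebra (MvPolynomial ι ℂ) A] [IsScalarTower ℂ (MvPolynomial ι ℂ) A] {y : ι → A}
    (hy : ∀ i, algebraMap (MvPolynomial ι ℂ) A (MvPolynomial.X i) = y i) (H : LC w y) :
    ∃ h, w h ≠ 0 ∧ Algebra.Smooth (MvPolynomial ι ℂ) (Localization.Away h) := by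
  haveI : Algebra.FiniteType (MvPolynomial ι ℂ) A := .of_restrictScalars_finiteType ℂ _ A
  haveI : Algebra.FinitePresentation (MvPolynomial ι ℂ) A :=
    Algebra.FinitePresentation.of_finiteType.1 inferInstance
  haveI : (RingHom.ker w).IsPrime := RingHom.ker_isPrime w
  obtain ⟨n, φ, hφ⟩ := Algebra.FiniteType.iff_quotient_mvPolynomial''.mp
    (inferInstance : Algebra.FiniteType (MvPolynomial ι ℂ) A)
  haveI : ((RingHom.ker w).comap φ).IsPrime := Ideal.comap_isPrime φ _
  haveI : Algebra.IsSmoothAt (MvPolynomial ι ℂ) (RingHom.ker w) :=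
    cet_local hy H φ hφ (Localization.AtPrime ((RingHom.ker w).comap φ)) _
  exact Algebra.IsSmoothAt.exists_notMem_smooth (MvPolynomial ι ℂ) (RingHom.ker w)

theorem lc_smooth {y : ι → A} (H : LC w y) : ∃ h, w h ≠ 0 ∧
    (MvPolynomial.aeval (R := ℂ) fun i => toAway h (y i)).toRingHom.Smooth := by
  letI : Algebra (MvPolynomial ι ℂ) A := (MvPolynomial.aeval (R := ℂ) y).toRingHom.toAlgebra
  haveI : IsScalarTower ℂ (MvPolynomial ι ℂ) A :=
    .of_algebraMap_eq fun c => ((MvPolynomial.aeval (R := ℂ) y).commutes c).symm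
  obtain ⟨h, h0, hs⟩ := cet_main (fun i => MvPolynomial.aeval_X y i) H
  refine ⟨h, h0, ?_⟩
  have e : (MvPolynomial.aeval (R := ℂ) fun i => toAway h (y i)) =
      IsScalarTower.toAlgHom ℂ (MvPolynomial ι ℂ) (Localization.Away h) :=
    MvPolynomial.algHom_ext fun i => by
      rw [MvPolynomial.aeval_X, IsScalarTower.toAlgHom_apply, IsScalarTower.toAlgHom_apply,
        IsScalarTower.algebraMap_apply (MvPolynomial ι ℂ) A (Localization.Away h)]
      exact congrArg _ (MvPolynomial.aeval_X y i).symm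
  rw [e]
  exact RingHom.smooth_algebraMap.2 hs

end Pool.Agent.P.MP_824f38_ag.N
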