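import Pool.Agent.P.MP_824f38_ag.N.Loc

/-! Row NEC-CKill: the kernel of the pull-back to a closed subscheme

Kil 𝔞 is a two-sided ideal of DR A (V.dk_mul_comm). Build the inverse map DR B → DR A / Kil with V.exists_lift (or exists_lift_central) into the quotient ring by the
ring congruence of Kil: b = π a ↦ [a], d b ↦ [d a]. -/

set_option linter.unusedVariables false
set_option linter.unusedSectionVars false
set_option linter.style.haveILetI false
set_option linter.dupNamespace false

namespace Pool.Agent.P.MP_824f38_ag.N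

variable {A B : Type} [CommRing A] [Algebra ℂ A] [CommRing B] [Algebra ℂ B]

theorem smul_mem_Kil {𝔞 : Ideal A} {a : A} (ha : a ∈ 𝔞) (β : DR A) : a • β ∈ Kil 𝔞 := by
  exact Submodule.subset_span ⟨a, ha, β, Or.inl rfl⟩

theorem dd_mul_mem_Kil {𝔞 : Ideal A} {a : A} (ha : a ∈ 𝔞) (β : DR A) : dd a * β ∈ Kil 𝔞 := by
  exact Submodule.subset_span ⟨a, ha, β, Or.inr rfl⟩

theorem Kil_mul_left {𝔞 : Ideal A} (β : DR A) {ω : DR A} (h : ω ∈ Kil 𝔞) : β * ω ∈ Kil 𝔞 := by
  induction h using Submodule.span_induction with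
  | mem x hx =>
    obtain ⟨a, ha, γ, rfl | rfl⟩ := hx
    · rw [mul_smul_comm]
      exact smul_mem_Kil ha _
    · have e : β * dd a = dd a * V.inv β := by
        have := V.dk_mul_comm (k := ℂ) a (V.inv β)
        rw [V.inv_inv] at this
        exact this.symm
      rw [← mul_assoc, e, mul_assoc]
      exact dd_mul_mem_Kil ha _
  | zero => rw [mul_zero]; exact zero_mem _
  | add x y _ _ hx hy => rw [mul_add]; exact add_mem hx hy
  | smul c x _ hx => rw [mul_smul_comm]; exact Submodule.smul_mem _ _ hx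

theorem Kil_mul_right {𝔞 : Ideal A} (β : DR A) {ω : DR A} (h : ω ∈ Kil 𝔞) : ω * β ∈ Kil 𝔞 := by
  induction h using Submodule.span_induction with
  | mem x hx =>
    obtain ⟨a, ha, γ, rfl | rfl⟩ := hx
    · rw [smul_mul_assoc]
      exact smul_mem_Kil ha _
    · rw [mul_assoc]
      exact dd_mul_mem_Kil ha _
  | zero => rw [zero_mul]; exact zero_mem _
  | add x y _ _ hx hy => rw [add_mul]; exact add_mem hx hy
  | smul c x _ hx => rw [smul_mul_assoc]; exact Submodule.smul_mem _ _ hx

theorem Kil_span (s : Set A) : Kil (Ideal.span s) =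
    Submodule.span A {ω | ∃ a ∈ s, ∃ β : DR A, ω = a • β ∨ ω = dd a * β} := by
  refine le_antisymm (Submodule.span_le.2 ?_) (Submodule.span_mono ?_)
  · obtain ⟨K, hK⟩ : ∃ K : Submodule A (DR A),
      K = Submodule.span A {ω | ∃ a ∈ s, ∃ β : DR A, ω = a • β ∨ ω = dd a * β} := ⟨_, rfl⟩
    have key : ∀ a ∈ Ideal.span s, ∀ β : DR A, a • β ∈ K ∧ dd a * β ∈ K := by
      intro a ha
      induction ha using Submodule.span_induction with
      | mem x hx =>
        exact fun β => hK ▸ ⟨Submodule.subset_span ⟨x, hx, β, Or.inl rfl⟩,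
          Submodule.subset_span ⟨x, hx, β, Or.inr rfl⟩⟩
      | zero => exact fun β => by rw [zero_smul, dd_zero, zero_mul]; exact ⟨zero_mem _, zero_mem _⟩
      | add x y _ _ hx hy =>
        intro β
        rw [add_smul, dd_add, add_mul]
        exact ⟨add_mem (hx β).1 (hy β).1, add_mem (hx β).2 (hy β).2⟩
      | smul c x _ hx =>
        intro β
        rw [smul_eq_mul, mul_smul, dd_mul, add_mul, smul_mul_assoc, smul_mul_assoc]
        exact ⟨K.smul_mem _ (hx β).1, add_mem (K.smul_mem _ (hx β).2) (hx _).1⟩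
    rw [← hK]
    rintro _ ⟨a, ha, β, rfl | rfl⟩
    · exact (key a ha β).1
    · exact (key a ha β).2
  · rintro _ ⟨a, ha, h⟩
    exact ⟨a, Ideal.subset_span ha, h⟩

theorem pull_Kil (φ : A →ₐ[ℂ] B) {𝔞 : Ideal A} {𝔟 : Ideal B} (h : ∀ a ∈ 𝔞, φ a ∈ 𝔟) {ω : DR A}
    (hω : ω ∈ Kil 𝔞) : pull φ ω ∈ Kil 𝔟 := by
  induction hω using Submodule.span_induction with
  | mem x hx =>
    obtain ⟨a, ha, γ, rfl | rfl⟩ := hx
    · rw [pull_smul]
      exact smul_mem_Kil (h a ha) _
    · rw [map_mul, pull_dd]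
      exact dd_mul_mem_Kil (h a ha) _
  | zero => rw [map_zero]; exact zero_mem _
  | add x y _ _ hx hy => rw [map_add]; exact add_mem hx hy
  | smul c x _ hx => rw [pull_smul]; exact Submodule.smul_mem _ _ hx

theorem pull_eq_zero_iff (π : A →ₐ[ℂ] B) (hπ : Function.Surjective π) (ω : DR A) :
    pull π ω = 0 ↔ ω ∈ Kil (RingHom.ker π) := by
  constructor
  · intro h
    let c : RingCon (DR A) :=
      { r := fun x y => x - y ∈ Kil (RingHom.ker π)
        iseqv := ⟨fun x => by rw [sub_self]; exact zero_mem _,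
          fun h1 => by rw [← neg_sub]; exact neg_mem h1,
          fun h1 h2 => by rw [← sub_add_sub_cancel]; exact add_mem h1 h2⟩
        add' := fun {a b x y} h1 h2 => by
          show a + x - (b + y) ∈ Kil (RingHom.ker π)
          rw [add_sub_add_comm]
          exact add_mem h1 h2
        mul' := fun {a b x y} h1 h2 => by
          show a * x - b * y ∈ Kil (RingHom.ker π)
          rw [← sub_add_sub_cancel _ (b * x), ← sub_mul, ← mul_sub]
          exact add_mem (Kil_mul_right _ h1) (Kil_mul_left _ h2) }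
    have hc : ∀ x, c.mk' x = 0 ↔ x ∈ Kil (RingHom.ker π) := fun x => by
      rw [← map_zero c.mk']
      refine (RingCon.eq c).trans ?_
      show x - 0 ∈ Kil (RingHom.ker π) ↔ _
      rw [sub_zero]
    obtain ⟨φ, hφ⟩ : ∃ φ : B →+* c.Quotient, ∀ a, φ (π a) = c.mk' (V.fn ℂ a) :=
      ⟨(π : A →+* B).liftOfSurjective hπ ⟨c.mk'.comp (V.fn ℂ), fun a ha => (hc _).2 (by
        rw [Algebra.algebraMap_eq_smul_one]
        exact smul_mem_Kil ha _)⟩, fun a => RingHom.liftOfRightInverse_comp_apply _ _ _ _ a⟩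
    obtain ⟨D, hD⟩ : ∃ D : B →+ c.Quotient, ∀ a, D (π a) = c.mk' (V.dk ℂ a) :=
      ⟨(π : A →+* B).toAddMonoidHom.liftOfSurjective hπ
        ⟨c.mk'.toAddMonoidHom.comp (V.dkHom ℂ), fun a ha => (hc _).2 (by
          have := dd_mul_mem_Kil (𝔞 := RingHom.ker π) ha 1
          rwa [mul_one] at this)⟩,
        fun a => AddMonoidHom.liftOfRightInverse_comp_apply _ _ _ _ a⟩
    obtain ⟨F, F0, F1⟩ := V.exists_lift (k := ℂ) φ D
      (fun a b => by
        obtain ⟨a, rfl⟩ := hπ a
        obtain ⟨b, rfl⟩ := hπ b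
        rw [hφ, hD, ← map_mul, ← map_mul, V.fn_comm])
      (fun a b => by
        obtain ⟨a, rfl⟩ := hπ a
        obtain ⟨b, rfl⟩ := hπ b
        rw [← map_mul π, hD, hD, hD, hφ, hφ, V.dk_mul, map_add, map_mul, map_mul])
      (fun z => by rw [← π.commutes, hD, V.dk_algebraMap, map_zero])
      (fun a => by
        obtain ⟨a, rfl⟩ := hπ a
        rw [hD, ← map_mul, V.dk_sq, map_zero])
    have key : F.comp (pull π) = c.mk' := V.DR_ext
      (fun a => (congrArg F (pull_algebraMap π a)).trans ((F0 _).trans (hφ a)))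
      (fun a => (congrArg F (pull_dd π a)).trans ((F1 _).trans (hD a)))
    rw [← hc, ← key, RingHom.comp_apply, h, map_zero]
  · intro h
    induction h using Submodule.span_induction with
    | mem x hx =>
      obtain ⟨a, ha, γ, rfl | rfl⟩ := hx
      · rw [pull_smul, (RingHom.mem_ker).1 ha, zero_smul]
      · rw [map_mul, pull_dd, (RingHom.mem_ker).1 ha, dd_zero, zero_mul]
    | zero => exact map_zero _
    | add x y _ _ hx hy => rw [map_add, hx, hy, add_zero]
    | smul c x _ hx => rw [pull_smul, hx, smul_zero]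

end Pool.Agent.P.MP_824f38_ag.N
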