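import Pool.Agent.P.MP_824f38_ag.N.CBch
import Pool.Agent.P.MP_824f38_ag.N.CKill
import Pool.Agent.P.MP_824f38_ag.N.CBasis
import Pool.Agent.P.MP_824f38_ag.N.CLoc

/-! Row NEC-CGlue: forms on a chart that come from both charts of the blow-up

Let a = y i, b = y j, W = Localization.Away (a b), a chart with coordinates y (Chart.loc). On the
chart Bch a b a form α of Kil (a) satisfies a α = Σ a ^ (w S) f_S mono y S, where w S counts the
indices among i, j that are not in S (a dt = db - t da). The same holds for β on Bch b a. Compare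
the coefficients in W, clear denominators and use reg_mod: a ^ (w S) f_S = a r_S and
b ^ (w S) g_S = b r_S with r_S in A. For w S = 2 the section of the exceptional divisor puts r_S in
(a, b). Put ω = Σ r_S mono y S. -/

set_option linter.unusedVariables false
set_option linter.unusedSectionVars false
set_option linter.style.haveILetI false
set_option linter.dupNamespace false

namespace Pool.Agent.P.MP_824f38_ag.N

variable {A : Type} [CommRing A] [Algebra ℂ A] [Algebra.FiniteType ℂ A] {N : ℕ}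
  {y : Fin N → A}

/-- the number of the indices `i`, `j` that are not in `S` -/
def cgW (i j : Fin N) (S : Finset (Fin N)) : ℕ :=
  (if i ∈ S then 0 else 1) + (if j ∈ S then 0 else 1)

/-- the lattice that contains `u i • Kil (u i)` on the chart of the blow-up -/
noncomputable def cgQ (u : Fin N → A) (i j : Fin N) : Submodule A (DR A) :=
  Submodule.span A (Set.range fun S : Finset (Fin N) => u i ^ cgW i j S • mono u S)

theorem cg_mem (u : Fin N → A) (i j : Fin N) (S : Finset (Fin N)) {n : ℕ} (hn : cgW i j S ≤ n) :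
    u i ^ n • mono u S ∈ cgQ u i j := by
  obtain ⟨d, rfl⟩ := Nat.exists_eq_add_of_le hn
  rw [add_comm, pow_add, mul_smul]
  exact Submodule.smul_mem _ _ (Submodule.subset_span ⟨S, rfl⟩)

theorem cg_zsmul {Q : Submodule A (DR A)} (a : A) (e : ℤ) {ω : DR A} (h : a • ω ∈ Q) :
    a • (e • ω) ∈ Q := by
  rw [smul_comm]; exact zsmul_mem h e

theorem cg_one (u : Fin N → A) (i j : Fin N) (S : Finset (Fin N)) {k : Fin N}
    (hk : k = i ∨ k = j) : u i • (dd (u k) * mono u S) ∈ cgQ u i j := by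
  by_cases h : k ∈ S
  · rw [dd_mul_mono_of_mem u h, smul_zero]; exact zero_mem _
  · rw [dd_mul_mono u h]
    refine cg_zsmul _ _ ?_
    have h1 := cg_mem u i j (insert k S) (n := 1) (by
      unfold cgW
      rcases hk with rfl | rfl
      · rw [if_pos (Finset.mem_insert_self _ _)]; split_ifs <;> omega
      · rw [if_pos (Finset.mem_insert_self k S)]; split_ifs <;> omega)
    rwa [pow_one] at h1

theorem cg_two (u : Fin N → A) (i j : Fin N) (S : Finset (Fin N)) :
    dd (u i) * (dd (u j) * mono u S) ∈ cgQ u i j := by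
  by_cases h : j ∈ S
  · rw [dd_mul_mono_of_mem u h, mul_zero]; exact zero_mem _
  · rw [dd_mul_mono u h, mul_smul_comm]
    refine zsmul_mem ?_ _
    by_cases h' : i ∈ insert j S
    · rw [dd_mul_mono_of_mem u h']; exact zero_mem _
    · rw [dd_mul_mono u h']
      refine zsmul_mem ?_ _
      have h1 := cg_mem u i j (insert i (insert j S)) (n := 0) (by
        unfold cgW
        rw [if_pos (Finset.mem_insert_self _ _),
          if_pos (Finset.mem_insert_of_mem (Finset.mem_insert_self _ _))])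
      rwa [pow_zero, one_smul] at h1

theorem cg_expand (u : Fin N → A) (t : A) {i j : Fin N} (hm : u i * t = u j)
    (H : Chart (Function.update u j t)) {α : DR A} (hα : α ∈ Kil (Ideal.span {u i})) :
    ∃ f : Finset (Fin N) → A, u i • α = ∑ S, (u i ^ cgW i j S * f S) • mono u S := by
  have hdt : u i • dd t = dd (u j) - t • dd (u i) := by
    rw [← hm, dd_mul, add_sub_cancel_right]
  have hnot : ∀ T : Finset (Fin N), j ∉ T → mono (Function.update u j t) T = mono u T :=
    fun T hT => mono_congr fun k hk =>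
      Function.update_of_ne (fun (e : k = j) => hT (e ▸ hk)) _ _
  have hmono : ∀ T : Finset (Fin N), mono (Function.update u j t) T = mono u T ∨
      ∃ (e : ℤ) (T' : Finset (Fin N)), mono (Function.update u j t) T = e • (dd t * mono u T') := by
    intro T
    by_cases hT : j ∈ T
    · refine Or.inr ⟨V.sgn T j, T.erase j, ?_⟩
      have h1 := dd_mul_mono (Function.update u j t) (Finset.notMem_erase j T)
      rw [Finset.insert_erase hT, Function.update_self, hnot _ (Finset.notMem_erase j T)] at h1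
      rw [h1, smul_smul, V.sgn_sq, one_smul]
    · exact Or.inl (hnot T hT)
  have hgen : ∀ T : Finset (Fin N),
      u i • (u i • mono (Function.update u j t) T) ∈ cgQ u i j ∧
        u i • (dd (u i) * mono (Function.update u j t) T) ∈ cgQ u i j := by
    intro T
    rcases hmono T with h | ⟨e, T', h⟩
    · rw [h]
      refine ⟨?_, cg_one u i j T (Or.inl rfl)⟩
      rw [smul_smul, ← pow_two]
      exact cg_mem u i j T (by unfold cgW; split_ifs <;> omega)
    · rw [h]
      constructor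
      · rw [smul_comm (u i) e]
        refine cg_zsmul _ _ ?_
        rw [← smul_mul_assoc, hdt, sub_mul, smul_sub, smul_mul_assoc, smul_comm (u i) t]
        exact sub_mem (cg_one u i j T' (Or.inr rfl))
          (Submodule.smul_mem _ _ (cg_one u i j T' (Or.inl rfl)))
      · rw [mul_smul_comm]
        refine cg_zsmul _ _ ?_
        rw [← mul_smul_comm, ← smul_mul_assoc, hdt, sub_mul, mul_sub, smul_mul_assoc,
          mul_smul_comm, ← mul_assoc (dd (u i)) (dd (u i)), dd_sq, zero_mul, smul_zero, sub_zero]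
        exact cg_two u i j T'
  obtain ⟨b, hb⟩ := chart_basis H
  have hall : ∀ β : DR A, u i • (u i • β) ∈ cgQ u i j ∧ u i • (dd (u i) * β) ∈ cgQ u i j := by
    intro β
    rw [← b.sum_repr β]
    constructor
    · rw [Finset.smul_sum, Finset.smul_sum]
      refine sum_mem fun T _ => ?_
      rw [smul_comm (u i) (b.repr β T), smul_comm (u i) (b.repr β T), hb]
      exact Submodule.smul_mem _ _ (hgen T).1
    · rw [Finset.mul_sum, Finset.smul_sum]
      refine sum_mem fun T _ => ?_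
      rw [mul_smul_comm, smul_comm (u i) (b.repr β T), hb]
      exact Submodule.smul_mem _ _ (hgen T).2
  have hQ : u i • α ∈ cgQ u i j := by
    rw [Kil_span] at hα
    refine Submodule.span_induction (p := fun ω _ => u i • ω ∈ cgQ u i j) ?_ ?_ ?_ ?_ hα
    · rintro ω ⟨a, ha, β, hω⟩
      rw [Set.mem_singleton_iff] at ha
      subst ha
      rcases hω with rfl | rfl
      · exact (hall β).1
      · exact (hall β).2
    · rw [smul_zero]; exact zero_mem _
    · intro x z _ _ hx hz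
      rw [smul_add]; exact add_mem hx hz
    · intro c x _ hx
      rw [smul_comm]; exact Submodule.smul_mem _ _ hx
  obtain ⟨f, hf⟩ := (Submodule.mem_span_range_iff_exists_fun A).1 hQ
  refine ⟨f, ?_⟩
  rw [← hf]
  refine Finset.sum_congr rfl fun S _ => ?_
  rw [smul_smul, mul_comm]

theorem cg_pow_dvd (H : Chart y) {i j : Fin N} (hij : i ≠ j) (k l : ℕ) {z : A}
    (h : y i ^ k ∣ y j ^ l * z) : y i ^ k ∣ z := by
  have h1 : ∀ (l : ℕ) (z : A), y i ∣ y j ^ l * z → y i ∣ z := by
    intro l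
    induction l with
    | zero => intro z hz; rwa [pow_zero, one_mul] at hz
    | succ l ih =>
      intro z hz
      rw [pow_succ', mul_assoc] at hz
      exact ih z (H.reg_mod hij hz)
  induction k generalizing z with
  | zero => rw [pow_zero]; exact one_dvd _
  | succ k ih =>
    obtain ⟨z', rfl⟩ := h1 l z ((dvd_pow_self _ (Nat.succ_ne_zero k)).trans h)
    obtain ⟨c, hc⟩ := h
    have h2 : y j ^ l * z' = y i ^ k * c := by
      refine (mul_cancel_left_mem_nonZeroDivisors (H.regular i)).1 ?_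
      rw [mul_left_comm, hc]; ring
    rw [pow_succ']
    exact mul_dvd_mul_left _ (ih ⟨c, h2⟩)

theorem cg_coef (H : Chart y) {i j : Fin N} (hij : i ≠ j) {B1 B2 W : Type} [CommRing B1]
    [CommRing B2] [CommRing W] (c1 : A →+* B1) (c2 : A →+* B2) (ι : A →+* W) (ψ1 : B1 →+* W)
    (ψ2 : B2 →+* W) (e1 : ∀ x, ψ1 (c1 x) = ι x) (e2 : ∀ x, ψ2 (c2 x) = ι x)
    (hι : Function.Injective ι) (r1 : c1 (y i) ∈ nonZeroDivisors B1)
    (r2 : c2 (y j) ∈ nonZeroDivisors B2) {F : B1} {G : B2}
    (hF : ∃ (k : ℕ) (p : A), c1 (y i) ^ k * F = c1 p)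
    (hG : ∃ (k : ℕ) (p : A), c2 (y j) ^ k * G = c2 p)
    (h : ι (y j) * ψ1 F = ι (y i) * ψ2 G) :
    ∃ r, c1 (y i) * c1 r = F ∧ c2 (y j) * c2 r = G := by
  obtain ⟨k, p, hp⟩ := hF
  obtain ⟨l, q, hq⟩ := hG
  have hp' : ι p = ι (y i) ^ k * ψ1 F := by rw [← e1 p, ← hp, map_mul, map_pow, e1]
  have hq' : ι q = ι (y j) ^ l * ψ2 G := by rw [← e2 q, ← hq, map_mul, map_pow, e2]
  have h1 : y j ^ (l + 1) * p = y i ^ (k + 1) * q := by
    apply hι
    rw [map_mul, map_mul, map_pow, map_pow, hp', hq']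
    linear_combination ι (y j) ^ l * ι (y i) ^ k * h
  obtain ⟨r, rfl⟩ := cg_pow_dvd H hij (k + 1) (l + 1) ⟨q, h1⟩
  have h2 : y j ^ (l + 1) * r = q := by
    refine (mul_cancel_left_mem_nonZeroDivisors (pow_mem (H.regular i) (k + 1))).1 ?_
    rw [← h1]; ring
  refine ⟨r, ?_, ?_⟩
  · refine (mul_cancel_left_mem_nonZeroDivisors (pow_mem r1 k)).1 ?_
    rw [hp, map_mul, map_pow]; ring
  · refine (mul_cancel_left_mem_nonZeroDivisors (pow_mem r2 l)).1 ?_
    rw [hq, ← h2, map_mul, map_pow]; ring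

theorem cg_den (a b : A) (f : Bch a b) :
    ∃ (k : ℕ) (p : A), bchC a b a ^ k * f = bchC a b p := by
  induction f using bch_induction with
  | h0 x => exact ⟨0, x, by rw [pow_zero, one_mul]⟩
  | h1 => exact ⟨1, b, by rw [pow_one, bch_mul]⟩
  | hadd x z hx hz =>
    obtain ⟨k, p, hp⟩ := hx
    obtain ⟨l, q, hq⟩ := hz
    refine ⟨k + l, a ^ l * p + a ^ k * q, ?_⟩
    rw [map_add, map_mul, map_mul, map_pow, map_pow, ← hp, ← hq]; ring
  | hmul x z hx hz =>
    obtain ⟨k, p, hp⟩ := hx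
    obtain ⟨l, q, hq⟩ := hz
    refine ⟨k + l, p * q, ?_⟩
    rw [map_mul, ← hp, ← hq]; ring

theorem cg_pull_sum {B : Type} [CommRing B] [Algebra ℂ B] (φ : A →ₐ[ℂ] B) (u : Fin N → A)
    (f : Finset (Fin N) → A) :
    pull φ (∑ S, f S • mono u S) = ∑ S, φ (f S) • mono (fun k => φ (u k)) S := by
  rw [map_sum]
  exact Finset.sum_congr rfl fun S _ => by rw [pull_smul, pull_mono]

theorem cg_glue (H : Chart y) {i j : Fin N} (hij : i ≠ j) {B1 B2 W : Type} [CommRing B1]
    [Algebra ℂ B1] [Algebra.FiniteType ℂ B1] [CommRing B2] [Algebra ℂ B2]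
    [Algebra.FiniteType ℂ B2] [CommRing W] [Algebra ℂ W] [Algebra.FiniteType ℂ W]
    (c1 : A →ₐ[ℂ] B1) (c2 : A →ₐ[ℂ] B2) (ι : A →ₐ[ℂ] W) (ψ1 : B1 →ₐ[ℂ] W) (ψ2 : B2 →ₐ[ℂ] W)
    (e1 : ∀ x, ψ1 (c1 x) = ι x) (e2 : ∀ x, ψ2 (c2 x) = ι x) (hι : Function.Injective ι)
    (HW : Chart fun k => ι (y k)) (r1 : c1 (y i) ∈ nonZeroDivisors B1)
    (r2 : c2 (y j) ∈ nonZeroDivisors B2) {t1 : B1} {t2 : B2} (m1 : c1 (y i) * t1 = c1 (y j))
    (m2 : c2 (y j) * t2 = c2 (y i)) (H1 : Chart (Function.update (fun k => c1 (y k)) j t1))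
    (H2 : Chart (Function.update (fun k => c2 (y k)) i t2))
    (d1 : ∀ F, ∃ (k : ℕ) (p : A), c1 (y i) ^ k * F = c1 p)
    (d2 : ∀ F, ∃ (k : ℕ) (p : A), c2 (y j) ^ k * F = c2 p)
    (hs : ∀ r f, c1 r = c1 (y i) * f → r ∈ Ideal.span {y i, y j})
    {α : DR B1} (hα : α ∈ Kil (Ideal.span {c1 (y i)})) {β : DR B2}
    (hβ : β ∈ Kil (Ideal.span {c2 (y j)})) (h : pull ψ1 α = pull ψ2 β) :
    ∃ ω ∈ Kil (Ideal.span {y i, y j}), pull c1 ω = α ∧ pull c2 ω = β := by
  obtain ⟨f, hf⟩ := cg_expand (fun k => c1 (y k)) t1 m1 H1 hα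
  obtain ⟨g, hg⟩ := cg_expand (fun k => c2 (y k)) t2 m2 H2 hβ
  obtain ⟨b, hb⟩ := chart_basis HW
  have hf' := congrArg (pull ψ1) hf
  have hg' := congrArg (pull ψ2) hg
  rw [pull_smul, cg_pull_sum] at hf' hg'
  simp only [e1, e2, ← hb] at hf' hg'
  have hc : ∀ S, ι (y j) * ψ1 (c1 (y i) ^ cgW i j S * f S) =
      ι (y i) * ψ2 (c2 (y j) ^ cgW j i S * g S) := by
    intro S
    have h1 := congrArg (fun ω => b.repr ω S) hf'
    have h2 := congrArg (fun ω => b.repr ω S) hg'
    simp only [b.repr_sum_self, map_smul, Finsupp.smul_apply, smul_eq_mul] at h1 h2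
    rw [← h1, ← h2, h]; ring
  choose r hr1 hr2 using fun S => cg_coef H hij (c1 : A →+* B1) (c2 : A →+* B2) (ι : A →+* W)
    (ψ1 : B1 →+* W) (ψ2 : B2 →+* W) e1 e2 hι r1 r2 (d1 _) (d2 _) (hc S)
  simp only [RingHom.coe_coe] at hr1 hr2
  refine ⟨∑ S, r S • mono y S, sum_mem fun S _ => ?_, ?_, ?_⟩
  · have hk : ∀ k, k ∈ S → y k ∈ Ideal.span {y i, y j} →
        r S • mono y S ∈ Kil (Ideal.span {y i, y j}) := by
      intro k hkS hk
      have h1 := dd_mul_mono y (Finset.notMem_erase k S)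
      rw [Finset.insert_erase hkS] at h1
      have h2 : mono y S = V.sgn S k • (dd (y k) * mono y (S.erase k)) := by
        rw [h1, smul_smul, V.sgn_sq, one_smul]
      rw [h2]
      exact Submodule.smul_mem _ _ (zsmul_mem (dd_mul_mem_Kil hk _) _)
    by_cases hi : i ∈ S
    · exact hk i hi (Ideal.subset_span (Or.inl rfl))
    · by_cases hj : j ∈ S
      · exact hk j hj (Ideal.subset_span (Or.inr rfl))
      · refine smul_mem_Kil (hs (r S) (f S) ?_) _
        refine (mul_cancel_left_mem_nonZeroDivisors r1).1 ?_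
        rw [hr1, cgW, if_neg hi, if_neg hj]; ring
  · refine sub_eq_zero.1 (chart_tf H1 r1 ?_)
    rw [smul_sub, hf, cg_pull_sum, Finset.smul_sum, sub_eq_zero]
    exact Finset.sum_congr rfl fun S _ => by rw [smul_smul, hr1]
  · refine sub_eq_zero.1 (chart_tf H2 r2 ?_)
    rw [smul_sub, hg, cg_pull_sum, Finset.smul_sum, sub_eq_zero]
    exact Finset.sum_congr rfl fun S _ => by rw [smul_smul, hr2]

theorem bl_glue (H : Chart y) {i j : Fin N} (hij : i ≠ j)
    (g2 : Bch (y j) (y i) →ₐ[ℂ] Localization.Away (bchT (y i) (y j)))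
    (e : g2.comp (bchC (y j) (y i)) = (toAway (bchT (y i) (y j))).comp (bchC (y i) (y j)))
    (e' : g2 (bchT (y j) (y i)) * toAway (bchT (y i) (y j)) (bchT (y i) (y j)) = 1)
    {α : DR (Bch (y i) (y j))} (hα : α ∈ Kil (Ideal.span {bchC (y i) (y j) (y i)}))
    {β : DR (Bch (y j) (y i))} (hβ : β ∈ Kil (Ideal.span {bchC (y j) (y i) (y j)}))
    (h : pull (toAway (bchT (y i) (y j))) α = pull g2 β) :
    ∃ ω ∈ Kil (Ideal.span {y i, y j}),
      pull (bchC (y i) (y j)) ω = α ∧ pull (bchC (y j) (y i)) ω = β := by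
  haveI := ft_bch (y i) (y j)
  haveI := ft_bch (y j) (y i)
  haveI := ft_away (y i * y j)
  have hu : IsUnit (toAway (y i * y j) (y i) * toAway (y i * y j) (y j)) := by
    rw [← map_mul]
    exact IsLocalization.Away.algebraMap_isUnit (y i * y j)
  obtain ⟨ua, hua⟩ := isUnit_of_mul_isUnit_left hu
  have hub := isUnit_of_mul_isUnit_right hu
  obtain ⟨ψ1, hψ1, hψt⟩ := bch_lift (toAway (y i * y j)) (a := y i) (b := y j)
    (t := (ua⁻¹ : (Localization.Away (y i * y j))ˣ) * toAway (y i * y j) (y j))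
    (hua ▸ ua.isUnit.mem_nonZeroDivisors) (by rw [← hua, Units.mul_inv_cancel_left])
  have hut : IsUnit (ψ1 (bchT (y i) (y j))) := by
    rw [hψt]; exact (Units.isUnit _).mul hub
  obtain ⟨χ, hχ⟩ : ∃ χ : Localization.Away (bchT (y i) (y j)) →ₐ[ℂ] Localization.Away (y i * y j),
      χ.comp (toAway (bchT (y i) (y j))) = ψ1 := by
    refine ⟨IsLocalization.liftAlgHom (M := Submonoid.powers (bchT (y i) (y j))) (f := ψ1) ?_, ?_⟩
    · rintro ⟨_, n, rfl⟩
      rw [map_pow]; exact hut.pow n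
    · refine AlgHom.ext fun x => ?_
      rw [AlgHom.comp_apply, IsLocalization.liftAlgHom_apply]
      exact IsLocalization.lift_eq _ x
  obtain ⟨s, hs⟩ := exists_bch_sec H hij
  have hreg : y i * y j ∈ nonZeroDivisors A := mul_mem (H.regular i) (H.regular j)
  refine cg_glue H hij (bchC (y i) (y j)) (bchC (y j) (y i)) (toAway (y i * y j)) ψ1 (χ.comp g2)
    (fun x => AlgHom.congr_fun hψ1 x) (fun x => ?_)
    (IsLocalization.injective _ (M := Submonoid.powers (y i * y j))
      (Submonoid.powers_le.2 hreg))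
    (H.loc (Submonoid.powers (y i * y j))) (bch_regular _ _) (bch_regular _ _) (bch_mul _ _)
    (bch_mul _ _) (chart_bch H hij) (chart_bch H hij.symm) (cg_den _ _) (cg_den _ _)
    (fun r f hr => ?_) hα hβ ?_
  · have h1 := AlgHom.congr_fun e x
    have h2 := AlgHom.congr_fun hχ (bchC (y i) (y j) x)
    have h3 := AlgHom.congr_fun hψ1 x
    rw [AlgHom.comp_apply] at h1 h2 h3
    rw [AlgHom.comp_apply, h1, AlgHom.comp_apply, h2, h3]
  · have h1 := AlgHom.congr_fun hs r
    have h2 := AlgHom.congr_fun hs (y i)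
    rw [AlgHom.comp_apply, Ideal.Quotient.mkₐ_eq_mk] at h1 h2
    have h3 : y i ∈ Ideal.span {y i, y j} := Ideal.subset_span (Or.inl rfl)
    rw [← Ideal.Quotient.eq_zero_iff_mem] at h3 ⊢
    rw [← h1, hr, map_mul, h2, h3, zero_mul]
  · rw [← hχ, ← pull_pull, ← pull_pull, h]

end Pool.Agent.P.MP_824f38_ag.N
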