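import Pool.Agent.P.MP_824f38_ag.N.God
import Pool.Agent.P.MP_824f38_ag.V.DRk
import Pool.Agent.P.MP_824f38_ag.DRBasic
import Pool.Agent.P.MP_824f38_ag.H.Defs

/-! The presheaf of differential forms, its natural operators and its filtration. -/

set_option linter.unusedVariables false
set_option linter.unusedSectionVars false
set_option linter.style.haveILetI false

namespace Pool.Agent.P.MP_824f38_ag.N

variable {R : Type} [CommRing R] [Algebra ℂ R]

theorem pull_dR {A B : Type} [CommRing A] [Algebra ℂ A] [CommRing B] [Algebra ℂ B]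
    (φ : A →ₐ[ℂ] B) (ω : DR A) : pull φ (V.dR ω) = V.dR (pull φ ω) := by
  rw [V.pull_eq_pullk]; exact V.pullk_dR _ _ ω

theorem pull_ep {A B : Type} [CommRing A] [Algebra ℂ A] [CommRing B] [Algebra ℂ B]
    (φ : A →ₐ[ℂ] B) (p : ℕ) (ω : DR A) : V.ep p (pull φ ω) = pull φ (V.ep p ω) := by
  rw [V.pull_eq_pullk]; exact V.pullk_ep _ _ p ω

theorem pull_surjective {A B : Type} [CommRing A] [Algebra ℂ A] [CommRing B] [Algebra ℂ B]
    (φ : A →ₐ[ℂ] B) (h : Function.Surjective φ) : Function.Surjective (pull φ) := by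
  rw [V.pull_eq_pullk]; exact V.pullk_surjective _ _ h

theorem dd_eq_dk {A : Type} [CommRing A] [Algebra ℂ A] (a : A) : dd a = V.dk ℂ a := rfl

/-- forms on an object, one universe up -/
def LD (A : Ob R) : Type 1 := ULift.{1} (DR A.A)

noncomputable instance (A : Ob R) : AddCommGroup (LD A) :=
  inferInstanceAs (AddCommGroup (ULift.{1} (DR A.A)))

noncomputable instance (A : Ob R) : Module R (LD A) :=
  Module.compHom (ULift.{1} (DR A.A)) (A.str : R →+* A.A)

/-- the presheaf of forms -/
noncomputable def DRP (R : Type) [CommRing R] [Algebra ℂ R] : PSh R where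
  F := LD
  map {A B} φ :=
    { toFun := fun z => ULift.up (pull φ.f z.down)
      map_add' := fun a b => congrArg ULift.up (map_add (pull φ.f) a.down b.down)
      map_smul' := fun r z => congrArg ULift.up ((pull_smul φ.f (A.str r) z.down).trans
        (by rw [φ.str_apply]; rfl)) }
  map_id A z := congrArg ULift.up (pull_id z.down)
  map_comp ψ φ z := congrArg ULift.up (pull_pull φ.f ψ.f z.down).symm

/-- a form as a section -/
noncomputable def up (A : Ob R) : DR A.A ≃+ (DRP R).F A := AddEquiv.ulift.symm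

theorem up_smul (A : Ob R) (r : R) (ω : DR A.A) : r • up A ω = up A (A.str r • ω) := rfl

theorem up_surj {A : Ob R} (z : (DRP R).F A) : ∃ ω, up A ω = z := (up A).surjective z

theorem DRP_map {A B : Ob R} (φ : Hom A B) (ω : DR A.A) :
    (DRP R).map φ (up A ω) = up B (pull φ.f ω) := rfl

/-- an operator on forms that commutes with pull-back -/
noncomputable def ntOf (u : ∀ A : Ob R, DR A.A →+ DR A.A)
    (h : ∀ {A B : Ob R} (φ : Hom A B) ω, u B (pull φ.f ω) = pull φ.f (u A ω)) :
    NT (DRP R) (DRP R) where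
  app A := (up A).toAddMonoidHom.comp ((u A).comp (up A).symm.toAddMonoidHom)
  nat φ z := by
    obtain ⟨ω, rfl⟩ := up_surj z
    exact congrArg (up _) (h φ ω)

/-- the exterior derivative -/
noncomputable def dN (R : Type) [CommRing R] [Algebra ℂ R] : NT (DRP R) (DRP R) :=
  ntOf (fun A => V.dR) (fun φ ω => (pull_dR φ.f ω).symm)

/-- the projection to the forms of degree `p` -/
noncomputable def eN (R : Type) [CommRing R] [Algebra ℂ R] (p : ℕ) : NT (DRP R) (DRP R) :=
  ntOf (fun A => (V.ep p).toAddMonoidHom) (fun φ ω => pull_ep φ.f p ω)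

theorem dN_app (A : Ob R) (ω : DR A.A) : (dN R).app A (up A ω) = up A (V.dR ω) := rfl

theorem eN_app (p : ℕ) (A : Ob R) (ω : DR A.A) : (eN R p).app A (up A ω) = up A (V.ep p ω) := rfl

/-- a submodule of forms as a submodule of sections -/
def liftS (A : Ob R) (N : Submodule A.A (DR A.A)) : Submodule R ((DRP R).F A) where
  carrier := {z | (up A).symm z ∈ N}
  add_mem' := fun {a b} ha hb => by
    change (up A).symm (a + b) ∈ N
    rw [map_add]; exact add_mem ha hb
  zero_mem' := N.zero_mem
  smul_mem' := fun r z hz => N.smul_mem (A.str r) hz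

theorem up_mem_liftS {A : Ob R} {N : Submodule A.A (DR A.A)} {ω : DR A.A} :
    up A ω ∈ liftS A N ↔ ω ∈ N := Iff.rfl

/-- a family of submodules of forms that is stable under pull-back -/
noncomputable def subOf (N : ∀ A : Ob R, Submodule A.A (DR A.A))
    (h : ∀ {A B : Ob R} (φ : Hom A B), ∀ ω ∈ N A, pull φ.f ω ∈ N B) : Sub (DRP R) :=
  ⟨fun A => liftS A (N A), fun φ z hz => h φ _ hz⟩

/-- the forms of degree `p` -/
noncomputable def FmS (R : Type) [CommRing R] [Algebra ℂ R] (p : ℕ) : Sub (DRP R) :=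
  subOf (fun A => Forms A.A p) (fun φ ω h => pull_mem φ.f h)

/-- the ideal `m ^ a * radical m` -/
def twI {A : Type} [CommRing A] (m : Ideal A) (a : ℕ) : Ideal A := m ^ a * m.radical

theorem twI_map {A B : Type} [CommRing A] [CommRing B] (φ : A →+* B) (m : Ideal A) (a : ℕ) :
    (twI m a).map φ ≤ twI (m.map φ) a := by
  rw [twI, twI, Ideal.map_mul, Ideal.map_pow]
  exact Ideal.mul_mono_right (Ideal.map_radical_le φ)

theorem pull_smul_top {A B : Type} [CommRing A] [Algebra ℂ A] [CommRing B] [Algebra ℂ B]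
    (φ : A →ₐ[ℂ] B) {I : Ideal A} {J : Ideal B} (h : ∀ a ∈ I, φ a ∈ J) {ω : DR A}
    (hω : ω ∈ I • (⊤ : Submodule A (DR A))) : pull φ ω ∈ J • (⊤ : Submodule B (DR B)) := by
  refine Submodule.smul_induction_on hω (fun a ha β _ => ?_) (fun x y hx hy => ?_)
  · rw [pull_smul]; exact Submodule.smul_mem_smul (h a ha) trivial
  · rw [map_add]; exact add_mem hx hy

/-- the extension of an ideal of the base -/
def Ob.ex (A : Ob R) (m : Ideal R) : Ideal A.A := m.map (A.str : R →+* A.A)

theorem Hom.map_ex {A B : Ob R} (φ : Hom A B) (m : Ideal R) :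
    (A.ex m).map (φ.f : A.A →+* B.A) = B.ex m := by
  rw [Ob.ex, Ob.ex, Ideal.map_map]
  congr 1
  exact RingHom.ext φ.str_apply

theorem Hom.twI_mem {A B : Ob R} (φ : Hom A B) (m : Ideal R) (a : ℕ) :
    ∀ b ∈ twI (A.ex m) a, φ.f b ∈ twI (B.ex m) a := fun b hb => by
  have h := twI_map (φ.f : A.A →+* B.A) (A.ex m) a (Ideal.mem_map_of_mem _ hb)
  rwa [φ.map_ex] at h

/-- the filtration of the forms by the ideals `m ^ a * radical m` -/
noncomputable def FS (m : Ideal R) (a : ℕ) : Sub (DRP R) :=
  subOf (fun A => twI (A.ex m) a • ⊤) (fun φ ω h => pull_smul_top φ.f (φ.twI_mem m a) h)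

/-- the part of degree `p` of the filtration -/
noncomputable def FSp (m : Ideal R) (a p : ℕ) : Sub (DRP R) := (FS m a).inf (FmS R p)

/-- the Godement cochains of the forms -/
abbrev CD (A : Ob R) (j : ℕ) : Type 1 := (DRP R).C A j

/-- the Godement differential of the forms -/
noncomputable abbrev δD (A : Ob R) : Df R (CD A) := (DRP R).δ A

/-- a form as a Godement cochain -/
noncomputable def etaD (A : Ob R) : DR A.A →+ CD A 0 :=
  ((DRP R).eta A).toAddMonoidHom.comp (up A).toAddMonoidHom

theorem etaD_apply (A : Ob R) (ω : DR A.A) : etaD A ω = (DRP R).eta A (up A ω) := rfl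

theorem res_etaD {A B : Ob R} (φ : Hom A B) (ω : DR A.A) :
    (DRP R).res φ 0 (etaD A ω) = etaD B (pull φ.f ω) := (DRP R).map_eta φ _

theorem δ_etaD (A : Ob R) (ω : DR A.A) : δD A 0 (etaD A ω) = 0 := (DRP R).δ_eta A 0 _

theorem smul_etaD (A : Ob R) (r : R) (ω : DR A.A) : r • etaD A ω = etaD A (A.str r • ω) :=
  (map_smul ((DRP R).eta A) r (up A ω)).symm

/-- the image of a module of forms in the Godement cochains -/
noncomputable def etaN (A : Ob R) (N : Submodule A.A (DR A.A)) : Submodule R (CD A 0) :=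
  (liftS A N).map ((DRP R).eta A)

theorem mem_etaN {A : Ob R} {N : Submodule A.A (DR A.A)} {c : CD A 0} :
    c ∈ etaN A N ↔ ∃ ω ∈ N, etaD A ω = c :=
  ⟨fun ⟨z, hz, e⟩ => ⟨(up A).symm z, hz, e⟩, fun ⟨ω, hω, e⟩ => ⟨up A ω, hω, e⟩⟩

/-- the full Godement complex of the forms, relative to `𝔥` -/
noncomputable abbrev KT (A : Ob R) (𝔥 : Ideal A.A) : Fm R (CD A) := (Sub.top (DRP R)).K A 𝔥

/-- forms on the valuation ring of a point, as a module over the base -/
def DV (x : Pt R) : Type := DR x.V

noncomputable instance (x : Pt R) : AddCommGroup (DV x) :=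
  inferInstanceAs (AddCommGroup (DR x.V))

noncomputable instance (x : Pt R) : Module R (DV x) :=
  Module.compHom (DR x.V) (x.x : R →+* x.V)

/-- a form on the valuation ring as an element of `DV x` -/
noncomputable def toDV (x : Pt R) : DR x.V ≃+ DV x := AddEquiv.refl _

theorem toDV_smul (x : Pt R) (r : R) (ω : DR x.V) : r • toDV x ω = toDV x (x.x r • ω) := rfl

/-- evaluation of germs of forms on the valuation ring -/
noncomputable def stEv (x : Pt R) : (DRP R).Stalk x →ₗ[R] DV x :=
  Module.DirectLimit.lift R (Idx x) (fun i : Idx x => (DRP R).F i.ob)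
    (fun i j h => (DRP R).map (Idx.inc h))
    (fun i =>
      { toFun := fun z => toDV x (pull i.pt.y ((up i.ob).symm z))
        map_add' := fun a b => by
          obtain ⟨a, rfl⟩ := up_surj a
          obtain ⟨b, rfl⟩ := up_surj b
          exact map_add (pull i.pt.y) a b
        map_smul' := fun r z => by
          obtain ⟨ω, rfl⟩ := up_surj z
          exact pull_smul i.pt.y _ ω })
    (fun i j h z => by
      obtain ⟨ω, rfl⟩ := up_surj z
      exact pull_pull (Idx.inc h).f j.pt.y ω)

theorem stEv_germ {A : Ob R} {x : Pt R} (y : PtO A x) (ω : DR A.A) :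
    stEv x ((DRP R).germ y (up A ω)) = toDV x (pull y.y ω) := by
  have h : ∀ (i : Idx x) (β : DR i.ob.A),
      stEv x ((DRP R).ofI i (up _ β)) = toDV x (pull i.pt.y β) := fun i β => by
    unfold stEv PSh.ofI
    exact Module.DirectLimit.lift_of _ _ _
  rw [PSh.germ, LinearMap.comp_apply, DRP_map, h, pull_pull]
  rfl

/-- the terms of a hypercovering as objects -/
@[reducible] def hOb (X : Hyper R) (k : ℕ) : Ob R :=
  ⟨X.B k, haveI := X.smooth k; inferInstance, X.str k⟩

theorem d_str (X : Hyper R) : ∀ (k : ℕ) (i : Fin (k + 2)), (X.d k i).comp (X.str k) = X.str (k + 1)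
  | 0, i => by
    fin_cases i
    · rfl
    · exact X.d_aug.symm
  | k + 1, i => by
    induction i using Fin.cases with
    | zero => rfl
    | succ i =>
      change (X.d (k + 1) i.succ).comp ((X.d k 0).comp (X.str k)) =
        (X.d (k + 1) 0).comp (X.str (k + 1))
      rw [← AlgHom.comp_assoc, X.d_d k 0 i (Fin.zero_le i), AlgHom.comp_assoc, d_str X k i]
      rfl

/-- the face maps as morphisms -/
def hFace (X : Hyper R) (k : ℕ) (i : Fin (k + 2)) : Hom (hOb X k) (hOb X (k + 1)) :=
  ⟨X.d k i, d_str X k i⟩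

/-- the augmentation as a morphism -/
def hAug [Algebra.FiniteType ℂ R] (X : Hyper R) : Hom (Ob.self R) (hOb X 0) := ⟨X.aug, rfl⟩

/-- the simplicial differential on discontinuous sections -/
noncomputable def hAlt (Z : PSh R) (X : Hyper R) (k : ℕ) :
    Z.G.F (hOb X k) →ₗ[R] Z.G.F (hOb X (k + 1)) :=
  ∑ i : Fin (k + 2), (-1 : ℤ) ^ (i : ℕ) • Z.G.map (hFace X k i)

end Pool.Agent.P.MP_824f38_ag.N
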