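import Pool.Agent.P.MP_824f38_ag.N.CBasis
import Pool.Agent.P.MP_824f38_ag.N.CKill
import Pool.Agent.P.MP_824f38_ag.N.DRP

/-! Row NEC-CNe: logarithmic forms: formal properties

Direct computations on generators, with dd_mul_mono, mono_mul_mono, V.dk_mul_comm, V.dR_mul. Ne_log: for a generator with j ∈ P the product dd (z j) * ω vanishes;
for j ∉ P it is z j times the generator of insert j P (sign). Ne_pow: e j = c j + e' j. -/

set_option linter.unusedVariables false
set_option linter.unusedSectionVars false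
set_option linter.style.haveILetI false
set_option linter.dupNamespace false

namespace Pool.Agent.P.MP_824f38_ag.N

variable {A : Type} [CommRing A] [Algebra ℂ A] [Algebra.FiniteType ℂ A] {ι : Type}
  [LinearOrder ι] {z : ι → A} {J : Finset ι} {e : ι → ℕ}

namespace CNe

/-- the coefficient of a generator -/
noncomputable def cf (z : ι → A) (J : Finset ι) (e : ι → ℕ) (P : Finset ι) : A :=
  ∏ j ∈ J, z j ^ (if j ∈ P then e j - 1 else e j)

theorem gen_mem {P : Finset ι} (hP : P ⊆ J) (β : DR A) :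
    cf z J e P • (mono z P * β) ∈ Ne z J e :=
  Submodule.subset_span ⟨P, hP, β, rfl⟩

theorem ind {Q : DR A → Prop} (h0 : Q 0) (hadd : ∀ x y, Q x → Q y → Q (x + y))
    (hg : ∀ P, P ⊆ J → ∀ β, Q (cf z J e P • (mono z P * β))) {ω : DR A} (h : ω ∈ Ne z J e) :
    Q ω := by
  have key : ∀ a : A, Q (a • ω) := by
    induction h using Submodule.span_induction with
    | mem x hx =>
      obtain ⟨P, hP, β, rfl⟩ := hx
      intro a
      have := hg P hP (a • β)
      rw [mul_smul_comm, smul_comm] at this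
      exact this
    | zero => intro a; rw [smul_zero]; exact h0
    | add x y _ _ hx hy => intro a; rw [smul_add]; exact hadd _ _ (hx a) (hy a)
    | smul b x _ hx => intro a; rw [smul_smul]; exact hx _
  simpa using key 1

theorem comm_list (l : List A) (β : DR A) :
    ∃ β', β * (l.map dd).prod = (l.map dd).prod * β' := by
  induction l generalizing β with
  | nil => exact ⟨β, by simp⟩
  | cons a l ih =>
    obtain ⟨β', h⟩ := ih (V.inv β)
    refine ⟨β', ?_⟩
    have h1 : dd a * V.inv β = β * dd a := by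
      have := V.dk_mul_comm a (V.inv β)
      rw [V.inv_inv] at this
      exact this
    rw [List.map_cons, List.prod_cons, ← mul_assoc, ← h1, mul_assoc, h, mul_assoc]

theorem comm_mono (P : Finset ι) (β : DR A) : ∃ β', β * mono z P = mono z P * β' := by
  have := comm_list ((P.sort (· ≤ ·)).map z) β
  rw [List.map_map] at this
  exact this

theorem cf_insert {P : Finset ι} {j : ι} (hj : j ∈ J) :
    cf z J e (insert j P) =
      z j ^ (e j - 1) * ∏ k ∈ J.erase j, z k ^ (if k ∈ P then e k - 1 else e k) := by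
  rw [cf, ← Finset.mul_prod_erase J _ hj, if_pos (Finset.mem_insert_self j P)]
  congr 1
  refine Finset.prod_congr rfl fun k hk => ?_
  simp only [Finset.mem_insert, Finset.ne_of_mem_erase hk, false_or]

theorem cf_eq_mul {P : Finset ι} {j : ι} (hj : j ∈ J) (hP : j ∉ P) (he : 1 ≤ e j) :
    cf z J e P = z j * cf z J e (insert j P) := by
  rw [cf_insert hj, cf, ← Finset.mul_prod_erase J _ hj, if_neg hP, ← mul_assoc, ← pow_succ',
    Nat.sub_add_cancel he]

theorem dd_prod (S : Finset ι) (f : ι → A) :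
    dd (∏ j ∈ S, f j) = ∑ j ∈ S, (∏ k ∈ S.erase j, f k) • dd (f j) := by
  induction S using Finset.induction_on with
  | empty => simp [dd]
  | insert a S ha ih =>
    rw [Finset.prod_insert ha, Finset.sum_insert ha, dd_mul, ih, Finset.erase_insert ha,
      Finset.smul_sum, add_comm]
    congr 1
    refine Finset.sum_congr rfl fun j hj => ?_
    have hne : a ≠ j := fun h => ha (h ▸ hj)
    rw [smul_smul, Finset.erase_insert_of_ne hne,
      Finset.prod_insert fun h => ha (Finset.mem_of_mem_erase h)]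

theorem dd_pow (a : A) (n : ℕ) : dd (a ^ n) = n • a ^ (n - 1) • dd a := by
  simp only [dd, Derivation.leibniz_pow, map_nsmul, map_smul]

theorem mono_insert {P : Finset ι} {i : ι} (h : i ∉ P) :
    mono z (insert i P) = V.sgn (insert i P) i • (dd (z i) * mono z P) := by
  rw [dd_mul_mono z h, smul_smul, V.sgn_sq, one_smul]

theorem le_congr {z' : ι → A} {e' : ι → ℕ} (h : ∀ j ∈ J, z j = z' j)
    (h' : ∀ j ∈ J, e j = e' j) : Ne z J e ≤ Ne z' J e' := by
  intro ω hω
  refine ind (zero_mem _) (fun _ _ => add_mem) (fun P hP β => ?_) hω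
  have e1 : cf z J e P = cf z' J e' P :=
    Finset.prod_congr rfl fun j hj => by rw [h j hj, h' j hj]
  rw [e1, mono_congr fun i hi => h i (hP hi)]
  exact gen_mem hP β

theorem cf_add (c : ι → ℕ) (he : ∀ j ∈ J, 1 ≤ e j) (P : Finset ι) :
    cf z J (fun j => c j + e j) P = (∏ j ∈ J, z j ^ c j) * cf z J e P := by
  rw [cf, cf, ← Finset.prod_mul_distrib]
  refine Finset.prod_congr rfl fun j hj => ?_
  rw [← pow_add]
  have := he j hj
  congr 1
  split_ifs <;> omega

theorem pull_gen {B : Type} [CommRing B] [Algebra ℂ B] (φ : A →ₐ[ℂ] B) (P : Finset ι)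
    (β : DR A) : pull φ (cf z J e P • (mono z P * β)) =
      (∏ j ∈ J, φ (z j) ^ (if j ∈ P then e j - 1 else e j)) •
        (mono (fun j => φ (z j)) P * pull φ β) := by
  rw [pull_smul, map_mul, pull_mono, cf, map_prod]
  simp only [map_pow]

theorem cf_one_insert {i : ι} (hi : i ∉ J) (P : Finset ι) :
    cf z (insert i J) (fun _ => 1) P =
      z i ^ (if i ∈ P then 0 else 1) * cf z J (fun _ => 1) P := by
  rw [cf, Finset.prod_insert hi]
  rfl

theorem mono_image {ι' : Type} [LinearOrder ι'] (f : ι' → ι) (P : Finset ι')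
    (hf : Set.InjOn f P) :
    ∃ s : ℤ, s * s = 1 ∧ mono (fun j => z (f j)) P = s • mono z (P.image f) := by
  induction P using Finset.induction_on with
  | empty => exact ⟨1, one_mul 1, by rw [Finset.image_empty, mono_empty, mono_empty, one_smul]⟩
  | insert a P ha ih =>
    obtain ⟨s, hs, h⟩ := ih (hf.mono (Finset.coe_subset.2 (Finset.subset_insert _ _)))
    have hn : f a ∉ P.image f := fun hm => by
      obtain ⟨b, hb, hab⟩ := Finset.mem_image.1 hm
      have : b = a := hf (Finset.mem_coe.2 (Finset.mem_insert_of_mem hb))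
        (Finset.mem_coe.2 (Finset.mem_insert_self _ _)) hab
      exact ha (this ▸ hb)
    refine ⟨V.sgn (insert a P) a * (s * V.sgn (insert (f a) (P.image f)) (f a)), ?_, ?_⟩
    · have h1 := V.sgn_sq (insert a P) a
      have h2 := V.sgn_sq (insert (f a) (P.image f)) (f a)
      rw [mul_mul_mul_comm, h1, mul_mul_mul_comm, hs, h2]
      rfl
    · rw [mono_insert ha, h, mul_smul_comm, dd_mul_mono z hn, Finset.image_insert, smul_smul,
        smul_smul, mul_assoc]

theorem cf_image {ι' : Type} [LinearOrder ι'] (f : ι' → ι) {J' P : Finset ι'}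
    (hf : Set.InjOn f J') (hP : P ⊆ J') :
    cf (fun j => z (f j)) J' (fun j => e (f j)) P = cf z (J'.image f) e (P.image f) := by
  rw [cf, cf, Finset.prod_image hf]
  refine Finset.prod_congr rfl fun j hj => ?_
  have : f j ∈ P.image f ↔ j ∈ P := by
    constructor
    · intro hm
      obtain ⟨b, hb, hab⟩ := Finset.mem_image.1 hm
      have : b = j := hf (Finset.mem_coe.2 (hP hb)) (Finset.mem_coe.2 hj) hab
      exact this ▸ hb
    · exact Finset.mem_image_of_mem f
  simp only [this]

end CNe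

open CNe

theorem Ne_empty (z : ι → A) (e : ι → ℕ) : Ne z ∅ e = ⊤ := by
  refine eq_top_iff.2 fun β _ => ?_
  have := gen_mem (z := z) (e := e) (Finset.Subset.refl ∅) β
  rwa [cf, Finset.prod_empty, mono_empty, one_mul, one_smul] at this

theorem Ne_mul_right {ω : DR A} (h : ω ∈ Ne z J e) (β : DR A) : ω * β ∈ Ne z J e := by
  refine ind (Q := fun ω => ω * β ∈ Ne z J e) (by simp) (fun x y hx hy => ?_)
    (fun P hP γ => ?_) h
  · rw [add_mul]; exact add_mem hx hy
  · rw [smul_mul_assoc, mul_assoc]; exact gen_mem hP _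

theorem Ne_mul_left {ω : DR A} (h : ω ∈ Ne z J e) (β : DR A) : β * ω ∈ Ne z J e := by
  refine ind (Q := fun ω => β * ω ∈ Ne z J e) (by simp) (fun x y hx hy => ?_)
    (fun P hP γ => ?_) h
  · rw [mul_add]; exact add_mem hx hy
  · obtain ⟨β', hβ⟩ := comm_mono (z := z) P β
    rw [mul_smul_comm, ← mul_assoc, hβ, mul_assoc]; exact gen_mem hP _

theorem Ne_ep {ω : DR A} (h : ω ∈ Ne z J e) (p : ℕ) : V.ep p ω ∈ Ne z J e := by
  refine ind (Q := fun ω => V.ep p ω ∈ Ne z J e) (by simp) (fun x y hx hy => ?_)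
    (fun P hP γ => ?_) h
  · rw [map_add]; exact add_mem hx hy
  · have key : ∃ γ', V.ep p (mono z P * γ) = mono z P * γ' := by
      induction γ using V.homog_induction with
      | h0 q x hx =>
        have hm := V.mul_mem (mono_mem z P) hx
        by_cases hq : P.card + q = p
        · exact ⟨x, V.ep_of_mem (hq ▸ hm)⟩
        · exact ⟨0, by rw [mul_zero]; exact V.ep_of_ne hm hq⟩
      | hadd x y hx hy =>
        obtain ⟨x', hx⟩ := hx
        obtain ⟨y', hy⟩ := hy
        exact ⟨x' + y', by rw [mul_add, map_add, hx, hy, mul_add]⟩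
    obtain ⟨γ', hγ⟩ := key
    rw [map_smul, hγ]
    exact gen_mem hP _

theorem Ne_dR (he : ∀ j ∈ J, 1 ≤ e j) {ω : DR A} (h : ω ∈ Ne z J e) : V.dR ω ∈ Ne z J e := by
  refine ind (Q := fun ω => V.dR ω ∈ Ne z J e) (by simp) (fun x y hx hy => ?_)
    (fun P hP γ => ?_) h
  · rw [map_add]; exact add_mem hx hy
  · rw [V.smul_eq, V.dR_mul, V.dR_fn, V.inv_fn, ← V.smul_eq, V.dR_mul, dR_mono, zero_mul,
      zero_add, V.inv_of_mem (mono_mem z P)]
    refine add_mem ?_ ?_
    · rw [← dd_eq_dk, cf, dd_prod, Finset.sum_mul]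
      refine Submodule.sum_mem _ fun j hj => ?_
      rw [dd_pow, smul_mul_assoc, smul_mul_assoc, smul_mul_assoc, ← mul_assoc]
      by_cases hjP : j ∈ P
      · rw [dd_mul_mono_of_mem z hjP]
        simp
      · rw [dd_mul_mono z hjP, if_neg hjP, smul_comm _ (e j), smul_smul, mul_comm,
          ← cf_insert hj, smul_mul_assoc, ← mul_smul_comm]
        exact nsmul_mem (gen_mem (Finset.insert_subset hj hP) _) _
    · rw [mul_assoc, mul_smul_comm _ _ _ |>.symm]
      exact Ne_mul_left (gen_mem hP _) _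

theorem Ne_anti {e' : ι → ℕ} (h : ∀ j ∈ J, e j ≤ e' j) : Ne z J e' ≤ Ne z J e := by
  intro ω hω
  refine ind (zero_mem _) (fun _ _ => add_mem) (fun P hP β => ?_) hω
  have : cf z J e P ∣ cf z J e' P := Finset.prod_dvd_prod_of_dvd _ _ fun j hj =>
    pow_dvd_pow _ (by have := h j hj; split_ifs <;> omega)
  obtain ⟨c, hc⟩ := this
  rw [hc, mul_comm, mul_smul]
  exact Submodule.smul_mem _ _ (gen_mem hP β)

theorem Ne_congr {z' : ι → A} {e' : ι → ℕ} (h : ∀ j ∈ J, z j = z' j) (h' : ∀ j ∈ J, e j = e' j) :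
    Ne z J e = Ne z' J e' := by
  exact le_antisymm (le_congr h h')
    (le_congr (fun j hj => (h j hj).symm) fun j hj => (h' j hj).symm)

theorem Ne_log (he : ∀ j ∈ J, 1 ≤ e j) {j : ι} (hj : j ∈ J) {ω : DR A} (h : ω ∈ Ne z J e) :
    ∃ ω' ∈ Ne z J e, z j • ω' = dd (z j) * ω := by
  refine ind (Q := fun ω => ∃ ω' ∈ Ne z J e, z j • ω' = dd (z j) * ω) ⟨0, zero_mem _, by simp⟩
    ?_ (fun P hP γ => ?_) h
  · rintro x y ⟨x', hx, hx'⟩ ⟨y', hy, hy'⟩
    exact ⟨x' + y', add_mem hx hy, by rw [smul_add, mul_add, hx', hy']⟩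
  · by_cases hjP : j ∈ P
    · exact ⟨0, zero_mem _, by
        rw [mul_smul_comm, ← mul_assoc, dd_mul_mono_of_mem z hjP, zero_mul, smul_zero,
          smul_zero]⟩
    · refine ⟨_, gen_mem (Finset.insert_subset hj hP) (V.sgn (insert j P) j • γ), ?_⟩
      rw [smul_smul, ← cf_eq_mul hj hjP (he j hj), mul_smul_comm (cf z J e P), ← mul_assoc,
        dd_mul_mono z hjP, smul_mul_assoc, mul_smul_comm]

theorem Ne_pow (c : ι → ℕ) (he : ∀ j ∈ J, 1 ≤ e j) : Ne z J (fun j => c j + e j) =
    Ideal.span {∏ j ∈ J, z j ^ c j} • Ne z J e := by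
  apply le_antisymm
  · intro ω hω
    refine ind (zero_mem _) (fun _ _ => add_mem) (fun P hP β => ?_) hω
    rw [cf_add c he, mul_smul]
    exact Submodule.smul_mem_smul (Ideal.mem_span_singleton_self _) (gen_mem hP β)
  · refine Submodule.smul_le.2 fun r hr ω hω => ?_
    obtain ⟨a, rfl⟩ := Ideal.mem_span_singleton'.1 hr
    rw [mul_smul]
    refine Submodule.smul_mem _ _ ?_
    refine ind (Q := fun ω => (∏ j ∈ J, z j ^ c j) • ω ∈ Ne z J fun j => c j + e j) (by simp)
      (fun x y hx hy => ?_) (fun P hP β => ?_) hω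
    · rw [smul_add]; exact add_mem hx hy
    · rw [smul_smul, ← cf_add c he]; exact gen_mem hP β

theorem smul_mem_Ne (β : DR A) : (∏ j ∈ J, z j ^ e j) • β ∈ Ne z J e := by
  have := gen_mem (z := z) (e := e) (Finset.empty_subset J) β
  rw [mono_empty, one_mul] at this
  simpa [cf] using this

theorem pull_Ne {B : Type} [CommRing B] [Algebra ℂ B] (φ : A →ₐ[ℂ] B) {ω : DR A}
    (h : ω ∈ Ne z J e) : pull φ ω ∈ Ne (fun j => φ (z j)) J e := by
  refine ind (Q := fun ω => pull φ ω ∈ Ne (fun j => φ (z j)) J e) (by simp)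
    (fun x y hx hy => ?_) (fun P hP γ => ?_) h
  · rw [map_add]; exact add_mem hx hy
  · rw [pull_gen]; exact Submodule.subset_span ⟨P, hP, _, rfl⟩

theorem pull_Ne_surj {B : Type} [CommRing B] [Algebra ℂ B] (φ : A →ₐ[ℂ] B)
    (hφ : Function.Surjective φ) {ω : DR B} (h : ω ∈ Ne (fun j => φ (z j)) J e) :
    ∃ β ∈ Ne z J e, pull φ β = ω := by
  haveI : Algebra.FiniteType ℂ B := Algebra.FiniteType.of_surjective φ hφ
  refine ind (Q := fun ω => ∃ β ∈ Ne z J e, pull φ β = ω) ⟨0, zero_mem _, map_zero _⟩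
    ?_ (fun P hP γ => ?_) h
  · rintro x y ⟨x', hx, hx'⟩ ⟨y', hy, hy'⟩
    exact ⟨x' + y', add_mem hx hy, by rw [map_add, hx', hy']⟩
  · obtain ⟨γ, rfl⟩ := pull_surjective φ hφ γ
    exact ⟨_, gen_mem hP γ, pull_gen φ P γ⟩

theorem Ne_insert_le {i : ι} (hi : i ∉ J) : Ne z (insert i J) (fun _ => 1) ≤
    Ne z J (fun _ => 1) ⊓ Kil (Ideal.span {z i}) := by
  intro ω hω
  refine ind (zero_mem _) (fun _ _ => add_mem) (fun P hP β => ?_) hω
  rw [cf_one_insert hi]
  by_cases hiP : i ∈ P
  · have hP' : P.erase i ⊆ J := fun j hj =>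
      (Finset.mem_insert.1 (hP (Finset.mem_of_mem_erase hj))).resolve_left
        (Finset.ne_of_mem_erase hj)
    have e1 : cf z J (fun _ => 1) P = cf z J (fun _ => 1) (P.erase i) :=
      Finset.prod_congr rfl fun j hj => by
        have : j ≠ i := fun h => hi (h ▸ hj)
        simp only [Finset.mem_erase, this, ne_eq, not_false_eq_true, true_and]
    have e2 := mono_insert (z := z) (Finset.notMem_erase i P)
    rw [Finset.insert_erase hiP] at e2
    rw [if_pos hiP, pow_zero, one_mul, e1, e2, smul_mul_assoc, ← mul_smul_comm, mul_assoc,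
      ← mul_smul_comm]
    exact ⟨Ne_mul_left (gen_mem hP' _) _, dd_mul_mem_Kil (Ideal.mem_span_singleton_self _) _⟩
  · have hP' : P ⊆ J := fun j hj =>
      (Finset.mem_insert.1 (hP hj)).resolve_left fun h => hiP (h ▸ hj)
    rw [if_neg hiP, pow_one, mul_smul]
    exact ⟨Submodule.smul_mem _ _ (gen_mem hP' _),
      smul_mem_Kil (Ideal.mem_span_singleton_self _) _⟩

theorem Ne_insert_unit {i : ι} (hi : IsUnit (z i)) :
    Ne z (insert i J) (fun _ => 1) = Ne z J (fun _ => 1) := by
  by_cases hJ : i ∈ J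
  · rw [Finset.insert_eq_of_mem hJ]
  refine le_antisymm ((Ne_insert_le hJ).trans inf_le_left) fun ω hω => ?_
  refine ind (zero_mem _) (fun _ _ => add_mem) (fun P hP β => ?_) hω
  have h1 := gen_mem (z := z) (e := fun _ => 1) (hP.trans (Finset.subset_insert i J)) β
  rw [cf_one_insert hJ, if_neg fun h => hJ (hP h), pow_one, mul_smul] at h1
  obtain ⟨u, hu⟩ := hi.exists_left_inv
  have h2 := Submodule.smul_mem _ u h1
  rwa [smul_smul, hu, one_smul] at h2

theorem Ne_map {ι' : Type} [LinearOrder ι'] (f : ι' → ι) {J' : Finset ι'}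
    (hf : Set.InjOn f J') : Ne (fun j => z (f j)) J' (fun j => e (f j)) = Ne z (J'.image f) e := by
  apply le_antisymm
  · intro ω hω
    refine ind (zero_mem _) (fun _ _ => add_mem) (fun P hP β => ?_) hω
    obtain ⟨s, -, hs⟩ := mono_image (z := z) f P (hf.mono (Finset.coe_subset.2 hP))
    rw [cf_image f hf hP, hs, smul_mul_assoc, ← mul_smul_comm]
    exact gen_mem (Finset.image_subset_image hP) _
  · intro ω hω
    refine ind (zero_mem _) (fun _ _ => add_mem) (fun P hP β => ?_) hω
    obtain ⟨P, hP', rfl⟩ := Finset.subset_image_iff.1 hP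
    obtain ⟨s, h1, hs⟩ := mono_image (z := z) f P (hf.mono (Finset.coe_subset.2 hP'))
    have h2 := gen_mem (z := fun j => z (f j)) (e := fun j => e (f j)) hP' (s • β)
    rwa [cf_image f hf hP', hs, smul_mul_smul_comm, h1, one_smul] at h2

end Pool.Agent.P.MP_824f38_ag.N
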