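import Pool.Agent.P.MP_824f38_ag.N.CNe
import Pool.Agent.P.MP_824f38_ag.N.CPrime
import Pool.Agent.P.MP_824f38_ag.N.DRP

/-! Row NEC-CNeSt: logarithmic forms and the filtration by m ^ a * radical m

tw_le_Ne: Chart.radical_le and smul_mem_Ne. Ne_le_tw: φ (y j) = z j ^ 2 gives d φ (y j) = 2 z j d (z j); a generator becomes (∏ y^c)^a times
(∏ (j ∈ J, j ∉ P) φ (y j)) (∏ (j ∈ P) z j) times a form, and this product lies in the radical of ∏ φ (y)^c. -/

set_option linter.unusedVariables false
set_option linter.unusedSectionVars false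
set_option linter.style.haveILetI false
set_option linter.dupNamespace false

namespace Pool.Agent.P.MP_824f38_ag.N

variable {A : Type} [CommRing A] [Algebra ℂ A] [Algebra.FiniteType ℂ A] {N : ℕ}
  {y : Fin N → A}

private theorem prod_filter_eq {B : Type} [CommRing B] (f : Fin N → B) (c : Fin N → ℕ) :
    ∏ i, f i ^ c i = ∏ i ∈ Finset.univ.filter (fun i => c i ≠ 0), f i ^ c i := by
  rw [Finset.prod_filter]
  refine Finset.prod_congr rfl fun i _ => ?_
  by_cases h : c i = 0
  · simp [h]
  · simp [h]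

private theorem list_smul_prod {B M ι : Type} [CommRing B] [Ring M] [Algebra B M] (s : ι → B)
    (w : ι → M) (L : List ι) :
    (L.map fun i => s i • w i).prod = (L.map s).prod • (L.map w).prod := by
  induction L with
  | nil => simp
  | cons i L ih =>
    simp only [List.map_cons, List.prod_cons, ih]
    rw [smul_mul_smul_comm]

private theorem mem_radical_prod {B ι : Type} [CommRing B] (J : Finset ι) (g : ι → B) (t : B)
    (h : ∀ j ∈ J, ∃ n : ℕ, g j ∣ t ^ n) : t ∈ (Ideal.span {∏ j ∈ J, g j}).radical := by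
  classical
  have key : ∃ n : ℕ, ∏ j ∈ J, g j ∣ t ^ n := by
    induction J using Finset.induction_on with
    | empty => exact ⟨0, by simp⟩
    | insert i J hi ih =>
      obtain ⟨n, hn⟩ := ih fun j hj => h j (Finset.mem_insert_of_mem hj)
      obtain ⟨m, hm⟩ := h i (Finset.mem_insert_self _ _)
      refine ⟨m + n, ?_⟩
      rw [Finset.prod_insert hi, pow_add]
      exact mul_dvd_mul hm hn
  obtain ⟨n, hn⟩ := key
  exact ⟨n, Ideal.mem_span_singleton.2 hn⟩

theorem tw_le_Ne (H : Chart y) (c : Fin N → ℕ) (a : ℕ) :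
    twI (Ideal.span {∏ i, y i ^ c i}) a • (⊤ : Submodule A (DR A)) ≤
      Ne y (Finset.univ.filter fun i => c i ≠ 0) fun i => a * c i + 1 := by
  refine Submodule.smul_le.2 fun x hx β _ => ?_
  have h1 : twI (Ideal.span {∏ i, y i ^ c i}) a ≤ Ideal.span {(∏ i, y i ^ c i) ^ a *
      ∏ i ∈ Finset.univ.filter (fun i => c i ≠ 0), y i} := by
    rw [twI, ← Ideal.span_singleton_mul_span_singleton, Ideal.span_singleton_pow]
    exact Ideal.mul_mono_right (H.radical_le c)
  obtain ⟨r, hr⟩ := Ideal.mem_span_singleton.1 (h1 hx)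
  have h2 : (∏ i, y i ^ c i) ^ a * ∏ i ∈ Finset.univ.filter (fun i => c i ≠ 0), y i =
      ∏ i ∈ Finset.univ.filter (fun i => c i ≠ 0), y i ^ (a * c i + 1) := by
    rw [prod_filter_eq, ← Finset.prod_pow, ← Finset.prod_mul_distrib]
    refine Finset.prod_congr rfl fun i _ => ?_
    ring
  rw [hr, h2, mul_smul]
  exact smul_mem_Ne _

theorem Ne_le_tw {B : Type} [CommRing B] [Algebra ℂ B] (φ : A →ₐ[ℂ] B) (c : Fin N → ℕ) (a : ℕ)
    (z : Fin N → B) (hz : ∀ i, z i ^ 2 = φ (y i)) {ω : DR A}
    (h : ω ∈ Ne y (Finset.univ.filter fun i => c i ≠ 0) fun i => a * c i + 1) :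
    pull φ ω ∈ twI (Ideal.span {φ (∏ i, y i ^ c i)}) a • (⊤ : Submodule B (DR B)) := by
  induction h using Submodule.span_induction with
  | zero => rw [map_zero]; exact zero_mem _
  | add x x' _ _ hx hx' => rw [map_add]; exact add_mem hx hx'
  | smul r x _ hx => rw [pull_smul]; exact Submodule.smul_mem _ _ hx
  | mem x hx =>
    obtain ⟨P, hP, β, rfl⟩ := hx
    have hd : ∀ i, dd (φ (y i)) = (2 * z i) • dd (z i) := fun i => by
      rw [← hz i, pow_two, dd_mul, two_mul, add_smul]
    have hm : pull φ (mono y P) = (∏ i ∈ P, 2 * z i) • mono z P := by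
      rw [mono, map_list_prod, List.map_map]
      have e : (⇑(pull φ) ∘ fun i => dd (y i)) = fun i => (2 * z i) • dd (z i) := by
        funext i
        simp only [Function.comp_apply, pull_dd, hd]
      rw [e, list_smul_prod, mono, ← Finset.prod_map_toList,
        ((Finset.sort_perm_toList P _).map _).prod_eq]
    rw [pull_smul, map_mul, hm, smul_mul_assoc, smul_smul]
    refine Submodule.smul_mem_smul ?_ trivial
    have hφ : φ (∏ i, y i ^ c i) =
        ∏ i ∈ Finset.univ.filter (fun i => c i ≠ 0), φ (y i) ^ c i := by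
      rw [prod_filter_eq, map_prod]
      simp only [map_pow]
    have hc : φ (∏ j ∈ Finset.univ.filter (fun i => c i ≠ 0),
        y j ^ (if j ∈ P then a * c j + 1 - 1 else a * c j + 1)) = φ (∏ i, y i ^ c i) ^ a *
          ∏ j ∈ Finset.univ.filter (fun i => c i ≠ 0), if j ∈ P then 1 else φ (y j) := by
      rw [hφ, map_prod, ← Finset.prod_pow, ← Finset.prod_mul_distrib]
      refine Finset.prod_congr rfl fun i _ => ?_
      by_cases hi : i ∈ P
      · simp only [hi, if_true, map_pow, Nat.add_sub_cancel]; ring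
      · simp only [hi, if_false, map_pow]; ring
    rw [hc, mul_assoc, twI]
    refine Ideal.mul_mem_mul (Ideal.pow_mem_pow (Ideal.mem_span_singleton_self _) a) ?_
    rw [hφ]
    refine mem_radical_prod _ _ _ fun j hj => ⟨2 * c j, ?_⟩
    rw [pow_mul]
    refine pow_dvd_pow_of_dvd ?_ _
    by_cases hi : j ∈ P
    · rw [← hz j]
      refine pow_dvd_pow_of_dvd (Dvd.dvd.mul_left ?_ _) 2
      exact (dvd_mul_left (z j) 2).trans (Finset.dvd_prod_of_mem (fun i => 2 * z i) hi)
    · refine Dvd.dvd.trans ?_ (dvd_pow_self _ two_ne_zero)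
      refine Dvd.dvd.mul_right ?_ _
      have := Finset.dvd_prod_of_mem (fun j => if j ∈ P then 1 else φ (y j)) hj
      simpa only [hi, if_false] using this

end Pool.Agent.P.MP_824f38_ag.N
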