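import Pool.Agent.P.MP_824f38_ag.N.CChart

/-! Row NEC-CRt: root covers

der_rt: a derivation D : A → B' with values in B' = Rt u M and t with M root^(M-1) t = D u extend to B' (lift through the ring map
A[X] → TrivSqZeroExt B' B', or AdjoinRoot.lift). Kummer: the dual of the root is the extension of M root^(M-1) E i with t = 1; E k extends with t = 0.
Unit case: root is a unit, t = D u / (M root^(M-1)). Ω of B' is spanned by d A and d root. rt_regular: X^M - C u is monic, so B' is free over A.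
rt_trans: y root and y' root have the same M-th power in a domain and X^M - a^M = ∏ (X - ζ a) over ℂ. -/

set_option linter.unusedVariables false
set_option linter.unusedSectionVars false
set_option linter.style.haveILetI false
set_option linter.dupNamespace false

namespace Pool.Agent.P.MP_824f38_ag.N

variable {A : Type} [CommRing A] [Algebra ℂ A] [Algebra.FiniteType ℂ A] {N : ℕ}
  {y : Fin N → A}

theorem ft_rt (u : A) (M : ℕ) : Algebra.FiniteType ℂ (Rt u M) := by
  infer_instance

theorem rt_pow (u : A) (M : ℕ) : (AdjoinRoot.root _ : Rt u M) ^ M = toRt u M u := by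
  have h := AdjoinRoot.eval₂_root (Polynomial.X ^ M - Polynomial.C u : Polynomial A)
  rw [Polynomial.eval₂_sub, Polynomial.eval₂_pow, Polynomial.eval₂_X, Polynomial.eval₂_C,
    sub_eq_zero] at h
  exact h

theorem rt_regular (u : A) {M : ℕ} (hM : 0 < M) {a : A} (ha : a ∈ nonZeroDivisors A) :
    toRt u M a ∈ nonZeroDivisors (Rt u M) := by
  have hm : (Polynomial.X ^ M - Polynomial.C u : Polynomial A).Monic :=
    Polynomial.monic_X_pow_sub_C u hM.ne'
  have b := AdjoinRoot.powerBasisAux' hm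
  rw [mem_nonZeroDivisors_iff_left]
  intro x hx
  have hx' : a • x = 0 := by rw [Algebra.smul_def]; exact hx
  apply b.repr.injective
  ext k
  have := congrArg (fun z => b.repr z k) hx'
  simp only [map_smul, Finsupp.smul_apply, smul_eq_mul, map_zero, Finsupp.coe_zero,
    Pi.zero_apply] at this ⊢
  exact (mem_nonZeroDivisors_iff_left.1 ha) _ this

theorem rt_lift {B : Type} [CommRing B] [Algebra ℂ B] (φ : A →ₐ[ℂ] B) {u : A} {M : ℕ} {z : B}
    (h : z ^ M = φ u) : ∃ ψ : Rt u M →ₐ[ℂ] B, ψ.comp (toRt u M) = φ ∧ ψ (AdjoinRoot.root _) = z := by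
  have h0 : (Polynomial.X ^ M - Polynomial.C u : Polynomial A).eval₂ φ z = 0 := by
    rw [Polynomial.eval₂_sub, Polynomial.eval₂_pow, Polynomial.eval₂_X, Polynomial.eval₂_C,
      sub_eq_zero]
    exact h
  refine ⟨AdjoinRoot.liftAlgHom _ φ z h0, ?_, AdjoinRoot.liftAlgHom_root _ φ z h0⟩
  ext a
  exact AdjoinRoot.liftAlgHom_of _ φ z h0 a

theorem rt_ext {B : Type} [CommRing B] [Algebra ℂ B] {u : A} {M : ℕ} {ψ ψ' : Rt u M →ₐ[ℂ] B}
    (h : ψ.comp (toRt u M) = ψ'.comp (toRt u M))
    (h' : ψ (AdjoinRoot.root _) = ψ' (AdjoinRoot.root _)) : ψ = ψ' := by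
  refine AdjoinRoot.algHom_ext' ?_ h'
  ext a
  exact DFunLike.congr_fun h a

/-- the first order deformation of the structure map along a multiple of a derivation -/
private noncomputable def rtJet (u : A) (M : ℕ) (D : Derivation ℂ A A) (s : Rt u M) :
    A →ₐ[ℂ] TrivSqZeroExt (Rt u M) (Rt u M) where
  toFun a := TrivSqZeroExt.inl (toRt u M a) + TrivSqZeroExt.inr (s * toRt u M (D a))
  map_one' := by
    refine TrivSqZeroExt.ext ?_ ?_ <;> simp
  map_mul' a b := by
    refine TrivSqZeroExt.ext ?_ ?_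
    · simp
    · simp
      ring
  map_zero' := by
    refine TrivSqZeroExt.ext ?_ ?_ <;> simp
  map_add' a b := by
    refine TrivSqZeroExt.ext ?_ ?_
    · simp
    · simp
      ring
  commutes' c := by
    refine TrivSqZeroExt.ext ?_ ?_
    · simp [TrivSqZeroExt.algebraMap_eq_inl']
    · simp [TrivSqZeroExt.algebraMap_eq_inl']

private theorem der_rt (u : A) (M : ℕ) (D : Derivation ℂ A A) (s t : Rt u M)
    (h : (M : Rt u M) * AdjoinRoot.root _ ^ (M - 1) * t = s * toRt u M (D u)) :
    ∃ D' : Derivation ℂ (Rt u M) (Rt u M), (∀ a, D' (toRt u M a) = s * toRt u M (D a)) ∧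
      D' (AdjoinRoot.root _) = t := by
  have hz : (TrivSqZeroExt.inl (AdjoinRoot.root _) + TrivSqZeroExt.inr t :
      TrivSqZeroExt (Rt u M) (Rt u M)) ^ M = rtJet u M D s u := by
    refine TrivSqZeroExt.ext ?_ ?_
    · rw [TrivSqZeroExt.fst_pow]
      simp [rtJet, rt_pow]
    · rw [TrivSqZeroExt.snd_pow]
      simp only [rtJet, AlgHom.coe_mk, RingHom.coe_mk, MonoidHom.coe_mk, OneHom.coe_mk,
        TrivSqZeroExt.fst_add, TrivSqZeroExt.fst_inl, TrivSqZeroExt.fst_inr, add_zero,
        TrivSqZeroExt.snd_add, TrivSqZeroExt.snd_inl, TrivSqZeroExt.snd_inr, zero_add,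
        smul_eq_mul, nsmul_eq_mul, Nat.pred_eq_sub_one]
      rw [← h]
      ring
  obtain ⟨ψ, h1, h2⟩ := rt_lift (rtJet u M D s) hz
  have h1' : ∀ a, ψ (toRt u M a) = rtJet u M D s a := fun a => DFunLike.congr_fun h1 a
  have hf : (TrivSqZeroExt.fstHom ℂ (Rt u M) (Rt u M)).comp ψ = AlgHom.id ℂ _ := by
    apply rt_ext
    · ext a
      change (ψ (toRt u M a)).fst = toRt u M a
      rw [h1']
      simp [rtJet]
    · change (ψ (AdjoinRoot.root _)).fst = AdjoinRoot.root _
      rw [h2]
      simp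
  have hf' : ∀ b, (ψ b).fst = b := fun b => DFunLike.congr_fun hf b
  refine ⟨Derivation.mk' ((TrivSqZeroExt.sndHom (Rt u M) (Rt u M)).restrictScalars ℂ ∘ₗ
    ψ.toLinearMap) ?_, ?_, ?_⟩
  · intro a b
    change (ψ (a * b)).snd = a • (ψ b).snd + b • (ψ a).snd
    rw [map_mul, TrivSqZeroExt.snd_mul, hf', hf']
    simp [mul_comm]
  · intro a
    change (ψ (toRt u M a)).snd = _
    rw [h1']
    simp [rtJet]
  · change (ψ (AdjoinRoot.root _)).snd = _
    rw [h2]
    simp

/-- the differentials of the cover are spanned by those of the base and of the root -/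
private theorem span_rt (H : Chart y) (u : A) (M : ℕ) (S : Submodule (Rt u M) Ω[Rt u M⁄ℂ])
    (h1 : ∀ k, KaehlerDifferential.D ℂ (Rt u M) (toRt u M (y k)) ∈ S)
    (h2 : (∀ a, KaehlerDifferential.D ℂ (Rt u M) (toRt u M a) ∈ S) →
      KaehlerDifferential.D ℂ (Rt u M) (AdjoinRoot.root _) ∈ S) : S = ⊤ := by
  have h3 : ∀ ω : Ω[A⁄ℂ], KaehlerDifferential.map ℂ ℂ A (Rt u M) ω ∈ S := by
    intro ω
    have hω : ω ∈ Submodule.span A (Set.range fun i => KaehlerDifferential.D ℂ A (y i)) := by
      rw [H.span]; trivial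
    induction hω using Submodule.span_induction with
    | mem x hx =>
      obtain ⟨k, rfl⟩ := hx
      rw [KaehlerDifferential.map_D]
      exact h1 k
    | zero => rw [map_zero]; exact S.zero_mem
    | add x z _ _ hx hz => rw [map_add]; exact S.add_mem hx hz
    | smul a x _ hx =>
      rw [map_smul, ← algebraMap_smul (Rt u M) a]
      exact S.smul_mem _ hx
  have h4 : ∀ a, KaehlerDifferential.D ℂ (Rt u M) (toRt u M a) ∈ S := by
    intro a
    have := h3 (KaehlerDifferential.D ℂ A a)
    rwa [KaehlerDifferential.map_D] at this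
  have h5 := h2 h4
  have h6 : ∀ b, KaehlerDifferential.D ℂ (Rt u M) b ∈ S := by
    intro b
    induction b using AdjoinRoot.induction_on with
    | ih p =>
      induction p using Polynomial.induction_on with
      | C a => exact h4 a
      | add p q hp hq => rw [map_add, map_add]; exact S.add_mem hp hq
      | monomial n a ih =>
        rw [pow_succ, ← mul_assoc, map_mul, Derivation.leibniz]
        exact S.add_mem (S.smul_mem _ h5) (S.smul_mem _ ih)
  rw [eq_top_iff, ← KaehlerDifferential.span_range_derivation, Submodule.span_le]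
  rintro _ ⟨b, rfl⟩
  exact h6 b

private theorem d_rt_pow (u : A) (M : ℕ) :
    KaehlerDifferential.D ℂ (Rt u M) (toRt u M u) =
      ((M : Rt u M) * AdjoinRoot.root _ ^ (M - 1)) •
        KaehlerDifferential.D ℂ (Rt u M) (AdjoinRoot.root _) := by
  rw [← rt_pow, Derivation.leibniz_pow, mul_smul, Nat.cast_smul_eq_nsmul]

theorem chart_kummer (H : Chart y) (i : Fin N) {M : ℕ} (hM : 0 < M) :
    Chart (Function.update (fun k => toRt (y i) M (y k)) i (AdjoinRoot.root _)) := by
  obtain ⟨E, hE⟩ := H.dual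
  constructor
  · have key : ∀ k, ∃ D' : Derivation ℂ (Rt (y i) M) (Rt (y i) M), ∀ j,
        D' (Function.update (fun k => toRt (y i) M (y k)) i (AdjoinRoot.root _) j) =
          if k = j then 1 else 0 := by
      intro k
      by_cases hk : k = i
      · subst hk
        obtain ⟨D', h1, h2⟩ := der_rt (y k) M (E k)
          ((M : Rt (y k) M) * AdjoinRoot.root _ ^ (M - 1)) 1 (by rw [hE, if_pos rfl, map_one])
        refine ⟨D', fun j => ?_⟩
        by_cases hj : j = k
        · subst hj
          rw [Function.update_self, h2, if_pos rfl]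
        · rw [Function.update_of_ne hj, h1, hE, if_neg (Ne.symm hj), if_neg (Ne.symm hj),
            map_zero, mul_zero]
      · obtain ⟨D', h1, h2⟩ := der_rt (y i) M (E k) 1 0
          (by rw [hE, if_neg hk, map_zero, mul_zero, mul_zero])
        refine ⟨D', fun j => ?_⟩
        by_cases hj : j = i
        · subst hj
          rw [Function.update_self, h2, if_neg hk]
        · rw [Function.update_of_ne hj, h1, hE, one_mul]
          split_ifs
          · exact map_one _
          · exact map_zero _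
    choose E' hE' using key
    exact ⟨E', hE'⟩
  · have hr : KaehlerDifferential.D ℂ (Rt (y i) M) (AdjoinRoot.root _) ∈
        Submodule.span (Rt (y i) M) (Set.range fun j => KaehlerDifferential.D ℂ (Rt (y i) M)
          (Function.update (fun k => toRt (y i) M (y k)) i (AdjoinRoot.root _) j)) :=
      Submodule.subset_span ⟨i, by simp only [Function.update_self]⟩
    refine span_rt H (y i) M _ (fun k => ?_) (fun _ => hr)
    by_cases hk : k = i
    · subst hk
      rw [d_rt_pow]
      exact Submodule.smul_mem _ _ hr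
    · exact Submodule.subset_span ⟨k, by simp only [Function.update_of_ne hk]⟩

theorem chart_unit_root (H : Chart y) {u : A} (hu : IsUnit u) {M : ℕ} (hM : 0 < M) :
    Chart fun k => toRt u M (y k) := by
  obtain ⟨E, hE⟩ := H.dual
  have hr : IsUnit (AdjoinRoot.root _ : Rt u M) := by
    have := hu.map (toRt u M)
    rw [← rt_pow] at this
    exact (isUnit_pow_iff hM.ne').1 this
  have hM' : IsUnit (M : Rt u M) := by
    have : IsUnit (M : ℂ) := isUnit_iff_ne_zero.2 (Nat.cast_ne_zero.2 hM.ne')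
    have := this.map (algebraMap ℂ (Rt u M))
    rwa [map_natCast] at this
  obtain ⟨v, hv⟩ := (hM'.mul (hr.pow (M - 1))).exists_left_inv
  constructor
  · have key : ∀ k, ∃ D' : Derivation ℂ (Rt u M) (Rt u M), ∀ j,
        D' (toRt u M (y j)) = if k = j then 1 else 0 := by
      intro k
      obtain ⟨D', h1, h2⟩ := der_rt u M (E k) 1 (v * toRt u M (E k u))
        (by rw [← mul_assoc, mul_comm _ v, hv])
      refine ⟨D', fun j => ?_⟩
      rw [h1, hE, one_mul]
      split_ifs
      · exact map_one _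
      · exact map_zero _
    choose E' hE' using key
    exact ⟨E', hE'⟩
  · refine span_rt H u M _ (fun k => Submodule.subset_span ⟨k, rfl⟩) (fun h => ?_)
    have := Submodule.smul_mem _ v (h u)
    rwa [d_rt_pow, smul_smul, hv, one_smul] at this

theorem exists_rt_act (u : A) (M : ℕ) : ∃ ρ : rootsOfUnity M ℂ →* (Rt u M →ₐ[ℂ] Rt u M),
    ∀ ζ, (ρ ζ).comp (toRt u M) = toRt u M ∧
      ρ ζ (AdjoinRoot.root _) = ((ζ : ℂˣ) : ℂ) • AdjoinRoot.root _ := by
  have key : ∀ ζ : rootsOfUnity M ℂ, ∃ ψ : Rt u M →ₐ[ℂ] Rt u M, ψ.comp (toRt u M) = toRt u M ∧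
      ψ (AdjoinRoot.root _) = ((ζ : ℂˣ) : ℂ) • AdjoinRoot.root _ := by
    intro ζ
    apply rt_lift
    have hζ : ((ζ : ℂˣ) : ℂ) ^ M = 1 := by
      have := (mem_rootsOfUnity M (ζ : ℂˣ)).1 ζ.2
      rw [← Units.val_pow_eq_pow_val, this, Units.val_one]
    rw [smul_pow, hζ, one_smul, rt_pow]
  choose f hf1 hf2 using key
  refine ⟨⟨⟨f, ?_⟩, fun ζ ξ => ?_⟩, fun ζ => ⟨hf1 ζ, hf2 ζ⟩⟩
  · apply rt_ext
    · rw [hf1]; rfl
    · rw [hf2]; simp
  · apply rt_ext
    · change (f (ζ * ξ)).comp (toRt u M) = ((f ζ).comp (f ξ)).comp (toRt u M)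
      rw [AlgHom.comp_assoc, hf1, hf1, hf1]
    · change f (ζ * ξ) _ = f ζ (f ξ _)
      rw [hf2, hf2, map_smul, hf2, smul_smul]
      simp [mul_comm]

theorem exists_root_of_unity {V : Type} [CommRing V] [IsDomain V] [Algebra ℂ V] {M : ℕ}
    (hM : 0 < M) {a b : V} (h : a ^ M = b ^ M) :
    ∃ ζ : rootsOfUnity M ℂ, b = ((ζ : ℂˣ) : ℂ) • a := by
  have hζ := Complex.isPrimitiveRoot_exp M hM.ne'
  have hζ' := hζ.map_of_injective (algebraMap ℂ V).injective
  have hp := X_pow_sub_C_eq_prod hζ' (α := a) (a := a ^ M) hM rfl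
  have he := congrArg (Polynomial.eval b) hp
  rw [Polynomial.eval_sub, Polynomial.eval_pow, Polynomial.eval_X, Polynomial.eval_C, h, sub_self,
    Polynomial.eval_prod] at he
  obtain ⟨k, -, hk⟩ := Finset.prod_eq_zero_iff.1 he.symm
  rw [Polynomial.eval_sub, Polynomial.eval_X, Polynomial.eval_C, sub_eq_zero] at hk
  haveI : NeZero M := ⟨hM.ne'⟩
  refine ⟨hζ.toRootsOfUnity ^ k, ?_⟩
  rw [hk, Algebra.smul_def]
  simp

end Pool.Agent.P.MP_824f38_ag.N
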