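import Pool.Agent.P.MP_824f38_ag.N.CRt

/-! Invariant forms on a root cover. -/

set_option linter.unusedVariables false
set_option linter.unusedSectionVars false
set_option linter.style.haveILetI false
set_option linter.dupNamespace false

namespace Pool.Agent.P.MP_824f38_ag.N

variable {A : Type} [CommRing A] [Algebra ℂ A] [Algebra.FiniteType ℂ A] {N : ℕ}
  {y : Fin N → A}

theorem crti_dd_pow (a : A) (n : ℕ) : dd (a ^ (n + 1)) = ((n + 1 : ℕ) : ℂ) • a ^ n • dd a := by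
  induction n with
  | zero => simp
  | succ n ih =>
    rw [pow_succ, dd_mul, ih, smul_comm a, smul_smul a, ← pow_succ', Nat.cast_succ (n + 1),
      add_smul _ (1 : ℂ), one_smul, add_comm]

/-- the sums of the forms `T ^ i * β` and `T ^ i * d T * β` -/
noncomputable def crtiS (u : A) (M : ℕ) : AddSubmonoid (DR (Rt u M)) :=
  AddSubmonoid.closure {ω | ∃ (i : ℕ) (β : DR A),
    ω = (AdjoinRoot.root _ : Rt u M) ^ i • pull (toRt u M) β ∨
    ω = (AdjoinRoot.root _ : Rt u M) ^ i • (dd (AdjoinRoot.root _ : Rt u M) * pull (toRt u M) β)}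

theorem crti_mul (u : A) (M : ℕ) (x : DR (Rt u M))
    (h1 : ∀ (i : ℕ) (β : DR A),
      x * ((AdjoinRoot.root _ : Rt u M) ^ i • pull (toRt u M) β) ∈ crtiS u M)
    (h2 : ∀ (i : ℕ) (β : DR A), x * ((AdjoinRoot.root _ : Rt u M) ^ i •
      (dd (AdjoinRoot.root _ : Rt u M) * pull (toRt u M) β)) ∈ crtiS u M) :
    ∀ ω ∈ crtiS u M, x * ω ∈ crtiS u M := by
  intro ω hω
  induction hω using AddSubmonoid.closure_induction with
  | mem ω h =>
    obtain ⟨i, β, rfl | rfl⟩ := h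
    exacts [h1 i β, h2 i β]
  | zero => rw [mul_zero]; exact zero_mem _
  | add a b _ _ ha hb => rw [mul_add]; exact add_mem ha hb

theorem crti_gen (u : A) (M : ℕ) (a : Rt u M) :
    (∀ ω ∈ crtiS u M, algebraMap _ (DR (Rt u M)) a * ω ∈ crtiS u M) ∧
      ∀ ω ∈ crtiS u M, dd a * ω ∈ crtiS u M := by
  have m1 : ∀ (i : ℕ) (β : DR A),
      (AdjoinRoot.root _ : Rt u M) ^ i • pull (toRt u M) β ∈ crtiS u M :=
    fun i β => AddSubmonoid.subset_closure ⟨i, β, Or.inl rfl⟩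
  have m2 : ∀ (i : ℕ) (β : DR A), (AdjoinRoot.root _ : Rt u M) ^ i •
      (dd (AdjoinRoot.root _ : Rt u M) * pull (toRt u M) β) ∈ crtiS u M :=
    fun i β => AddSubmonoid.subset_closure ⟨i, β, Or.inr rfl⟩
  have ha : a ∈ Algebra.adjoin A {(AdjoinRoot.root _ : Rt u M)} := by
    rw [AdjoinRoot.adjoinRoot_eq_top]; trivial
  induction ha using Algebra.adjoin_induction with
  | mem t ht =>
    rw [Set.mem_singleton_iff.1 ht]
    refine ⟨crti_mul u M _ (fun i β => ?_) fun i β => ?_,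
      crti_mul u M _ (fun i β => ?_) fun i β => ?_⟩
    · rw [← Algebra.smul_def, smul_smul, ← pow_succ']; exact m1 _ _
    · rw [← Algebra.smul_def, smul_smul, ← pow_succ']; exact m2 _ _
    · rw [mul_smul_comm]; exact m2 _ _
    · rw [mul_smul_comm, ← mul_assoc, dd_sq, zero_mul, smul_zero]; exact zero_mem _
  | algebraMap c =>
    change (∀ ω ∈ crtiS u M, algebraMap _ (DR (Rt u M)) (toRt u M c) * ω ∈ crtiS u M) ∧
      ∀ ω ∈ crtiS u M, dd (toRt u M c) * ω ∈ crtiS u M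
    refine ⟨crti_mul u M _ (fun i β => ?_) fun i β => ?_,
      crti_mul u M _ (fun i β => ?_) fun i β => ?_⟩
    · rw [← Algebra.smul_def, smul_comm, ← pull_smul]; exact m1 _ _
    · rw [← Algebra.smul_def, smul_comm, ← mul_smul_comm, ← pull_smul]; exact m2 _ _
    · rw [mul_smul_comm, ← pull_dd, ← map_mul]; exact m1 _ _
    · rw [mul_smul_comm, ← mul_assoc, dd_swap, neg_mul, mul_assoc, ← mul_neg, ← pull_dd,
        ← map_mul, ← map_neg]
      exact m2 _ _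
  | add a b _ _ ha hb =>
    refine ⟨fun ω h => ?_, fun ω h => ?_⟩
    · rw [map_add, add_mul]; exact add_mem (ha.1 ω h) (hb.1 ω h)
    · rw [dd_add, add_mul]; exact add_mem (ha.2 ω h) (hb.2 ω h)
  | mul a b _ _ ha hb =>
    refine ⟨fun ω h => ?_, fun ω h => ?_⟩
    · rw [map_mul, mul_assoc]; exact ha.1 _ (hb.1 ω h)
    · rw [dd_mul, add_mul, smul_mul_assoc, smul_mul_assoc, Algebra.smul_def, Algebra.smul_def]
      exact add_mem (ha.1 _ (hb.2 ω h)) (hb.1 _ (ha.2 ω h))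

theorem crti_mem (u : A) (M : ℕ) (ω : DR (Rt u M)) : ω ∈ crtiS u M := by
  have key : ∀ x : DR (Rt u M), ∀ ω ∈ crtiS u M, x * ω ∈ crtiS u M := fun x => by
    induction x using dr_induction with
    | h0 a => exact (crti_gen u M a).1
    | h1 a => exact (crti_gen u M a).2
    | hadd a b ha hb => exact fun ω h => by rw [add_mul]; exact add_mem (ha ω h) (hb ω h)
    | hmul a b ha hb => exact fun ω h => by rw [mul_assoc]; exact ha _ (hb ω h)
  have h := key ω 1 (AddSubmonoid.subset_closure ⟨0, 1, Or.inl (by rw [pow_zero, map_one, one_smul])⟩)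
  rwa [mul_one] at h

theorem crti_sum {M : ℕ} [NeZero M] [Fintype (rootsOfUnity M ℂ)] {n : ℕ} (h : ¬ M ∣ n) :
    ∑ ζ : rootsOfUnity M ℂ, ((ζ : ℂˣ) : ℂ) ^ n = 0 := by
  have hp := Complex.isPrimitiveRoot_exp M (NeZero.ne M)
  refine sum_hom_units_eq_zero ((powMonoidHom n).comp
    ((Units.coeHom ℂ).comp (rootsOfUnity M ℂ).subtype)) fun e => h ?_
  exact (hp.pow_eq_one_iff_dvd n).1 (DFunLike.congr_fun e hp.toRootsOfUnity)

theorem rt_inv (u : A) {M : ℕ} (hM : 0 < M) (ρ : rootsOfUnity M ℂ →* (Rt u M →ₐ[ℂ] Rt u M))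
    (hρ : ∀ ζ, (ρ ζ).comp (toRt u M) = toRt u M ∧
      ρ ζ (AdjoinRoot.root _) = ((ζ : ℂˣ) : ℂ) • AdjoinRoot.root _) {ω : DR (Rt u M)}
    (h : ∀ ζ, pull (ρ ζ) ω = ω) : ∃ β : DR A, pull (toRt u M) β = ω := by
  haveI : NeZero M := ⟨hM.ne'⟩
  haveI := Fintype.ofFinite (rootsOfUnity M ℂ)
  have av : ∀ (ω : DR (Rt u M)) (n : ℕ), (∀ ζ, pull (ρ ζ) ω = ((ζ : ℂˣ) : ℂ) ^ n • ω) →
      (M ∣ n → ∃ β, pull (toRt u M) β = ω) → ∃ β, pull (toRt u M) β = ∑ ζ, pull (ρ ζ) ω := by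
    intro ω n h1 h2
    rw [Finset.sum_congr rfl fun ζ _ => h1 ζ, ← Finset.sum_smul]
    by_cases hn : M ∣ n
    · obtain ⟨β, rfl⟩ := h2 hn
      exact ⟨_, pull_csmul _ _ _⟩
    · exact ⟨0, by rw [crti_sum hn, zero_smul, map_zero]⟩
  have key : ∀ ω ∈ crtiS u M, ∃ β, pull (toRt u M) β = ∑ ζ, pull (ρ ζ) ω := by
    intro ω hω
    induction hω using AddSubmonoid.closure_induction with
    | mem ω h =>
      obtain ⟨i, β, rfl | rfl⟩ := h
      · refine av _ i (fun ζ => ?_) ?_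
        · rw [pull_smul, pull_pull, (hρ ζ).1, map_pow, (hρ ζ).2, smul_pow, smul_assoc]
        · rintro ⟨k, rfl⟩
          exact ⟨u ^ k • β, by rw [pull_smul, pow_mul, rt_pow, map_pow]⟩
      · refine av _ (i + 1) (fun ζ => ?_) ?_
        · rw [pull_smul, map_mul, pull_pull, (hρ ζ).1, pull_dd, map_pow, (hρ ζ).2, smul_pow,
            smul_assoc, dd_csmul, smul_mul_assoc, smul_comm _ ((ζ : ℂˣ) : ℂ), smul_smul,
            ← pow_succ]
        · rintro ⟨k, hk⟩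
          refine ⟨((i + 1 : ℕ) : ℂ)⁻¹ • (dd (u ^ k) * β), ?_⟩
          rw [pull_csmul, map_mul, pull_dd, map_pow, ← rt_pow, ← pow_mul, ← hk, crti_dd_pow,
            smul_mul_assoc, smul_smul, inv_mul_cancel₀ (Nat.cast_ne_zero.2 i.succ_ne_zero),
            one_smul, smul_mul_assoc]
    | zero => exact ⟨0, by simp⟩
    | add a b _ _ ha hb =>
      obtain ⟨β, e⟩ := ha
      obtain ⟨β', e'⟩ := hb
      exact ⟨β + β', by simp only [map_add, e, e', Finset.sum_add_distrib]⟩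
  obtain ⟨β, e⟩ := key ω (crti_mem u M ω)
  refine ⟨(Fintype.card (rootsOfUnity M ℂ) : ℂ)⁻¹ • β, ?_⟩
  rw [pull_csmul, e, Finset.sum_congr rfl fun ζ _ => h ζ, Finset.sum_const, Finset.card_univ,
    ← Nat.cast_smul_eq_nsmul ℂ, smul_smul,
    inv_mul_cancel₀ (Nat.cast_ne_zero.2 Fintype.card_ne_zero), one_smul]

end Pool.Agent.P.MP_824f38_ag.N
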