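import Pool.Agent.P.MP_824f38_ag.N.CBch
import Pool.Agent.P.MP_824f38_ag.N.CKill

/-! Row NEC-CSum: forms on the overlap of the two charts of a blow-up

Let U = Localization.Away t, t = bchT a b, s = bchT b a (g2 s = 1 / t). DR U is additively spanned by the t^k pull β and t^k dt pull β, k in ℤ, β in DR A
(closed under products; use bch_induction and dr_loc_surj or a direct induction). So Kil (a) is spanned by these times a or d a. For k ≥ 0 the terms come from chart 1. For k < 0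
use a = b s, dt = - s^(-2) ds: a t^k = b s^(1-k), a t^k dt = - b s^(-1-k) ds, t^k da = s^(-k) (b ds + s db), t^k da dt = - s^(-1-k) db ds. -/

set_option linter.unusedVariables false
set_option linter.unusedSectionVars false
set_option linter.style.haveILetI false
set_option linter.dupNamespace false

namespace Pool.Agent.P.MP_824f38_ag.N

namespace RSum

variable {A B B' U : Type} [CommRing A] [Algebra ℂ A] [CommRing B] [Algebra ℂ B]
  [CommRing B'] [Algebra ℂ B'] [CommRing U] [Algebra ℂ U]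

/-- `M` is stable under multiplication by `u` and by `d u` -/
def Good (M : AddSubgroup (DR B)) (u : B) : Prop := ∀ m ∈ M, u • m ∈ M ∧ dd u * m ∈ M

theorem Good.add {M : AddSubgroup (DR B)} {u v : B} (hu : Good M u) (hv : Good M v) :
    Good M (u + v) := fun m hm => by
  rw [add_smul, dd_add, add_mul]
  exact ⟨add_mem (hu m hm).1 (hv m hm).1, add_mem (hu m hm).2 (hv m hm).2⟩

theorem Good.mul {M : AddSubgroup (DR B)} {u v : B} (hu : Good M u) (hv : Good M v) :
    Good M (u * v) := fun m hm => by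
  rw [mul_smul, dd_mul, add_mul, smul_mul_assoc, smul_mul_assoc]
  exact ⟨(hu _ (hv m hm).1).1, add_mem (hu _ (hv m hm).2).1 (hv _ (hu m hm).2).1⟩

theorem mem_of_good {M : AddSubgroup (DR B)} (h1 : 1 ∈ M) (H : ∀ u, Good M u) (ω : DR B) :
    ω ∈ M := by
  have key : ∀ m ∈ M, ω * m ∈ M := by
    induction ω using dr_induction with
    | h0 a => intro m hm; rw [← Algebra.smul_def]; exact (H a m hm).1
    | h1 a => exact fun m hm => (H a m hm).2
    | hadd x y hx hy => intro m hm; rw [add_mul]; exact add_mem (hx m hm) (hy m hm)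
    | hmul x y hx hy => intro m hm; rw [mul_assoc]; exact hx _ (hy m hm)
  simpa using key 1 h1

theorem good_pull (φ : A →ₐ[ℂ] B) {M : AddSubgroup (DR B)}
    (h : ∀ γ, ∀ m ∈ M, pull φ γ * m ∈ M) (x : A) : Good M (φ x) := fun m hm => by
  refine ⟨?_, ?_⟩
  · rw [Algebra.smul_def, ← pull_algebraMap]; exact h _ m hm
  · rw [← pull_dd]; exact h _ m hm

theorem dd_comm (t : B) (x : DR B) : dd t * x = V.inv x * dd t := V.dk_mul_comm t x

theorem dd_mul_dd (t : B) (x : DR B) : dd t * (x * dd t) = 0 := by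
  rw [← mul_assoc, dd_comm, mul_assoc, dd_sq, mul_zero]

theorem dd_pull (φ : A →ₐ[ℂ] B) (t : B) (β : DR A) :
    dd t * pull φ β = pull φ (V.inv β) * dd t := by
  rw [dd_comm, V.pull_eq_pullk, V.pullk_inv]

theorem dd_inv {σ τ : B} (h : σ * τ = 1) : dd σ = -(σ • σ • dd τ) := by
  have h1 : σ • dd τ + τ • dd σ = 0 := by
    rw [← dd_mul, h, ← map_one (algebraMap ℂ B), dd_algebraMap]
  rw [eq_neg_of_add_eq_zero_left h1, smul_neg, neg_neg, smul_smul, h, one_smul]

/-- `B` is generated by the image of `c` and by `t` -/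
def Gen (c : A →ₐ[ℂ] B) (t : B) : Prop :=
  ∀ P : B → Prop, (∀ x, P (c x)) → P t → (∀ x z, P x → P z → P (x + z)) →
    (∀ x z, P x → P z → P (x * z)) → ∀ x, P x

/-- the forms `β0 + β1 dt + t ω` -/
def NN (c : A →ₐ[ℂ] B) (t : B) : AddSubgroup (DR B) where
  carrier := {ω | ∃ β0 β1 ω', ω = pull c β0 + pull c β1 * dd t + t • ω'}
  add_mem' := by
    rintro _ _ ⟨β0, β1, x, rfl⟩ ⟨γ0, γ1, y, rfl⟩
    exact ⟨β0 + γ0, β1 + γ1, x + y, by rw [map_add, map_add, add_mul, smul_add]; abel⟩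
  zero_mem' := ⟨0, 0, 0, by simp⟩
  neg_mem' := by
    rintro _ ⟨β0, β1, x, rfl⟩
    exact ⟨-β0, -β1, -x, by rw [map_neg, map_neg, neg_mul, smul_neg]; abel⟩

theorem decomp {c : A →ₐ[ℂ] B} {t : B} (H : Gen c t) (ω : DR B) :
    ∃ β0 β1 ω', ω = pull c β0 + pull c β1 * dd t + t • ω' := by
  refine mem_of_good (M := NN c t) ⟨1, 0, 0, by simp⟩
    (H _ (good_pull c ?_) ?_ (fun _ _ => Good.add) (fun _ _ => Good.mul)) ω
  · rintro γ _ ⟨β0, β1, x, rfl⟩
    exact ⟨γ * β0, γ * β1, pull c γ * x, by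
      rw [map_mul, map_mul, mul_add, mul_add, mul_assoc, mul_smul_comm]⟩
  · intro m hm
    refine ⟨⟨0, 0, m, by simp⟩, ?_⟩
    obtain ⟨β0, β1, x, rfl⟩ := hm
    exact ⟨0, V.inv β0, dd t * x, by
      rw [mul_add, mul_add, dd_mul_dd, dd_pull, mul_smul_comm, map_zero, add_zero, zero_add]⟩

/-- the forms from the two charts and the logarithmic forms -/
def MM (g : B →ₐ[ℂ] U) (g' : B' →ₐ[ℂ] U) (φ : A →ₐ[ℂ] U) (σ τ : U) : AddSubgroup (DR U) where
  carrier := {ω | ∃ x y β, ω = pull g x + pull g' y + σ • (pull φ β * dd τ)}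
  add_mem' := by
    rintro _ _ ⟨x, y, β, rfl⟩ ⟨x', y', β', rfl⟩
    exact ⟨x + x', y + y', β + β', by rw [map_add, map_add, map_add, add_mul, smul_add]; abel⟩
  zero_mem' := ⟨0, 0, 0, by simp⟩
  neg_mem' := by
    rintro _ ⟨x, y, β, rfl⟩
    exact ⟨-x, -y, -β, by rw [map_neg, map_neg, map_neg, neg_mul, smul_neg]; abel⟩

theorem span_U {c : A →ₐ[ℂ] B} {t : B} (H : Gen c t) {c' : A →ₐ[ℂ] B'} {s : B'} (H' : Gen c' s)
    (g : B →ₐ[ℂ] U) (g' : B' →ₐ[ℂ] U) (e : g'.comp c' = g.comp c) (e' : g' s * g t = 1)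
    (hU : ∀ u, ∃ (z : B) (n : ℕ), u = g z * g' s ^ n) (ω : DR U) :
    ∃ x y β, ω = pull g x + pull g' y + g' s • (pull (g.comp c) β * dd (g t)) := by
  set M := MM g g' (g.comp c) (g' s) (g t) with hM
  have e'' : g t * g' s = 1 := by rw [mul_comm, e']
  have m1 : ∀ x, pull g x ∈ M := fun x => ⟨x, 0, 0, by simp⟩
  have m2 : ∀ y, pull g' y ∈ M := fun y => ⟨0, y, 0, by simp⟩
  have m3 : ∀ β, g' s • (pull (g.comp c) β * dd (g t)) ∈ M := fun β => ⟨0, 0, β, by simp⟩
  have p1 : ∀ β, pull g (pull c β) = pull (g.comp c) β := fun β => pull_pull _ _ _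
  have p2 : ∀ β, pull g' (pull c' β) = pull (g.comp c) β := fun β => by rw [pull_pull, e]
  have ds := dd_inv e'
  have dt := dd_inv e''
  have hs : ∀ m ∈ M, g' s • m ∈ M := by
    rintro _ ⟨x, y, β, rfl⟩
    rw [smul_add, smul_add]
    refine add_mem (add_mem ?_ ?_) ?_
    · obtain ⟨β0, β1, x', rfl⟩ := decomp H x
      rw [map_add, map_add, map_mul, pull_smul, p1, p1, pull_dd, smul_add, smul_add, smul_smul,
        e', one_smul]
      refine add_mem (add_mem ?_ (m3 _)) (m1 _)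
      rw [← p2, ← pull_smul]; exact m2 _
    · rw [← pull_smul]; exact m2 _
    · rw [← mul_smul_comm, ← mul_smul_comm, ← neg_neg (g' s • g' s • dd (g t)), ← ds, mul_neg,
        ← p2, ← pull_dd, ← map_mul]
      exact neg_mem (m2 _)
  have ht : ∀ m ∈ M, g t • m ∈ M := by
    rintro _ ⟨x, y, β, rfl⟩
    rw [smul_add, smul_add]
    refine add_mem (add_mem ?_ ?_) ?_
    · rw [← pull_smul]; exact m1 _
    · obtain ⟨β0, β1, y', rfl⟩ := decomp H' y
      rw [map_add, map_add, map_mul, pull_smul, p2, p2, pull_dd, smul_add, smul_add, smul_smul,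
        e'', one_smul]
      refine add_mem (add_mem ?_ ?_) (m2 _)
      · rw [← p1, ← pull_smul]; exact m1 _
      · rw [ds, mul_neg, smul_neg, mul_smul_comm, mul_smul_comm, smul_smul, e'', one_smul]
        exact neg_mem (m3 _)
    · rw [smul_smul, e'', one_smul, ← p1, ← pull_dd, ← map_mul]; exact m1 _
  have hd : ∀ m ∈ M, dd (g t) * m ∈ M := by
    rintro _ ⟨x, y, β, rfl⟩
    rw [mul_add, mul_add, mul_smul_comm, dd_mul_dd, smul_zero, add_zero]
    refine add_mem ?_ ?_
    · rw [← pull_dd, ← map_mul]; exact m1 _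
    · rw [dt, neg_mul, smul_mul_assoc, smul_mul_assoc, ← pull_dd, ← map_mul]
      exact neg_mem (ht _ (ht _ (m2 _)))
  have gs : Good M (g' s) := fun m hm => ⟨hs m hm, by
    rw [ds, neg_mul, smul_mul_assoc, smul_mul_assoc]
    exact neg_mem (hs _ (hs _ (hd m hm)))⟩
  have gφ : ∀ x, Good M (g (c x)) := good_pull (g.comp c) (by
    rintro γ _ ⟨x, y, β, rfl⟩
    rw [mul_add, mul_add, mul_smul_comm, ← mul_assoc, ← map_mul]
    refine add_mem (add_mem ?_ ?_) (m3 _)
    · rw [← p1, ← map_mul]; exact m1 _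
    · rw [← p2, ← map_mul]; exact m2 _)
  have gz : ∀ z, Good M (g z) := H (fun z => Good M (g z)) gφ (fun m hm => ⟨ht m hm, hd m hm⟩)
    (fun x z hx hz => by rw [map_add]; exact hx.add hz)
    (fun x z hx hz => by rw [map_mul]; exact hx.mul hz)
  refine mem_of_good (M := M) (by simpa using m1 1) (fun u => ?_) ω
  obtain ⟨z, n, rfl⟩ := hU u
  induction n with
  | zero => simpa using gz z
  | succ n ih => rw [pow_succ, ← mul_assoc]; exact ih.mul gs

theorem sum_U {c : A →ₐ[ℂ] B} {t : B} (H : Gen c t) {c' : A →ₐ[ℂ] B'} {s : B'} (H' : Gen c' s)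
    (g : B →ₐ[ℂ] U) (g' : B' →ₐ[ℂ] U) (e : g'.comp c' = g.comp c) (e' : g' s * g t = 1)
    (hU : ∀ u, ∃ (z : B) (n : ℕ), u = g z * g' s ^ n) {a b : A} (hab : c' b * s = c' a)
    {ω : DR U} (h : ω ∈ Kil (Ideal.span {g (c a)})) :
    ∃ α ∈ Kil (Ideal.span {c a}), ∃ β ∈ Kil (Ideal.span {c' b}), ω = pull g α - pull g' β := by
  let K : AddSubgroup (DR U) :=
    (Kil (Ideal.span {c a})).toAddSubgroup.map (pull g).toAddMonoidHom ⊔
      (Kil (Ideal.span {c' b})).toAddSubgroup.map (pull g').toAddMonoidHom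
  have k1 : ∀ x ∈ Kil (Ideal.span {c a}), pull g x ∈ K := fun x hx =>
    AddSubgroup.mem_sup_left ⟨x, hx, rfl⟩
  have k2 : ∀ y ∈ Kil (Ideal.span {c' b}), pull g' y ∈ K := fun y hy =>
    AddSubgroup.mem_sup_right ⟨y, hy, rfl⟩
  have ha : c a ∈ Ideal.span {c a} := Ideal.mem_span_singleton_self _
  have hb : c' b ∈ Ideal.span {c' b} := Ideal.mem_span_singleton_self _
  have ha' : c' a ∈ Ideal.span {c' b} := hab ▸ Ideal.mul_mem_right _ _ hb
  have q : g (c a) = g' (c' a) := (DFunLike.congr_fun e a).symm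
  have p2 : ∀ β, pull g' (pull c' β) = pull (g.comp c) β := fun β => by rw [pull_pull, e]
  have ds := dd_inv e'
  have ds' : g' s • g' s • dd (g t) = -dd (g' s) := by rw [ds, neg_neg]
  have key : ∀ m, g (c a) • m ∈ K ∧ dd (g (c a)) * m ∈ K := fun m => by
    obtain ⟨x, y, β, rfl⟩ := span_U H H' g g' e e' hU m
    rw [smul_add, smul_add, mul_add, mul_add]
    refine ⟨add_mem (add_mem ?_ ?_) ?_, add_mem (add_mem ?_ ?_) ?_⟩
    · rw [← pull_smul]; exact k1 _ (smul_mem_Kil ha _)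
    · rw [q, ← pull_smul]; exact k2 _ (smul_mem_Kil ha' _)
    · rw [q, ← hab, map_mul, mul_smul, ← mul_smul_comm (g' s), ← mul_smul_comm (g' s), ds',
        mul_neg, smul_neg, ← p2, ← pull_dd, ← map_mul, ← pull_smul]
      exact neg_mem (k2 _ (smul_mem_Kil hb _))
    · rw [← pull_dd, ← map_mul]; exact k1 _ (dd_mul_mem_Kil ha _)
    · rw [q, ← pull_dd, ← map_mul]; exact k2 _ (dd_mul_mem_Kil ha' _)
    · have z : dd (g' s) * (pull (g.comp c) β * dd (g t)) = 0 := by
        rw [ds, neg_mul, smul_mul_assoc, smul_mul_assoc, dd_mul_dd, smul_zero, smul_zero, neg_zero]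
      rw [q, ← hab, map_mul, dd_mul, add_mul, smul_mul_assoc, mul_smul_comm, z, smul_zero,
        smul_zero, zero_add, smul_mul_assoc, ← mul_smul_comm, ← mul_smul_comm (g' s),
        ← mul_smul_comm (g' s), ds', mul_neg, mul_neg, ← p2, ← pull_dd g' (c' b), ← pull_dd g' s,
        ← map_mul, ← map_mul]
      exact neg_mem (k2 _ (dd_mul_mem_Kil hb _))
  have main : ∀ u : U, u • ω ∈ K := by
    rw [Kil_span] at h
    induction h using Submodule.span_induction with
    | mem x hx =>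
      obtain ⟨_, rfl, β, rfl | rfl⟩ := hx
      · intro u; rw [smul_comm]; exact (key _).1
      · intro u; rw [← mul_smul_comm]; exact (key _).2
    | zero => intro u; rw [smul_zero]; exact zero_mem _
    | add x y _ _ hx hy => intro u; rw [smul_add]; exact add_mem (hx u) (hy u)
    | smul v x _ hx => intro u; rw [smul_smul]; exact hx _
  have h1 := main 1
  rw [one_smul] at h1
  obtain ⟨_, ⟨α, hα, rfl⟩, _, ⟨β, hβ, rfl⟩, rfl⟩ := AddSubgroup.mem_sup.1 h1
  exact ⟨α, hα, -β, neg_mem hβ, by rw [map_neg, sub_neg_eq_add]; rfl⟩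

end RSum

variable {A : Type} [CommRing A] [Algebra ℂ A] [Algebra.FiniteType ℂ A]

theorem bl_sum (a b : A) (g2 : Bch b a →ₐ[ℂ] Localization.Away (bchT a b))
    (e : g2.comp (bchC b a) = (toAway (bchT a b)).comp (bchC a b))
    (e' : g2 (bchT b a) * toAway (bchT a b) (bchT a b) = 1)
    {ω : DR (Localization.Away (bchT a b))}
    (h : ω ∈ Kil (Ideal.span {toAway (bchT a b) (bchC a b a)})) :
    ∃ α ∈ Kil (Ideal.span {bchC a b a}), ∃ β ∈ Kil (Ideal.span {bchC b a b}),
      ω = pull (toAway (bchT a b)) α - pull g2 β := by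
  refine RSum.sum_U (t := bchT a b) (s := bchT b a) (fun P h0 h1 h2 h3 => bch_induction h0 h1 h2 h3)
    (fun P h0 h1 h2 h3 => bch_induction h0 h1 h2 h3) (toAway (bchT a b)) g2 e e' (fun u => ?_)
    (bch_mul b a) h
  obtain ⟨⟨z, _, n, rfl⟩, hz⟩ := IsLocalization.surj (Submonoid.powers (bchT a b)) u
  refine ⟨z, n, ?_⟩
  have h1 : u * toAway (bchT a b) (bchT a b) ^ n = toAway (bchT a b) z := by
    rw [← map_pow]; exact hz
  rw [← h1, mul_assoc, ← mul_pow, mul_comm (toAway _ _), e', one_pow, mul_one]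

end Pool.Agent.P.MP_824f38_ag.N
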