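import Pool.Agent.P.MP_824f38_ag.N.God

/-! Row NEC-GBasic: basic properties of the Godement complexes of subpresheaves

K_sc: the value of δ c at y is the germ of the class of c. Restrict c to B = y.idx.ob (or to any B); the
class of res c lies in (S.tw (j+1)).S B; if y kills 𝔥, all points of y.idx.ob kill 𝔥 after restriction, so res c = 0.
K_locMaps: induction on j for the statement LocMaps 𝒞 (u.tw j) (S.tw j) (T.tw j); at a point y of A in 𝒞 every element of the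
stalk of S is the germ of a section over some B under A (PtO.exists_common), and B is in 𝒞.
tw_top uses germ_surj. -/

set_option linter.unusedVariables false
set_option linter.unusedSectionVars false
set_option linter.style.haveILetI false
set_option linter.dupNamespace false

namespace Pool.Agent.P.MP_824f38_ag.N

variable {R : Type} [CommRing R] [Algebra ℂ R] [Algebra.FiniteType ℂ R] {Z Z' Z'' : PSh R}

theorem K_sc (S : Sub Z) (A : Ob R) (𝔥 : Ideal A.A) : Sc (Z.δ A) (S.K A 𝔥) := by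
  intro j c hc x y
  refine ⟨(S.tw (j + 1)).germ_mem y
    (S.mem_tw_succ.2 ⟨c, fun x' y' => ⟨(hc x' y').1, fun h => absurd h y'.not_kills_top⟩, rfl⟩),
    fun hy => ?_⟩
  refine (Z.tw (j + 1)).germ_eq_zero.2 ⟨y.idx.ob, y.toIdx, y.idx.pt, rfl, ?_⟩
  have h0 : Z.res y.toIdx j c = 0 := by
    refine (Z.tw j).G_ext fun x' y' => (hc x' (y'.pre y.toIdx)).2 fun a ha => ?_
    have e : y.toIdx.f a = 0 := Subtype.ext (hy a ha)
    change y'.y (y.toIdx.f a) = 0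
    rw [e, map_zero]
  change (Z.tw (j + 1)).map y.toIdx (Z.cl A j c) = 0
  rw [Z.map_cl, h0, map_zero]

theorem K_res (S : Sub Z) {A B : Ob R} (φ : Hom A B) {𝔥 : Ideal A.A} {𝔥' : Ideal B.A}
    (h : ∀ (x : Pt R) (y : PtO B x), y.Kills 𝔥' → (y.pre φ).Kills 𝔥) {j : ℕ} {c : Z.C A j}
    (hc : c ∈ S.K A 𝔥 j) : Z.res φ j c ∈ S.K B 𝔥' j := by
  exact fun x y => ⟨(hc x (y.pre φ)).1, fun hy => (hc x (y.pre φ)).2 (h x y hy)⟩

theorem K_anti (S : Sub Z) {A : Ob R} {𝔥 𝔥' : Ideal A.A}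
    (h : ∀ (x : Pt R) (y : PtO A x), y.Kills 𝔥' → y.Kills 𝔥) (j : ℕ) :
    S.K A 𝔥 j ≤ S.K A 𝔥' j := by
  exact fun c hc x y => ⟨(hc x y).1, fun hy => (hc x y).2 (h x y hy)⟩

theorem K_congr (S : Sub Z) {A : Ob R} {𝔥 𝔥' : Ideal A.A}
    (h : ∀ (x : Pt R) (y : PtO A x), y.Kills 𝔥' ↔ y.Kills 𝔥) : S.K A 𝔥 = S.K A 𝔥' := by
  exact funext fun j => le_antisymm (K_anti S (fun x y => (h x y).1) j)
    (K_anti S (fun x y => (h x y).2) j)

theorem K_eq_bot_of_kills (S : Sub Z) {A : Ob R} {𝔥 : Ideal A.A}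
    (h : ∀ (x : Pt R) (y : PtO A x), y.Kills 𝔥) (j : ℕ) : S.K A 𝔥 j = ⊥ := by
  refine (Submodule.eq_bot_iff _).2 fun c hc => ?_
  exact (Z.tw j).G_ext fun x y => (hc x y).2 (h x y)

private theorem st_mem_of_locMaps {𝒞 : Ob R → Prop} (h𝒞 : UpC 𝒞) {u : NT Z Z'} {S : Sub Z}
    {T : Sub Z'} (h : LocMaps 𝒞 u S T) {A : Ob R} (hA : 𝒞 A) {x : Pt R} (y : PtO A x)
    {s : Z.Stalk x} (hs : s ∈ S.st x) : u.st x s ∈ T.st x := by
  rcases hs with rfl | ⟨B, y', z, hz, rfl⟩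
  · rw [map_zero]; exact zero_mem _
  obtain ⟨i, φ, ψ, -, rfl⟩ := y.exists_common y'
  rw [← Z.germ_map, u.st_germ]
  exact T.germ_mem_iff.2 (h _ (h𝒞 _ _ φ hA) _ (S.mem ψ z hz) x i.pt)

theorem locMaps_tw {𝒞 : Ob R → Prop} (h𝒞 : UpC 𝒞) {u : NT Z Z'} {S : Sub Z} {T : Sub Z'}
    (h : LocMaps 𝒞 u S T) (j : ℕ) : LocMaps 𝒞 (u.tw j) (S.tw j) (T.tw j) := by
  induction j with
  | zero => exact h
  | succ j ih =>
    intro A hA z hz x y
    obtain ⟨c, hc, rfl⟩ := S.mem_tw_succ.1 hz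
    refine ⟨A, Hom.id A, y, rfl, ?_⟩
    change (Z'.tw (j + 1)).map (Hom.id A) ((u.tw (j + 1)).app A (Z.cl A j c)) ∈ _
    rw [(Z'.tw (j + 1)).map_id, u.tw_cl]
    exact T.mem_tw_succ.2 ⟨_, fun x' y' => ⟨st_mem_of_locMaps h𝒞 ih hA y' (hc x' y').1,
      fun h' => absurd h' y'.not_kills_top⟩, rfl⟩

theorem K_locMaps {𝒞 : Ob R → Prop} (h𝒞 : UpC 𝒞) {u : NT Z Z'} {S : Sub Z} {T : Sub Z'}
    (h : LocMaps 𝒞 u S T) {A : Ob R} (hA : 𝒞 A) (𝔥 : Ideal A.A) {j : ℕ} {c : Z.C A j}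
    (hc : c ∈ S.K A 𝔥 j) : u.C A j c ∈ T.K A 𝔥 j := by
  intro x y
  refine ⟨st_mem_of_locMaps h𝒞 (locMaps_tw h𝒞 h j) hA y (hc x y).1, fun hy => ?_⟩
  rw [u.C_apply, (hc x y).2 hy, map_zero]

theorem K_maps {u : NT Z Z'} {S : Sub Z} {T : Sub Z'} (h : ∀ A, ∀ z ∈ S.S A, u.app A z ∈ T.S A)
    {A : Ob R} (𝔥 : Ideal A.A) {j : ℕ} {c : Z.C A j} (hc : c ∈ S.K A 𝔥 j) :
    u.C A j c ∈ T.K A 𝔥 j := by
  refine K_locMaps (𝒞 := fun _ => True) (fun _ _ _ _ => trivial) ?_ trivial 𝔥 hc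
  exact fun B _ z hz x y => ⟨B, Hom.id B, y, rfl, T.mem _ _ (h B z hz)⟩

private theorem st_mem_of_top {S : Sub Z} (h : ∀ A, S.S A = ⊤) {x : Pt R} (s : Z.Stalk x) :
    s ∈ S.st x := by
  obtain ⟨i, z, rfl⟩ := Z.germ_surj s
  exact S.germ_mem _ (by rw [h]; trivial)

theorem tw_top (j : ℕ) (A : Ob R) : ((Sub.top Z).tw j).S A = ⊤ := by
  induction j generalizing A with
  | zero => rfl
  | succ j ih =>
    refine eq_top_iff.2 fun z _ => ?_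
    obtain ⟨c, rfl⟩ := Z.cl_surj A j z
    exact (Sub.top Z).mem_tw_succ.2 ⟨c, fun x y => ⟨st_mem_of_top ih _,
      fun h => absurd h y.not_kills_top⟩, rfl⟩

theorem mem_K_top {A : Ob R} {𝔥 : Ideal A.A} {j : ℕ} {c : Z.C A j} :
    c ∈ (Sub.top Z).K A 𝔥 j ↔ ∀ (x : Pt R) (y : PtO A x), y.Kills 𝔥 → c x y = 0 := by
  exact ⟨fun h x y => (h x y).2, fun h x y => ⟨st_mem_of_top (tw_top j) _, h x y⟩⟩

theorem K_top_top (A : Ob R) (j : ℕ) : (Sub.top Z).K A ⊤ j = ⊤ := by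
  exact eq_top_iff.2 fun c _ => mem_K_top.2 fun x y h => absurd h y.not_kills_top

private theorem st_eq_zero_of_bot {S : Sub Z} (h : ∀ A, S.S A = ⊥) {x : Pt R} {s : Z.Stalk x}
    (hs : s ∈ S.st x) : s = 0 := by
  rcases hs with rfl | ⟨B, y, z, hz, rfl⟩
  · rfl
  rw [h] at hz
  rw [(Submodule.mem_bot R).1 hz, map_zero]

private theorem tw_bot (j : ℕ) (A : Ob R) : ((Sub.bot Z).tw j).S A = ⊥ := by
  induction j generalizing A with
  | zero => rfl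
  | succ j ih =>
    refine (Submodule.eq_bot_iff _).2 fun z hz => ?_
    obtain ⟨c, hc, rfl⟩ := (Sub.bot Z).mem_tw_succ.1 hz
    have h0 : c = 0 := (Z.tw j).G_ext fun x y => st_eq_zero_of_bot ih (hc x y).1
    rw [h0, map_zero]

theorem K_bot (A : Ob R) (𝔥 : Ideal A.A) (j : ℕ) : (Sub.bot Z).K A 𝔥 j = ⊥ := by
  refine (Submodule.eq_bot_iff _).2 fun c hc => ?_
  exact (Z.tw j).G_ext fun x y => st_eq_zero_of_bot (tw_bot j) (hc x y).1

theorem mem_K_iff (S : Sub Z) {A : Ob R} {𝔥 : Ideal A.A} {j : ℕ} {c : Z.C A j} :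
    c ∈ S.K A 𝔥 j ↔ c ∈ S.K A ⊤ j ∧ c ∈ (Sub.top Z).K A 𝔥 j := by
  rw [mem_K_top]
  exact ⟨fun h => ⟨fun x y => ⟨(h x y).1, fun h' => absurd h' y.not_kills_top⟩,
    fun x y => (h x y).2⟩, fun h x y => ⟨(h.1 x y).1, h.2 x y⟩⟩

theorem eta_mem_K (S : Sub Z) {A : Ob R} {j : ℕ} {z : (Z.tw j).F A} (hz : z ∈ (S.tw j).S A) :
    (Z.tw j).eta A z ∈ S.K A ⊤ j := by
  exact fun x y => ⟨(S.tw j).germ_mem y hz, fun h => absurd h y.not_kills_top⟩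

theorem mem_Bd_top {A : Ob R} {j : ℕ} {c : Z.C A j} :
    c ∈ Bd (Z.δ A) ((Sub.top Z).K A ⊤) (LinearMap.range (Z.eta A)) j ↔
      ∃ z, (Z.tw j).eta A z = c := by
  cases j with
  | zero => exact Iff.rfl
  | succ j =>
    rw [mem_Bd_succ]
    constructor
    · rintro ⟨b, -, rfl⟩
      exact ⟨_, rfl⟩
    · rintro ⟨z, rfl⟩
      obtain ⟨b, rfl⟩ := Z.cl_surj A j z
      exact ⟨b, by rw [K_top_top]; trivial, rfl⟩

end Pool.Agent.P.MP_824f38_ag.N
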