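import Pool.Agent.P.MP_824f38_ag.N.GBasic
import Pool.Agent.P.MP_824f38_ag.N.ACech

/-! Row NEC-GCech: Cech covers outside a closed set

Fix x that does not kill 𝔥 and y over x. Let P be the set of i such that y lifts to D {i}; choose i0 in P (a function of y).
A lift to D I (I nonempty) exists iff I ⊆ P and is unique. The contraction: (s c) I y' = sgn (insert i0 I) i0 • c (insert i0 I) (lift)
if i0 ∉ I and 0 otherwise, where y = y'.pre (α I). Then cechL (s c) + s (cechL c) = c on nonempty I of card ≥ 2, and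
for card 1 the augmentation c {i0} (lift of y) is used. -/

set_option linter.unusedVariables false
set_option linter.unusedSectionVars false
set_option linter.style.haveILetI false
set_option linter.dupNamespace false

namespace Pool.Agent.P.MP_824f38_ag.N

variable {R : Type} [CommRing R] [Algebra ℂ R] [Algebra.FiniteType ℂ R] {Z Z' Z'' : PSh R}

/-- a finite cover of `A` outside the zero set of `𝔥` -/
structure CechCov {ι : Type} [LinearOrder ι] {A : Ob R} (D : Finset ι → Ob R)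
    (α : ∀ I, Hom A (D I)) (r : ∀ I J : Finset ι, I ⊆ J → Hom (D I) (D J)) (𝔥 : Ideal R) :
    Prop where
  rα : ∀ I J h, (r I J h).comp (α I) = α J
  rr : ∀ I J K h h', (r J K h').comp (r I J h) = r I K (h.trans h')
  uniq : ∀ x : Pt R, (∃ a ∈ 𝔥, x.x a ≠ 0) → ∀ I, I.Nonempty → ∀ y y' : PtO (D I) x,
    y.pre (α I) = y'.pre (α I) → y = y'
  cov : ∀ x : Pt R, (∃ a ∈ 𝔥, x.x a ≠ 0) → ∀ y : PtO A x,
    ∃ (i : ι) (y' : PtO (D {i}) x), y'.pre (α {i}) = y
  inter : ∀ x : Pt R, (∃ a ∈ 𝔥, x.x a ≠ 0) → ∀ (y : PtO A x) (I : Finset ι), I.Nonempty →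
    (∀ i ∈ I, ∃ y' : PtO (D {i}) x, y'.pre (α {i}) = y) → ∃ y' : PtO (D I) x, y'.pre (α I) = y

variable {ι : Type} [LinearOrder ι] [Fintype ι] {A : Ob R} {D : Finset ι → Ob R}
  {α : ∀ I, Hom A (D I)} {r : ∀ I J : Finset ι, I ⊆ J → Hom (D I) (D J)} {𝔥 : Ideal R}

theorem kills_map_iff {A : Ob R} {x : Pt R} (y : PtO A x) (𝔥 : Ideal R) :
    y.Kills (𝔥.map (A.str : R →+* A.A)) ↔ ∀ a ∈ 𝔥, x.x a = 0 := by
  have e : ∀ a, y.y (A.str a) = x.x a := fun a => DFunLike.congr_fun y.hy a
  constructor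
  · intro h a ha
    rw [← e]
    exact h _ (Ideal.mem_map_of_mem (A.str : R →+* A.A) ha)
  · intro h a ha
    have hle : 𝔥.map (A.str : R →+* A.A) ≤ RingHom.ker (y.y : A.A →+* x.V) :=
      Ideal.map_le_iff_le_comap.2 fun b hb => by
        rw [Ideal.mem_comap, RingHom.mem_ker]
        exact (e b).trans (h b hb)
    exact hle ha

theorem gc_sgn_single (a : ι) : V.sgn ({a} : Finset ι) a = 1 := by
  simp [V.sgn, Finset.filter_singleton]

/-- the contraction of the Cech complex with constant coefficients -/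
def gcS {M : Type*} [AddCommGroup M] (v : Finset ι → M) (i : ι) (I : Finset ι) : M :=
  if i ∈ I then 0 else V.sgn (insert i I) i • v (insert i I)

theorem gcS_sum {M : Type*} [AddCommGroup M] (v : Finset ι → M) (i : ι) (J : Finset ι)
    (h : i ∉ J → ∑ a ∈ insert i J, V.sgn (insert i J) a • v ((insert i J).erase a) = 0) :
    ∑ a ∈ J, V.sgn J a • gcS v i (J.erase a) = v J := by
  by_cases hi : i ∈ J
  · rw [Finset.sum_eq_single i]
    · rw [gcS, if_neg (Finset.notMem_erase i J), Finset.insert_erase hi, smul_smul, V.sgn_sq,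
        one_smul]
    · intro b hb hbi
      rw [gcS, if_pos (Finset.mem_erase.2 ⟨fun e => hbi e.symm, hi⟩), smul_zero]
    · intro h'
      exact absurd hi h'
  · have h1 := h hi
    rw [Finset.sum_insert hi, Finset.erase_insert hi] at h1
    have h2 : ∀ a ∈ J, V.sgn J a • gcS v i (J.erase a) =
        (-V.sgn (insert i J) i) • (V.sgn (insert i J) a • v ((insert i J).erase a)) := by
      intro a ha
      have hne : i ≠ a := fun e => hi (e ▸ ha)
      have hs := V.sgn_swap (J := insert i J) (Finset.mem_insert_of_mem ha)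
        (Finset.mem_insert_self i J) hne.symm
      rw [Finset.erase_insert hi] at hs
      have h3 := V.sgn_sq (insert i J) a
      have h4 := V.sgn_sq J a
      rw [gcS, if_neg (fun h' => hi (Finset.mem_of_mem_erase h')),
        ← Finset.erase_insert_of_ne hne, smul_smul, smul_smul]
      congr 1
      linear_combination (V.sgn J a * V.sgn (insert i J) a) * hs -
        (V.sgn J a * V.sgn ((insert i J).erase a) i) * h3 -
        (V.sgn (insert i J) i * V.sgn (insert i J) a) * h4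
    rw [Finset.sum_congr rfl h2, ← Finset.smul_sum, eq_neg_of_add_eq_zero_right h1, neg_smul,
      smul_neg, neg_neg, smul_smul, V.sgn_sq, one_smul]

open Classical in
/-- the value of a cochain at the lift of a point -/
noncomputable def gcV (α : ∀ I, Hom A (D I)) {j : ℕ} (c : ∀ I, Z.C (D I) j) {x : Pt R}
    (y : PtO A x) (I : Finset ι) : (Z.tw j).Stalk x :=
  if h : ∃ y' : PtO (D I) x, y'.pre (α I) = y then c I x h.choose else 0

theorem gcV_lift (H : CechCov D α r 𝔥) {j : ℕ} (c : ∀ I, Z.C (D I) j) (h0 : c ∅ = 0) {x : Pt R}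
    (hx : ∃ a ∈ 𝔥, x.x a ≠ 0) (I : Finset ι) (y' : PtO (D I) x) :
    gcV α c (y'.pre (α I)) I = c I x y' := by
  have h : ∃ y'' : PtO (D I) x, y''.pre (α I) = y'.pre (α I) := ⟨y', rfl⟩
  rw [gcV, dif_pos h]
  rcases I.eq_empty_or_nonempty with rfl | hI
  · rw [h0]; rfl
  · rw [H.uniq x hx I hI _ _ h.choose_spec]

theorem gcV_mem {j : ℕ} {c : ∀ I, Z.C (D I) j} {x : Pt R} {T : Submodule R ((Z.tw j).Stalk x)}
    (y : PtO A x) (I : Finset ι) (hc : ∀ y', c I x y' ∈ T) : gcV α c y I ∈ T := by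
  unfold gcV
  split_ifs with h
  · exact hc _
  · exact zero_mem _

theorem gcV_zero {j : ℕ} {c : ∀ I, Z.C (D I) j} {x : Pt R}
    (y : PtO A x) (I : Finset ι) (hc : c I = 0) : gcV α c y I = 0 := by
  unfold gcV
  split_ifs with h
  · rw [hc]; rfl
  · rfl

theorem gc_cech_pt {j : ℕ} (c : ∀ I, Z.C (D I) j) (J : Finset ι) (x : Pt R) (y : PtO (D J) x) :
    cechL (fun I J h => Z.res (r I J h) j) c J x y =
      ∑ a ∈ J, V.sgn J a • c (J.erase a) x (y.pre (r _ J (Finset.erase_subset a J))) := by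
  let ev : Z.C (D J) j →+ (Z.tw j).Stalk x := AddMonoidHom.mk' (fun c => c x y) (fun _ _ => rfl)
  change ev (cechL (fun I J h => Z.res (r I J h) j) c J) = _
  rw [cechL_apply, map_sum]
  refine Finset.sum_congr rfl fun a _ => ?_
  rw [map_zsmul]
  rfl

theorem gc_pre (H : CechCov D α r 𝔥) {x : Pt R} {I J : Finset ι} (h : I ⊆ J) (y : PtO (D J) x) :
    (y.pre (r I J h)).pre (α I) = y.pre (α J) := by
  rw [← PtO.pre_comp, H.rα]

/-- a cocycle satisfies the cocycle condition pointwise, and the contraction applies -/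
theorem gc_contr (H : CechCov D α r 𝔥) {j : ℕ} (c : ∀ I, Z.C (D I) j) (h0 : c ∅ = 0)
    (h : cechL (fun I J h => Z.res (r I J h) j) c = 0) {x : Pt R} (hx : ∃ a ∈ 𝔥, x.x a ≠ 0)
    (J : Finset ι) (y : PtO (D J) x) (i : ι)
    (hi : ∃ y' : PtO (D {i}) x, y'.pre (α {i}) = y.pre (α J)) :
    ∑ a ∈ J, V.sgn J a • gcS (gcV α c (y.pre (α J))) i (J.erase a) = c J x y := by
  rw [← gcV_lift H c h0 hx J y]
  refine gcS_sum _ i J fun _ => ?_
  obtain ⟨y', e⟩ := H.inter x hx (y.pre (α J)) (insert i J) (Finset.insert_nonempty i J) (by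
    intro k hk
    rcases Finset.mem_insert.1 hk with rfl | hk
    · exact hi
    · exact ⟨y.pre (r {k} J (Finset.singleton_subset_iff.2 hk)), gc_pre H _ y⟩)
  have h1 := gc_cech_pt (r := r) c (insert i J) x y'
  rw [h] at h1
  refine Eq.trans (Finset.sum_congr rfl fun a _ => ?_) h1.symm
  rw [← e, ← gc_pre H (Finset.erase_subset a (insert i J)) y', gcV_lift H c h0 hx]

theorem gc_not_kills {x : Pt R} (hx : ¬ ∃ a ∈ 𝔥, x.x a ≠ 0) {B : Ob R} (y : PtO B x) :
    y.Kills (𝔥.map (B.str : R →+* B.A)) :=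
  (kills_map_iff y 𝔥).2 fun a ha => by
    by_contra h
    exact hx ⟨a, ha, h⟩

theorem gc_kills {x : Pt R} (hx : ∃ a ∈ 𝔥, x.x a ≠ 0) {B : Ob R} (y : PtO B x) :
    ¬ y.Kills (𝔥.map (B.str : R →+* B.A)) := fun h => by
  obtain ⟨a, ha, h'⟩ := hx
  exact h' ((kills_map_iff y 𝔥).1 h a ha)

/-- the augmentation of the Cech complex -/
noncomputable def cechAug (Z : PSh R) (α : ∀ I, Hom A (D I)) (j : ℕ) :
    Z.C A j →ₗ[R] ∀ I, Z.C (D I) j :=
  LinearMap.pi fun I => if I.card = 1 then Z.res (α I) j else 0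

theorem gc_aug (j : ℕ) (b : Z.C A j) (I : Finset ι) :
    cechAug Z α j b I = if I.card = 1 then Z.res (α I) j b else 0 := by
  rw [cechAug, LinearMap.pi_apply]
  split_ifs with h <;> rfl

theorem cech_inj (H : CechCov D α r 𝔥) (S : Sub Z) (j : ℕ) :
    ∀ c ∈ S.K A (𝔥.map (A.str : R →+* A.A)) j, cechAug Z α j c = 0 → c = 0 := by
  intro c hc h
  refine PSh.G_ext _ fun x y => ?_
  by_cases hx : ∃ a ∈ 𝔥, x.x a ≠ 0
  · obtain ⟨i, y', rfl⟩ := H.cov x hx y
    have h1 := congrFun h {i}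
    rw [gc_aug, if_pos (Finset.card_singleton i)] at h1
    exact congrFun (congrFun h1 x) y'
  · exact (hc x y).2 (gc_not_kills hx y)

theorem cech_zero (H : CechCov D α r 𝔥) (S : Sub Z) (j : ℕ) (c : ∀ I, Z.C (D I) j) :
    (c ∈ CochL (fun I => S.K (D I) (𝔥.map ((D I).str : R →+* (D I).A)) j) 1 ∧
      cechL (fun I J h => Z.res (r I J h) j) c = 0) ↔
    ∃ b ∈ S.K A (𝔥.map (A.str : R →+* A.A)) j, cechAug Z α j b = c := by
  classical
  constructor
  · rintro ⟨hc, h⟩
    have h0 : c ∅ = 0 := (hc ∅).2 (by simp)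
    obtain ⟨b, hb⟩ : ∃ b : Z.C A j, ∀ x y, b x y =
        if hx : ∃ a ∈ 𝔥, x.x a ≠ 0 then gcV α c y {(H.cov x hx y).choose} else 0 :=
      ⟨fun x y => if hx : ∃ a ∈ 𝔥, x.x a ≠ 0 then gcV α c y {(H.cov x hx y).choose} else 0,
        fun _ _ => rfl⟩
    refine ⟨b, fun x y => ⟨?_, fun hk => ?_⟩, ?_⟩
    · rw [hb]
      split_ifs with hx
      · exact gcV_mem y _ fun y' => ((hc _).1 x y').1
      · exact zero_mem _
    · rw [hb]
      exact dif_neg fun hx => gc_kills hx y hk
    · funext I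
      rw [gc_aug]
      split_ifs with hI
      · obtain ⟨i, rfl⟩ := Finset.card_eq_one.1 hI
        refine PSh.G_ext _ fun x y => ?_
        rw [PSh.res_apply, hb]
        by_cases hx : ∃ a ∈ 𝔥, x.x a ≠ 0
        · rw [dif_pos hx, ← gc_contr H c h0 h hx {i} y _ (H.cov x hx _).choose_spec,
            Finset.sum_singleton, gc_sgn_single, one_smul, Finset.erase_singleton, gcS,
            if_neg (Finset.notMem_empty _)]
          change _ = V.sgn {_} _ • gcV α c _ {_}
          rw [gc_sgn_single, one_smul]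
        · rw [dif_neg hx]
          exact (((hc _).1 x y).2 (gc_not_kills hx y)).symm
      · exact ((hc I).2 hI).symm
  · rintro ⟨b, hb, rfl⟩
    refine ⟨fun I => ⟨?_, fun hI => by rw [gc_aug, if_neg hI]⟩, ?_⟩
    · rw [gc_aug]
      split_ifs with hI
      · intro x y
        refine ⟨(hb x _).1, fun hk => (hb x _).2 ?_⟩
        exact (kills_map_iff _ 𝔥).2 ((kills_map_iff y 𝔥).1 hk)
      · exact zero_mem _
    · funext J
      refine PSh.G_ext _ fun x y => ?_
      rw [gc_cech_pt]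
      change _ = 0
      by_cases hJ : J.card = 2
      · have h1 : ∀ a ∈ J, V.sgn J a • cechAug Z α j b (J.erase a) x
            (y.pre (r _ J (Finset.erase_subset a J))) = V.sgn J a • b x (y.pre (α J)) := by
          intro a ha
          rw [gc_aug, if_pos (by rw [Finset.card_erase_of_mem ha, hJ]), PSh.res_apply, gc_pre H]
        rw [Finset.sum_congr rfl h1, ← Finset.sum_smul]
        obtain ⟨a, a', hne, rfl⟩ := Finset.card_eq_two.1 hJ
        have hs := V.sgn_swap (J := {a, a'}) (a := a) (b := a') (by simp) (by simp) hne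
        have e1 : ({a, a'} : Finset ι).erase a = {a'} := Finset.erase_insert (by simpa using hne)
        have e2 : ({a, a'} : Finset ι).erase a' = {a} := by
          rw [Finset.pair_comm]
          exact Finset.erase_insert (by simpa using hne.symm)
        rw [e1, e2, gc_sgn_single, gc_sgn_single, mul_one, mul_one] at hs
        rw [Finset.sum_pair hne, hs, neg_add_cancel, zero_smul]
      · refine Finset.sum_eq_zero fun a ha => ?_
        rw [gc_aug, if_neg (fun e => hJ (by rw [← Finset.card_erase_add_one ha, e])),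
          PSh.G_zero, smul_zero]

theorem cech_succ (H : CechCov D α r 𝔥) (S : Sub Z) (j q : ℕ) (c : ∀ I, Z.C (D I) j)
    (hc : c ∈ CochL (fun I => S.K (D I) (𝔥.map ((D I).str : R →+* (D I).A)) j) (q + 2))
    (h : cechL (fun I J h => Z.res (r I J h) j) c = 0) :
    ∃ b ∈ CochL (fun I => S.K (D I) (𝔥.map ((D I).str : R →+* (D I).A)) j) (q + 1),
      cechL (fun I J h => Z.res (r I J h) j) b = c := by
  classical
  have h0 : c ∅ = 0 := (hc ∅).2 (by simp)
  obtain ⟨b, hb⟩ : ∃ b : ∀ I, Z.C (D I) j, ∀ I x y, b I x y = if hx : ∃ a ∈ 𝔥, x.x a ≠ 0 then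
      gcS (gcV α c (y.pre (α I))) (H.cov x hx (y.pre (α I))).choose I else 0 :=
    ⟨fun I x y => if hx : ∃ a ∈ 𝔥, x.x a ≠ 0 then
      gcS (gcV α c (y.pre (α I))) (H.cov x hx (y.pre (α I))).choose I else 0, fun _ _ _ => rfl⟩
  refine ⟨b, fun I => ⟨fun x y => ⟨?_, fun hk => ?_⟩, fun hI => ?_⟩, ?_⟩
  · rw [hb]
    split_ifs with hx
    · unfold gcS
      split_ifs with hi
      · exact zero_mem _
      · exact zsmul_mem (gcV_mem _ _ fun y' => ((hc _).1 x y').1) _
    · exact zero_mem _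
  · rw [hb]
    exact dif_neg fun hx => gc_kills hx y hk
  · refine PSh.G_ext _ fun x y => ?_
    rw [hb, PSh.G_zero]
    split_ifs with hx
    · unfold gcS
      split_ifs with hi
      · rfl
      · rw [gcV_zero _ _ ((hc _).2 (by rw [Finset.card_insert_of_notMem hi]; omega)), smul_zero]
    · rfl
  · funext J
    refine PSh.G_ext _ fun x y => ?_
    rw [gc_cech_pt]
    by_cases hx : ∃ a ∈ 𝔥, x.x a ≠ 0
    · simp only [hb, dif_pos hx, gc_pre H]
      exact gc_contr H c h0 h hx J y _ (H.cov x hx _).choose_spec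
    · simp only [hb, dif_neg hx, smul_zero, Finset.sum_const_zero]
      exact (((hc _).1 x y).2 (gc_not_kills hx y)).symm

end Pool.Agent.P.MP_824f38_ag.N
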