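import Pool.Agent.P.MP_824f38_ag.N.GSplit
import Pool.Agent.P.MP_824f38_ag.N.GRow
import Pool.Agent.P.MP_824f38_ag.N.ADcPair

/-! Row NEC-GFl: a stalkwise exact complex of discontinuous sections is exact

Let P be the presheaf A ↦ ∀ j, Z.C A j, u the shift by δ ((u c) 0 = 0, (u c) (j+1) = δ (c j)), S 0 = T 0 = bot, S (j+1) = elements
supported in the slot j with value in KK (𝒜 j) A ⊤, T (j+1) likewise with ℬ. P has the retraction ρ : NT P.G P,
(ρ c) j x y = ev (germ of the slot j of c x y) (exists_ev and NT.st of the projection to the slot j), which preserves the S j, T j.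
Apply dc_pair to W i = P.C A i, v = P.δ A, h i = u.C A i, M j i = (S j).K A ⊤ i, N j i = (T j).K A ⊤ i: rows by row_exact (hloc),
columns by split_exact. For c in KK (𝒜 j) A ⊤ apply it to x = η (c in slot j); y is η z modulo N by split_exact (i = 0), and
η w in (T j).K A ⊤ 0 implies w = ρ (η w) in (T j).S A. -/

set_option linter.unusedVariables false
set_option linter.unusedSectionVars false
set_option linter.style.haveILetI false
set_option linter.dupNamespace false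

namespace Pool.Agent.P.MP_824f38_ag.N

variable {R : Type} [CommRing R] [Algebra ℂ R] [Algebra.FiniteType ℂ R] {Z Z' Z'' : PSh R}

/-- the product of the terms of the Godement complex -/
noncomputable def flP (Z : PSh R) : PSh R where
  F A := ∀ j, Z.C A j
  map φ :=
    { toFun := fun c j => Z.res φ j (c j)
      map_add' := fun a b => funext fun j => map_add (Z.res φ j) _ _
      map_smul' := fun r a => funext fun j => map_smul (Z.res φ j) r _ }
  map_id _ _ := rfl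
  map_comp _ _ _ := rfl

/-- the shifted differential -/
noncomputable def flShF (Z : PSh R) (A : Ob R) (c : ∀ j, Z.C A j) : ∀ j, Z.C A j
  | 0 => 0
  | j + 1 => Z.δ A j (c j)

/-- the shifted differential as a natural map -/
noncomputable def flSh (Z : PSh R) : NT (flP Z) (flP Z) where
  app A := AddMonoidHom.mk' (flShF Z A) (fun a b => funext fun j => by
    cases j with
    | zero => exact (add_zero _).symm
    | succ j => exact map_add (Z.δ A j) _ _)
  nat φ z := funext fun j => by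
    cases j with
    | zero => exact (map_zero (Z.res φ 0)).symm
    | succ j => exact (Z.res_δ φ j _).symm

theorem flSh_zero (A : Ob R) (c : (flP Z).F A) : (flSh Z).app A c 0 = 0 := rfl

theorem flSh_succ (A : Ob R) (c : (flP Z).F A) (j : ℕ) :
    (flSh Z).app A c (j + 1) = Z.δ A j (c j) := rfl

theorem flSh_sq (A : Ob R) (c : (flP Z).F A) : (flSh Z).app A ((flSh Z).app A c) = 0 := by
  funext j
  rcases j with _ | _ | j
  · rfl
  · exact map_zero (Z.δ A 0)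
  · exact Z.sq_δ A j _

/-- the projection to a slot -/
noncomputable def flPr (Z : PSh R) (j : ℕ) : NT (flP Z) (Z.tw j).G where
  app A := AddMonoidHom.mk' (fun c => c j) (fun _ _ => rfl)
  nat _ _ := rfl

/-- the elements that live in the slot `n - 1` -/
noncomputable def flS (𝒜 : ∀ j x, Submodule R ((Z.tw j).Stalk x)) (n : ℕ) : Sub (flP Z) where
  S A :=
    { carrier := {c | ∀ i, c i ∈ KK (𝒜 i) A ⊤ ∧ (i + 1 ≠ n → c i = 0)}
      add_mem' := fun {a b} ha hb i => ⟨add_mem (ha i).1 (hb i).1, fun h => by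
        change a i + b i = 0
        rw [(ha i).2 h, (hb i).2 h, add_zero]⟩
      zero_mem' := fun i => ⟨zero_mem _, fun _ => rfl⟩
      smul_mem' := fun r a ha i => ⟨Submodule.smul_mem _ r (ha i).1, fun h => by
        change r • a i = 0
        rw [(ha i).2 h, smul_zero]⟩ }
  mem φ z hz i := ⟨fun x y => ⟨((hz i).1 x _).1, fun h => absurd h y.not_kills_top⟩, fun h => by
    change Z.res φ i (z i) = 0
    rw [(hz i).2 h, map_zero]⟩

theorem mem_flS {𝒜 : ∀ j x, Submodule R ((Z.tw j).Stalk x)} {n : ℕ} {A : Ob R}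
    {c : (flP Z).F A} :
    c ∈ (flS 𝒜 n).S A ↔ ∀ i, c i ∈ KK (𝒜 i) A ⊤ ∧ (i + 1 ≠ n → c i = 0) := Iff.rfl

theorem mem_flS_succ {𝒜 : ∀ j x, Submodule R ((Z.tw j).Stalk x)} {j : ℕ} {A : Ob R}
    {c : (flP Z).F A} (h : c j ∈ KK (𝒜 j) A ⊤) (h' : ∀ i, i ≠ j → c i = 0) :
    c ∈ (flS 𝒜 (j + 1)).S A := by
  intro i
  refine ⟨?_, fun hi => h' i fun e => hi (by rw [e])⟩
  by_cases e : i = j
  · subst e; exact h
  · rw [h' i e]; exact zero_mem _

theorem flS_le {𝒜 ℬ : ∀ j x, Submodule R ((Z.tw j).Stalk x)} (hle : ∀ j x, ℬ j x ≤ 𝒜 j x)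
    (n : ℕ) (A : Ob R) : (flS ℬ n).S A ≤ (flS 𝒜 n).S A :=
  fun c hc i => ⟨fun x y => ⟨hle i x ((hc i).1 x y).1, ((hc i).1 x y).2⟩, (hc i).2⟩

theorem flSh_mem {𝒜 ℬ : ∀ j x, Submodule R ((Z.tw j).Stalk x)} {n : ℕ} {A : Ob R}
    {c : (flP Z).F A} (hc : c ∈ (flS 𝒜 n).S A)
    (h : ∀ i, i + 1 = n → Z.δ A i (c i) ∈ KK (ℬ (i + 1)) A ⊤) :
    (flSh Z).app A c ∈ (flS ℬ (n + 1)).S A := by
  refine mem_flS_succ ?_ fun i hi => ?_
  · cases n with
    | zero => exact zero_mem _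
    | succ n => exact h n rfl
  · cases i with
    | zero => rfl
    | succ i => rw [flSh_succ, (hc i).2 hi, map_zero]

/-- an element placed in one slot -/
noncomputable def flOne {A : Ob R} (j : ℕ) (c : Z.C A j) : (flP Z).F A :=
  Pi.single (M := fun i => Z.C A i) j c

theorem flOne_self {A : Ob R} (j : ℕ) (c : Z.C A j) : flOne j c j = c :=
  Pi.single_eq_same (M := fun i => Z.C A i) j c

theorem flOne_ne {A : Ob R} {i j : ℕ} (h : i ≠ j) (c : Z.C A j) : flOne j c i = 0 :=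
  Pi.single_eq_of_ne (M := fun i => Z.C A i) h c

theorem flOne_mem {𝒜 : ∀ j x, Submodule R ((Z.tw j).Stalk x)} {A : Ob R} {j : ℕ} {c : Z.C A j}
    (h : c ∈ KK (𝒜 j) A ⊤) : flOne j c ∈ (flS 𝒜 (j + 1)).S A :=
  mem_flS_succ (by rw [flOne_self]; exact h) fun i hi => flOne_ne hi c

/-- the retraction -/
noncomputable def flRho (Z : PSh R) : NT (flP Z).G (flP Z) where
  app A := AddMonoidHom.mk'
    (fun c j x y => (exists_ev (Z.tw j) x).choose ((flPr Z j).st x (c x y)))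
    (fun a b => funext fun j => funext fun x => funext fun y => by
      change (exists_ev (Z.tw j) x).choose ((flPr Z j).st x (a x y + b x y)) = _
      rw [map_add, map_add]
      rfl)
  nat _ _ := rfl

theorem flRho_apply {A : Ob R} (c : (flP Z).G.F A) (j : ℕ) (x : Pt R) (y : PtO A x) :
    (flRho Z).app A c j x y = (exists_ev (Z.tw j) x).choose ((flPr Z j).st x (c x y)) := rfl

theorem flEv_germ {A : Ob R} (z : (flP Z).F A) (j : ℕ) (x : Pt R) (y : PtO A x) :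
    (exists_ev (Z.tw j) x).choose ((flPr Z j).st x ((flP Z).germ y z)) = z j x y := by
  rw [NT.st_germ, (exists_ev (Z.tw j) x).choose_spec]
  rfl

theorem flRho_eta (A : Ob R) (z : (flP Z).F A) : (flRho Z).app A ((flP Z).eta A z) = z :=
  funext fun j => funext fun x => funext fun y => flEv_germ z j x y

theorem flRho_mem (𝒜 : ∀ j x, Submodule R ((Z.tw j).Stalk x)) (n : ℕ) (A : Ob R)
    (c : (flP Z).G.F A) (hc : c ∈ KK (flS 𝒜 n).st A ⊤) :
    (flRho Z).app A c ∈ (flS 𝒜 n).S A := by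
  intro i
  have key : ∀ (x : Pt R) (y : PtO A x), (flRho Z).app A c i x y ∈ 𝒜 i x ∧
      (i + 1 ≠ n → (flRho Z).app A c i x y = 0) := by
    intro x y
    rw [flRho_apply]
    rcases (hc x y).1 with h | ⟨B, y', z, hz, h⟩
    · rw [h, map_zero, map_zero]
      exact ⟨zero_mem _, fun _ => rfl⟩
    · rw [← h, flEv_germ]
      exact ⟨((hz i).1 x y').1, fun hi => by rw [(hz i).2 hi]; rfl⟩
  exact ⟨fun x y => ⟨(key x y).1, fun h => absurd h y.not_kills_top⟩,
    fun hi => funext fun x => funext fun y => (key x y).2 hi⟩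

theorem flSh_maps {𝒜 : ∀ j x, Submodule R ((Z.tw j).Stalk x)}
    (s𝒜 : ∀ A, Sc (Z.δ A) fun j => KK (𝒜 j) A ⊤) (n : ℕ) (A : Ob R) (z : (flP Z).F A)
    (hz : z ∈ (flS 𝒜 n).S A) : (flSh Z).app A z ∈ (flS 𝒜 (n + 1)).S A :=
  flSh_mem hz fun i _ => s𝒜 A i _ (hz i).1

theorem flSh_locMaps {𝒜 : ∀ j x, Submodule R ((Z.tw j).Stalk x)}
    (s𝒜 : ∀ A, Sc (Z.δ A) fun j => KK (𝒜 j) A ⊤) (n : ℕ) :
    LocMaps (fun _ => True) (flSh Z) (flS 𝒜 n) (flS 𝒜 (n + 1)) :=
  fun A _ z hz x y => ⟨A, Hom.id A, y, rfl, flSh_maps s𝒜 n A z hz⟩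

theorem fl_hex {𝒜 ℬ : ∀ j x, Submodule R ((Z.tw j).Stalk x)} {B : Ob R} {p : ℕ}
    {z : (flP Z).F B} (hz : z ∈ (flS 𝒜 (p + 1)).S B)
    (h : z p ∈ (KK (ℬ p) B ⊤ : Submodule R (Z.C B p)) ⊔
      Bd (Z.δ B) (fun j => KK (𝒜 j) B ⊤) ⊥ p) :
    ∃ z' ∈ (flS 𝒜 p).S B, z - (flSh Z).app B z' ∈ (flS ℬ (p + 1)).S B := by
  have hz0 : ∀ i, i ≠ p → z i = 0 := fun i hi => (hz i).2 fun e => hi (by omega)
  cases p with
  | zero =>
    refine ⟨0, zero_mem _, ?_⟩
    rw [map_zero, sub_zero]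
    rw [Bd_zero, sup_bot_eq] at h
    exact mem_flS_succ h hz0
  | succ q =>
    obtain ⟨t, ht, d, ⟨b, hb, rfl⟩, e⟩ := Submodule.mem_sup.1 h
    refine ⟨flOne q b, flOne_mem hb, mem_flS_succ ?_ fun i hi => ?_⟩
    · change z (q + 1) - Z.δ B q (flOne q b q) ∈ _
      rw [flOne_self, ← e, add_sub_cancel_right]
      exact ht
    · change z i - (flSh Z).app B (flOne q b) i = 0
      rw [hz0 i hi, zero_sub, neg_eq_zero]
      cases i with
      | zero => rfl
      | succ i => rw [flSh_succ, flOne_ne (fun e => hi (by rw [e])), map_zero]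

theorem flasque (Z : PSh R) (𝒜 ℬ : ∀ j x, Submodule R ((Z.tw j).Stalk x))
    (hle : ∀ j x, ℬ j x ≤ 𝒜 j x) (s𝒜 : ∀ A, Sc (Z.δ A) fun j => KK (𝒜 j) A ⊤)
    (sℬ : ∀ A, Sc (Z.δ A) fun j => KK (ℬ j) A ⊤)
    (hloc : ∀ (A : Ob R) (j : ℕ) (c : Z.C A j), c ∈ KK (𝒜 j) A ⊤ →
      Z.δ A j c ∈ KK (ℬ (j + 1)) A ⊤ → ∀ (x : Pt R) (y : PtO A x), y.Loc fun B φ =>
        Z.res φ j c ∈ (KK (ℬ j) B ⊤ : Submodule R (Z.C B j)) ⊔
          Bd (Z.δ B) (fun j => KK (𝒜 j) B ⊤) ⊥ j)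
    (A : Ob R) : RelEx (Z.δ A) (fun j => KK (ℬ j) A ⊤) (fun j => KK (𝒜 j) A ⊤) := by
  intro j c hc hδ
  have hN : ∀ n i, ∀ x ∈ (flS ℬ n).K A ⊤ i, (flSh Z).C A i x ∈ (flS ℬ (n + 1)).K A ⊤ i :=
    fun n i x hx => K_maps (flSh_maps sℬ n) ⊤ hx
  have hsp : ∀ n i, ∀ x ∈ (flS 𝒜 n).K A ⊤ i, (flP Z).δ A i x ∈ (flS ℬ n).K A ⊤ (i + 1) →
      ∃ z ∈ ((flS 𝒜 n).tw i).S A, x - ((flP Z).tw i).eta A z ∈ (flS ℬ n).K A ⊤ i :=
    fun n i x hx h => split_exact (flRho Z) flRho_eta (flS 𝒜 n) (flS ℬ n) (flS_le hle n)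
      (flRho_mem 𝒜 n) (flRho_mem ℬ n) A i hx h
  have hw : flOne j c ∈ (flS 𝒜 (j + 1)).S A := flOne_mem hc
  have hw' : (flSh Z).app A (flOne j c) ∈ (flS ℬ (j + 2)).S A :=
    flSh_mem hw fun i hi => by
      obtain rfl : i = j := by omega
      rw [flOne_self]; exact hδ
  obtain ⟨y, hy, hy1, hy2⟩ := dc_pair ((flP Z).δ A) (fun i => (flSh Z).C A i)
    (fun n => (flS 𝒜 n).K A ⊤) (fun n => (flS ℬ n).K A ⊤)
    (fun i x => (flSh Z).C_δ A i x)
    (fun i x => (C_comp (w := NT.zero _ _) (fun B z => flSh_sq B z) A i x).trans (C_zero A i x))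
    ((flP Z).sq_δ A) (fun n i => K_mono (flS_le hle n) A ⊤ i)
    (fun i => le_bot_iff.1 ((K_mono (T := Sub.bot _) (fun B z hz =>
      (Submodule.mem_bot R).2 (funext fun k => (hz k).2 (Nat.succ_ne_zero k))) A ⊤ i).trans
        (K_bot A ⊤ i).le))
    (fun n i x hx => K_maps (flSh_maps s𝒜 n) ⊤ hx) hN
    (fun n => K_sc _ A ⊤) (fun n => K_sc _ A ⊤)
    (fun n i x hx h => row_exact (𝒞 := fun _ => True) (fun _ _ _ _ => trivial)
      (fun _ => flSh Z) (fun _ B z => flSh_sq B z) (flS 𝒜) (flS ℬ) (flS_le hle)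
      (flSh_locMaps s𝒜) (flSh_locMaps sℬ)
      (fun p B _ z hz hz' x y => by
        obtain ⟨D, φ, y', e, h⟩ := hloc B p (z p) (hz p).1 (hz' (p + 1)).1 x y
        exact ⟨D, φ, y', e, fl_hex ((flS 𝒜 (p + 1)).mem φ z hz) h⟩)
      i n trivial ⊤ hx h)
    (fun n i x hx h => by
      obtain ⟨z, hz, h'⟩ := hsp n (i + 1) x hx h
      obtain ⟨b, hb, rfl⟩ := (Sub.mem_tw_succ _).1 hz
      exact ⟨b, hb, h'⟩)
    j (((flP Z).tw 0).eta A (flOne j c)) (eta_mem_K (j := 0) _ hw)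
    (by rw [PSh.δ_eta]; exact zero_mem _)
    (by
      rw [NT.C_eta]
      exact eta_mem_K (j := 0) _ hw')
  obtain ⟨z, hz, hz'⟩ := hsp j 0 y hy hy1
  have h3 := add_mem hy2 (hN j 0 _ hz')
  rw [map_sub, sub_add_sub_cancel, NT.C_eta, ← map_sub] at h3
  have h4 := flRho_mem ℬ (j + 1) A _ h3
  have h5 : flOne j c - (flSh Z).app A z ∈ (flS ℬ (j + 1)).S A := by
    rw [← flRho_eta A (flOne j c - (flSh Z).app A z)]
    exact h4
  have h6 : c - (flSh Z).app A z j ∈ KK (ℬ j) A ⊤ := by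
    have := (h5 j).1
    change flOne j c j - (flSh Z).app A z j ∈ _ at this
    rwa [flOne_self] at this
  refine Submodule.mem_sup.2 ⟨_, h6, (flSh Z).app A z j, ?_, sub_add_cancel _ _⟩
  cases j with
  | zero => exact zero_mem _
  | succ q => exact ⟨z q, (hz q).1, rfl⟩

end Pool.Agent.P.MP_824f38_ag.N
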