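import Pool.Agent.P.MP_824f38_ag.N.GBasic

/-! Galois covers outside a closed set. -/

set_option linter.unusedVariables false
set_option linter.unusedSectionVars false
set_option linter.style.haveILetI false
set_option linter.dupNamespace false

namespace Pool.Agent.P.MP_824f38_ag.N

variable {R : Type} [CommRing R] [Algebra ℂ R] [Algebra.FiniteType ℂ R] {Z Z' Z'' : PSh R}

/-- a Galois cover outside the zero set of `𝔥` -/
structure GalCov {A B : Ob R} (φ : Hom A B) {Γ : Type} [Group Γ] (ρ : Γ →* (B.A →ₐ[ℂ] B.A))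
    (𝔥 : Ideal A.A) (𝔥B : Ideal B.A) : Prop where
  fix : ∀ γ, (ρ γ).comp φ.f = φ.f
  kill : ∀ (x : Pt R) (y : PtO B x), y.Kills 𝔥B ↔ (y.pre φ).Kills 𝔥
  lift : ∀ (x : Pt R) (y : PtO A x), ¬ y.Kills 𝔥 → ∃ y' : PtO B x, y'.pre φ = y
  trans : ∀ (x : Pt R) (y y' : PtO B x), ¬ y.Kills 𝔥B → y.pre φ = y'.pre φ →
    ∃ γ, y'.y = y.y.comp (ρ γ)

variable {A B : Ob R} {φ : Hom A B} {Γ : Type} [Group Γ] [Finite Γ]
  {ρ : Γ →* (B.A →ₐ[ℂ] B.A)} {𝔥 : Ideal A.A} {𝔥B : Ideal B.A}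

/-- the action as a morphism of objects -/
def GalCov.act (H : GalCov φ ρ 𝔥 𝔥B) (γ : Γ) : Hom B B :=
  ⟨ρ γ, by rw [← φ.hf, ← AlgHom.comp_assoc, H.fix]⟩

theorem gal_inj (H : GalCov φ ρ 𝔥 𝔥B) (S : Sub Z) (j : ℕ) :
    ∀ c ∈ S.K A 𝔥 j, Z.res φ j c = 0 → c = 0 := by
  intro c hc h
  refine PSh.G_ext _ fun x y => ?_
  by_cases hy : y.Kills 𝔥
  · exact (S.mem_K.1 hc x y).2 hy
  obtain ⟨y', rfl⟩ := H.lift x y hy
  exact congrFun (congrFun h x) y'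

theorem gal_inv (H : GalCov φ ρ 𝔥 𝔥B) (S : Sub Z) (j : ℕ) :
    ∀ c ∈ S.K B 𝔥B j, (∀ γ, Z.res (H.act γ) j c = c) → ∃ b ∈ S.K A 𝔥 j, Z.res φ j b = c := by
  classical
  intro c hc h
  refine ⟨fun x y => if h : ∃ y' : PtO B x, y'.pre φ = y then c x h.choose else 0,
    S.mem_K.2 fun x y => ?_, PSh.G_ext _ fun x y => ?_⟩
  · by_cases e : ∃ y' : PtO B x, y'.pre φ = y
    · rw [dif_pos e]
      exact ⟨(S.mem_K.1 hc x _).1, fun hy => (S.mem_K.1 hc x _).2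
        ((H.kill x _).2 (by rw [e.choose_spec]; exact hy))⟩
    · rw [dif_neg e]
      exact ⟨zero_mem _, fun _ => rfl⟩
  · have e : ∃ y' : PtO B x, y'.pre φ = y.pre φ := ⟨y, rfl⟩
    rw [PSh.res_apply, dif_pos e]
    by_cases hy : y.Kills 𝔥B
    · rw [(S.mem_K.1 hc x y).2 hy, (S.mem_K.1 hc x _).2
        ((H.kill x _).2 (by rw [e.choose_spec]; exact (H.kill x y).1 hy))]
    · obtain ⟨γ, hγ⟩ := H.trans x y e.choose hy e.choose_spec.symm
      have e' : e.choose = y.pre (H.act γ) := PtO.ext hγ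
      rw [e']
      exact congrFun (congrFun (h γ) x) y

theorem gal_res_inv (H : GalCov φ ρ 𝔥 𝔥B) (j : ℕ) (c : Z.C A j) (γ : Γ) :
    Z.res (H.act γ) j (Z.res φ j c) = Z.res φ j c := by
  have e : (H.act γ).comp φ = φ := Hom.ext (H.fix γ)
  rw [PSh.res_res, e]

theorem gal_triv (H : GalCov φ ρ 𝔥 𝔥B) (S : Sub Z) (j : ℕ) {c : Z.C A (j + 1)}
    (hc : c ∈ S.K A 𝔥 (j + 1)) {b : Z.C B j} (hb : b ∈ S.K B 𝔥B j)
    (h : Z.δ B j b = Z.res φ (j + 1) c) : ∃ a ∈ S.K A 𝔥 j, Z.δ A j a = c := by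
  classical
  haveI := Fintype.ofFinite Γ
  have hcard : (algebraMap ℂ R (Fintype.card Γ : ℂ)⁻¹) * (Fintype.card Γ : R) = 1 := by
    rw [← map_natCast (algebraMap ℂ R), ← map_mul,
      inv_mul_cancel₀ (Nat.cast_ne_zero.2 Fintype.card_ne_zero), map_one]
  have hmul : ∀ γ γ' : Γ, (H.act γ).comp (H.act γ') = H.act (γ * γ') := fun γ γ' =>
    Hom.ext (map_mul ρ γ γ').symm
  have hmem : ∀ γ, Z.res (H.act γ) j b ∈ S.K B 𝔥B j := fun γ =>
    K_res S (H.act γ) (fun x y hy => (H.kill x _).2 (by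
      have e : (H.act γ).comp φ = φ := Hom.ext (H.fix γ)
      rw [← PtO.pre_comp, e]
      exact (H.kill x y).1 hy)) hb
  obtain ⟨a, ha, e⟩ := gal_inv H S j
    (algebraMap ℂ R (Fintype.card Γ : ℂ)⁻¹ • ∑ γ, Z.res (H.act γ) j b)
    (Submodule.smul_mem _ _ (Submodule.sum_mem _ fun γ _ => hmem γ)) fun γ => by
      rw [map_smul, map_sum]
      refine congrArg _ (Fintype.sum_equiv (Equiv.mulLeft γ) _ _ fun γ' => ?_)
      rw [PSh.res_res, hmul]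
      rfl
  refine ⟨a, ha, sub_eq_zero.1 (gal_inj H S (j + 1) _ (sub_mem (K_sc S A 𝔥 j a ha) hc) ?_)⟩
  rw [map_sub, PSh.res_δ, e, map_smul, map_sum, sub_eq_zero,
    Finset.sum_congr rfl (g := fun _ => Z.res φ (j + 1) c) fun γ _ => by
      rw [← PSh.res_δ, h, gal_res_inv], Finset.sum_const, Finset.card_univ,
    ← Nat.cast_smul_eq_nsmul R, smul_smul, hcard, one_smul]

end Pool.Agent.P.MP_824f38_ag.N
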