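import Pool.Agent.P.MP_824f38_ag.N.GBasic

/-! Closed subsets and Mayer-Vietoris squares. -/

set_option linter.unusedVariables false
set_option linter.unusedSectionVars false
set_option linter.style.haveILetI false
set_option linter.dupNamespace false

namespace Pool.Agent.P.MP_824f38_ag.N

variable {R : Type} [CommRing R] [Algebra ℂ R] [Algebra.FiniteType ℂ R] {Z Z' Z'' : PSh R}

theorem gpair_ext (S : Sub Z) {A B : Ob R} (φ : Hom A B) {𝔥 : Ideal A.A} {𝔥B : Ideal B.A}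
    (hk : ∀ (x : Pt R) (y : PtO B x), (y.pre φ).Kills 𝔥 → y.Kills 𝔥B) {j : ℕ} {c : Z.C B j}
    (hc : c ∈ S.K B 𝔥B j)
    (h : ∀ (x : Pt R) (y y' : PtO B x), y.pre φ = y'.pre φ → c x y = c x y') :
    ∃ b ∈ S.K A 𝔥 j, Z.res φ j b = c := by
  classical
  refine ⟨fun x y => if h : ∃ y' : PtO B x, y'.pre φ = y then c x h.choose else 0,
    S.mem_K.2 fun x y => ?_, PSh.G_ext _ fun x y => ?_⟩
  · by_cases e : ∃ y' : PtO B x, y'.pre φ = y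
    · rw [dif_pos e]
      exact ⟨(S.mem_K.1 hc x _).1, fun hy => (S.mem_K.1 hc x _).2
        (hk x _ (by rw [e.choose_spec]; exact hy))⟩
    · rw [dif_neg e]
      exact ⟨zero_mem _, fun _ => rfl⟩
  · have e : ∃ y' : PtO B x, y'.pre φ = y.pre φ := ⟨y, rfl⟩
    rw [PSh.res_apply, dif_pos e]
    exact h x _ _ e.choose_spec

theorem gpair_inj {A B : Ob R} (φ : Hom A B) (hφ : Function.Surjective φ.f) {x : Pt R}
    {y y' : PtO B x} (e : y.pre φ = y'.pre φ) : y = y' :=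
  PtO.ext (AlgHom.ext fun b => by
    obtain ⟨a, rfl⟩ := hφ b
    exact DFunLike.congr_fun (congrArg PtO.y e) a)

theorem gpair_lift {A B : Ob R} (φ : Hom A B) (hφ : Function.Surjective φ.f) {x : Pt R}
    {y : PtO A x} (h : y.Kills (RingHom.ker φ.f)) : ∃ y' : PtO B x, y'.pre φ = y := by
  have e : ((Ideal.Quotient.liftₐ (RingHom.ker φ.f) y.y h).comp
      (Ideal.quotientKerAlgEquivOfSurjective hφ).symm.toAlgHom).comp φ.f = y.y := by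
    ext a
    have : (Ideal.quotientKerAlgEquivOfSurjective hφ).symm (φ.f a) = Ideal.Quotient.mk _ a := by
      rw [AlgEquiv.symm_apply_eq]; rfl
    change Ideal.Quotient.liftₐ (RingHom.ker φ.f) y.y h
      ((Ideal.quotientKerAlgEquivOfSurjective hφ).symm (φ.f a)) = _
    rw [this]
    rfl
  obtain ⟨g, hg⟩ : ∃ g : B.A →ₐ[ℂ] x.V, g.comp φ.f = y.y := ⟨_, e⟩
  exact ⟨⟨g, by rw [← φ.hf, ← AlgHom.comp_assoc, hg, y.hy]⟩, PtO.ext hg⟩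

theorem pair_ses (S : Sub Z) {A B : Ob R} (φ : Hom A B) (hφ : Function.Surjective φ.f)
    {𝔥 𝔥' : Ideal A.A} {𝔥B : Ideal B.A}
    (h1 : ∀ (x : Pt R) (y : PtO A x), y.Kills 𝔥' ↔ y.Kills 𝔥 ∨ y.Kills (RingHom.ker φ.f))
    (h2 : ∀ (x : Pt R) (y : PtO B x), y.Kills 𝔥B ↔ (y.pre φ).Kills 𝔥) :
    SES (Z.δ A) (Z.δ B) (Z.res φ) (S.K A 𝔥') (S.K A 𝔥) (S.K B 𝔥B) := by
  refine ⟨fun j c => Z.res_δ φ j c, fun j c hc => K_res S φ (fun x y => (h2 x y).1) hc,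
    fun j c hc => gpair_ext S φ (fun x y => (h2 x y).2) hc fun x y y' e => by
      rw [gpair_inj φ hφ e], fun j c => ⟨fun hc => ⟨K_anti S (fun x y hy => (h1 x y).2 (Or.inl hy)) j hc,
      PSh.G_ext _ fun x y => ?_⟩, fun hc => S.mem_K.2 fun x y => ⟨(S.mem_K.1 hc.1 x y).1, fun hy => ?_⟩⟩⟩
  · refine (S.mem_K.1 hc x _).2 ((h1 x _).2 (Or.inr fun a ha => ?_))
    change y.y (φ.f a) = 0
    rw [(RingHom.mem_ker).1 ha, map_zero]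
  · rcases (h1 x y).1 hy with hy | hy
    · exact (S.mem_K.1 hc.1 x y).2 hy
    · obtain ⟨y', rfl⟩ := gpair_lift φ hφ hy
      exact congrFun (congrFun hc.2 x) y'

/-- a square that is a cover by two open sets outside the zero set of `𝔥` -/
structure MVSq {A U1 U2 U12 : Ob R} (f1 : Hom A U1) (f2 : Hom A U2) (g1 : Hom U1 U12)
    (g2 : Hom U2 U12) (𝔥 : Ideal A.A) (𝔥1 : Ideal U1.A) (𝔥2 : Ideal U2.A) (𝔥12 : Ideal U12.A) :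
    Prop where
  sq : g1.comp f1 = g2.comp f2
  k1 : ∀ (x : Pt R) (y : PtO U1 x), y.Kills 𝔥1 ↔ (y.pre f1).Kills 𝔥
  k2 : ∀ (x : Pt R) (y : PtO U2 x), y.Kills 𝔥2 ↔ (y.pre f2).Kills 𝔥
  k12 : ∀ (x : Pt R) (y : PtO U12 x), y.Kills 𝔥12 ↔ (y.pre g1).Kills 𝔥1
  u1 : ∀ (x : Pt R) (y y' : PtO U1 x), ¬ y.Kills 𝔥1 → y.pre f1 = y'.pre f1 → y = y'
  u2 : ∀ (x : Pt R) (y y' : PtO U2 x), ¬ y.Kills 𝔥2 → y.pre f2 = y'.pre f2 → y = y'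
  u12 : ∀ (x : Pt R) (y y' : PtO U12 x), y.pre g1 = y'.pre g1 → y = y'
  cov : ∀ (x : Pt R) (y : PtO A x), ¬ y.Kills 𝔥 →
    (∃ y1 : PtO U1 x, y1.pre f1 = y) ∨ ∃ y2 : PtO U2 x, y2.pre f2 = y
  both : ∀ (x : Pt R) (y1 : PtO U1 x) (y2 : PtO U2 x), ¬ y1.Kills 𝔥1 → y1.pre f1 = y2.pre f2 →
    ∃ y : PtO U12 x, y.pre g1 = y1 ∧ y.pre g2 = y2

variable {A U1 U2 U12 : Ob R} {f1 : Hom A U1} {f2 : Hom A U2} {g1 : Hom U1 U12}
  {g2 : Hom U2 U12} {𝔥 : Ideal A.A} {𝔥1 : Ideal U1.A} {𝔥2 : Ideal U2.A} {𝔥12 : Ideal U12.A}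

theorem mv_inj (H : MVSq f1 f2 g1 g2 𝔥 𝔥1 𝔥2 𝔥12) (S : Sub Z) (j : ℕ) :
    ∀ c ∈ S.K A 𝔥 j, Z.res f1 j c = 0 → Z.res f2 j c = 0 → c = 0 := by
  intro c hc h1 h2
  refine PSh.G_ext _ fun x y => ?_
  by_cases hy : y.Kills 𝔥
  · exact (S.mem_K.1 hc x y).2 hy
  rcases H.cov x y hy with ⟨y', rfl⟩ | ⟨y', rfl⟩
  · exact congrFun (congrFun h1 x) y'
  · exact congrFun (congrFun h2 x) y'

theorem mv_glue (H : MVSq f1 f2 g1 g2 𝔥 𝔥1 𝔥2 𝔥12) (S : Sub Z) (j : ℕ) :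
    ∀ a ∈ S.K U1 𝔥1 j, ∀ b ∈ S.K U2 𝔥2 j, Z.res g1 j a = Z.res g2 j b →
      ∃ c ∈ S.K A 𝔥 j, Z.res f1 j c = a ∧ Z.res f2 j c = b := by
  classical
  intro a ha b hb e
  obtain ⟨a', ha', ea⟩ := gpair_ext S f1 (fun x y => (H.k1 x y).2) ha fun x y y' h => by
    by_cases hy : y.Kills 𝔥1
    · rw [(S.mem_K.1 ha x y).2 hy, (S.mem_K.1 ha x y').2
        ((H.k1 x y').2 (h ▸ (H.k1 x y).1 hy))]
    · rw [H.u1 x y y' hy h]
  obtain ⟨b', hb', eb⟩ := gpair_ext S f2 (fun x y => (H.k2 x y).2) hb fun x y y' h => by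
    by_cases hy : y.Kills 𝔥2
    · rw [(S.mem_K.1 hb x y).2 hy, (S.mem_K.1 hb x y').2
        ((H.k2 x y').2 (h ▸ (H.k2 x y).1 hy))]
    · rw [H.u2 x y y' hy h]
  refine ⟨fun x y => if ∃ y1 : PtO U1 x, y1.pre f1 = y then a' x y else b' x y,
    S.mem_K.2 fun x y => ?_, PSh.G_ext _ fun x y => ?_, PSh.G_ext _ fun x y => ?_⟩
  · by_cases h : ∃ y1 : PtO U1 x, y1.pre f1 = y
    · rw [if_pos h]; exact S.mem_K.1 ha' x y
    · rw [if_neg h]; exact S.mem_K.1 hb' x y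
  · rw [PSh.res_apply, if_pos ⟨y, rfl⟩]
    exact congrFun (congrFun ea x) y
  · rw [PSh.res_apply]
    by_cases h : ∃ y1 : PtO U1 x, y1.pre f1 = y.pre f2
    · rw [if_pos h]
      obtain ⟨y1, h⟩ := h
      rw [← h]
      refine (congrFun (congrFun ea x) y1).trans ?_
      by_cases hy : y1.Kills 𝔥1
      · rw [(S.mem_K.1 ha x y1).2 hy, (S.mem_K.1 hb x y).2
          ((H.k2 x y).2 (h ▸ (H.k1 x y1).1 hy))]
      · obtain ⟨y12, rfl, rfl⟩ := H.both x y1 y hy h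
        exact congrFun (congrFun e x) y12
    · rw [if_neg h]
      exact congrFun (congrFun eb x) y

theorem mv_surj (H : MVSq f1 f2 g1 g2 𝔥 𝔥1 𝔥2 𝔥12) (S : Sub Z) (j : ℕ) :
    ∀ c ∈ S.K U12 𝔥12 j, ∃ a ∈ S.K U1 𝔥1 j, ∃ b ∈ S.K U2 𝔥2 j,
      c = Z.res g1 j a - Z.res g2 j b := by
  intro c hc
  obtain ⟨a, ha, e⟩ := gpair_ext S g1 (fun x y => (H.k12 x y).2) hc fun x y y' h => by
    rw [H.u12 x y y' h]
  exact ⟨a, ha, 0, zero_mem _, by rw [e, map_zero, sub_zero]⟩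

theorem mv_mem1 (H : MVSq f1 f2 g1 g2 𝔥 𝔥1 𝔥2 𝔥12) (S : Sub Z) (j : ℕ) :
    ∀ c ∈ S.K U1 𝔥1 j, Z.res g1 j c ∈ S.K U12 𝔥12 j := by
  exact fun c hc => K_res S g1 (fun x y => (H.k12 x y).1) hc

theorem mv_mem2 (H : MVSq f1 f2 g1 g2 𝔥 𝔥1 𝔥2 𝔥12) (S : Sub Z) (j : ℕ) :
    ∀ c ∈ S.K U2 𝔥2 j, Z.res g2 j c ∈ S.K U12 𝔥12 j := by
  refine fun c hc => K_res S g2 (fun x y hy => (H.k2 x _).2 ?_) hc
  rw [← PtO.pre_comp, ← H.sq, PtO.pre_comp]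
  exact (H.k1 x _).1 ((H.k12 x y).1 hy)

end Pool.Agent.P.MP_824f38_ag.N
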