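import Pool.Agent.P.MP_824f38_ag.N.GNt

/-! Row NEC-GSplit: presheaves with a retraction of eta are acyclic

Key step: if ρ : NT Z.G Z is a retraction of η that maps KK S.st A ⊤ into S.S A, then Z.Q has one too. Let σ : NT Z.Q Z.G,
[c] ↦ c - η (ρ c), and μ : NT Z.G.G Z.G, (μ c) x y = ev (c x y), where ev : Z.G.Stalk x →+ Z.Stalk x sends the germ at y' of b
to b x y' (construct it as NT.exists_st, or from Module.DirectLimit.lift). Put ρ' = cls ∘ μ ∘ σ.G. It maps KK S.Q.st A ⊤ into S.Q.S A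
(one retraction serves both S and T). So all Z.tw j have retractions ρ j. If δ c in T.K (i+1) then cl c = ρ (δ c) lies in
(T.tw (i+1)).S A, so c = t + η z, and z = ρ (c - t) lies in (S.tw i).S A. -/

set_option linter.unusedVariables false
set_option linter.unusedSectionVars false
set_option linter.style.haveILetI false
set_option linter.dupNamespace false

namespace Pool.Agent.P.MP_824f38_ag.N

variable {R : Type} [CommRing R] [Algebra ℂ R] [Algebra.FiniteType ℂ R] {Z Z' Z'' : PSh R}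

/-- evaluation of germs of discontinuous sections -/
theorem exists_ev (Z : PSh R) (x : Pt R) : ∃ ev : Z.G.Stalk x →ₗ[R] Z.Stalk x,
    ∀ (A : Ob R) (y : PtO A x) (b : Z.G.F A), ev (Z.G.germ y b) = b x y := by
  let g : ∀ i : Idx x, Z.G.F i.ob →ₗ[R] Z.Stalk x := fun i =>
    { toFun := fun b => b x i.pt
      map_add' := fun _ _ => rfl
      map_smul' := fun _ _ => rfl }
  refine ⟨Module.DirectLimit.lift R (Idx x) (fun i : Idx x => Z.G.F i.ob)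
    (fun i j h => Z.G.map (Idx.inc h)) g (fun i j h b => rfl), fun A y b => ?_⟩
  exact Module.DirectLimit.lift_of g (fun i j h b => rfl) (Z.G.map y.toIdx b)

theorem sp_st_mono {S T : Sub Z} (h : ∀ A, T.S A ≤ S.S A) (x : Pt R) : T.st x ≤ S.st x := by
  rintro s (rfl | ⟨A, y, z, hz, rfl⟩)
  · exact zero_mem _
  · exact S.germ_mem y (h A hz)

theorem sp_KK_mono {S T : Sub Z} (h : ∀ A, T.S A ≤ S.S A) (A : Ob R) :
    KK T.st A ⊤ ≤ KK S.st A ⊤ :=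
  fun c hc x y => ⟨sp_st_mono h x (hc x y).1, (hc x y).2⟩

theorem sp_tw_mono {S T : Sub Z} (h : ∀ A, T.S A ≤ S.S A) (j : ℕ) :
    ∀ A, (T.tw j).S A ≤ (S.tw j).S A := by
  induction j with
  | zero => exact h
  | succ j ih => exact fun A => Submodule.map_mono (sp_KK_mono ih A)

/-- the section of the projection to the cokernel given by a retraction -/
noncomputable def spSec (ρ : NT Z.G Z) (hρ : ∀ A z, ρ.app A (Z.eta A z) = z) : NT Z.Q Z.G where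
  app A := QuotientAddGroup.lift (LinearMap.range (Z.eta A)).toAddSubgroup
    (AddMonoidHom.id _ - (Z.eta A).toAddMonoidHom.comp (ρ.app A)) (by
      rintro _ ⟨z, rfl⟩
      change Z.eta A z - Z.eta A (ρ.app A (Z.eta A z)) = 0
      rw [hρ, sub_self])
  nat {A B} φ z := by
    obtain ⟨c, rfl⟩ := Z.cls_surj _ z
    change Z.G.map φ c - Z.eta B (ρ.app B (Z.G.map φ c)) =
      Z.G.map φ (c - Z.eta A (ρ.app A c))
    rw [map_sub, Z.map_eta, ρ.nat]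

theorem spSec_cls (ρ : NT Z.G Z) (hρ : ∀ A z, ρ.app A (Z.eta A z) = z) (A : Ob R) (c : Z.G.F A) :
    (spSec ρ hρ).app A (Z.cls A c) = c - Z.eta A (ρ.app A c) := rfl

theorem sp_step (ρ : NT Z.G Z) (hρ : ∀ A z, ρ.app A (Z.eta A z) = z) :
    ∃ ρ' : NT Z.Q.G Z.Q, (∀ A z, ρ'.app A (Z.Q.eta A z) = z) ∧
      ∀ S : Sub Z, (∀ A, ∀ c ∈ KK S.st A ⊤, ρ.app A c ∈ S.S A) →
        ∀ A, ∀ c ∈ KK S.Q.st A ⊤, ρ'.app A c ∈ S.Q.S A := by
  choose ev hev using exists_ev Z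
  let μ : ∀ A, Z.Q.G.F A →+ Z.G.F A := fun A =>
    AddMonoidHom.mk' (fun c x y => ev x ((spSec ρ hρ).st x (c x y)))
      (fun a b => funext fun x => funext fun y =>
        (congrArg (ev x) (map_add ((spSec ρ hρ).st x) (a x y) (b x y))).trans (map_add (ev x) _ _))
  have hμ : ∀ A c x y, μ A c x y = ev x ((spSec ρ hρ).st x (c x y)) := fun _ _ _ _ => rfl
  refine ⟨⟨fun A => (Z.cls A).toAddMonoidHom.comp (μ A), fun φ z => rfl⟩, fun A z => ?_,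
    fun S hS A c hc => ?_⟩
  · obtain ⟨c, rfl⟩ := Z.cls_surj _ z
    have e : μ A (Z.Q.eta A (Z.cls A c)) = c - Z.eta A (ρ.app A c) := Z.G_ext fun x y => by
      rw [hμ, PSh.eta_apply, NT.st_germ, hev, spSec_cls]
    change Z.cls A (μ A (Z.Q.eta A (Z.cls A c))) = _
    rw [e, map_sub, Z.cls_eq_zero.2 ⟨ρ.app A c, rfl⟩, sub_zero]
  · refine ⟨μ A c, fun x y => ⟨?_, fun h => absurd h y.not_kills_top⟩, rfl⟩
    rw [hμ]
    rcases (hc x y).1 with e | ⟨B, y', _, ⟨b, hb, rfl⟩, e⟩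
    · rw [e, map_zero, map_zero]; exact zero_mem _
    · rw [← e, NT.st_germ, hev, spSec_cls, PSh.G_sub, PSh.eta_apply]
      exact sub_mem (hb x y').1 (S.germ_mem y' (hS B b hb))

theorem sp_tw (ρ : NT Z.G Z) (hρ : ∀ A z, ρ.app A (Z.eta A z) = z) (j : ℕ) :
    ∃ ρ' : NT (Z.tw j).G (Z.tw j), (∀ A z, ρ'.app A ((Z.tw j).eta A z) = z) ∧
      ∀ S : Sub Z, (∀ A, ∀ c ∈ KK S.st A ⊤, ρ.app A c ∈ S.S A) →
        ∀ A, ∀ c ∈ KK (S.tw j).st A ⊤, ρ'.app A c ∈ (S.tw j).S A := by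
  induction j with
  | zero => exact ⟨ρ, hρ, fun S hS => hS⟩
  | succ j ih =>
    obtain ⟨ρ1, h1, h2⟩ := ih
    obtain ⟨ρ2, h3, h4⟩ := sp_step ρ1 h1
    exact ⟨ρ2, h3, fun S hS => h4 (S.tw j) (h2 S hS)⟩

theorem split_exact (ρ : NT Z.G Z) (hρ : ∀ A z, ρ.app A (Z.eta A z) = z) (S T : Sub Z)
    (hTS : ∀ A, T.S A ≤ S.S A) (hS : ∀ A, ∀ c ∈ KK S.st A ⊤, ρ.app A c ∈ S.S A)
    (hT : ∀ A, ∀ c ∈ KK T.st A ⊤, ρ.app A c ∈ T.S A) (A : Ob R) (i : ℕ) {c : Z.C A i}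
    (hc : c ∈ S.K A ⊤ i) (h : Z.δ A i c ∈ T.K A ⊤ (i + 1)) :
    ∃ z ∈ (S.tw i).S A, c - (Z.tw i).eta A z ∈ T.K A ⊤ i := by
  obtain ⟨ρ0, a0, b0⟩ := sp_tw ρ hρ i
  obtain ⟨ρ1, a1, b1⟩ := sp_tw ρ hρ (i + 1)
  have h1 := b1 T hT A _ h
  rw [Z.δ_apply, a1] at h1
  obtain ⟨t, ht, e⟩ := T.mem_tw_succ.1 h1
  obtain ⟨z, hz⟩ := (Z.cl_eq_zero (c := c - t)).1 (by rw [map_sub, e, sub_self])
  refine ⟨z, ?_, by rw [hz, sub_sub_cancel]; exact ht⟩
  rw [← a0 A z, hz]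
  exact b0 S hS A _ (sub_mem hc (sp_KK_mono (sp_tw_mono hTS i) A ht))

end Pool.Agent.P.MP_824f38_ag.N
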