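import Pool.Agent.P.MP_824f38_ag.N.Alg

/-! The Godement resolution of a presheaf on finitely generated algebras, with respect to the
points given by valuation rings in which every element has all roots. -/

set_option linter.unusedVariables false
set_option linter.unusedSectionVars false
set_option linter.style.haveILetI false

namespace Pool.Agent.P.MP_824f38_ag.N

/-- finitely generated complex algebras under `R` -/
structure Ob (R : Type) [CommRing R] [Algebra ℂ R] : Type 1 where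
  A : Type
  [ring : CommRing A]
  [alg : Algebra ℂ A]
  ft : Algebra.FiniteType ℂ A
  str : R →ₐ[ℂ] A

attribute [instance] Ob.ring Ob.alg Ob.ft

/-- every element has all roots -/
def RootClosed (V : Type) [CommRing V] : Prop := ∀ (v : V) (M : ℕ), 0 < M → ∃ z : V, z ^ M = v

/-- points: root closed valuation rings under `R` -/
structure Pt (R : Type) [CommRing R] [Algebra ℂ R] : Type 1 where
  V : Type
  [ring : CommRing V]
  [dom : IsDomain V]
  [val : ValuationRing V]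
  [alg : Algebra ℂ V]
  root : RootClosed V
  x : R →ₐ[ℂ] V

attribute [instance] Pt.ring Pt.dom Pt.val Pt.alg

variable {R : Type} [CommRing R] [Algebra ℂ R]

/-- morphisms under `R` -/
@[ext] structure Hom (A B : Ob R) : Type where
  f : A.A →ₐ[ℂ] B.A
  hf : f.comp A.str = B.str

/-- the identity -/
def Hom.id (A : Ob R) : Hom A A := ⟨AlgHom.id ℂ _, rfl⟩

/-- composition -/
def Hom.comp {A B C : Ob R} (ψ : Hom B C) (φ : Hom A B) : Hom A C :=
  ⟨ψ.f.comp φ.f, by rw [AlgHom.comp_assoc, φ.hf, ψ.hf]⟩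

theorem Hom.str_apply {A B : Ob R} (φ : Hom A B) (r : R) : φ.f (A.str r) = B.str r :=
  DFunLike.congr_fun φ.hf r

/-- the object given by an algebra under `A` -/
@[reducible] def Ob.ext (A : Ob R) (B : Type) [CommRing B] [Algebra ℂ B] (hB : Algebra.FiniteType ℂ B)
    (φ : A.A →ₐ[ℂ] B) : Ob R := ⟨B, hB, φ.comp A.str⟩

/-- the morphism to `A.ext B hB φ` -/
def Ob.toExt (A : Ob R) (B : Type) [CommRing B] [Algebra ℂ B] (hB : Algebra.FiniteType ℂ B)
    (φ : A.A →ₐ[ℂ] B) : Hom A (A.ext B hB φ) := ⟨φ, rfl⟩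

/-- the quotient by an ideal -/
@[reducible] def Ob.quo (A : Ob R) (𝔞 : Ideal A.A) : Ob R :=
  A.ext (A.A ⧸ 𝔞) (Algebra.FiniteType.of_surjective (Ideal.Quotient.mkₐ ℂ 𝔞)
    (Ideal.Quotient.mkₐ_surjective ℂ 𝔞)) (Ideal.Quotient.mkₐ ℂ 𝔞)

/-- the quotient morphism -/
def Ob.toQuo (A : Ob R) (𝔞 : Ideal A.A) : Hom A (A.quo 𝔞) := ⟨Ideal.Quotient.mkₐ ℂ 𝔞, rfl⟩

/-- the object `R` -/
@[reducible] def Ob.self (R : Type) [CommRing R] [Algebra ℂ R] [h : Algebra.FiniteType ℂ R] : Ob R :=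
  ⟨R, h, AlgHom.id ℂ R⟩

/-- points of `A` over the point `x` -/
@[ext] structure PtO (A : Ob R) (x : Pt R) : Type where
  y : A.A →ₐ[ℂ] x.V
  hy : y.comp A.str = x.x

/-- the image of a point -/
def PtO.pre {A B : Ob R} {x : Pt R} (φ : Hom A B) (y : PtO B x) : PtO A x :=
  ⟨y.y.comp φ.f, by rw [AlgHom.comp_assoc, φ.hf, y.hy]⟩

@[simp] theorem PtO.pre_id {A : Ob R} {x : Pt R} (y : PtO A x) : y.pre (Hom.id A) = y := rfl

theorem PtO.pre_comp {A B C : Ob R} {x : Pt R} (ψ : Hom B C) (φ : Hom A B) (y : PtO C x) :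
    y.pre (ψ.comp φ) = (y.pre ψ).pre φ := rfl

/-- the point lies in the zero set of the ideal -/
def PtO.Kills {A : Ob R} {x : Pt R} (y : PtO A x) (𝔥 : Ideal A.A) : Prop := ∀ a ∈ 𝔥, y.y a = 0

/-- `P` holds in a neighbourhood of the point `y` -/
def PtO.Loc {A : Ob R} {x : Pt R} (y : PtO A x) (P : ∀ B : Ob R, Hom A B → Prop) : Prop :=
  ∃ (B : Ob R) (φ : Hom A B) (y' : PtO B x), y'.pre φ = y ∧ P B φ

/-- presheaves of `R`-modules -/
structure PSh (R : Type) [CommRing R] [Algebra ℂ R] : Type 2 where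
  F : Ob R → Type 1
  [grp : ∀ A, AddCommGroup (F A)]
  [mod : ∀ A, Module R (F A)]
  map : ∀ {A B : Ob R}, Hom A B → F A →ₗ[R] F B
  map_id : ∀ A z, map (Hom.id A) z = z
  map_comp : ∀ {A B C : Ob R} (ψ : Hom B C) (φ : Hom A B) z, map (ψ.comp φ) z = map ψ (map φ z)

attribute [instance] PSh.grp PSh.mod

/-- finitely generated subalgebras of the point -/
def Idx (x : Pt R) : Type := {B : Subalgebra ℂ x.V // B.FG ∧ ∀ r, x.x r ∈ B}

instance (x : Pt R) : PartialOrder (Idx x) := Subtype.partialOrder _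

noncomputable instance (x : Pt R) : DecidableEq (Idx x) := Classical.decEq _

instance (x : Pt R) : IsDirectedOrder (Idx x) :=
  ⟨fun a b => ⟨⟨a.1 ⊔ b.1, a.2.1.sup b.2.1, fun r => le_sup_left (a := a.1) (a.2.2 r)⟩,
    (le_sup_left : a.1 ≤ a.1 ⊔ b.1), (le_sup_right : b.1 ≤ a.1 ⊔ b.1)⟩⟩

/-- the object of a subalgebra -/
@[reducible] def Idx.ob {x : Pt R} (i : Idx x) : Ob R :=
  ⟨i.1, (Subalgebra.fg_iff_finiteType _).1 i.2.1, x.x.codRestrict i.1 i.2.2⟩

/-- the inclusion of subalgebras -/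
def Idx.inc {x : Pt R} {i j : Idx x} (h : i ≤ j) : Hom i.ob j.ob :=
  ⟨Subalgebra.inclusion h, rfl⟩

/-- the tautological point -/
def Idx.pt {x : Pt R} (i : Idx x) : PtO i.ob x := ⟨i.1.val, rfl⟩

/-- the image of a point -/
def PtO.idx {A : Ob R} {x : Pt R} (y : PtO A x) : Idx x :=
  ⟨y.y.range, by
    rw [← Algebra.map_top]; exact Subalgebra.FG.map _ A.ft.out,
    fun r => ⟨A.str r, DFunLike.congr_fun y.hy r⟩⟩

/-- the morphism onto the image of a point -/
def PtO.toIdx {A : Ob R} {x : Pt R} (y : PtO A x) : Hom A y.idx.ob :=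
  ⟨y.y.rangeRestrict, AlgHom.ext fun r => Subtype.ext (DFunLike.congr_fun y.hy r)⟩

theorem PtO.pt_pre {A : Ob R} {x : Pt R} (y : PtO A x) : y.idx.pt.pre y.toIdx = y := rfl

instance [h : Algebra.FiniteType ℂ R] (x : Pt R) : Nonempty (Idx x) :=
  ⟨PtO.idx (A := Ob.self R) ⟨x.x, rfl⟩⟩

namespace PSh

variable (Z : PSh R)

instance (x : Pt R) : DirectedSystem (fun i : Idx x => Z.F i.ob)
    (fun i j h => Z.map (Idx.inc h)) :=
  ⟨fun i z => Z.map_id _ z, fun i j k h h' z => (Z.map_comp (Idx.inc h') (Idx.inc h) z).symm⟩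

/-- the stalk at a point -/
def Stalk (x : Pt R) : Type 1 :=
  Module.DirectLimit (R := R) (fun i : Idx x => Z.F i.ob) (fun i j h => Z.map (Idx.inc h))

noncomputable instance (x : Pt R) : AddCommGroup (Z.Stalk x) :=
  Module.DirectLimit.addCommGroup _ _

noncomputable instance (x : Pt R) : Module R (Z.Stalk x) := Module.DirectLimit.module _ _

/-- the germ of a section over a subalgebra -/
noncomputable def ofI {x : Pt R} (i : Idx x) : Z.F i.ob →ₗ[R] Z.Stalk x :=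
  Module.DirectLimit.of R (Idx x) (fun i : Idx x => Z.F i.ob) (fun i j h => Z.map (Idx.inc h)) i

theorem ofI_inc {x : Pt R} {i j : Idx x} (h : i ≤ j) (z : Z.F i.ob) :
    Z.ofI j (Z.map (Idx.inc h) z) = Z.ofI i z := Module.DirectLimit.of_f

/-- the germ of a section at a point -/
noncomputable def germ {A : Ob R} {x : Pt R} (y : PtO A x) : Z.F A →ₗ[R] Z.Stalk x :=
  (Z.ofI y.idx).comp (Z.map y.toIdx)

theorem germ_map {A B : Ob R} {x : Pt R} (φ : Hom A B) (y : PtO B x) (z : Z.F A) :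
    Z.germ y (Z.map φ z) = Z.germ (y.pre φ) z := by
  have h : (y.pre φ).idx ≤ y.idx := by
    rintro _ ⟨a, rfl⟩; exact ⟨φ.f a, rfl⟩
  simp only [germ, LinearMap.comp_apply]
  rw [← Z.ofI_inc h, ← Z.map_comp, ← Z.map_comp]
  rfl

theorem germ_pt {x : Pt R} (i : Idx x) (z : Z.F i.ob) : Z.germ i.pt z = Z.ofI i z := by
  have h : i ≤ i.pt.idx := fun a ha => ⟨⟨a, ha⟩, rfl⟩
  rw [← Z.ofI_inc h]
  rfl

theorem germ_surj [Algebra.FiniteType ℂ R] {x : Pt R} (s : Z.Stalk x) :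
    ∃ (i : Idx x) (z : Z.F i.ob), Z.germ i.pt z = s := by
  obtain ⟨i, z, h⟩ := Module.DirectLimit.exists_of s
  exact ⟨i, z, (Z.germ_pt i z).trans h⟩

theorem germ_eq_zero {A : Ob R} {x : Pt R} {y : PtO A x} {z : Z.F A} :
    Z.germ y z = 0 ↔ y.Loc fun B φ => Z.map φ z = 0 := by
  constructor
  · intro h
    haveI : Nonempty (Idx x) := ⟨y.idx⟩
    obtain ⟨j, hj, e⟩ := Module.DirectLimit.of.zero_exact h
    exact ⟨j.ob, (Idx.inc hj).comp y.toIdx, j.pt, rfl, (Z.map_comp _ _ _).trans e⟩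
  · rintro ⟨B, φ, y', rfl, e⟩
    rw [← germ_map, e, map_zero]

end PSh

/-- two points over the same point have a common neighbourhood, a subalgebra -/
theorem PtO.exists_common {A B : Ob R} {x : Pt R} (y : PtO A x) (y' : PtO B x) :
    ∃ (i : Idx x) (φ : Hom A i.ob) (ψ : Hom B i.ob), i.pt.pre φ = y ∧ i.pt.pre ψ = y' := by
  obtain ⟨i, h, h'⟩ := exists_ge_ge y.idx y'.idx
  exact ⟨i, (Idx.inc h).comp y.toIdx, (Idx.inc h').comp y'.toIdx, rfl, rfl⟩

/-- morphisms into a subalgebra are determined by the point -/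
theorem Idx.hom_ext {A : Ob R} {x : Pt R} {i : Idx x} {φ ψ : Hom A i.ob}
    (h : i.pt.pre φ = i.pt.pre ψ) : φ = ψ :=
  Hom.ext (AlgHom.ext fun a => Subtype.ext (DFunLike.congr_fun (congrArg PtO.y h) a))

/-- natural additive maps of presheaves -/
structure NT (Z Z' : PSh R) : Type 1 where
  app : ∀ A, Z.F A →+ Z'.F A
  nat : ∀ {A B : Ob R} (φ : Hom A B) z, app B (Z.map φ z) = Z'.map φ (app A z)

theorem NT.exists_st {Z Z' : PSh R} (u : NT Z Z') (x : Pt R) :
    ∃ F : Z.Stalk x →+ Z'.Stalk x, ∀ (i : Idx x) z, F (Z.ofI i z) = Z'.ofI i (u.app _ z) := by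
  refine ⟨AddCon.lift _ (DirectSum.toAddMonoid fun i : Idx x =>
    (Z'.ofI i).toAddMonoidHom.comp (u.app i.ob)) (AddCon.addConGen_le.2 ?_), fun i z => ?_⟩
  · rintro _ _ ⟨h, z⟩
    simp only [AddCon.ker_rel, DirectSum.lof_eq_of, DirectSum.toAddMonoid_of,
      AddMonoidHom.comp_apply, LinearMap.toAddMonoidHom_coe]
    rw [u.nat, Z'.ofI_inc]
  · exact DirectSum.toAddMonoid_of (fun i : Idx x =>
      (Z'.ofI i).toAddMonoidHom.comp (u.app i.ob)) i z

/-- the map on stalks -/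
noncomputable def NT.st {Z Z' : PSh R} (u : NT Z Z') (x : Pt R) : Z.Stalk x →+ Z'.Stalk x :=
  (u.exists_st x).choose

theorem NT.st_germ {Z Z' : PSh R} (u : NT Z Z') {A : Ob R} {x : Pt R} (y : PtO A x) (z : Z.F A) :
    u.st x (Z.germ y z) = Z'.germ y (u.app A z) := by
  simp only [PSh.germ, LinearMap.comp_apply]
  rw [NT.st, (u.exists_st x).choose_spec, u.nat]

namespace PSh

variable (Z : PSh R)

/-- the presheaf of discontinuous sections -/
noncomputable def G : PSh R where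
  F A := ∀ x : Pt R, PtO A x → Z.Stalk x
  map φ :=
    { toFun := fun c x y => c x (y.pre φ)
      map_add' := fun _ _ => rfl
      map_smul' := fun _ _ => rfl }
  map_id _ _ := rfl
  map_comp _ _ _ := rfl

theorem G_map {A B : Ob R} (φ : Hom A B) (c : Z.G.F A) (x : Pt R) (y : PtO B x) :
    Z.G.map φ c x y = c x (y.pre φ) := rfl

theorem G_ext {A : Ob R} {c c' : Z.G.F A} (h : ∀ x y, c x y = c' x y) : c = c' :=
  funext fun x => funext fun y => h x y

theorem G_add {A : Ob R} (c c' : Z.G.F A) (x : Pt R) (y : PtO A x) :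
    (c + c') x y = c x y + c' x y := rfl
theorem G_sub {A : Ob R} (c c' : Z.G.F A) (x : Pt R) (y : PtO A x) :
    (c - c') x y = c x y - c' x y := rfl
theorem G_neg {A : Ob R} (c : Z.G.F A) (x : Pt R) (y : PtO A x) : (-c) x y = -c x y := rfl
theorem G_zero {A : Ob R} (x : Pt R) (y : PtO A x) : (0 : Z.G.F A) x y = 0 := rfl
theorem G_smul {A : Ob R} (r : R) (c : Z.G.F A) (x : Pt R) (y : PtO A x) :
    (r • c) x y = r • c x y := rfl

/-- a section as a discontinuous section -/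
noncomputable def eta (A : Ob R) : Z.F A →ₗ[R] Z.G.F A where
  toFun z x y := Z.germ y z
  map_add' a b := funext fun x => funext fun y => map_add (Z.germ y) a b
  map_smul' r a := funext fun x => funext fun y => map_smul (Z.germ y) r a

theorem eta_apply {A : Ob R} (z : Z.F A) (x : Pt R) (y : PtO A x) :
    Z.eta A z x y = Z.germ y z := rfl

theorem map_eta {A B : Ob R} (φ : Hom A B) (z : Z.F A) :
    Z.G.map φ (Z.eta A z) = Z.eta B (Z.map φ z) :=
  funext fun x => funext fun y => (Z.germ_map φ y z).symm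

/-- the cokernel of `eta` -/
noncomputable def Q : PSh R where
  F A := Z.G.F A ⧸ LinearMap.range (Z.eta A)
  map {A B} φ := Submodule.mapQ _ _ (Z.G.map φ) (by
    rintro _ ⟨z, rfl⟩; exact ⟨_, (Z.map_eta φ z).symm⟩)
  map_id A z := by
    obtain ⟨c, rfl⟩ := Submodule.mkQ_surjective _ z; rfl
  map_comp ψ φ z := by
    obtain ⟨c, rfl⟩ := Submodule.mkQ_surjective _ z; rfl

/-- the class of a discontinuous section -/
noncomputable def cls (A : Ob R) : Z.G.F A →ₗ[R] Z.Q.F A := Submodule.mkQ _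

theorem cls_surj (A : Ob R) : Function.Surjective (Z.cls A) := Submodule.mkQ_surjective _

theorem cls_eq_zero {A : Ob R} {c : Z.G.F A} : Z.cls A c = 0 ↔ ∃ z, Z.eta A z = c :=
  Submodule.Quotient.mk_eq_zero _

theorem map_cls {A B : Ob R} (φ : Hom A B) (c : Z.G.F A) :
    Z.Q.map φ (Z.cls A c) = Z.cls B (Z.G.map φ c) := rfl

/-- the tower of cokernels -/
noncomputable def tw : ℕ → PSh R
  | 0 => Z
  | j + 1 => (tw j).Q

/-- the terms of the Godement complex over `A` -/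
abbrev C (A : Ob R) (j : ℕ) : Type 1 := (Z.tw j).G.F A

/-- the class of a cochain in the next term of the tower -/
noncomputable def cl (A : Ob R) (j : ℕ) : Z.C A j →ₗ[R] (Z.tw (j + 1)).F A := (Z.tw j).cls A

theorem cl_surj (A : Ob R) (j : ℕ) : Function.Surjective (Z.cl A j) := (Z.tw j).cls_surj A

theorem cl_eq_zero {A : Ob R} {j : ℕ} {c : Z.C A j} :
    Z.cl A j c = 0 ↔ ∃ z, (Z.tw j).eta A z = c := (Z.tw j).cls_eq_zero

/-- the differential of the Godement complex -/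
noncomputable def δ (A : Ob R) : Df R (Z.C A) :=
  fun j => ((Z.tw (j + 1)).eta A).comp (Z.cl A j)

/-- restriction of Godement cochains -/
noncomputable def res {A B : Ob R} (φ : Hom A B) (j : ℕ) : Z.C A j →ₗ[R] Z.C B j :=
  (Z.tw j).G.map φ

theorem δ_apply (A : Ob R) (j : ℕ) (c : Z.C A j) :
    Z.δ A j c = (Z.tw (j + 1)).eta A (Z.cl A j c) := rfl

theorem map_cl {A B : Ob R} (φ : Hom A B) (j : ℕ) (c : Z.C A j) :
    (Z.tw (j + 1)).map φ (Z.cl A j c) = Z.cl B j (Z.res φ j c) := rfl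

theorem res_apply {A B : Ob R} (φ : Hom A B) (j : ℕ) (c : Z.C A j) (x : Pt R) (y : PtO B x) :
    Z.res φ j c x y = c x (y.pre φ) := rfl

theorem δ_eta (A : Ob R) (j : ℕ) (z : (Z.tw j).F A) : Z.δ A j ((Z.tw j).eta A z) = 0 := by
  rw [δ_apply, Z.cl_eq_zero.2 ⟨z, rfl⟩, map_zero]

theorem sq_δ (A : Ob R) : Sq (Z.δ A) := fun j c => Z.δ_eta A (j + 1) _

theorem res_δ {A B : Ob R} (φ : Hom A B) (j : ℕ) (c : Z.C A j) :
    Z.res φ (j + 1) (Z.δ A j c) = Z.δ B j (Z.res φ j c) := (Z.tw (j + 1)).map_eta φ _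

theorem res_res {A B D : Ob R} (ψ : Hom B D) (φ : Hom A B) (j : ℕ) (c : Z.C A j) :
    Z.res ψ j (Z.res φ j c) = Z.res (ψ.comp φ) j c := rfl

theorem res_eta {A B : Ob R} (φ : Hom A B) (j : ℕ) (z : (Z.tw j).F A) :
    Z.res φ j ((Z.tw j).eta A z) = (Z.tw j).eta B ((Z.tw j).map φ z) := (Z.tw j).map_eta φ z

/-- cocycles are locally trivial -/
theorem loc_triv {A : Ob R} {j : ℕ} {c : Z.C A j} (h : Z.δ A j c = 0) {x : Pt R} (y : PtO A x) :
    y.Loc fun B φ => ∃ z, (Z.tw j).eta B z = Z.res φ j c := by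
  obtain ⟨B, φ, y', e, h'⟩ := (Z.tw (j + 1)).germ_eq_zero.1 (congrFun (congrFun h x) y)
  exact ⟨B, φ, y', e, Z.cl_eq_zero.1 h'⟩

end PSh

namespace NT

variable {Z Z' : PSh R} (u : NT Z Z')

/-- the induced map on discontinuous sections -/
noncomputable def G : NT Z.G Z'.G where
  app A := AddMonoidHom.mk' (fun c x y => u.st x (c x y))
    (fun a b => funext fun x => funext fun y => map_add (u.st x) _ _)
  nat _ _ := rfl

theorem G_app {A : Ob R} (c : Z.G.F A) (x : Pt R) (y : PtO A x) :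
    u.G.app A c x y = u.st x (c x y) := rfl

theorem G_eta {A : Ob R} (z : Z.F A) : u.G.app A (Z.eta A z) = Z'.eta A (u.app A z) :=
  funext fun x => funext fun y => u.st_germ y z

/-- the induced map on cokernels -/
noncomputable def Q : NT Z.Q Z'.Q where
  app A := QuotientAddGroup.lift (LinearMap.range (Z.eta A)).toAddSubgroup
    ((Z'.cls A).toAddMonoidHom.comp (u.G.app A)) (by
      rintro _ ⟨z, rfl⟩
      exact Z'.cls_eq_zero.2 ⟨_, (u.G_eta z).symm⟩)
  nat φ z := by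
    obtain ⟨c, rfl⟩ := Z.cls_surj _ z; rfl

theorem Q_cls {A : Ob R} (c : Z.G.F A) : u.Q.app A (Z.cls A c) = Z'.cls A (u.G.app A c) := rfl

/-- the induced map of towers -/
noncomputable def tw : ∀ j, NT (Z.tw j) (Z'.tw j)
  | 0 => u
  | j + 1 => (tw j).Q

/-- the induced map of Godement complexes -/
noncomputable def C (A : Ob R) (j : ℕ) : Z.C A j →+ Z'.C A j := (u.tw j).G.app A

theorem C_δ (A : Ob R) (j : ℕ) (c : Z.C A j) :
    u.C A (j + 1) (Z.δ A j c) = Z'.δ A j (u.C A j c) := (u.tw (j + 1)).G_eta _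

theorem C_res {A B : Ob R} (φ : Hom A B) (j : ℕ) (c : Z.C A j) :
    u.C B j (Z.res φ j c) = Z'.res φ j (u.C A j c) := rfl

theorem tw_cl (A : Ob R) (j : ℕ) (c : Z.C A j) :
    (u.tw (j + 1)).app A (Z.cl A j c) = Z'.cl A j (u.C A j c) := rfl

theorem C_apply (A : Ob R) (j : ℕ) (c : Z.C A j) (x : Pt R) (y : PtO A x) :
    u.C A j c x y = (u.tw j).st x (c x y) := rfl

theorem C_eta (A : Ob R) (j : ℕ) (z : (Z.tw j).F A) :
    u.C A j ((Z.tw j).eta A z) = (Z'.tw j).eta A ((u.tw j).app A z) := (u.tw j).G_eta z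

end NT

/-- multiplication by an element of the base -/
def NT.mul (Z : PSh R) (r : R) : NT Z Z where
  app A := AddMonoidHom.mk' (fun z => r • z) (smul_add r)
  nat φ z := (map_smul (Z.map φ) r z).symm

/-- the zero map -/
def NT.zero (Z Z' : PSh R) : NT Z Z' where
  app A := 0
  nat φ z := (map_zero _).symm

/-- the identity -/
def NT.id (Z : PSh R) : NT Z Z where
  app A := AddMonoidHom.id _
  nat φ z := rfl

/-- subpresheaves -/
structure Sub (Z : PSh R) : Type 1 where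
  S : ∀ A, Submodule R (Z.F A)
  mem : ∀ {A B : Ob R} (φ : Hom A B), ∀ z ∈ S A, Z.map φ z ∈ S B

/-- discontinuous sections with values in `T` that vanish on the zero set of `𝔥` -/
def KK {Z : PSh R} (T : ∀ x, Submodule R (Z.Stalk x)) (A : Ob R) (𝔥 : Ideal A.A) :
    Submodule R (Z.G.F A) where
  carrier := {c | ∀ x y, c x y ∈ T x ∧ (y.Kills 𝔥 → c x y = 0)}
  add_mem' := fun {a b} ha hb x y => ⟨add_mem (ha x y).1 (hb x y).1, fun h => by
    rw [PSh.G_add, (ha x y).2 h, (hb x y).2 h, add_zero]⟩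
  zero_mem' := fun x y => ⟨zero_mem _, fun _ => rfl⟩
  smul_mem' := fun r a ha x y => ⟨Submodule.smul_mem _ r (ha x y).1, fun h => by
    rw [PSh.G_smul, (ha x y).2 h, smul_zero]⟩

theorem mem_KK {Z : PSh R} {T : ∀ x, Submodule R (Z.Stalk x)} {A : Ob R} {𝔥 : Ideal A.A}
    {c : Z.G.F A} : c ∈ KK T A 𝔥 ↔ ∀ x y, c x y ∈ T x ∧ (y.Kills 𝔥 → c x y = 0) := Iff.rfl

theorem PtO.not_kills_top {A : Ob R} {x : Pt R} (y : PtO A x) : ¬ y.Kills ⊤ :=
  fun h => one_ne_zero ((map_one y.y).symm.trans (h 1 trivial))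

namespace Sub

variable {Z : PSh R} (S : Sub Z)

/-- everything -/
def top (Z : PSh R) : Sub Z := ⟨fun _ => ⊤, fun _ _ _ => trivial⟩

/-- nothing -/
def bot (Z : PSh R) : Sub Z := ⟨fun _ => ⊥, fun φ z h => by
  rw [(Submodule.mem_bot R).1 h, map_zero]; exact zero_mem _⟩

/-- intersection -/
def inf (S T : Sub Z) : Sub Z :=
  ⟨fun A => S.S A ⊓ T.S A, fun φ z h => ⟨S.mem φ z h.1, T.mem φ z h.2⟩⟩

/-- the stalk of a subpresheaf -/
def st (x : Pt R) : Submodule R (Z.Stalk x) where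
  carrier := {s | s = 0 ∨ ∃ (A : Ob R) (y : PtO A x), ∃ z ∈ S.S A, Z.germ y z = s}
  add_mem' := by
    rintro a b (rfl | ⟨A, y, z, hz, rfl⟩) hb
    · rwa [zero_add]
    rcases hb with rfl | ⟨B, y', z', hz', rfl⟩
    · exact Or.inr ⟨A, y, z, hz, (add_zero _).symm⟩
    obtain ⟨i, φ, ψ, rfl, rfl⟩ := y.exists_common y'
    exact Or.inr ⟨_, i.pt, _, add_mem (S.mem φ z hz) (S.mem ψ z' hz'), by
      rw [map_add, Z.germ_map, Z.germ_map]⟩
  zero_mem' := Or.inl rfl
  smul_mem' := by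
    rintro r a (rfl | ⟨A, y, z, hz, rfl⟩)
    · exact Or.inl (smul_zero r)
    · exact Or.inr ⟨A, y, _, Submodule.smul_mem _ r hz, map_smul _ r z⟩

theorem germ_mem {A : Ob R} {x : Pt R} (y : PtO A x) {z : Z.F A} (hz : z ∈ S.S A) :
    Z.germ y z ∈ S.st x := Or.inr ⟨A, y, z, hz, rfl⟩

/-- a section whose germ lies in the stalk of `S` lies locally in `S` -/
theorem germ_mem_iff {A : Ob R} {x : Pt R} {y : PtO A x} {z : Z.F A} :
    Z.germ y z ∈ S.st x ↔ y.Loc fun B φ => Z.map φ z ∈ S.S B := by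
  constructor
  · rintro (h | ⟨B, y', z', hz', e⟩)
    · obtain ⟨B, φ, y', e, h'⟩ := Z.germ_eq_zero.1 h
      exact ⟨B, φ, y', e, by
        change Z.map φ z ∈ _
        rw [h']; exact zero_mem _⟩
    obtain ⟨i, φ, ψ, rfl, rfl⟩ := y.exists_common y'
    have h : Z.germ i.pt (Z.map φ z - Z.map ψ z') = 0 := by
      rw [map_sub, Z.germ_map, Z.germ_map, e, sub_self]
    obtain ⟨D, θ, y'', e', h'⟩ := Z.germ_eq_zero.1 h
    refine ⟨D, θ.comp φ, y'', by rw [PtO.pre_comp, e'], ?_⟩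
    rw [map_sub, sub_eq_zero] at h'
    change Z.map (θ.comp φ) z ∈ _
    rw [Z.map_comp, h']
    exact S.mem θ _ (S.mem ψ _ hz')
  · rintro ⟨B, φ, y', rfl, h⟩
    rw [← Z.germ_map]
    exact S.germ_mem y' h

/-- the image in the cokernel of the discontinuous sections with values in `S` -/
noncomputable def Q : Sub Z.Q where
  S A := (KK S.st A ⊤).map (Z.cls A)
  mem φ := by
    rintro _ ⟨c, hc, rfl⟩
    exact ⟨Z.G.map φ c, fun x y => ⟨(hc x _).1, fun h => absurd h y.not_kills_top⟩, rfl⟩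

/-- the tower of a subpresheaf -/
noncomputable def tw : ∀ j, Sub (Z.tw j)
  | 0 => S
  | j + 1 => (tw j).Q

/-- the Godement complex of `S` over `A`, relative to the zero set of `𝔥` -/
noncomputable def K (A : Ob R) (𝔥 : Ideal A.A) : Fm R (Z.C A) := fun j => KK (S.tw j).st A 𝔥

theorem mem_K {A : Ob R} {𝔥 : Ideal A.A} {j : ℕ} {c : Z.C A j} : c ∈ S.K A 𝔥 j ↔
    ∀ x y, c x y ∈ (S.tw j).st x ∧ (y.Kills 𝔥 → c x y = 0) := Iff.rfl

theorem mem_tw_succ {A : Ob R} {j : ℕ} {z : (Z.tw (j + 1)).F A} :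
    z ∈ (S.tw (j + 1)).S A ↔ ∃ c ∈ S.K A ⊤ j, Z.cl A j c = z := Iff.rfl

end Sub

/-- `u` maps `S` locally into `T`, over the objects of the class `𝒞` -/
def LocMaps {Z Z' : PSh R} (𝒞 : Ob R → Prop) (u : NT Z Z') (S : Sub Z) (T : Sub Z') : Prop :=
  ∀ A, 𝒞 A → ∀ z ∈ S.S A, ∀ (x : Pt R) (y : PtO A x),
    y.Loc fun B φ => Z'.map φ (u.app A z) ∈ T.S B

/-- a class of objects that is closed under morphisms -/
def UpC (𝒞 : Ob R → Prop) : Prop := ∀ A B, Hom A B → 𝒞 A → 𝒞 B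

end Pool.Agent.P.MP_824f38_ag.N
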