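import Pool.Agent.P.MP_824f38_ag.N.LNull

/-! Row NEC-LBasic: local coordinates and weight filtrations: basics

LC.of_matrix: replace E by adjugate combinations (Matrix.adjugate_mul), Δ = det. der_sat: first for monomials (Leibniz
rule, JJ_mul), then for h f in JJ: h D f = D (h f) - f D h. lin_part: write h f = Σ b_α y^α with the α of weight ≥ q (for q ≤ 0 use
LC.gen instead); a_i = w (b_(e_i)) / w h; monomials of degree ≥ 2 have w (D y^α) = 0. -/

set_option linter.unusedVariables false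
set_option linter.unusedSectionVars false
set_option linter.style.haveILetI false
set_option linter.dupNamespace false

namespace Pool.Agent.P.MP_824f38_ag.N

variable {A : Type} [CommRing A] [Algebra ℂ A] [Algebra.FiniteType ℂ A]
  {ι : Type} [Fintype ι] [DecidableEq ι] {w : A →ₐ[ℂ] ℂ}

private theorem lb_sum_apply (s : Finset ι) (a : ι → A) (E : ι → Derivation ℂ A A) (f : A) :
    (∑ k ∈ s, a k • E k) f = ∑ k ∈ s, a k * E k f := by
  induction s using Finset.induction_on with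
  | empty => simp
  | insert k s hk ih => rw [Finset.sum_insert hk, Finset.sum_insert hk, ← ih]; rfl

theorem LC.of_matrix {y : ι → A} (van : ∀ i, w (y i) = 0)
    (gen : ∀ f, w f = 0 → f ∈ sat w (Ideal.span (Set.range y))) (E : ι → Derivation ℂ A A)
    (h : (Matrix.of fun i j => w (E i (y j))).det ≠ 0) : LC w y := by
  refine ⟨van, gen, ?_⟩
  let M : Matrix ι ι A := Matrix.of fun i j => E i (y j)
  refine ⟨fun i => ∑ k, M.adjugate i k • E k, M.det, ?_, fun i j => ?_⟩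
  · have e := w.toRingHom.map_det M
    change w M.det = _ at e
    rw [e]
    exact h
  · rw [lb_sum_apply]
    have e := congrFun (congrFun (Matrix.adjugate_mul M) i) j
    rw [Matrix.mul_apply] at e
    refine e.trans ?_
    rw [Matrix.smul_apply, Matrix.one_apply]
    split_ifs <;> simp

theorem LC.of_diag {y : ι → A} (van : ∀ i, w (y i) = 0)
    (gen : ∀ f, w f = 0 → f ∈ sat w (Ideal.span (Set.range y))) (E : ι → Derivation ℂ A A)
    (h : ∀ i, w (E i (y i)) ≠ 0) (h' : ∀ i j, i ≠ j → w (E i (y j)) = 0) : LC w y := by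
  refine LC.of_matrix van gen E ?_
  have e : (Matrix.of fun i j => w (E i (y j))) = Matrix.diagonal fun i => w (E i (y i)) := by
    ext i j
    by_cases hij : i = j
    · subst hij; simp
    · rw [Matrix.diagonal_apply_ne _ hij]; exact h' i j hij
  rw [e, Matrix.det_diagonal]
  exact Finset.prod_ne_zero_iff.2 fun i _ => h i

theorem LC.reindex {ι' : Type} [Fintype ι'] [DecidableEq ι'] {y : ι → A} (H : LC w y)
    (e : ι' ≃ ι) : LC w (y ∘ e) := by
  obtain ⟨E, Δ, h0, hE⟩ := H.dual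
  refine ⟨fun i => H.van _, fun f hf => ?_, E ∘ e, Δ, h0, fun i j => ?_⟩
  · rw [e.surjective.range_comp]
    exact H.gen f hf
  · change E (e i) (y (e j)) = _
    rw [hE]
    simp only [e.apply_eq_iff_eq]

theorem LC.injective {y : ι → A} (H : LC w y) : Function.Injective y := by
  obtain ⟨E, Δ, h0, hE⟩ := H.dual
  intro i j hij
  by_contra hne
  have h1 := hE i i
  have h2 := hE i j
  rw [if_pos rfl] at h1
  rw [if_neg hne, ← hij, h1] at h2
  exact h0 (by rw [h2, map_zero])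

theorem Snc.of_fintype {σ : ℕ → A} {y : ι → A} {lab : ι → WithBot ℕ} (H : LC w y)
    (L : Lab σ w y lab) {n : ℕ} (hn : Fintype.card ι = n) : Snc σ w n := by
  let e : Fin n ≃ ι := (Fintype.equivFinOfCardEq hn).symm
  refine ⟨y ∘ e, lab ∘ e, H.reindex e, fun i j h => L.eq _ j h, fun j hj => ?_⟩
  obtain ⟨i, hi⟩ := L.ex j hj
  exact ⟨e.symm i, by simpa using hi⟩

theorem SReg.reg {σ : ℕ → A} (H : SReg σ) : Reg A := by
  intro w
  obtain ⟨n, y, lab, h, -⟩ := H w
  exact ⟨n, y, h⟩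

theorem Snc.of_lc {n : ℕ} {y : Fin n → A} (H : LC w y) : Snc (fun _ => (1 : A)) w n := by
  refine ⟨y, fun _ => ⊥, H, fun i j h => ?_, fun j hj => ?_⟩
  · exact absurd h WithBot.bot_ne_coe
  · rw [map_one] at hj
    exact absurd hj one_ne_zero

theorem JJ_anti (y : ι → A) (c : ι → ℚ) {p q : ℚ} (h : p ≤ q) : JJ y c q ≤ JJ y c p := by
  refine Ideal.span_mono ?_
  rintro f ⟨α, hα, rfl⟩
  exact ⟨α, h.trans hα, rfl⟩

theorem JJ_mul (y : ι → A) (c : ι → ℚ) (p q : ℚ) : JJ y c p * JJ y c q ≤ JJ y c (p + q) := by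
  rw [JJ, JJ, Ideal.span_mul_span']
  refine Ideal.span_mono ?_
  rintro _ ⟨f, ⟨α, hα, rfl⟩, g, ⟨β, hβ, rfl⟩, rfl⟩
  refine ⟨α + β, ?_, ?_⟩
  · simp only [Pi.add_apply, Nat.cast_add, add_mul, Finset.sum_add_distrib]
    exact add_le_add hα hβ
  · simp only [Pi.add_apply, pow_add, Finset.prod_mul_distrib]

theorem JJ_nonpos (y : ι → A) (c : ι → ℚ) {q : ℚ} (h : q ≤ 0) : JJ y c q = ⊤ := by
  rw [Ideal.eq_top_iff_one]
  exact Ideal.subset_span ⟨0, by simpa using h, by simp⟩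

private theorem lb_pow_mem (y : ι → A) (c : ι → ℚ) (i : ι) (n : ℕ) :
    y i ^ n ∈ JJ y c (n * c i) := by
  refine Ideal.subset_span ⟨Pi.single i n, ?_, ?_⟩
  · rw [Finset.sum_eq_single i (fun j _ hj => by simp [Pi.single_eq_of_ne hj]) (by simp)]
    simp
  · rw [Finset.prod_eq_single i (fun j _ hj => by simp [Pi.single_eq_of_ne hj]) (by simp)]
    simp

theorem mem_JJ_self (y : ι → A) (c : ι → ℚ) (i : ι) : y i ∈ JJ y c (c i) := by
  simpa using lb_pow_mem y c i 1

theorem JJ_le_span (y : ι → A) {c : ι → ℚ} (hc : ∀ i, 0 ≤ c i) {q : ℚ} (h : 0 < q) :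
    JJ y c q ≤ Ideal.span {a | ∃ i, 0 < c i ∧ a = y i} := by
  refine Ideal.span_le.2 ?_
  rintro f ⟨α, hα, rfl⟩
  obtain ⟨i, -, hi⟩ : ∃ i ∈ Finset.univ, (0 : ℚ) < (α i : ℚ) * c i := by
    by_contra hne
    push Not at hne
    exact absurd (h.trans_le hα) (not_lt.2 (Finset.sum_nonpos hne))
  have h1 : α i ≠ 0 := by rintro e; simp [e] at hi
  have h2 : 0 < c i := lt_of_le_of_ne (hc i) (by rintro e; simp [← e] at hi)
  exact Ideal.mem_of_dvd _
    ((dvd_pow_self _ h1).trans (Finset.dvd_prod_of_mem (fun i => y i ^ α i) (Finset.mem_univ i)))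
    (Ideal.subset_span ⟨i, h2, rfl⟩)

theorem pow_mem_JJ (y : ι → A) {c : ι → ℚ} (hc : ∀ i, 0 ≤ c i) (q : ℚ) {f : A}
    (hf : f ∈ Ideal.span {a | ∃ i, 0 < c i ∧ a = y i}) : ∃ n : ℕ, f ^ n ∈ JJ y c q := by
  have h : Ideal.span {a | ∃ i, 0 < c i ∧ a = y i} ≤ (JJ y c q).radical := by
    refine Ideal.span_le.2 ?_
    rintro _ ⟨i, hi, rfl⟩
    obtain ⟨n, hn⟩ := Archimedean.arch q hi
    exact ⟨n, JJ_anti y c (by rwa [nsmul_eq_mul] at hn) (lb_pow_mem y c i n)⟩
  exact h hf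

private theorem lb_sat_mul {I J K : Ideal A} (h : I * J ≤ K) {f g : A} (hf : f ∈ sat w I)
    (hg : g ∈ sat w J) : f * g ∈ sat w K := by
  obtain ⟨a, a0, ha⟩ := hf
  obtain ⟨b, b0, hb⟩ := hg
  refine ⟨a * b, by rw [map_mul]; exact mul_ne_zero a0 b0, ?_⟩
  rw [show a * b * (f * g) = (a * f) * (b * g) by ring]
  exact h (Ideal.mul_mem_mul ha hb)

private theorem lb_filt {y : ι → A} {c : ι → ℚ} (F : ℚ → Ideal A)
    (hA : ∀ p q, p ≤ q → F q ≤ F p) (h1 : (1 : A) ∈ F 0)
    (hm : ∀ p q f g, f ∈ F p → g ∈ F q → f * g ∈ F (p + q)) (hy : ∀ i, y i ∈ F (c i)) (q : ℚ) :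
    JJ y c q ≤ F q := by
  refine Ideal.span_le.2 ?_
  rintro f ⟨α, hα, rfl⟩
  have hp : ∀ i (n : ℕ), y i ^ n ∈ F (n * c i) := by
    intro i n
    induction n with
    | zero => simpa using h1
    | succ n ih =>
      rw [pow_succ, Nat.cast_succ, add_mul, one_mul]
      exact hm _ _ _ _ ih (hy i)
  have hs : ∀ s : Finset ι, ∏ i ∈ s, y i ^ α i ∈ F (∑ i ∈ s, (α i : ℚ) * c i) := by
    intro s
    induction s using Finset.induction_on with
    | empty => simpa using h1
    | insert k s hk ih =>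
      rw [Finset.sum_insert hk, Finset.prod_insert hk]
      exact hm _ _ _ _ (hp k _) ih
  exact hA _ _ hα (hs _)

theorem JJ_le_of_mem {ι' : Type} [Fintype ι'] {y : ι → A} {c : ι → ℚ} {y' : ι' → A}
    {c' : ι' → ℚ} (h : ∀ i, y i ∈ sat w (JJ y' c' (c i))) (q : ℚ) :
    sat w (JJ y c q) ≤ sat w (JJ y' c' q) := by
  haveI : DecidableEq ι' := Classical.decEq _
  refine sat_le_sat w (lb_filt (fun p => sat w (JJ y' c' p))
    (fun p p' hp => sat_mono w (JJ_anti y' c' hp)) ?_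
    (fun p p' f g hf hg => lb_sat_mul (JJ_mul y' c' p p') hf hg) h q)
  exact le_sat w _ (by rw [JJ_nonpos y' c' le_rfl]; trivial)

private theorem lb_J_le {Γ Θ : WS A} (hΓ : Γ.Sorted) (hΘ : Θ.Sorted) (hc : ∀ i, Γ.c i = Θ.c i)
    (hy : ∀ i, 0 < Γ.c i → Γ.y i = Θ.y i) (q : ℚ) : Γ.J q ≤ Θ.J q := by
  refine lb_filt (fun p => JJ Θ.yF Θ.cF p) (fun p p' hp => JJ_anti _ _ hp) ?_
    (fun p p' f g hf hg => JJ_mul _ _ p p' (Ideal.mul_mem_mul hf hg)) (fun i => ?_) q
  · rw [JJ_nonpos _ _ le_rfl]; trivial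
  · change Γ.y i ∈ JJ Θ.yF Θ.cF (Γ.c i)
    rcases (hΓ.nonneg i).eq_or_lt with h | h
    · rw [JJ_nonpos _ _ h.ge]; trivial
    · have hi : (i : ℕ) < Θ.N := by
        by_contra hne
        have := hΘ.pad i (not_lt.1 hne)
        rw [← hc] at this
        exact h.ne' this
      rw [hy i h, hc]
      exact mem_JJ_self Θ.yF Θ.cF ⟨i, hi⟩

theorem WS.J_congr {Γ Θ : WS A} (hΓ : Γ.Sorted) (hΘ : Θ.Sorted) (hc : ∀ i, Γ.c i = Θ.c i)
    (hy : ∀ i, 0 < Γ.c i → Γ.y i = Θ.y i) (q : ℚ) : Γ.J q = Θ.J q := by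
  refine le_antisymm (lb_J_le hΓ hΘ hc hy q) (lb_J_le hΘ hΓ (fun i => (hc i).symm) ?_ q)
  intro i hi
  exact (hy i (by rwa [hc])).symm

theorem WS.Sorted.anti {Γ : WS A} (h : Γ.Sorted) : Antitone Γ.c := by
  intro i j hij
  have e : ∀ (c : ℚ) (l : WithBot ℕ), (ofLex (mkKey c l)).1 = OrderDual.toDual c := by
    intro c l
    unfold mkKey
    split_ifs with hc
    · rw [hc]; rfl
    · rfl
  have h1 : (ofLex (Γ.key i)).1 ≤ (ofLex (Γ.key j)).1 := by
    rcases Prod.Lex.le_iff.1 (h.mono hij) with h2 | h2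
    · exact h2.le
    · exact h2.1.le
  rw [WS.key, WS.key, e, e] at h1
  exact h1

theorem sat_mul {I J K : Ideal A} (h : I * J ≤ K) {f g : A} (hf : f ∈ sat w I)
    (hg : g ∈ sat w J) : f * g ∈ sat w K := by
  exact lb_sat_mul h hf hg

private theorem lb_mono_van {y : ι → A} (van : ∀ i, w (y i) = 0) {α : ι → ℕ} (h : α ≠ 0) :
    w (∏ i, y i ^ α i) = 0 := by
  obtain ⟨i, hi⟩ := Function.ne_iff.1 h
  rw [map_prod]
  exact Finset.prod_eq_zero (Finset.mem_univ i) (by rw [map_pow, van, zero_pow hi])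

theorem sat_JJ_van {y : ι → A} (van : ∀ i, w (y i) = 0) (c : ι → ℚ) {q : ℚ} (h : 0 < q) {f : A}
    (hf : f ∈ sat w (JJ y c q)) : w f = 0 := by
  have h1 : JJ y c q ≤ RingHom.ker w := by
    refine Ideal.span_le.2 ?_
    rintro f ⟨α, hα, rfl⟩
    refine lb_mono_van van ?_
    rintro rfl
    simp at hα
    exact absurd h (not_lt.2 hα)
  obtain ⟨a, a0, ha⟩ := hf
  have h2 : w (a * f) = 0 := h1 ha
  rw [map_mul] at h2
  exact (mul_eq_zero.1 h2).resolve_left a0

theorem der_sat {y : ι → A} {c : ι → ℚ} (D : Derivation ℂ A A) {d : ℚ} (hd : 0 ≤ d)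
    (h : ∀ i, D (y i) ∈ sat w (JJ y c (c i - d))) {q : ℚ} {f : A} (hf : f ∈ sat w (JJ y c q)) :
    D f ∈ sat w (JJ y c (q - d)) := by
  have hle : ∀ p, sat w (JJ y c p) ≤ sat w (JJ y c (p - d)) :=
    fun p => sat_mono w (JJ_anti y c (sub_le_self p hd))
  let F : ℚ → Ideal A := fun p =>
    { carrier := {f | f ∈ sat w (JJ y c p) ∧ D f ∈ sat w (JJ y c (p - d))}
      add_mem' := fun {a b} ha hb => ⟨add_mem ha.1 hb.1, by
        rw [map_add]; exact add_mem ha.2 hb.2⟩
      zero_mem' := ⟨zero_mem _, by rw [map_zero]; exact zero_mem _⟩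
      smul_mem' := fun r a ha => ⟨Submodule.smul_mem _ r ha.1, by
        rw [smul_eq_mul, D.leibniz, smul_eq_mul, smul_eq_mul]
        exact add_mem (Ideal.mul_mem_left _ _ ha.2) (Ideal.mul_mem_right _ _ (hle p ha.1))⟩ }
  have hF : JJ y c q ≤ F q := by
    refine lb_filt F (fun p p' hp f hf => ⟨sat_mono w (JJ_anti y c hp) hf.1,
      sat_mono w (JJ_anti y c (sub_le_sub_right hp d)) hf.2⟩) ⟨le_sat w _ ?_, ?_⟩
      (fun p p' f g hf hg => ⟨sat_mul (JJ_mul y c p p') hf.1 hg.1, ?_⟩)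
      (fun i => ⟨le_sat w _ (mem_JJ_self y c i), h i⟩) q
    · rw [JJ_nonpos _ _ le_rfl]; trivial
    · rw [D.map_one_eq_zero]; exact zero_mem _
    · rw [D.leibniz, smul_eq_mul, smul_eq_mul]
      refine add_mem ?_ ?_
      · rw [add_sub_assoc]
        exact sat_mul (JJ_mul y c _ _) hf.1 hg.2
      · rw [add_comm, add_sub_assoc]
        exact sat_mul (JJ_mul y c _ _) hg.1 hf.2
  obtain ⟨a, a0, ha⟩ := id hf
  have h1 := (hF ha).2
  rw [D.leibniz, smul_eq_mul, smul_eq_mul] at h1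
  have h2 : a * D f ∈ sat w (JJ y c (q - d)) := by
    have := sub_mem h1 (Ideal.mul_mem_right (D a) _ (hle q hf))
    rwa [add_sub_cancel_right] at this
  exact sat_le_sat w le_rfl ⟨a, a0, h2⟩

theorem lin_part {y : ι → A} (H : LC w y) {c : ι → ℚ} (hc : ∀ i, 0 ≤ c i) {q : ℚ} {f : A}
    (h0 : w f = 0) (hf : f ∈ sat w (JJ y c q)) : ∃ a : ι → ℂ, (∀ i, a i ≠ 0 → q ≤ c i) ∧
      ∀ D : Derivation ℂ A A, w (D f) = ∑ i, a i * w (D (y i)) := by
  let P : Ideal A :=
    { carrier := {f | w f = 0 ∧ ∃ a : ι → ℂ, (∀ i, a i ≠ 0 → q ≤ c i) ∧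
        ∀ D : Derivation ℂ A A, w (D f) = ∑ i, a i * w (D (y i))}
      add_mem' := by
        rintro f g ⟨f0, a, ha, ha'⟩ ⟨g0, b, hb, hb'⟩
        refine ⟨by rw [map_add, f0, g0, add_zero], a + b, fun i hi => ?_, fun D => ?_⟩
        · by_cases e : a i = 0
          · exact hb i fun e' => hi (by simp [e, e'])
          · exact ha i e
        · simp only [map_add, ha', hb', Pi.add_apply, add_mul, Finset.sum_add_distrib]
      zero_mem' := ⟨map_zero _, 0, by simp, by simp⟩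
      smul_mem' := by
        rintro r f ⟨f0, a, ha, ha'⟩
        refine ⟨by rw [smul_eq_mul, map_mul, f0, mul_zero], fun i => w r * a i,
          fun i hi => ha i (right_ne_zero_of_mul hi), fun D => ?_⟩
        rw [smul_eq_mul, D.leibniz, smul_eq_mul, smul_eq_mul, map_add, map_mul, map_mul, f0,
          zero_mul, add_zero, ha', Finset.mul_sum]
        simp only [mul_assoc] }
  have hP : ∀ i b, (w b = 0 ∨ q ≤ c i) → b * y i ∈ P := by
    intro i b hb
    refine ⟨by rw [map_mul, H.van, mul_zero], Pi.single i (w b), fun k hk => ?_, fun D => ?_⟩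
    · by_cases e : k = i
      · subst e
        rw [Pi.single_eq_same] at hk
        exact hb.resolve_left hk
      · exact absurd (Pi.single_eq_of_ne e _) hk
    · rw [D.leibniz, smul_eq_mul, smul_eq_mul, map_add, map_mul, map_mul, H.van, zero_mul,
        add_zero,
        Finset.sum_eq_single i (fun j _ hj => by simp [Pi.single_eq_of_ne hj]) (by simp)]
      simp
  have hs : f ∈ sat w P := by
    rcases le_or_gt q 0 with hq | hq
    · refine sat_mono w (Ideal.span_le.2 ?_) (H.gen f h0)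
      rintro _ ⟨i, rfl⟩
      simpa using hP i 1 (Or.inr (hq.trans (hc i)))
    · refine sat_mono w (Ideal.span_le.2 ?_) hf
      rintro _ ⟨α, hα, rfl⟩
      have hα0 : α ≠ 0 := by
        rintro rfl
        simp at hα
        exact absurd hq (not_lt.2 hα)
      obtain ⟨i, hi⟩ := Function.ne_iff.1 hα0
      obtain ⟨β, rfl⟩ : ∃ β : ι → ℕ, α = β + Pi.single i 1 := by
        refine ⟨α - Pi.single i 1, funext fun k => ?_⟩
        by_cases e : k = i
        · subst e
          have : α k ≠ 0 := hi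
          simp only [Pi.add_apply, Pi.sub_apply, Pi.single_eq_same]
          omega
        · simp [Pi.single_eq_of_ne e]
      have e : ∏ k, y k ^ (β + Pi.single i 1 : ι → ℕ) k = (∏ k, y k ^ β k) * y i := by
        simp only [Pi.add_apply, pow_add, Finset.prod_mul_distrib]
        rw [Finset.prod_eq_single (f := fun k => y k ^ (Pi.single i 1 : ι → ℕ) k) i
          (fun j _ hj => by simp [Pi.single_eq_of_ne hj]) (by simp)]
        simp
      change _ ∈ P
      rw [e]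
      refine hP i _ ?_
      by_cases hβ : β = 0
      · right
        subst hβ
        rw [zero_add, Finset.sum_eq_single i (fun j _ hj => by simp [Pi.single_eq_of_ne hj])
          (by simp)] at hα
        simpa using hα
      · exact Or.inl (lb_mono_van H.van hβ)
  obtain ⟨k, k0, -, a, ha, ha'⟩ := hs
  refine ⟨fun i => (w k)⁻¹ * a i, fun i hi => ha i (right_ne_zero_of_mul hi), fun D => ?_⟩
  have h1 := ha' D
  rw [D.leibniz, smul_eq_mul, smul_eq_mul, map_add, map_mul, map_mul, h0, zero_mul,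
    add_zero] at h1
  simp only [mul_assoc]
  rw [← Finset.mul_sum, ← h1, inv_mul_cancel_left₀ k0]

end Pool.Agent.P.MP_824f38_ag.N
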