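import Pool.Agent.P.MP_824f38_ag.N.LBasic
import Pool.Agent.P.MP_824f38_ag.N.AWf

/-! Row NEC-LExch: exchange of coordinates

exch: write h u = ε y_k + j' with j' in the ideal JJ (c k) of the monomials that do not contain y_k (for c k ≤ 0 and for gen use LC.gen), where
ε = coefficient of y_k plus an element of ker w; applying D shows w ε ≠ 0. Then y_k is in sat (JJ y' c (c k)) and in sat (span y');
use JJ_le_of_mem in both directions and LC.of_matrix / of_diag (E_k, and E_i - (E_i u) / (E_k u) E_k up to a factor).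
ext_free: induction on k; the linear part of u a (lin_part) has a nonzero coefficient at an unlabelled coordinate that is not
one of the previous u b, because D a kills those at w. -/

set_option linter.unusedVariables false
set_option linter.unusedSectionVars false
set_option linter.style.haveILetI false
set_option linter.dupNamespace false

namespace Pool.Agent.P.MP_824f38_ag.N

variable {A : Type} [CommRing A] [Algebra ℂ A] [Algebra.FiniteType ℂ A]
  {ι : Type} [Fintype ι] [DecidableEq ι] {w : A →ₐ[ℂ] ℂ}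

/-- the elements that vanish at `w` together with their derivative -/
private def exchK (w : A →ₐ[ℂ] ℂ) (D : Derivation ℂ A A) : Ideal A where
  carrier := {f | w f = 0 ∧ w (D f) = 0}
  add_mem' := by
    rintro a b ⟨h1, h2⟩ ⟨h3, h4⟩
    exact ⟨by rw [map_add, h1, h3, add_zero], by rw [map_add, map_add, h2, h4, add_zero]⟩
  zero_mem' := ⟨map_zero _, by rw [map_zero, map_zero]⟩
  smul_mem' := by
    rintro b a ⟨h1, h2⟩
    refine ⟨by rw [smul_eq_mul, map_mul, h1, mul_zero], ?_⟩
    rw [smul_eq_mul, Derivation.leibniz, smul_eq_mul, smul_eq_mul, map_add, map_mul, map_mul, h1,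
      h2, mul_zero, zero_mul, add_zero]

/-- the nonconstant monomials of weight at least `c k` that do not contain `y k` -/
private def exchJ (y : ι → A) (c : ι → ℚ) (k : ι) : Ideal A :=
  Ideal.span {f | ∃ α : ι → ℕ, α k = 0 ∧ (∃ i, α i ≠ 0) ∧ c k ≤ ∑ i, (α i : ℚ) * c i ∧
    f = ∏ i, y i ^ α i}

private theorem exchJ_le {y : ι → A} {c : ι → ℚ} {k : ι} {J : Ideal A}
    (h : ∀ i, i ≠ k → y i ∈ J) : exchJ y c k ≤ J := by
  rw [exchJ, Ideal.span_le]
  rintro _ ⟨α, h1, ⟨i, hi⟩, _, rfl⟩
  have hik : i ≠ k := fun e => hi (e ▸ h1)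
  exact Ideal.mem_of_dvd _ ((dvd_pow_self _ hi).trans
    (Finset.dvd_prod_of_mem (fun i => y i ^ α i) (Finset.mem_univ i))) (h i hik)

private theorem exchJ_le_JJ (y : ι → A) (c : ι → ℚ) (k : ι) (u : A) :
    exchJ y c k ≤ JJ (Function.update y k u) c (c k) := by
  rw [exchJ, Ideal.span_le]
  rintro _ ⟨α, h1, _, h2, rfl⟩
  refine Ideal.subset_span ⟨α, h2, Finset.prod_congr rfl fun i _ => ?_⟩
  by_cases e : i = k
  · rw [e, h1, pow_zero, pow_zero]
  · rw [Function.update_of_ne e]

private theorem exch_dec {y : ι → A} (H : LC w y) {c : ι → ℚ} (hc : ∀ i, 0 ≤ c i) (k : ι) {u : A}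
    (h0 : w u = 0) (hu : u ∈ sat w (JJ y c (c k))) :
    u ∈ sat w (Ideal.span {y k} ⊔ exchJ y c k) := by
  rcases (hc k).eq_or_lt with hk | hk
  · refine sat_mono w ?_ (H.gen u h0)
    rw [Ideal.span_le]
    rintro _ ⟨i, rfl⟩
    by_cases e : i = k
    · rw [e]; exact Ideal.mem_sup_left (Ideal.mem_span_singleton_self _)
    · refine Ideal.mem_sup_right (Ideal.subset_span ⟨Pi.single i 1, ?_, ⟨i, by simp⟩, ?_, ?_⟩)
      · exact Pi.single_eq_of_ne (Ne.symm e) _
      · rw [← hk]
        exact Finset.sum_nonneg fun j _ => mul_nonneg (Nat.cast_nonneg _) (hc j)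
      · rw [Finset.prod_eq_single i]
        · simp
        · intro j _ hj
          rw [Pi.single_eq_of_ne hj, pow_zero]
        · intro hi
          exact absurd (Finset.mem_univ i) hi
  · refine sat_mono w ?_ hu
    rw [JJ, Ideal.span_le]
    rintro _ ⟨α, h1, rfl⟩
    by_cases e : α k = 0
    · refine Ideal.mem_sup_right (Ideal.subset_span ⟨α, e, ?_, h1, rfl⟩)
      by_contra hn
      have : ∀ i, α i = 0 := fun i => not_not.1 fun hi => hn ⟨i, hi⟩
      simp only [this, Nat.cast_zero, zero_mul, Finset.sum_const_zero] at h1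
      exact absurd hk (not_lt.2 h1)
    · refine Ideal.mem_sup_left (Ideal.mem_span_singleton.2 ((dvd_pow_self _ e).trans
        (Finset.dvd_prod_of_mem (fun i => y i ^ α i) (Finset.mem_univ k))))

theorem exch {y : ι → A} (H : LC w y) {c : ι → ℚ} (hc : ∀ i, 0 ≤ c i) (k : ι) {u : A}
    (h0 : w u = 0) (hu : u ∈ sat w (JJ y c (c k))) (D : Derivation ℂ A A) (hD : w (D u) ≠ 0)
    (hD' : ∀ i, i ≠ k → w (D (y i)) = 0) : LC w (Function.update y k u) ∧
      ∀ q, sat w (JJ (Function.update y k u) c q) = sat w (JJ y c q) := by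
  obtain ⟨h, hh, hm⟩ := exch_dec H hc k h0 hu
  obtain ⟨x, hx, j, hj, e⟩ := Submodule.mem_sup.1 hm
  obtain ⟨ε, rfl⟩ := Ideal.mem_span_singleton'.1 hx
  have hjK : j ∈ exchK w D := exchJ_le (J := exchK w D) (fun i hi => And.intro (H.van i) (hD' i hi)) hj
  have hε : w ε ≠ 0 := by
    intro h1
    have e1 := congrArg (fun a => w (D a)) e
    simp only [map_add, Derivation.leibniz, smul_eq_mul, map_mul, h1, h0, H.van k, hjK.2,
      zero_mul, add_zero] at e1
    exact mul_ne_zero hh hD e1.symm
  have key : ∀ J : Ideal A, u ∈ J → j ∈ J → y k ∈ sat w J := fun J h1 h2 =>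
    ⟨ε, hε, by
      rw [eq_sub_of_add_eq e]
      exact sub_mem (J.mul_mem_left _ h1) h2⟩
  have hk : Function.update y k u k = u := Function.update_self _ _ _
  have hne : ∀ i, i ≠ k → Function.update y k u i = y i := fun i hi => Function.update_of_ne hi _ _
  constructor
  · obtain ⟨E, Δ, hΔ, hE⟩ := H.dual
    refine LC.of_diag (fun i => ?_) (fun f hf => sat_le_sat w ?_ (H.gen f hf))
      (fun i => if i = k then D else D u • E i - E i u • D) (fun i => ?_) (fun i i' hii => ?_)
    · by_cases e : i = k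
      · rw [e, hk]; exact h0
      · rw [hne i e]; exact H.van i
    · rw [Ideal.span_le]
      rintro _ ⟨i, rfl⟩
      by_cases e : i = k
      · rw [e]
        exact key _ (Ideal.subset_span ⟨k, hk⟩)
          (exchJ_le (J := Ideal.span (Set.range (Function.update y k u)))
            (fun i hi => Ideal.subset_span ⟨i, hne i hi⟩) hj)
      · exact le_sat w _ (Ideal.subset_span ⟨i, hne i e⟩)
    · by_cases e : i = k
      · rw [if_pos e, e, hk]; exact hD
      · rw [if_neg e, hne i e]
        simp only [Derivation.sub_apply, Derivation.smul_apply, smul_eq_mul, map_sub, map_mul,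
          hD' i e, hE, if_true, mul_zero, sub_zero]
        exact mul_ne_zero hD hΔ
    · by_cases e : i = k
      · rw [if_pos e, hne i' (fun e' => hii (e.trans e'.symm))]
        exact hD' i' fun e' => hii (e.trans e'.symm)
      · rw [if_neg e]
        by_cases e' : i' = k
        · rw [e', hk]
          simp only [Derivation.sub_apply, Derivation.smul_apply, smul_eq_mul, map_sub, map_mul]
          ring
        · rw [hne i' e']
          simp only [Derivation.sub_apply, Derivation.smul_apply, smul_eq_mul, map_sub, map_mul,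
            hD' i' e', hE, if_neg hii, map_zero, mul_zero, sub_zero]
  · intro q
    apply le_antisymm
    · refine JJ_le_of_mem (fun i => ?_) q
      by_cases e : i = k
      · rw [e, hk]; exact hu
      · rw [hne i e]; exact le_sat w _ (mem_JJ_self y c i)
    · refine JJ_le_of_mem (fun i => ?_) q
      by_cases e : i = k
      · rw [e]
        have := mem_JJ_self (Function.update y k u) c k
        rw [hk] at this
        exact key _ this (exchJ_le_JJ y c k u hj)
      · rw [← hne i e]; exact le_sat w _ (mem_JJ_self _ c i)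

theorem ext_free {σ : ℕ → A} {n : ℕ} (H : Snc σ w n) {k : ℕ} (u : Fin k → A)
    (h0 : ∀ a, w (u a) = 0) (D : Fin k → Derivation ℂ A A) (h1 : ∀ a, w (D a (u a)) ≠ 0)
    (h2 : ∀ a b, a ≠ b → w (D a (u b)) = 0) (h3 : ∀ a j, w (σ j) = 0 → w (D a (σ j)) = 0) :
    ∃ (y : Fin n → A) (lab : Fin n → WithBot ℕ) (hk : k ≤ n), LC w y ∧ Lab σ w y lab ∧
      ∀ a, y (Fin.castLE hk a) = u a ∧ lab (Fin.castLE hk a) = ⊥ := by
  have main : ∀ s : Finset (Fin k), ∃ (y : Fin n → A) (lab : Fin n → WithBot ℕ),
      LC w y ∧ Lab σ w y lab ∧ ∀ a ∈ s, ∃ i, y i = u a ∧ lab i = ⊥ := by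
    intro s
    induction s using Finset.induction_on with
    | empty =>
      obtain ⟨y, lab, k1, k2⟩ := H
      exact ⟨y, lab, k1, k2, fun a ha => absurd ha (Finset.notMem_empty a)⟩
    | insert a s ha ih =>
      obtain ⟨y, lab, k1, k2, k3⟩ := ih
      have hm : u a ∈ sat w (JJ y (fun _ => (0 : ℚ)) 0) := by
        refine le_sat w _ ?_
        rw [JJ_nonpos y _ le_rfl]
        trivial
      obtain ⟨α, _, hα⟩ := lin_part k1 (c := fun _ => (0 : ℚ)) (fun _ => le_rfl) (h0 a) hm
      have h4 := h1 a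
      rw [hα] at h4
      obtain ⟨i0, _, hi0⟩ := Finset.exists_ne_zero_of_sum_ne_zero h4
      have h5 : α i0 ≠ 0 := left_ne_zero_of_mul hi0
      have h6 : w (D a (y i0)) ≠ 0 := right_ne_zero_of_mul hi0
      have h7 : ∀ j : ℕ, lab i0 ≠ j := by
        intro j hj
        have e := k2.eq i0 j hj
        exact h6 (e ▸ h3 a j (e ▸ k1.van i0))
      have h8 : lab i0 = ⊥ := by
        by_contra hb
        obtain ⟨j, hj⟩ := WithBot.ne_bot_iff_exists.1 hb
        exact h7 j hj.symm
      obtain ⟨E, Δ, hΔ, hE⟩ := k1.dual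
      have h9 : ∀ i, i ≠ i0 → w (E i0 (y i)) = 0 := fun i hi => by
        rw [hE, if_neg (Ne.symm hi), map_zero]
      have h10 : w (E i0 (u a)) ≠ 0 := by
        rw [hα, Finset.sum_eq_single i0 (fun i _ hi => by rw [h9 i hi, mul_zero])
          (fun hi => absurd (Finset.mem_univ i0) hi), hE, if_pos rfl]
        exact mul_ne_zero h5 hΔ
      refine ⟨Function.update y i0 (u a), lab,
        (exch k1 (c := fun _ => (0 : ℚ)) (fun _ => le_rfl) i0 (h0 a) hm (E i0) h10 h9).1,
        ⟨fun i j hj => ?_, k2.ex⟩, fun b hb => ?_⟩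
      · have hi : i ≠ i0 := fun e => h7 j (e ▸ hj)
        rw [Function.update_of_ne hi]
        exact k2.eq i j hj
      · rcases Finset.mem_insert.1 hb with rfl | hb
        · exact ⟨i0, Function.update_self _ _ _, h8⟩
        · obtain ⟨i, m1, m2⟩ := k3 b hb
          refine ⟨i, ?_, m2⟩
          rw [Function.update_of_ne, m1]
          rintro rfl
          exact h6 (m1 ▸ h2 a b fun e => ha (e ▸ hb))
  obtain ⟨y, lab, k1, k2, k3⟩ := main Finset.univ
  choose e he1 he2 using fun a => k3 a (Finset.mem_univ a)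
  have hinj : Function.Injective e := by
    intro a b hab
    by_contra hne
    have e1 : u a = u b := by rw [← he1 a, ← he1 b, hab]
    exact h1 a (e1 ▸ h2 a b hne)
  have hk : k ≤ n := by simpa using Fintype.card_le_of_injective e hinj
  obtain ⟨τ, hτ⟩ := Equiv.Perm.exists_extending_pair _ _ (Fin.castLE_injective hk) hinj
  refine ⟨y ∘ τ, lab ∘ τ, hk, k1.reindex τ, ⟨fun i j hj => k2.eq (τ i) j hj, fun j hj => ?_⟩,
    fun a => ⟨?_, ?_⟩⟩
  · obtain ⟨i, hi⟩ := k2.ex j hj
    exact ⟨τ.symm i, by rw [Function.comp_apply, Equiv.apply_symm_apply]; exact hi⟩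
  · rw [Function.comp_apply, hτ, he1]
  · rw [Function.comp_apply, hτ, he2]

end Pool.Agent.P.MP_824f38_ag.N
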