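import Pool.Agent.P.MP_824f38_ag.N.Loc

/-! Row NEC-LNull: closed points: Nullstellensatz, local-global principles, finite covers

Every maximal ideal of a finitely generated ℂ-algebra is the kernel of a ℂ-point (Zariski lemma:
finite_of_finite_type_of_isJacobsonRing, IsAlgClosed.algebraMap_bijective_of_isIntegral); A is a Jacobson ring.
fin_cover: f lies in the radical of J ⊔ span (range of hh on the relevant points); write a power of f as a finite sum. -/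

set_option linter.unusedVariables false
set_option linter.unusedSectionVars false
set_option linter.style.haveILetI false
set_option linter.dupNamespace false

namespace Pool.Agent.P.MP_824f38_ag.N

variable {A : Type} [CommRing A] [Algebra ℂ A] [Algebra.FiniteType ℂ A]

theorem exists_pt_of_maximal (𝔪 : Ideal A) [𝔪.IsMaximal] :
    ∃ w : A →ₐ[ℂ] ℂ, ∀ a, w a = 0 ↔ a ∈ 𝔪 := by
  letI : Field (A ⧸ 𝔪) := Ideal.Quotient.field 𝔪
  haveI : Module.Finite ℂ (A ⧸ 𝔪) := finite_of_finite_type_of_isJacobsonRing ℂ (A ⧸ 𝔪)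
  have hb : Function.Bijective (algebraMap ℂ (A ⧸ 𝔪)) :=
    IsAlgClosed.algebraMap_bijective_of_isIntegral
  let e : ℂ ≃ₐ[ℂ] (A ⧸ 𝔪) := AlgEquiv.ofBijective (Algebra.ofId ℂ (A ⧸ 𝔪)) hb
  refine ⟨(e.symm : (A ⧸ 𝔪) →ₐ[ℂ] ℂ).comp (Ideal.Quotient.mkₐ ℂ 𝔪), fun a => ?_⟩
  rw [AlgHom.comp_apply, Ideal.Quotient.mkₐ_eq_mk, ← Ideal.Quotient.eq_zero_iff_mem]
  exact map_eq_zero_iff _ e.symm.injective

theorem mem_radical_of_pts {J : Ideal A} {f : A}
    (h : ∀ w : A →ₐ[ℂ] ℂ, (∀ a ∈ J, w a = 0) → w f = 0) : f ∈ J.radical := by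
  haveI : IsJacobsonRing A := isJacobsonRing_of_finiteType (A := ℂ)
  rw [← IsJacobsonRing.out inferInstance J.radical_isRadical, Ideal.jacobson, Ideal.mem_sInf]
  rintro 𝔪 ⟨h1, h2⟩
  obtain ⟨w, hw⟩ := exists_pt_of_maximal 𝔪
  exact (hw f).1 (h w fun a ha => (hw a).2 (h1 (Ideal.le_radical ha)))

theorem exists_pt_of_notMem {𝔭 : Ideal A} [𝔭.IsPrime] {f : A} (hf : f ∉ 𝔭) :
    ∃ w : A →ₐ[ℂ] ℂ, (∀ a ∈ 𝔭, w a = 0) ∧ w f ≠ 0 := by
  by_contra hc
  refine hf ?_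
  have : f ∈ 𝔭.radical := mem_radical_of_pts fun w hw => by
    by_contra h0
    exact hc ⟨w, hw, h0⟩
  rwa [Ideal.IsPrime.radical inferInstance] at this

theorem mem_of_sat {J : Ideal A} {f : A} (h : ∀ w : A →ₐ[ℂ] ℂ, f ∈ sat w J) : f ∈ J := by
  have : (1 : A) ∈ (J.colon {f}).radical := mem_radical_of_pts fun w hw => by
    obtain ⟨k, k0, hk⟩ := h w
    exact absurd (hw k (Submodule.mem_colon_singleton.2 (by simpa using hk))) k0
  obtain ⟨n, hn⟩ := this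
  simpa using Submodule.mem_colon_singleton.1 hn

theorem pow_mul_mem_of_sat {J : Ideal A} {f g : A}
    (h : ∀ w : A →ₐ[ℂ] ℂ, w g ≠ 0 → f ∈ sat w J) : ∃ n : ℕ, g ^ n * f ∈ J := by
  have : g ∈ (J.colon {f}).radical := mem_radical_of_pts fun w hw => by
    by_contra h0
    obtain ⟨k, k0, hk⟩ := h w h0
    exact absurd (hw k (Submodule.mem_colon_singleton.2 (by simpa using hk))) k0
  obtain ⟨n, hn⟩ := this
  exact ⟨n, by simpa using Submodule.mem_colon_singleton.1 hn⟩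

theorem mem_of_loc {P : Type} [AddCommGroup P] [Module A P] {N : Submodule A P} {x : P}
    (h : ∀ w : A →ₐ[ℂ] ℂ, ∃ a, w a ≠ 0 ∧ a • x ∈ N) : x ∈ N := by
  have : (1 : A) ∈ (N.colon {x}).radical := mem_radical_of_pts fun w hw => by
    obtain ⟨k, k0, hk⟩ := h w
    exact absurd (hw k (Submodule.mem_colon_singleton.2 hk)) k0
  obtain ⟨n, hn⟩ := this
  simpa using Submodule.mem_colon_singleton.1 hn

theorem span_eq_top_of_pts {s : Set A} (h : ∀ w : A →ₐ[ℂ] ℂ, ∃ a ∈ s, w a ≠ 0) :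
    Ideal.span s = ⊤ := by
  rw [← Ideal.radical_eq_top, Ideal.eq_top_iff_one]
  refine mem_radical_of_pts fun w hw => ?_
  obtain ⟨a, ha, h0⟩ := h w
  exact absurd (hw a (Ideal.subset_span ha)) h0

theorem fin_cover (J : Ideal A) (f : A) (hh : (A →ₐ[ℂ] ℂ) → A)
    (h : ∀ w : A →ₐ[ℂ] ℂ, (∀ a ∈ J, w a = 0) → w f ≠ 0 → w (hh w) ≠ 0) :
    ∃ s : Finset (A →ₐ[ℂ] ℂ), (∀ w ∈ s, (∀ a ∈ J, w a = 0) ∧ w f ≠ 0) ∧
      ∀ w' : A →ₐ[ℂ] ℂ, (∀ a ∈ J, w' a = 0) → w' f ≠ 0 → ∃ w ∈ s, w' (hh w) ≠ 0 := by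
  classical
  let S : Set (A →ₐ[ℂ] ℂ) := {w | (∀ a ∈ J, w a = 0) ∧ w f ≠ 0}
  have h1 : f ∈ (J ⊔ Ideal.span (hh '' S)).radical := mem_radical_of_pts fun w hw => by
    by_contra h0
    have hJ : ∀ a ∈ J, w a = 0 := fun a ha => hw a (Ideal.mem_sup_left ha)
    exact h w hJ h0 (hw _ (Ideal.mem_sup_right (Ideal.subset_span ⟨w, ⟨hJ, h0⟩, rfl⟩)))
  obtain ⟨n, hn⟩ := h1
  obtain ⟨u, hu, v, hv, huv⟩ := Submodule.mem_sup.1 hn
  obtain ⟨T, hT, hvT⟩ := Submodule.mem_span_finite_of_mem_span hv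
  obtain ⟨s, hs, rfl⟩ := Finset.subset_set_image_iff.1 hT
  refine ⟨s, fun w hw => hs hw, fun w' hJ h0 => ?_⟩
  by_contra hc
  have hz : ∀ w ∈ s, w' (hh w) = 0 := fun w hw => by
    by_contra h2
    exact hc ⟨w, hw, h2⟩
  have hv0 : w' v = 0 := by
    have : Submodule.span A (↑(s.image hh) : Set A) ≤ RingHom.ker w' := by
      rw [Submodule.span_le]
      intro a ha
      obtain ⟨w, hw, rfl⟩ := Finset.mem_image.1 (Finset.mem_coe.1 ha)
      exact hz w hw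
    exact this hvT
  have : w' f ^ n = 0 := by rw [← map_pow, ← huv, map_add, hJ u hu, hv0, add_zero]
  exact h0 (eq_zero_of_pow_eq_zero this)

/-- a uniform denominator -/
theorem exists_unif {w : A →ₐ[ℂ] ℂ} {I J : Ideal A} (h : I ≤ sat w J) :
    ∃ a, w a ≠ 0 ∧ ∀ f ∈ I, a * f ∈ J := by
  haveI : IsNoetherianRing A := Algebra.FiniteType.isNoetherianRing ℂ A
  obtain ⟨s, rfl⟩ : I.FG := IsNoetherian.noetherian I
  choose! k k0 hk using fun f (hf : f ∈ s) => h (Ideal.subset_span (Finset.mem_coe.2 hf))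
  refine ⟨∏ f ∈ s, k f, ?_, fun f hf => ?_⟩
  · rw [map_prod]; exact Finset.prod_ne_zero_iff.2 k0
  · have : Ideal.span (s : Set A) ≤ J.colon {∏ f ∈ s, k f} := by
      rw [Ideal.span_le]
      intro g hg
      obtain ⟨c, hc⟩ := Finset.dvd_prod_of_mem k (Finset.mem_coe.1 hg)
      refine Submodule.mem_colon_singleton.2 ?_
      rw [hc, smul_eq_mul, show g * (k g * c) = c * (k g * g) by ring]
      exact J.mul_mem_left _ (hk g hg)
    have h2 := Submodule.mem_colon_singleton.1 (this hf)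
    rwa [smul_eq_mul, mul_comm] at h2

/-- points of a localisation -/
theorem exists_pt_away {w : A →ₐ[ℂ] ℂ} {h : A} (hw : w h ≠ 0) :
    ∃ w' : Localization.Away h →ₐ[ℂ] ℂ, w'.comp (toAway h) = w := by
  have hu : ∀ y : Submonoid.powers h, IsUnit (w y) := by
    rintro ⟨_, n, rfl⟩
    exact isUnit_iff_ne_zero.2 (by simpa using fun h0 => absurd h0 hw)
  refine ⟨IsLocalization.liftAlgHom (M := Submonoid.powers h) hu, ?_⟩
  ext a
  simp

/-- Krull intersection at a closed point -/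
theorem sat_krull {w : A →ₐ[ℂ] ℂ} {J : Ideal A} {f : A}
    (h : ∀ n : ℕ, f ∈ sat w (J ⊔ RingHom.ker w ^ n)) : f ∈ sat w J := by
  haveI : IsNoetherianRing A := Algebra.FiniteType.isNoetherianRing ℂ A
  have hs : Function.Surjective w := fun c => ⟨algebraMap ℂ A c, by simp⟩
  have hm : (RingHom.ker w).IsMaximal := RingHom.ker_isMaximal_of_surjective w hs
  have h1 : ∀ n : ℕ, f ∈ J ⊔ RingHom.ker w ^ n := fun n => by
    obtain ⟨k, k0, hk⟩ := h n
    obtain ⟨v, u, hu, huv⟩ := Ideal.IsMaximal.exists_inv_pow (RingHom.ker w) (x := k) k0 n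
    rw [show f = v * (k * f) + u * f by rw [← mul_assoc, ← add_mul, huv, one_mul]]
    exact add_mem (Ideal.mul_mem_left _ _ hk) (Ideal.mem_sup_right (Ideal.mul_mem_right _ _ hu))
  have h2 : Submodule.Quotient.mk (p := J) f ∈
      (⨅ n : ℕ, RingHom.ker w ^ n • ⊤ : Submodule A (A ⧸ J)) := by
    rw [Submodule.mem_iInf]
    intro n
    obtain ⟨u, hu, v, hv, huv⟩ := Submodule.mem_sup.1 (h1 n)
    have : Submodule.Quotient.mk (p := J) f = v • Submodule.Quotient.mk (p := J) (1 : A) := by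
      rw [← Submodule.Quotient.mk_smul, Submodule.Quotient.eq, ← huv]
      simpa using hu
    rw [this]
    exact Submodule.smul_mem_smul hv Submodule.mem_top
  obtain ⟨r, hr⟩ := (Ideal.mem_iInf_smul_pow_eq_bot_iff _ _).1 h2
  have hr0 : w r = 0 := r.2
  refine ⟨(r : A) - 1, by simp [hr0], ?_⟩
  rw [← Submodule.Quotient.mk_smul, Submodule.Quotient.eq] at hr
  rwa [sub_mul, one_mul]

end Pool.Agent.P.MP_824f38_ag.N
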