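import Pool.Agent.P.MP_824f38_ag.N.LBasic

/-! Row NEC-LTaylor: Taylor expansion in local coordinates

expand: induction on n; an element of ker w is Σ b_i y_i / h. taylor: by sat_krull there is n with f not in sat (JJ q ⊔ ker^n); expand
to order n; some γ with t γ ≠ 0 has weight < q; take such γ with minimal |γ|. For a list L with counts γ:
word E L (y^γ') = Σ over γ'' ≤ γ of coefficients times the monomial derivative, with leading coefficient Δ^|γ|; so
w (word E L (y^γ')) = 0 unless γ' ≤ γ, and = w Δ^|γ| γ! for γ' = γ (a convenient invariant: word E L (y^γ') is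
Δ^|L| ∂^L y^γ' plus an element of the ideal spanned by the y^(γ'-γ'') with γ'' ≤ count L, γ'' ≤ γ', |γ''| < |L|). Words of length < n map
sat (ker^n) into ker w. Any γ' ≤ γ has weight < q, so t γ' = 0 for γ' < γ. -/

set_option linter.unusedVariables false
set_option linter.unusedSectionVars false
set_option linter.style.haveILetI false
set_option linter.dupNamespace false

namespace Pool.Agent.P.MP_824f38_ag.N

variable {A : Type} [CommRing A] [Algebra ℂ A] [Algebra.FiniteType ℂ A]
  {ι : Type} [Fintype ι] [DecidableEq ι] {w : A →ₐ[ℂ] ℂ}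

private theorem span_pow_approx {y : ι → A} (van : ∀ i, w (y i) = 0) (n : ℕ) :
    ∀ u ∈ Ideal.span (Set.range y) ^ n, ∃ P : MvPolynomial ι ℂ,
      u - MvPolynomial.aeval y P ∈ RingHom.ker w ^ (n + 1) := by
  induction n with
  | zero =>
    intro u _
    refine ⟨MvPolynomial.C (w u), ?_⟩
    rw [zero_add, pow_one, RingHom.mem_ker]
    simp
  | succ n ih =>
    have key : ∀ b ∈ Ideal.span (Set.range y), ∀ a ∈ Ideal.span (Set.range y) ^ n,
        ∃ P : MvPolynomial ι ℂ, a * b - MvPolynomial.aeval y P ∈ RingHom.ker w ^ (n + 1 + 1) := by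
      intro b hb
      induction hb using Submodule.span_induction with
      | mem x hx =>
        obtain ⟨i, rfl⟩ := hx
        intro a ha
        obtain ⟨P, hP⟩ := ih a ha
        refine ⟨P * MvPolynomial.X i, ?_⟩
        rw [map_mul, MvPolynomial.aeval_X, ← sub_mul, pow_succ _ (n + 1)]
        exact Ideal.mul_mem_mul hP (by rw [RingHom.mem_ker]; exact van i)
      | zero => intro a _; exact ⟨0, by simp⟩
      | add x z _ _ hx hz =>
        intro a ha
        obtain ⟨P, hP⟩ := hx a ha
        obtain ⟨Q, hQ⟩ := hz a ha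
        refine ⟨P + Q, ?_⟩
        rw [map_add, show a * (x + z) - (MvPolynomial.aeval y P + MvPolynomial.aeval y Q) =
          (a * x - MvPolynomial.aeval y P) + (a * z - MvPolynomial.aeval y Q) by ring]
        exact add_mem hP hQ
      | smul k x _ hx =>
        intro a ha
        obtain ⟨P, hP⟩ := hx (a * k) (Ideal.mul_mem_right _ _ ha)
        exact ⟨P, by rwa [smul_eq_mul, ← mul_assoc]⟩
    intro u hu
    rw [pow_succ] at hu
    refine Submodule.mul_induction_on hu (fun a ha b hb => key b hb a ha) ?_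
    rintro x z ⟨P, hP⟩ ⟨Q, hQ⟩
    refine ⟨P + Q, ?_⟩
    rw [map_add, show x + z - (MvPolynomial.aeval y P + MvPolynomial.aeval y Q) =
      (x - MvPolynomial.aeval y P) + (z - MvPolynomial.aeval y Q) by ring]
    exact add_mem hP hQ

private theorem pow_le_sat {I J : Ideal A} (h : I ≤ sat w J) (n : ℕ) : I ^ n ≤ sat w (J ^ n) := by
  induction n with
  | zero => rw [pow_zero, pow_zero]; exact le_sat w _
  | succ n ih =>
    rw [pow_succ, pow_succ]
    exact Ideal.mul_le.2 fun a ha b hb => sat_mul le_rfl (ih ha) (h hb)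

private theorem expand_step {y : ι → A} (H : LC w y) (n : ℕ) {g : A}
    (hg : g ∈ sat w (RingHom.ker w ^ n)) : ∃ P : MvPolynomial ι ℂ,
    g - MvPolynomial.aeval y P ∈ sat w (RingHom.ker w ^ (n + 1)) := by
  have h1 : RingHom.ker w ≤ sat w (Ideal.span (Set.range y)) := fun f hf => H.gen f hf
  obtain ⟨h, h0, hh⟩ := sat_le_sat w (pow_le_sat h1 n) hg
  obtain ⟨P, hP⟩ := span_pow_approx H.van n _ hh
  have h2 : g * (h - algebraMap ℂ A (w h)) ∈ sat w (RingHom.ker w ^ (n + 1)) := by
    refine sat_mul (I := RingHom.ker w ^ n) (J := RingHom.ker w) (pow_succ _ _).ge hg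
      (le_sat w _ ?_)
    rw [RingHom.mem_ker]
    simp
  refine ⟨MvPolynomial.C (w h)⁻¹ * P, ?_⟩
  have h3 : algebraMap ℂ A (w h)⁻¹ * algebraMap ℂ A (w h) = 1 := by
    rw [← map_mul, inv_mul_cancel₀ h0, map_one]
  have h4 : g - MvPolynomial.aeval y (MvPolynomial.C (w h)⁻¹ * P) =
      algebraMap ℂ A (w h)⁻¹ * ((h * g - MvPolynomial.aeval y P) -
        g * (h - algebraMap ℂ A (w h))) := by
    rw [map_mul, MvPolynomial.aeval_C]
    linear_combination (-g) * h3
  rw [h4]
  exact Ideal.mul_mem_left _ _ (sub_mem (le_sat w _ hP) h2)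

theorem expand {y : ι → A} (H : LC w y) (f : A) (n : ℕ) : ∃ P : MvPolynomial ι ℂ,
    f - MvPolynomial.aeval y P ∈ sat w (RingHom.ker w ^ n) := by
  induction n with
  | zero => exact ⟨0, le_sat w _ (by simp)⟩
  | succ n ih =>
    obtain ⟨P, hP⟩ := ih
    obtain ⟨Q, hQ⟩ := expand_step H n hP
    exact ⟨P + Q, by rwa [map_add, ← sub_sub]⟩

theorem word_sat {y : ι → A} {c : ι → ℚ} (hc : ∀ i, 0 ≤ c i) {E : ι → Derivation ℂ A A} {Δ : A}
    (hE : ∀ i j, E i (y j) = if i = j then Δ else 0) (L : List ι) {q : ℚ} {f : A}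
    (hf : f ∈ sat w (JJ y c q)) : word E L f ∈ sat w (JJ y c (q - (L.map c).sum)) := by
  induction L with
  | nil => simpa [word] using hf
  | cons i L ih =>
    have h : ∀ j, E i (y j) ∈ sat w (JJ y c (c j - c i)) := by
      intro j
      rw [hE]
      by_cases hij : i = j
      · subst hij
        rw [sub_self, JJ_nonpos y c le_rfl]
        exact le_sat w _ Submodule.mem_top
      · rw [if_neg hij]
        exact zero_mem _
    have h2 := der_sat (E i) (hc i) h ih
    rw [List.map_cons, List.sum_cons, show q - (c i + (L.map c).sum) = q - (L.map c).sum - c i by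
      ring]
    exact h2

private theorem word_add (E : ι → Derivation ℂ A A) (L : List ι) (f g : A) :
    word E L (f + g) = word E L f + word E L g := by
  induction L with
  | nil => rfl
  | cons i L ih =>
    change E i (word E L (f + g)) = E i (word E L f) + E i (word E L g)
    rw [ih, map_add]

/-- iterated derivatives of a polynomial -/
private noncomputable def dw (L : List ι) (P : MvPolynomial ι ℂ) : MvPolynomial ι ℂ :=
  L.foldr (fun i g => MvPolynomial.pderiv i g) P

private theorem coeff_dw (L : List ι) : ∀ β γ : ι →₀ ℕ, (∀ i, γ i = β i + L.count i) →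
    ∃ N : ℕ, N ≠ 0 ∧ ∀ P : MvPolynomial ι ℂ, (dw L P).coeff β = N * P.coeff γ := by
  induction L with
  | nil =>
    intro β γ h
    obtain rfl : γ = β := Finsupp.ext fun i => by simpa using h i
    exact ⟨1, one_ne_zero, fun P => by simp [dw]⟩
  | cons i L ih =>
    intro β γ h
    obtain ⟨N, N0, hN⟩ := ih (β + Finsupp.single i 1) γ (fun j => by
      rw [h j, List.count_cons, Finsupp.add_apply, Finsupp.single_apply]
      by_cases hij : i = j
      · subst hij
        simp only [beq_self_eq_true, if_true]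
        omega
      · have : (i == j) = false := by simpa using hij
        simp [this, hij])
    refine ⟨N * (β i + 1), mul_ne_zero N0 (Nat.succ_ne_zero _), fun P => ?_⟩
    change (MvPolynomial.pderiv i (dw L P)).coeff β = _
    rw [MvPolynomial.coeff_pderiv, hN]
    push_cast
    ring

private theorem der_aeval {y : ι → A} {E : ι → Derivation ℂ A A} {Δ : A}
    (hE : ∀ i j, E i (y j) = if i = j then Δ else 0) (i : ι) (P : MvPolynomial ι ℂ) :
    E i (MvPolynomial.aeval y P) = Δ * MvPolynomial.aeval y (MvPolynomial.pderiv i P) := by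
  induction P using MvPolynomial.induction_on with
  | C a => simp
  | add P Q hP hQ => rw [map_add, map_add, hP, hQ, map_add, map_add, mul_add]
  | mul_X P j hP =>
    rw [map_mul, MvPolynomial.aeval_X, Derivation.leibniz, hP, hE, Derivation.leibniz,
      MvPolynomial.pderiv_X, Pi.single_apply]
    by_cases hij : i = j
    · subst hij
      simp only [if_true, smul_eq_mul, map_add, map_mul, MvPolynomial.aeval_X, map_one]
      ring
    · rw [if_neg hij, if_neg (Ne.symm hij)]
      simp only [smul_eq_mul, map_add, map_mul, MvPolynomial.aeval_X, map_zero]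
      ring

private theorem word_aeval {y : ι → A} {E : ι → Derivation ℂ A A} {Δ : A}
    (hE : ∀ i j, E i (y j) = if i = j then Δ else 0) (P : MvPolynomial ι ℂ) (L : List ι) :
    word E L (MvPolynomial.aeval y P) - Δ ^ L.length * MvPolynomial.aeval y (dw L P) ∈
      Ideal.span {a | ∃ L' : List ι, L'.Sublist L ∧ L'.length < L.length ∧
        a = MvPolynomial.aeval y (dw L' P)} := by
  induction L with
  | nil => simp [word, dw]
  | cons i L ih =>
    set S : Ideal A := Ideal.span {a | ∃ L' : List ι, L'.Sublist (i :: L) ∧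
      L'.length < (i :: L).length ∧ a = MvPolynomial.aeval y (dw L' P)} with hS
    have hder : ∀ r ∈ Ideal.span {a | ∃ L' : List ι, L'.Sublist L ∧ L'.length < L.length ∧
        a = MvPolynomial.aeval y (dw L' P)}, r ∈ S ∧ E i r ∈ S := by
      intro r hr
      induction hr using Submodule.span_induction with
      | mem x hx =>
        obtain ⟨L', h1, h2, rfl⟩ := hx
        refine ⟨Ideal.subset_span ⟨L', h1.cons i, by rw [List.length_cons]; omega, rfl⟩, ?_⟩
        rw [der_aeval hE]
        exact Ideal.mul_mem_left _ _ (Ideal.subset_span ⟨i :: L', h1.cons_cons i,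
          by rw [List.length_cons, List.length_cons]; omega, rfl⟩)
      | zero => exact ⟨zero_mem _, by rw [map_zero]; exact zero_mem _⟩
      | add x z _ _ hx hz => exact ⟨add_mem hx.1 hz.1, by rw [map_add]; exact add_mem hx.2 hz.2⟩
      | smul k x _ hx =>
        refine ⟨Ideal.mul_mem_left _ _ hx.1, ?_⟩
        rw [smul_eq_mul, Derivation.leibniz, smul_eq_mul, smul_eq_mul]
        exact add_mem (Ideal.mul_mem_left _ _ hx.2) (Ideal.mul_mem_right _ _ hx.1)
    have h1 := (hder _ ih).2
    have h2 : MvPolynomial.aeval y (dw L P) ∈ S :=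
      Ideal.subset_span ⟨L, List.sublist_cons_self i L, by rw [List.length_cons]; omega, rfl⟩
    have h3 : word E (i :: L) (MvPolynomial.aeval y P) -
        Δ ^ (i :: L).length * MvPolynomial.aeval y (dw (i :: L) P) =
        E i (word E L (MvPolynomial.aeval y P) - Δ ^ L.length * MvPolynomial.aeval y (dw L P)) +
          MvPolynomial.aeval y (dw L P) * E i (Δ ^ L.length) := by
      change E i (word E L (MvPolynomial.aeval y P)) -
        Δ ^ (L.length + 1) * MvPolynomial.aeval y (MvPolynomial.pderiv i (dw L P)) = _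
      rw [map_sub, Derivation.leibniz, der_aeval hE, smul_eq_mul, smul_eq_mul]
      ring
    rw [h3]
    exact add_mem h1 (Ideal.mul_mem_right _ _ h2)

private theorem w_aeval {y : ι → A} (van : ∀ i, w (y i) = 0) (P : MvPolynomial ι ℂ) :
    w (MvPolynomial.aeval y P) = P.coeff 0 := by
  induction P using MvPolynomial.induction_on with
  | C a => simp
  | add P Q hP hQ => rw [map_add, map_add, hP, hQ, MvPolynomial.coeff_add]
  | mul_X P j hP =>
    rw [map_mul, map_mul, MvPolynomial.aeval_X, van, mul_zero, MvPolynomial.coeff_mul_X']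
    simp

private theorem sum_count (c : ι → ℚ) (L : List ι) :
    ∑ i, (L.count i : ℚ) * c i = (L.map c).sum := by
  induction L with
  | nil => simp
  | cons j L ih =>
    rw [List.map_cons, List.sum_cons, ← ih]
    have : ∀ i, (((j :: L).count i : ℕ) : ℚ) * c i =
        (if j = i then c i else 0) + (L.count i : ℚ) * c i := by
      intro i
      rw [List.count_cons]
      by_cases h : j = i
      · subst h
        simp only [beq_self_eq_true, if_true]
        push_cast
        ring
      · have : (j == i) = false := by simpa using h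
        simp [this, h]
    rw [Finset.sum_congr rfl fun i _ => this i, Finset.sum_add_distrib, Finset.sum_ite_eq]
    simp

private theorem sum_count_len (L : List ι) : ∑ i, L.count i = L.length := by
  have h := sum_count (fun _ : ι => (1 : ℚ)) L
  simp only [mul_one, List.map_const', List.sum_replicate, nsmul_eq_mul] at h
  exact_mod_cast h

/-- the lowest monomial of weight below `q` is detected by its words -/
private theorem detect {y : ι → A} (van : ∀ i, w (y i) = 0) {c : ι → ℚ} (hc : ∀ i, 0 ≤ c i)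
    {E : ι → Derivation ℂ A A} {Δ : A} (hΔ : w Δ ≠ 0)
    (hE : ∀ i j, E i (y j) = if i = j then Δ else 0) {q : ℚ} {P : MvPolynomial ι ℂ}
    {α : ι →₀ ℕ} (hα : α ∈ P.support) (hq : ∑ i, (α i : ℚ) * c i < q) :
    ∃ γ : ι →₀ ℕ, ∑ i, (γ i : ℚ) * c i < q ∧ ∑ i, γ i ≤ ∑ i, α i ∧
      ∀ L : List ι, (∀ i, L.count i = γ i) → w (word E L (MvPolynomial.aeval y P)) ≠ 0 := by
  obtain ⟨γ, hγ, hmin⟩ := Finset.exists_min_image
    (P.support.filter fun β => ∑ i, (β i : ℚ) * c i < q) (fun β => ∑ i, β i)
    ⟨α, Finset.mem_filter.2 ⟨hα, hq⟩⟩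
  obtain ⟨hγ1, hγ2⟩ := Finset.mem_filter.1 hγ
  refine ⟨γ, hγ2, hmin α (Finset.mem_filter.2 ⟨hα, hq⟩), fun L hL => ?_⟩
  have hlen : ∑ i, γ i = L.length := by
    rw [← sum_count_len L]
    exact Finset.sum_congr rfl fun i _ => (hL i).symm
  have h1 : Ideal.span {a | ∃ L' : List ι, L'.Sublist L ∧ L'.length < L.length ∧
      a = MvPolynomial.aeval y (dw L' P)} ≤ RingHom.ker w := by
    rw [Ideal.span_le]
    rintro a ⟨L', hs, hl, rfl⟩
    let γ' : ι →₀ ℕ := Finsupp.equivFunOnFinite.symm fun i => L'.count i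
    have hγ' : ∀ i, γ' i = L'.count i := fun i => rfl
    obtain ⟨N, _, hN⟩ := coeff_dw L' 0 γ' (fun i => by simp [hγ'])
    have h0 : P.coeff γ' = 0 := by
      by_contra h0
      have hw : ∑ i, (γ' i : ℚ) * c i < q := by
        refine lt_of_le_of_lt (Finset.sum_le_sum fun i _ => ?_) hγ2
        refine mul_le_mul_of_nonneg_right ?_ (hc i)
        rw [hγ', ← hL i]
        exact_mod_cast hs.count_le i
      have h2 := hmin γ' (Finset.mem_filter.2 ⟨MvPolynomial.mem_support_iff.2 h0, hw⟩)
      have h3 : ∑ i, γ' i = L'.length := sum_count_len L'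
      omega
    change w (MvPolynomial.aeval y (dw L' P)) = 0
    rw [w_aeval van, hN, h0, mul_zero]
  have h2 : w (word E L (MvPolynomial.aeval y P) -
      Δ ^ L.length * MvPolynomial.aeval y (dw L P)) = 0 := h1 (word_aeval hE P L)
  obtain ⟨N, N0, hN⟩ := coeff_dw L 0 γ (fun i => by simp [hL i])
  rw [map_sub, map_mul, map_pow, w_aeval van, hN, sub_eq_zero] at h2
  rw [h2]
  exact mul_ne_zero (pow_ne_zero _ hΔ)
    (mul_ne_zero (Nat.cast_ne_zero.2 N0) (MvPolynomial.mem_support_iff.1 hγ1))

private theorem ker_pow_le {y : ι → A} (H : LC w y) (n : ℕ) :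
    RingHom.ker w ^ n ≤ sat w (JJ y (fun _ => 1) n) := by
  induction n with
  | zero =>
    rw [Nat.cast_zero, JJ_nonpos y _ le_rfl]
    exact le_top.trans (le_sat w _)
  | succ n ih =>
    have h1 : RingHom.ker w ≤ sat w (JJ y (fun _ => 1) 1) := by
      intro f hf
      refine sat_mono w ?_ (H.gen f hf)
      rw [Ideal.span_le]
      rintro a ⟨i, rfl⟩
      exact mem_JJ_self y (fun _ => 1) i
    rw [pow_succ, Nat.cast_succ]
    exact Ideal.mul_le.2 fun a ha b hb => sat_mul (JJ_mul y _ _ _) (ih ha) (h1 hb)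

private theorem prod_mem_pow {y : ι → A} (van : ∀ i, w (y i) = 0) (α : ι → ℕ) :
    ∏ i, y i ^ α i ∈ RingHom.ker w ^ (∑ i, α i) := by
  rw [← Finset.prod_pow_eq_pow_sum]
  exact Ideal.prod_mem_prod fun i _ => Ideal.pow_mem_pow (by rw [RingHom.mem_ker]; exact van i) _

theorem taylor {y : ι → A} (H : LC w y) {c : ι → ℚ} (hc : ∀ i, 0 ≤ c i)
    {E : ι → Derivation ℂ A A} {Δ : A} (hΔ : w Δ ≠ 0)
    (hE : ∀ i j, E i (y j) = if i = j then Δ else 0) {q : ℚ} {f : A}
    (hf : f ∉ sat w (JJ y c q)) : ∃ γ : ι → ℕ, ∑ i, (γ i : ℚ) * c i < q ∧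
      ∀ L : List ι, (∀ i, L.count i = γ i) → w (word E L f) ≠ 0 := by
  obtain ⟨n, hn⟩ : ∃ n : ℕ, f ∉ sat w (JJ y c q ⊔ RingHom.ker w ^ n) := by
    by_contra h
    exact hf (sat_krull fun n => by
      by_contra h'
      exact h ⟨n, h'⟩)
  obtain ⟨P, hP⟩ := expand H f n
  obtain ⟨α, hα, hq, hlt⟩ : ∃ α ∈ P.support, ∑ i, (α i : ℚ) * c i < q ∧ ∑ i, α i < n := by
    by_contra h
    apply hn
    have h1 : MvPolynomial.aeval y P ∈ JJ y c q ⊔ RingHom.ker w ^ n := by
      rw [P.as_sum, map_sum]
      refine Ideal.sum_mem _ fun α hα => ?_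
      rw [MvPolynomial.aeval_monomial, Finsupp.prod_fintype _ _ fun i => pow_zero _]
      refine Ideal.mul_mem_left _ _ ?_
      by_cases hq : ∑ i, (α i : ℚ) * c i < q
      · have hn' : n ≤ ∑ i, α i := not_lt.1 fun h' => h ⟨α, hα, hq, h'⟩
        exact Ideal.mem_sup_right (Ideal.pow_le_pow_right hn' (prod_mem_pow H.van α))
      · exact Ideal.mem_sup_left (Ideal.subset_span ⟨α, not_lt.1 hq, rfl⟩)
    have h2 := add_mem (sat_mono w (le_sup_right (a := JJ y c q)) hP) (le_sat w _ h1)
    rwa [sub_add_cancel] at h2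
  obtain ⟨γ, hγ, hle, hw⟩ := detect H.van hc hΔ hE hα hq
  refine ⟨γ, hγ, fun L hL => ?_⟩
  have hlen : L.length < n := by
    rw [← sum_count_len L, Finset.sum_congr rfl fun i _ => hL i]
    exact lt_of_le_of_lt hle hlt
  have h1 := word_sat (c := fun _ => 1) (fun _ => zero_le_one) hE L
    (sat_le_sat w (ker_pow_le H n) hP)
  have h2 := sat_JJ_van H.van _ (by
    simp only [List.map_const', List.sum_replicate, nsmul_eq_mul, mul_one, sub_pos]
    exact_mod_cast hlen) h1
  have h3 : f = (f - MvPolynomial.aeval y P) + MvPolynomial.aeval y P := (sub_add_cancel _ _).symm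
  rw [h3, word_add, map_add, h2, zero_add]
  exact hw L hL

/-- a polynomial in the coordinates lies in the weight filtration only if all its monomials do -/
theorem aeval_mem_sat {y : ι → A} (H : LC w y) {c : ι → ℚ} (hc : ∀ i, 0 ≤ c i) {q : ℚ}
    {P : MvPolynomial ι ℂ} (h : MvPolynomial.aeval y P ∈ sat w (JJ y c q)) :
    ∀ α ∈ P.support, q ≤ ∑ i, (α i : ℚ) * c i := by
  intro α hα
  by_contra hq
  obtain ⟨E, Δ, hΔ, hE⟩ := H.dual
  obtain ⟨γ, hγ, _, hw⟩ := detect H.van hc hΔ hE hα (not_le.1 hq)
  have hL : ∀ i, (Finsupp.toMultiset γ).toList.count i = γ i := by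
    intro i
    rw [← Multiset.coe_count, Multiset.coe_toList, Finsupp.count_toMultiset]
  refine hw _ hL (sat_JJ_van H.van c ?_ (word_sat hc hE _ h))
  rw [← sum_count, Finset.sum_congr rfl fun i _ => by rw [hL i]]
  exact sub_pos.2 hγ

theorem LC.algInd {y : ι → A} (H : LC w y) : AlgebraicIndependent ℂ y := by
  rw [algebraicIndependent_iff]
  intro P hP
  by_contra h0
  obtain ⟨α, hα⟩ := MvPolynomial.support_nonempty.2 h0
  have h := aeval_mem_sat H (c := fun _ => 0) (fun _ => le_rfl) (q := 1) (P := P)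
    (by rw [hP]; exact zero_mem _) α hα
  simp only [mul_zero, Finset.sum_const_zero] at h
  exact absurd h (by norm_num)

end Pool.Agent.P.MP_824f38_ag.N
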