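import Pool.Agent.P.MP_824f38_ag.N.LExch
import Pool.Agent.P.MP_824f38_ag.N.LTaylor

/-! Row NEC-LRun: existence of the canonical centre

State at stage i ≤ N: WS Γ with Γ.N = N, LC, Lab, c t > 0 for t < i, c t = 0 for t ≥ i, sorted keys below i, Cert and Gen below i, I ≤ sat of JJ
for the weights c' = (c 0, ..., c (i-1), c (i-1), ..., c (i-1)) if i > 0, and minimality: for i > 0 every label l that is available at stage i-1
(see below) is ≥ lab (i-1). If I ≤ sat (Γ.J 1) stop (this holds for i = N). Otherwise taylor gives f in I and γ = (α, β) with α·c < 1 and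
w (word L f) ≠ 0; |β| ≥ 1 (word_sat, or I ≤ ker w for i = 0). Let c i be the maximum of (1 - α·c) / |β| over all such (f, γ) (it is attained: bounded |β|, finitely many
values of α·c below 1); c i ≤ c (i-1), and I ≤ sat JJ for (c 0, ..., c i, ..., c i) by taylor. Take L with head k ≥ i and u = word tail f:
Drv (c i) u (E t has level min t i). Call l available at stage i if there are u, D, b with Drv, Lev y i D, the divisor condition of CertAt for l,
w (D u + b u) ≠ 0, and l = ⊥ or l = lab t for some t ≥ i. lab k is available. Take l minimal. If l = ⊥ exchange u with an unlabelled y t, t ≥ i (lin_part, exch);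
otherwise take t with lab t = l. Swap t and i. If c i = c (i-1), available at stage i implies available at stage i-1, so the keys are sorted.
Drv at stage t only depends on y s (s < t) and c s (s ≤ t). Helper files N/LRun1.lean etc. are welcome. -/

set_option linter.unusedVariables false
set_option linter.unusedSectionVars false
set_option linter.style.haveILetI false
set_option linter.dupNamespace false

namespace Pool.Agent.P.MP_824f38_ag.N

variable {A : Type} [CommRing A] [Algebra ℂ A] [Algebra.FiniteType ℂ A] {w : A →ₐ[ℂ] ℂ}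

theorem Drv.congr {I : Ideal A} {y y' : ℕ → A} {c c' : ℕ → ℚ} {i : ℕ} (hy : ∀ t, t < i → y t = y' t)
    (hc : ∀ t, t ≤ i → c t = c' t) {q : ℚ} {g : A} (h : Drv I y c i q g) : Drv I y' c' i q g := by
  induction h with
  | base f hf => exact .base f hf
  | smul b _ ih => exact .smul b ih
  | add _ _ ih ih' => exact .add ih ih'
  | mono hq _ ih => exact .mono hq ih
  | der D l hl hD _ ih =>
    rw [hc l hl]
    exact .der D l hl (fun t ht => hy t (ht.trans_le hl) ▸ hD t ht) ih

theorem run_drv_down {I : Ideal A} {y : ℕ → A} {c : ℕ → ℚ} {j : ℕ} (hc : c (j + 1) = c j)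
    {q : ℚ} {g : A} (h : Drv I y c (j + 1) q g) : Drv I y c j q g := by
  induction h with
  | base f hf => exact .base f hf
  | smul b _ ih => exact .smul b ih
  | add _ _ ih ih' => exact .add ih ih'
  | mono hq _ ih => exact .mono hq ih
  | der D l hl hD _ ih =>
    rcases hl.eq_or_lt with rfl | hl
    · rw [hc]
      exact .der D j le_rfl (fun t ht => hD t (by omega)) ih
    · exact .der D l (by omega) hD ih

/-- the weights `c t` for `t < i`, continued by `x` -/
def run_cx (N : ℕ) (c : ℕ → ℚ) (i : ℕ) (x : ℚ) : Fin N → ℚ :=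
  fun t => if (t : ℕ) < i then c t else x

/-- the label `l` is available at stage `i` -/
def run_Av (σ : ℕ → A) (I : Ideal A) (w : A →ₐ[ℂ] ℂ) (N : ℕ) (y : ℕ → A) (c : ℕ → ℚ)
    (lab : ℕ → WithBot ℕ) (i : ℕ) (l : WithBot ℕ) : Prop :=
  ∃ (u : A) (D : Derivation ℂ A A) (b : A), Drv I y c i (c i) u ∧ Lev y i D ∧
    (∀ j : ℕ, (j : WithBot ℕ) ≠ l → σ j ∣ D (σ j) ∨ w (σ j) ≠ 0) ∧
    w (D u + b * u) ≠ 0 ∧ (l = ⊥ ∨ ∃ t, i ≤ t ∧ t < N ∧ lab t = l)

/-- the state at stage `i` -/
structure run_St (σ : ℕ → A) (I : Ideal A) (w : A →ₐ[ℂ] ℂ) (N : ℕ) (y : ℕ → A) (c : ℕ → ℚ)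
    (lab : ℕ → WithBot ℕ) (i : ℕ) : Prop where
  le : i ≤ N
  lc : LC w fun t : Fin N => y t
  lb : Lab σ w (fun t : Fin N => y t) fun t => lab t
  pos : ∀ t, t < i → 0 < c t
  zero : ∀ t, i ≤ t → c t = 0
  anti : Antitone c
  srt : ∀ t, t + 1 < i → mkKey (c t) (lab t) ≤ mkKey (c (t + 1)) (lab (t + 1))
  cert : ∀ t, t < i → (WS.mk N y c lab).CertAt σ I w t
  gen : ∀ t, t < i → ∃ (r : ℕ → ℕ) (n : ℕ), 1 ≤ n ∧
    ∑ s ∈ Finset.range t, (r s : ℚ) * c s + n * c t = 1
  adm : ∃ x, 0 < x ∧ I ≤ sat w (JJ (fun t : Fin N => y t) (run_cx N c i x) 1) ∧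
    ∀ j, j + 1 = i → x = c j
  mn : ∀ j, j + 1 = i → ∀ l, run_Av σ I w N y c lab j l → lab j ≤ l

section

variable {σ : ℕ → A} {I : Ideal A} {N : ℕ} {y : ℕ → A} {c : ℕ → ℚ} {lab : ℕ → WithBot ℕ} {i : ℕ}

theorem run_St.nonneg (S : run_St σ I w N y c lab i) (t : ℕ) : 0 ≤ c t := by
  rcases lt_or_ge t i with h | h
  · exact (S.pos t h).le
  · exact (S.zero t h).ge

theorem run_St.cx_nonneg (S : run_St σ I w N y c lab i) {x : ℚ} (hx : 0 ≤ x) (t : Fin N) :
    0 ≤ run_cx N c i x t := by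
  unfold run_cx
  split_ifs
  exacts [S.nonneg t, hx]

theorem run_St.good (S : run_St σ I w N y c lab i)
    (h : I ≤ sat w (JJ (fun t : Fin N => y t) (run_cx N c i 0) 1)) :
    (WS.mk N y c lab).Good σ I w := by
  have hlt : ∀ t, 0 < c t → t < i := fun t ht => not_le.1 fun h => ht.ne' (S.zero t h)
  refine ⟨⟨⟨S.nonneg, fun t ht => S.zero t (S.le.trans ht), monotone_nat_of_le_succ fun t => ?_⟩,
    S.lc, S.lb⟩, ?_, fun t ht => S.cert t (hlt t ht), fun t ht => S.gen t (hlt t ht)⟩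
  · rcases lt_or_ge (t + 1) i with h | h
    · exact S.srt t h
    · change mkKey (c t) (lab t) ≤ mkKey (c (t + 1)) (lab (t + 1))
      rw [S.zero _ h, show mkKey 0 (lab (t + 1)) = mkKey 0 ⊥ by simp [mkKey]]
      exact mkKey_le_pad (S.nonneg t) _
  · have e : run_cx N c i 0 = fun t : Fin N => c t := by
      funext t
      unfold run_cx
      split_ifs with ht
      exacts [rfl, (S.zero t (not_lt.1 ht)).symm]
    rw [e] at h
    exact h

theorem run_affine (N : ℕ) (c : ℕ → ℚ) (i : ℕ) (L : List (Fin N)) : ∃ (r : ℕ → ℕ) (n : ℕ), ∀ x,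
    (L.map (run_cx N c i x)).sum = ∑ s ∈ Finset.range i, (r s : ℚ) * c s + n * x := by
  induction L with
  | nil => exact ⟨0, 0, fun x => by simp⟩
  | cons t L ih =>
    obtain ⟨r, n, h⟩ := ih
    by_cases ht : (t : ℕ) < i
    · refine ⟨fun s => r s + if s = t then 1 else 0, n, fun x => ?_⟩
      rw [List.map_cons, List.sum_cons, h, run_cx, if_pos ht]
      simp [add_mul, Finset.sum_add_distrib, ht]
      ring
    · refine ⟨r, n + 1, fun x => ?_⟩
      rw [List.map_cons, List.sum_cons, h, run_cx, if_neg ht]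
      push_cast
      ring

theorem run_strict {k : Fin N} (hk : i ≤ k) (L : List (Fin N)) {x x' : ℚ} (h : x < x') :
    ((k :: L).map (run_cx N c i x)).sum < ((k :: L).map (run_cx N c i x')).sum := by
  obtain ⟨r, n, e⟩ := run_affine N c i L
  simp only [List.map_cons, List.sum_cons, e, run_cx, if_neg (not_lt.2 hk)]
  have : (n : ℚ) * x ≤ n * x' := by gcongr
  linarith

theorem run_list (γ : Fin N → ℕ) : ∃ L : List (Fin N), (∀ t, L.count t = γ t) ∧
    ∀ e : Fin N → ℚ, (L.map e).sum = ∑ t, (γ t : ℚ) * e t := by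
  have h : ∀ t, (∑ s, Multiset.replicate (γ s) s).toList.count t = γ t := fun t => by
    rw [← Multiset.coe_count, Multiset.coe_toList, Multiset.count_sum']
    simp [Multiset.count_replicate]
  refine ⟨_, h, fun e => ?_⟩
  rw [Finset.sum_list_map_count, Finset.sum_subset (Finset.subset_univ _) fun t _ ht => by
    rw [List.count_eq_zero_of_not_mem (by simpa using ht), zero_smul]]
  exact Finset.sum_congr rfl fun t _ => by rw [h, nsmul_eq_mul]

theorem run_weight (S : run_St σ I w N y c lab i)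
    (h : ¬ I ≤ sat w (JJ (fun t : Fin N => y t) (run_cx N c i 0) 1))
    {E : Fin N → Derivation ℂ A A} {Δ : A} (hΔ : w Δ ≠ 0)
    (hE : ∀ a b : Fin N, E a (y b) = if a = b then Δ else 0) :
    ∃ x, 0 < x ∧ (∀ j, j + 1 = i → x ≤ c j) ∧
      I ≤ sat w (JJ (fun t : Fin N => y t) (run_cx N c i x) 1) ∧
      ∃ f ∈ I, ∃ (k : Fin N) (L : List (Fin N)), i ≤ k ∧ w (word E (k :: L) f) ≠ 0 ∧
        ((k :: L).map (run_cx N c i x)).sum = 1 := by
  obtain ⟨x0, hx0, hI, hx0'⟩ := S.adm
  have h1 : ∀ f ∈ I, ∀ L : List (Fin N), w (word E L f) ≠ 0 →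
      1 ≤ (L.map (run_cx N c i x0)).sum := fun f hf L hL => not_lt.1 fun hlt =>
    hL (sat_JJ_van S.lc.van _ (sub_pos.2 hlt) (word_sat (S.cx_nonneg hx0.le) hE L (hI hf)))
  let V : Set ℚ := {x | ∃ f ∈ I, ∃ (k : Fin N) (L : List (Fin N)), i ≤ k ∧
    w (word E (k :: L) f) ≠ 0 ∧ ((k :: L).map (run_cx N c i x)).sum = 1}
  have h2 : ∀ x, 0 ≤ x → ¬ I ≤ sat w (JJ (fun t : Fin N => y t) (run_cx N c i x) 1) →
      ∃ x' ∈ V, x < x' := by
    intro x hx hn
    obtain ⟨f, hf, hf'⟩ := SetLike.not_le_iff_exists.1 hn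
    obtain ⟨γ, hγ, hw⟩ := taylor S.lc (S.cx_nonneg hx) hΔ hE hf'
    obtain ⟨L, hL, hL'⟩ := run_list γ
    rw [← hL'] at hγ
    obtain ⟨k, hk, hik⟩ : ∃ k ∈ L, i ≤ k := by
      by_contra hc
      push Not at hc
      have := h1 f hf L (hw L hL)
      rw [List.map_congr_left (g := run_cx N c i x) fun t ht => by
        simp only [run_cx, if_pos (hc t ht)]] at this
      exact absurd hγ (not_lt.2 this)
    have hp := List.perm_cons_erase hk
    rw [(hp.map _).sum_eq] at hγ
    obtain ⟨r, n, e⟩ := run_affine N c i (L.erase k)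
    have e' : ∀ z, ((k :: L.erase k).map (run_cx N c i z)).sum =
        ∑ s ∈ Finset.range i, (r s : ℚ) * c s + (n + 1) * z := fun z => by
      simp only [List.map_cons, List.sum_cons, e, run_cx, if_neg (not_lt.2 hik)]
      ring
    refine ⟨(1 - ∑ s ∈ Finset.range i, (r s : ℚ) * c s) / (n + 1),
      ⟨f, hf, k, L.erase k, hik, hw _ fun t => (hp.count_eq t).symm.trans (hL t), ?_⟩, ?_⟩
    · rw [e', mul_div_cancel₀ _ (by positivity)]; ring
    · rw [lt_div_iff₀ (by positivity)]
      rw [e'] at hγ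
      linarith
  have h3 : ∀ x ∈ V, x ≤ x0 := by
    rintro x ⟨f, hf, k, L, hk, hw, hs⟩
    exact not_lt.1 fun hlt => absurd (hs ▸ run_strict hk L hlt) (not_lt.2 (h1 f hf _ hw))
  obtain ⟨x1, hx1, hx1'⟩ := h2 0 le_rfl h
  have hfin : {x ∈ V | x1 ≤ x}.Finite := by
    refine ((List.finite_length_le (Fin N) ⌈1 / x1⌉₊).biUnion
      (t := fun L' => {x | (∃ (k : Fin N) (L : List (Fin N)), i ≤ k ∧ L' = k :: L) ∧
        (L'.map (run_cx N c i x)).sum = 1}) fun L' _ => Set.Subsingleton.finite ?_).subset ?_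
    · rintro x ⟨⟨k, L, hk, rfl⟩, hx⟩ x' ⟨-, hx'⟩
      rcases lt_trichotomy x x' with h | h | h
      · exact absurd (hx.trans hx'.symm) (run_strict hk L h).ne
      · exact h
      · exact absurd (hx'.trans hx.symm) (run_strict hk L h).ne
    · rintro x ⟨⟨f, hf, k, L, hk, hw, hs⟩, hx⟩
      refine Set.mem_biUnion (x := k :: L) ?_ ⟨⟨k, L, hk, rfl⟩, hs⟩
      have := List.card_nsmul_le_sum ((k :: L).map (run_cx N c i x)) x1 fun z hz => by
        obtain ⟨t, -, rfl⟩ := List.mem_map.1 hz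
        unfold run_cx
        split_ifs with ht
        · obtain ⟨j, rfl⟩ : ∃ j, i = j + 1 := ⟨i - 1, by omega⟩
          exact ((h3 _ hx1).trans (hx0' j rfl).le).trans (S.anti (by omega))
        · exact hx
      rw [hs, List.length_map, nsmul_eq_mul, ← le_div_iff₀ hx1'] at this
      exact_mod_cast this.trans (Nat.le_ceil _)
  obtain ⟨x, ⟨hxV, hx⟩, hmax⟩ := Set.exists_max_image _ id hfin ⟨x1, hx1, le_rfl⟩
  refine ⟨x, hx1'.trans_le hx, fun j hj => (h3 x hxV).trans (hx0' j hj).le, ?_, hxV⟩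
  by_contra hn
  obtain ⟨x', hx', hlt⟩ := h2 x (hx1'.trans_le hx).le hn
  exact absurd (hmax x' ⟨hx', hx.trans hlt.le⟩) (not_le.2 hlt)

theorem run_cx_eq (N : ℕ) (c : ℕ → ℚ) (i : ℕ) (x : ℚ) (t : Fin N) :
    run_cx N c i x t = Function.update c i x (min t i) := by
  unfold run_cx
  split_ifs with h
  · rw [min_eq_left h.le, Function.update_of_ne h.ne]
  · rw [min_eq_right (not_lt.1 h), Function.update_self]

theorem run_drv_word {E : Fin N → Derivation ℂ A A} {Δ : A}
    (hE : ∀ a b : Fin N, E a (y b) = if a = b then Δ else 0) (x : ℚ) {f : A} (hf : f ∈ I)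
    (L : List (Fin N)) :
    Drv I y (Function.update c i x) i (1 - (L.map (run_cx N c i x)).sum) (word E L f) := by
  induction L with
  | nil => simpa [word] using Drv.base f hf
  | cons t L ih =>
    have := Drv.der (E t) (min t i) (min_le_right _ _) (fun s hs => by
      have hs' : s < t := hs.trans_le (min_le_left _ _)
      have e := hE t ⟨s, hs'.trans t.2⟩
      rw [if_neg (fun e => hs'.ne' (congrArg Fin.val e))] at e
      exact e ▸ dvd_zero _) ih
    rw [List.map_cons, List.sum_cons, run_cx_eq N c i x t, add_comm, ← sub_sub]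
    exact this

theorem run_drv_sat {x : ℚ} (ha : Antitone (Function.update c i x))
    (h0 : ∀ t, 0 ≤ Function.update c i x t)
    (hI : I ≤ sat w (JJ (fun t : Fin N => y t) (run_cx N c i x) 1)) {q : ℚ} {g : A}
    (h : Drv I y (Function.update c i x) i q g) :
    g ∈ sat w (JJ (fun t : Fin N => y t) (run_cx N c i x) q) := by
  induction h with
  | base f hf => exact hI hf
  | smul b _ ih => exact Ideal.mul_mem_left _ b ih
  | add _ _ ih ih' => exact add_mem ih ih'
  | mono hq _ ih => exact sat_mono w (JJ_anti _ _ hq) ih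
  | der D l hl hD _ ih =>
    refine der_sat D (h0 l) (fun t => le_sat w _ ?_) ih
    rcases lt_or_ge (t : ℕ) l with ht | ht
    · exact JJ_anti _ _ (sub_le_self _ (h0 l)) (Ideal.mem_of_dvd _ (hD t ht)
        (mem_JJ_self (fun t : Fin N => y t) _ t))
    · rw [JJ_nonpos _ _ (sub_nonpos.2 ?_)]
      · trivial
      · rw [run_cx_eq]
        exact ha (le_min ht hl)

theorem run_dvd_van {a b : A} (h : a ∣ b) (ha : w a = 0) : w b = 0 := by
  obtain ⟨e, rfl⟩ := h
  rw [map_mul, ha, zero_mul]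

theorem run_exch (S : run_St σ I w N y c lab i) {x : ℚ} (hx : 0 < x) {u : A}
    (hu : u ∈ sat w (JJ (fun t : Fin N => y t) (run_cx N c i x) x)) {D : Derivation ℂ A A} {b : A}
    (hD : Lev y i D) {l : WithBot ℕ}
    (hσ : ∀ j : ℕ, (j : WithBot ℕ) ≠ l → σ j ∣ D (σ j) ∨ w (σ j) ≠ 0) (hw : w (D u + b * u) ≠ 0)
    (hl : l = ⊥ ∨ ∃ t, i ≤ t ∧ t < N ∧ lab t = l) :
    ∃ (y' : ℕ → A) (t : ℕ), i ≤ t ∧ t < N ∧ lab t = l ∧ (∀ s, s < i → y' s = y s) ∧
      (LC w fun s : Fin N => y' s) ∧ (Lab σ w (fun s : Fin N => y' s) fun s => lab s) ∧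
      sat w (JJ (fun s : Fin N => y' s) (run_cx N c i x) 1) =
        sat w (JJ (fun s : Fin N => y s) (run_cx N c i x) 1) ∧ (l = ⊥ → u = y' t) := by
  by_cases hb : l = ⊥
  swap
  · obtain ⟨t, h1, h2, h3⟩ := hl.resolve_left hb
    exact ⟨y, t, h1, h2, h3, fun _ _ => rfl, S.lc, S.lb, rfl, fun h => absurd h hb⟩
  subst hb
  have h0 : w u = 0 := sat_JJ_van S.lc.van _ hx hu
  rw [map_add, map_mul, h0, mul_zero, add_zero] at hw
  obtain ⟨a, -, ha⟩ := lin_part S.lc (S.cx_nonneg hx.le) h0 hu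
  rw [ha] at hw
  obtain ⟨t, -, ht⟩ := Finset.exists_ne_zero_of_sum_ne_zero hw
  have hit : i ≤ t := not_lt.1 fun h =>
    right_ne_zero_of_mul ht (run_dvd_van (hD t h) (S.lc.van t))
  have hlab : lab t = ⊥ := by
    by_contra hne
    obtain ⟨j, hj⟩ := WithBot.ne_bot_iff_exists.1 hne
    have e : y t = σ j := S.lb.eq t j hj.symm
    have e0 : w (σ j) = 0 := e ▸ S.lc.van t
    refine right_ne_zero_of_mul ht ?_
    change w (D (y t)) = 0
    rw [e]
    exact run_dvd_van ((hσ j WithBot.coe_ne_bot).resolve_right (not_not.2 e0)) e0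
  obtain ⟨E, Δ, hΔ, hE⟩ := S.lc.dual
  obtain ⟨k1, k2⟩ := exch S.lc (S.cx_nonneg hx.le) t h0
    (by rwa [run_cx, if_neg (not_lt.2 hit)]) (E t)
    (by
      rw [ha, Finset.sum_eq_single t (fun s _ hs => by rw [hE, if_neg hs.symm]; simp) (by simp),
        hE, if_pos rfl]
      exact mul_ne_zero (left_ne_zero_of_mul ht) hΔ)
    (fun s hs => by rw [hE, if_neg hs.symm, map_zero])
  have e : (fun s : Fin N => Function.update y t u s) =
      Function.update (fun s : Fin N => y s) t u := by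
    funext s
    by_cases hs : s = t
    · rw [hs, Function.update_self, Function.update_self]
    · rw [Function.update_of_ne hs, Function.update_of_ne fun e => hs (Fin.ext e)]
  refine ⟨Function.update y t u, t, hit, t.2, hlab,
    fun s hs => Function.update_of_ne (by omega) _ _, e ▸ k1, ⟨fun s j hj => ?_, S.lb.ex⟩,
    e ▸ k2 1, fun _ => (Function.update_self (t : ℕ) u y).symm⟩
  have hs : (s : ℕ) ≠ t := fun e => by
    rw [e, hlab] at hj
    exact WithBot.bot_ne_coe hj
  rw [Function.update_of_ne hs]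
  exact S.lb.eq s j hj

theorem run_swap {t : ℕ} (hi : i ≤ t) (ht : t < N) (H : LC w fun s : Fin N => y s)
    (L : Lab σ w (fun s : Fin N => y s) fun s => lab s) (x : ℚ) :
    (LC w fun s : Fin N => y (Equiv.swap t i s)) ∧
    (Lab σ w (fun s : Fin N => y (Equiv.swap t i s)) fun s => lab (Equiv.swap t i s)) ∧
    sat w (JJ (fun s : Fin N => y s) (run_cx N c i x) 1) ≤
      sat w (JJ (fun s : Fin N => y (Equiv.swap t i s)) (run_cx N c i x) 1) := by
  let e : Equiv.Perm (Fin N) := Equiv.swap ⟨t, ht⟩ ⟨i, hi.trans_lt ht⟩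
  have he : ∀ s : Fin N, Equiv.swap t i s = e s := fun s =>
    Fin.val_injective.swap_apply ⟨t, ht⟩ ⟨i, hi.trans_lt ht⟩ s
  have hee : ∀ s, e (e s) = s := fun s => Equiv.swap_apply_self _ _ _
  simp only [he]
  refine ⟨H.reindex e, ⟨fun s j hj => L.eq (e s) j hj, fun j hj => ?_⟩, JJ_le_of_mem (fun s => ?_) 1⟩
  · obtain ⟨s, hs⟩ := L.ex j hj
    exact ⟨e s, by rw [hee]; exact hs⟩
  · have h1 := mem_JJ_self (fun s : Fin N => y (e s)) (run_cx N c i x) (e s)
    have h2 : run_cx N c i x (e s) = run_cx N c i x s := by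
      unfold run_cx
      rw [← he, Equiv.swap_apply_def]
      split_ifs <;> first | rfl | omega
    rw [hee, h2] at h1
    exact le_sat w _ h1

theorem run_cert_congr {y' : ℕ → A} {c' : ℕ → ℚ} {lab' : ℕ → WithBot ℕ} {t : ℕ}
    (hy : ∀ s, s ≤ t → y s = y' s) (hc : ∀ s, s ≤ t → c s = c' s) (hl : lab t = lab' t)
    (h : (WS.mk N y c lab).CertAt σ I w t) : (WS.mk N y' c' lab').CertAt σ I w t := by
  obtain ⟨u, D, b, h1, h2, h3, h4, h5, h6⟩ := h
  dsimp only at h1 h2 h3 h5 h6
  rw [hl] at h3 h5 h6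
  rw [hy t le_rfl] at h5 h6
  rw [hc t le_rfl] at h1
  exact ⟨u, D, b, h1.congr (fun s hs => hy s hs.le) hc, 
    fun s hs => show y' s ∣ D (y' s) from hy s hs.le ▸ h2 s hs, h3, h4, h5, h6⟩

theorem run_step (S : run_St σ I w N y c lab i)
    (h : ¬ I ≤ sat w (JJ (fun t : Fin N => y t) (run_cx N c i 0) 1)) :
    ∃ y' c' lab', run_St σ I w N y' c' lab' (i + 1) := by
  obtain ⟨E, Δ, hΔ, hE⟩ := S.lc.dual
  obtain ⟨x, hx, hxc, hI, f, hf, k, L, hk, hw, hs⟩ := run_weight S h hΔ hE
  have hci : Function.update c i x i = x := Function.update_self _ _ _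
  have hcl : ∀ t, t < i → Function.update c i x t = c t := fun t ht =>
    Function.update_of_ne ht.ne _ _
  have hcg : ∀ t, i + 1 ≤ t → Function.update c i x t = 0 := fun t ht =>
    (Function.update_of_ne (by omega) _ _).trans (S.zero t (by omega))
  have hpos : ∀ t, t < i + 1 → 0 < Function.update c i x t := fun t ht => by
    rcases (Nat.lt_succ_iff.1 ht).eq_or_lt with e | e
    · rwa [e, hci]
    · rw [hcl t e]; exact S.pos t e
  have h0 : ∀ t, 0 ≤ Function.update c i x t := fun t => by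
    rcases lt_or_ge t (i + 1) with e | e
    exacts [(hpos t e).le, (hcg t e).ge]
  have ha : Antitone (Function.update c i x) := antitone_nat_of_succ_le fun t => by
    rcases lt_trichotomy (t + 1) i with e | e | e
    · rw [hcl _ e, hcl t (by omega)]; exact S.anti (Nat.le_succ t)
    · rw [e, hci, hcl t (by omega)]; exact hxc t e
    · rw [hcg _ e]; exact h0 t
  have hs' : x + (L.map (run_cx N c i x)).sum = 1 := by
    rwa [List.map_cons, List.sum_cons, run_cx, if_neg (not_lt.2 hk)] at hs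
  have hav : run_Av σ I w N y (Function.update c i x) lab i (lab k) := by
    refine ⟨word E L f, E k, 0, ?_, fun s hs => ?_, fun j hj => ?_, by simpa [word] using hw,
      Or.inr ⟨k, hk, k.2, rfl⟩⟩
    · rw [hci, eq_sub_of_add_eq hs']
      nth_rewrite 1 [← eq_sub_of_add_eq hs']
      exact run_drv_word hE x hf L
    · have e := hE k ⟨s, (hs.trans_le hk).trans k.2⟩
      rw [if_neg (fun e => (hs.trans_le hk).ne' (congrArg Fin.val e))] at e
      exact e ▸ dvd_zero _
    · refine or_iff_not_imp_right.2 fun hj0 => ?_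
      obtain ⟨t, ht⟩ := S.lb.ex j (not_not.1 hj0)
      have e := hE k t
      rw [if_neg (fun e => hj (by rw [e]; exact ht.symm)), S.lb.eq t j ht] at e
      exact e ▸ dvd_zero _
  obtain ⟨l, hl, hmin⟩ := (wellFounded_lt (α := WithBot ℕ)).has_min
    {l | run_Av σ I w N y (Function.update c i x) lab i l} ⟨_, hav⟩
  obtain ⟨u, D, b, d1, d2, d3, d4, d5⟩ := id hl
  have hu := run_drv_sat ha h0 hI d1
  rw [hci] at hu
  obtain ⟨y', t, t1, t2, t3, t4, t5, t6, t7, t8⟩ := run_exch S hx hu d2 d3 d4 d5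
  obtain ⟨s1, s2, s3⟩ := run_swap (c := c) t1 t2 t5 t6 x
  have hsw : ∀ s, s < i → Equiv.swap t i s = s := fun s hs =>
    Equiv.swap_apply_of_ne_of_ne (by omega) hs.ne
  have hyy : ∀ s, s < i → y s = y' (Equiv.swap t i s) := fun s hs => by rw [hsw s hs, t4 s hs]
  refine ⟨fun s => y' (Equiv.swap t i s), Function.update c i x, fun s => lab (Equiv.swap t i s),
    by omega, s1, s2, hpos, hcg, ha, fun j hj => ?_, fun j hj => ?_, fun j hj => ?_,
    ⟨x, hx, ?_, fun j hj => ?_⟩, fun j hj l' hl' => ?_⟩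
  · have hj' : j < i := by omega
    rw [hsw j hj', hcl j hj']
    rcases (Nat.lt_succ_iff.1 hj).eq_or_lt with e | e
    · rw [e, hci, Equiv.swap_apply_right, t3, mkKey_le_iff (S.pos j hj').ne' hx.ne']
      refine or_iff_not_imp_left.2 fun hn => ?_
      have e' : c j = x := le_antisymm (not_lt.1 hn) (hxc j e)
      refine ⟨e', S.mn j e l ?_⟩
      subst e
      refine ⟨u, D, b, ?_, fun s hs => d2 s (by omega), d3, d4, d5.imp_right ?_⟩
      · rw [hci, ← e'] at d1
        exact (run_drv_down (by rw [← e'] at hci hcl; rw [hci, hcl j hj']) d1).congr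
          (fun _ _ => rfl) fun s hs => Function.update_of_ne (by omega) _ _
      · rintro ⟨s, a1, a2, a3⟩
        exact ⟨s, by omega, a2, a3⟩
    · rw [hsw _ e, hcl _ e]
      exact S.srt j e
  · rcases (Nat.lt_succ_iff.1 hj).eq_or_lt with e | e
    · subst e
      refine ⟨u, D, b, d1.congr hyy fun _ _ => rfl, fun s hs => ?_, ?_, d4, fun hb => ?_,
        fun m hm => s2.eq ⟨j, by omega⟩ m hm⟩
      · dsimp only
        rw [← hyy s hs]
        exact d2 s hs
      · dsimp only
        rwa [Equiv.swap_apply_right, t3]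
      · dsimp only at hb ⊢
        rw [Equiv.swap_apply_right] at hb ⊢
        exact ⟨1, by simp, by rw [one_mul, t8 (t3.symm.trans hb)]⟩
    · exact run_cert_congr (fun s hs => hyy s (by omega)) (fun s hs => (hcl s (by omega)).symm)
        (by rw [hsw j e]) (S.cert j e)
  · rcases (Nat.lt_succ_iff.1 hj).eq_or_lt with e | e
    · subst e
      obtain ⟨r, n, e⟩ := run_affine N c j L
      refine ⟨r, n + 1, by omega, ?_⟩
      rw [hci, Finset.sum_congr rfl fun s hs => by rw [hcl s (Finset.mem_range.1 hs)], ← hs', e]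
      push_cast
      ring
    · obtain ⟨r, n, hn, e'⟩ := S.gen j e
      refine ⟨r, n, hn, ?_⟩
      rwa [hcl j e, Finset.sum_congr rfl fun s hs => by
        rw [hcl s ((Finset.mem_range.1 hs).trans e)]]
  · have e : run_cx N (Function.update c i x) (i + 1) x = run_cx N c i x := by
      funext s
      unfold run_cx
      rcases lt_trichotomy (s : ℕ) i with e | e | e
      · rw [if_pos (by omega), if_pos e, hcl s e]
      · rw [if_pos (by omega), if_neg (by omega), e, hci]
      · rw [if_neg (by omega), if_neg (by omega)]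
    rw [e]
    exact (hI.trans t7.ge).trans s3
  · rw [show j = i by omega, hci]
  · obtain rfl : j = i := by omega
    rw [Equiv.swap_apply_right, t3]
    obtain ⟨u', D', b', a1, a2, a3, a4, a5⟩ := hl'
    refine not_lt.1 (hmin l' ⟨u', D', b', a1.congr (fun s hs => (hyy s hs).symm) fun _ _ => rfl,
      fun s hs => ?_, a3, a4, a5.imp_right ?_⟩)
    · rw [hyy s hs]
      exact a2 s hs
    · rintro ⟨s, b1, b2, b3⟩
      refine ⟨Equiv.swap t j s, ?_, ?_, b3⟩ <;> rw [Equiv.swap_apply_def] <;> split_ifs <;> omega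

theorem run_aux (d : ℕ) : ∀ (i : ℕ) (y : ℕ → A) (c : ℕ → ℚ) (lab : ℕ → WithBot ℕ), N ≤ i + d →
    run_St σ I w N y c lab i → ∃ Γ : WS A, Γ.N = N ∧ Γ.Good σ I w := by
  induction d with
  | zero =>
    intro i y c lab hi S
    by_cases h : I ≤ sat w (JJ (fun t : Fin N => y t) (run_cx N c i 0) 1)
    · exact ⟨_, rfl, S.good h⟩
    · obtain ⟨y', c', lab', S'⟩ := run_step S h
      have := S'.le
      omega
  | succ d ih =>
    intro i y c lab hi S
    by_cases h : I ≤ sat w (JJ (fun t : Fin N => y t) (run_cx N c i 0) 1)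
    · exact ⟨_, rfl, S.good h⟩
    · obtain ⟨y', c', lab', S'⟩ := run_step S h
      exact ih (i + 1) y' c' lab' (by omega) S'

end

theorem run {σ : ℕ → A} {N : ℕ} (H : Snc σ w N) {I : Ideal A} (hI : ∀ f ∈ I, w f = 0) :
    ∃ Γ : WS A, Γ.N = N ∧ Γ.Good σ I w := by
  obtain ⟨y, lab, H, L⟩ := H
  have e1 : (fun t : Fin N => if h : (t : ℕ) < N then y ⟨t, h⟩ else 0) = y :=
    funext fun t => dif_pos t.2
  have e2 : (fun t : Fin N => if h : (t : ℕ) < N then lab ⟨t, h⟩ else ⊥) = lab :=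
    funext fun t => dif_pos t.2
  refine run_aux N 0 (fun t => if h : t < N then y ⟨t, h⟩ else 0) (fun _ => 0)
    (fun t => if h : t < N then lab ⟨t, h⟩ else ⊥) (by omega)
    ⟨Nat.zero_le _, e1.symm ▸ H, by rw [e1, e2]; exact L, by simp, fun _ _ => rfl,
      antitone_const, by simp, by simp, by simp, ⟨1, one_pos, fun f hf => ?_, by simp⟩, by simp⟩
  rw [e1]
  refine sat_mono w (Ideal.span_le.2 ?_) (H.gen f (hI f hf))
  rintro _ ⟨t, rfl⟩
  exact mem_JJ_self y (run_cx N (fun _ => 0) 0 1) t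

end Pool.Agent.P.MP_824f38_ag.N
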