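import Pool.Agent.P.MP_824f38_ag.N.LBasic

/-! Row NEC-LScale: rescaling and transport of canonical centres

scale: let e = ∏ (t < N) ε t. If D has level l ≤ N for y then e • D has level l for ε y. By induction on Drv: Drv q g gives k with Drv' q (e^k g)
(der: e^(k+1) D g = (e D)(e^k g) - k (D e) e^k g). In the certificate take u' = e^(k+1) u, D' = e D, b' = e b - (k+1) D e. Levels above N do not occur
since 0 < c i forces i < N. transp: conjugate derivations by α. -/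

set_option linter.unusedVariables false
set_option linter.unusedSectionVars false
set_option linter.style.haveILetI false
set_option linter.dupNamespace false

namespace Pool.Agent.P.MP_824f38_ag.N

variable {A A' : Type} [CommRing A] [Algebra ℂ A] [Algebra.FiniteType ℂ A] [CommRing A']
  [Algebra ℂ A'] [Algebra.FiniteType ℂ A']

namespace LScale

theorem der_pow (D : Derivation ℂ A A) (e : A) (k : ℕ) :
    e * D (e ^ k) = (k : A) * D e * e ^ k := by
  induction k with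
  | zero => simp
  | succ k ih =>
    rw [pow_succ, Derivation.leibniz, smul_eq_mul, smul_eq_mul, Nat.cast_succ]
    linear_combination e * ih

theorem der_scale (D : Derivation ℂ A A) (e g : A) (k : ℕ) :
    (e • D) (e ^ k * g) = e ^ (k + 1) * D g + (k : A) * D e * (e ^ k * g) := by
  rw [Derivation.smul_apply, Derivation.leibniz, smul_eq_mul, smul_eq_mul, smul_eq_mul]
  linear_combination g * der_pow D e k

theorem lev_scale {y ε : ℕ → A} {e : A} {N l : ℕ} (he : ∀ t, t < N → ε t ∣ e) (hl : l ≤ N)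
    {D : Derivation ℂ A A} (hD : Lev y l D) : Lev (fun i => ε i * y i) l (e • D) := by
  intro t ht
  obtain ⟨r, hr⟩ := hD t ht
  obtain ⟨e', he'⟩ := he t (ht.trans_le hl)
  refine ⟨e * r + e' * D (ε t), ?_⟩
  rw [Derivation.smul_apply, Derivation.leibniz, smul_eq_mul, smul_eq_mul, smul_eq_mul, hr]
  linear_combination (y t * D (ε t)) * he'

theorem drv_scale {I : Ideal A} {y ε : ℕ → A} {c : ℕ → ℚ} (hc : ∀ i, 0 ≤ c i) {e : A} {N i : ℕ}
    (he : ∀ t, t < N → ε t ∣ e) (hi : i ≤ N) {q : ℚ} {g : A} (h : Drv I y c i q g) :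
    ∃ k : ℕ, Drv I (fun i => ε i * y i) c i q (e ^ k * g) := by
  induction h with
  | base f hf => exact ⟨0, by simpa using Drv.base f hf⟩
  | smul b h ih =>
    obtain ⟨k, hk⟩ := ih
    exact ⟨k, by rw [mul_left_comm]; exact Drv.smul b hk⟩
  | @add q g g' h h' ih ih' =>
    obtain ⟨k, hk⟩ := ih
    obtain ⟨k', hk'⟩ := ih'
    refine ⟨k + k', ?_⟩
    rw [show e ^ (k + k') * (g + g') = e ^ k' * (e ^ k * g) + e ^ k * (e ^ k' * g') by ring]
    exact Drv.add (Drv.smul _ hk) (Drv.smul _ hk')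
  | mono hq h ih =>
    obtain ⟨k, hk⟩ := ih
    exact ⟨k, Drv.mono hq hk⟩
  | @der D l hl hD q g h ih =>
    obtain ⟨k, hk⟩ := ih
    refine ⟨k + 1, ?_⟩
    have e1 : e ^ (k + 1) * D g = (e • D) (e ^ k * g) + (-((k : A) * D e)) * (e ^ k * g) := by
      rw [der_scale]; ring
    rw [e1]
    exact Drv.add (Drv.der _ l hl (lev_scale he (hl.trans hi) hD) hk)
      (Drv.smul _ (Drv.mono (sub_le_self _ (hc l)) hk))

theorem lc_scale {ι : Type} [Fintype ι] [DecidableEq ι] {w : A →ₐ[ℂ] ℂ} {y ε : ι → A}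
    (H : LC w y) (hε : ∀ i, w (ε i) ≠ 0) : LC w fun i => ε i * y i := by
  obtain ⟨E, Δ, hΔ, hE⟩ := H.dual
  have key : ∀ i j, w (E i (ε j * y j)) = w (ε j) * w (if i = j then Δ else 0) := by
    intro i j
    rw [Derivation.leibniz, smul_eq_mul, smul_eq_mul, map_add, map_mul, map_mul, H.van, hE]
    ring
  refine LC.of_diag (fun i => by rw [map_mul, H.van, mul_zero]) (fun f hf => ?_) E
    (fun i => ?_) (fun i j hij => ?_)
  · refine sat_le_sat w (Ideal.span_le.2 ?_) (H.gen f hf)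
    rintro _ ⟨i, rfl⟩
    exact ⟨ε i, hε i, Ideal.subset_span ⟨i, rfl⟩⟩
  · rw [key, if_pos rfl]
    exact mul_ne_zero (hε i) hΔ
  · rw [key, if_neg hij, map_zero, mul_zero]

theorem jj_scale {ι : Type} [Fintype ι] [DecidableEq ι] {w : A →ₐ[ℂ] ℂ} (y : ι → A) {ε : ι → A}
    (hε : ∀ i, w (ε i) ≠ 0) (c : ι → ℚ) (q : ℚ) :
    sat w (JJ (fun i => ε i * y i) c q) = sat w (JJ y c q) := by
  apply le_antisymm
  · exact JJ_le_of_mem (fun i => le_sat w _ (Ideal.mul_mem_left _ _ (mem_JJ_self y c i))) q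
  · exact JJ_le_of_mem (fun i => ⟨ε i, hε i, mem_JJ_self (fun i => ε i * y i) c i⟩) q

/-- conjugation of a derivation -/
noncomputable def cj (α : A ≃ₐ[ℂ] A') (D : Derivation ℂ A A) : Derivation ℂ A' A' :=
  Derivation.mk' (α.toLinearEquiv.toLinearMap ∘ₗ D.toLinearMap ∘ₗ α.symm.toLinearEquiv.toLinearMap)
    fun a b => by simp [Derivation.leibniz]

theorem cj_apply (α : A ≃ₐ[ℂ] A') (D : Derivation ℂ A A) (a : A) : cj α D (α a) = α (D a) := by
  simp [cj]

theorem sat_map (α : A ≃ₐ[ℂ] A') {w' : A' →ₐ[ℂ] ℂ} (J : Ideal A) (f : A) :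
    f ∈ sat (w'.comp (α : A →ₐ[ℂ] A')) J ↔ α f ∈ sat w' (J.map (α : A →+* A')) := by
  constructor
  · rintro ⟨h, h0, hf⟩
    refine ⟨α h, h0, ?_⟩
    rw [← map_mul]
    exact Ideal.mem_map_of_mem (α : A →+* A') hf
  · rintro ⟨h, h0, hf⟩
    obtain ⟨h, rfl⟩ := α.surjective h
    refine ⟨h, h0, ?_⟩
    obtain ⟨x, hx, he⟩ := (Ideal.mem_map_iff_of_surjective (α : A →+* A') α.surjective).1 hf
    have : x = h * f := α.injective (by rw [map_mul]; exact he)
    exact this ▸ hx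

theorem jj_map (α : A ≃ₐ[ℂ] A') {ι : Type} [Fintype ι] (y : ι → A) (c : ι → ℚ) (q : ℚ) :
    (JJ y c q).map (α : A →+* A') = JJ (fun i => α (y i)) c q := by
  rw [JJ, JJ, Ideal.map_span]
  congr 1
  ext f
  constructor
  · rintro ⟨_, ⟨a, ha, rfl⟩, rfl⟩
    exact ⟨a, ha, by simp⟩
  · rintro ⟨a, ha, rfl⟩
    exact ⟨_, ⟨a, ha, rfl⟩, by simp⟩

theorem lc_map (α : A ≃ₐ[ℂ] A') {ι : Type} [DecidableEq ι] {w' : A' →ₐ[ℂ] ℂ} {y : ι → A}
    (H : LC (w'.comp (α : A →ₐ[ℂ] A')) y) : LC w' fun i => α (y i) := by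
  obtain ⟨E, Δ, hΔ, hE⟩ := H.dual
  refine ⟨fun i => H.van i, fun f hf => ?_, fun i => cj α (E i), α Δ, hΔ, fun i j => ?_⟩
  · obtain ⟨f, rfl⟩ := α.surjective f
    have := (sat_map α _ f).1 (H.gen f hf)
    rw [Ideal.map_span, ← Set.range_comp] at this
    exact this
  · rw [cj_apply, hE]
    split_ifs <;> simp

theorem lev_map (α : A ≃ₐ[ℂ] A') {y : ℕ → A} {l : ℕ} {D : Derivation ℂ A A} (hD : Lev y l D) :
    Lev (fun i => α (y i)) l (cj α D) := by
  intro t ht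
  rw [cj_apply]
  exact map_dvd α (hD t ht)

theorem drv_map (α : A ≃ₐ[ℂ] A') {I : Ideal A} {y : ℕ → A} {c : ℕ → ℚ} {i : ℕ} {q : ℚ} {g : A}
    (h : Drv I y c i q g) : Drv (I.map (α : A →+* A')) (fun i => α (y i)) c i q (α g) := by
  induction h with
  | base f hf => exact Drv.base _ (Ideal.mem_map_of_mem (α : A →+* A') hf)
  | smul b h ih => rw [map_mul]; exact Drv.smul _ ih
  | add h h' ih ih' => rw [map_add]; exact Drv.add ih ih'
  | mono hq h ih => exact Drv.mono hq ih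
  | der D l hl hD h ih => rw [← cj_apply]; exact Drv.der _ l hl (lev_map α hD) ih

end LScale

open LScale

theorem scale {w : A →ₐ[ℂ] ℂ} {σ : ℕ → A} {I : Ideal A} {Γ : WS A} (H : Γ.Good σ I w)
    (t : ℕ → ℂ) (ht : ∀ j, t j ≠ 0) (ε : ℕ → A) (hε : ∀ i, w (ε i) ≠ 0)
    (hl : ∀ i (j : ℕ), i < Γ.N → Γ.lab i = j → ε i = algebraMap ℂ A (t j)) :
    (⟨Γ.N, fun i => ε i * Γ.y i, Γ.c, Γ.lab⟩ : WS A).Good (fun j => t j • σ j) I w ∧
      ∀ q, sat w ((⟨Γ.N, fun i => ε i * Γ.y i, Γ.c, Γ.lab⟩ : WS A).J q) = sat w (Γ.J q) := by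
  have hJ : ∀ q, sat w ((⟨Γ.N, fun i => ε i * Γ.y i, Γ.c, Γ.lab⟩ : WS A).J q) =
      sat w (Γ.J q) := fun q =>
    jj_scale (w := w) Γ.yF (ε := fun i : Fin Γ.N => ε i) (fun i => hε i) Γ.cF q
  have hS := H.ctr.sorted
  refine ⟨⟨⟨⟨hS.nonneg, hS.pad, hS.mono⟩,
    lc_scale (ε := fun i : Fin Γ.N => ε i) H.ctr.lc fun i => hε i, ?_, ?_⟩, ?_, ?_, H.gen⟩, hJ⟩
  · intro i j hij
    have h1 : Γ.y i = σ j := H.ctr.lab.eq i j hij
    change ε i * Γ.y i = t j • σ j
    rw [hl i j i.2 hij, h1, Algebra.smul_def]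
  · intro j hj
    rw [map_smul, smul_eq_mul] at hj
    exact H.ctr.lab.ex j ((mul_eq_zero.1 hj).resolve_left (ht j))
  · rw [hJ]
    exact H.adm
  · intro i hi
    have hiN : i < Γ.N := by
      by_contra hn
      exact hi.ne' (hS.pad i (not_lt.1 hn))
    obtain ⟨u, D, b, h1, h2, h3, h4, h5, h6⟩ := H.cert i hi
    set e : A := ∏ s ∈ Finset.range Γ.N, ε s with he
    have hdv : ∀ s, s < Γ.N → ε s ∣ e := fun s hs =>
      Finset.dvd_prod_of_mem _ (Finset.mem_range.2 hs)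
    have hwe : w e ≠ 0 := by
      rw [he, map_prod]
      exact Finset.prod_ne_zero_iff.2 fun s _ => hε s
    obtain ⟨k, hk⟩ := drv_scale hS.nonneg hdv hiN.le h1
    refine ⟨e ^ (k + 1) * u, e • D, e * b - ((k + 1 : ℕ) : A) * D e, ?_,
      lev_scale hdv hiN.le h2, fun j hj => ?_, ?_, fun hb => ?_, fun j hj => ?_⟩
    · rw [pow_succ', mul_assoc]
      exact Drv.smul e hk
    · rcases h3 j hj with ⟨r, hr⟩ | h
      · refine Or.inl ⟨e * r, ?_⟩
        change (e • D) (t j • σ j) = (t j • σ j) * (e * r)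
        rw [Derivation.smul_apply, Derivation.map_smul, hr, smul_eq_mul, Algebra.smul_def,
          Algebra.smul_def]
        ring
      · refine Or.inr ?_
        rw [map_smul, smul_eq_mul]
        exact mul_ne_zero (ht j) h
    · have e1 : (e • D) (e ^ (k + 1) * u) + (e * b - ((k + 1 : ℕ) : A) * D e) * (e ^ (k + 1) * u) =
          e ^ (k + 2) * (D u + b * u) := by
        rw [der_scale]; ring
      rw [e1, map_mul, map_pow]
      exact mul_ne_zero (pow_ne_zero _ hwe) h4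
    · obtain ⟨η, hη, hu⟩ := h5 hb
      obtain ⟨e', he'⟩ := hdv i hiN
      refine ⟨e ^ k * e' * η, ?_, ?_⟩
      · rw [map_mul, map_mul, map_pow]
        refine mul_ne_zero (mul_ne_zero (pow_ne_zero _ hwe) fun h0 => hwe ?_) hη
        rw [he', map_mul, h0, mul_zero]
      · change e ^ (k + 1) * u = e ^ k * e' * η * (ε i * Γ.y i)
        rw [hu]
        linear_combination (e ^ k * η * Γ.y i) * he'
    · change ε i * Γ.y i = t j • σ j
      rw [hl i j hiN hj, h6 j hj, Algebra.smul_def]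

theorem transp (α : A ≃ₐ[ℂ] A') {w' : A' →ₐ[ℂ] ℂ} {σ : ℕ → A} {I : Ideal A} {Γ : WS A}
    (H : Γ.Good σ I (w'.comp (α : A →ₐ[ℂ] A'))) :
    (⟨Γ.N, fun i => α (Γ.y i), Γ.c, Γ.lab⟩ : WS A').Good (fun j => α (σ j))
      (I.map (α : A →+* A')) w' ∧ ∀ q f, f ∈ sat (w'.comp (α : A →ₐ[ℂ] A')) (Γ.J q) ↔
        α f ∈ sat w' ((⟨Γ.N, fun i => α (Γ.y i), Γ.c, Γ.lab⟩ : WS A').J q) := by
  have hJ : ∀ q, (Γ.J q).map (α : A →+* A') =
      (⟨Γ.N, fun i => α (Γ.y i), Γ.c, Γ.lab⟩ : WS A').J q := fun q => jj_map α Γ.yF Γ.cF q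
  have hS := H.ctr.sorted
  refine ⟨⟨⟨⟨hS.nonneg, hS.pad, hS.mono⟩, lc_map α H.ctr.lc, ?_, ?_⟩, ?_, ?_, H.gen⟩,
    fun q f => by rw [← hJ]; exact sat_map α _ f⟩
  · intro i j hij
    exact congrArg α (H.ctr.lab.eq i j hij)
  · intro j hj
    exact H.ctr.lab.ex j hj
  · rw [Ideal.map_le_iff_le_comap, ← hJ]
    intro f hf
    exact (sat_map α _ f).1 (H.adm hf)
  · intro i hi
    obtain ⟨u, D, b, h1, h2, h3, h4, h5, h6⟩ := H.cert i hi
    refine ⟨α u, cj α D, α b, drv_map α h1, lev_map α h2, fun j hj => ?_, ?_, fun hb => ?_,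
      fun j hj => congrArg α (h6 j hj)⟩
    · rcases h3 j hj with h | h
      · refine Or.inl ?_
        rw [cj_apply]
        exact map_dvd α h
      · exact Or.inr h
    · rw [cj_apply, ← map_mul, ← map_add]
      exact h4
    · obtain ⟨η, hη, hu⟩ := h5 hb
      exact ⟨α η, hη, by rw [hu, map_mul]⟩

theorem Reg.of_equiv (α : A ≃ₐ[ℂ] A') (H : Reg A) : Reg A' := by
  intro w'
  obtain ⟨n, y, h⟩ := H (w'.comp (α : A →ₐ[ℂ] A'))
  exact ⟨n, _, lc_map α h⟩

end Pool.Agent.P.MP_824f38_ag.N
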