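import Pool.Agent.P.MP_824f38_ag.N.LBasic
import Pool.Agent.P.MP_824f38_ag.N.AWf

/-! Row NEC-LUnit: smooth centres

unit_good: c i = 1 for i < k, 0 otherwise; JJ 1 contains the y i, i < k; the certificate at i is u = ε y i (Drv.base), D = E i, b = 0
(E i kills the divisors through w, which are other coordinates). unit_eq: J 1 = span of the first k coordinates; Drv q g implies q ≤ 1 and,
for q = 1, g in I (all c l with l ≤ i are positive). le_unitInv_zero: every key is ≤ the padding. -/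

set_option linter.unusedVariables false
set_option linter.unusedSectionVars false
set_option linter.style.haveILetI false
set_option linter.dupNamespace false

namespace Pool.Agent.P.MP_824f38_ag.N

variable {A : Type} [CommRing A] [Algebra ℂ A] [Algebra.FiniteType ℂ A] {w : A →ₐ[ℂ] ℂ}

private theorem mkKey_zero (l : WithBot ℕ) : mkKey 0 l = mkKey 0 ⊥ := by
  simp [mkKey]

private theorem drv_one {I : Ideal A} {y : ℕ → A} {c : ℕ → ℚ} {i : ℕ} (hc : ∀ l, l ≤ i → 0 < c l)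
    {q : ℚ} {g : A} (h : Drv I y c i q g) : q ≤ 1 ∧ (q = 1 → g ∈ I) := by
  induction h with
  | base f hf => exact ⟨le_rfl, fun _ => hf⟩
  | smul b _ ih => exact ⟨ih.1, fun e => I.mul_mem_left _ (ih.2 e)⟩
  | add _ _ ih ih' => exact ⟨ih.1, fun e => add_mem (ih.2 e) (ih'.2 e)⟩
  | mono hq _ ih => exact ⟨hq.trans ih.1, fun e => ih.2 (le_antisymm ih.1 (e ▸ hq))⟩
  | der D l hl hD _ ih =>
    have h1 := hc l hl
    have h2 := ih.1
    exact ⟨by linarith, fun e => by linarith⟩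

theorem unit_good {σ : ℕ → A} {n k : ℕ} (hk : k ≤ n) {y : Fin n → A} {lab : Fin n → WithBot ℕ}
    (H : LC w y) (L : Lab σ w y lab) (hl : ∀ a : Fin k, lab (Fin.castLE hk a) = ⊥) {I : Ideal A}
    (h1 : I ≤ sat w (Ideal.span (Set.range fun a : Fin k => y (Fin.castLE hk a))))
    (h2 : ∀ a : Fin k, y (Fin.castLE hk a) ∈ sat w I) :
    ∃ Γ : WS A, Γ.N = n ∧ Γ.Good σ I w ∧ Γ.inv = unitInv k := by
  let Γ : WS A := ⟨n, fun i => if h : i < n then y ⟨i, h⟩ else 0, fun i => if i < k then 1 else 0,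
    fun i => if h : i < n then lab ⟨i, h⟩ else ⊥⟩
  have hy : ∀ i (h : i < n), Γ.y i = y ⟨i, h⟩ := fun i h => dif_pos h
  have hlab : ∀ i (h : i < n), Γ.lab i = lab ⟨i, h⟩ := fun i h => dif_pos h
  have hc1 : ∀ i, i < k → Γ.c i = 1 := fun i h => if_pos h
  have hc0 : ∀ i, ¬ i < k → Γ.c i = 0 := fun i h => if_neg h
  have hlt : ∀ i, 0 < Γ.c i → i < k := fun i h => by
    by_contra h'
    exact h.ne' (hc0 i h')
  have hyF : Γ.yF = y := funext fun i => hy i i.2
  have hlF : Γ.labF = lab := funext fun i => hlab i i.2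
  have hkey : ∀ i, Γ.key i = if i < k then mkKey 1 ⊥ else mkKey 0 ⊥ := by
    intro i
    unfold WS.key
    split_ifs with h
    · rw [hc1 i h, hlab i (h.trans_le hk)]
      exact congrArg _ (hl ⟨i, h⟩)
    · rw [hc0 i h, mkKey_zero]
  have hn : ∀ i, 0 ≤ Γ.c i := fun i => by
    by_cases h : i < k
    · rw [hc1 i h]; exact zero_le_one
    · rw [hc0 i h]
  refine ⟨Γ, rfl, ⟨⟨⟨hn, fun i hi => hc0 i (not_lt.mpr (hk.trans hi)), fun i j hij => ?_⟩,
    hyF ▸ H, hyF ▸ hlF ▸ L⟩, h1.trans (sat_mono w (Ideal.span_le.mpr ?_)), fun i hi => ?_,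
    fun i hi => ⟨0, 1, le_rfl, ?_⟩⟩, congrArg toLex (funext hkey)⟩
  · by_cases h : j < k
    · rw [hkey, hkey, if_pos h, if_pos (hij.trans_lt h)]
    · rw [hkey j, if_neg h]
      exact mkKey_le_pad (hn i) _
  · rintro _ ⟨a, rfl⟩
    have h := mem_JJ_self Γ.yF Γ.cF (Fin.castLE hk a)
    have e : Γ.cF (Fin.castLE hk a) = 1 := hc1 _ a.2
    rw [e] at h
    have e' : Γ.yF (Fin.castLE hk a) = y (Fin.castLE hk a) := congrFun hyF _
    rw [e'] at h
    exact h
  · have hik := hlt i hi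
    have hin : i < n := hik.trans_le hk
    obtain ⟨ε, hε, hu⟩ := h2 ⟨i, hik⟩
    obtain ⟨E, Δ, hΔ, hE⟩ := H.dual
    have hu' : ε * y ⟨i, hin⟩ ∈ I := hu
    refine ⟨ε * y ⟨i, hin⟩, E ⟨i, hin⟩, 0, ?_, fun t ht => ?_, fun j hj => ?_, ?_,
      fun _ => ⟨ε, hε, by rw [hy i hin]⟩, fun j hj => ?_⟩
    · rw [hc1 i hik]; exact Drv.base _ hu'
    · rw [hy t (ht.trans hin), hE, if_neg (fun e => ht.ne' (congrArg Fin.val e))]
      exact dvd_zero _
    · by_cases h0 : w (σ j) = 0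
      · obtain ⟨t, ht⟩ := L.ex j h0
        left
        rw [← L.eq t j ht, hE, if_neg]
        · exact dvd_zero _
        · rintro rfl
          exact hj (by rw [hlab i hin, ht])
      · exact Or.inr h0
    · rw [zero_mul, add_zero, Derivation.leibniz, hE, if_pos rfl, smul_eq_mul, smul_eq_mul, map_add,
        map_mul, map_mul, H.van, zero_mul, add_zero]
      exact mul_ne_zero hε hΔ
    · rw [hy i hin]
      exact L.eq _ j (by rw [← hlab i hin]; exact hj)
  · rw [hc1 i (hlt i hi)]; simp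

theorem unit_eq {σ : ℕ → A} {I : Ideal A} {Γ : WS A} (H : Γ.Good σ I w) {k : ℕ}
    (h : Γ.inv = unitInv k) : k ≤ Γ.N ∧ (∀ i, i < k → Γ.lab i = ⊥) ∧
      (∀ i, Γ.c i = if i < k then 1 else 0) ∧
      sat w I = sat w (Ideal.span (Γ.yF '' {i | (i : ℕ) < k})) := by
  have hkey : ∀ i, mkKey (Γ.c i) (Γ.lab i) = if i < k then mkKey 1 ⊥ else mkKey 0 ⊥ :=
    fun i => congrFun (toLex.injective h) i
  have hc : ∀ i, Γ.c i = if i < k then 1 else 0 := by
    intro i
    have h1 := congrArg Key.wt (hkey i)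
    rw [mkKey_wt] at h1
    rw [h1]
    split_ifs <;> exact mkKey_wt _ _
  have hl : ∀ i, i < k → Γ.lab i = ⊥ := by
    intro i hi
    have h1 := congrArg Key.lab (hkey i)
    rwa [if_pos hi, hc, if_pos hi, mkKey_lab one_ne_zero, mkKey_lab one_ne_zero] at h1
  refine ⟨?_, hl, hc, le_antisymm (sat_le_sat w (H.adm.trans (sat_mono w ?_)))
    (sat_le_sat w (Ideal.span_le.mpr ?_))⟩
  · by_contra hN
    have h1 := H.ctr.sorted.pad Γ.N le_rfl
    rw [hc, if_pos (not_le.mp hN)] at h1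
    exact one_ne_zero h1
  · refine (JJ_le_span Γ.yF (fun i => H.ctr.sorted.nonneg i) one_pos).trans (Ideal.span_mono ?_)
    rintro _ ⟨i, hi, rfl⟩
    refine ⟨i, ?_, rfl⟩
    by_contra h'
    have h1 : Γ.cF i = 0 := (hc i).trans (if_neg h')
    exact hi.ne' h1
  · rintro _ ⟨i, hi, rfl⟩
    have hi' : (i : ℕ) < k := hi
    have hp : ∀ l, l ≤ (i : ℕ) → 0 < Γ.c l := fun l hl => by
      rw [hc, if_pos (hl.trans_lt hi')]; exact one_pos
    obtain ⟨u, D, b, hu, -, -, -, h5, -⟩ := H.cert i (hp i le_rfl)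
    obtain ⟨ε, hε, rfl⟩ := h5 (hl i hi')
    exact ⟨ε, hε, (drv_one hp hu).2 ((hc i).trans (if_pos hi'))⟩

theorem le_unitInv_zero {Γ : WS A} (h : Γ.Sorted) : Γ.inv ≤ unitInv 0 := by
  refine Pi.toLex_monotone fun i => ?_
  change Γ.key i ≤ if i < 0 then mkKey 1 ⊥ else mkKey 0 ⊥
  rw [if_neg (Nat.not_lt_zero i)]
  exact mkKey_le_pad (h.nonneg i) _

theorem c_pos_of_ne_bot [IsDomain A] {σ : ℕ → A} {I : Ideal A} {Γ : WS A} (H : Γ.Good σ I w)
    (hI : I ≠ ⊥) : 0 < Γ.c 0 := by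
  by_contra h0
  refine hI (eq_bot_iff.mpr fun f hf => ?_)
  obtain ⟨g, hg, hgf⟩ := H.adm hf
  have h1 := JJ_le_span Γ.yF (c := Γ.cF) (fun i => H.ctr.sorted.nonneg i) one_pos hgf
  have h2 : {a | ∃ i, 0 < Γ.cF i ∧ a = Γ.yF i} = ∅ := by
    refine Set.eq_empty_of_forall_notMem ?_
    rintro _ ⟨i, hi, rfl⟩
    exact h0 (hi.trans_le (H.ctr.sorted.anti (Nat.zero_le (i : ℕ))))
  rw [h2, Ideal.span_empty, Ideal.mem_bot, mul_eq_zero] at h1
  exact h1.resolve_left fun e => hg (by rw [e, map_zero])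

end Pool.Agent.P.MP_824f38_ag.N
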