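import Pool.Agent.P.MP_824f38_ag.N.Alg
import Pool.Agent.P.MP_824f38_ag.V.DRk
import Pool.Agent.P.MP_824f38_ag.DRBasic

/-! Local coordinates at closed points, charts, weighted centres, cobordant blow-ups and
logarithmic forms. -/

set_option linter.unusedVariables false
set_option linter.unusedSectionVars false
set_option linter.style.haveILetI false
set_option linter.dupNamespace false

namespace Pool.Agent.P.MP_824f38_ag.N

open LaurentPolynomial

variable {A : Type} [CommRing A] [Algebra ℂ A]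

/-- the elements that lie in `J` near the closed point `w` -/
def sat (w : A →ₐ[ℂ] ℂ) (J : Ideal A) : Ideal A where
  carrier := {f | ∃ h, w h ≠ 0 ∧ h * f ∈ J}
  add_mem' := by
    rintro a b ⟨h, h0, ha⟩ ⟨k, k0, hb⟩
    refine ⟨h * k, by rw [map_mul]; exact mul_ne_zero h0 k0, ?_⟩
    rw [show h * k * (a + b) = k * (h * a) + h * (k * b) by ring]
    exact add_mem (J.mul_mem_left _ ha) (J.mul_mem_left _ hb)
  zero_mem' := ⟨1, by simp, by simp⟩
  smul_mem' := by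
    rintro c a ⟨h, h0, ha⟩
    refine ⟨h, h0, ?_⟩
    rw [smul_eq_mul, show h * (c * a) = c * (h * a) by ring]
    exact J.mul_mem_left _ ha

theorem mem_sat {w : A →ₐ[ℂ] ℂ} {J : Ideal A} {f : A} :
    f ∈ sat w J ↔ ∃ h, w h ≠ 0 ∧ h * f ∈ J := Iff.rfl

theorem le_sat (w : A →ₐ[ℂ] ℂ) (J : Ideal A) : J ≤ sat w J :=
  fun f hf => ⟨1, by simp, by simpa using hf⟩

theorem sat_mono (w : A →ₐ[ℂ] ℂ) {J J' : Ideal A} (h : J ≤ J') : sat w J ≤ sat w J' :=
  fun f ⟨k, k0, hk⟩ => ⟨k, k0, h hk⟩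

theorem sat_le_sat (w : A →ₐ[ℂ] ℂ) {J J' : Ideal A} (h : J ≤ sat w J') : sat w J ≤ sat w J' := by
  rintro f ⟨k, k0, hk⟩
  obtain ⟨l, l0, hl⟩ := h hk
  exact ⟨l * k, by rw [map_mul]; exact mul_ne_zero l0 k0, by rwa [mul_assoc]⟩

/-- `y` is a system of local coordinates at the closed point `w` -/
structure LC (w : A →ₐ[ℂ] ℂ) {ι : Type} [DecidableEq ι] (y : ι → A) : Prop where
  van : ∀ i, w (y i) = 0
  gen : ∀ f, w f = 0 → f ∈ sat w (Ideal.span (Set.range y))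
  dual : ∃ (E : ι → Derivation ℂ A A) (Δ : A), w Δ ≠ 0 ∧
    ∀ i j, E i (y j) = if i = j then Δ else 0

/-- the labels record the divisors `σ j` through the point among the coordinates -/
structure Lab (σ : ℕ → A) (w : A →ₐ[ℂ] ℂ) {ι : Type} (y : ι → A) (lab : ι → WithBot ℕ) :
    Prop where
  eq : ∀ i (j : ℕ), lab i = j → y i = σ j
  ex : ∀ j : ℕ, w (σ j) = 0 → ∃ i, lab i = j

/-- `A` is regular of dimension `n` at `w` and the divisors `σ j` cross normally there -/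
def Snc (σ : ℕ → A) (w : A →ₐ[ℂ] ℂ) (n : ℕ) : Prop :=
  ∃ (y : Fin n → A) (lab : Fin n → WithBot ℕ), LC w y ∧ Lab σ w y lab

/-- `A` is regular at all closed points -/
def Reg (A : Type) [CommRing A] [Algebra ℂ A] : Prop :=
  ∀ w : A →ₐ[ℂ] ℂ, ∃ (n : ℕ) (y : Fin n → A), LC w y

/-- `A` is regular and the divisors `σ j` cross normally -/
def SReg (σ : ℕ → A) : Prop := ∀ w : A →ₐ[ℂ] ℂ, ∃ n, Snc σ w n

/-- all but finitely many divisors are empty -/
def FinDiv (σ : ℕ → A) : Prop := ∃ m, ∀ j, m ≤ j → σ j = 1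

/-- global coordinates -/
structure Chart {N : ℕ} (y : Fin N → A) : Prop where
  dual : ∃ E : Fin N → Derivation ℂ A A, ∀ i j, E i (y j) = if i = j then 1 else 0
  span : Submodule.span A (Set.range fun i => KaehlerDifferential.D ℂ A (y i)) = ⊤

/-- the ideal of the monomials in `y` of weight at least `q` -/
def JJ {ι : Type} [Fintype ι] (y : ι → A) (c : ι → ℚ) (q : ℚ) : Ideal A :=
  Ideal.span {f | ∃ α : ι → ℕ, q ≤ ∑ i, (α i : ℚ) * c i ∧ f = ∏ i, y i ^ α i}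

/-- a word of derivations applied to an element; the head of the list acts last -/
def word {ι : Type} (E : ι → Derivation ℂ A A) (L : List ι) (f : A) : A :=
  L.foldr (fun i g => E i g) f

/-- weighted systems of elements with labels -/
structure WS (A : Type) where
  N : ℕ
  y : ℕ → A
  c : ℕ → ℚ
  lab : ℕ → WithBot ℕ

namespace WS

variable (Γ : WS A)

/-- the elements -/
def yF : Fin Γ.N → A := fun i => Γ.y i
/-- the weights -/
def cF : Fin Γ.N → ℚ := fun i => Γ.c i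
/-- the labels -/
def labF : Fin Γ.N → WithBot ℕ := fun i => Γ.lab i
/-- the weight filtration -/
def J (q : ℚ) : Ideal A := JJ Γ.yF Γ.cF q
/-- the keys -/
def key (i : ℕ) : Key := mkKey (Γ.c i) (Γ.lab i)
/-- the invariant -/
def inv : Inv := toLex Γ.key

/-- the weights are nonnegative, vanish from `N` on, and the keys are sorted -/
structure Sorted : Prop where
  nonneg : ∀ i, 0 ≤ Γ.c i
  pad : ∀ i, Γ.N ≤ i → Γ.c i = 0
  mono : Monotone Γ.key

/-- a weighted centre at `w` that is compatible with the divisors -/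
structure IsCtr (σ : ℕ → A) (w : A →ₐ[ℂ] ℂ) : Prop where
  sorted : Γ.Sorted
  lc : LC w Γ.yF
  lab : Lab σ w Γ.yF Γ.labF

end WS

/-- the derivation is tangent to the first `l` elements -/
def Lev (y : ℕ → A) (l : ℕ) (D : Derivation ℂ A A) : Prop := ∀ t, t < l → y t ∣ D (y t)

/-- elements derived from `I` at stage `i`, with a lower bound for their weight -/
inductive Drv (I : Ideal A) (y : ℕ → A) (c : ℕ → ℚ) (i : ℕ) : ℚ → A → Prop
  | base (f : A) (hf : f ∈ I) : Drv I y c i 1 f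
  | smul (b : A) {q : ℚ} {g : A} (h : Drv I y c i q g) : Drv I y c i q (b * g)
  | add {q : ℚ} {g g' : A} (h : Drv I y c i q g) (h' : Drv I y c i q g') : Drv I y c i q (g + g')
  | mono {q q' : ℚ} {g : A} (hq : q' ≤ q) (h : Drv I y c i q g) : Drv I y c i q' g
  | der (D : Derivation ℂ A A) (l : ℕ) (hl : l ≤ i) (hD : Lev y l D) {q : ℚ} {g : A}
      (h : Drv I y c i q g) : Drv I y c i (q - c l) (D g)

namespace WS

variable (Γ : WS A)

/-- the certificate for the element `i` at the point `w` -/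
def CertAt (σ : ℕ → A) (I : Ideal A) (w : A →ₐ[ℂ] ℂ) (i : ℕ) : Prop :=
  ∃ (u : A) (D : Derivation ℂ A A) (b : A), Drv I Γ.y Γ.c i (Γ.c i) u ∧ Lev Γ.y i D ∧
    (∀ j : ℕ, (j : WithBot ℕ) ≠ Γ.lab i → σ j ∣ D (σ j) ∨ w (σ j) ≠ 0) ∧
    w (D u + b * u) ≠ 0 ∧ (Γ.lab i = ⊥ → ∃ ε, w ε ≠ 0 ∧ u = ε * Γ.y i) ∧
    ∀ j : ℕ, Γ.lab i = j → Γ.y i = σ j

/-- the certificate at the point `w` -/
def Cert (σ : ℕ → A) (I : Ideal A) (w : A →ₐ[ℂ] ℂ) : Prop :=
  ∀ i, 0 < Γ.c i → Γ.CertAt σ I w i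

/-- the weights are generated step by step -/
def Gen : Prop := ∀ i, 0 < Γ.c i → ∃ (r : ℕ → ℕ) (n : ℕ), 1 ≤ n ∧
  ∑ t ∈ Finset.range i, (r t : ℚ) * Γ.c t + n * Γ.c i = 1

/-- the canonical centre of `I` at `w` -/
structure Good (σ : ℕ → A) (I : Ideal A) (w : A →ₐ[ℂ] ℂ) : Prop where
  ctr : Γ.IsCtr σ w
  adm : I ≤ sat w (Γ.J 1)
  cert : Γ.Cert σ I w
  gen : Γ.Gen

end WS

/-- the cobordant blow-up of a filtration, generated in the degrees up to `L` -/
noncomputable def Bl (𝓙 : ℕ → Ideal A) (L : ℕ) : Subalgebra ℂ A[T;T⁻¹] :=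
  Algebra.adjoin ℂ (Set.range (C : A →+* A[T;T⁻¹]) ∪ {T (-1)} ∪
    {x | ∃ (l : ℕ) (f : A), 1 ≤ l ∧ l ≤ L ∧ f ∈ 𝓙 l ∧ x = C f * T (l : ℤ)})

/-- constants as an algebra map -/
noncomputable def lC (A : Type) [CommRing A] [Algebra ℂ A] : A →ₐ[ℂ] A[T;T⁻¹] :=
  IsScalarTower.toAlgHom ℂ A A[T;T⁻¹]

theorem lC_apply (a : A) : lC A a = C a := rfl

variable (𝓙 : ℕ → Ideal A) (L : ℕ)

/-- the structure map of the blow-up -/
noncomputable def blC : A →ₐ[ℂ] Bl 𝓙 L :=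
  (lC A).codRestrict _ fun a => Algebra.subset_adjoin (Or.inl (Or.inl ⟨a, rfl⟩))

theorem blC_val (a : A) : (blC 𝓙 L a : A[T;T⁻¹]) = C a := rfl

/-- the equation of the exceptional divisor -/
noncomputable def blS : Bl 𝓙 L := ⟨T (-1), Algebra.subset_adjoin (Or.inl (Or.inr rfl))⟩

theorem blS_val : (blS 𝓙 L : A[T;T⁻¹]) = T (-1) := rfl

theorem mem_Bl {l : ℕ} {f : A} (hl : l ≤ L) (hf : l = 0 ∨ f ∈ 𝓙 l) :
    C f * T (l : ℤ) ∈ Bl 𝓙 L := by
  rcases Nat.eq_zero_or_pos l with rfl | h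
  · rw [Nat.cast_zero, T_zero, mul_one]; exact (blC 𝓙 L f).2
  · exact Algebra.subset_adjoin (Or.inr ⟨l, f, h, hl, hf.resolve_left h.ne', rfl⟩)

open Classical in
/-- the element `f * T ^ l` of the blow-up (zero if it does not belong to it) -/
noncomputable def blU (f : A) (l : ℕ) : Bl 𝓙 L :=
  if h : C f * T (l : ℤ) ∈ Bl 𝓙 L then ⟨_, h⟩ else 0

theorem blU_val {l : ℕ} {f : A} (hl : l ≤ L) (hf : l = 0 ∨ f ∈ 𝓙 l) :
    (blU 𝓙 L f l : A[T;T⁻¹]) = C f * T (l : ℤ) := by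
  rw [blU, dif_pos (mem_Bl 𝓙 L hl hf)]

/-- the divisors on the blow-up: strict transforms, and the exceptional divisor as number `m` -/
noncomputable def blσ (σ : ℕ → A) (m : ℕ) (ω : ℕ → ℕ) (j : ℕ) : Bl 𝓙 L :=
  if j < m then blU 𝓙 L (σ j) (ω j) else if j = m then blS 𝓙 L else 1

/-- the weak transform of an ideal -/
noncomputable def blI (I : Ideal A) : Ideal (Bl 𝓙 L) :=
  Ideal.span {x | ∃ f ∈ I, x = blU 𝓙 L f L}

/-- the point is not in the vertex -/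
def blPlus (w : Bl 𝓙 L →ₐ[ℂ] ℂ) : Prop :=
  ∃ (l : ℕ) (f : A), 1 ≤ l ∧ l ≤ L ∧ f ∈ 𝓙 l ∧ w (blU 𝓙 L f l) ≠ 0

/-- The global filtration `𝓙` with divisor weights `ω` is, near `w`, the weight filtration of
the centre `Γ` scaled by `L`. -/
structure BlLoc (σ : ℕ → A) (m : ℕ) (ω : ℕ → ℕ) (w : A →ₐ[ℂ] ℂ) (Γ : WS A) (wt : ℕ → ℕ) :
    Prop where
  ctr : Γ.IsCtr σ w
  wt_eq : ∀ i, (wt i : ℚ) = L * Γ.c i
  wt_le : ∀ i, wt i ≤ L
  mem : ∀ i, wt i = 0 ∨ Γ.y i ∈ 𝓙 (wt i)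
  loc : ∃ h, w h ≠ 0 ∧ ∀ l, 1 ≤ l → l ≤ L → ∀ f ∈ 𝓙 l, h * f ∈ Γ.J (l / L)
  lab : ∀ i (j : ℕ), i < Γ.N → Γ.lab i = j → wt i = ω j
  off : ∀ j, w (σ j) ≠ 0 → ω j = 0

/-- the global data of a blow-up -/
structure BlGlob (σ : ℕ → A) (m : ℕ) (ω : ℕ → ℕ) : Prop where
  pos : 1 ≤ L
  anti : ∀ l, 𝓙 (l + 1) ≤ 𝓙 l
  one : ∀ j, m ≤ j → σ j = 1
  ω_le : ∀ j, ω j ≤ L
  σ_mem : ∀ j, ω j = 0 ∨ σ j ∈ 𝓙 (ω j)

/-- the chart `A[b / a]` of the blow-up of two elements -/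
noncomputable def Bch (a b : A) : Subalgebra ℂ (Localization.Away a) :=
  Algebra.adjoin ℂ (Set.range (algebraMap A (Localization.Away a)) ∪
    {algebraMap A _ b * IsLocalization.Away.invSelf a})

/-- the structure map of the chart -/
noncomputable def bchC (a b : A) : A →ₐ[ℂ] Bch a b :=
  (IsScalarTower.toAlgHom ℂ A (Localization.Away a)).codRestrict _
    fun x => Algebra.subset_adjoin (Or.inl ⟨x, rfl⟩)

/-- the element `b / a` -/
noncomputable def bchT (a b : A) : Bch a b :=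
  ⟨algebraMap A _ b * IsLocalization.Away.invSelf a, Algebra.subset_adjoin (Or.inr rfl)⟩

/-- localisation as an algebra map -/
noncomputable abbrev toAway (h : A) : A →ₐ[ℂ] Localization.Away h :=
  IsScalarTower.toAlgHom ℂ A (Localization.Away h)

/-- adjoining a root -/
abbrev Rt (u : A) (M : ℕ) : Type := AdjoinRoot (Polynomial.X ^ M - Polynomial.C u)

/-- the structure map of the root cover -/
noncomputable abbrev toRt (u : A) (M : ℕ) : A →ₐ[ℂ] Rt u M := IsScalarTower.toAlgHom ℂ A (Rt u M)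

/-- the wedge product of the differentials `d (y i)`, `i ∈ S`, in increasing order -/
noncomputable def mono {ι : Type} [LinearOrder ι] (y : ι → A) (S : Finset ι) : DR A :=
  ((S.sort (· ≤ ·)).map fun i => dd (y i)).prod

/-- the forms `y ^ e * ω` with `ω` logarithmic along the `y j`, `j ∈ J` (for `e j ≥ 1`) -/
noncomputable def Ne {ι : Type} [LinearOrder ι] (y : ι → A) (J : Finset ι) (e : ι → ℕ) :
    Submodule A (DR A) :=
  Submodule.span A {ω | ∃ P : Finset ι, P ⊆ J ∧ ∃ β : DR A,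
    ω = (∏ j ∈ J, y j ^ (if j ∈ P then e j - 1 else e j)) • (mono y P * β)}

/-- the forms that vanish on the zero set of the ideal -/
noncomputable def Kil (𝔞 : Ideal A) : Submodule A (DR A) :=
  Submodule.span A {ω | ∃ a ∈ 𝔞, ∃ β : DR A, ω = a • β ∨ ω = dd a * β}

end Pool.Agent.P.MP_824f38_ag.N
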