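import Pool.Agent.P.MP_824f38_ag.N.MTwist
import Pool.Agent.P.MP_824f38_ag.N.LDer
import Pool.Agent.P.MP_824f38_ag.N.LNbhd

/-! Row NEC-MBasic: basic properties of graded models

rel: both sides are homogeneous of degree -(l⁻) and have the same image under ψ (ψinj). unit_ex: the degrees of homogeneous divisors of powers of g i form a monoid U containing χ, and d in U gives n χ - d in U (hom_cofactor);
so every element of the group generated by U is d - k χ. adjust: take a from unit_ex for l = - n t • b t and multiply by g i ^ (κ - k), κ > all k. euler_indep: apply Σ lam j θ j to g i and to the a of unit_ex.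
σ_rad: mem_radical_of_pts and rad. -/

set_option linter.unusedVariables false
set_option linter.unusedSectionVars false
set_option linter.style.haveILetI false
set_option linter.dupNamespace false

namespace Pool.Agent.P.MP_824f38_ag.N

open V (Dg Hg IsCo pr Pk)

variable {R : Type} [CommRing R] [Algebra ℂ R] [IsDomain R] [Algebra.FiniteType ℂ R]
  {I0 : Ideal R} {ν : ℕ} (M : GM R I0 ν)

namespace GM

theorem σp_mem (e : Fin M.m → ℕ) : M.σp e ∈ M.H (-M.dg e) := by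
  refine V.Hg_cast (V.Hg_prod Finset.univ fun j _ => V.Hg_pow (M.hσ j) (e j)) ?_
  funext j
  simp [dg, Finset.sum_apply, Pi.single_apply]

theorem ψ_σp (e : Fin M.m → ℕ) : M.ψ (M.σp e) = 1 := by
  simp [σp, map_prod, M.ψσ]

theorem σ_ne (j : ℕ) : M.σ j ≠ 0 := by
  intro h
  have := M.ψσ j
  rw [h, map_zero] at this
  exact zero_ne_one this

theorem finDiv : FinDiv M.σ := ⟨M.m, M.σ_one⟩

theorem ι_injective : Function.Injective M.ι := by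
  intro a b h
  rw [← M.ψι a, h, M.ψι]

theorem rel {l : Dg M.m} {s : M.S} (hs : s ∈ M.H l) :
    s * M.σp (fun j => (l j).toNat) = M.σp (fun j => (-l j).toNat) * M.ι (M.ψ s) := by
  have h1 := V.Hg_mul hs (M.σp_mem fun j => (l j).toNat)
  have h2 := V.Hg_mul (M.σp_mem fun j => (-l j).toNat) (M.hι (M.ψ s))
  have e : (-M.dg fun j => (-l j).toNat) + 0 = l + -M.dg fun j => (l j).toNat := by
    funext j
    simp only [dg, Pi.add_apply, Pi.neg_apply, Pi.zero_apply]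
    omega
  rw [e] at h2
  refine sub_eq_zero.1 (M.ψinj _ _ (sub_mem h1 h2) ?_)
  rw [map_sub, map_mul, map_mul, M.ψ_σp, M.ψ_σp, M.ψι, mul_one, one_mul, sub_self]

theorem eq_of_ψ {l : Dg M.m} {s s' : M.S} (hs : s ∈ M.H l) (hs' : s' ∈ M.H l)
    (h : M.ψ s = M.ψ s') : s = s' := by
  refine sub_eq_zero.1 (M.ψinj _ _ (sub_mem hs hs') ?_)
  rw [map_sub, h, sub_self]

theorem eq_ι_of_mem {s : M.S} (hs : s ∈ M.H 0) : M.ι (M.ψ s) = s := by
  exact M.eq_of_ψ (M.hι _) hs (M.ψι _)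

theorem Ref.refl : M.Ref M := by
  exact ⟨fun _ _ h => h, fun _ _ h => h⟩

theorem Ref.trans {M} {M' M'' : GM R I0 ν} (h : GM.Ref M M') (h' : M'.Ref M'') : M.Ref M'' := by
  exact ⟨fun τ f hf => h'.mono τ f (h.mono τ f hf), fun 𝒯 hT ht => h.desc 𝒯 hT (h'.desc 𝒯 hT ht)⟩

theorem unit_ex : ∃ N : ℕ, 0 < N ∧ ∀ i (l : Dg M.m), ∃ (k : ℕ) (a : M.S),
    a ∈ M.H (N • l + k • M.χ) ∧ ∃ n : ℕ, a ∣ M.g i ^ n := by
  obtain ⟨N, hN, hu⟩ := M.unit
  refine ⟨N, hN, fun i l => ?_⟩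
  have key : ∀ x ∈ AddSubgroup.closure {d | ∃ a ∈ Hg M.ρ d, ∃ n : ℕ, a ∣ M.g i ^ n},
      ∃ (k : ℕ) (a : M.S), a ∈ M.H (x + k • M.χ) ∧ ∃ n : ℕ, a ∣ M.g i ^ n := by
    intro x hx
    induction hx using AddSubgroup.closure_induction with
    | mem x hx =>
      obtain ⟨a, ha, hn⟩ := hx
      exact ⟨0, a, V.Hg_cast ha (by simp), hn⟩
    | zero => exact ⟨0, 1, V.Hg_cast V.Hg_one (by simp), 0, one_dvd _⟩
    | add x y _ _ hx hy =>
      obtain ⟨k, a, ha, n, hn⟩ := hx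
      obtain ⟨k', a', ha', n', hn'⟩ := hy
      refine ⟨k + k', a * a', V.Hg_cast (V.Hg_mul ha ha') ?_, n + n', ?_⟩
      · rw [add_smul]; abel
      · rw [pow_add]; exact mul_dvd_mul hn hn'
    | neg x _ hx =>
      obtain ⟨k, a, ha, n, b, hb⟩ := hx
      obtain ⟨b', hb', e⟩ := hom_cofactor M.co ha (V.Hg_pow (M.hg i) n) hb.symm
      refine ⟨n, b' * M.g i ^ k, V.Hg_cast (V.Hg_mul hb' (V.Hg_pow (M.hg i) k)) ?_, n + k, ?_⟩
      · abel
      · rw [pow_add]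
        exact mul_dvd_mul (Dvd.intro_left a e) dvd_rfl
  exact key _ (hu i l)

theorem adjust {τ : Type} [Finite τ] (b : τ → Dg M.m) : ∃ N κ : ℕ, 0 < N ∧ 0 < κ ∧ ∀ i t,
    ∃ a ∈ M.H (κ • M.χ - N • b t), M.g i ∣ a ∧ ∃ n : ℕ, a ∣ M.g i ^ n := by
  obtain ⟨N, hN, hu⟩ := M.unit_ex
  choose k a ha n hn using fun p : M.κ × τ => hu p.1 (-b p.2)
  obtain ⟨B, hB⟩ := (Set.finite_range k).bddAbove
  refine ⟨N, B + 1, hN, Nat.succ_pos _, fun i t => ?_⟩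
  obtain ⟨r, hr⟩ := Nat.exists_eq_add_of_le (hB ⟨(i, t), rfl⟩)
  refine ⟨a (i, t) * M.g i ^ (r + 1),
    V.Hg_cast (V.Hg_mul (ha (i, t)) (V.Hg_pow (M.hg i) (r + 1))) ?_,
    Dvd.dvd.mul_left (dvd_pow_self _ (Nat.succ_ne_zero r)) _, n (i, t) + (r + 1), ?_⟩
  · rw [hr, add_assoc (k (i, t)), add_smul (k (i, t)), smul_neg]; abel
  · rw [pow_add (M.g i) (n (i, t))]
    exact mul_dvd_mul (hn (i, t)) dvd_rfl

theorem euler_indep {w : M.S →ₐ[ℂ] ℂ} (hw : M.Plus w) (θ : Fin M.m → Derivation ℂ M.S M.S)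
    (hθ : ∀ j l, ∀ s ∈ M.H l, θ j s = l j • s) (lam : Fin M.m → ℂ)
    (h : ∀ s, ∑ j, lam j * w (θ j s) = 0) : lam = 0 := by
  obtain ⟨i, hi⟩ := hw
  obtain ⟨N, hN, hu⟩ := M.unit_ex
  have key : ∀ l, ∀ s ∈ M.H l, w s ≠ 0 → ∑ j, lam j * (l j : ℂ) = 0 := by
    intro l s hs h0
    have := h s
    simp only [fun j => hθ j l s hs, zsmul_eq_mul, map_mul, map_intCast, ← mul_assoc,
      ← Finset.sum_mul] at this
    exact (mul_eq_zero.1 this).resolve_right h0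
  have h1 := key _ _ (M.hg i) hi
  funext j
  obtain ⟨k, a, ha, n, b, hb⟩ := hu i (Pi.single j 1)
  have ha0 : w a ≠ 0 := fun h0 => pow_ne_zero n hi (by rw [← map_pow, hb, map_mul, h0, zero_mul])
  have h2 := key _ _ ha ha0
  have e : ∀ j', lam j' * (((N • Pi.single j (1 : ℤ) + k • M.χ : Dg M.m) j' : ℤ) : ℂ) =
      (if j' = j then (N : ℂ) * lam j' else 0) + k * (lam j' * (M.χ j' : ℂ)) := by
    intro j'
    by_cases hj : j' = j
    · subst hj; simp; ring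
    · simp [hj]; ring
  rw [Finset.sum_congr rfl fun j' _ => e j', Finset.sum_add_distrib, ← Finset.mul_sum, h1,
    mul_zero, add_zero, Finset.sum_ite_eq', if_pos (Finset.mem_univ j)] at h2
  exact (mul_eq_zero.1 h2).resolve_left (Nat.cast_ne_zero.2 hN.ne')

theorem σ_rad (j : ℕ) {a : R} (ha : a ∈ I0) (i : M.κ) : ∃ n : ℕ, M.σ j ∣ (M.ι a * M.g i) ^ n := by
  have : M.ι a * M.g i ∈ (Ideal.span {M.σ j}).radical := by
    refine mem_radical_of_pts fun w hw => ?_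
    rw [map_mul]
    by_cases h0 : w (M.g i) = 0
    · rw [h0, mul_zero]
    · rw [M.rad w ⟨i, h0⟩ j (hw _ (Ideal.mem_span_singleton_self _)) a ha, zero_mul]
  obtain ⟨n, hn⟩ := this
  exact ⟨n, Ideal.mem_span_singleton.1 hn⟩

theorem pow_mem_span {τ : Type} {μ : τ → M.S} (h : ∀ w, M.Plus w → ∃ k, w (μ k) ≠ 0) (i : M.κ) :
    ∃ n : ℕ, M.g i ^ n ∈ Ideal.span (Set.range μ) := by
  refine mem_radical_of_pts (J := Ideal.span (Set.range μ)) fun w hw => ?_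
  by_contra h0
  obtain ⟨k, hk⟩ := h w ⟨i, h0⟩
  exact hk (hw _ (Ideal.subset_span ⟨k, rfl⟩))

theorem reg_away {h : M.S} (H : ∀ w : M.S →ₐ[ℂ] ℂ, w h ≠ 0 → M.Plus w) :
    Reg (Localization.Away h) := by
  intro w'
  have h0 : (w'.comp (toAway h)) h ≠ 0 :=
    ((IsLocalization.Away.algebraMap_isUnit (S := Localization.Away h) h).map w').ne_zero
  obtain ⟨y, lab, hy, -⟩ := M.loc _ (H _ h0)
  exact ⟨_, _, LC.loc (Submonoid.powers h) hy⟩

theorem Wk.hom {M : GM R I0 ν} {τ : Type} {f : τ → R} {e : Fin M.m → ℕ} {μ : τ → M.S}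
    (W : M.Wk f e μ) : M.Hom (Ideal.span (Set.range μ)) := by
  exact hom_span M.co (by rintro _ ⟨k, rfl⟩; exact ⟨_, W.mem k⟩)

theorem wk_zero {τ : Type} (f : τ → R) : M.Wk f 0 fun k => M.ι (f k) := by
  refine ⟨fun k => by simp [σp], fun k => V.Hg_cast (M.hι _) ?_⟩
  funext j
  simp [dg]

theorem hasInv_of_good {I : Ideal M.S} {w : M.S →ₐ[ℂ] ℂ} (hw : M.Plus w) {Γ : WS M.S}
    (h : Γ.Good M.σ I w) : M.HasInv I w Γ.inv := by
  obtain ⟨Θ, hN, hΘ⟩ := run (M.loc w hw) h.van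
  exact ⟨hw, Θ, hN, hΘ, (good_unique h hΘ).1⟩

theorem HasInv.unique {M : GM R I0 ν} {I : Ideal M.S} {w : M.S →ₐ[ℂ] ℂ} {k k' : Inv}
    (h : M.HasInv I w k) (h' : M.HasInv I w k') : k = k' := by
  obtain ⟨-, Γ, -, hΓ, rfl⟩ := h
  obtain ⟨-, Θ, -, hΘ, rfl⟩ := h'
  exact (good_unique hΘ hΓ).1

theorem exists_hasInv {I : Ideal M.S} {w : M.S →ₐ[ℂ] ℂ} (hw : M.Plus w) (h : ∀ f ∈ I, w f = 0) :
    ∃ k, M.HasInv I w k := by
  obtain ⟨Θ, hN, hΘ⟩ := run (M.loc w hw) h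
  exact ⟨_, hw, Θ, hN, hΘ, rfl⟩

theorem exists_gen_pt {𝔭 : Ideal R} [𝔭.IsPrime] (h : ¬ I0 ≤ 𝔭) {a : R} (ha : a ∉ 𝔭) :
    ∃ w : M.S →ₐ[ℂ] ℂ, M.Plus w ∧ (∀ f ∈ 𝔭, w (M.ι f) = 0) ∧ w (M.ι a) ≠ 0 ∧
      ∀ j, w (M.σ j) ≠ 0 := by
  let x : R →ₐ[ℂ] KB (R ⧸ 𝔭) :=
    (IsScalarTower.toAlgHom ℂ (R ⧸ 𝔭) (KB (R ⧸ 𝔭))).comp (Ideal.Quotient.mkₐ ℂ 𝔭)
  have hx : ∀ r, x r = 0 ↔ r ∈ 𝔭 := fun r => by
    rw [← Ideal.Quotient.eq_zero_iff_mem]
    exact map_eq_zero_iff _ (inj_KB (R ⧸ 𝔭))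
  obtain ⟨a0, ha0, ha1⟩ := Set.not_subset.1 h
  obtain ⟨φ, hφ, hσ, i, hi⟩ := M.prop (KB (R ⧸ 𝔭)) (rootClosed_of_isAlgClosed _) x
    ⟨a0, ha0, fun e => ha1 ((hx _).1 e)⟩
  have hι : ∀ r, φ (M.ι r) = x r := fun r => AlgHom.congr_fun hφ r
  haveI : (RingHom.ker φ).IsPrime := RingHom.ker_isPrime φ
  have hf : M.ι a * (∏ j : Fin M.m, M.σ j) * M.g i ∉ RingHom.ker φ := by
    rw [RingHom.mem_ker, map_mul, map_mul, map_prod, hι]
    exact mul_ne_zero (mul_ne_zero (fun e => ha ((hx _).1 e))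
      (Finset.prod_ne_zero_iff.2 fun j _ => hσ j)) hi.ne_zero
  obtain ⟨w, hw, hw'⟩ := exists_pt_of_notMem hf
  rw [map_mul, map_mul, map_prod] at hw'
  refine ⟨w, ⟨i, right_ne_zero_of_mul hw'⟩, fun f hf => hw _ ?_,
    left_ne_zero_of_mul (left_ne_zero_of_mul hw'), fun j => ?_⟩
  · rw [RingHom.mem_ker, hι]; exact (hx _).2 hf
  · by_cases hj : j < M.m
    · exact Finset.prod_ne_zero_iff.1 (right_ne_zero_of_mul (left_ne_zero_of_mul hw')) ⟨j, hj⟩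
        (Finset.mem_univ _)
    · rw [M.σ_one j (not_lt.1 hj), map_one]; exact one_ne_zero

end GM

end Pool.Agent.P.MP_824f38_ag.N
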