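import Pool.Agent.P.MP_824f38_ag.N.MCo

/-! Row NEC-MCh: the charts of the blow-up

Take homogeneous generators f t of degree b t of the 𝓙 (l t), 1 ≤ l t ≤ L (hom_gens; τ = Σ l, Fin (N l)), n t = L! / l t; adjust for the degrees n t • b t gives N, κ and a i t. Put g' (i,t) = C (a i t) * (blU (f t) (l t))^(N n t), of degree χ' = upDg ω (κ χ) (N L!).
unit: with N0 from M.unit, the group contains upDg ω d 0 for d in the old set, and χ' - upDg ω (κ χ) 0 = upDg ω 0 (N L!); take N0 N L!. iff: in a local ring a sum is a unit only if a summand is. -/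

set_option linter.unusedVariables false
set_option linter.unusedSectionVars false
set_option linter.style.haveILetI false
set_option linter.dupNamespace false

namespace Pool.Agent.P.MP_824f38_ag.N

open V (Dg Hg IsCo pr Pk)

variable {R : Type} [CommRing R] [Algebra ℂ R] [IsDomain R] [Algebra.FiniteType ℂ R]
  {I0 : Ideal R} {ν : ℕ} (M : GM R I0 ν)

namespace GM

/-- the degree map of the blow-up as an additive map -/
private noncomputable def upH (ω : ℕ → ℕ) : Dg M.m × ℤ →+ Dg (M.m + 1) :=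
  AddMonoidHom.mk' (fun p => M.upDg ω p.1 p.2) fun p q => M.upDg_add ω p.1 q.1 p.2 q.2

private theorem upH_apply (ω : ℕ → ℕ) (b : Dg M.m) (n : ℤ) : upH M ω (b, n) = M.upDg ω b n := rfl

private theorem blC_deg {𝓙 : ℕ → Ideal M.S} {L : ℕ} {ω : ℕ → ℕ}
    {ρ' : Bl 𝓙 L →+* AddMonoidAlgebra (Bl 𝓙 L) (Dg (M.m + 1))} (C : M.BlCo 𝓙 L ω ρ')
    {a : M.S} {d : Dg M.m} (ha : a ∈ M.H d) : blC 𝓙 L a ∈ Hg ρ' (upH M ω (d, 0)) := by
  rw [upH_apply, C.mem]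
  exact ⟨a, ha, by rw [blC_val, LaurentPolynomial.T_zero, mul_one]⟩

private theorem blU_deg {𝓙 : ℕ → Ideal M.S} {L : ℕ} {ω : ℕ → ℕ}
    {ρ' : Bl 𝓙 L →+* AddMonoidAlgebra (Bl 𝓙 L) (Dg (M.m + 1))} (C : M.BlCo 𝓙 L ω ρ')
    {f : M.S} {d : Dg M.m} (hf : f ∈ M.H d) {l : ℕ} (hl : l ≤ L) (hJ : f ∈ 𝓙 l) :
    blU 𝓙 L f l ∈ Hg ρ' (upH M ω (d, (l : ℤ))) := by
  rw [upH_apply, C.mem]
  exact ⟨f, hf, blU_val 𝓙 L hl (Or.inr hJ)⟩

private theorem blU_unit_gen {𝓙 : ℕ → Ideal M.S} {L l : ℕ} (hl : l ≤ L) {s : Set M.S}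
    (hs : Ideal.span s = 𝓙 l) {V : Type} [CommRing V] [IsLocalRing V] [Algebra ℂ V]
    (φ : Bl 𝓙 L →ₐ[ℂ] V) {f : M.S} (hf : f ∈ 𝓙 l) (hu : IsUnit (φ (blU 𝓙 L f l))) :
    ∃ x ∈ s, IsUnit (φ (blU 𝓙 L x l)) := by
  by_contra hne
  have hn : ∀ x ∈ s, φ (blU 𝓙 L x l) ∈ IsLocalRing.maximalIdeal V := fun x hx =>
    (IsLocalRing.mem_maximalIdeal _).2 fun h => hne ⟨x, hx, h⟩
  have key : ∀ x ∈ Ideal.span s, φ (blU 𝓙 L x l) ∈ IsLocalRing.maximalIdeal V := by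
    intro x hx
    induction hx using Submodule.span_induction with
    | mem x hx => exact hn x hx
    | zero =>
      have : blU 𝓙 L (0 : M.S) l = 0 := Subtype.ext (by
        rw [blU_val 𝓙 L hl (Or.inr (zero_mem _)), map_zero, zero_mul]; rfl)
      rw [this, map_zero]; exact zero_mem _
    | add x y hx hy ihx ihy =>
      have hx' : x ∈ 𝓙 l := hs ▸ hx
      have hy' : y ∈ 𝓙 l := hs ▸ hy
      have : blU 𝓙 L (x + y) l = blU 𝓙 L x l + blU 𝓙 L y l := Subtype.ext (by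
        rw [Subalgebra.coe_add, blU_val 𝓙 L hl (Or.inr (add_mem hx' hy')),
          blU_val 𝓙 L hl (Or.inr hx'), blU_val 𝓙 L hl (Or.inr hy'), map_add, add_mul])
      rw [this, map_add]; exact add_mem ihx ihy
    | smul c x hx ih =>
      have hx' : x ∈ 𝓙 l := hs ▸ hx
      have : blU 𝓙 L (c • x) l = blC 𝓙 L c * blU 𝓙 L x l := Subtype.ext (by
        rw [Subalgebra.coe_mul, smul_eq_mul,
          blU_val 𝓙 L hl (Or.inr (Ideal.mul_mem_left _ c hx')),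
          blU_val 𝓙 L hl (Or.inr hx'), blC_val, map_mul, mul_assoc])
      rw [this, map_mul]; exact Ideal.mul_mem_left _ _ ih
  exact (IsLocalRing.mem_maximalIdeal _).1 (key f (hs ▸ hf)) hu

theorem exists_blCh {𝓙 : ℕ → Ideal M.S} {L : ℕ} {ω : ℕ → ℕ} (H : M.SD 𝓙 L ω)
    {ρ' : Bl 𝓙 L →+* AddMonoidAlgebra (Bl 𝓙 L) (Dg (M.m + 1))} (C : M.BlCo 𝓙 L ω ρ') :
    ∃ (χ' : Dg (M.m + 1)) (κ' : Type) (_ : Fintype κ') (g' : κ' → Bl 𝓙 L),
      M.BlCh 𝓙 L ω ρ' χ' g' := by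
  classical
  haveI : IsNoetherianRing M.S := Algebra.FiniteType.isNoetherianRing ℂ M.S
  choose Nn f b hfb hspan using fun l : Fin L => hom_gens M.co (H.hom (l.val + 1))
  have hle : ∀ l : Fin L, l.val + 1 ≤ L := fun l => l.2
  have hfJ : ∀ (l : Fin L) (k : Fin (Nn l)), f l k ∈ 𝓙 (l.val + 1) := fun l k =>
    hspan l ▸ Ideal.subset_span ⟨k, rfl⟩
  let n : Fin L → ℕ := fun l => L.factorial / (l.val + 1)
  have hn : ∀ l, n l * (l.val + 1) = L.factorial := fun l =>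
    Nat.div_mul_cancel (Nat.dvd_factorial (Nat.succ_pos _) (hle l))
  have hn0 : ∀ l, n l ≠ 0 := fun l h => by
    have := hn l
    rw [h, zero_mul] at this
    exact L.factorial_ne_zero this.symm
  obtain ⟨N, κ, hN, hκ, ha⟩ :=
    M.adjust (τ := Σ l : Fin L, Fin (Nn l)) fun t => n t.1 • b t.1 t.2
  choose a haH hga e hae using ha
  let g' : M.κ × (Σ l : Fin L, Fin (Nn l)) → Bl 𝓙 L := fun p =>
    blC 𝓙 L (a p.1 p.2) * blU 𝓙 L (f p.2.1 p.2.2) (p.2.1.val + 1) ^ (N * n p.2.1)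
  have hg' : ∀ p, g' p ∈ Hg ρ' (upH M ω (κ • M.χ, ((N * L.factorial : ℕ) : ℤ))) := by
    rintro ⟨i, l, k⟩
    refine V.Hg_cast (V.Hg_mul (blC_deg M C (haH i ⟨l, k⟩))
      (V.Hg_pow (blU_deg M C (hfb l k) (hle l) (hfJ l k)) (N * n l))) ?_
    rw [← map_nsmul, ← map_add]
    refine congrArg _ (Prod.ext ?_ ?_)
    · simp only [Prod.fst_add, Prod.smul_fst, mul_smul, sub_add_cancel]
    · simp only [Prod.snd_add, Prod.smul_snd, zero_add, ← hn l]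
      rw [nsmul_eq_mul]
      push_cast
      ring
  refine ⟨upH M ω (κ • M.χ, ((N * L.factorial : ℕ) : ℤ)), M.κ × (Σ l : Fin L, Fin (Nn l)),
    inferInstance, g', ?_, hg', ?_, ?_⟩
  · have hκχ : ∀ j, 1 ≤ (κ • M.χ) j := fun j => by
      have h1 := M.hχ j
      have h2 : (1 : ℤ) ≤ κ := by exact_mod_cast hκ
      rw [Pi.smul_apply, nsmul_eq_mul]
      nlinarith
    intro j
    rw [upH_apply, upDg]
    refine Fin.lastCases ?_ (fun j => ?_) j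
    · rw [Fin.snoc_last]
      have h1 : (1 : ℤ) ≤ ((N * L.factorial : ℕ) : ℤ) := by
        exact_mod_cast Nat.mul_pos hN L.factorial_pos
      have h2 : (0 : ℤ) ≤ ∑ j : Fin M.m, (ω j : ℤ) * (κ • M.χ) j :=
        Finset.sum_nonneg fun j _ => mul_nonneg (Int.natCast_nonneg _) (by linarith [hκχ j])
      linarith
    · rw [Fin.snoc_castSucc]; exact hκχ j
  · obtain ⟨N0, hN0, hu⟩ := M.unit
    refine ⟨N0 * (N * L.factorial), Nat.mul_pos hN0 (Nat.mul_pos hN L.factorial_pos), ?_⟩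
    rintro ⟨i, t⟩ d
    set G := AddSubgroup.closure {d | ∃ x ∈ Hg ρ' d, ∃ r : ℕ, x ∣ g' (i, t) ^ r} with hG
    have h1 : ∀ d, (∃ x ∈ Hg M.ρ d, ∃ r : ℕ, x ∣ M.g i ^ r) → upH M ω (d, 0) ∈ G := by
      rintro d ⟨x, hx, r, hr⟩
      refine AddSubgroup.subset_closure ⟨blC 𝓙 L x, blC_deg M C hx, r, ?_⟩
      have h2 : blC 𝓙 L x ∣ blC 𝓙 L (a i t) ^ r := by
        rw [← map_pow]
        exact map_dvd _ (hr.trans (pow_dvd_pow_of_dvd (hga i t) r))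
      exact h2.trans (pow_dvd_pow_of_dvd (Dvd.intro _ rfl) r)
    have h2 : ∀ d ∈ AddSubgroup.closure {d | ∃ x ∈ Hg M.ρ d, ∃ r : ℕ, x ∣ M.g i ^ r},
        upH M ω (d, 0) ∈ G := by
      intro d hd
      have := (AddSubgroup.closure_le
        (G.comap ((upH M ω).comp (AddMonoidHom.inl (Dg M.m) ℤ)))).2 (fun d hd => h1 d hd) hd
      exact this
    have h3 : upH M ω (κ • M.χ, ((N * L.factorial : ℕ) : ℤ)) ∈ G :=
      AddSubgroup.subset_closure ⟨g' (i, t), hg' _, 1, by rw [pow_one]⟩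
    have h4 : upH M ω (M.χ, 0) ∈ G := h1 _ ⟨M.g i, M.hg i, 1, by rw [pow_one]⟩
    have h5 : upH M ω (0, ((N * L.factorial : ℕ) : ℤ)) ∈ G := by
      have := sub_mem h3 (nsmul_mem h4 κ)
      rw [← map_nsmul, ← map_sub] at this
      simpa using this
    obtain ⟨c, r, rfl⟩ := M.upDg_surj ω d
    have h6 := add_mem (nsmul_mem (h2 _ (hu i c)) (N * L.factorial)) (zsmul_mem h5 (N0 * r))
    rw [← map_nsmul, ← map_zsmul, ← map_add] at h6
    rw [← upH_apply, ← map_nsmul]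
    have h7 : (N0 * (N * L.factorial)) • ((c, r) : Dg M.m × ℤ) =
        (N * L.factorial) • ((N0 • c, 0) : Dg M.m × ℤ) +
          ((N0 : ℤ) * r) • ((0, ((N * L.factorial : ℕ) : ℤ)) : Dg M.m × ℤ) := by
      refine Prod.ext ?_ ?_
      · simp only [Prod.fst_add, Prod.smul_fst, smul_zero, add_zero, ← mul_smul, mul_comm N0]
      · simp only [Prod.snd_add, Prod.smul_snd, smul_zero, zero_add]
        rw [nsmul_eq_mul, smul_eq_mul]
        push_cast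
        ring
    rw [h7]
    exact h6
  · intro W _ _ _ φ
    constructor
    · rintro ⟨⟨i, l, k⟩, hu⟩
      rw [show g' (i, ⟨l, k⟩) = blC 𝓙 L (a i ⟨l, k⟩) * blU 𝓙 L (f l k) (l.val + 1) ^ (N * n l)
        from rfl, map_mul, map_pow, IsUnit.mul_iff,
        isUnit_pow_iff (Nat.mul_ne_zero hN.ne' (hn0 l))] at hu
      refine ⟨⟨i, isUnit_of_dvd_unit (map_dvd _ (map_dvd _ (hga i ⟨l, k⟩))) hu.1⟩,
        l.val + 1, f l k, Nat.succ_pos _, hle l, hfJ l k, hu.2⟩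
    · rintro ⟨⟨i, hi⟩, l, x, h1, hl, hx, hu⟩
      obtain ⟨l, rfl⟩ : ∃ l', l = l' + 1 := ⟨l - 1, by omega⟩
      obtain ⟨_, ⟨k, rfl⟩, hk⟩ := blU_unit_gen M hl (hspan ⟨l, hl⟩) φ hx hu
      refine ⟨(i, ⟨⟨l, hl⟩, k⟩), ?_⟩
      rw [show g' (i, ⟨⟨l, hl⟩, k⟩) = blC 𝓙 L (a i ⟨⟨l, hl⟩, k⟩) *
        blU 𝓙 L (f ⟨l, hl⟩ k) (l + 1) ^ (N * n ⟨l, hl⟩) from rfl, map_mul, map_pow]
      refine IsUnit.mul ?_ (hk.pow _)
      have h2 := map_dvd φ (map_dvd (blC 𝓙 L) (hae i ⟨⟨l, hl⟩, k⟩))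
      rw [map_pow, map_pow] at h2
      exact isUnit_of_dvd_unit h2 (hi.pow _)

end GM

end Pool.Agent.P.MP_824f38_ag.N
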