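import Pool.Agent.P.MP_824f38_ag.N.MBasic
import Pool.Agent.P.MP_824f38_ag.N.BGen

/-! Row NEC-MCo: the grading of the blow-up

Define a coaction on M.S[T;T⁻¹] with C s * T n of degree upDg ω b n for s in H b (a ring map out of the Laurent polynomials: C s ↦ the image of ρ s under single b t ↦ single (upDg ω b 0) (C t), T ↦ single (upDg ω 0 1) T). (b, n) ↦ upDg ω b n is an additive bijection.
Bl is stable under the projections (hom_adjoin; 𝓙 l is homogeneous); exists_coSub. -/

set_option linter.unusedVariables false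
set_option linter.unusedSectionVars false
set_option linter.style.haveILetI false
set_option linter.dupNamespace false

namespace Pool.Agent.P.MP_824f38_ag.N

open V (Dg Hg IsCo pr Pk)

variable {R : Type} [CommRing R] [Algebra ℂ R] [IsDomain R] [Algebra.FiniteType ℂ R]
  {I0 : Ideal R} {ν : ℕ} (M : GM R I0 ν)

namespace GM

open LaurentPolynomial

theorem upDg_add (ω : ℕ → ℕ) (b b' : Dg M.m) (n n' : ℤ) :
    M.upDg ω (b + b') (n + n') = M.upDg ω b n + M.upDg ω b' n' := by
  funext i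
  refine Fin.lastCases ?_ (fun j => ?_) i
  · simp only [upDg, Fin.snoc_last, Pi.add_apply, mul_add, Finset.sum_add_distrib]
    ring
  · simp only [upDg, Fin.snoc_castSucc, Pi.add_apply]

theorem upDg_surj (ω : ℕ → ℕ) (d : Dg (M.m + 1)) : ∃ b n, M.upDg ω b n = d := by
  refine ⟨fun j => d j.castSucc,
    d (Fin.last _) - ∑ j : Fin M.m, (ω j : ℤ) * d j.castSucc, ?_⟩
  funext i
  refine Fin.lastCases ?_ (fun j => ?_) i
  · simp only [upDg, Fin.snoc_last]
    ring
  · simp only [upDg, Fin.snoc_castSucc]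

theorem upDg_σ (ω : ℕ → ℕ) (j : Fin M.m) :
    M.upDg ω (-Pi.single j 1) (ω j) = -Pi.single j.castSucc 1 := by
  funext i
  refine Fin.lastCases ?_ (fun k => ?_) i
  · simp only [upDg, Fin.snoc_last, Pi.neg_apply]
    rw [Finset.sum_eq_single j (fun k _ hk => by rw [Pi.single_eq_of_ne hk]; simp)
      (fun h => absurd (Finset.mem_univ j) h), Pi.single_eq_same,
      Pi.single_eq_of_ne (Fin.castSucc_lt_last j).ne']
    ring
  · simp only [upDg, Fin.snoc_castSucc, Pi.neg_apply]
    by_cases h : k = j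
    · subst h; rw [Pi.single_eq_same, Pi.single_eq_same]
    · rw [Pi.single_eq_of_ne h, Pi.single_eq_of_ne (fun e => h (Fin.castSucc_injective _ e))]

theorem upDg_s (ω : ℕ → ℕ) : M.upDg ω 0 (-1) = -Pi.single (Fin.last M.m) 1 := by
  funext i
  refine Fin.lastCases ?_ (fun k => ?_) i
  · simp only [upDg, Fin.snoc_last, Pi.neg_apply, Pi.zero_apply, mul_zero, Finset.sum_const_zero,
      add_zero, Pi.single_eq_same]
  · simp only [upDg, Fin.snoc_castSucc, Pi.neg_apply, Pi.zero_apply]
    rw [Pi.single_eq_of_ne (Fin.castSucc_lt_last k).ne, neg_zero]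

private theorem MCo_zero (ω : ℕ → ℕ) : M.upDg ω 0 0 = 0 := by
  have h := M.upDg_add ω 0 0 0 0
  rw [add_zero, add_zero] at h
  exact left_eq_add.1 h

private theorem MCo_inj (ω : ℕ → ℕ) {b b' : Dg M.m} {n n' : ℤ}
    (h : M.upDg ω b n = M.upDg ω b' n') : b = b' ∧ n = n' := by
  have hb : b = b' := by
    funext j
    have := congrFun h j.castSucc
    simpa only [upDg, Fin.snoc_castSucc] using this
  subst hb
  have := congrFun h (Fin.last _)
  simp only [upDg, Fin.snoc_last] at this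
  exact ⟨rfl, add_right_cancel this⟩

private theorem MCo_ex (ω : ℕ → ℕ) :
    ∃ F : M.S[T;T⁻¹] →+* AddMonoidAlgebra M.S[T;T⁻¹] (Dg (M.m + 1)),
      ∀ b, ∀ s ∈ M.H b, ∀ n : ℤ, C s * T n ∈ Hg F (M.upDg ω b n) := by
  let u : Dg M.m →+ Dg (M.m + 1) := AddMonoidHom.mk' (fun b => M.upDg ω b 0) fun a b => by
    rw [← M.upDg_add, add_zero]
  let c : M.S →+* AddMonoidAlgebra M.S[T;T⁻¹] (Dg (M.m + 1)) :=
    (AddMonoidAlgebra.mapRingHom (Dg (M.m + 1)) (C : M.S →+* M.S[T;T⁻¹])).comp
      ((AddMonoidAlgebra.mapDomainRingHom M.S u).comp M.ρ)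
  let t : Multiplicative ℤ →* AddMonoidAlgebra M.S[T;T⁻¹] (Dg (M.m + 1)) :=
    { toFun := fun n => AddMonoidAlgebra.single (M.upDg ω 0 n.toAdd) (T n.toAdd)
      map_one' := by rw [toAdd_one, M.MCo_zero, T_zero]; rfl
      map_mul' := fun a b => by
        rw [toAdd_mul, AddMonoidAlgebra.single_mul_single, ← M.upDg_add, add_zero, T_add] }
  refine ⟨AddMonoidAlgebra.liftNCRingHom c t fun _ _ => Commute.all _ _, fun b s hs n => ?_⟩
  have hc : c s = AddMonoidAlgebra.single (M.upDg ω b 0) (C s) := by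
    simp only [c, RingHom.comp_apply, V.mem_Hg.1 hs, AddMonoidAlgebra.mapDomainRingHom_apply,
      AddMonoidAlgebra.mapDomain_single, AddMonoidAlgebra.mapRingHom_single]
    rfl
  rw [V.mem_Hg, ← single_eq_C_mul_T, AddMonoidAlgebra.liftNCRingHom_single, hc]
  change _ * AddMonoidAlgebra.single (M.upDg ω 0 n) (T n) = _
  rw [AddMonoidAlgebra.single_mul_single, ← M.upDg_add, add_zero, zero_add, single_eq_C_mul_T]

theorem exists_blCo {𝓙 : ℕ → Ideal M.S} {L : ℕ} {ω : ℕ → ℕ} (H : M.SD 𝓙 L ω) :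
    ∃ ρ', M.BlCo 𝓙 L ω ρ' := by
  classical
  obtain ⟨F, hF⟩ := M.MCo_ex ω
  have co : IsCo F := by
    intro x
    induction x using LaurentPolynomial.induction_on' with
    | add p q hp hq => exact add_mem hp hq
    | C_mul_T n a =>
      induction a using M.co.induction with
      | h0 l a ha => exact IsCo.of_mem (hF l a ha n)
      | hadd a a' h h' => rw [map_add, add_mul]; exact add_mem h h'
  have hpr : ∀ (b : Dg M.m) (n n' : ℤ) (s : M.S), pr F (M.upDg ω b n) (C s * T n') =
      if n' = n then C (pr M.ρ b s) * T n else 0 := by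
    intro b n n' s
    induction s using M.co.induction with
    | hadd a a' h h' =>
      rw [map_add, add_mul, map_add, h, h', map_add, map_add, add_mul]
      split_ifs
      · rfl
      · exact add_zero _
    | h0 l a ha =>
      by_cases hn : n' = n
      · subst hn
        rw [if_pos rfl]
        by_cases hl : l = b
        · subst hl
          rw [V.pr_of_mem (hF l a ha n'), V.pr_of_mem ha]
        · rw [V.pr_of_ne (hF l a ha n') (fun e => hl (M.MCo_inj ω e).1), V.pr_of_ne ha hl,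
            map_zero, zero_mul]
      · rw [if_neg hn, V.pr_of_ne (hF l a ha n') (fun e => hn (M.MCo_inj ω e).2)]
  have hmem : ∀ (b : Dg M.m) (n : ℤ) (x : M.S[T;T⁻¹]),
      ∃ s ∈ M.H b, pr F (M.upDg ω b n) x = C s * T n := by
    intro b n x
    induction x using LaurentPolynomial.induction_on' with
    | add p q hp hq =>
      obtain ⟨s, hs, e⟩ := hp
      obtain ⟨s', hs', e'⟩ := hq
      exact ⟨s + s', add_mem hs hs', by rw [map_add, e, e', map_add, add_mul]⟩
    | C_mul_T n' a =>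
      rw [hpr]
      split_ifs
      · exact ⟨_, M.co.pr_mem b a, rfl⟩
      · exact ⟨0, zero_mem _, by rw [map_zero, zero_mul]⟩
  have hk : ∀ c : ℂ, algebraMap ℂ M.S[T;T⁻¹] c ∈ Hg F 0 := by
    intro c
    have h := hF 0 _ (M.hk c) 0
    rwa [M.MCo_zero, T_zero, mul_one, ← LaurentPolynomial.algebraMap_apply] at h
  have hst : ∀ x ∈ Bl 𝓙 L, ∀ l, pr F l x ∈ Bl 𝓙 L := by
    refine hom_adjoin co hk ?_
    intro x hx l
    change pr F l x ∈ Bl 𝓙 L
    obtain ⟨b, n, rfl⟩ := M.upDg_surj ω l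
    rcases hx with (⟨a, rfl⟩ | hx) | ⟨l, f, h1, h2, hf, rfl⟩
    · rw [← mul_one (C a), ← T_zero, hpr]
      split_ifs with h
      · subst h
        rw [T_zero, mul_one]
        exact (blC 𝓙 L _).2
      · exact zero_mem _
    · rw [Set.mem_singleton_iff.1 hx, ← one_mul (T (-1)), ← map_one (C : M.S →+* M.S[T;T⁻¹]), hpr]
      split_ifs with h
      · subst h
        exact mul_mem (blC 𝓙 L _).2 (blS 𝓙 L).2
      · exact zero_mem _
    · rw [hpr]
      split_ifs with h
      · subst h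
        exact mem_Bl 𝓙 L h2 (Or.inr (H.hom l b f hf))
      · exact zero_mem _
  obtain ⟨ρ', co', h'⟩ := exists_coSub co (Bl 𝓙 L) hst
  refine ⟨ρ', co', fun x b n => (h' _ x).trans ⟨fun hx => ?_, ?_⟩⟩
  · obtain ⟨s, hs, e⟩ := hmem b n x
    exact ⟨s, hs, (V.pr_of_mem hx).symm.trans e⟩
  · rintro ⟨s, hs, e⟩
    rw [e]
    exact hF b s hs n

end GM

end Pool.Agent.P.MP_824f38_ag.N
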