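import Pool.Agent.P.MP_824f38_ag.N.Mod
import Pool.Agent.P.MP_824f38_ag.N.CRt
import Pool.Agent.P.MP_824f38_ag.N.CBch

/-! Descent along weighted blow-ups of coordinates. -/

set_option linter.unusedVariables false
set_option linter.unusedSectionVars false
set_option linter.style.haveILetI false
set_option linter.dupNamespace false

namespace Pool.Agent.P.MP_824f38_ag.N

variable {U : Type} [CommRing U] [Algebra ℂ U] {𝒯 : Prp U}

theorem Closed.comp (H : Closed 𝒯) {U' : Type} [CommRing U'] [Algebra ℂ U'] (u : U →ₐ[ℂ] U') :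
    Closed (U := U') fun B _ _ b => 𝒯 B (b.comp u) := by
  exact ⟨fun B B' _ _ _ _ _ _ b φ h => H.pull B B' (b.comp u) φ h,
    fun B _ _ _ b hr h => H.zar B (b.comp u) hr h,
    fun B _ _ _ b v M hM hr h => H.root B (b.comp u) v M hM hr h,
    fun B _ _ _ b N y i j hy hij h h' => H.bl B (b.comp u) N y i j hy hij h h'⟩

theorem multi_bl (H : Closed 𝒯) {N : ℕ} (P : Finset (Fin N)) (hP : P.Nonempty) (B : Type)
    [CommRing B] [Algebra ℂ B] [Algebra.FiniteType ℂ B] (b : U →ₐ[ℂ] B) {y : Fin N → B}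
    (hy : Chart y) (h : ∀ (B' : Type) [CommRing B'] [Algebra ℂ B'] [Algebra.FiniteType ℂ B']
      (φ : B →ₐ[ℂ] B'), (∃ i ∈ P, φ (y i) ∈ nonZeroDivisors B' ∧ ∀ k ∈ P, φ (y i) ∣ φ (y k)) →
        𝒯 B' (φ.comp b)) : 𝒯 B b := by
  induction P using Finset.strongInduction generalizing B with
  | H P ih =>
  have key : ∀ i ∈ P, ∀ j ∈ P, i ≠ j → 𝒯 (Bch (y i) (y j)) ((bchC (y i) (y j)).comp b) := by
    intro i hi j hj hij
    haveI := ft_bch (y i) (y j)
    refine ih (P.erase j) (Finset.erase_ssubset hj) ⟨i, Finset.mem_erase.2 ⟨hij, hi⟩⟩ _ _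
      (chart_bch hy hij) ?_
    rintro B' _ _ _ φ ⟨k, hk, hr, hd⟩
    obtain ⟨hkj, hk⟩ := Finset.mem_erase.1 hk
    rw [Function.update_of_ne hkj] at hr hd
    have hd' : ∀ l ∈ P, l ≠ j → φ (bchC (y i) (y j) (y k)) ∣ φ (bchC (y i) (y j) (y l)) :=
      fun l hl hlj => by
        have := hd l (Finset.mem_erase.2 ⟨hlj, hl⟩)
        rwa [Function.update_of_ne hlj] at this
    refine h B' (φ.comp (bchC (y i) (y j))) ⟨k, hk, hr, fun l hl => ?_⟩
    by_cases hlj : l = j
    · rw [hlj, AlgHom.comp_apply, AlgHom.comp_apply, ← bch_mul, map_mul]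
      exact (hd' i hi hij).mul_right _
    · exact hd' l hl hlj
  obtain ⟨i, hi⟩ := hP
  by_cases h1 : ∀ j ∈ P, j = i
  · exact h B (AlgHom.id ℂ B) ⟨i, hi, hy.regular i, fun k hk => by rw [h1 k hk]⟩
  · push Not at h1
    obtain ⟨j, hj, hji⟩ := h1
    exact H.bl B b N y i j hy hji.symm (key i hi j hj hji.symm) (key j hj i hi hji)

theorem multi_rt (H : Closed 𝒯) {N : ℕ} (wt : Fin N → ℕ) (Q : Finset (Fin N))
    (hQ : ∀ i ∈ Q, 0 < wt i) (B : Type)
    [CommRing B] [Algebra ℂ B] [Algebra.FiniteType ℂ B] (b : U →ₐ[ℂ] B) {y : Fin N → B}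
    (hy : Chart y) (h : ∀ (B' : Type) [CommRing B'] [Algebra ℂ B'] [Algebra.FiniteType ℂ B']
      (φ : B →ₐ[ℂ] B') (z : Fin N → B'), Chart z →
        (∀ i, φ (y i) = z i ^ (if i ∈ Q then wt i else 1)) → 𝒯 B' (φ.comp b)) : 𝒯 B b := by
  induction Q using Finset.induction_on generalizing B with
  | empty => exact h B (AlgHom.id ℂ B) y hy fun i => by simp
  | insert i Q hi ih =>
    have hw := hQ i (Finset.mem_insert_self i Q)
    haveI := ft_rt (y i) (wt i)
    refine H.root B b (y i) (wt i) hw (chart_kummer hy i hw).reg ?_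
    refine ih (fun k hk => hQ k (Finset.mem_insert_of_mem hk)) _ _ (chart_kummer hy i hw) ?_
    intro B' _ _ _ φ z hz e
    refine h B' (φ.comp (toRt (y i) (wt i))) z hz fun k => ?_
    by_cases hk : k = i
    · have := e i
      rw [Function.update_self, if_neg hi, pow_one] at this
      rw [hk, AlgHom.comp_apply, ← rt_pow, map_pow, this, if_pos (Finset.mem_insert_self i Q)]
    · have := e k
      rw [Function.update_of_ne hk] at this
      rw [AlgHom.comp_apply, this]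
      simp [hk]

theorem wbl (H : Closed 𝒯) {N : ℕ} (wt : Fin N → ℕ) (hw : ∃ i, 0 < wt i) (B : Type)
    [CommRing B] [Algebra ℂ B] [Algebra.FiniteType ℂ B] (b : U →ₐ[ℂ] B) {y : Fin N → B}
    (hy : Chart y) (h : ∀ (B' : Type) [CommRing B'] [Algebra ℂ B'] [Algebra.FiniteType ℂ B']
      (φ : B →ₐ[ℂ] B') (s : B') (y' : Fin N → B'), s ∈ nonZeroDivisors B' →
        (∀ i, φ (y i) = s ^ wt i * y' i) → (∃ i, 0 < wt i ∧ IsUnit (y' i)) → 𝒯 B' (φ.comp b)) :
    𝒯 B b := by
  classical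
  refine multi_rt H wt (Finset.univ.filter fun i => 0 < wt i)
    (fun i hi => (Finset.mem_filter.1 hi).2) B b hy fun B1 _ _ _ φ z hz e => ?_
  obtain ⟨i1, hi1⟩ := hw
  refine multi_bl H (Finset.univ.filter fun i => 0 < wt i) ⟨i1, by simpa using hi1⟩ B1 _ hz ?_
  rintro B' _ _ _ ψ ⟨i0, hi0, hr, hd⟩
  choose! u hu using hd
  refine h B' (ψ.comp φ) (ψ (z i0)) (fun k => if k = i0 then 1 else
    if 0 < wt k then u k ^ wt k else ψ (z k)) hr (fun k => ?_)
    ⟨i0, (Finset.mem_filter.1 hi0).2, by rw [if_pos rfl]; exact isUnit_one⟩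
  rw [AlgHom.comp_apply, e, map_pow]
  by_cases hk : k = i0
  · rw [if_pos hk, hk, if_pos hi0, mul_one]
  rw [if_neg hk]
  by_cases hk' : 0 < wt k
  · have hm : k ∈ Finset.univ.filter fun i => 0 < wt i := by simpa using hk'
    rw [if_pos hk', if_pos hm, hu k hm, mul_pow]
  · rw [if_neg hk', if_neg (by simpa using hk'), Nat.eq_zero_of_not_pos hk', pow_zero, one_mul,
      pow_one]

end Pool.Agent.P.MP_824f38_ag.N
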