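import Pool.Agent.P.MP_824f38_ag.N.MProp
import Pool.Agent.P.MP_824f38_ag.N.TWbl

/-! Closed properties descend along the blow-up. -/

set_option linter.unusedVariables false
set_option linter.unusedSectionVars false
set_option linter.style.haveILetI false
set_option linter.dupNamespace false

namespace Pool.Agent.P.MP_824f38_ag.N

open V (Dg Hg IsCo pr Pk)

variable {R : Type} [CommRing R] [Algebra ℂ R] [IsDomain R] [Algebra.FiniteType ℂ R]
  {I0 : Ideal R} {ν : ℕ} (M : GM R I0 ν)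

theorem RMDesc.away_lift {A B : Type} [CommRing A] [Algebra ℂ A] [CommRing B] [Algebra ℂ B]
    (φ : A →ₐ[ℂ] B) {h : A} (hu : IsUnit (φ h)) :
    ∃ ψ : Localization.Away h →ₐ[ℂ] B, ψ.comp (toAway h) = φ := by
  have : ∀ y : Submonoid.powers h, IsUnit (φ y) := by
    rintro ⟨_, n, rfl⟩
    simpa using hu.pow n
  exact ⟨IsLocalization.liftAlgHom this, AlgHom.ext fun a => IsLocalization.lift_eq this a⟩

namespace GM

theorem bl_desc {𝓙 : ℕ → Ideal M.S} {L : ℕ} {ω : ℕ → ℕ} (H : M.SD 𝓙 L ω) {𝒯 : Prp R}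
    (hT : Closed 𝒯) (h : ∀ w : Bl 𝓙 L →ₐ[ℂ] ℂ, M.Plus (w.comp (blC 𝓙 L)) → blPlus 𝓙 L w →
      ∃ h, w h ≠ 0 ∧ 𝒯 (Localization.Away h) ((toAway h).comp ((blC 𝓙 L).comp M.ι))) :
    M.Triv 𝒯 := by
  intro w hw
  haveI := ft_bl 𝓙 L
  have hL := H.glob.pos
  rcases H.cases w hw with ⟨h0, hm, hw0⟩ | ⟨Γ, wt, hN, hc, B⟩
  · obtain ⟨ev, e1, e2⟩ := bl_lift (𝓙 := 𝓙) (L := L) (AlgHom.id ℂ M.S) (one_mem _)
      fun l _ _ f _ => by rw [one_pow]; exact one_dvd _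
    have e3 : ev (blU 𝓙 L h0 L) = h0 := by
      have := congrArg ev (blS_pow_mul (𝓙 := 𝓙) le_rfl (Or.inr hm))
      rwa [map_mul, map_pow, e2, one_pow, one_mul, ← AlgHom.comp_apply, e1] at this
    obtain ⟨k, hk, hT'⟩ := h (w.comp ev) (by rwa [AlgHom.comp_assoc, e1])
      ⟨L, h0, hL, le_rfl, hm, by rwa [AlgHom.comp_apply, e3]⟩
    haveI := ft_away k
    haveI := ft_away (ev k)
    obtain ⟨ψ, hψ⟩ := RMDesc.away_lift ((toAway (ev k)).comp ev) (h := k)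
      (IsLocalization.Away.algebraMap_isUnit (S := Localization.Away (ev k)) (ev k))
    refine ⟨ev k, hk, ?_⟩
    have := hT.pull _ _ _ ψ hT'
    rwa [← AlgHom.comp_assoc, hψ, AlgHom.comp_assoc, ← AlgHom.comp_assoc ev, e1] at this
  obtain ⟨h1, hw1, hch⟩ := lc_chart B.ctr.lc
  obtain ⟨h2, hw2, hJ⟩ := B.loc
  obtain ⟨i, hi⟩ := hw
  have hL' : (0 : ℚ) < L := by exact_mod_cast hL
  have hN0 : 0 < Γ.N := Nat.pos_of_ne_zero fun h0 => hc.ne' (B.ctr.sorted.pad 0 h0.le)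
  have hw0 : 0 < wt 0 := by
    have := mul_pos hL' hc
    rw [← B.wt_eq] at this
    exact_mod_cast this
  refine ⟨h1 * (h2 * M.g i), by simp [hw1, hw2, hi], ?_⟩
  generalize hh : h1 * (h2 * M.g i) = h'
  haveI := ft_away h'
  refine wbl hT (fun i : Fin Γ.N => wt i) ⟨⟨0, hN0⟩, hw0⟩ _ _ (hch h' ⟨_, hh.symm⟩) ?_
  rintro B' _ _ _ φ s y' hs e ⟨i0, hi0, hu⟩
  have hu' : IsUnit ((φ.comp (toAway h')) h') :=
    (IsLocalization.Away.algebraMap_isUnit (S := Localization.Away h') h').map φ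
  obtain ⟨ϑ, e1, e2⟩ := bl_lift (𝓙 := 𝓙) (L := L) (φ.comp (toAway h')) hs fun l l1 l2 f hf => by
    have h3 : Γ.J (l / L) ≤ (Ideal.span {s ^ l}).comap (φ.comp (toAway h')) := by
      refine Ideal.span_le.2 ?_
      rintro _ ⟨α, hα, rfl⟩
      have h4 : l ≤ ∑ k : Fin Γ.N, wt k * α k := by
        rw [div_le_iff₀ hL', Finset.sum_mul] at hα
        have : (l : ℚ) ≤ ∑ k : Fin Γ.N, (wt k : ℚ) * α k := hα.trans_eq
          (Finset.sum_congr rfl fun k _ => by rw [B.wt_eq, WS.cF]; ring)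
        exact_mod_cast this
      refine Ideal.mem_span_singleton.2 ((pow_dvd_pow s h4).trans ?_)
      rw [map_prod, ← Finset.prod_pow_eq_pow_sum]
      refine Finset.prod_dvd_prod_of_dvd _ _ fun k _ => ?_
      rw [map_pow, AlgHom.comp_apply, e, pow_mul]
      exact pow_dvd_pow_of_dvd (dvd_mul_right _ _) _
    have h5 : s ^ l ∣ (φ.comp (toAway h')) (h2 * f) :=
      Ideal.mem_span_singleton.1 (h3 (hJ l l1 l2 f hf))
    rw [map_mul] at h5
    exact (isUnit_of_dvd_unit (map_dvd _ (hh ▸ (dvd_mul_right h2 _).mul_left h1))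
      hu').dvd_mul_left.1 h5
  have e3 : ϑ (blU 𝓙 L (Γ.y i0) (wt i0)) = y' i0 := by
    have := congrArg ϑ (blS_pow_mul (𝓙 := 𝓙) (B.wt_le i0) (B.mem i0))
    rw [map_mul, map_pow, e2, ← AlgHom.comp_apply, e1] at this
    exact (mul_cancel_left_mem_nonZeroDivisors (pow_mem hs _)).1 (this.trans (e i0))
  obtain ⟨G, hG⟩ : ∃ G, G = blC 𝓙 L h' * blU 𝓙 L (Γ.y i0) (wt i0) := ⟨_, rfl⟩
  haveI := ft_away G
  obtain ⟨ψ, hψ⟩ := RMDesc.away_lift ϑ (h := G) (by
    rw [hG, map_mul, e3, ← AlgHom.comp_apply, e1]; exact hu'.mul hu)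
  have pl : ∀ w' : Localization.Away G →ₐ[ℂ] ℂ,
      M.Plus ((w'.comp (toAway G)).comp (blC 𝓙 L)) ∧ blPlus 𝓙 L (w'.comp (toAway G)) := fun w' => by
    have h6 : (w'.comp (toAway G)) (blC 𝓙 L h' * blU 𝓙 L (Γ.y i0) (wt i0)) ≠ 0 := by
      rw [← hG]
      exact ((IsLocalization.Away.algebraMap_isUnit (S := Localization.Away G) G).map w').ne_zero
    rw [← hh, map_mul, map_mul, map_mul, map_mul, map_mul] at h6
    exact ⟨⟨i, right_ne_zero_of_mul (right_ne_zero_of_mul (left_ne_zero_of_mul h6))⟩,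
      wt i0, Γ.y i0, hi0, B.wt_le i0, (B.mem i0).resolve_left hi0.ne', right_ne_zero_of_mul h6⟩
  have hG' : 𝒯 (Localization.Away G) ((toAway G).comp ((blC 𝓙 L).comp M.ι)) := by
    refine hT.zar _ _ (fun w' => ?_) fun w' => ?_
    · obtain ⟨y, lab, hy, -⟩ := Snc.loc (Submonoid.powers G) (w' := w') (bl_loc H _ (pl w').1)
      exact ⟨_, y, hy⟩
    · obtain ⟨k, hk, hT'⟩ := h _ (pl w').1 (pl w').2
      haveI := ft_away k
      haveI := ft_away (toAway G k)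
      obtain ⟨χ, hχ⟩ := RMDesc.away_lift ((toAway (toAway G k)).comp (toAway G)) (h := k)
        (IsLocalization.Away.algebraMap_isUnit (S := Localization.Away (toAway G k)) (toAway G k))
      refine ⟨toAway G k, hk, ?_⟩
      have := hT.pull _ _ _ χ hT'
      rwa [← AlgHom.comp_assoc, hχ] at this
  have := hT.pull _ _ _ ψ hG'
  rwa [← AlgHom.comp_assoc, hψ, ← AlgHom.comp_assoc, e1] at this

end GM

end Pool.Agent.P.MP_824f38_ag.N
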