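import Pool.Agent.P.MP_824f38_ag.N.Mod
import Pool.Agent.P.MP_824f38_ag.N.LNbhd
import Pool.Agent.P.MP_824f38_ag.N.LDer
import Pool.Agent.P.MP_824f38_ag.N.LTaylor

/-! Row NEC-MGen: generic smoothness

Take σ = 1. Among the points w that kill 𝔭 take one with minimal invariant (run, genInv with ν, genInv_wf), Γ good, c the number of i with 0 < Γ.c i, p a = Γ.y a. With h0 from cert_open, every point w' that kills 𝔭 with w' h0 ≠ 0 has the same invariant (max_lemma, minimality), so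
p a vanishes there; h0 p a is in the radical of 𝔭, so p a is in 𝔭. adm and JJ_le_span give h1 𝔭 ≤ span p (exists_unif). Take h = h1 Δ, D a = h1 • E a. snc_quot (P = the first c indices) and LC.algInd give t. -/

set_option linter.unusedVariables false
set_option linter.unusedSectionVars false
set_option linter.style.haveILetI false
set_option linter.dupNamespace false

namespace Pool.Agent.P.MP_824f38_ag.N

variable {A : Type} [CommRing A] [Algebra ℂ A] [Algebra.FiniteType ℂ A]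

/-- `𝔭` is generically generated by the coordinates `p` -/
structure GenData (𝔭 : Ideal A) {c : ℕ} (p : Fin c → A) (D : Fin c → Derivation ℂ A A) (h : A) :
    Prop where
  notMem : h ∉ 𝔭
  mem : ∀ a, p a ∈ 𝔭
  dual : ∀ a b, D a (p b) = if a = b then h else 0
  gen : ∀ f ∈ 𝔭, h * f ∈ Ideal.span (Set.range p)

theorem gen_smooth {ν : ℕ} (H : ∀ w : A →ₐ[ℂ] ℂ, ∃ y : Fin ν → A, LC w y) {B : Type} [CommRing B]
    [IsDomain B] [Algebra ℂ B] (π : A →ₐ[ℂ] B) (hπ : Function.Surjective π) :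
    ∃ (c : ℕ) (p : Fin c → A) (D : Fin c → Derivation ℂ A A) (h : A), c ≤ ν ∧
      GenData (RingHom.ker π) p D h ∧ ∃ t : Fin (ν - c) → B, AlgebraicIndependent ℂ t := by
  haveI : Algebra.FiniteType ℂ B := Algebra.FiniteType.of_surjective π hπ
  have hkill : ∀ w : B →ₐ[ℂ] ℂ, ∀ f ∈ RingHom.ker π, (w.comp π) f = 0 := fun w f hf => by
    rw [AlgHom.comp_apply, RingHom.mem_ker.1 hf, map_zero]
  have hrun : ∀ w : B →ₐ[ℂ] ℂ, ∃ Γ : WS A, Γ.N = ν ∧
      Γ.Good (fun _ => (1 : A)) (RingHom.ker π) (w.comp π) := fun w => by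
    obtain ⟨y, hy⟩ := H (w.comp π)
    exact run (Snc.of_lc hy) (hkill w)
  choose Γ hN hΓ using hrun
  have hgi : ∀ w, GenInv ν (Γ w).inv := fun w =>
    (hΓ w).genInv fun i hi => (hΓ w).ctr.sorted.pad i (by rw [hN]; exact hi)
  obtain ⟨w1, -, -⟩ := exists_pt_of_notMem (𝔭 := (⊥ : Ideal B)) (f := 1) (by simp)
  obtain ⟨_, ⟨w, rfl⟩, hmin⟩ := (genInv_wf ν).has_min
    (Set.range fun w => (⟨(Γ w).inv, hgi w⟩ : {k : Inv | GenInv ν k})) ⟨_, w1, rfl⟩
  have hs := (hΓ w).ctr.sorted
  obtain ⟨h0, hw0, hopen⟩ := cert_open (σ := fun _ => (1 : A)) ⟨0, fun _ _ => rfl⟩ hs (hΓ w).cert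
  have hmem : ∀ i, 0 < (Γ w).c i → π ((Γ w).y i) = 0 := by
    intro i hi
    have e1 : π h0 * π ((Γ w).y i) ∈ (⊥ : Ideal B).radical := by
      refine mem_radical_of_pts fun w' _ => ?_
      rw [map_mul]
      by_cases h : w' (π h0) = 0
      · rw [h, zero_mul]
      · have e2 := max_lemma hs (hopen (w'.comp π) h) (hΓ w').ctr (hΓ w').adm
        have e3 : (Γ w').inv = (Γ w).inv := by
          rcases e2.1.eq_or_lt with e | e
          · exact e
          · exact absurd e (hmin _ ⟨w', rfl⟩)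
        have e4 : w' (π ((Γ w).y i)) = 0 := (e2.2 e3).1 i hi
        rw [e4, mul_zero]
    rw [Ideal.radical_bot_of_isReduced, Ideal.mem_bot, mul_eq_zero] at e1
    refine e1.resolve_left fun h => hw0 ?_
    rw [AlgHom.comp_apply, h, map_zero]
  have hex : ∃ i, (Γ w).c i = 0 := ⟨_, hs.pad _ le_rfl⟩
  classical
  have hcN : Nat.find hex ≤ (Γ w).N := Nat.find_min' hex (hs.pad _ le_rfl)
  have hpos : ∀ i, 0 < (Γ w).c i ↔ i < Nat.find hex := fun i => by
    constructor
    · intro h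
      by_contra hcon
      have := hs.anti (not_lt.1 hcon)
      rw [Nat.find_spec hex] at this
      exact absurd h (not_lt.2 this)
    · intro h
      exact lt_of_le_of_ne (hs.nonneg i) (Ne.symm (Nat.find_min hex h))
  generalize Nat.find hex = c at hcN hpos
  have hsat : RingHom.ker π ≤ sat (w.comp π)
      (Ideal.span (Set.range fun a : Fin c => (Γ w).yF (Fin.castLE hcN a))) := by
    refine (hΓ w).adm.trans (sat_mono _ ((JJ_le_span _ (fun i => hs.nonneg _) one_pos).trans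
      (Ideal.span_mono ?_)))
    rintro _ ⟨i, hi, rfl⟩
    exact ⟨⟨i, (hpos i).1 hi⟩, rfl⟩
  obtain ⟨h1, hw1, hu⟩ := exists_unif hsat
  obtain ⟨E, Δ, hΔ, hE⟩ := (hΓ w).ctr.lc.dual
  have hp : ∀ a : Fin c, (Γ w).yF (Fin.castLE hcN a) ∈ RingHom.ker π := fun a =>
    RingHom.mem_ker.2 (hmem a ((hpos a).2 a.2))
  refine ⟨c, fun a => (Γ w).yF (Fin.castLE hcN a), fun a => h1 • E (Fin.castLE hcN a), h1 * Δ,
    hN w ▸ hcN, ⟨fun h => ?_, hp, fun a b => ?_, fun f hf => ?_⟩, ?_⟩
  · have := hkill w _ h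
    rw [map_mul] at this
    exact mul_ne_zero hw1 hΔ this
  · rw [Derivation.smul_apply, hE, smul_eq_mul]
    by_cases h : a = b
    · rw [if_pos h, if_pos (congrArg _ h)]
    · rw [if_neg h, if_neg fun e => h (Fin.castLE_injective hcN e), mul_zero]
  · rw [mul_comm h1, mul_assoc]
    exact Ideal.mul_mem_left _ _ (hu f hf)
  · have him : (Γ w).yF '' (Finset.univ.map (Fin.castLEEmb hcN) : Finset (Fin (Γ w).N)) =
        Set.range fun a : Fin c => (Γ w).yF (Fin.castLE hcN a) := by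
      rw [Finset.coe_map, Finset.coe_univ, Set.image_univ, ← Set.range_comp]
      rfl
    have hq := snc_quot π hπ (hΓ w).ctr.lc (hΓ w).ctr.lab (Finset.univ.map (Fin.castLEEmb hcN))
      (σ' := fun _ => (1 : B)) (by
        rw [him]
        refine le_antisymm (sat_le_sat _ hsat) (sat_mono _ (Ideal.span_le.2 ?_))
        rintro _ ⟨a, rfl⟩
        exact hp a) (fun j => Or.inr (by rw [map_one]; exact one_ne_zero))
    rw [Finset.card_map, Finset.card_univ, Fintype.card_fin, Fintype.card_fin, hN] at hq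
    obtain ⟨t, -, ht, -⟩ := hq
    exact ⟨t, ht.algInd⟩

end Pool.Agent.P.MP_824f38_ag.N
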