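import Pool.Agent.P.MP_824f38_ag.N.MGen
import Pool.Agent.P.MP_824f38_ag.N.MBasic
import Pool.Agent.P.MP_824f38_ag.N.LUnit

/-! Row NEC-MGenPt: the invariant at generic points of the strict transform

der_lift: S embeds in R[Dg m] by mapRingHom ψ ∘ ρ; choose finitely many homogeneous algebra generators s_k of degree l_k and n ≥ all l_k j; the coefficientwise D times the image single (-n 1) 1 of σp n maps the generators into the image of S
(single (l - n 1) r is the image of σp (n 1 - l) * ι r); restrict_der style argument. gen_pt: D' a (ι (p b)) = σp n * ι (D a (p b)) (eq_of_ψ); ext_free with u a = ι (p a) (no divisor passes through w); unit_good: μ k σp e = ι (f k) lies in sat (span (ι p)), and ι (p a) lies in span μ. -/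

set_option linter.unusedVariables false
set_option linter.unusedSectionVars false
set_option linter.style.haveILetI false
set_option linter.dupNamespace false

namespace Pool.Agent.P.MP_824f38_ag.N

open V (Dg Hg IsCo pr Pk)

variable {R : Type} [CommRing R] [Algebra ℂ R] [IsDomain R] [Algebra.FiniteType ℂ R]
  {I0 : Ideal R} {ν : ℕ} (M : GM R I0 ν)

namespace GM

private theorem mgp_ex (D : Derivation ℂ R R) : ∃ n : ℕ, ∀ (x : M.S) (l : Dg M.m),
    ∃ y ∈ M.H (l - M.dg fun _ => n), M.ψ y = D (M.ψ (pr M.ρ l x)) := by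
  classical
  obtain ⟨s, hs⟩ := Algebra.FiniteType.out (R := ℂ) (A := M.S)
  let U : Finset (Dg M.m) := s.biUnion fun x => (M.ρ x).coeff.support
  let n : ℕ := (U ×ˢ (Finset.univ : Finset (Fin M.m))).sup fun q => (q.1 q.2).toNat
  have hn : ∀ l ∈ U, ∀ j, l j ≤ n := fun l hl j =>
    Int.toNat_le.1 (Finset.le_sup (f := fun q : Dg M.m × Fin M.m => (q.1 q.2).toNat)
      (b := (l, j)) (Finset.mem_product.2 ⟨hl, Finset.mem_univ _⟩))
  refine ⟨n, ?_⟩
  set a : Dg M.m := M.dg fun _ => n with ha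
  let E : M.S → Prop := fun x => ∀ l, ∃ y ∈ M.H (l - a), M.ψ y = D (M.ψ (pr M.ρ l x))
  have hadd : ∀ x x', E x → E x' → E (x + x') := fun x x' h h' l => by
    obtain ⟨y, hy, e⟩ := h l
    obtain ⟨y', hy', e'⟩ := h' l
    exact ⟨y + y', add_mem hy hy', by simp only [map_add, e, e']⟩
  have hzero : E 0 := fun l => ⟨0, zero_mem _, by simp only [map_zero]⟩
  have hhom : ∀ d z x, z ∈ M.H d → (∃ y ∈ M.H (d - a), M.ψ y = D (M.ψ z)) → E x → E (z * x) := by
    rintro d z x hz ⟨y, hy, e⟩ h l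
    obtain ⟨l, rfl⟩ : ∃ l', l = d + l' := ⟨l - d, by abel⟩
    obtain ⟨y', hy', e'⟩ := h l
    refine ⟨z * y' + pr M.ρ l x * y, add_mem (V.Hg_cast (V.Hg_mul hz hy') (by abel))
      (V.Hg_cast (V.Hg_mul (M.co.pr_mem l x) hy) (by abel)), ?_⟩
    rw [V.pr_mul_left hz, map_add, map_mul, map_mul, map_mul, e, e', Derivation.leibniz,
      smul_eq_mul, smul_eq_mul]
  have hmul : ∀ x x', E x → E x' → E (x * x') := fun x x' h h' => by
    obtain ⟨t, ht⟩ := M.co.exists_sum x
    rw [← ht t subset_rfl, Finset.sum_mul]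
    exact Finset.sum_induction _ E hadd hzero fun l _ => hhom l _ _ (M.co.pr_mem l x) (h l) h'
  intro x
  have hx : x ∈ Algebra.adjoin ℂ (s : Set M.S) := by rw [hs]; trivial
  change E x
  induction hx using Algebra.adjoin_induction with
  | mem x hx =>
    intro l
    by_cases hl : l ∈ U
    · refine ⟨M.σp (fun j => (n - l j).toNat) * M.ι (D (M.ψ (pr M.ρ l x))),
        V.Hg_cast (V.Hg_mul (M.σp_mem _) (M.hι _)) ?_, by rw [map_mul, M.ψ_σp, one_mul, M.ψι]⟩
      funext j
      have := hn l hl j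
      simp only [ha, dg, Pi.add_apply, Pi.neg_apply, Pi.zero_apply, Pi.sub_apply]
      omega
    · have h0 : pr M.ρ l x = 0 := by
        rw [V.pr_apply]
        exact Finsupp.notMem_support_iff.1 fun h => hl (Finset.mem_biUnion.2 ⟨x, hx, h⟩)
      exact ⟨0, zero_mem _, by simp only [h0, map_zero]⟩
  | algebraMap c =>
    intro l
    refine ⟨0, zero_mem _, ?_⟩
    by_cases hl : (0 : Dg M.m) = l
    · subst hl
      rw [V.pr_of_mem (M.hk c), AlgHom.commutes, Derivation.map_algebraMap, map_zero]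
    · simp only [V.pr_of_ne (M.hk c) hl, map_zero]
  | add x x' _ _ h h' => exact hadd _ _ h h'
  | mul x x' _ _ h h' => exact hmul _ _ h h'

private theorem mgp_add (D : Derivation ℂ R R) : ∃ (n : ℕ) (δ : M.S →+ M.S),
    ∀ l, ∀ x ∈ M.H l, δ x ∈ M.H (l - M.dg fun _ => n) ∧ M.ψ (δ x) = D (M.ψ x) := by
  classical
  obtain ⟨n, h⟩ := mgp_ex M D
  choose y hy e using h
  let δ : Dg M.m → M.S →+ M.S := fun l => AddMonoidHom.mk' (fun x => y x l) fun x x' =>
    M.eq_of_ψ (hy _ l) (add_mem (hy x l) (hy x' l)) (by simp only [map_add, e])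
  let cf : M.S →+ (Dg M.m →₀ M.S) := AddMonoidHom.mk' (fun x => (M.ρ x).coeff) (fun x y => by simp)
  refine ⟨n, (Finsupp.liftAddHom δ).comp cf, fun l x hx => ?_⟩
  have h1 : cf x = Finsupp.single l x := by
    change (M.ρ x).coeff = _
    rw [V.mem_Hg.1 hx]
    simp
  have h2 : (Finsupp.liftAddHom δ).comp cf x = y x l := by
    rw [AddMonoidHom.comp_apply, h1, Finsupp.liftAddHom_apply_single]
    rfl
  rw [h2]
  exact ⟨hy x l, by rw [e, V.pr_of_mem hx]⟩

private theorem mgp_wσ {w : M.S →ₐ[ℂ] ℂ} (h3 : ∀ j, w (M.σ j) ≠ 0) (e : Fin M.m → ℕ) :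
    w (M.σp e) ≠ 0 := by
  rw [σp, map_prod]
  exact Finset.prod_ne_zero_iff.2 fun j _ => by rw [map_pow]; exact pow_ne_zero _ (h3 j)

theorem der_lift (D : Derivation ℂ R R) : ∃ (n : ℕ) (D' : Derivation ℂ M.S M.S),
    ∀ r, D' (M.ι r) = M.σp (fun _ => n) * M.ι (D r) := by
  obtain ⟨n, δ, h⟩ := mgp_add M D
  have hl : ∀ x x', δ (x * x') = x * δ x' + x' * δ x := by
    intro x x'
    induction x using M.co.induction with
    | hadd a b ha hb => rw [add_mul, map_add, ha, hb, map_add]; ring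
    | h0 l x hx =>
      induction x' using M.co.induction with
      | hadd a b ha hb => rw [mul_add, map_add, ha, hb, map_add]; ring
      | h0 l' x' hx' =>
        refine M.eq_of_ψ (h _ _ (V.Hg_mul hx hx')).1 (add_mem
          (V.Hg_cast (V.Hg_mul hx (h _ _ hx').1) (by abel))
          (V.Hg_cast (V.Hg_mul hx' (h _ _ hx).1) (by abel))) ?_
        rw [(h _ _ (V.Hg_mul hx hx')).2, map_add, map_mul M.ψ, map_mul M.ψ, map_mul M.ψ, (h _ _ hx).2,
          (h _ _ hx').2, Derivation.leibniz, smul_eq_mul, smul_eq_mul]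
  have hc : ∀ c : ℂ, δ (algebraMap ℂ M.S c) = 0 := fun c =>
    M.ψinj _ _ (h _ _ (M.hk c)).1
      (by rw [(h _ _ (M.hk c)).2, AlgHom.commutes, Derivation.map_algebraMap])
  let δ' : M.S →ₗ[ℂ] M.S :=
    { toFun := δ
      map_add' := map_add δ
      map_smul' := fun c x => by
        rw [Algebra.smul_def, hl, hc, mul_zero, add_zero, RingHom.id_apply, Algebra.smul_def] }
  refine ⟨n, Derivation.mk' δ' fun x x' => hl x x', fun r => ?_⟩
  change δ (M.ι r) = _
  refine M.eq_of_ψ (h _ _ (M.hι r)).1 (V.Hg_cast (V.Hg_mul (M.σp_mem _) (M.hι _)) (by abel)) ?_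
  rw [(h _ _ (M.hι r)).2, map_mul, M.ψ_σp, one_mul, M.ψι, M.ψι]

theorem gen_pt {𝔭 : Ideal R} {c : ℕ} {p : Fin c → R} {D : Fin c → Derivation ℂ R R} {h : R}
    (G : GenData 𝔭 p D h) {τ : Type} {f : τ → R} (hf : Ideal.span (Set.range f) = 𝔭)
    {e : Fin M.m → ℕ} {μ : τ → M.S} (W : M.Wk f e μ) {w : M.S →ₐ[ℂ] ℂ} (hw : M.Plus w)
    (h1 : ∀ a ∈ 𝔭, w (M.ι a) = 0) (h2 : w (M.ι h) ≠ 0) (h3 : ∀ j, w (M.σ j) ≠ 0) :
    M.HasInv (Ideal.span (Set.range μ)) w (unitInv c) := by
  choose n D' hD using fun a => M.der_lift (D a)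
  obtain ⟨y, lab, hk, hy, hlab, hu⟩ := ext_free (M.loc w hw) (fun a => M.ι (p a))
    (fun a => h1 _ (G.mem a)) D'
    (fun a => by
      rw [hD, G.dual, if_pos rfl, map_mul]
      exact mul_ne_zero (mgp_wσ M h3 _) h2)
    (fun a b hab => by rw [hD, G.dual, if_neg hab, map_zero, mul_zero, map_zero])
    (fun a j hj => absurd hj (h3 j))
  obtain ⟨Γ, hN, hG, hi⟩ := unit_good hk hy hlab (fun a => (hu a).2)
    (I := Ideal.span (Set.range μ))
    (by
      rw [Ideal.span_le]
      rintro _ ⟨k, rfl⟩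
      refine ⟨M.ι h * M.σp e, by rw [map_mul]; exact mul_ne_zero h2 (mgp_wσ M h3 e), ?_⟩
      have h4 : M.ι h * M.σp e * μ k = M.ι (h * f k) := by rw [map_mul, W.eq k]; ring
      have h5 : Ideal.span (Set.range p) ≤
          (Ideal.span (Set.range fun a : Fin c => y (Fin.castLE hk a))).comap M.ι := by
        rw [Ideal.span_le]
        rintro _ ⟨a, rfl⟩
        exact Ideal.subset_span ⟨a, (hu a).1⟩
      rw [h4]
      exact h5 (G.gen _ (hf ▸ Ideal.subset_span ⟨k, rfl⟩)))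
    (fun a => by
      rw [(hu a).1]
      refine le_sat _ _ ?_
      have h5 : Ideal.span (Set.range f) ≤ (Ideal.span (Set.range μ)).comap M.ι := by
        rw [Ideal.span_le]
        rintro _ ⟨k, rfl⟩
        change M.ι (f k) ∈ Ideal.span (Set.range μ)
        rw [W.eq k]
        exact Ideal.mul_mem_right _ _ (Ideal.subset_span ⟨k, rfl⟩)
      exact h5 (hf ▸ G.mem a))
  exact ⟨hw, Γ, hN, hG, hi⟩

end GM

end Pool.Agent.P.MP_824f38_ag.N
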