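import Pool.Agent.P.MP_824f38_ag.N.MHom
import Pool.Agent.P.MP_824f38_ag.N.LUnit

/-! Row NEC-MGlob: the global centre

Let c i = (ofLex k i).wt (zero for i ≥ ν + m), L = the product of the denominators, 𝓙 l = JG I k (l / L), ω j = L c i if 0 < c i and (ofLex k i).lab = j for some i, else 0. At a point w with invariant k take a good Γ0; jg_near and jg_mem give
h^n y i in JG (c i); a labelled centre coordinate σ j lies in JG (c i) itself (every good Θ with invariant k has Θ.y i = σ j). Rescale (scale with t = 1, ε i = h^n on the unlabelled centre coordinates, 1 elsewhere). BlLoc.loc by exists_unif (finitely many l).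
At a point without invariant k: jg_off, jg_mem with f = 1. cov: jg_mem with f = 1, h = ι a * g i (no point with invariant k has w h ≠ 0). 0 < c 0 by c_pos_of_ne_bot; c i ≤ 1 by c_le_one; GenInv by len, jg_hom, sat_JJ_van and genInv. -/

set_option linter.unusedVariables false
set_option linter.unusedSectionVars false
set_option linter.style.haveILetI false
set_option linter.dupNamespace false

namespace Pool.Agent.P.MP_824f38_ag.N

open V (Dg Hg IsCo pr Pk)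

theorem glob_wt_mkKey (c : ℚ) (l : WithBot ℕ) : (mkKey c l).wt = c := by
  unfold mkKey
  split_ifs with h
  · exact h.symm
  · rfl

theorem glob_lab_mkKey {c : ℚ} (h : c ≠ 0) (l : WithBot ℕ) : (mkKey c l).lab = l := by
  unfold mkKey
  rw [if_neg h]
  rfl

theorem glob_lab_mkKey_zero (l : WithBot ℕ) : (mkKey 0 l).lab = ⊥ := by
  unfold mkKey
  rw [if_pos rfl]
  rfl

section Keys

variable {A : Type} [CommRing A] [Algebra ℂ A] [Algebra.FiniteType ℂ A] {Γ : WS A} {k : Inv}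

theorem glob_c (h : Γ.inv = k) (i : ℕ) : Γ.c i = (ofLex k i).wt := by
  subst h
  exact (glob_wt_mkKey _ _).symm

theorem glob_lab (h : Γ.inv = k) {i : ℕ} (hi : Γ.c i ≠ 0) : (ofLex k i).lab = Γ.lab i := by
  subst h
  exact glob_lab_mkKey hi _

theorem glob_lt (hs : Γ.Sorted) {i : ℕ} (hi : Γ.c i ≠ 0) : i < Γ.N := by
  by_contra hcon
  exact hi (hs.pad i (not_lt.1 hcon))

/-- a label of the invariant is the label of a centre coordinate -/
theorem glob_of_lab (hs : Γ.Sorted) (h : Γ.inv = k) {i j : ℕ} (hi : (ofLex k i).lab = j) :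
    Γ.c i ≠ 0 ∧ i < Γ.N ∧ Γ.lab i = j := by
  have h1 : Γ.c i ≠ 0 := by
    intro h0
    subst h
    have : (ofLex Γ.inv i).lab = ⊥ := by
      change (mkKey (Γ.c i) (Γ.lab i)).lab = ⊥
      rw [h0]
      exact glob_lab_mkKey_zero _
    rw [this] at hi
    exact WithBot.bot_ne_coe hi
  exact ⟨h1, glob_lt hs h1, (glob_lab h h1).symm.trans hi⟩

theorem glob_y_mem {i : ℕ} (hi : i < Γ.N) : Γ.y i ∈ Γ.J (Γ.c i) :=
  mem_JJ_self Γ.yF Γ.cF ⟨i, hi⟩

/-- a common denominator of finitely many weights -/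
theorem glob_den (c : ℕ → ℚ) (N : ℕ) (h0 : ∀ i, 0 ≤ c i) (hN : ∀ i, N ≤ i → c i = 0) :
    ∃ (L : ℕ) (wt : ℕ → ℕ), 1 ≤ L ∧ ∀ i, (wt i : ℚ) = L * c i := by
  have key : ∀ i, ∃ n : ℕ, (n : ℚ) = (∏ t ∈ Finset.range N, (c t).den : ℕ) * c i := by
    intro i
    rcases lt_or_ge i N with hi | hi
    · obtain ⟨d, hd⟩ := Finset.dvd_prod_of_mem (fun t => (c t).den) (Finset.mem_range.2 hi)
      refine ⟨d * (c i).num.toNat, ?_⟩
      have e1 : (((c i).num.toNat : ℕ) : ℚ) = ((c i).num : ℚ) := by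
        rw [← Int.cast_natCast, Int.toNat_of_nonneg (Rat.num_nonneg.2 (h0 i))]
      rw [hd, Nat.cast_mul, Nat.cast_mul, e1, ← Rat.mul_den_eq_num]
      ring
    · exact ⟨0, by rw [hN i hi, mul_zero, Nat.cast_zero]⟩
  choose wt hwt using key
  exact ⟨_, wt, Finset.prod_pos fun t _ => (c t).den_pos, hwt⟩

end Keys

variable {R : Type} [CommRing R] [Algebra ℂ R] [IsDomain R] [Algebra.FiniteType ℂ R]
  {I0 : Ideal R} {ν : ℕ} (M : GM R I0 ν)

namespace GM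

theorem glob_anti (I : Ideal M.S) (k : Inv) {p q : ℚ} (h : p ≤ q) : M.JG I k q ≤ M.JG I k p :=
  fun f hf => M.mem_JG.2 fun w Θ h1 h2 h3 =>
    sat_mono w (JJ_anti _ _ h) (M.mem_JG.1 hf w Θ h1 h2 h3)

theorem glob_σ_mem (I : Ideal M.S) {k : Inv} {i j : ℕ} (hi : (ofLex k i).lab = j) :
    M.σ j ∈ M.JG I k (ofLex k i).wt := by
  refine M.mem_JG.2 fun w Θ h1 h2 h3 => le_sat w _ ?_
  obtain ⟨-, e1, e2⟩ := glob_of_lab h2.ctr.sorted h3 hi
  have e3 : Θ.y i = M.σ j := h2.ctr.lab.eq ⟨i, e1⟩ j e2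
  rw [← e3, ← glob_c h3]
  exact glob_y_mem e1

/-- a good centre whose coordinates lie in the global filtration -/
theorem glob_ctr {I : Ideal M.S} {k : Inv} (hk : M.IsMax I k) {w : M.S →ₐ[ℂ] ℂ}
    (hw : M.HasInv I w k) : ∃ Γ : WS M.S, Γ.N = ν + M.m ∧ Γ.Good M.σ I w ∧ Γ.inv = k ∧
      ∀ i, Γ.c i ≠ 0 → Γ.y i ∈ M.JG I k (Γ.c i) := by
  classical
  obtain ⟨-, Γ, hN, hΓ, hinv⟩ := hw
  obtain ⟨h, hwh, hnear⟩ := M.jg_near hΓ
  have key : ∀ i, ∃ n : ℕ, Γ.c i ≠ 0 → h ^ n * Γ.y i ∈ M.JG I k (Γ.c i) := by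
    intro i
    by_cases hi : Γ.c i = 0
    · exact ⟨0, fun h => absurd hi h⟩
    · obtain ⟨n, hn⟩ := M.jg_mem hk (q := Γ.c i) (f := Γ.y i) (h := h) fun w' Θ h1 h2 h3 h4 => by
        rw [hnear w' Θ h4 h2 (h3.trans hinv.symm)]
        exact le_sat w' _ (glob_y_mem (glob_lt hΓ.ctr.sorted hi))
      exact ⟨n, fun _ => hn⟩
  choose n hn using key
  have hsc := (scale hΓ (fun _ => 1) (fun _ => one_ne_zero)
    (fun i => if Γ.lab i = ⊥ then h ^ n i else 1) (fun i => ?_) (fun i j _ hj => ?_)).1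
  · simp only [one_smul] at hsc
    refine ⟨⟨Γ.N, fun i => (if Γ.lab i = ⊥ then h ^ n i else 1) * Γ.y i, Γ.c, Γ.lab⟩, hN, hsc,
      hinv, fun i hi => ?_⟩
    change (if Γ.lab i = ⊥ then h ^ n i else 1) * Γ.y i ∈ M.JG I k (Γ.c i)
    split_ifs with hl
    · exact hn i hi
    · obtain ⟨j, hj⟩ := WithBot.ne_bot_iff_exists.1 hl
      have e3 : Γ.y i = M.σ j := hΓ.ctr.lab.eq ⟨i, glob_lt hΓ.ctr.sorted hi⟩ j hj.symm
      rw [one_mul, e3, glob_c hinv]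
      exact M.glob_σ_mem I ((glob_lab hinv hi).trans hj.symm)
  · split_ifs
    · rw [map_pow]
      exact pow_ne_zero _ hwh
    · rw [map_one]
      exact one_ne_zero
  · rw [if_neg (by rw [hj]; exact WithBot.coe_ne_bot), map_one]

theorem glob {I : Ideal M.S} (hI : M.Hom I) (h0 : I ≠ ⊥) {k : Inv} (hk : M.IsMax I k)
    (hZ : ∀ w, M.HasInv I w k → ∀ a ∈ I0, w (M.ι a) = 0) :
    GenInv ν k ∧ ∃ (𝓙 : ℕ → Ideal M.S) (L : ℕ) (ω : ℕ → ℕ), M.SD 𝓙 L ω ∧ I ≤ 𝓙 L ∧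
      ∀ w, M.Plus w → ((∃ h ∈ 𝓙 L, w h ≠ 0) ∧ ¬ M.HasInv I w k) ∨
        ∃ Γ wt, BlLoc 𝓙 L M.σ M.m ω w Γ wt ∧ Γ.Cert M.σ I w ∧ Γ.inv = k := by
  classical
  obtain ⟨w0, hw0⟩ := hk.1
  obtain ⟨Γ0, hN0, hΓ0, hinv0, hmem0⟩ := M.glob_ctr hk hw0
  refine ⟨?_, ?_⟩
  · rw [← hinv0]
    refine hΓ0.genInv (M.len hw0.1 hN0 hΓ0.ctr fun i hi l => ?_)
    exact sat_JJ_van hΓ0.ctr.lc.van Γ0.cF hi
      (M.mem_JG.1 (M.jg_hom hI k _ l _ (hmem0 i hi.ne')) w0 Γ0 hw0.1 hΓ0 hinv0)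
  obtain ⟨L, wt, hL, hwt⟩ := glob_den Γ0.c Γ0.N hΓ0.ctr.sorted.nonneg hΓ0.ctr.sorted.pad
  have hL0 : (0 : ℚ) < L := by exact_mod_cast hL
  have hdiv : ∀ i, (wt i : ℚ) / L = (ofLex k i).wt := fun i => by
    rw [hwt, mul_div_cancel_left₀ _ hL0.ne', glob_c hinv0]
  have hle : ∀ i, wt i ≤ L := fun i => by
    have e1 := hΓ0.c_le_one i
    have e2 : (wt i : ℚ) ≤ L := by
      rw [hwt]
      exact mul_le_of_le_one_right hL0.le e1
    exact_mod_cast e2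
  obtain ⟨ω, hω1, hω2⟩ : ∃ ω : ℕ → ℕ, (∀ j : ℕ, (∃ i, (ofLex k i).lab = j) →
      ∃ i, (ofLex k i).lab = j ∧ ω j = wt i) ∧
      ∀ j : ℕ, (¬ ∃ i, (ofLex k i).lab = j) → ω j = 0 :=
    ⟨fun j => if h : ∃ i, (ofLex k i).lab = j then wt h.choose else 0,
      fun j h => ⟨h.choose, h.choose_spec, dif_pos h⟩, fun j h => dif_neg h⟩
  have hcases : ∀ w, M.Plus w →
      ((∃ h ∈ M.JG I k ((L : ℚ) / L), w h ≠ 0) ∧ ¬ M.HasInv I w k) ∨
        ∃ Γ : WS M.S, Γ.N = ν + M.m ∧ Γ.Good M.σ I w ∧ Γ.inv = k ∧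
          BlLoc (fun l : ℕ => M.JG I k ((l : ℚ) / L)) L M.σ M.m ω w Γ wt := by
    intro w hw
    by_cases hinv : M.HasInv I w k
    · obtain ⟨Γ, hN, hΓ, hi, hmem⟩ := M.glob_ctr hk hinv
      have hc : ∀ i, (wt i : ℚ) = L * Γ.c i := fun i => by
        rw [hwt, glob_c hinv0, glob_c hi]
      have hz : ∀ i, Γ.c i = 0 → wt i = 0 := fun i h => by
        have := hc i
        rw [h, mul_zero] at this
        exact_mod_cast this
      refine Or.inr ⟨Γ, hN, hΓ, hi, hΓ.ctr, hc, hle, fun i => ?_, ?_, fun i j hiN hj => ?_,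
        fun j hj => ?_⟩
      · by_cases h : Γ.c i = 0
        · exact Or.inl (hz i h)
        · refine Or.inr ?_
          rw [hdiv, ← glob_c hi]
          exact hmem i h
      · have key : ∀ l : ℕ, ∃ a, w a ≠ 0 ∧ ∀ f ∈ M.JG I k ((l : ℚ) / L),
            a * f ∈ Γ.J ((l : ℚ) / L) := fun l =>
          exists_unif fun f hf => M.mem_JG.1 hf w Γ hw hΓ hi
        choose a ha1 ha2 using key
        refine ⟨∏ l ∈ Finset.range (L + 1), a l, ?_, fun l _ hl f hf => ?_⟩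
        · rw [map_prod]
          exact Finset.prod_ne_zero_iff.2 fun l _ => ha1 l
        · obtain ⟨d, hd⟩ := Finset.dvd_prod_of_mem a (Finset.mem_range.2 (Nat.lt_succ_of_le hl))
          rw [hd, mul_comm (a l), mul_assoc]
          exact Ideal.mul_mem_left _ _ (ha2 l f hf)
      · by_cases h : ∃ i, (ofLex k i).lab = j
        · obtain ⟨i', e1, e2⟩ := hω1 j h
          obtain ⟨-, e3, e4⟩ := glob_of_lab hΓ.ctr.sorted hi e1
          have e5 : Γ.yF ⟨i, hiN⟩ = Γ.yF ⟨i', e3⟩ :=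
            (hΓ.ctr.lab.eq ⟨i, hiN⟩ j hj).trans (hΓ.ctr.lab.eq ⟨i', e3⟩ j e4).symm
          have e6 : i = i' := congrArg Fin.val (hΓ.ctr.lc.injective e5)
          rw [e2, e6]
        · rw [hω2 j h]
          refine hz i ?_
          by_contra hc0
          exact h ⟨i, (glob_lab hi hc0).trans hj⟩
      · refine hω2 j ?_
        rintro ⟨i, e1⟩
        obtain ⟨-, e3, e4⟩ := glob_of_lab hΓ.ctr.sorted hi e1
        refine hj ?_
        rw [← hΓ.ctr.lab.eq ⟨i, e3⟩ j e4]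
        exact hΓ.ctr.lc.van _
    · obtain ⟨h, hwh, hoff⟩ := M.jg_off hk hw hinv
      obtain ⟨n, hn⟩ := M.jg_mem hk (q := (L : ℚ) / L) (f := 1) (h := h)
        fun w' Θ h1 h2 h3 h4 => absurd (h3 ▸ M.hasInv_of_good h1 h2) (hoff w' h4)
      refine Or.inl ⟨⟨_, hn, ?_⟩, hinv⟩
      rw [mul_one, map_pow]
      exact pow_ne_zero _ hwh
  refine ⟨fun l : ℕ => M.JG I k ((l : ℚ) / L), L, ω, ⟨⟨hL, fun l => M.glob_anti I k ?_, M.σ_one,
    fun j => ?_, fun j => ?_⟩, fun l => M.jg_hom hI k _, fun a ha i => ?_, fun w hw => ?_⟩,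
    fun f hf => ?_, fun w hw => ?_⟩
  · exact div_le_div_of_nonneg_right (by exact_mod_cast Nat.le_succ l) hL0.le
  · by_cases h : ∃ i, (ofLex k i).lab = j
    · obtain ⟨i, -, e2⟩ := hω1 j h
      rw [e2]
      exact hle i
    · rw [hω2 j h]
      exact Nat.zero_le _
  · by_cases h : ∃ i, (ofLex k i).lab = j
    · obtain ⟨i, e1, e2⟩ := hω1 j h
      refine Or.inr ?_
      rw [e2, hdiv]
      exact M.glob_σ_mem I e1
    · exact Or.inl (hω2 j h)
  · obtain ⟨n, hn⟩ := M.jg_mem hk (q := ((1 : ℕ) : ℚ) / L) (f := 1) (h := M.ι a * M.g i)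
      fun w' Θ h1 h2 h3 h4 => absurd (by
        rw [map_mul, hZ w' (h3 ▸ M.hasInv_of_good h1 h2) a ha, zero_mul]) h4
    exact ⟨n, by simpa only [mul_one] using hn⟩
  · rcases hcases w hw with h | ⟨Γ, hN, hΓ, -, hb⟩
    · exact Or.inl h.1
    · exact Or.inr ⟨Γ, wt, hN, c_pos_of_ne_bot hΓ h0, hb⟩
  · refine M.mem_JG.2 fun w Θ h1 h2 h3 => ?_
    rw [div_self hL0.ne']
    exact h2.adm hf
  · rcases hcases w hw with h | ⟨Γ, hN, hΓ, hi, hb⟩
    · exact Or.inl h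
    · exact Or.inr ⟨Γ, wt, hb, hΓ.cert, hi⟩

end GM

end Pool.Agent.P.MP_824f38_ag.N
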