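import Pool.Agent.P.MP_824f38_ag.N.MJg
import Pool.Agent.P.MP_824f38_ag.N.LScale

/-! Row NEC-MHom: the global filtration is homogeneous; the length of the invariant

jg_hom: hom_of_torus. For α with α s = zp τ l • s and a good Θ at w, transport by α⁻¹ or α (transp; I.map α = I as I is homogeneous), then rescale (scale, with t j the scalar by which σ j is moved, ε i = t j on labelled coordinates and 1 elsewhere)
to get a good centre for σ at w.comp α with the same invariant. len: the point derivations w ∘ θ j (exists_euler) are independent (euler_indep), are determined by their values on the coordinates (lin_part with c = 0, q = 0, applied to s - w s) and vanish on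
the y i with 0 < c i; if 0 < c ν then (antitone) only the m - 1 coordinates i > ν remain, a contradiction with linear independence in ℂ^(m-1). -/

set_option linter.unusedVariables false
set_option linter.unusedSectionVars false
set_option linter.style.haveILetI false
set_option linter.dupNamespace false

namespace Pool.Agent.P.MP_824f38_ag.N

open V (Dg Hg IsCo pr Pk)

variable {R : Type} [CommRing R] [Algebra ℂ R] [IsDomain R] [Algebra.FiniteType ℂ R]
  {I0 : Ideal R} {ν : ℕ} (M : GM R I0 ν)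

namespace GM

private theorem mhom_pres {I : Ideal M.S} (hI : M.Hom I) (α : M.S ≃ₐ[ℂ] M.S)
    (h : ∀ l, ∀ s ∈ M.H l, ∃ c : ℂ, α s = c • s) : ∀ f ∈ I, α f ∈ I := by
  intro f hf
  obtain ⟨s, hs⟩ := M.co.exists_sum f
  rw [← hs s le_rfl, map_sum]
  refine Ideal.sum_mem _ fun l _ => ?_
  obtain ⟨c, hc⟩ := h l _ (M.co.pr_mem l f)
  rw [hc, Algebra.smul_def]
  exact Ideal.mul_mem_left _ _ (hI l f hf)

theorem jg_hom {I : Ideal M.S} (hI : M.Hom I) (k : Inv) (q : ℚ) : M.Hom (M.JG I k q) := by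
  refine hom_of_torus M.co M.hk fun τ α hα f hf => M.mem_JG.2 fun w Θ hw hΘ hk => ?_
  have h1 : ∀ f ∈ I, α f ∈ I := M.mhom_pres hI α fun l s hs => ⟨_, hα l s hs⟩
  have h2 : ∀ f ∈ I, α.symm f ∈ I := M.mhom_pres hI α.symm fun l s hs =>
    ⟨((zp τ l : ℂˣ) : ℂ)⁻¹, by
      rw [AlgEquiv.symm_apply_eq, map_smul, hα l s hs, smul_smul,
        inv_mul_cancel₀ (Units.ne_zero _), one_smul]⟩
  have h3 : I.map (α.symm : M.S →+* M.S) = I := by
    refine le_antisymm (Ideal.map_le_iff_le_comap.2 h2) fun g hg => ?_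
    have := Ideal.mem_map_of_mem (α.symm : M.S →+* M.S) (h1 g hg)
    rwa [RingHom.coe_coe, AlgEquiv.symm_apply_apply] at this
  have h4 : ∀ j, ∃ t : ℂ, t ≠ 0 ∧ t • α.symm (M.σ j) = M.σ j := by
    intro j
    by_cases e : j < M.m
    · refine ⟨_, Units.ne_zero (zp τ (-Pi.single ⟨j, e⟩ 1)), ?_⟩
      rw [← map_smul, AlgEquiv.symm_apply_eq]
      exact (hα _ _ (M.hσ ⟨j, e⟩)).symm
    · exact ⟨1, one_ne_zero, by rw [M.σ_one j (not_lt.1 e), map_one, one_smul]⟩
  choose t ht ht' using h4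
  have e : (w.comp (α : M.S →ₐ[ℂ] M.S)).comp (α.symm : M.S →ₐ[ℂ] M.S) = w :=
    AlgHom.ext fun x => congrArg w (α.apply_symm_apply x)
  obtain ⟨G1, hJ1⟩ := transp α.symm (w' := w.comp (α : M.S →ₐ[ℂ] M.S)) (Γ := Θ) (σ := M.σ)
    (I := I) (by rw [e]; exact hΘ)
  rw [h3] at G1
  rw [e] at hJ1
  have h5 : ∀ i, ∃ ε : M.S, (w.comp (α : M.S →ₐ[ℂ] M.S)) ε ≠ 0 ∧
      ∀ j : ℕ, Θ.lab i = j → ε = algebraMap ℂ M.S (t j) := by
    intro i
    by_cases e' : ∃ j : ℕ, Θ.lab i = j
    · obtain ⟨j, hj⟩ := e'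
      refine ⟨algebraMap ℂ M.S (t j), by rw [AlgHom.commutes]; exact ht j, fun j' hj' => ?_⟩
      rw [show j = j' from WithBot.coe_injective (hj.symm.trans hj')]
    · exact ⟨1, by simp, fun j hj => absurd ⟨j, hj⟩ e'⟩
  choose ε hε hε' using h5
  obtain ⟨G2, hJ2⟩ := scale G1 t ht ε hε fun i j _ hj => hε' i j hj
  rw [show (fun j => t j • α.symm (M.σ j)) = M.σ from funext ht'] at G2
  rw [hJ1, AlgEquiv.symm_apply_apply, ← hJ2]
  refine M.mem_JG.1 hf _ _ ?_ G2 hk
  obtain ⟨i, hi⟩ := hw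
  refine ⟨i, ?_⟩
  change w (α (M.g i)) ≠ 0
  rw [hα _ _ (M.hg i), map_smul]
  exact smul_ne_zero (Units.ne_zero _) hi

theorem len {w : M.S →ₐ[ℂ] ℂ} (hw : M.Plus w) {Γ : WS M.S} (hN : Γ.N = ν + M.m)
    (H : Γ.IsCtr M.σ w) (h : ∀ i, 0 < Γ.c i → ∀ l, w (pr M.ρ l (Γ.y i)) = 0) :
    ∀ i, ν ≤ i → Γ.c i = 0 := by
  intro i0 hi0
  by_contra hc
  have hlt : i0 < Γ.N := by
    by_contra e
    exact hc (H.sorted.pad i0 (not_lt.1 e))
  have hpos : ∀ i, i ≤ ν → 0 < Γ.c i := fun i hi =>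
    (lt_of_le_of_ne (H.sorted.nonneg i0) (Ne.symm hc)).trans_le (H.sorted.anti (hi.trans hi0))
  choose θ hθ using fun j => exists_euler M.co M.hk j
  have h0 : ∀ i, i ≤ ν → ∀ j, w (θ j (Γ.y i)) = 0 := by
    intro i hi j
    obtain ⟨s, hs⟩ := M.co.exists_sum (Γ.y i)
    rw [← hs s le_rfl, map_sum, map_sum]
    refine Finset.sum_eq_zero fun l _ => ?_
    rw [hθ j l _ (M.co.pr_mem l _), map_zsmul, h i (hpos i hi) l, smul_zero]
  let Φ : (Fin M.m → ℂ) →ₗ[ℂ] (Fin (M.m - 1) → ℂ) :=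
    { toFun := fun lam a => ∑ j, lam j * w (θ j (Γ.y (ν + 1 + a)))
      map_add' := fun a b => by funext x; simp [add_mul, Finset.sum_add_distrib]
      map_smul' := fun c a => by funext x; simp [Finset.mul_sum, mul_assoc] }
  have hΦ : Function.Injective Φ := by
    rw [injective_iff_map_eq_zero]
    intro lam hl
    have h1 : ∀ i : Fin Γ.N, ∑ j, lam j * w (θ j (Γ.yF i)) = 0 := by
      intro i
      by_cases e : (i : ℕ) ≤ ν
      · exact Finset.sum_eq_zero fun j _ => by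
          rw [show w (θ j (Γ.yF i)) = 0 from h0 i e j, mul_zero]
      · have e2 : (i : ℕ) - (ν + 1) < M.m - 1 := by have := i.2; omega
        have e3 : ∑ j, lam j * w (θ j (Γ.y (ν + 1 + ((i : ℕ) - (ν + 1))))) = 0 :=
          congrFun hl ⟨_, e2⟩
        rw [show ν + 1 + ((i : ℕ) - (ν + 1)) = i by omega] at e3
        exact e3
    refine M.euler_indep hw θ hθ lam fun s => ?_
    obtain ⟨a, -, ha⟩ := lin_part H.lc (c := fun _ => 0) (fun _ => le_rfl) (q := 0)
      (f := s - algebraMap ℂ M.S (w s)) (by simp)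
      (le_sat _ _ (by rw [JJ_nonpos _ _ le_rfl]; trivial))
    have h2 : ∀ j, w (θ j s) = ∑ i, a i * w (θ j (Γ.yF i)) := fun j => by
      rw [← ha, map_sub, Derivation.map_algebraMap, sub_zero]
    simp only [h2, Finset.mul_sum]
    rw [Finset.sum_comm]
    refine Finset.sum_eq_zero fun i _ => ?_
    rw [← mul_zero (a i), ← h1 i, Finset.mul_sum]
    exact Finset.sum_congr rfl fun j _ => by ring
  have := LinearMap.finrank_le_finrank_of_injective hΦ
  simp only [Module.finrank_fin_fun] at this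
  omega

end GM

end Pool.Agent.P.MP_824f38_ag.N
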