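import Pool.Agent.P.MP_824f38_ag.N.MBasic
import Pool.Agent.P.MP_824f38_ag.N.VIn

/-! Properness by valuations. -/

set_option linter.unusedVariables false
set_option linter.unusedSectionVars false
set_option linter.style.haveILetI false
set_option linter.dupNamespace false

namespace Pool.Agent.P.MP_824f38_ag.N

open V (Dg Hg IsCo pr Pk)

variable {R : Type} [CommRing R] [Algebra ℂ R] [IsDomain R] [Algebra.FiniteType ℂ R]
  {I0 : Ideal R} {ν : ℕ} (M : GM R I0 ν)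

theorem RMInt.integral_of_val {A F : Type} [CommRing A] [Field F] [Algebra A F] {x : F}
    (h : ∀ W : ValuationSubring F, (∀ a, algebraMap A F a ∈ W) → x ∈ W) : IsIntegral A x := by
  have h1 : x ∈ (integralClosure (Subring.closure (Set.range (algebraMap A F))) F).toSubring := by
    rw [← iInf_valuationSubring_superset]
    exact Subring.mem_iInf.2 fun V => h V.1 fun a => V.2 ⟨a, rfl⟩
  have e : Subring.closure (Set.range (algebraMap A F)) = (algebraMap A F).range :=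
    Subring.closure_eq (algebraMap A F).range
  rw [e] at h1
  letI := (algebraMap A F).rangeRestrict.toAlgebra
  haveI : IsScalarTower A (algebraMap A F).range F := IsScalarTower.of_algebraMap_eq' rfl
  haveI : Algebra.IsIntegral A (algebraMap A F).range :=
    ⟨RingHom.isIntegral_of_surjective _ (algebraMap A F).rangeRestrict_surjective⟩
  exact isIntegral_trans (A := (algebraMap A F).range) x h1

theorem RMInt.zp_nsmul {V : Type} [CommRing V] {m : ℕ} (τ : Fin m → Vˣ) (l : Dg m) (n : ℕ) :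
    zp τ (n • l) = zp τ l ^ n := by
  induction n with
  | zero => rw [zero_smul, zp_zero, pow_zero]
  | succ n ih => rw [succ_nsmul, zp_add, ih, pow_succ]

open MvPolynomial in
theorem RMInt.key (h0 : I0 ≠ ⊥) {τ : Type} {f : τ → R} {c : Fin M.m → ℕ} {μ : τ → M.S}
    (W : M.Wk f c μ) (h : ∀ w, M.Plus w → ∃ k, w (μ k) ≠ 0) {a e : ℕ} {s : M.S}
    (hs : s ∈ M.H (a • M.dg c + e • M.χ)) (V : ValuationSubring (KB (MvPolynomial (Fin 2) M.S)))
    (h1 : ∀ s ∈ M.H 0, algebraMap (MvPolynomial (Fin 2) M.S) _ (C s) ∈ V)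
    (h2 : ∀ k, algebraMap (MvPolynomial (Fin 2) M.S) _ (C (μ k) * X 0) ∈ V)
    (h3 : ∀ i, algebraMap (MvPolynomial (Fin 2) M.S) _ (C (M.g i) * X 1) ∈ V) :
    algebraMap (MvPolynomial (Fin 2) M.S) _ (C s * X 0 ^ a * X 1 ^ e) ∈ V := by
  let J : M.S →ₐ[ℂ] KB (MvPolynomial (Fin 2) M.S) :=
    (IsScalarTower.toAlgHom ℂ (MvPolynomial (Fin 2) M.S) _).comp
      (IsScalarTower.toAlgHom ℂ M.S (MvPolynomial (Fin 2) M.S))
  have eJ : ∀ s, algebraMap (MvPolynomial (Fin 2) M.S) _ (C s) = J s := fun s => rfl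
  have hJ : Function.Injective J := (inj_KB _).comp (C_injective _ _)
  simp only [map_mul, map_pow, eJ] at h1 h2 h3 ⊢
  generalize algebraMap (MvPolynomial (Fin 2) M.S) (KB (MvPolynomial (Fin 2) M.S)) (X 0) = t at *
  generalize algebraMap (MvPolynomial (Fin 2) M.S) (KB (MvPolynomial (Fin 2) M.S)) (X 1) = t' at *
  letI : Algebra ℂ V := ((algebraMap ℂ (KB (MvPolynomial (Fin 2) M.S))).codRestrict V.toSubring
    fun z => by rw [← J.commutes]; exact h1 _ (M.hk z)).toAlgebra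
  let v : V →ₐ[ℂ] KB (MvPolynomial (Fin 2) M.S) := ⟨V.subtype, fun _ => rfl⟩
  let x : R →ₐ[ℂ] V := ⟨(J.comp M.ι).toRingHom.codRestrict V.toSubring
    fun r => h1 _ (M.hι r), fun z => Subtype.ext ((J.comp M.ι).commutes z)⟩
  obtain ⟨φ, e1, e2, i, e3⟩ := M.prop V (fun y n hn => by
    obtain ⟨z, hz⟩ := IsAlgClosed.exists_pow_nat_eq (y : KB (MvPolynomial (Fin 2) M.S)) hn
    refine ⟨⟨z, (V.valuation_le_one_iff z).1 ((pow_le_one_iff hn.ne').1 ?_)⟩, Subtype.ext hz⟩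
    rw [← map_pow, hz]
    exact V.valuation_le_one y) x (by
    obtain ⟨r, hr, hr0⟩ := Submodule.exists_mem_ne_zero_of_ne_bot h0
    exact ⟨r, hr, fun h => hr0 (M.ι_injective (hJ (by
      rw [map_zero, map_zero]; exact congrArg Subtype.val h)))⟩)
  have hσ : ∀ j, J (M.σ j) ≠ 0 := fun j h => M.σ_ne j (hJ (by rw [h, map_zero]))
  have hσ' : ∀ j, v (φ (M.σ j)) ≠ 0 := fun j h => e2 j (Subtype.ext h)
  obtain ⟨u, hu⟩ : ∃ u : Fin M.m → (KB (MvPolynomial (Fin 2) M.S))ˣ,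
      ∀ j, (u j : KB _) = v (φ (M.σ j)) / J (M.σ j) :=
    ⟨fun j => Units.mk0 _ (div_ne_zero (hσ' j) (hσ j)), fun _ => rfl⟩
  obtain ⟨φ', hφ'⟩ := exists_twist M.co M.hk (v.comp φ) u
  have eσ : ∀ j : Fin M.m, φ' (M.σ j) = J (M.σ j) := fun j => by
    rw [hφ' _ _ (M.hσ j), zp_neg, zp_single, zpow_one, Units.val_inv_eq_inv_val, hu, inv_div]
    exact div_mul_cancel₀ _ (hσ' j)
  have eσp : ∀ n, φ' (M.σp n) = J (M.σp n) := fun n => by simp [GM.σp, eσ]
  have main : ∀ l, ∀ s ∈ M.H l, J s = (zp u l : KB _) * v (φ s) := fun l s hs => by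
    have a1 := congrArg φ' (M.rel hs)
    have a2 := congrArg J (M.rel hs)
    rw [map_mul, map_mul] at a1 a2
    rw [eσp, eσp, hφ' _ _ (M.hι _), zp_zero, Units.val_one, one_mul, hφ' _ _ hs] at a1
    refine mul_right_cancel₀ (b := J (M.σp fun j => (l j).toNat)) ?_ (a2.trans (Eq.trans ?_ a1.symm))
    · simp [GM.σp, Finset.prod_ne_zero_iff, hσ]
    · exact congrArg _ (congrArg v (DFunLike.congr_fun e1 _)).symm
  have can : ∀ l, ∀ s ∈ M.H l, IsUnit (φ s) → ∀ t, J s * t ∈ V → (zp u l : KB _) * t ∈ V := by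
    intro l s hs hu t ht
    obtain ⟨b, hb⟩ := hu.exists_right_inv
    have hb' : v (φ s) * v b = 1 := by rw [← map_mul, hb, map_one]
    rw [show (zp u l : KB _) * t = J s * t * v b by
      rw [main l s hs]; linear_combination (-((zp u l).val * t)) * hb']
    exact mul_mem ht b.2
  obtain ⟨k, hk⟩ : ∃ k, IsUnit (φ (μ k)) := by
    by_contra! hn
    obtain ⟨n, hn'⟩ := M.pow_mem_span h i
    have : Ideal.span (Set.range μ) ≤ (IsLocalRing.maximalIdeal V).comap φ :=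
      Ideal.span_le.2 (Set.range_subset_iff.2 fun k => (IsLocalRing.mem_maximalIdeal _).2 (hn k))
    exact (IsLocalRing.mem_maximalIdeal _).1 (this hn') (by rw [map_pow]; exact e3.pow n)
  rw [main _ s hs, zp_add, RMInt.zp_nsmul, RMInt.zp_nsmul, Units.val_mul, Units.val_pow_eq_pow_val,
    Units.val_pow_eq_pow_val, show ∀ p q r : KB (MvPolynomial (Fin 2) M.S),
      p ^ a * q ^ e * r * t ^ a * t' ^ e = r * (p * t) ^ a * (q * t') ^ e from
        fun p q r => by ring]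
  exact mul_mem (mul_mem (φ s).2 (pow_mem (can _ _ (W.mem k) hk t (h2 k)) a))
    (pow_mem (can _ _ (M.hg i) e3 t' (h3 i)) e)

namespace GM

theorem rad_toMod (h0 : I0 ≠ ⊥) {τ : Type} {f : τ → R} {c : Fin M.m → ℕ} {μ : τ → M.S}
    (W : M.Wk f c μ) (h : ∀ w, M.Plus w → ∃ k, w (μ k) ≠ 0) : M.toMod.Rad (M.dg c) μ := by
  refine v_rad M.m M.κ M.toMod τ (M.dg c) μ W.mem fun a e s hs => ?_
  refine (isIntegral_algebraMap_iff (inj_KB (MvPolynomial (Fin 2) M.S))).1
    (RMInt.integral_of_val fun V hV => ?_)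
  refine RMInt.key M h0 W h hs V (fun s hs => ?_) (fun k => ?_) fun i => ?_
  · exact hV ⟨_, Subalgebra.algebraMap_mem _ (⟨s, hs⟩ : M.toMod.S0)⟩
  · exact hV ⟨_, Algebra.subset_adjoin (Or.inl ⟨k, rfl⟩)⟩
  · exact hV ⟨_, Algebra.subset_adjoin (Or.inr ⟨i, rfl⟩)⟩

end GM

end Pool.Agent.P.MP_824f38_ag.N
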