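import Pool.Agent.P.MP_824f38_ag.N.MBasic

/-! Row NEC-MJg: the maximal invariant and the global filtration

exists_isMax: for each Plus point w choose hh w with w (hh w) ≠ 0 such that on hh w ≠ 0 all invariants are ≤ the invariant at w (cert_open, max_lemma); fin_cover (J = I, f = g i) for each i; take the largest of finitely many invariants.
jg_off: if w kills I use the good centre at w (invariant < k) and cert_open; otherwise an element of I. jg_mem: choose for each Plus point w1 an element hh w1: from jg_off if w1 has not invariant k, and from good_open (for a chosen good Γ1) otherwise;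
fin_cover (J = ⊥, f = g i). For w1 of the second kind every w' with w' (h * hh w1 * g i) ≠ 0 has f in sat w' (Γ1.J q) (if w' kills the centre use good_open and the hypothesis, otherwise a power of a centre coordinate lies in J q); pow_mul_mem_of_sat; good_unique / max_lemma to return to any Θ. -/

set_option linter.unusedVariables false
set_option linter.unusedSectionVars false
set_option linter.style.haveILetI false
set_option linter.dupNamespace false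

namespace Pool.Agent.P.MP_824f38_ag.N

open V (Dg Hg IsCo pr Pk)

variable {R : Type} [CommRing R] [Algebra ℂ R] [IsDomain R] [Algebra.FiniteType ℂ R]
  {I0 : Ideal R} {ν : ℕ} (M : GM R I0 ν)

namespace GM

private theorem loc_bound (I : Ideal M.S) {w : M.S →ₐ[ℂ] ℂ} (hw : M.Plus w) :
    ∃ h, w h ≠ 0 ∧ ∀ (w' : M.S →ₐ[ℂ] ℂ) (k' : Inv), w' h ≠ 0 → M.HasInv I w' k' →
      ∃ k, M.HasInv I w k ∧ k' ≤ k := by
  by_cases hI : ∀ f ∈ I, w f = 0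
  · obtain ⟨k, hk⟩ := M.exists_hasInv hw hI
    obtain ⟨-, Γ, hN, hΓ, hi⟩ := id hk
    obtain ⟨h, h0, hh⟩ := cert_open M.finDiv hΓ.ctr.sorted hΓ.cert
    refine ⟨h, h0, fun w' k' hw' hk' => ⟨k, hk, ?_⟩⟩
    obtain ⟨-, Θ, -, hΘ, hi'⟩ := hk'
    rw [← hi, ← hi']
    exact (max_lemma hΓ.ctr.sorted (hh w' hw') hΘ.ctr hΘ.adm).1
  · obtain ⟨f, hf⟩ := not_forall.1 hI
    obtain ⟨hfI, hf0⟩ := Classical.not_imp.1 hf
    refine ⟨f, hf0, fun w' k' hw' hk' => ?_⟩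
    obtain ⟨-, Θ, -, hΘ, -⟩ := hk'
    exact absurd (hΘ.van f hfI) hw'

theorem exists_isMax {I : Ideal M.S} (h : ∃ w, M.Plus w ∧ ∀ f ∈ I, w f = 0) :
    ∃ k, M.IsMax I k := by
  have h1 : ∀ w : M.S →ₐ[ℂ] ℂ, ∃ a, w a ≠ 0 ∧ (M.Plus w →
      ∀ (w' : M.S →ₐ[ℂ] ℂ) (k' : Inv), w' a ≠ 0 → M.HasInv I w' k' →
        ∃ k, M.HasInv I w k ∧ k' ≤ k) := by
    intro w
    by_cases hw : M.Plus w
    · obtain ⟨a, a0, ha⟩ := M.loc_bound I hw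
      exact ⟨a, a0, fun _ => ha⟩
    · exact ⟨1, by simp, fun h => absurd h hw⟩
  choose hh h0 hb using h1
  have h2 := fun i : M.κ => fin_cover I (M.g i) hh fun w _ _ => h0 w
  choose s hs hc using h2
  have hfin : (⋃ i : M.κ, ⋃ w ∈ (s i : Set (M.S →ₐ[ℂ] ℂ)), {k | M.HasInv I w k}).Finite :=
    Set.finite_iUnion fun i => (s i).finite_toSet.biUnion fun w _ =>
      Set.Subsingleton.finite fun k hk k' hk' => HasInv.unique hk hk'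
  have key : ∀ w' k', M.HasInv I w' k' →
      ∃ k ∈ (⋃ i : M.κ, ⋃ w ∈ (s i : Set (M.S →ₐ[ℂ] ℂ)), {k | M.HasInv I w k}), k' ≤ k := by
    intro w' k' hk'
    obtain ⟨⟨i, hi⟩, Θ, -, hΘ, -⟩ := id hk'
    obtain ⟨w, hw, hw'⟩ := hc i w' hΘ.van hi
    obtain ⟨k, hk, hle⟩ := hb w ⟨i, (hs i w hw).2⟩ w' k' hw' hk'
    exact ⟨k, Set.mem_iUnion.2 ⟨i, Set.mem_biUnion (Finset.mem_coe.2 hw) hk⟩, hle⟩
  obtain ⟨w0, hw0, hI⟩ := h
  obtain ⟨k0, hk0⟩ := M.exists_hasInv hw0 hI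
  obtain ⟨k1, hk1, -⟩ := key w0 k0 hk0
  obtain ⟨k, hk, hmax⟩ := Set.exists_max_image _ id hfin ⟨k1, hk1⟩
  refine ⟨k, ?_, fun w' k' hk' => ?_⟩
  · obtain ⟨i, hi⟩ := Set.mem_iUnion.1 hk
    obtain ⟨w, -, hw⟩ := Set.mem_iUnion₂.1 hi
    exact ⟨w, hw⟩
  · obtain ⟨k2, hk2, hle⟩ := key w' k' hk'
    exact hle.trans (hmax k2 hk2)

theorem jg_off {I : Ideal M.S} {k : Inv} (hk : M.IsMax I k) {w : M.S →ₐ[ℂ] ℂ} (hw : M.Plus w)
    (h : ¬ M.HasInv I w k) :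
    ∃ h, w h ≠ 0 ∧ ∀ w' : M.S →ₐ[ℂ] ℂ, w' h ≠ 0 → ¬ M.HasInv I w' k := by
  obtain ⟨a, a0, ha⟩ := M.loc_bound I hw
  refine ⟨a, a0, fun w' hw' hk' => h ?_⟩
  obtain ⟨k0, hk0, hle⟩ := ha w' k hw' hk'
  rwa [le_antisymm hle (hk.2 w k0 hk0)]

theorem jg_near {I : Ideal M.S} {w : M.S →ₐ[ℂ] ℂ} {Γ : WS M.S} (H : Γ.Good M.σ I w) :
    ∃ h, w h ≠ 0 ∧ ∀ (w' : M.S →ₐ[ℂ] ℂ) (Θ : WS M.S), w' h ≠ 0 → Θ.Good M.σ I w' →
      Θ.inv = Γ.inv → ∀ q, sat w' (Θ.J q) = sat w' (Γ.J q) := by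
  obtain ⟨h, h0, hh⟩ := cert_open M.finDiv H.ctr.sorted H.cert
  exact ⟨h, h0, fun w' Θ hw' hΘ hi =>
    ((max_lemma H.ctr.sorted (hh w' hw') hΘ.ctr hΘ.adm).2 hi).2⟩

theorem mem_JG {I : Ideal M.S} {k : Inv} {q : ℚ} {f : M.S} : f ∈ M.JG I k q ↔
    ∀ (w : M.S →ₐ[ℂ] ℂ) (Θ : WS M.S), M.Plus w → Θ.Good M.σ I w → Θ.inv = k →
      f ∈ sat w (Θ.J q) := by
  simp only [JG, Submodule.mem_iInf]
  exact ⟨fun h w Θ h1 h2 h3 => h w Θ ⟨h1, h2, h3⟩, fun h w Θ hh => h w Θ hh.1 hh.2.1 hh.2.2⟩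

private theorem jg_mem_loc {I : Ideal M.S} {k : Inv} (hk : M.IsMax I k) {q : ℚ} {f h : M.S}
    (H : ∀ (w : M.S →ₐ[ℂ] ℂ) (Θ : WS M.S), M.Plus w → Θ.Good M.σ I w → Θ.inv = k → w h ≠ 0 →
      f ∈ sat w (Θ.J q)) {w1 : M.S →ₐ[ℂ] ℂ} (hw1 : M.Plus w1) :
    ∃ a, w1 a ≠ 0 ∧ ∃ n : ℕ, ∀ (w : M.S →ₐ[ℂ] ℂ) (Θ : WS M.S), M.Plus w → Θ.Good M.σ I w →
      Θ.inv = k → w a ≠ 0 → h ^ n * f ∈ sat w (Θ.J q) := by
  by_cases hi : M.HasInv I w1 k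
  · obtain ⟨⟨i, hgi⟩, Γ, -, hΓ, hinv⟩ := hi
    obtain ⟨b, b0, hb⟩ := good_open M.finDiv hΓ
    have h1 : ∀ w' : M.S →ₐ[ℂ] ℂ, w' (h * (b * M.g i)) ≠ 0 → f ∈ sat w' (Γ.J q) := by
      intro w' hw'
      rw [map_mul, map_mul] at hw'
      have e1 : w' h ≠ 0 := left_ne_zero_of_mul hw'
      have e2 : w' b ≠ 0 := left_ne_zero_of_mul (right_ne_zero_of_mul hw')
      have e3 : w' (M.g i) ≠ 0 := right_ne_zero_of_mul (right_ne_zero_of_mul hw')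
      by_cases hc : ∀ t, 0 < Γ.c t → w' (Γ.y t) = 0
      · obtain ⟨Γ', -, hG, hI, hJ⟩ := (hb w' e2).2 hc
        rw [← hJ q]
        exact H w' Γ' ⟨i, e3⟩ hG (hI.trans hinv) e1
      · obtain ⟨t, ht⟩ := not_forall.1 hc
        obtain ⟨ht0, ht1⟩ := Classical.not_imp.1 ht
        have htN : t < Γ.N := by
          by_contra hh
          exact ht0.ne' (hΓ.ctr.sorted.pad t (not_lt.1 hh))
        obtain ⟨n, hn⟩ := pow_mem_JJ Γ.yF (c := Γ.cF) (fun j => hΓ.ctr.sorted.nonneg j) q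
          (f := Γ.y t) (Ideal.subset_span ⟨⟨t, htN⟩, ht0, rfl⟩)
        exact ⟨Γ.y t ^ n, by rw [map_pow]; exact pow_ne_zero _ ht1,
          Ideal.mul_mem_right _ _ hn⟩
    obtain ⟨n, hn⟩ := pow_mul_mem_of_sat h1
    refine ⟨b * M.g i, by rw [map_mul]; exact mul_ne_zero b0 hgi, n,
      fun w Θ hw hΘ hI ha => ?_⟩
    have e2 : w b ≠ 0 := by
      rw [map_mul] at ha
      exact left_ne_zero_of_mul ha
    rw [((max_lemma hΓ.ctr.sorted (hb w e2).1 hΘ.ctr hΘ.adm).2 (hI.trans hinv.symm)).2 q]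
    refine ⟨(b * M.g i) ^ n, by rw [map_pow]; exact pow_ne_zero _ ha, ?_⟩
    rw [show (b * M.g i) ^ n * (h ^ n * f) = (h * (b * M.g i)) ^ n * f by ring]
    exact hn
  · obtain ⟨a, a0, ha⟩ := M.jg_off hk hw1 hi
    refine ⟨a, a0, 0, fun w Θ hw hΘ hI hwa => ?_⟩
    exact absurd (hI ▸ M.hasInv_of_good hw hΘ) (ha w hwa)

theorem jg_mem {I : Ideal M.S} {k : Inv} (hk : M.IsMax I k) {q : ℚ} {f h : M.S}
    (H : ∀ (w : M.S →ₐ[ℂ] ℂ) (Θ : WS M.S), M.Plus w → Θ.Good M.σ I w → Θ.inv = k → w h ≠ 0 →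
      f ∈ sat w (Θ.J q)) : ∃ n : ℕ, h ^ n * f ∈ M.JG I k q := by
  have h1 : ∀ w1 : M.S →ₐ[ℂ] ℂ, ∃ a, w1 a ≠ 0 ∧ ∃ n : ℕ, M.Plus w1 →
      ∀ (w : M.S →ₐ[ℂ] ℂ) (Θ : WS M.S), M.Plus w → Θ.Good M.σ I w →
        Θ.inv = k → w a ≠ 0 → h ^ n * f ∈ sat w (Θ.J q) := by
    intro w1
    by_cases hw : M.Plus w1
    · obtain ⟨a, a0, n, ha⟩ := M.jg_mem_loc hk H hw
      exact ⟨a, a0, n, fun _ => ha⟩
    · exact ⟨1, by simp, 0, fun h => absurd h hw⟩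
  choose hh h0 nn hb using h1
  have h2 := fun i : M.κ => fin_cover ⊥ (M.g i) hh fun w _ _ => h0 w
  choose s hs hc using h2
  refine ⟨Finset.univ.sup fun i => (s i).sup nn, M.mem_JG.2 fun w Θ hw hΘ hI => ?_⟩
  obtain ⟨i, hi⟩ := id hw
  obtain ⟨w1, hw1, hne⟩ := hc i w (fun a ha => by rw [Ideal.mem_bot.1 ha, map_zero]) hi
  have h3 := hb w1 ⟨i, (hs i w1 hw1).2⟩ w Θ hw hΘ hI hne
  have hle : nn w1 ≤ Finset.univ.sup fun i => (s i).sup nn :=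
    (Finset.le_sup (f := nn) hw1).trans
      (Finset.le_sup (f := fun i => (s i).sup nn) (Finset.mem_univ i))
  obtain ⟨d, hd⟩ := Nat.exists_eq_add_of_le hle
  rw [hd, show h ^ (nn w1 + d) * f = h ^ d * (h ^ nn w1 * f) by ring]
  exact Ideal.mul_mem_left _ _ h3

end GM

end Pool.Agent.P.MP_824f38_ag.N
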