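import Pool.Agent.P.MP_824f38_ag.N.MRes
import Pool.Agent.P.MP_824f38_ag.N.TWbl
import Pool.Agent.P.MP_824f38_ag.N.CChart

/-! Row NEC-TPt: principalisation as a descent principle

chart_at: snc_chart with h = h0 * μ k; in Away h (a domain) the σ j are units or coordinates, so σp e = unit * monomial. pt: init and res with I0 = span (range f) on R = U.W, for the closed property Closed.comp b; Triv by chart_at. -/

set_option linter.unusedVariables false
set_option linter.unusedSectionVars false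
set_option linter.style.haveILetI false
set_option linter.dupNamespace false

namespace Pool.Agent.P.MP_824f38_ag.N

section
variable {B : Type} [CommRing B] {n : ℕ}

/-- a unit times a monomial -/
private def pt_mon (z : Fin n → B) (x : B) : Prop :=
  ∃ (c : Fin n → ℕ) (ε : B), IsUnit ε ∧ x = ε * ∏ i, z i ^ c i

private theorem pt_unit (z : Fin n → B) {x : B} (h : IsUnit x) : pt_mon z x :=
  ⟨0, x, h, by simp⟩

private theorem pt_self (z : Fin n → B) (i : Fin n) : pt_mon z (z i) :=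
  ⟨Pi.single i 1, 1, isUnit_one, by
    rw [one_mul, Finset.prod_eq_single i (fun j _ hj => by simp [hj]) (by simp)]
    simp⟩

private theorem pt_mul {z : Fin n → B} {x y : B} (hx : pt_mon z x) (hy : pt_mon z y) :
    pt_mon z (x * y) := by
  obtain ⟨c, ε, hε, rfl⟩ := hx
  obtain ⟨c', ε', hε', rfl⟩ := hy
  refine ⟨c + c', ε * ε', hε.mul hε', ?_⟩
  simp only [Pi.add_apply, pow_add, Finset.prod_mul_distrib]
  ring

private theorem pt_pow {z : Fin n → B} {x : B} (hx : pt_mon z x) (k : ℕ) : pt_mon z (x ^ k) := by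
  induction k with
  | zero => rw [pow_zero]; exact pt_unit z isUnit_one
  | succ k ih => rw [pow_succ]; exact pt_mul ih hx

end

theorem GM.chart_at {R : Type} [CommRing R] [Algebra ℂ R] [IsDomain R] [Algebra.FiniteType ℂ R]
    {I0 : Ideal R} {ν : ℕ} (M : GM R I0 ν) {τ : Type} {f : τ → R} {e : Fin M.m → ℕ}
    {μ : τ → M.S} (W : M.Wk f e μ) {w : M.S →ₐ[ℂ] ℂ} (hw : M.Plus w) {k : τ} (hk : w (μ k) ≠ 0) :
    ∃ h, w h ≠ 0 ∧ IsDomain (Localization.Away h) ∧
      ∃ (z : Fin (ν + M.m) → Localization.Away h) (c : Fin (ν + M.m) → ℕ)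
        (ε : Localization.Away h), Chart z ∧ IsUnit ε ∧
        toAway h (M.ι (f k)) = ε * ∏ i, z i ^ c i ∧
        ∀ k', toAway h (M.ι (f k)) ∣ toAway h (M.ι (f k')) := by
  obtain ⟨h0, hh0, H⟩ := snc_chart M.finDiv (M.loc w hw)
  have hh : w (h0 * μ k) ≠ 0 := by rw [map_mul]; exact mul_ne_zero hh0 hk
  have hne : h0 * μ k ≠ 0 := fun e => hh (by rw [e, map_zero])
  obtain ⟨z, lab, hz, hl, hσ⟩ := H (h0 * μ k) (dvd_mul_right _ _)
  have hu : IsUnit (toAway (h0 * μ k) (μ k)) :=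
    isUnit_of_dvd_unit (map_dvd (toAway (h0 * μ k)) (dvd_mul_left _ _))
      (IsLocalization.Away.algebraMap_isUnit (S := Localization.Away (h0 * μ k)) (h0 * μ k))
  have key : pt_mon z (toAway (h0 * μ k) (M.ι (f k))) := by
    rw [W.eq, map_mul, GM.σp, map_prod]
    refine pt_mul (pt_unit z hu) (Finset.prod_induction _ (pt_mon z) (fun _ _ => pt_mul)
      (pt_unit z isUnit_one) fun j _ => ?_)
    rw [map_pow]
    refine pt_pow ?_ _
    rcases hσ j with h1 | ⟨i, hi⟩
    · exact pt_unit z h1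
    · rw [← hl i j hi]; exact pt_self z i
  obtain ⟨c, ε, hε, e⟩ := key
  refine ⟨h0 * μ k, hh, IsLocalization.isDomain_localization
    (powers_le_nonZeroDivisors_of_noZeroDivisors hne), z, c, ε, hz, hε, e, fun k' => ?_⟩
  rw [W.eq, W.eq, map_mul, map_mul]
  exact mul_dvd_mul hu.dvd dvd_rfl

theorem pt {U : Type} [CommRing U] [Algebra ℂ U] {𝒯 : Prp U} (H : Closed 𝒯) (W : DCh)
    (b : U →ₐ[ℂ] W.W) {τ : Type} (f : τ → W.W) (hf : ∃ t, f t ≠ 0)
    (h : ∀ (W' : DCh) (φ : W.W →ₐ[ℂ] W'.W), Function.Injective φ →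
      (∃ (k : τ) (c : Fin W'.N → ℕ) (ε : W'.W), IsUnit ε ∧ φ (f k) = ε * ∏ i, W'.y i ^ c i ∧
        ∀ k', φ (f k) ∣ φ (f k')) → 𝒯 W'.W (φ.comp b)) : 𝒯 W.W b := by
  obtain ⟨M0, h0⟩ := GM.init (Ideal.span (Set.range f)) W.N fun w => ⟨_, W.chart.lc w⟩
  obtain ⟨M, hM, e, μ, hW, hμ⟩ := M0.res f hf Ideal.le_radical
  refine h0 _ (H.comp b) (hM.desc _ (H.comp b) fun w hw => ?_)
  obtain ⟨k, hk⟩ := hμ w hw
  obtain ⟨g, hg, hd, z, c, ε, hz, hε, e1, e2⟩ := M.chart_at hW hw hk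
  have hne : g ≠ 0 := fun e => hg (by rw [e, map_zero])
  haveI := hd
  haveI := ft_away g
  exact ⟨g, hg, h ⟨Localization.Away g, _, z, hz⟩ ((toAway g).comp M.ι)
    ((IsLocalization.injective (Localization.Away g)
      (powers_le_nonZeroDivisors_of_noZeroDivisors hne)).comp M.ι_injective)
    ⟨k, c, ε, hε, e1, e2⟩⟩

end Pool.Agent.P.MP_824f38_ag.N
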