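import Pool.Agent.P.MP_824f38_ag.N.MModel
import Pool.Agent.P.MP_824f38_ag.N.TPt

/-! Row NEC-MLu: local uniformisation

Replace A by its image R' = y.range (a domain, y injective). model for generators f of the image of 𝔪 and 𝔥 = ⊤; prop gives φ : S → V with φ (g i) a unit; μ k ∣ g i ^ n. Let 𝔮 = φ⁻¹ (maximal ideal), a prime without g i; exists_pt_of_notMem gives w; chart_at gives h with w h ≠ 0, so φ h is a unit and φ extends to W = Away h. -/

set_option linter.unusedVariables false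
set_option linter.unusedSectionVars false
set_option linter.style.haveILetI false
set_option linter.dupNamespace false

namespace Pool.Agent.P.MP_824f38_ag.N

theorem loc_unif {A : Type} [CommRing A] [Algebra ℂ A] [Algebra.FiniteType ℂ A] {V : Type}
    [CommRing V] [IsDomain V] [ValuationRing V] [Algebra ℂ V] (hV : RootClosed V) (y : A →ₐ[ℂ] V)
    (𝔪 : Ideal A) (h : ∃ a ∈ 𝔪, y a ≠ 0) : ∃ (W : DCh) (φ : A →ₐ[ℂ] W.W) (y' : W.W →ₐ[ℂ] V),
      y'.comp φ = y ∧ ∃ c : Fin W.N → ℕ,
        𝔪.map (φ : A →+* W.W) = Ideal.span {∏ i, W.y i ^ c i} := by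
  classical
  let π : A →ₐ[ℂ] y.range := y.rangeRestrict
  have hπ : Function.Surjective π := y.rangeRestrict_surjective
  haveI : Algebra.FiniteType ℂ y.range := Algebra.FiniteType.of_surjective π hπ
  haveI : IsNoetherianRing y.range := Algebra.FiniteType.isNoetherianRing ℂ y.range
  obtain ⟨n0, f, hf⟩ := Submodule.fg_iff_exists_fin_generating_family.1
    (IsNoetherian.noetherian (𝔪.map (π : A →+* y.range)))
  have hf' : Ideal.span (Set.range f) = 𝔪.map (π : A →+* y.range) := hf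
  have hne : ∃ t, f t ≠ 0 := by
    by_contra hcon
    push Not at hcon
    obtain ⟨a, ha, ha0⟩ := h
    have h1 : (π : A →+* y.range) a ∈ Ideal.span (Set.range f) := by
      rw [hf']; exact Ideal.mem_map_of_mem _ ha
    have h2 : Ideal.span (Set.range f) = ⊥ := by
      rw [Ideal.span_eq_bot]
      rintro _ ⟨t, rfl⟩
      exact hcon t
    rw [h2, Ideal.mem_bot] at h1
    exact ha0 (congrArg Subtype.val h1)
  obtain ⟨h0, ν, hh0, -, M, c, μ, F⟩ := GM.model f hne (𝔥 := ⊤) top_ne_bot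
  obtain ⟨t0, ht0⟩ := hne
  obtain ⟨φ, hφ, -, i, hi⟩ := M.prop V hV y.range.val ⟨1 * (h0 * f t0),
    Ideal.mul_mem_mul Submodule.mem_top (Ideal.mul_mem_mul (Ideal.mem_span_singleton_self h0)
      (Ideal.subset_span ⟨t0, rfl⟩)), by
        rw [one_mul]
        exact fun e => mul_ne_zero hh0 ht0 (Subtype.ext e)⟩
  obtain ⟨k, n, hkn⟩ := F.unit i
  let 𝔮 : Ideal M.S := (IsLocalRing.maximalIdeal V).comap (φ : M.S →+* V)
  haveI : 𝔮.IsPrime := Ideal.comap_isPrime _ _
  have hq : ∀ s, s ∉ 𝔮 ↔ IsUnit (φ s) := fun s => by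
    change ¬ (φ s ∈ IsLocalRing.maximalIdeal V) ↔ _
    rw [IsLocalRing.mem_maximalIdeal, mem_nonunits_iff, not_not]
  obtain ⟨w, hw𝔮, hwg⟩ := exists_pt_of_notMem ((hq _).2 hi)
  have hwk : w (μ k) ≠ 0 := by
    intro e
    obtain ⟨b, hb⟩ := hkn
    exact pow_ne_zero n hwg (by rw [← map_pow, hb, map_mul, e, zero_mul])
  obtain ⟨h', hwh, hdom, z, c', ε, hz, hε, hk1, hk2⟩ := M.chart_at F.wk ⟨i, hwg⟩ hwk
  have hu : IsUnit (φ h') := (hq _).1 fun e => hwh (hw𝔮 _ e)
  haveI := hdom
  haveI : Algebra.FiniteType ℂ (Localization.Away h') := ft_away h'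
  let y' : Localization.Away h' →ₐ[ℂ] V :=
    IsLocalization.liftAlgHom (M := Submonoid.powers h') (f := φ) (by
      rintro ⟨_, m, rfl⟩
      simpa using hu.pow m)
  have hy' : ∀ s, y' (toAway h' s) = φ s := fun s =>
    IsLocalization.lift_eq (M := Submonoid.powers h') (S := Localization.Away h') _ s
  refine ⟨⟨Localization.Away h', ν + M.m, z, hz⟩, ((toAway h').comp M.ι).comp π, y', ?_, c', ?_⟩
  · ext a
    change y' (toAway h' (M.ι (π a))) = y a
    rw [hy']
    exact DFunLike.congr_fun hφ (π a)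
  · have e1 : (((toAway h').comp M.ι).comp π : A →+* Localization.Away h') =
        (((toAway h').comp M.ι : y.range →ₐ[ℂ] Localization.Away h') :
          y.range →+* Localization.Away h').comp (π : A →+* y.range) := rfl
    change 𝔪.map (((toAway h').comp M.ι).comp π : A →+* Localization.Away h') =
      Ideal.span {∏ i, z i ^ c' i}
    rw [e1, ← Ideal.map_map, ← hf', Ideal.map_span, ← Ideal.span_singleton_mul_left_unit hε, ← hk1]
    refine le_antisymm (Ideal.span_le.2 ?_) (Ideal.span_mono ?_)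
    · rintro _ ⟨_, ⟨t, rfl⟩, rfl⟩
      exact Ideal.mem_span_singleton.2 (hk2 t)
    · rintro _ rfl
      exact ⟨f k, ⟨k, rfl⟩, rfl⟩

end Pool.Agent.P.MP_824f38_ag.N
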