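import Pool.Agent.P.MP_824f38_ag.N.MGenPt
import Pool.Agent.P.MP_824f38_ag.N.MJg
import Pool.Agent.P.MP_824f38_ag.N.LPrime

/-! Row NEC-MStrict: the strict transform is a model

Let 𝔮 be the kernel of Θ = mapRingHom (π ∘ ψ) ∘ ρ : S → B[Dg m] (a domain), S' = S / 𝔮, with ρ' from exists_coQuot, ψ' induced by π ∘ ψ, ι' induced by ι. prop: lift x ∘ π by M.prop; rel shows that φ kills the homogeneous elements of 𝔮.
loc: let w kill 𝔮, w (g i) ≠ 0. If w had not invariant unitInv c, take h' from jg_off and a point that kills 𝔮 with h' g i ι h σp 1 ≠ 0 (exists_pt_of_notMem), contradicting gen_pt. So unit_eq applies; sat (span of the first c coordinates) is prime (sat_prime), does not contain σ j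
(nonvanishing at w, or a labelled coordinate, notMem_sat_span), and contains 𝔮 by rel; span μ ≤ 𝔮. snc_quot. -/

set_option linter.unusedVariables false
set_option linter.unusedSectionVars false
set_option linter.style.haveILetI false
set_option linter.dupNamespace false

namespace Pool.Agent.P.MP_824f38_ag.N

open V (Dg Hg IsCo pr Pk)

variable {R : Type} [CommRing R] [Algebra ℂ R] [IsDomain R] [Algebra.FiniteType ℂ R]
  {I0 : Ideal R} {ν : ℕ} (M : GM R I0 ν)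

namespace GM

section Aux

variable {B : Type} [CommRing B] [IsDomain B] [Algebra ℂ B] (π : R →ₐ[ℂ] B)

/-- the homogeneous ideal of the strict transform -/
noncomputable def strictQ : Ideal M.S :=
  RingHom.ker ((AddMonoidAlgebra.mapRingHom (Dg M.m) ((π.comp M.ψ : M.S →ₐ[ℂ] B) : M.S →+* B)).comp
    M.ρ)

theorem strictQ_prime : (M.strictQ π).IsPrime := RingHom.ker_isPrime _

theorem mem_strictQ {x : M.S} : x ∈ M.strictQ π ↔ ∀ l, π (M.ψ (pr M.ρ l x)) = 0 := by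
  rw [strictQ, RingHom.mem_ker, RingHom.comp_apply]
  constructor
  · intro h l
    have := congrArg (fun z : AddMonoidAlgebra B (Dg M.m) => z.coeff l) h
    simp only [AddMonoidAlgebra.coeff_mapRingHom] at this
    exact this
  · intro h
    ext l
    rw [AddMonoidAlgebra.coeff_mapRingHom]
    exact h l

theorem mem_strictQ_hom {l : Dg M.m} {s : M.S} (hs : s ∈ M.H l) :
    s ∈ M.strictQ π ↔ π (M.ψ s) = 0 := by
  rw [mem_strictQ]
  constructor
  · intro h
    have := h l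
    rwa [V.pr_of_mem hs] at this
  · intro h l'
    by_cases e : l = l'
    · subst e; rwa [V.pr_of_mem hs]
    · rw [V.pr_of_ne hs e, map_zero, map_zero]

theorem strictQ_pr {x : M.S} (hx : x ∈ M.strictQ π) (l : Dg M.m) :
    pr M.ρ l x ∈ M.strictQ π :=
  (M.mem_strictQ_hom π (M.co.pr_mem l x)).2 ((M.mem_strictQ π).1 hx l)

theorem strictQ_le {J : Ideal M.S} (h : ∀ l, ∀ s ∈ M.H l, π (M.ψ s) = 0 → s ∈ J) :
    M.strictQ π ≤ J := by
  intro x hx
  obtain ⟨t, ht⟩ := M.co.exists_sum x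
  rw [← ht t (Finset.Subset.refl t)]
  exact Ideal.sum_mem _ fun l _ => h l _ (M.co.pr_mem l x) ((M.mem_strictQ π).1 hx l)

theorem strictQ_ψ {x : M.S} (hx : x ∈ M.strictQ π) : π (M.ψ x) = 0 :=
  M.strictQ_le π (J := RingHom.ker (π.comp M.ψ)) (fun _ _ _ h => h) hx

theorem ι_mem_strictQ {r : R} : M.ι r ∈ M.strictQ π ↔ π r = 0 := by
  rw [M.mem_strictQ_hom π (M.hι r), M.ψι]

theorem strictQ_le_prime {J : Ideal M.S} (hJ : J.IsPrime) (h1 : ∀ j : Fin M.m, M.σ j ∉ J)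
    (h2 : ∀ r, π r = 0 → M.ι r ∈ J) : M.strictQ π ≤ J := by
  refine M.strictQ_le π fun l s hs h0 => ?_
  have h3 : s * M.σp (fun j => (l j).toNat) ∈ J := by
    rw [M.rel hs]
    exact J.mul_mem_left _ (h2 _ h0)
  refine (hJ.mem_or_mem h3).resolve_right fun h4 => ?_
  rw [σp, Ideal.IsPrime.prod_mem_iff] at h4
  obtain ⟨j, _, hj⟩ := h4
  exact h1 j (hJ.mem_of_pow_mem _ hj)

theorem strict_hasInv {c : ℕ} {p : Fin c → R}
    {D : Fin c → Derivation ℂ R R} {h : R} (G : GenData (RingHom.ker π) p D h) {τ : Type}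
    {f : τ → R} (hf : Ideal.span (Set.range f) = RingHom.ker π) {e : Fin M.m → ℕ} {μ : τ → M.S}
    (W : M.Wk f e μ) (hk : M.IsMax (Ideal.span (Set.range μ)) (unitInv c))
    {w : M.S →ₐ[ℂ] ℂ} (hw : M.Plus w) (hq : ∀ x ∈ M.strictQ π, w x = 0) :
    M.HasInv (Ideal.span (Set.range μ)) w (unitInv c) := by
  by_contra hn
  obtain ⟨h', h0, hh'⟩ := M.jg_off hk hw hn
  obtain ⟨i, hi⟩ := hw
  haveI := M.strictQ_prime π
  have hF : h' * M.g i * M.ι h * M.σp (fun _ => 1) ∉ M.strictQ π := by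
    intro hF
    rcases (M.strictQ_prime π).mem_or_mem hF with hF | hF
    · rcases (M.strictQ_prime π).mem_or_mem hF with hF | hF
      · rcases (M.strictQ_prime π).mem_or_mem hF with hF | hF
        · exact h0 (hq _ hF)
        · exact hi (hq _ hF)
      · exact G.notMem ((M.ι_mem_strictQ π).1 hF)
    · have := M.strictQ_ψ π hF
      rw [M.ψ_σp, map_one] at this
      exact one_ne_zero this
  obtain ⟨w', k1, k2⟩ := exists_pt_of_notMem hF
  simp only [map_mul, mul_ne_zero_iff] at k2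
  obtain ⟨⟨⟨m1, m2⟩, m3⟩, m4⟩ := k2
  refine hh' w' m1 (M.gen_pt G hf W ⟨i, m2⟩
    (fun a ha => k1 _ ((M.ι_mem_strictQ π).2 ha)) m3 fun j => ?_)
  by_cases hj : j < M.m
  · rw [σp, map_prod, Finset.prod_ne_zero_iff] at m4
    have := m4 ⟨j, hj⟩ (Finset.mem_univ _)
    rwa [pow_one] at this
  · rw [M.σ_one j (not_lt.1 hj), map_one]
    exact one_ne_zero

theorem strict_loc {c : ℕ} (hc : c ≤ ν) {p : Fin c → R}
    {D : Fin c → Derivation ℂ R R} {h : R} (G : GenData (RingHom.ker π) p D h) {τ : Type}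
    {f : τ → R} (hf : Ideal.span (Set.range f) = RingHom.ker π) {e : Fin M.m → ℕ} {μ : τ → M.S}
    (W : M.Wk f e μ) (hk : M.IsMax (Ideal.span (Set.range μ)) (unitInv c))
    (w' : (M.S ⧸ M.strictQ π) →ₐ[ℂ] ℂ)
    (hw : M.Plus (w'.comp (Ideal.Quotient.mkₐ ℂ (M.strictQ π)))) :
    Snc (fun j => Ideal.Quotient.mkₐ ℂ (M.strictQ π) (M.σ j)) w' (ν - c + M.m) := by
  classical
  have hker : RingHom.ker (Ideal.Quotient.mkₐ ℂ (M.strictQ π)) = M.strictQ π := Ideal.mk_ker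
  generalize hwdef : w'.comp (Ideal.Quotient.mkₐ ℂ (M.strictQ π)) = w at hw
  have hq : ∀ x ∈ M.strictQ π, w x = 0 := by
    intro x hx
    rw [← hwdef, AlgHom.comp_apply, Ideal.Quotient.mkₐ_eq_mk, Ideal.Quotient.eq_zero_iff_mem.2 hx,
      map_zero]
  obtain ⟨_, Γ, hN, hΓ, hinv⟩ := M.strict_hasInv π G hf W hk hw hq
  obtain ⟨u1, u2, _, u4⟩ := unit_eq hΓ hinv
  have hP : ((Finset.univ.filter fun i : Fin Γ.N => (i : ℕ) < c : Finset (Fin Γ.N)) :
      Set (Fin Γ.N)) = {i : Fin Γ.N | (i : ℕ) < c} := by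
    ext i; simp
  have hcard : (Finset.univ.filter fun i : Fin Γ.N => (i : ℕ) < c).card = c := by
    rw [Fin.card_filter_val_lt, min_eq_right u1]
  have hI : Ideal.span (Set.range μ) ≤ M.strictQ π := by
    rw [Ideal.span_le]
    rintro _ ⟨k, rfl⟩
    have e1 := congrArg M.ψ (W.eq k)
    rw [M.ψι, map_mul, M.ψ_σp, mul_one] at e1
    refine (M.mem_strictQ_hom π (W.mem k)).2 ?_
    rw [← e1]
    have : f k ∈ RingHom.ker π := hf ▸ Ideal.subset_span ⟨k, rfl⟩
    exact this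
  have hle : M.strictQ π ≤ sat w (Ideal.span (Γ.yF '' {i | (i : ℕ) < c})) := by
    refine M.strictQ_le_prime π (sat_prime hΓ.ctr.lc _) (fun j hj => ?_) fun r hr => ?_
    · by_cases h0 : w (M.σ j) = 0
      · obtain ⟨i, hi⟩ := hΓ.ctr.lab.ex j h0
        rw [← hΓ.ctr.lab.eq i j hi] at hj
        refine notMem_sat_span hΓ.ctr.lc (fun hlt => ?_) hj
        have := u2 i hlt
        change Γ.lab i = _ at hi
        rw [this] at hi
        exact WithBot.bot_ne_coe hi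
      · obtain ⟨a, ha, hm⟩ := hj
        have hs : Ideal.span (Γ.yF '' {i | (i : ℕ) < c}) ≤ RingHom.ker w := by
          rw [Ideal.span_le]
          rintro _ ⟨i, _, rfl⟩
          exact hΓ.ctr.lc.van i
        have := hs hm
        rw [RingHom.mem_ker, map_mul] at this
        exact mul_ne_zero ha h0 this
    · rw [← u4]
      refine le_sat w _ ?_
      have h1 : r ∈ Ideal.span (Set.range f) := by rw [hf]; exact hr
      have h2 : Ideal.span (Set.range f) ≤ (Ideal.span (Set.range μ)).comap M.ι := by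
        rw [Ideal.span_le]
        rintro _ ⟨k, rfl⟩
        change M.ι (f k) ∈ Ideal.span (Set.range μ)
        rw [W.eq k]
        exact Ideal.mul_mem_right _ _ (Ideal.subset_span ⟨k, rfl⟩)
      exact h2 h1
  have key := snc_quot (Ideal.Quotient.mkₐ ℂ (M.strictQ π)) (Ideal.Quotient.mkₐ_surjective ℂ _)
    (w' := w') (σ := M.σ) (y := Γ.yF) (lab := Γ.labF) (hwdef ▸ hΓ.ctr.lc) (hwdef ▸ hΓ.ctr.lab)
    (Finset.univ.filter fun i : Fin Γ.N => (i : ℕ) < c)
    (by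
      rw [hwdef, hker, hP]
      apply le_antisymm (sat_le_sat w hle)
      rw [← u4]
      exact sat_mono w hI)
    (σ' := fun j => Ideal.Quotient.mkₐ ℂ (M.strictQ π) (M.σ j))
    (fun j => Or.inl ⟨rfl, fun i hi hl => by
      have := u2 i (Finset.mem_filter.1 hi).2
      change Γ.lab i = _ at hl
      rw [this] at hl
      exact WithBot.bot_ne_coe hl⟩)
  rw [hcard, Fintype.card_fin, hN] at key
  have e1 : ν + M.m - c = ν - c + M.m := by omega
  rwa [e1] at key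

end Aux

theorem strict {B : Type} [CommRing B] [IsDomain B] [Algebra ℂ B] (π : R →ₐ[ℂ] B)
    (hπ : Function.Surjective π) {c : ℕ} (hc : c ≤ ν) {p : Fin c → R}
    {D : Fin c → Derivation ℂ R R} {h : R} (G : GenData (RingHom.ker π) p D h) {τ : Type}
    {f : τ → R} (hf : Ideal.span (Set.range f) = RingHom.ker π) {e : Fin M.m → ℕ} {μ : τ → M.S}
    (W : M.Wk f e μ) (hk : M.IsMax (Ideal.span (Set.range μ)) (unitInv c)) :
    ∃ M' : GM B (I0.map (π : R →+* B)) (ν - c),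
      ∀ (τ' : Type) (f' : τ' → R), M.Mono f' → M'.Mono fun t => π (f' t) := by
  haveI := M.strictQ_prime π
  obtain ⟨ρ', co', hρ'⟩ := exists_coQuot M.co (Ideal.Quotient.mkₐ ℂ (M.strictQ π))
    (Ideal.Quotient.mkₐ_surjective ℂ _) (fun x hx l =>
      Ideal.Quotient.eq_zero_iff_mem.2 (M.strictQ_pr π (Ideal.Quotient.eq_zero_iff_mem.1 hx) l))
  have hmk : ∀ l, ∀ s ∈ M.H l, Ideal.Quotient.mkₐ ℂ (M.strictQ π) s ∈ Hg ρ' l :=
    fun l s hs => (hρ' l _).2 ⟨s, hs, rfl⟩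
  obtain ⟨ι', hι'⟩ : ∃ ι' : B →ₐ[ℂ] (M.S ⧸ M.strictQ π),
      ∀ r, ι' (π r) = Ideal.Quotient.mkₐ ℂ (M.strictQ π) (M.ι r) :=
    ⟨AlgHom.liftOfSurjective π hπ ((Ideal.Quotient.mkₐ ℂ (M.strictQ π)).comp M.ι)
      (fun r hr => Ideal.Quotient.eq_zero_iff_mem.2 ((M.ι_mem_strictQ π).2 hr)),
      fun r => AlgHom.liftOfSurjective_apply _ _ _ _ r⟩
  have hlift : ∀ {V : Type} [CommRing V] [Algebra ℂ V] (φ : M.S →ₐ[ℂ] V),
      (∀ x ∈ M.strictQ π, φ x = 0) → ∃ φ' : (M.S ⧸ M.strictQ π) →ₐ[ℂ] V,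
        ∀ s, φ' (Ideal.Quotient.mkₐ ℂ (M.strictQ π) s) = φ s :=
    fun φ hφ => ⟨Ideal.Quotient.liftₐ _ φ hφ, fun s => rfl⟩
  obtain ⟨ψ', hψ'⟩ := hlift (π.comp M.ψ) fun x hx => M.strictQ_ψ π hx
  refine ⟨{
    m := M.m
    S := M.S ⧸ M.strictQ π
    ρ := ρ'
    co := co'
    hk := fun z => by
      rw [← (Ideal.Quotient.mkₐ ℂ (M.strictQ π)).commutes]
      exact hmk _ _ (M.hk z)
    σ := fun j => Ideal.Quotient.mkₐ ℂ (M.strictQ π) (M.σ j)
    σ_one := fun j hj => by rw [M.σ_one j hj, map_one]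
    hσ := fun j => hmk _ _ (M.hσ j)
    ι := ι'
    hι := fun b => by
      obtain ⟨r, rfl⟩ := hπ b
      rw [hι']
      exact hmk _ _ (M.hι r)
    ψ := ψ'
    ψι := fun b => by
      obtain ⟨r, rfl⟩ := hπ b
      rw [hι', hψ', AlgHom.comp_apply, M.ψι]
    ψσ := fun j => by rw [hψ', AlgHom.comp_apply, M.ψσ, map_one]
    ψinj := fun l s hs h0 => by
      obtain ⟨s, hs', rfl⟩ := (hρ' l s).1 hs
      rw [hψ'] at h0
      exact Ideal.Quotient.eq_zero_iff_mem.2 ((M.mem_strictQ_hom π hs').2 h0)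
    χ := M.χ
    hχ := M.hχ
    κ := M.κ
    g := fun i => Ideal.Quotient.mkₐ ℂ (M.strictQ π) (M.g i)
    hg := fun i => hmk _ _ (M.hg i)
    loc := fun w hw => M.strict_loc π hc G hf W hk w hw
    unit := by
      obtain ⟨N, hN, hu⟩ := M.unit
      refine ⟨N, hN, fun i l => AddSubgroup.closure_mono ?_ (hu i l)⟩
      rintro d ⟨a, ha, n, hn⟩
      exact ⟨_, hmk _ _ ha, n, by rw [← map_pow]; exact map_dvd _ hn⟩
    prop := fun V _ _ _ _ hV x hx => by
      obtain ⟨a', ha', hxa⟩ := hx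
      obtain ⟨a, ha, rfl⟩ := (Ideal.mem_map_iff_of_surjective (π : R →+* B) hπ).1 ha'
      obtain ⟨φ, k1, k2, i, k3⟩ := M.prop V hV (x.comp π) ⟨a, ha, hxa⟩
      have k4 : ∀ r, φ (M.ι r) = x (π r) := fun r => DFunLike.congr_fun k1 r
      obtain ⟨φ', hφ'⟩ := hlift φ (M.strictQ_le_prime π (J := RingHom.ker φ)
        (RingHom.ker_isPrime φ) (fun j => k2 j) fun r hr => by
          rw [RingHom.mem_ker, k4, hr, map_zero])
      refine ⟨φ', AlgHom.ext fun b => ?_, fun j => ?_, i, ?_⟩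
      · obtain ⟨r, rfl⟩ := hπ b
        rw [AlgHom.comp_apply, hι', hφ', k4]
      · rw [hφ']; exact k2 j
      · rw [hφ']; exact k3
    rad := fun w hw j hj a' ha' => by
      obtain ⟨a, ha, rfl⟩ := (Ideal.mem_map_iff_of_surjective (π : R →+* B) hπ).1 ha'
      have := M.rad (w.comp (Ideal.Quotient.mkₐ ℂ (M.strictQ π))) hw j hj a ha
      change w (ι' (π a)) = 0
      rw [hι']
      exact this }, ?_⟩
  rintro τ' f' ⟨e', μ', W', hμ'⟩
  refine ⟨e', fun k => Ideal.Quotient.mkₐ ℂ (M.strictQ π) (μ' k), ⟨fun k => ?_, fun k => ?_⟩,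
    fun w hw => hμ' (w.comp (Ideal.Quotient.mkₐ ℂ (M.strictQ π))) hw⟩
  · change ι' (π (f' k)) = Ideal.Quotient.mkₐ ℂ (M.strictQ π) (μ' k) *
      ∏ j : Fin M.m, Ideal.Quotient.mkₐ ℂ (M.strictQ π) (M.σ j) ^ e' j
    rw [hι', W'.eq k, map_mul, σp, map_prod]
    simp only [map_pow]
  · exact hmk _ _ (W'.mem k)

end GM

end Pool.Agent.P.MP_824f38_ag.N
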