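import Pool.Agent.P.MP_824f38_ag.N.MRes3
import Pool.Agent.P.MP_824f38_ag.N.MStrict
import Pool.Agent.P.MP_824f38_ag.N.CChart

/-! Row NEC-MModel: existence of final models

refine: adjust for the constant family b = dg e gives N, κ, a i; new charts g' (i,k) = a i * μ k ^ N of degree κ χ, keeping only the nonzero ones; Plus is unchanged. prop: pow_mem_span and locality of V give a unit φ (μ k).
model: π : P = MvPolynomial (Fin ν) ℂ → R onto; gen_smooth; I0 = comap 𝔥 * (h) * span f~ (f~ lifts of f); init (chart_poly, Chart.lc), res for f~, res for a finite generating family of I0, res3, strict, refine. I0.map π = 𝔥 * (π h) * span f. -/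

set_option linter.unusedVariables false
set_option linter.unusedSectionVars false
set_option linter.style.haveILetI false
set_option linter.dupNamespace false

namespace Pool.Agent.P.MP_824f38_ag.N

open V (Dg Hg IsCo pr Pk)

variable {R : Type} [CommRing R] [Algebra ℂ R] [IsDomain R] [Algebra.FiniteType ℂ R]
  {I0 : Ideal R} {ν : ℕ} (M : GM R I0 ν)

namespace GM

private theorem md_unit {τ : Type} {μ : τ → M.S} (hμ : ∀ w, M.Plus w → ∃ k, w (μ k) ≠ 0)
    {a : M.κ → M.S} (h1 : ∀ i, M.g i ∣ a i) (h2 : ∀ i, ∃ n : ℕ, a i ∣ M.g i ^ n) (N : ℕ)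
    (V : Type) [CommRing V] [IsLocalRing V] [Algebra ℂ V] (φ : M.S →ₐ[ℂ] V) :
    (∃ p : {p : M.κ × τ // a p.1 * μ p.2 ^ N ≠ 0}, IsUnit (φ (a p.1.1 * μ p.1.2 ^ N))) ↔
      ∃ i, IsUnit (φ (M.g i)) := by
  constructor
  · rintro ⟨p, hp⟩
    exact ⟨p.1.1, isUnit_of_dvd_unit (map_dvd φ ((h1 _).mul_right _)) hp⟩
  · rintro ⟨i, hi⟩
    obtain ⟨n, hn⟩ := M.pow_mem_span hμ i
    obtain ⟨k, hk⟩ : ∃ k, IsUnit (φ (μ k)) := by
      by_contra hc
      have h3 : Ideal.span (Set.range μ) ≤ (IsLocalRing.maximalIdeal V).comap φ := by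
        rw [Ideal.span_le]
        rintro _ ⟨k, rfl⟩
        exact fun hu => hc ⟨k, hu⟩
      have h4 : ¬ IsUnit (φ (M.g i ^ n)) := h3 hn
      exact h4 (by rw [map_pow]; exact hi.pow n)
    obtain ⟨n', hn'⟩ := h2 i
    have h5 : IsUnit (φ (a i * μ k ^ N)) := by
      rw [map_mul, map_pow]
      exact (isUnit_of_dvd_unit (map_dvd φ hn') (by rw [map_pow]; exact hi.pow n')).mul (hk.pow N)
    refine ⟨⟨(i, k), fun h0 => ?_⟩, h5⟩
    have h6 : a i * μ k ^ N = 0 := h0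
    rw [h6, map_zero] at h5
    exact not_isUnit_zero h5

theorem refine {τ : Type} [Finite τ] {f : τ → R} (h : M.Mono f) {N : ℕ} {f0 : Fin N → R}
    (h0 : Ideal.span (Set.range f0) = I0) (h1 : M.Mono f0) :
    ∃ (M' : GM R I0 ν) (c : Fin M'.m → ℕ) (μ : τ → M'.S), M'.Fin' f c μ := by
  classical
  obtain ⟨e, μ, W, hμ⟩ := h
  obtain ⟨e0, μ0, W0, hμ0⟩ := h1
  obtain ⟨N', κ, hN, hκ, ha⟩ := M.adjust (τ := Unit) fun _ => M.dg e
  choose a a1 a2 a3 using fun i => ha i ()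
  have key := M.md_unit hμ a2 a3 N'
  have plus : ∀ w : M.S →ₐ[ℂ] ℂ,
      (∃ p : {p : M.κ × τ // a p.1 * μ p.2 ^ N' ≠ 0}, w (a p.1.1 * μ p.1.2 ^ N') ≠ 0) →
        M.Plus w := by
    rintro w ⟨p, hp⟩
    obtain ⟨i, hi⟩ := (key ℂ w).1 ⟨p, hp.isUnit⟩
    exact ⟨i, hi.ne_zero⟩
  let M' : GM R I0 ν :=
    { M with
      χ := κ • M.χ
      hχ := fun j => by
        have h3 := M.hχ j
        have h4 : (1 : ℤ) ≤ κ := by exact_mod_cast hκ
        rw [Pi.smul_apply, nsmul_eq_mul]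
        nlinarith
      κ := {p : M.κ × τ // a p.1 * μ p.2 ^ N' ≠ 0}
      fin := Fintype.ofFinite _
      g := fun p => a p.1.1 * μ p.1.2 ^ N'
      hg := fun p => V.Hg_cast (V.Hg_mul (a1 _) (V.Hg_pow (W.mem _) N')) (sub_add_cancel _ _)
      loc := fun w hw => M.loc w (plus w hw)
      unit := by
        obtain ⟨M0, h3, h4⟩ := M.unit
        refine ⟨M0, h3, fun p l => AddSubgroup.closure_mono ?_ (h4 p.1.1 l)⟩
        rintro d ⟨b, hb, n, hn⟩
        exact ⟨b, hb, n, hn.trans (pow_dvd_pow_of_dvd ((a2 _).mul_right _) n)⟩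
      prop := fun V _ _ _ _ hV x hx => by
        obtain ⟨φ, h3, h4, h5⟩ := M.prop V hV x hx
        exact ⟨φ, h3, h4, (key V φ).2 h5⟩
      rad := fun w hw => M.rad w (plus w hw) }
  refine ⟨M', e, μ, fun p => p.2, ⟨W.eq, W.mem⟩, fun p => ⟨p.1.2, 1, ?_⟩,
    N, f0, h0, e0, μ0, ⟨W0.eq, W0.mem⟩, fun w hw => hμ0 w (plus w hw)⟩
  rw [pow_one]
  exact (dvd_pow_self _ hN.ne').mul_left _

theorem model {τ : Type} [Finite τ] (f : τ → R) (hf : ∃ t, f t ≠ 0) {𝔥 : Ideal R} (h𝔥 : 𝔥 ≠ ⊥) :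
    ∃ (h : R) (n : ℕ), h ≠ 0 ∧ (∃ t : Fin n → R, AlgebraicIndependent ℂ t) ∧
      ∃ (M : GM R (𝔥 * (Ideal.span {h} * Ideal.span (Set.range f))) n) (c : Fin M.m → ℕ)
        (μ : τ → M.S), M.Fin' f c μ := by
  obtain ⟨ν, π, hπ⟩ := Algebra.FiniteType.iff_quotient_mvPolynomial''.1
    (inferInstance : Algebra.FiniteType ℂ R)
  have H : ∀ w : MvPolynomial (Fin ν) ℂ →ₐ[ℂ] ℂ, ∃ y : Fin ν → MvPolynomial (Fin ν) ℂ, LC w y :=
    fun w => ⟨_, (chart_poly ν).lc w⟩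
  obtain ⟨c, p, D, h, hc, G, ht⟩ := gen_smooth H π hπ
  choose f' hf' using fun t => hπ (f t)
  obtain ⟨J, hJ⟩ : ∃ J : Ideal (MvPolynomial (Fin ν) ℂ),
    J = 𝔥.comap π * (Ideal.span {h} * Ideal.span (Set.range f')) := ⟨_, rfl⟩
  haveI : (RingHom.ker π).IsPrime := RingHom.ker_isPrime π
  have hh : π h ≠ 0 := G.notMem
  have hmap : J.map (π : MvPolynomial (Fin ν) ℂ →+* R) =
      𝔥 * (Ideal.span {π h} * Ideal.span (Set.range f)) := by
    rw [hJ, Ideal.map_mul, Ideal.map_mul, Ideal.map_span, Ideal.map_span, Set.image_singleton,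
      ← Set.range_comp]
    exact congrArg₂ _ (Ideal.map_comap_of_surjective π hπ 𝔥)
      (congrArg (fun g => Ideal.span {π h} * Ideal.span (Set.range g)) (funext hf'))
  obtain ⟨t0, ht0⟩ := hf
  have hJ0 : ¬ J ≤ RingHom.ker π := by
    intro hle
    have h1 : J.map (π : MvPolynomial (Fin ν) ℂ →+* R) = ⊥ :=
      (Ideal.map_eq_bot_iff_le_ker _).2 hle
    rw [hmap, Ideal.mul_eq_bot, Ideal.mul_eq_bot, Ideal.span_singleton_eq_bot,
      Ideal.span_eq_bot] at h1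
    rcases h1 with h1 | h1 | h1
    · exact h𝔥 h1
    · exact hh h1
    · exact ht0 (h1 _ ⟨t0, rfl⟩)
  obtain ⟨N, f0, hf0⟩ := Submodule.fg_iff_exists_fin_generating_family.1
    (IsNoetherian.noetherian (R := MvPolynomial (Fin ν) ℂ) J)
  have hf0' : Ideal.span (Set.range f0) = J := hf0
  obtain ⟨M0, -⟩ := init J ν H
  obtain ⟨M1, -, m1⟩ := M0.res f' ⟨t0, fun e => ht0 (by rw [← hf', e, map_zero])⟩
    (le_trans (by rw [hJ]; exact Ideal.mul_le_right.trans Ideal.mul_le_right) Ideal.le_radical)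
  obtain ⟨M2, r2, m2⟩ := M1.res f0 (by
      by_contra hcon
      refine hJ0 ?_
      rw [← hf0', Ideal.span_le]
      rintro _ ⟨t, rfl⟩
      have : f0 t = 0 := by_contra fun e => hcon ⟨t, e⟩
      rw [this]
      exact zero_mem _)
    (by rw [hf0']; exact Ideal.le_radical)
  have hk : Ideal.span (Set.range (Subtype.val : RingHom.ker π → MvPolynomial (Fin ν) ℂ)) =
      RingHom.ker π := by
    rw [Subtype.range_coe]
    exact Ideal.span_eq _
  obtain ⟨M3, r3, e, μ, W, hmax⟩ := M2.res3 G hk hJ0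
    (by rw [hJ]; exact Ideal.mul_le_right.trans Ideal.mul_le_left)
    (fun t => hf0' ▸ Ideal.subset_span ⟨t, rfl⟩) m2
  obtain ⟨M4, m4⟩ := M3.strict π hπ hc G hk W hmax
  have m5 : M4.Mono f := by
    have := m4 _ f' (r3.mono _ _ (r2.mono _ _ m1))
    rwa [show (fun t => π (f' t)) = f from funext hf'] at this
  refine ⟨π h, ν - c, hh, ht, ?_⟩
  rw [← hmap]
  refine M4.refine m5 (f0 := fun t => π (f0 t)) ?_ (m4 _ f0 (r3.mono _ _ m2))
  rw [← hf0', Ideal.map_span, ← Set.range_comp]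
  rfl

end GM

end Pool.Agent.P.MP_824f38_ag.N
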