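import Pool.Agent.P.MP_824f38_ag.N.MCo
import Pool.Agent.P.MP_824f38_ag.N.BSnc

/-! Row NEC-MProp: valuation rings lift to the blow-up

bl_prop: take φ from M.prop. The ideals 𝓙 l are finitely generated; choose roots r t ^ (l t) = φ (f t) of the generators and t0 with r t0 dividing all r t (ValuationRing.dvd_total); r t0 ≠ 0 by cov. bl_lift with s = r t0 gives φ'; s^l φ' (blU f l) = φ f shows that
φ' (blU (f t0) (l t0)) = 1 and φ' (blσ j) ≠ 0. bl_rad: if w' s = 0 then w kills 𝓙 1 (blS_pow_mul) and cov applies. bl_loc: SD.cases with snc_bl_off, snc_bl_on. -/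

set_option linter.unusedVariables false
set_option linter.unusedSectionVars false
set_option linter.style.haveILetI false
set_option linter.dupNamespace false

namespace Pool.Agent.P.MP_824f38_ag.N

open V (Dg Hg IsCo pr Pk)

variable {R : Type} [CommRing R] [Algebra ℂ R] [IsDomain R] [Algebra.FiniteType ℂ R]
  {I0 : Ideal R} {ν : ℕ} (M : GM R I0 ν)

namespace GM

variable {M} {𝓙 : ℕ → Ideal M.S} {L : ℕ} {ω : ℕ → ℕ}

private theorem exists_min_dvd {V τ : Type} [CommRing V] [IsDomain V] [ValuationRing V]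
    (r : τ → V) (T : Finset τ) (hT : T.Nonempty) : ∃ t0 ∈ T, ∀ t ∈ T, r t0 ∣ r t := by
  induction hT using Finset.Nonempty.cons_induction with
  | singleton a => exact ⟨a, Finset.mem_singleton_self a, fun t ht => by
      rw [Finset.mem_singleton.1 ht]⟩
  | cons a T ha hT ih =>
    obtain ⟨t0, h0, h1⟩ := ih
    rcases ValuationRing.dvd_total (r a) (r t0) with h | h
    · refine ⟨a, Finset.mem_cons_self _ _, fun t ht => ?_⟩
      rcases Finset.mem_cons.1 ht with rfl | ht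
      · exact dvd_rfl
      · exact h.trans (h1 t ht)
    · refine ⟨t0, Finset.mem_cons_of_mem h0, fun t ht => ?_⟩
      rcases Finset.mem_cons.1 ht with rfl | ht
      · exact h
      · exact h1 t ht

theorem bl_prop (H : M.SD 𝓙 L ω) (V : Type) [CommRing V] [IsDomain V] [ValuationRing V]
    [Algebra ℂ V] (hV : RootClosed V) (x : R →ₐ[ℂ] V) (hx : ∃ a ∈ I0, x a ≠ 0) :
    ∃ φ : Bl 𝓙 L →ₐ[ℂ] V, (φ.comp (blC 𝓙 L)).comp M.ι = x ∧
      (∀ j, φ (blσ 𝓙 L M.σ M.m ω j) ≠ 0) ∧ (∃ i, IsUnit (φ (blC 𝓙 L (M.g i)))) ∧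
      ∃ (l : ℕ) (f : M.S), 1 ≤ l ∧ l ≤ L ∧ f ∈ 𝓙 l ∧ IsUnit (φ (blU 𝓙 L f l)) := by
  classical
  obtain ⟨φ, hι, hσ, i, hg⟩ := M.prop V hV x hx
  obtain ⟨a, ha, hxa⟩ := hx
  haveI : IsNoetherianRing M.S := Algebra.FiniteType.isNoetherianRing ℂ M.S
  choose G hG using fun l => (IsNoetherian.noetherian (𝓙 l) : (𝓙 l).FG)
  have hr : ∀ t : ℕ × M.S, ∃ z : V, 1 ≤ t.1 → z ^ t.1 = φ t.2 := by
    intro t
    by_cases h : 1 ≤ t.1
    · obtain ⟨z, hz⟩ := hV (φ t.2) t.1 h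
      exact ⟨z, fun _ => hz⟩
    · exact ⟨0, fun h' => absurd h' h⟩
  choose r hr using hr
  obtain ⟨n, hn⟩ := H.cov a ha i
  have hne : φ ((M.ι a * M.g i) ^ n) ≠ 0 := by
    rw [map_pow, map_mul]
    refine pow_ne_zero _ (mul_ne_zero ?_ hg.ne_zero)
    rw [show φ (M.ι a) = x a from AlgHom.congr_fun hι a]
    exact hxa
  let T : Finset (ℕ × M.S) := (Finset.Icc 1 L).biUnion fun l => (G l).image fun f => (l, f)
  have hT : ∀ l f, (l, f) ∈ T ↔ (1 ≤ l ∧ l ≤ L) ∧ f ∈ G l := by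
    intro l f
    simp only [T, Finset.mem_biUnion, Finset.mem_image, Finset.mem_Icc, Prod.mk.injEq]
    exact ⟨fun ⟨l', h1, f', h2, h3, h4⟩ => by subst h3 h4; exact ⟨h1, h2⟩,
      fun ⟨h1, h2⟩ => ⟨l, h1, f, h2, rfl, rfl⟩⟩
  have hTne : T.Nonempty := by
    rcases (G 1).eq_empty_or_nonempty with h | ⟨f, hf⟩
    · exfalso
      have h1 := hG 1
      rw [h, Finset.coe_empty, Submodule.span_empty] at h1
      rw [← h1, Submodule.mem_bot] at hn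
      exact hne (by rw [hn, map_zero])
    · exact ⟨(1, f), (hT 1 f).2 ⟨⟨le_rfl, H.glob.pos⟩, hf⟩⟩
  obtain ⟨⟨l0, f0⟩, h0, hmin⟩ := exists_min_dvd r T hTne
  obtain ⟨⟨h01, h0L⟩, h0G⟩ := (hT l0 f0).1 h0
  have hdvd : ∀ l, 1 ≤ l → l ≤ L → ∀ f ∈ 𝓙 l, r (l0, f0) ^ l ∣ φ f := by
    intro l h1 h2 f hf
    have : 𝓙 l ≤ (Ideal.span {r (l0, f0) ^ l}).comap (φ : M.S →+* V) := by
      rw [← hG l, Submodule.span_le]
      intro f hf
      have h3 := pow_dvd_pow_of_dvd (hmin (l, f) ((hT l f).2 ⟨⟨h1, h2⟩, hf⟩)) l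
      rw [hr (l, f) h1] at h3
      exact Ideal.mem_span_singleton.2 h3
    exact Ideal.mem_span_singleton.1 (this hf)
  have hs : r (l0, f0) ≠ 0 := by
    intro h
    have := hdvd 1 le_rfl H.glob.pos _ hn
    rw [h, pow_one, zero_dvd_iff] at this
    exact hne this
  obtain ⟨ψ, hψ, hψs⟩ := bl_lift φ (mem_nonZeroDivisors_of_ne_zero hs) hdvd
  have hC : ∀ f, ψ (blC 𝓙 L f) = φ f := fun f => AlgHom.congr_fun hψ f
  have hU : ∀ l f, l ≤ L → (l = 0 ∨ f ∈ 𝓙 l) → r (l0, f0) ^ l * ψ (blU 𝓙 L f l) = φ f := by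
    intro l f h1 h2
    rw [← hC, ← blS_pow_mul h1 h2, map_mul, map_pow, hψs]
  have hf0 : f0 ∈ 𝓙 l0 := by
    rw [← hG l0]
    exact Submodule.subset_span h0G
  refine ⟨ψ, by rw [hψ, hι], fun j => ?_, ⟨i, by rw [hC]; exact hg⟩, l0, f0, h01, h0L, hf0, ?_⟩
  · unfold blσ
    split_ifs with h1 h2
    · intro h
      have := hU _ _ (H.glob.ω_le j) (H.glob.σ_mem j)
      rw [h, mul_zero] at this
      exact hσ j this.symm
    · rw [hψs]; exact hs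
    · rw [map_one]; exact one_ne_zero
  · have h1 := hU l0 f0 h0L (Or.inr hf0)
    rw [← hr (l0, f0) h01] at h1
    have h2 : ψ (blU 𝓙 L f0 l0) = 1 :=
      mul_left_cancel₀ (pow_ne_zero l0 hs) (by rw [mul_one]; exact h1)
    rw [h2]
    exact isUnit_one

theorem bl_rad (H : M.SD 𝓙 L ω) (w : Bl 𝓙 L →ₐ[ℂ] ℂ) (hw : M.Plus (w.comp (blC 𝓙 L))) (j : ℕ)
    (h : w (blσ 𝓙 L M.σ M.m ω j) = 0) : ∀ a ∈ I0, w (blC 𝓙 L (M.ι a)) = 0 := by
  intro a ha
  unfold blσ at h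
  split_ifs at h with h1 h2
  · refine M.rad (w.comp (blC 𝓙 L)) hw j ?_ a ha
    change w (blC 𝓙 L (M.σ j)) = 0
    rw [← blS_pow_mul (H.glob.ω_le j) (H.glob.σ_mem j), map_mul, h, mul_zero]
  · obtain ⟨i, hi⟩ := hw
    obtain ⟨n, hn⟩ := H.cov a ha i
    have h3 : w (blC 𝓙 L ((M.ι a * M.g i) ^ n)) = 0 := by
      rw [← blS_pow_mul H.glob.pos (Or.inr hn), map_mul, pow_one, h, zero_mul]
    rw [map_pow, map_pow, map_mul, map_mul] at h3
    exact (mul_eq_zero.1 (pow_eq_zero_iff'.1 h3).1).resolve_right hi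
  · rw [map_one] at h
    exact absurd h one_ne_zero

theorem bl_loc (H : M.SD 𝓙 L ω) (w : Bl 𝓙 L →ₐ[ℂ] ℂ) (hw : M.Plus (w.comp (blC 𝓙 L))) :
    Snc (blσ 𝓙 L M.σ M.m ω) w (ν + (M.m + 1)) := by
  rw [← add_assoc]
  rcases H.cases _ hw with ⟨h, hh, h0⟩ | ⟨Γ, wt, hN, -, hΓ⟩
  · exact snc_bl_off H.glob hh h0 (M.loc _ hw)
  · rw [← hN]
    exact snc_bl_on H.glob hΓ

end GM

end Pool.Agent.P.MP_824f38_ag.N
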