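import Pool.Agent.P.MP_824f38_ag.N.MStep
import Pool.Agent.P.MP_824f38_ag.N.AWf

/-! Row NEC-MRes: principalisation

res: start with wk_zero. If no Plus point kills μ we are done. Otherwise exists_isMax, step; well-founded induction (genInv_wf) on the maximal invariant k for the statement: for all M, e, μ with Wk and IsMax k the conclusion holds.
init: m = 0, S = R, ρ = single 0, σ = 1, g = 1 on Unit; Triv gives 𝒯 R by Closed.zar. -/

set_option linter.unusedVariables false
set_option linter.unusedSectionVars false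
set_option linter.style.haveILetI false
set_option linter.dupNamespace false

namespace Pool.Agent.P.MP_824f38_ag.N

open V (Dg Hg IsCo pr Pk)

variable {R : Type} [CommRing R] [Algebra ℂ R] [IsDomain R] [Algebra.FiniteType ℂ R]
  {I0 : Ideal R} {ν : ℕ} (M : GM R I0 ν)

namespace GM

private theorem pow_eq_zero_iff_of_field {z : ℂ} {n : ℕ} (h : z ^ n = 0) : z = 0 := by
  by_contra h0
  exact pow_ne_zero n h0 h

private theorem kills_I0 {τ : Type} {f : τ → R} (h : I0 ≤ (Ideal.span (Set.range f)).radical)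
    {e : Fin M.m → ℕ} {μ : τ → M.S} (W : M.Wk f e μ) {k : Inv} (w : M.S →ₐ[ℂ] ℂ)
    (hw : M.HasInv (Ideal.span (Set.range μ)) w k) : ∀ a ∈ I0, w (M.ι a) = 0 := by
  obtain ⟨-, Γ, -, hΓ, -⟩ := hw
  intro a ha
  obtain ⟨n, hn⟩ := h ha
  have hle : Ideal.span (Set.range f) ≤ RingHom.ker (w.comp M.ι) := by
    refine Ideal.span_le.2 ?_
    rintro _ ⟨t, rfl⟩
    change w (M.ι (f t)) = 0
    rw [W.eq t, map_mul, hΓ.van _ (Ideal.subset_span ⟨t, rfl⟩), zero_mul]
  have h1 : w (M.ι (a ^ n)) = 0 := hle hn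
  rw [map_pow, map_pow] at h1
  exact pow_eq_zero_iff_of_field h1

private theorem mono_or_max {τ : Type} {f : τ → R} {e : Fin M.m → ℕ} {μ : τ → M.S}
    (W : M.Wk f e μ) : M.Mono f ∨ ∃ k, M.IsMax (Ideal.span (Set.range μ)) k := by
  by_cases h0 : ∀ w, M.Plus w → ∃ k, w (μ k) ≠ 0
  · exact Or.inl ⟨e, μ, W, h0⟩
  · refine Or.inr (M.exists_isMax ?_)
    obtain ⟨w, hw⟩ := not_forall.1 h0
    obtain ⟨hw1, hw2⟩ := Classical.not_imp.1 hw
    refine ⟨w, hw1, fun g hg => ?_⟩
    have hle : Ideal.span (Set.range μ) ≤ RingHom.ker w := by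
      refine Ideal.span_le.2 ?_
      rintro _ ⟨t, rfl⟩
      by_contra ht
      exact hw2 ⟨t, ht⟩
    exact hle hg

theorem res {τ : Type} (f : τ → R) (hf : ∃ t, f t ≠ 0)
    (h : I0 ≤ (Ideal.span (Set.range f)).radical) : ∃ M' : GM R I0 ν, M.Ref M' ∧ M'.Mono f := by
  have key : ∀ k ∈ {k : Inv | GenInv ν k}, ∀ (M : GM R I0 ν) (e : Fin M.m → ℕ) (μ : τ → M.S),
      M.Wk f e μ → M.IsMax (Ideal.span (Set.range μ)) k →
        ∃ M' : GM R I0 ν, M.Ref M' ∧ M'.Mono f := by
    intro k hk
    refine (genInv_wf ν).induction hk (P := fun k => ∀ (M : GM R I0 ν) (e : Fin M.m → ℕ)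
      (μ : τ → M.S), M.Wk f e μ → M.IsMax (Ideal.span (Set.range μ)) k →
        ∃ M' : GM R I0 ν, M.Ref M' ∧ M'.Mono f) ?_
    intro k _ ih M e μ W hmax
    obtain ⟨-, M', hR, e', μ', W', hlt⟩ := M.step W hf hmax (M.kills_I0 h W)
    rcases M'.mono_or_max W' with hm | ⟨k', hk'⟩
    · exact ⟨M', hR, hm⟩
    · have hG := (M'.step W' hf hk' (M'.kills_I0 h W')).1
      obtain ⟨w, hw⟩ := hk'.1
      obtain ⟨M'', hR', hm⟩ := ih k' hG (hlt w k' hw) M' e' μ' W' hk'
      exact ⟨M'', hR.trans hR', hm⟩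
  rcases M.mono_or_max (M.wk_zero f) with hm | ⟨k, hk⟩
  · exact ⟨M, Ref.refl M, hm⟩
  · exact key k (M.step (M.wk_zero f) hf hk (M.kills_I0 h (M.wk_zero f))).1 M _ _ (M.wk_zero f) hk

theorem init (I0 : Ideal R) (ν : ℕ) (h : ∀ w : R →ₐ[ℂ] ℂ, ∃ y : Fin ν → R, LC w y) :
    ∃ M : GM R I0 ν, ∀ 𝒯 : Prp R, Closed 𝒯 → M.Triv 𝒯 → 𝒯 R (AlgHom.id ℂ R) := by
  have hall : ∀ (l : Dg 0) (r : R),
      r ∈ Hg (AddMonoidAlgebra.singleZeroRingHom : R →+* AddMonoidAlgebra R (Dg 0)) l := by
    intro l r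
    rw [Subsingleton.elim l 0]
    exact V.mem_Hg.2 rfl
  refine ⟨{ m := 0
            S := R
            ρ := AddMonoidAlgebra.singleZeroRingHom
            co := fun x => AddSubgroup.subset_closure ⟨0, hall 0 x⟩
            hk := fun c => hall _ _
            σ := fun _ => 1
            σ_one := fun _ _ => rfl
            hσ := fun j => hall _ _
            ι := AlgHom.id ℂ R
            hι := fun r => hall _ _
            ψ := AlgHom.id ℂ R
            ψι := fun _ => rfl
            ψσ := fun _ => rfl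
            ψinj := fun _ _ _ h => h
            χ := 0
            hχ := fun j => j.elim0
            κ := Unit
            g := fun _ => 1
            hg := fun _ => hall _ _
            loc := fun w _ => by
              obtain ⟨y, hy⟩ := h w
              exact Snc.of_lc hy
            unit := ⟨1, Nat.one_pos, fun i l => by
              rw [Subsingleton.elim (1 • l) 0]
              exact zero_mem _⟩
            prop := fun V _ _ _ _ _ x _ =>
              ⟨x, rfl, fun j => by rw [map_one]; exact one_ne_zero, (), by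
                rw [map_one]; exact isUnit_one⟩
            rad := fun w _ j hj => by
              rw [map_one] at hj
              exact absurd hj one_ne_zero }, fun 𝒯 hT ht => ?_⟩
  refine hT.zar R (AlgHom.id ℂ R) (fun w => ?_) fun w => ?_
  · obtain ⟨y, hy⟩ := h w
    exact ⟨ν, y, hy⟩
  · exact ht w ⟨(), by
      change w 1 ≠ 0
      rw [map_one]; exact one_ne_zero⟩

end GM

end Pool.Agent.P.MP_824f38_ag.N
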