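import Pool.Agent.P.MP_824f38_ag.N.MGenPt
import Pool.Agent.P.MP_824f38_ag.N.MRes

/-! Row NEC-MRes3: embedded resolution: stop at the strict transform

Well-founded induction as in res, carrying Mono f0 along Ref. exists_gen_pt and gen_pt show that the maximal invariant k exists and is ≥ unitInv c. If k = unitInv c stop. Otherwise f ≠ 0 (else 𝔭 = ⊥, c = 0 by GenData.dual, and le_unitInv_zero),
and a point w with invariant k has w (σ j) = 0 for some j (otherwise Mono f0 gives w (ι (f0 t)) ≠ 0, so w (ι h) ≠ 0 and gen_pt contradicts HasInv.unique); rad gives hZ; step. For the start of the induction GenInv comes from step. -/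

set_option linter.unusedVariables false
set_option linter.unusedSectionVars false
set_option linter.style.haveILetI false
set_option linter.dupNamespace false

namespace Pool.Agent.P.MP_824f38_ag.N

open V (Dg Hg IsCo pr Pk)

variable {R : Type} [CommRing R] [Algebra ℂ R] [IsDomain R] [Algebra.FiniteType ℂ R]
  {I0 : Ideal R} {ν : ℕ} (M : GM R I0 ν)

namespace GM

theorem res3_van {I : Ideal M.S} {w : M.S →ₐ[ℂ] ℂ} {k : Inv} (hw : M.HasInv I w k) :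
    ∀ x ∈ I, w x = 0 := by
  obtain ⟨-, Γ, -, hΓ, -⟩ := hw
  exact fun x hx => sat_JJ_van hΓ.ctr.lc.van Γ.cF one_pos (hΓ.adm hx)

theorem res3_max {𝔭 : Ideal R} [𝔭.IsPrime] {c : ℕ} {p : Fin c → R}
    {D : Fin c → Derivation ℂ R R} {h : R} (G : GenData 𝔭 p D h) {τ : Type} {f : τ → R}
    (hf : Ideal.span (Set.range f) = 𝔭) (h0 : ¬ I0 ≤ 𝔭) {e : Fin M.m → ℕ} {μ : τ → M.S}
    (W : M.Wk f e μ) : ∃ k, M.IsMax (Ideal.span (Set.range μ)) k ∧ unitInv c ≤ k := by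
  obtain ⟨w, hw, a1, a2, a3⟩ := M.exists_gen_pt h0 G.notMem
  have hi := M.gen_pt G hf W hw a1 a2 a3
  obtain ⟨k, hk⟩ := M.exists_isMax ⟨w, hw, M.res3_van hi⟩
  exact ⟨k, hk, hk.2 w _ hi⟩

theorem res3_step {𝔭 : Ideal R} [𝔭.IsPrime] {c : ℕ} {p : Fin c → R}
    {D : Fin c → Derivation ℂ R R} {h : R} (G : GenData 𝔭 p D h) {τ : Type} {f : τ → R}
    (hf : Ideal.span (Set.range f) = 𝔭) (h0 : ¬ I0 ≤ 𝔭) (h1 : I0 ≤ Ideal.span {h}) {τ0 : Type}
    {f0 : τ0 → R} (h2 : ∀ t, f0 t ∈ I0) (h3 : M.Mono f0) {e : Fin M.m → ℕ} {μ : τ → M.S}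
    (W : M.Wk f e μ) {k : Inv} (hk : M.IsMax (Ideal.span (Set.range μ)) k)
    (hne : k ≠ unitInv c) :
    GenInv ν k ∧ ∃ M' : GM R I0 ν, M.Ref M' ∧ ∃ e' μ', M'.Wk f e' μ' ∧
      ∀ w k', M'.HasInv (Ideal.span (Set.range μ')) w k' → k' < k := by
  refine M.step W ?_ hk ?_
  · by_contra hcon
    have hz : ∀ t, f t = 0 := fun t => by
      by_contra ht
      exact hcon ⟨t, ht⟩
    have hb : 𝔭 = ⊥ := by
      rw [← hf, Ideal.span_eq_bot]
      rintro _ ⟨t, rfl⟩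
      exact hz t
    have hc : c = 0 := by
      by_contra hc
      have e1 := G.dual ⟨0, Nat.pos_of_ne_zero hc⟩ ⟨0, Nat.pos_of_ne_zero hc⟩
      have e2 := G.mem ⟨0, Nat.pos_of_ne_zero hc⟩
      rw [hb, Ideal.mem_bot] at e2
      rw [if_pos rfl, e2, map_zero] at e1
      exact G.notMem (e1 ▸ 𝔭.zero_mem)
    obtain ⟨k', hk', hle⟩ := M.res3_max G hf h0 W
    obtain ⟨w', hw'⟩ := hk'.1
    obtain ⟨w, -, Γ, -, hΓ, hinv⟩ := hk.1
    refine hne (le_antisymm ?_ (hle.trans (hk.2 w' k' hw')))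
    rw [← hinv, hc]
    exact le_unitInv_zero hΓ.ctr.sorted
  · intro w hw
    by_cases hσ : ∃ j, w (M.σ j) = 0
    · obtain ⟨j, hj⟩ := hσ
      exact M.rad w hw.1 j hj
    · have hσ' : ∀ j, w (M.σ j) ≠ 0 := fun j hj => hσ ⟨j, hj⟩
      obtain ⟨e0, μ0, W0, hμ⟩ := h3
      obtain ⟨t, ht⟩ := hμ w hw.1
      have a1 : w (M.ι (f0 t)) ≠ 0 := by
        rw [W0.eq, map_mul, σp, map_prod]
        refine mul_ne_zero ht (Finset.prod_ne_zero_iff.2 fun j _ => ?_)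
        rw [map_pow]
        exact pow_ne_zero _ (hσ' j)
      have a2 : w (M.ι h) ≠ 0 := by
        obtain ⟨b, hb⟩ := Ideal.mem_span_singleton'.1 (h1 (h2 t))
        rw [← hb, map_mul, map_mul] at a1
        exact right_ne_zero_of_mul a1
      have a3 : ∀ a ∈ 𝔭, w (M.ι a) = 0 := by
        have : 𝔭 ≤ RingHom.ker (w.comp M.ι) := by
          rw [← hf, Ideal.span_le]
          rintro _ ⟨t, rfl⟩
          change w (M.ι (f t)) = 0
          rw [W.eq, map_mul, M.res3_van hw _ (Ideal.subset_span ⟨t, rfl⟩), zero_mul]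
        exact fun a ha => this ha
      exact absurd (hw.unique (M.gen_pt G hf W hw.1 a3 a2 hσ')) hne

theorem res3 {𝔭 : Ideal R} [𝔭.IsPrime] {c : ℕ} {p : Fin c → R} {D : Fin c → Derivation ℂ R R}
    {h : R} (G : GenData 𝔭 p D h) {τ : Type} {f : τ → R} (hf : Ideal.span (Set.range f) = 𝔭)
    (h0 : ¬ I0 ≤ 𝔭) (h1 : I0 ≤ Ideal.span {h}) {τ0 : Type} {f0 : τ0 → R} (h2 : ∀ t, f0 t ∈ I0)
    (h3 : M.Mono f0) : ∃ M' : GM R I0 ν, M.Ref M' ∧ ∃ e μ, M'.Wk f e μ ∧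
      M'.IsMax (Ideal.span (Set.range μ)) (unitInv c) := by
  have key : ∀ k ∈ {k : Inv | GenInv ν k}, ∀ (M : GM R I0 ν) (e : Fin M.m → ℕ) (μ : τ → M.S),
      M.Wk f e μ → M.Mono f0 → M.IsMax (Ideal.span (Set.range μ)) k →
      ∃ M' : GM R I0 ν, M.Ref M' ∧ ∃ e μ, M'.Wk f e μ ∧
        M'.IsMax (Ideal.span (Set.range μ)) (unitInv c) := by
    intro k hk
    refine (genInv_wf ν).induction hk (P := fun k => ∀ (M : GM R I0 ν) (e : Fin M.m → ℕ)
      (μ : τ → M.S), M.Wk f e μ → M.Mono f0 → M.IsMax (Ideal.span (Set.range μ)) k →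
      ∃ M' : GM R I0 ν, M.Ref M' ∧ ∃ e μ, M'.Wk f e μ ∧
        M'.IsMax (Ideal.span (Set.range μ)) (unitInv c)) ?_
    intro k _ ih M e μ W h3 hk
    by_cases hne : k = unitInv c
    · exact ⟨M, Ref.refl M, e, μ, W, hne ▸ hk⟩
    obtain ⟨-, M', hR, e', μ', W', hlt⟩ := M.res3_step G hf h0 h1 h2 h3 W hk hne
    obtain ⟨k', hk', -⟩ := M'.res3_max G hf h0 W'
    have h3' := hR.mono τ0 f0 h3
    by_cases hne' : k' = unitInv c
    · exact ⟨M', hR, e', μ', W', hne' ▸ hk'⟩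
    obtain ⟨w', hw'⟩ := hk'.1
    obtain ⟨M'', hR', H⟩ := ih k' (M'.res3_step G hf h0 h1 h2 h3' W' hk' hne').1
      (hlt w' k' hw') M' e' μ' W' h3' hk'
    exact ⟨M'', hR.trans hR', H⟩
  have W := M.wk_zero f
  obtain ⟨k, hk, -⟩ := M.res3_max G hf h0 W
  by_cases hne : k = unitInv c
  · exact ⟨M, Ref.refl M, _, _, W, hne ▸ hk⟩
  exact key k (M.res3_step G hf h0 h1 h2 h3 W hk hne).1 M _ _ W h3 hk

end GM

end Pool.Agent.P.MP_824f38_ag.N
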