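import Pool.Agent.P.MP_824f38_ag.N.MBasic
import Pool.Agent.P.MP_824f38_ag.N.VIn
import Pool.Agent.P.MP_824f38_ag.N.CSm

/-! Row NEC-MSm: the charts of a model are smooth over the base

all_sigma: ext_free for the empty system of divisors (Snc.of_lc) with u j = σ j - w (σ j); D j = θ j (exists_euler) if w (σ j) ≠ 0, and otherwise the dual E i of the labelled coordinate corrected by multiples of the θ k with w (σ k) ≠ 0.
Then LC.loc, smooth_base, forms_base and v_chart. -/

set_option linter.unusedVariables false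
set_option linter.unusedSectionVars false
set_option linter.style.haveILetI false
set_option linter.dupNamespace false

namespace Pool.Agent.P.MP_824f38_ag.N

open V (Dg Hg IsCo pr Pk)

variable {R : Type} [CommRing R] [Algebra ℂ R] [IsDomain R] [Algebra.FiniteType ℂ R]
  {I0 : Ideal R} {ν : ℕ} (M : GM R I0 ν)

namespace GM

theorem MSm_der {w : M.S →ₐ[ℂ] ℂ} (hw : M.Plus w) (j : Fin M.m) :
    ∃ D : Derivation ℂ M.S M.S, w (D (M.σ j)) ≠ 0 ∧
      ∀ b : Fin M.m, j ≠ b → w (D (M.σ b)) = 0 := by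
  choose θ hθ using exists_euler M.co M.hk
  have h1 : ∀ a b : Fin M.m, w (θ a (M.σ b)) = if a = b then -w (M.σ b) else 0 := fun a b => by
    rw [hθ a _ _ (M.hσ b), map_zsmul, Pi.neg_apply, Pi.single_apply]
    split_ifs <;> simp
  by_cases h0 : w (M.σ j) = 0
  · obtain ⟨y, lab, L, Lb⟩ := M.loc w hw
    obtain ⟨E, Δ, hΔ, hE⟩ := L.dual
    obtain ⟨i, hi⟩ := Lb.ex j h0
    have h2 : ∀ b : Fin M.m, w ((E i + ∑ k : Fin M.m, (w (E i (M.σ k)) / w (M.σ k)) • θ k)
        (M.σ b)) = w (E i (M.σ b)) - w (E i (M.σ b)) / w (M.σ b) * w (M.σ b) := fun b => by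
      have e : ∀ (D : Fin M.m → Derivation ℂ M.S M.S) (s : M.S), (∑ k, D k) s = ∑ k, D k s :=
        fun D s => (congrFun (map_sum Derivation.coeFnAddMonoidHom D _) s).trans
          (Finset.sum_apply _ _ _)
      simp only [Derivation.add_apply, e, Derivation.smul_apply, map_add,
        map_sum, map_smul, h1, smul_eq_mul, mul_ite, mul_zero, Finset.sum_ite_eq',
        Finset.mem_univ, if_true]
      ring
    refine ⟨E i + ∑ k : Fin M.m, (w (E i (M.σ k)) / w (M.σ k)) • θ k, ?_, fun b hb => ?_⟩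
    · rw [h2, h0, mul_zero, sub_zero, ← Lb.eq i j hi, hE, if_pos rfl]
      exact hΔ
    · rw [h2]
      by_cases hb0 : w (M.σ b) = 0
      · obtain ⟨i', hi'⟩ := Lb.ex b hb0
        rw [hb0, mul_zero, sub_zero, ← Lb.eq i' b hi', hE, if_neg, map_zero]
        rintro rfl
        exact hb (Fin.ext (WithBot.coe_injective (hi.symm.trans hi')))
      · rw [div_mul_cancel₀ _ hb0, sub_self]
  · exact ⟨θ j, by rw [h1, if_pos rfl]; exact neg_ne_zero.2 h0, fun b hb => by rw [h1, if_neg hb]⟩

theorem all_sigma {w : M.S →ₐ[ℂ] ℂ} (hw : M.Plus w) : ∃ y : Fin (ν + M.m) → M.S, LC w y ∧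
    ∀ j : Fin M.m, y (Fin.castLE (Nat.le_add_left _ _) j) =
      M.σ j - algebraMap ℂ M.S (w (M.σ j)) := by
  choose D h1 h2 using M.MSm_der hw
  obtain ⟨y, lab, L, -⟩ := M.loc w hw
  obtain ⟨y', lab', hk, L', -, h⟩ := ext_free (Snc.of_lc L)
    (fun j : Fin M.m => M.σ j - algebraMap ℂ M.S (w (M.σ j))) (fun a => by simp) D
    (fun a => by simpa using h1 a) (fun a b hab => by simpa using h2 a b hab) (by simp)
  exact ⟨y', L', fun j => (h j).1⟩

theorem sm_toMod : M.toMod.Sm ∧ ∀ n, ν ≤ n → M.toMod.Dim n := by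
  have key : ∀ (i : M.κ) (w : Localization.Away (M.g i) →ₐ[ℂ] ℂ),
      ∃ y : Fin (ν + M.m) → Localization.Away (M.g i), LC w y ∧ ∀ j : Fin M.m,
        y (Fin.castLE (Nat.le_add_left _ _) j) =
          algebraMap (MvPolynomial (Fin M.m) ℂ) _ (MvPolynomial.X j) - algebraMap ℂ _
            (w (algebraMap (MvPolynomial (Fin M.m) ℂ) _ (MvPolynomial.X j))) := fun i w => by
    obtain ⟨y, L, h⟩ := M.all_sigma (w := w.comp (toAway (M.g i)))
      ⟨i, ((IsLocalization.Away.algebraMap_isUnit (M.g i)).map w).ne_zero⟩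
    refine ⟨_, LC.loc (Submonoid.powers (M.g i)) L, fun j => ?_⟩
    have e : algebraMap (MvPolynomial (Fin M.m) ℂ) (Localization.Away (M.g i)) (MvPolynomial.X j) =
        algebraMap M.S _ (M.σ j) := by
      rw [IsScalarTower.algebraMap_apply _ M.S]
      exact congrArg _ (M.toMod_σ j)
    rw [h, map_sub, e, ← IsScalarTower.algebraMap_apply]
    rfl
  obtain ⟨h1, h2⟩ := v_chart M.m M.κ M.toMod
  refine ⟨h1 fun i => ?_, fun n hn => h2 n fun i => ?_⟩
  · haveI : Algebra.FiniteType ℂ (Localization.Away (M.g i)) :=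
      .trans (S := M.S) inferInstance inferInstance
    exact smooth_base (Nat.le_add_left _ _) (key i)
  · haveI : Algebra.FiniteType ℂ (Localization.Away (M.g i)) :=
      .trans (S := M.S) inferInstance inferInstance
    exact forms_base (Nat.le_add_left _ _) (key i) (by omega)

end GM

end Pool.Agent.P.MP_824f38_ag.N
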