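import Pool.Agent.P.MP_824f38_ag.N.MGlob
import Pool.Agent.P.MP_824f38_ag.N.MCh
import Pool.Agent.P.MP_824f38_ag.N.MDesc
import Pool.Agent.P.MP_824f38_ag.N.BDrop

/-! Row NEC-MStep: one blow-up

Build M' with S = Bl 𝓙 L, m + 1, ρ' (exists_blCo), σ = blσ, ι = blC ∘ ι, ψ = ψ ∘ ev (bl_lift with s = 1), χ', g' (exists_blCh); BlCh.iff for V = ℂ describes Plus. C (σ j) = blσ j * s^(ω j), so C (σp e) = σp' (snoc e (Σ ω j e j)).
Mono persists with μ' = C μ; the new weak transform is μ' k = blU (μ k) L with e' = snoc e (L + Σ ω j e j); span (range μ') = blI (span (range μ)). The drop is the theorem drop with glob (invariants at other points are ≤ k and ≠ k).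
It may help to prove first exists_bl below. -/

set_option linter.unusedVariables false
set_option linter.unusedSectionVars false
set_option linter.style.haveILetI false
set_option linter.dupNamespace false

namespace Pool.Agent.P.MP_824f38_ag.N

open V (Dg Hg IsCo pr Pk)

variable {R : Type} [CommRing R] [Algebra ℂ R] [IsDomain R] [Algebra.FiniteType ℂ R]
  {I0 : Ideal R} {ν : ℕ} (M : GM R I0 ν)

namespace GM

section Aux

open LaurentPolynomial in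
private theorem ev_eq {A : Type} [CommRing A] [Algebra ℂ A] {𝓙 : ℕ → Ideal A} {L : ℕ}
    (ev : Bl 𝓙 L →ₐ[ℂ] A) (h1 : ev.comp (blC 𝓙 L) = AlgHom.id ℂ A) (h2 : ev (blS 𝓙 L) = 1)
    (x : Bl 𝓙 L) (s : A) (n : ℤ) (hx : (x : A[T;T⁻¹]) = C s * T n) : ev x = s := by
  have hC : ev (blC 𝓙 L s) = s := DFunLike.congr_fun h1 s
  have hS : ∀ k : ℕ, ((blS 𝓙 L ^ k : Bl 𝓙 L) : A[T;T⁻¹]) = T (-(k : ℤ)) := by
    intro k
    rw [SubmonoidClass.coe_pow, blS_val, T_pow]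
    congr 1
    ring
  obtain ⟨k, rfl | rfl⟩ := Int.eq_nat_or_neg n
  · have e : blS 𝓙 L ^ k * x = blC 𝓙 L s := by
      apply Subtype.ext
      rw [MulMemClass.coe_mul, hS, hx, blC_val, mul_left_comm, ← T_add, neg_add_cancel, T_zero,
        mul_one]
    have := congrArg ev e
    rwa [map_mul, map_pow, h2, one_pow, one_mul, hC] at this
  · have e : x = blC 𝓙 L s * blS 𝓙 L ^ k := by
      apply Subtype.ext
      rw [MulMemClass.coe_mul, hS, hx, blC_val]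
    rw [e, map_mul, map_pow, h2, one_pow, mul_one, hC]

private theorem blI_span {A : Type} [CommRing A] [Algebra ℂ A] {𝓙 : ℕ → Ideal A} {L : ℕ}
    {τ : Type} {μ : τ → A} (hI : Ideal.span (Set.range μ) ≤ 𝓙 L) :
    Ideal.span (Set.range fun t => blU 𝓙 L (μ t) L) = blI 𝓙 L (Ideal.span (Set.range μ)) := by
  apply le_antisymm
  · refine Ideal.span_mono ?_
    rintro _ ⟨t, rfl⟩
    exact ⟨μ t, Ideal.subset_span ⟨t, rfl⟩, rfl⟩
  · refine Ideal.span_le.2 ?_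
    rintro _ ⟨f, hf, rfl⟩
    induction hf using Submodule.span_induction with
    | mem x hx =>
      obtain ⟨t, rfl⟩ := hx
      exact Ideal.subset_span ⟨t, rfl⟩
    | zero =>
      have e : blU 𝓙 L (0 : A) L = 0 := by
        apply Subtype.ext
        rw [blU_val 𝓙 L le_rfl (Or.inr (zero_mem _)), map_zero, zero_mul]
        rfl
      rw [e]
      exact zero_mem _
    | add x y hx hy ihx ihy =>
      have e : blU 𝓙 L (x + y) L = blU 𝓙 L x L + blU 𝓙 L y L := by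
        apply Subtype.ext
        rw [AddMemClass.coe_add, blU_val 𝓙 L le_rfl (Or.inr (hI (add_mem hx hy))),
          blU_val 𝓙 L le_rfl (Or.inr (hI hx)), blU_val 𝓙 L le_rfl (Or.inr (hI hy)), map_add,
          add_mul]
      rw [e]
      exact add_mem ihx ihy
    | smul a x hx ihx =>
      have e : blU 𝓙 L (a • x) L = blC 𝓙 L a * blU 𝓙 L x L := by
        apply Subtype.ext
        rw [MulMemClass.coe_mul, blU_val 𝓙 L le_rfl (Or.inr (hI (Submodule.smul_mem _ a hx))),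
          blU_val 𝓙 L le_rfl (Or.inr (hI hx)), blC_val, smul_eq_mul, map_mul, mul_assoc]
      rw [e]
      exact Ideal.mul_mem_left _ _ ihx

variable {M} {𝓙 : ℕ → Ideal M.S} {L : ℕ} {ω : ℕ → ℕ}
  {ρ' : Bl 𝓙 L →+* AddMonoidAlgebra (Bl 𝓙 L) (Dg (M.m + 1))} {χ' : Dg (M.m + 1)} {κ' : Type}
  {g' : κ' → Bl 𝓙 L}

private theorem upDg_zero : M.upDg ω 0 0 = 0 := by
  have := M.upDg_add ω 0 0 0 0
  rw [add_zero, add_zero] at this
  exact left_eq_add.1 this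

private theorem blC_mem (C : M.BlCo 𝓙 L ω ρ') {b : Dg M.m} {s : M.S} (hs : s ∈ M.H b) :
    blC 𝓙 L s ∈ Hg ρ' (M.upDg ω b 0) :=
  (C.mem _ b 0).2 ⟨s, hs, by rw [blC_val, LaurentPolynomial.T_zero, mul_one]⟩

private theorem blC_mem_zero (C : M.BlCo 𝓙 L ω ρ') {s : M.S} (hs : s ∈ M.H 0) :
    blC 𝓙 L s ∈ Hg ρ' 0 :=
  V.Hg_cast (blC_mem C hs) upDg_zero

private theorem blσ_lt (j : Fin M.m) :
    blσ 𝓙 L M.σ M.m ω j = blU 𝓙 L (M.σ j) (ω j) := by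
  rw [blσ, if_pos j.2]

private theorem blσ_last : blσ 𝓙 L M.σ M.m ω M.m = blS 𝓙 L := by
  rw [blσ, if_neg (lt_irrefl _), if_pos rfl]

private theorem blσ_gt {j : ℕ} (h : M.m + 1 ≤ j) : blσ 𝓙 L M.σ M.m ω j = 1 := by
  rw [blσ, if_neg (by omega), if_neg (by omega)]

private theorem blσ_mem (H : M.SD 𝓙 L ω) (C : M.BlCo 𝓙 L ω ρ') (j : Fin (M.m + 1)) :
    blσ 𝓙 L M.σ M.m ω j ∈ Hg ρ' (-Pi.single j 1) := by
  induction j using Fin.lastCases with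
  | last =>
    rw [Fin.val_last, blσ_last, ← M.upDg_s ω]
    exact (C.mem _ _ _).2 ⟨1, V.Hg_one, by rw [blS_val, map_one, one_mul]⟩
  | cast j =>
    rw [Fin.val_castSucc, blσ_lt, ← M.upDg_σ ω j]
    exact (C.mem _ _ _).2 ⟨M.σ j, M.hσ j, blU_val 𝓙 L (H.glob.ω_le j) (H.glob.σ_mem j)⟩

private theorem plus_iff (D : M.BlCh 𝓙 L ω ρ' χ' g') (w : Bl 𝓙 L →ₐ[ℂ] ℂ) :
    (∃ i, w (g' i) ≠ 0) ↔ M.Plus (w.comp (blC 𝓙 L)) ∧ blPlus 𝓙 L w := by
  have := D.iff ℂ w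
  simp only [isUnit_iff_ne_zero] at this
  exact this

/-- the blow-up as a model -/
@[reducible] private noncomputable def blM [Fintype κ'] (H : M.SD 𝓙 L ω) (C : M.BlCo 𝓙 L ω ρ')
    (D : M.BlCh 𝓙 L ω ρ' χ' g') (ev : Bl 𝓙 L →ₐ[ℂ] M.S)
    (h1 : ev.comp (blC 𝓙 L) = AlgHom.id ℂ M.S) (h2 : ev (blS 𝓙 L) = 1) : GM R I0 ν where
  m := M.m + 1
  S := Bl 𝓙 L
  ft := ft_bl 𝓙 L
  ρ := ρ'
  co := C.co
  hk c := by
    rw [← (blC 𝓙 L).commutes c]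
    exact blC_mem_zero C (M.hk c)
  σ := blσ 𝓙 L M.σ M.m ω
  σ_one j hj := blσ_gt hj
  hσ := blσ_mem H C
  ι := (blC 𝓙 L).comp M.ι
  hι r := blC_mem_zero C (M.hι r)
  ψ := M.ψ.comp ev
  ψι r := by
    have : ev (blC 𝓙 L (M.ι r)) = M.ι r := DFunLike.congr_fun h1 (M.ι r)
    change M.ψ (ev (blC 𝓙 L (M.ι r))) = r
    rw [this, M.ψι]
  ψσ j := by
    change M.ψ (ev (blσ 𝓙 L M.σ M.m ω j)) = 1
    rcases lt_trichotomy j M.m with h | h | h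
    · rw [blσ_lt (M := M) ⟨j, h⟩,
        ev_eq ev h1 h2 _ _ _ (blU_val 𝓙 L (H.glob.ω_le j) (H.glob.σ_mem j)), M.ψσ]
    · rw [h, blσ_last, h2, map_one]
    · rw [blσ_gt h, map_one, map_one]
  ψinj l s hs h0 := by
    obtain ⟨b, n, rfl⟩ := M.upDg_surj ω l
    obtain ⟨t, ht, e⟩ := (C.mem _ _ _).1 hs
    change M.ψ (ev s) = 0 at h0
    rw [ev_eq ev h1 h2 _ _ _ e] at h0
    have := M.ψinj b t ht h0
    apply Subtype.ext
    rw [e, this, map_zero, zero_mul]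
    rfl
  χ := χ'
  hχ := D.hχ
  κ := κ'
  g := g'
  hg := D.hg
  loc w hw := bl_loc H w ((plus_iff D w).1 hw).1
  unit := D.unit
  prop V _ _ _ _ hV x hx := by
    obtain ⟨φ, e, hσ, hg⟩ := bl_prop H V hV x hx
    exact ⟨φ, e, hσ, (D.iff V φ).2 hg⟩
  rad w hw j hj := bl_rad H w ((plus_iff D w).1 hw).1 j hj

private theorem blC_σp (H : M.SD 𝓙 L ω) (e : Fin M.m → ℕ) (n : ℕ) :
    blS 𝓙 L ^ n * blC 𝓙 L (M.σp e) = ∏ j : Fin (M.m + 1), blσ 𝓙 L M.σ M.m ω j ^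
      (Fin.snoc (α := fun _ => ℕ) e (n + ∑ j : Fin M.m, ω j * e j) j) := by
  rw [Fin.prod_univ_castSucc]
  simp only [Fin.snoc_castSucc, Fin.snoc_last, Fin.val_castSucc, Fin.val_last]
  rw [blσ_last, σp, map_prod, pow_add, ← Finset.prod_pow_eq_pow_sum, mul_left_comm,
    ← Finset.prod_mul_distrib]
  congr 1
  refine Finset.prod_congr rfl fun j _ => ?_
  rw [map_pow, blσ_lt, ← blS_pow_mul (H.glob.ω_le j) (H.glob.σ_mem j), mul_pow, pow_mul,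
    mul_comm]

private theorem upDg_dg (e : Fin M.m → ℕ) (n : ℕ) :
    M.upDg ω (M.dg e) n = fun j : Fin (M.m + 1) =>
      ((Fin.snoc (α := fun _ => ℕ) e (n + ∑ j : Fin M.m, ω j * e j) j : ℕ) : ℤ) := by
  funext j
  induction j using Fin.lastCases with
  | last =>
    simp only [upDg, Fin.snoc_last, dg]
    push_cast
    rfl
  | cast j => simp only [upDg, Fin.snoc_castSucc, dg]

private theorem wk_bl [Fintype κ'] (H : M.SD 𝓙 L ω) (C : M.BlCo 𝓙 L ω ρ')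
    (D : M.BlCh 𝓙 L ω ρ' χ' g') (ev : Bl 𝓙 L →ₐ[ℂ] M.S)
    (h1 : ev.comp (blC 𝓙 L) = AlgHom.id ℂ M.S) (h2 : ev (blS 𝓙 L) = 1) {τ : Type} {f : τ → R}
    {e : Fin M.m → ℕ} {μ : τ → M.S} (W : M.Wk f e μ) {n : ℕ} (hn : n ≤ L)
    (hμ : ∀ t, n = 0 ∨ μ t ∈ 𝓙 n) :
    (blM H C D ev h1 h2).Wk f (Fin.snoc (α := fun _ => ℕ) e (n + ∑ j : Fin M.m, ω j * e j))
      fun t => blU 𝓙 L (μ t) n := by
  constructor
  · intro t
    change blC 𝓙 L (M.ι (f t)) = blU 𝓙 L (μ t) n * ∏ j : Fin (M.m + 1), blσ 𝓙 L M.σ M.m ω j ^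
      (Fin.snoc (α := fun _ => ℕ) e (n + ∑ j : Fin M.m, ω j * e j) j)
    rw [← blC_σp H, W.eq t, map_mul, ← blS_pow_mul hn (hμ t)]
    ring
  · intro t
    exact V.Hg_cast ((C.mem _ (M.dg e) n).2 ⟨μ t, W.mem t, blU_val 𝓙 L hn (hμ t)⟩) (upDg_dg e n)

private theorem ref_bl [Fintype κ'] (H : M.SD 𝓙 L ω) (C : M.BlCo 𝓙 L ω ρ')
    (D : M.BlCh 𝓙 L ω ρ' χ' g') (ev : Bl 𝓙 L →ₐ[ℂ] M.S)
    (h1 : ev.comp (blC 𝓙 L) = AlgHom.id ℂ M.S) (h2 : ev (blS 𝓙 L) = 1) :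
    M.Ref (blM H C D ev h1 h2) := by
  constructor
  · rintro τ f ⟨e, μ, W, hμ⟩
    refine ⟨_, _, wk_bl H C D ev h1 h2 W (Nat.zero_le L) fun _ => Or.inl rfl, fun w hw => ?_⟩
    obtain ⟨t, ht⟩ := hμ _ ((plus_iff D w).1 hw).1
    refine ⟨t, ?_⟩
    rw [blU_zero]
    exact ht
  · intro 𝒯 hT h
    exact M.bl_desc H hT fun w hw hw' => h w ((plus_iff D w).2 ⟨hw, hw'⟩)

end Aux

theorem step {τ : Type} {f : τ → R} {e : Fin M.m → ℕ} {μ : τ → M.S} (W : M.Wk f e μ)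
    (hf : ∃ t, f t ≠ 0) {k : Inv} (hk : M.IsMax (Ideal.span (Set.range μ)) k)
    (hZ : ∀ w, M.HasInv (Ideal.span (Set.range μ)) w k → ∀ a ∈ I0, w (M.ι a) = 0) :
    GenInv ν k ∧ ∃ M' : GM R I0 ν, M.Ref M' ∧ ∃ e' μ', M'.Wk f e' μ' ∧
      ∀ w k', M'.HasInv (Ideal.span (Set.range μ')) w k' → k' < k := by
  have h0 : Ideal.span (Set.range μ) ≠ ⊥ := by
    obtain ⟨t, ht⟩ := hf
    intro h
    have h1 : μ t = 0 := by
      have : μ t ∈ Ideal.span (Set.range μ) := Ideal.subset_span ⟨t, rfl⟩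
      rwa [h, Ideal.mem_bot] at this
    apply ht
    apply M.ι_injective
    rw [W.eq t, h1, zero_mul, map_zero]
  obtain ⟨hG, 𝓙, L, ω, H, hI, hc⟩ := M.glob W.hom h0 hk hZ
  obtain ⟨ρ', C⟩ := M.exists_blCo H
  obtain ⟨χ', κ', _, g', D⟩ := M.exists_blCh H C
  obtain ⟨ev, h1, h2⟩ := bl_lift (𝓙 := 𝓙) (L := L) (AlgHom.id ℂ M.S) (one_mem _)
    fun l _ _ f _ => by rw [one_pow]; exact one_dvd _
  refine ⟨hG, blM H C D ev h1 h2, ref_bl H C D ev h1 h2, _, _,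
    wk_bl H C D ev h1 h2 W le_rfl fun t => Or.inr (hI (Ideal.subset_span ⟨t, rfl⟩)), ?_⟩
  rintro w k' ⟨hw, Θ, hN, hΘ, rfl⟩
  obtain ⟨hw1, hw2⟩ := (plus_iff D w).1 hw
  have hΘ' : Θ.Good (blσ 𝓙 L M.σ M.m ω) (blI 𝓙 L (Ideal.span (Set.range μ))) w := by
    rw [← blI_span hI]
    exact hΘ
  refine drop H.glob hI hw2 (M.loc _ hw1) ?_ hΘ'
  rcases hc _ hw1 with ⟨hh, hn⟩ | h
  · refine Or.inl ⟨hh, fun Γ hΓ hg => ?_⟩
    have h3 : M.HasInv (Ideal.span (Set.range μ)) (w.comp (blC 𝓙 L)) Γ.inv :=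
      ⟨hw1, Γ, hΓ, hg, rfl⟩
    exact lt_of_le_of_ne (hk.2 _ _ h3) fun h => hn (h ▸ h3)
  · exact Or.inr h

end GM

end Pool.Agent.P.MP_824f38_ag.N
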