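import Pool.Agent.P.MP_824f38_ag.N.Mod

/-! Row NEC-MTwist: torus actions, Euler derivations, gradings of subalgebras and quotients

exists_twist: compose ρ with the ring map T[Dg m] → V, single l s ↦ zp τ l * φ s (AddMonoidAlgebra.liftNCRingHom). exists_euler: θ s = Σ l j • pr l s (the additive map (ρ s).sum), Leibniz on homogeneous elements (IsCo.induction).
hom_of_torus: Vandermonde; for instance induct on the number of nonzero components: if l ≠ l' choose τ with zp τ l ≠ zp τ l' and consider α f - zp τ l' • f.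
exists_coSub: ρ x has all coefficients in S', so it lies in the image of the injective map S'[Dg m] → T[Dg m]. exists_coQuot: mapRingHom π ∘ ρ kills the kernel. -/

set_option linter.unusedVariables false
set_option linter.unusedSectionVars false
set_option linter.style.haveILetI false
set_option linter.dupNamespace false

namespace Pool.Agent.P.MP_824f38_ag.N

open V (Dg Hg IsCo pr Pk)

variable {T : Type} [CommRing T] [Algebra ℂ T] {m : ℕ} {ρ : T →+* AddMonoidAlgebra T (Dg m)}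

theorem zp_zero {V : Type} [CommRing V] (τ : Fin m → Vˣ) : zp τ 0 = 1 := by
  simp [zp]

theorem zp_add {V : Type} [CommRing V] (τ : Fin m → Vˣ) (l l' : Dg m) :
    zp τ (l + l') = zp τ l * zp τ l' := by
  simp [zp, zpow_add, Finset.prod_mul_distrib]

theorem zp_neg {V : Type} [CommRing V] (τ : Fin m → Vˣ) (l : Dg m) : zp τ (-l) = (zp τ l)⁻¹ := by
  simp [zp, Finset.prod_inv_distrib]

theorem zp_single {V : Type} [CommRing V] (τ : Fin m → Vˣ) (j : Fin m) (n : ℤ) :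
    zp τ (Pi.single j n) = τ j ^ n := by
  rw [zp, Finset.prod_eq_single j (fun b _ hb => by simp [Pi.single_eq_of_ne hb])
    (fun h => absurd (Finset.mem_univ j) h)]
  simp

theorem zp_mul {V : Type} [CommRing V] (τ τ' : Fin m → Vˣ) (l : Dg m) :
    zp (τ * τ') l = zp τ l * zp τ' l := by
  simp [zp, mul_zpow, Finset.prod_mul_distrib]

theorem tw_exists_add {W : Type} [AddCommGroup W] (F : Dg m → T →+ W) :
    ∃ A : T →+ W, ∀ l, ∀ s ∈ Hg ρ l, A s = F l s := by
  refine ⟨(Finsupp.liftAddHom F).comp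
    (AddMonoidHom.mk' (fun x => (ρ x).coeff) (fun x y => by simp)), fun l s hs => ?_⟩
  change Finsupp.liftAddHom F (ρ s).coeff = _
  rw [V.mem_Hg.1 hs]
  simp

theorem tw_pr_mul {d : Dg m} {r : T} (hr : r ∈ Hg ρ d) (l : Dg m) (x : T) :
    pr ρ l (r * x) = r * pr ρ (l - d) x := by
  rw [← V.pr_mul_left hr, add_sub_cancel]

theorem tw_smul_mem (hk : ∀ c : ℂ, algebraMap ℂ T c ∈ Hg ρ 0) (c : ℂ) {l : Dg m} {x : T}
    (hx : x ∈ Hg ρ l) : c • x ∈ Hg ρ l := by
  rw [Algebra.smul_def]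
  exact V.Hg_cast (V.Hg_mul (hk c) hx) (zero_add l)

theorem tw_pr_smul (hk : ∀ c : ℂ, algebraMap ℂ T c ∈ Hg ρ 0) (c : ℂ) (l : Dg m) (x : T) :
    pr ρ l (c • x) = c • pr ρ l x := by
  rw [Algebra.smul_def, Algebra.smul_def, tw_pr_mul (hk c), sub_zero]

theorem tw_sep {l a : Dg m} (h : l ≠ a) :
    ∃ τ : Fin m → ℂˣ, ((zp τ l : ℂˣ) : ℂ) ≠ ((zp τ a : ℂˣ) : ℂ) := by
  obtain ⟨j, hj⟩ := Function.ne_iff.1 h
  have key : ∀ b : Dg m, ((zp (Pi.mulSingle j (Units.mk0 (2 : ℂ) two_ne_zero)) b : ℂˣ) : ℂ) =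
      2 ^ b j := fun b => by
    rw [zp, Finset.prod_eq_single j (fun i _ hi => by simp [Pi.mulSingle_eq_of_ne hi])
      (fun h => absurd (Finset.mem_univ j) h)]
    simp
  refine ⟨Pi.mulSingle j (Units.mk0 (2 : ℂ) two_ne_zero), ?_⟩
  rw [key, key]
  intro e
  have := congrArg norm e
  simp only [norm_zpow, Complex.norm_ofNat] at this
  exact hj (zpow_right_injective₀ (by norm_num) (by norm_num) this)

theorem co_hom_ext (co : IsCo ρ) {V : Type} [CommRing V] [Algebra ℂ V] {φ φ' : T →ₐ[ℂ] V}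
    (h : ∀ l, ∀ s ∈ Hg ρ l, φ s = φ' s) : φ = φ' := by
  refine AlgHom.ext fun x => ?_
  induction x using co.induction with
  | h0 l x hx => exact h l x hx
  | hadd x y hx hy => rw [map_add, map_add, hx, hy]

theorem exists_twist (co : IsCo ρ) (hk : ∀ c : ℂ, algebraMap ℂ T c ∈ Hg ρ 0) {V : Type}
    [CommRing V] [Algebra ℂ V] (φ : T →ₐ[ℂ] V) (τ : Fin m → Vˣ) :
    ∃ φ' : T →ₐ[ℂ] V, ∀ l, ∀ s ∈ Hg ρ l, φ' s = (zp τ l : V) * φ s := by
  obtain ⟨A, hA⟩ := tw_exists_add (ρ := ρ)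
    (fun l => (AddMonoidHom.mulLeft (zp τ l : V)).comp (φ : T →+* V).toAddMonoidHom)
  have hA' : ∀ l, ∀ s ∈ Hg ρ l, A s = (zp τ l : V) * φ s := hA
  have hmul : ∀ x y, A (x * y) = A x * A y := by
    intro x y
    induction x using co.induction with
    | hadd x x' hx hx' => rw [add_mul, map_add, map_add, hx, hx', add_mul]
    | h0 l x hx =>
      induction y using co.induction with
      | hadd y y' hy hy' => rw [mul_add, map_add, map_add, hy, hy', mul_add]
      | h0 l' y hy =>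
        rw [hA' _ _ (MP_824f38_ag.V.Hg_mul hx hy), hA' _ _ hx, hA' _ _ hy, zp_add, map_mul, Units.val_mul]
        ring
  have hc : ∀ c : ℂ, A (algebraMap ℂ T c) = algebraMap ℂ V c := fun c => by
    rw [hA' _ _ (hk c), zp_zero, Units.val_one, one_mul, φ.commutes]
  have h1 : A 1 = 1 := by simpa using hc 1
  exact ⟨⟨⟨⟨⟨A, h1⟩, hmul⟩, map_zero A, map_add A⟩, hc⟩, hA'⟩

theorem exists_torus (co : IsCo ρ) (hk : ∀ c : ℂ, algebraMap ℂ T c ∈ Hg ρ 0) (τ : Fin m → ℂˣ) :
    ∃ α : T ≃ₐ[ℂ] T, ∀ l, ∀ s ∈ Hg ρ l, α s = ((zp τ l : ℂˣ) : ℂ) • s := by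
  have key : ∀ τ : Fin m → ℂˣ, ∃ α : T →ₐ[ℂ] T,
      ∀ l, ∀ s ∈ Hg ρ l, α s = ((zp τ l : ℂˣ) : ℂ) • s := fun τ => by
    obtain ⟨α, hα⟩ := exists_twist co hk (AlgHom.id ℂ T)
      (fun j => Units.map (algebraMap ℂ T : ℂ →* T) (τ j))
    refine ⟨α, fun l s hs => ?_⟩
    rw [hα l s hs, Algebra.smul_def]
    have : zp (fun j => Units.map (algebraMap ℂ T : ℂ →* T) (τ j)) l =
        Units.map (algebraMap ℂ T : ℂ →* T) (zp τ l) := by
      simp only [zp, map_prod, map_zpow]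
    rw [this]; rfl
  obtain ⟨α, hα⟩ := key τ
  obtain ⟨β, hβ⟩ := key τ⁻¹
  have e : ∀ l, ((zp τ l : ℂˣ) : ℂ) * ((zp τ⁻¹ l : ℂˣ) : ℂ) = 1 := fun l => by
    rw [← Units.val_mul, ← zp_mul, mul_inv_cancel]; simp [zp]
  refine ⟨AlgEquiv.ofAlgHom α β (co_hom_ext co fun l s hs => ?_)
    (co_hom_ext co fun l s hs => ?_), hα⟩
  · rw [AlgHom.comp_apply, hβ l s hs, map_smul, hα l s hs, smul_smul, mul_comm, e, one_smul]; rfl
  · rw [AlgHom.comp_apply, hα l s hs, map_smul, hβ l s hs, smul_smul, e, one_smul]; rfl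

theorem exists_euler (co : IsCo ρ) (hk : ∀ c : ℂ, algebraMap ℂ T c ∈ Hg ρ 0) (j : Fin m) :
    ∃ θ : Derivation ℂ T T, ∀ l, ∀ s ∈ Hg ρ l, θ s = l j • s := by
  obtain ⟨A, hA⟩ := tw_exists_add (ρ := ρ)
    (fun l => (AddMonoidHom.mulLeft ((l j : ℤ) : T)))
  have hA' : ∀ l, ∀ s ∈ Hg ρ l, A s = ((l j : ℤ) : T) * s := hA
  have hmul : ∀ x y, A (x * y) = x * A y + y * A x := by
    intro x y
    induction x using co.induction with
    | hadd x x' hx hx' => rw [add_mul, map_add, map_add, hx, hx']; ring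
    | h0 l x hx =>
      induction y using co.induction with
      | hadd y y' hy hy' => rw [mul_add, map_add, map_add, hy, hy']; ring
      | h0 l' y hy =>
        rw [hA' _ _ (V.Hg_mul hx hy), hA' _ _ hx, hA' _ _ hy, Pi.add_apply, Int.cast_add]
        ring
  have hc : ∀ c : ℂ, A (algebraMap ℂ T c) = 0 := fun c => by
    rw [hA' _ _ (hk c)]; simp
  let L : T →ₗ[ℂ] T :=
    { toFun := A
      map_add' := map_add A
      map_smul' := fun c x => by
        rw [RingHom.id_apply, Algebra.smul_def, Algebra.smul_def, hmul, hc, mul_zero, add_zero] }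
  refine ⟨Derivation.mk' L fun a b => hmul a b, fun l s hs => ?_⟩
  rw [zsmul_eq_mul]
  exact hA' l s hs

theorem hom_of_torus (co : IsCo ρ) (hk : ∀ c : ℂ, algebraMap ℂ T c ∈ Hg ρ 0) {I : Ideal T}
    (h : ∀ (τ : Fin m → ℂˣ) (α : T ≃ₐ[ℂ] T),
      (∀ l, ∀ s ∈ Hg ρ l, α s = ((zp τ l : ℂˣ) : ℂ) • s) → ∀ f ∈ I, α f ∈ I) :
    ∀ l, ∀ f ∈ I, pr ρ l f ∈ I := by
  classical
  have key : ∀ s : Finset (Dg m), ∀ f ∈ I, (∀ l, l ∉ s → pr ρ l f = 0) → ∀ l, pr ρ l f ∈ I := by
    intro s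
    induction s using Finset.induction_on with
    | empty => intro f hf h0 l; rw [h0 l (Finset.notMem_empty l)]; exact zero_mem _
    | insert a s ha ih =>
      intro f hf h0
      have hne : ∀ l, l ≠ a → pr ρ l f ∈ I := by
        intro l hl
        obtain ⟨τ, hτ⟩ := tw_sep hl
        obtain ⟨α, hα⟩ := exists_torus co hk τ
        have hg : α f - ((zp τ a : ℂˣ) : ℂ) • f ∈ I :=
          sub_mem (h τ α hα f hf) (by rw [Algebra.smul_def]; exact I.mul_mem_left _ hf)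
        have hpr : ∀ l', pr ρ l' (α f - ((zp τ a : ℂˣ) : ℂ) • f) =
            (((zp τ l' : ℂˣ) : ℂ) - ((zp τ a : ℂˣ) : ℂ)) • pr ρ l' f := fun l' => by
          have h1 := co.pr_comm (ρ' := ρ) (α : T →+* T).toAddMonoidHom id Function.injective_id
            (fun l x hx => by
              change α x ∈ Hg ρ l
              rw [hα l x hx]; exact tw_smul_mem hk _ hx) l' f
          have h2 : pr ρ l' (α f) = α (pr ρ l' f) := h1
          rw [map_sub, h2, hα l' _ (co.pr_mem l' f), tw_pr_smul hk, sub_smul]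
        have h3 := ih _ hg (fun l' hl' => by
          rw [hpr]
          by_cases e : l' = a
          · rw [e, sub_self, zero_smul]
          · rw [h0 l' (by simp [e, hl']), smul_zero]) l
        rw [hpr] at h3
        have h4 : pr ρ l f = (((zp τ l : ℂˣ) : ℂ) - ((zp τ a : ℂˣ) : ℂ))⁻¹ •
            ((((zp τ l : ℂˣ) : ℂ) - ((zp τ a : ℂˣ) : ℂ)) • pr ρ l f) := by
          rw [smul_smul, inv_mul_cancel₀ (sub_ne_zero.2 hτ), one_smul]
        rw [h4, Algebra.smul_def]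
        exact I.mul_mem_left _ h3
      intro l
      by_cases hl : l = a
      · subst hl
        obtain ⟨t, ht⟩ := co.exists_sum f
        have h1 := ht (insert l (t.erase l)) (Finset.subset_insert_iff.2 le_rfl)
        rw [Finset.sum_insert (Finset.notMem_erase l t)] at h1
        rw [eq_sub_of_add_eq h1]
        exact sub_mem hf (sum_mem fun b hb => hne b (Finset.ne_of_mem_erase hb))
      · exact hne l hl
  intro l f hf
  exact key (ρ f).coeff.support f hf (fun l hl => Finsupp.notMem_support_iff.1 hl) l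

theorem hom_span (co : IsCo ρ) {s : Set T} (h : ∀ x ∈ s, ∃ l, x ∈ Hg ρ l) :
    ∀ l, ∀ f ∈ Ideal.span s, pr ρ l f ∈ Ideal.span s := by
  intro l f hf
  induction hf using Submodule.span_induction generalizing l with
  | mem x hx =>
    obtain ⟨d, hd⟩ := h x hx
    by_cases e : d = l
    · subst e; rw [V.pr_of_mem hd]; exact Ideal.subset_span hx
    · rw [V.pr_of_ne hd e]; exact zero_mem _
  | zero => rw [map_zero]; exact zero_mem _
  | add x y _ _ hx hy => rw [map_add]; exact add_mem (hx l) (hy l)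
  | smul r x _ hx =>
    rw [smul_eq_mul]
    induction r using co.induction with
    | h0 d r hr => rw [tw_pr_mul hr]; exact Ideal.mul_mem_left _ _ (hx _)
    | hadd r r' hr hr' => rw [add_mul, map_add]; exact add_mem hr hr'

theorem hom_adjoin (co : IsCo ρ) (hk : ∀ c : ℂ, algebraMap ℂ T c ∈ Hg ρ 0) {s : Set T}
    (h : ∀ x ∈ s, ∀ l, pr ρ l x ∈ Algebra.adjoin ℂ s) :
    ∀ x ∈ Algebra.adjoin ℂ s, ∀ l, pr ρ l x ∈ Algebra.adjoin ℂ s := by
  intro x hx
  induction hx using Algebra.adjoin_induction with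
  | mem x hx => exact h x hx
  | algebraMap c =>
    intro l
    by_cases e : (0 : Dg m) = l
    · subst e; rw [V.pr_of_mem (hk c)]; exact Subalgebra.algebraMap_mem _ c
    · rw [V.pr_of_ne (hk c) e]; exact zero_mem _
  | add x y _ _ hx hy => intro l; rw [map_add]; exact add_mem (hx l) (hy l)
  | mul x y _ _ hx hy =>
    intro l
    obtain ⟨t, ht⟩ := co.exists_sum x
    rw [← ht t le_rfl, Finset.sum_mul, map_sum]
    refine sum_mem fun d _ => ?_
    rw [tw_pr_mul (co.pr_mem d x)]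
    exact mul_mem (hx d) (hy _)

theorem hom_gens (co : IsCo ρ) [IsNoetherianRing T] {I : Ideal T}
    (h : ∀ l, ∀ f ∈ I, pr ρ l f ∈ I) : ∃ (N : ℕ) (f : Fin N → T) (b : Fin N → Dg m),
      (∀ t, f t ∈ Hg ρ (b t)) ∧ Ideal.span (Set.range f) = I := by
  classical
  obtain ⟨s, hs⟩ := (IsNoetherian.noetherian I : I.FG)
  choose t ht using fun x : T => co.exists_sum x
  let u : Finset (T × Dg m) := s ×ˢ s.biUnion t
  let e := (Fintype.equivFin u).symm
  refine ⟨_, fun i => pr ρ (e i).1.2 (e i).1.1, fun i => (e i).1.2, fun i => co.pr_mem _ _,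
    le_antisymm (Ideal.span_le.2 ?_) ?_⟩
  · rintro _ ⟨i, rfl⟩
    refine h _ _ ?_
    rw [← hs]
    exact Ideal.subset_span (Finset.mem_product.1 (e i).2).1
  · rw [← hs]
    refine Ideal.span_le.2 fun x hx => ?_
    rw [← ht x (t x) le_rfl]
    refine sum_mem fun l hl => Ideal.subset_span ?_
    have hu : (x, l) ∈ u := Finset.mem_product.2 ⟨hx, Finset.mem_biUnion.2 ⟨x, hx, hl⟩⟩
    exact ⟨e.symm ⟨(x, l), hu⟩, by simp⟩

theorem hom_cofactor {a b G : T} {d e : Dg m} (co : IsCo ρ) (ha : a ∈ Hg ρ d) (hG : G ∈ Hg ρ e)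
    (h : a * b = G) : ∃ b' ∈ Hg ρ (e - d), a * b' = G := by
  refine ⟨pr ρ (e - d) b, co.pr_mem _ _, ?_⟩
  rw [← tw_pr_mul ha, h, V.pr_of_mem hG]

theorem exists_coSub (co : IsCo ρ) (S' : Subalgebra ℂ T) (h : ∀ x ∈ S', ∀ l, pr ρ l x ∈ S') :
    ∃ ρ' : S' →+* AddMonoidAlgebra S' (Dg m), IsCo ρ' ∧
      ∀ l (x : S'), x ∈ Hg ρ' l ↔ (x : T) ∈ Hg ρ l := by
  let ι := AddMonoidAlgebra.mapRingHom (Dg m) (S'.val : S' →+* T)
  have hι : Function.Injective ι := fun a b e => by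
    ext l
    have := congrArg (fun z => AddMonoidAlgebra.coeff z l) e
    simpa [ι] using this
  have hsum : ∀ x : S', ∃ t : Finset (Dg m), ∑ l ∈ t, (⟨pr ρ l x, h x x.2 l⟩ : S') = x := fun x => by
    obtain ⟨t, ht⟩ := co.exists_sum (x : T)
    refine ⟨t, Subtype.ext ?_⟩
    rw [AddSubmonoidClass.coe_finsetSum]
    exact ht t le_rfl
  have hex : ∀ x : S', ∃ y, ι y = ρ x := fun x => by
    obtain ⟨t, ht⟩ := co.exists_sum (x : T)
    refine ⟨∑ l ∈ t, AddMonoidAlgebra.single l ⟨pr ρ l x, h x x.2 l⟩, ?_⟩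
    rw [map_sum]
    refine Eq.trans ?_ (congrArg ρ (ht t le_rfl))
    rw [map_sum]
    refine Finset.sum_congr rfl fun l _ => ?_
    rw [V.mem_Hg.1 (co.pr_mem l (x : T))]
    exact AddMonoidAlgebra.mapRingHom_single _ _ _
  choose r hr using hex
  let ρ' : S' →+* AddMonoidAlgebra S' (Dg m) :=
    { toFun := r
      map_one' := hι (by rw [hr, map_one]; exact map_one ρ)
      map_mul' := fun a b => hι (by rw [map_mul, hr, hr, hr]; exact map_mul ρ _ _)
      map_zero' := hι (by rw [hr, map_zero]; exact map_zero ρ)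
      map_add' := fun a b => hι (by rw [map_add, hr, hr, hr]; exact map_add ρ _ _) }
  have hiff : ∀ l (x : S'), x ∈ Hg ρ' l ↔ (x : T) ∈ Hg ρ l := fun l x => by
    have e : ι (AddMonoidAlgebra.single l x) = AddMonoidAlgebra.single l (x : T) :=
      AddMonoidAlgebra.mapRingHom_single _ _ _
    rw [V.mem_Hg, V.mem_Hg, ← hr, ← e]
    exact hι.eq_iff.symm
  refine ⟨ρ', fun x => ?_, hiff⟩
  obtain ⟨t, ht⟩ := hsum x
  rw [← ht]
  exact sum_mem fun l _ => V.IsCo.of_mem ((hiff l _).2 (co.pr_mem l _))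

theorem exists_coQuot (co : IsCo ρ) {T' : Type} [CommRing T'] [Algebra ℂ T'] (π : T →ₐ[ℂ] T')
    (hπ : Function.Surjective π) (h : ∀ x, π x = 0 → ∀ l, π (pr ρ l x) = 0) :
    ∃ ρ' : T' →+* AddMonoidAlgebra T' (Dg m), IsCo ρ' ∧
      ∀ l x, x ∈ Hg ρ' l ↔ ∃ s ∈ Hg ρ l, π s = x := by
  let g := (AddMonoidAlgebra.mapRingHom (Dg m) (π : T →+* T')).comp ρ
  have hg : RingHom.ker (π : T →+* T') ≤ RingHom.ker g := fun x hx => by
    rw [RingHom.mem_ker] at *
    ext l
    simp only [g, RingHom.comp_apply, AddMonoidAlgebra.coeff_mapRingHom]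
    exact h x hx l
  let ρ' := RingHom.liftOfSurjective (π : T →+* T') hπ ⟨g, hg⟩
  have hρ : ∀ x, ρ' (π x) = g x := fun x =>
    RingHom.liftOfSurjective_comp_apply (π : T →+* T') hπ ⟨g, hg⟩ x
  have h1 : ∀ l, ∀ s ∈ Hg ρ l, π s ∈ Hg ρ' l := fun l s hs => by
    rw [V.mem_Hg, hρ]
    simp only [g, RingHom.comp_apply, V.mem_Hg.1 hs]
    exact AddMonoidAlgebra.mapRingHom_single _ _ _
  refine ⟨ρ', fun x => ?_, fun l x => ⟨fun hx => ?_, ?_⟩⟩
  · obtain ⟨x, rfl⟩ := hπ x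
    induction x using co.induction with
    | h0 l x hx => exact V.IsCo.of_mem (h1 l x hx)
    | hadd x y hx hy => rw [map_add]; exact add_mem hx hy
  · obtain ⟨x, rfl⟩ := hπ x
    refine ⟨pr ρ l x, co.pr_mem l x, ?_⟩
    have h2 := co.pr_comm (ρ' := ρ') (π : T →+* T').toAddMonoidHom id Function.injective_id h1 l x
    exact h2.symm.trans (V.pr_of_mem hx)
  · rintro ⟨s, hs, rfl⟩
    exact h1 l s hs

end Pool.Agent.P.MP_824f38_ag.N
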