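import Pool.Agent.P.MP_824f38_ag.N.Loc
import Pool.Agent.P.MP_824f38_ag.N.DRP
import Pool.Agent.P.MP_824f38_ag.V.Stmts

/-! Descent-closed properties of algebras and global graded models. -/

set_option linter.unusedVariables false
set_option linter.unusedSectionVars false
set_option linter.style.haveILetI false
set_option linter.dupNamespace false

namespace Pool.Agent.P.MP_824f38_ag.N

open V (Dg Hg IsCo pr Pk)

/-- properties of algebras under `U` -/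
abbrev Prp (U : Type) [CommRing U] [Algebra ℂ U] : Type 1 :=
  ∀ (B : Type) [CommRing B] [Algebra ℂ B], (U →ₐ[ℂ] B) → Prop

/-- The property is inherited by pull-back and descends along Zariski covers of regular
algebras, root covers and blow-ups of two coordinates. -/
structure Closed {U : Type} [CommRing U] [Algebra ℂ U] (𝒯 : Prp U) : Prop where
  pull : ∀ (B B' : Type) [CommRing B] [Algebra ℂ B] [CommRing B'] [Algebra ℂ B']
    [Algebra.FiniteType ℂ B] [Algebra.FiniteType ℂ B'] (b : U →ₐ[ℂ] B) (φ : B →ₐ[ℂ] B'),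
    𝒯 B b → 𝒯 B' (φ.comp b)
  zar : ∀ (B : Type) [CommRing B] [Algebra ℂ B] [Algebra.FiniteType ℂ B] (b : U →ₐ[ℂ] B), Reg B →
    (∀ w : B →ₐ[ℂ] ℂ, ∃ h, w h ≠ 0 ∧ 𝒯 (Localization.Away h) ((toAway h).comp b)) → 𝒯 B b
  root : ∀ (B : Type) [CommRing B] [Algebra ℂ B] [Algebra.FiniteType ℂ B] (b : U →ₐ[ℂ] B) (u : B)
    (M : ℕ), 0 < M → Reg (Rt u M) → 𝒯 (Rt u M) ((toRt u M).comp b) → 𝒯 B b
  bl : ∀ (B : Type) [CommRing B] [Algebra ℂ B] [Algebra.FiniteType ℂ B] (b : U →ₐ[ℂ] B) (N : ℕ)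
    (y : Fin N → B) (i j : Fin N), Chart y → i ≠ j →
    𝒯 (Bch (y i) (y j)) ((bchC (y i) (y j)).comp b) →
    𝒯 (Bch (y j) (y i)) ((bchC (y j) (y i)).comp b) → 𝒯 B b

/-- domains with global coordinates -/
structure DCh : Type 1 where
  W : Type
  [ring : CommRing W]
  [alg : Algebra ℂ W]
  [dom : IsDomain W]
  [ft : Algebra.FiniteType ℂ W]
  N : ℕ
  y : Fin N → W
  chart : Chart y

attribute [instance] DCh.ring DCh.alg DCh.dom DCh.ft

/-- A graded model of a modification of `Spec R` that is an isomorphism outside the zero set of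
`I0`: a torus of rank `m` acts on `Spec S`, the quotient of the open set covered by the charts
`g i ≠ 0` is the modification, the `σ j` are the exceptional divisors. -/
structure GM (R : Type) [CommRing R] [Algebra ℂ R] (I0 : Ideal R) (ν : ℕ) : Type 1 where
  m : ℕ
  S : Type
  [ring : CommRing S]
  [alg : Algebra ℂ S]
  [dom : IsDomain S]
  [ft : Algebra.FiniteType ℂ S]
  ρ : S →+* AddMonoidAlgebra S (Dg m)
  co : IsCo ρ
  hk : ∀ c : ℂ, algebraMap ℂ S c ∈ Hg ρ 0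
  σ : ℕ → S
  σ_one : ∀ j, m ≤ j → σ j = 1
  hσ : ∀ j : Fin m, σ j ∈ Hg ρ (-Pi.single j 1)
  ι : R →ₐ[ℂ] S
  hι : ∀ r, ι r ∈ Hg ρ 0
  ψ : S →ₐ[ℂ] R
  ψι : ∀ r, ψ (ι r) = r
  ψσ : ∀ j, ψ (σ j) = 1
  ψinj : ∀ l, ∀ s ∈ Hg ρ l, ψ s = 0 → s = 0
  χ : Dg m
  hχ : ∀ j, 1 ≤ χ j
  κ : Type
  [fin : Fintype κ]
  g : κ → S
  hg : ∀ i, g i ∈ Hg ρ χ
  loc : ∀ w : S →ₐ[ℂ] ℂ, (∃ i, w (g i) ≠ 0) → Snc σ w (ν + m)
  unit : ∃ M : ℕ, 0 < M ∧ ∀ i (l : Dg m),
    M • l ∈ AddSubgroup.closure {d | ∃ a ∈ Hg ρ d, ∃ n : ℕ, a ∣ g i ^ n}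
  prop : ∀ (V : Type) [CommRing V] [IsDomain V] [ValuationRing V] [Algebra ℂ V], RootClosed V →
    ∀ x : R →ₐ[ℂ] V, (∃ a ∈ I0, x a ≠ 0) →
      ∃ φ : S →ₐ[ℂ] V, φ.comp ι = x ∧ (∀ j, φ (σ j) ≠ 0) ∧ ∃ i, IsUnit (φ (g i))
  rad : ∀ w : S →ₐ[ℂ] ℂ, (∃ i, w (g i) ≠ 0) → ∀ j, w (σ j) = 0 → ∀ a ∈ I0, w (ι a) = 0

attribute [instance] GM.ring GM.alg GM.dom GM.ft GM.fin

namespace GM

variable {R : Type} [CommRing R] [Algebra ℂ R] {I0 : Ideal R} {ν : ℕ} (M : GM R I0 ν)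

/-- homogeneous elements -/
abbrev H (l : Dg M.m) : AddSubgroup M.S := Hg M.ρ l

/-- the closed point lies in a chart -/
def Plus (w : M.S →ₐ[ℂ] ℂ) : Prop := ∃ i, w (M.g i) ≠ 0

/-- the monomial `σ ^ e` -/
def σp (e : Fin M.m → ℕ) : M.S := ∏ j : Fin M.m, M.σ j ^ e j

/-- an exponent as a degree -/
def dg (e : Fin M.m → ℕ) : Dg M.m := fun j => (e j : ℤ)

/-- `μ` is the weak transform of `f` with exceptional part `σ ^ e` -/
structure Wk {τ : Type} (f : τ → R) (e : Fin M.m → ℕ) (μ : τ → M.S) : Prop where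
  eq : ∀ k, M.ι (f k) = μ k * M.σp e
  mem : ∀ k, μ k ∈ M.H (M.dg e)

/-- the ideal generated by `f` is monomial on the model -/
def Mono {τ : Type} (f : τ → R) : Prop :=
  ∃ e μ, M.Wk f e μ ∧ ∀ w, M.Plus w → ∃ k, w (μ k) ≠ 0

/-- the property holds locally on the model -/
def Triv (𝒯 : Prp R) : Prop :=
  ∀ w, M.Plus w → ∃ h, w h ≠ 0 ∧ 𝒯 (Localization.Away h) ((toAway h).comp M.ι)

/-- `M'` refines `M` -/
structure Ref (M' : GM R I0 ν) : Prop where
  mono : ∀ (τ : Type) (f : τ → R), M.Mono f → M'.Mono f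
  desc : ∀ 𝒯 : Prp R, Closed 𝒯 → M'.Triv 𝒯 → M.Triv 𝒯

/-- `k` is the invariant of the ideal `I` at the point `w` -/
def HasInv (I : Ideal M.S) (w : M.S →ₐ[ℂ] ℂ) (k : Inv) : Prop :=
  M.Plus w ∧ ∃ Γ : WS M.S, Γ.N = ν + M.m ∧ Γ.Good M.σ I w ∧ Γ.inv = k

/-- `k` is the maximal invariant of the ideal `I` -/
def IsMax (I : Ideal M.S) (k : Inv) : Prop :=
  (∃ w, M.HasInv I w k) ∧ ∀ w k', M.HasInv I w k' → k' ≤ k

/-- the global filtration of the centre with invariant `k` -/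
def JG (I : Ideal M.S) (k : Inv) (q : ℚ) : Ideal M.S :=
  ⨅ (w : M.S →ₐ[ℂ] ℂ) (Γ : WS M.S) (_ : M.Plus w ∧ Γ.Good M.σ I w ∧ Γ.inv = k), sat w (Γ.J q)

/-- the ideal is homogeneous -/
def Hom (I : Ideal M.S) : Prop := ∀ l, ∀ f ∈ I, pr M.ρ l f ∈ I

/-- The data of one blow-up: a homogeneous filtration `𝓙` that is locally a weight filtration
at the points of its support, and whose support lies in the zero set of `I0`. -/
structure SD (𝓙 : ℕ → Ideal M.S) (L : ℕ) (ω : ℕ → ℕ) : Prop where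
  glob : BlGlob 𝓙 L M.σ M.m ω
  hom : ∀ l, M.Hom (𝓙 l)
  cov : ∀ a ∈ I0, ∀ i, ∃ n : ℕ, (M.ι a * M.g i) ^ n ∈ 𝓙 1
  cases : ∀ w, M.Plus w → (∃ h ∈ 𝓙 L, w h ≠ 0) ∨
    ∃ Γ wt, Γ.N = ν + M.m ∧ 0 < Γ.c 0 ∧ BlLoc 𝓙 L M.σ M.m ω w Γ wt

/-- the degree of `s * T ^ n` on the blow-up, for `s` of degree `b` -/
def upDg (ω : ℕ → ℕ) (b : Dg M.m) (n : ℤ) : Dg (M.m + 1) :=
  Fin.snoc (α := fun _ => ℤ) b (n + ∑ j : Fin M.m, (ω j : ℤ) * b j)

/-- `ρ'` is the grading of the blow-up -/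
structure BlCo (𝓙 : ℕ → Ideal M.S) (L : ℕ) (ω : ℕ → ℕ)
    (ρ' : Bl 𝓙 L →+* AddMonoidAlgebra (Bl 𝓙 L) (Dg (M.m + 1))) : Prop where
  co : IsCo ρ'
  mem : ∀ (x : Bl 𝓙 L) (b : Dg M.m) (n : ℤ), x ∈ Hg ρ' (M.upDg ω b n) ↔
    ∃ s ∈ M.H b, (x : LaurentPolynomial M.S) = LaurentPolynomial.C s * LaurentPolynomial.T n

/-- the charts `g'` of the blow-up -/
structure BlCh (𝓙 : ℕ → Ideal M.S) (L : ℕ) (ω : ℕ → ℕ)
    (ρ' : Bl 𝓙 L →+* AddMonoidAlgebra (Bl 𝓙 L) (Dg (M.m + 1))) (χ' : Dg (M.m + 1)) {κ' : Type}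
    (g' : κ' → Bl 𝓙 L) : Prop where
  hχ : ∀ j, 1 ≤ χ' j
  hg : ∀ i, g' i ∈ Hg ρ' χ'
  unit : ∃ N : ℕ, 0 < N ∧ ∀ i (l : Dg (M.m + 1)),
    N • l ∈ AddSubgroup.closure {d | ∃ a ∈ Hg ρ' d, ∃ n : ℕ, a ∣ g' i ^ n}
  iff : ∀ (V : Type) [CommRing V] [IsLocalRing V] [Algebra ℂ V] (φ : Bl 𝓙 L →ₐ[ℂ] V),
    (∃ i, IsUnit (φ (g' i))) ↔ (∃ i, IsUnit (φ (blC 𝓙 L (M.g i)))) ∧
      ∃ (l : ℕ) (f : M.S), 1 ≤ l ∧ l ≤ L ∧ f ∈ 𝓙 l ∧ IsUnit (φ (blU 𝓙 L f l))

/-- the base `ℂ[σ]` acts on `S` -/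
noncomputable instance algP : Algebra (Pk ℂ M.m) M.S :=
  (MvPolynomial.aeval (fun j : Fin M.m => M.σ j)).toRingHom.toAlgebra

instance towerP : IsScalarTower ℂ (Pk ℂ M.m) M.S :=
  IsScalarTower.of_algHom (MvPolynomial.aeval (fun j : Fin M.m => M.σ j))

theorem hσP (j : Fin M.m) :
    algebraMap (Pk ℂ M.m) M.S (MvPolynomial.X j) ∈ Hg M.ρ (-Pi.single j 1) := by
  change MvPolynomial.aeval (fun j : Fin M.m => M.σ j) (MvPolynomial.X j) ∈ _
  rw [MvPolynomial.aeval_X]; exact M.hσ j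

/-- the model in the form used by the vanishing theorems -/
@[reducible] noncomputable def toMod : V.Mod ℂ M.m M.κ :=
  @V.Mod.mk ℂ _ M.m M.κ M.S M.ring M.alg M.algP M.towerP M.ρ M.co M.hk M.hσP M.χ M.g M.hg

theorem toMod_σ (j : Fin M.m) : M.toMod.σ j = M.σ j := by
  change MvPolynomial.aeval (fun j : Fin M.m => M.σ j) (MvPolynomial.X j) = _
  rw [MvPolynomial.aeval_X]

open Classical in
/-- a linear order on the charts -/
@[reducible] noncomputable def ord : LinearOrder M.κ := linearOrderOfSTO WellOrderingRel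

/-- the chart of a finite set of sections -/
abbrev Ch (I : Finset M.κ) : Type := M.toMod.Ch I

/-- the map from `S` to a chart -/
noncomputable def toCh (I : Finset M.κ) : M.S →ₐ[ℂ] M.Ch I :=
  IsScalarTower.toAlgHom ℂ M.toMod.S (M.toMod.Ch I)

/-- the chart of the blow-up of the ideal of the sections, inside the graded chart -/
noncomputable def DI (I : Finset M.κ) : Subalgebra ℂ (M.Ch I) :=
  Algebra.adjoin ℂ (Set.range (fun r => M.toCh I (M.ι r)) ∪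
    {x | ∃ i ∈ I, ∃ k, x * M.toCh I (M.g i) = M.toCh I (M.g k)})

/-- the structure map of `DI` -/
noncomputable def toDI (I : Finset M.κ) : R →ₐ[ℂ] M.DI I :=
  ((M.toCh I).comp M.ι).codRestrict _ fun r => Algebra.subset_adjoin (Or.inl ⟨r, rfl⟩)

/-- restriction between graded charts -/
noncomputable def rsC {I J : Finset M.κ} (h : I ⊆ J) : M.Ch I →ₐ[ℂ] M.Ch J :=
  (M.toMod.rs I J h).restrictScalars ℂ

theorem rsC_toCh {I J : Finset M.κ} (h : I ⊆ J) (s : M.S) : M.rsC h (M.toCh I s) = M.toCh J s :=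
  (M.toMod.rs I J h).commutes s

theorem rsC_mem {I J : Finset M.κ} (h : I ⊆ J) {x : M.Ch I} (hx : x ∈ M.DI I) :
    M.rsC h x ∈ M.DI J := by
  have : (M.DI I).map (M.rsC h) ≤ M.DI J := by
    rw [DI, AlgHom.map_adjoin]
    refine Algebra.adjoin_mono ?_
    rintro _ ⟨x, ⟨r, rfl⟩ | ⟨i, hi, k, e⟩, rfl⟩
    · exact Or.inl ⟨r, (M.rsC_toCh h _).symm⟩
    · exact Or.inr ⟨i, h hi, k, by rw [← M.rsC_toCh h, ← map_mul, e, M.rsC_toCh]⟩
  exact this ⟨x, hx, rfl⟩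

/-- restriction between the charts `DI` -/
noncomputable def rsD {I J : Finset M.κ} (h : I ⊆ J) : M.DI I →ₐ[ℂ] M.DI J :=
  ((M.rsC h).comp (M.DI I).val).codRestrict _ fun x => M.rsC_mem h x.2

theorem ft_DI [Algebra.FiniteType ℂ R] (I : Finset M.κ) : Algebra.FiniteType ℂ (M.DI I) := by
  classical
  rw [← Subalgebra.fg_iff_finiteType]
  obtain ⟨s, hs⟩ := (inferInstance : Algebra.FiniteType ℂ R).out
  have hfin : {x | ∃ i ∈ I, ∃ k, x * M.toCh I (M.g i) = M.toCh I (M.g k)}.Finite := by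
    refine ((I.finite_toSet.prod Set.finite_univ).biUnion
      (t := fun p : M.κ × M.κ => {x | x * M.toCh I (M.g p.1) = M.toCh I (M.g p.2)})
      fun p hp => Set.Subsingleton.finite fun x hx x' hx' => ?_).subset ?_
    · exact (M.toMod.isUnit_g hp.1).mul_right_cancel (hx.trans hx'.symm)
    · rintro x ⟨i, hi, k, e⟩
      exact Set.mem_biUnion (x := (i, k)) ⟨hi, trivial⟩ e
  have h1 : (Algebra.adjoin ℂ (Set.range fun r => M.toCh I (M.ι r))).FG := by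
    have : Algebra.adjoin ℂ (Set.range fun r => M.toCh I (M.ι r)) =
        (⊤ : Subalgebra ℂ R).map ((M.toCh I).comp M.ι) := by
      rw [Algebra.map_top]
      exact Algebra.adjoin_eq ((M.toCh I).comp M.ι).range
    rw [this]
    exact Subalgebra.FG.map _ ⟨s, hs⟩
  rw [DI, Algebra.adjoin_union]
  exact h1.sup (Subalgebra.fg_def.2 ⟨_, hfin, rfl⟩)

variable {R0 : Type} [CommRing R0] [Algebra ℂ R0]

/-- the chart `DI` as an object under `R0` -/
@[reducible] noncomputable def ob [Algebra.FiniteType ℂ R] (π : R0 →ₐ[ℂ] R) (I : Finset M.κ) : Ob R0 :=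
  ⟨M.DI I, M.ft_DI I, (M.toDI I).comp π⟩

/-- restriction as a morphism of objects -/
noncomputable def obRs [Algebra.FiniteType ℂ R] (π : R0 →ₐ[ℂ] R) {I J : Finset M.κ} (h : I ⊆ J) :
    N.Hom (M.ob π I) (M.ob π J) :=
  ⟨M.rsD h, AlgHom.ext fun r => Subtype.ext (M.rsC_toCh h _)⟩

/-- The final form of a model: no empty charts, `I0` is monomial, and the ideal generated by
`f` is generated by one member on every chart. -/
structure Fin' {τ : Type} (f : τ → R) (c : Fin M.m → ℕ) (μ : τ → M.S) : Prop where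
  ne : ∀ i, M.g i ≠ 0
  wk : M.Wk f c μ
  unit : ∀ i, ∃ (k : τ) (n : ℕ), μ k ∣ M.g i ^ n
  mono : ∃ (N : ℕ) (f0 : Fin N → R), Ideal.span (Set.range f0) = I0 ∧ M.Mono f0

end GM

/-- the algebraic closure of the field of fractions -/
abbrev KB (R : Type) [CommRing R] [IsDomain R] : Type := AlgebraicClosure (FractionRing R)

theorem inj_KB (R : Type) [CommRing R] [IsDomain R] : Function.Injective (algebraMap R (KB R)) := by
  rw [IsScalarTower.algebraMap_eq R (FractionRing R) (KB R)]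
  exact (algebraMap (FractionRing R) (KB R)).injective.comp (IsFractionRing.injective R _)

theorem rootClosed_of_isAlgClosed (K : Type) [Field K] [IsAlgClosed K] : RootClosed K :=
  fun v M h => IsAlgClosed.exists_pow_nat_eq v h

/-- the generic point -/
@[reducible] noncomputable def genPt {R0 R : Type} [CommRing R0] [Algebra ℂ R0] [CommRing R] [IsDomain R]
    [Algebra ℂ R] (π : R0 →ₐ[ℂ] R) : Pt R0 :=
  ⟨KB R, rootClosed_of_isAlgClosed _, (IsScalarTower.toAlgHom ℂ R (KB R)).comp π⟩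

/-- the character of the torus -/
def zp {V : Type} [CommRing V] {m : ℕ} (τ : Fin m → Vˣ) (l : Dg m) : Vˣ := ∏ j, τ j ^ l j

namespace GM

variable {R : Type} [CommRing R] [Algebra ℂ R] [IsDomain R] [Algebra.FiniteType ℂ R]
  {I0 : Ideal R} {ν : ℕ} (M : GM R I0 ν) {R0 : Type} [CommRing R0] [Algebra ℂ R0]

theorem isUnit_ψ (hne : ∀ i, M.g i ≠ 0) (I : Finset M.κ) :
    IsUnit ((((IsScalarTower.toAlgHom ℂ R (KB R)).comp M.ψ : M.S →ₐ[ℂ] KB R) :
      M.S →+* KB R) (M.toMod.gI I)) := by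
  refine IsUnit.mk0 _ fun h => ?_
  have h1 : M.ψ (M.toMod.gI I) = 0 := by
    refine inj_KB R ?_
    rw [map_zero]; exact h
  have h2 := M.ψinj _ _ (M.toMod.gI_mem I) h1
  exact Finset.prod_ne_zero_iff.2 (fun i _ => hne i) h2

/-- the map `σ ↦ 1` from a chart to the function field -/
noncomputable def ψI (hne : ∀ i, M.g i ≠ 0) (I : Finset M.κ) : M.Ch I →ₐ[ℂ] KB R :=
  { IsLocalization.Away.lift (S := M.Ch I) (M.toMod.gI I) (M.isUnit_ψ hne I) with
    commutes' := fun c => by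
      have := IsLocalization.Away.lift_eq (S := M.Ch I) (M.toMod.gI I) (M.isUnit_ψ hne I)
        (algebraMap ℂ M.S c)
      exact this.trans (((IsScalarTower.toAlgHom ℂ R (KB R)).comp M.ψ).commutes c) }

theorem ψI_toCh (hne : ∀ i, M.g i ≠ 0) (I : Finset M.κ) (s : M.S) :
    M.ψI hne I (M.toCh I s) = algebraMap R (KB R) (M.ψ s) :=
  IsLocalization.Away.lift_eq (S := M.Ch I) (M.toMod.gI I) (M.isUnit_ψ hne I) s

theorem compat_ψI (hne : ∀ i, M.g i ≠ 0) (I : Finset M.κ) :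
    V.Compat (Pk ℂ M.m) ℂ (M.ψI hne I : M.Ch I →+* KB R) :=
  V.compat_of_sigma_one M.toMod I (M.ψI hne I) fun j => by
    have := M.ψI_toCh hne I (M.σ j)
    rw [M.ψσ, map_one, ← M.toMod_σ] at this
    exact this

/-- relative forms on a chart as forms on the function field -/
noncomputable def Ψ (hne : ∀ i, M.g i ≠ 0) (I : Finset M.κ) : M.toMod.W I →+* DR (KB R) :=
  V.pullk (M.ψI hne I : M.Ch I →+* KB R) (M.compat_ψI hne I)

/-- the generic point of the chart `DI` -/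
noncomputable def yI (hne : ∀ i, M.g i ≠ 0) (π : R0 →ₐ[ℂ] R) (I : Finset M.κ) :
    PtO (M.ob π I) (genPt π) :=
  ⟨(M.ψI hne I).comp (M.DI I).val, AlgHom.ext fun r => by
    change M.ψI hne I (M.toCh I (M.ι (π r))) = algebraMap R (KB R) (π r)
    rw [ψI_toCh, M.ψι]⟩

/-- evaluation of Godement cochains at the generic point -/
noncomputable def evI (hne : ∀ i, M.g i ≠ 0) (π : R0 →ₐ[ℂ] R) (I : Finset M.κ) :
    CD (M.ob π I) 0 →ₗ[R0] DV (genPt π) where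
  toFun c := stEv _ (c (genPt π) (M.yI hne π I))
  map_add' a b := map_add (stEv _) _ _
  map_smul' r a := map_smul (stEv _) r _

/-- the homogeneous relative forms, inside the forms of the function field -/
noncomputable def Lam (hne : ∀ i, M.g i ≠ 0) (π : R0 →ₐ[ℂ] R) (p : ℕ) (l : Dg M.m)
    (I : Finset M.κ) : Submodule R0 (DV (genPt π)) where
  carrier := {ω | ∃ z ∈ M.toMod.L p l I, toDV (genPt π) (M.Ψ hne I z) = ω}
  add_mem' := by
    rintro _ _ ⟨a, ha, rfl⟩ ⟨b, hb, rfl⟩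
    exact ⟨a + b, add_mem ha hb, map_add (M.Ψ hne I) a b⟩
  zero_mem' := ⟨0, zero_mem _, map_zero (M.Ψ hne I)⟩
  smul_mem' := by
    rintro r _ ⟨a, ha, rfl⟩
    have h := V.Mod.smul_mem_L (X := M.toMod) (s := M.ι (π r)) (M.hι _) ha
    rw [zero_add] at h
    refine ⟨_, h, ?_⟩
    have := M.ψI_toCh hne I (M.ι (π r))
    rw [M.ψι] at this
    have h2 : M.Ψ hne I (M.ι (π r) • a) = algebraMap R (KB R) (π r) • M.Ψ hne I a := by
      rw [V.Mod.smul_def (X := M.toMod), map_mul, V.Mod.act_apply, Ψ, V.pullk_fn, ← this]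
      exact (V.smul_eq _ _).symm
    exact congrArg (toDV (genPt π)) h2

/-- homogeneous units on a chart -/
structure Slice (I : Finset M.κ) where
  M0 : ℕ
  pos : 0 < M0
  z : Fin M.m → M.Ch I
  unit : ∀ j, IsUnit (z j)
  deg : ∀ j, z j ∈ M.toMod.Hc I (M0 • Pi.single j 1)

namespace Slice

variable {M} {I : Finset M.κ} (s : M.Slice I)

/-- the slice `z = 1` -/
abbrev Sg : Type := M.Ch I ⧸ Ideal.span (Set.range fun j => s.z j - 1)

/-- the projection to the slice -/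
noncomputable def mk' : M.Ch I →ₐ[ℂ] s.Sg := Ideal.Quotient.mkₐ ℂ _

/-- the divisors on the slice -/
noncomputable def σ (j : ℕ) : s.Sg := s.mk' (M.toCh I (M.σ j))

theorem ft : Algebra.FiniteType ℂ s.Sg := by
  haveI : Algebra.FiniteType ℂ M.toMod.S := M.ft
  haveI : Algebra.FiniteType ℂ (M.Ch I) :=
    Algebra.FiniteType.trans (S := M.toMod.S) inferInstance inferInstance
  exact Algebra.FiniteType.of_surjective s.mk' (Ideal.Quotient.mkₐ_surjective ℂ _)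

/-- the slice as an object -/
@[reducible] noncomputable def ob (π : R0 →ₐ[ℂ] R) : Ob R0 :=
  (M.ob π I).ext s.Sg s.ft (s.mk'.comp (M.DI I).val)

/-- the morphism from the chart to the slice -/
noncomputable def hom (π : R0 →ₐ[ℂ] R) : N.Hom (M.ob π I) (s.ob π) :=
  (M.ob π I).toExt s.Sg s.ft (s.mk'.comp (M.DI I).val)

/-- the group of the slice -/
abbrev Gp : Type := Fin M.m → rootsOfUnity s.M0 ℂ

/-- `ρ` is the action of the group on the slice -/
def IsAct (ρ : s.Gp →* (s.Sg →ₐ[ℂ] s.Sg)) : Prop :=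
  ∀ (ζ : s.Gp) (l : Dg M.m), ∀ b ∈ M.toMod.Hc I l,
    ρ ζ (s.mk' b) = ((zp (fun j => (ζ j : ℂˣ)) l : ℂˣ) : ℂ) • s.mk' b

/-- the points of the slice over the generic point -/
def Gen (φ : s.Sg →ₐ[ℂ] KB R) : Prop :=
  ∀ r, φ (s.mk' (M.toCh I (M.ι r))) = algebraMap R (KB R) r

/-- the twisted logarithmic forms on the slice -/
noncomputable def NN (c : Fin M.m → ℕ) (a p : ℕ) : Submodule s.Sg (DR s.Sg) :=
  (Ideal.span {s.mk' (M.toCh I (M.σp c)) ^ a} • Ne s.σ (Finset.range M.m) fun _ => 1) ⊓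
    Forms s.Sg p

end Slice

end GM

end Pool.Agent.P.MP_824f38_ag.N
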