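import Pool.Agent.P.MP_824f38_ag.N.SInj
import Pool.Agent.P.MP_824f38_ag.N.GBasic
import Pool.Agent.P.MP_824f38_ag.N.GPair
import Pool.Agent.P.MP_824f38_ag.N.ALes
import Pool.Agent.P.MP_824f38_ag.N.AMv
import Pool.Agent.P.MP_824f38_ag.N.CKill

/-! Trivial Godement cochains of forms: restriction, closed subsets, Mayer-Vietoris. -/

set_option linter.unusedVariables false
set_option linter.unusedSectionVars false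
set_option linter.style.haveILetI false

namespace Pool.Agent.P.MP_824f38_ag.N

variable {R : Type} [CommRing R] [Algebra ℂ R] [Algebra.FiniteType ℂ R]

/-- trivial cochains relative to `𝔥`, augmented by the forms in `N` -/
noncomputable abbrev BdN (A : Ob R) (𝔥 : Ideal A.A) (N : Submodule A.A (DR A.A)) (j : ℕ) :
    Submodule R (CD A j) := Bd (δD A) (KT A 𝔥) (etaN A N) j

/-- the induction hypothesis -/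
def IH (R : Type) [CommRing R] [Algebra ℂ R] (j : ℕ) : Prop :=
  ∀ A : Ob R, Reg A.A → AcycLt (δD A) (KT A ⊤) (etaN A ⊤) j

theorem kills_spanS {A : Ob R} {x : Pt R} (y : PtO A x) (s : Set A.A) :
    y.Kills (Ideal.span s) ↔ ∀ a ∈ s, y.y a = 0 :=
  ⟨fun h a ha => h a (Ideal.subset_span ha), fun h =>
    (Ideal.span_le (I := RingHom.ker (y.y : A.A →+* x.V))).2 h⟩

theorem kills_one {A : Ob R} {x : Pt R} (y : PtO A x) (a : A.A) :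
    y.Kills (Ideal.span {a}) ↔ y.y a = 0 := by
  rw [kills_spanS]; simp

theorem kills_two {A : Ob R} {x : Pt R} (y : PtO A x) (a b : A.A) :
    y.Kills (Ideal.span {a, b}) ↔ y.y a = 0 ∧ y.y b = 0 := by
  rw [kills_spanS]; simp

theorem pre_apply {A B : Ob R} {x : Pt R} (φ : Hom A B) (y : PtO B x) (a : A.A) :
    (y.pre φ).y a = y.y (φ.f a) := rfl

theorem pre_eq {A B B' : Ob R} {x : Pt R} {φ : Hom A B} {φ' : Hom A B'} {y : PtO B x}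
    {y' : PtO B' x} (h : y.pre φ = y'.pre φ') : y.y.comp φ.f = y'.y.comp φ'.f :=
  congrArg PtO.y h

/-- a lift of a point -/
def PtO.lift {A B : Ob R} {x : Pt R} (y : PtO A x) (φ : Hom A B) (z : B.A →ₐ[ℂ] x.V)
    (h : z.comp φ.f = y.y) : PtO B x :=
  ⟨z, by rw [← φ.hf, ← AlgHom.comp_assoc, h, y.hy]⟩

theorem PtO.lift_pre {A B : Ob R} {x : Pt R} (y : PtO A x) (φ : Hom A B) (z : B.A →ₐ[ℂ] x.V)
    (h : z.comp φ.f = y.y) : (y.lift φ z h).pre φ = y := PtO.ext h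

theorem res_etaN {A B : Ob R} (φ : Hom A B) {N : Submodule A.A (DR A.A)}
    {N' : Submodule B.A (DR B.A)} (h : ∀ ω ∈ N, pull φ.f ω ∈ N') {c : CD A 0}
    (hc : c ∈ etaN A N) : (DRP R).res φ 0 c ∈ etaN B N' := by
  obtain ⟨ω, hω, rfl⟩ := mem_etaN.1 hc
  exact mem_etaN.2 ⟨_, h ω hω, (res_etaD φ ω).symm⟩

theorem res_BdN {A B : Ob R} (φ : Hom A B) {𝔥 : Ideal A.A} {𝔥' : Ideal B.A}
    (hk : ∀ (x : Pt R) (y : PtO B x), y.Kills 𝔥' → (y.pre φ).Kills 𝔥)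
    {N : Submodule A.A (DR A.A)} {N' : Submodule B.A (DR B.A)} (h : ∀ ω ∈ N, pull φ.f ω ∈ N') :
    ∀ {j : ℕ} {c : CD A j}, c ∈ BdN A 𝔥 N j → (DRP R).res φ j c ∈ BdN B 𝔥' N' j
  | 0, c, hc => res_etaN φ h hc
  | j + 1, c, ⟨b, hb, e⟩ => ⟨_, K_res _ φ hk hb, by rw [← e]; exact ((DRP R).res_δ φ j b).symm⟩

theorem res_BdT {A B : Ob R} (φ : Hom A B) {j : ℕ} {c : CD A j} (h : c ∈ BdN A ⊤ ⊤ j) :
    (DRP R).res φ j c ∈ BdN B ⊤ ⊤ j :=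
  res_BdN φ (fun x y hy => absurd hy y.not_kills_top) (fun _ _ => Submodule.mem_top) h

theorem BdN_le_top {A : Ob R} {𝔥 : Ideal A.A} {N : Submodule A.A (DR A.A)} {j : ℕ} {c : CD A j}
    (h : c ∈ BdN A 𝔥 N j) : c ∈ BdN A ⊤ ⊤ j :=
  res_BdN (Hom.id A) (fun x y hy => absurd hy y.not_kills_top) (fun _ _ => Submodule.mem_top) h

theorem mem_KT_top {A : Ob R} {j : ℕ} (c : CD A j) : c ∈ KT A ⊤ j :=
  mem_K_top.2 fun x y hy => absurd hy y.not_kills_top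

theorem etaN_le_top {A : Ob R} (N : Submodule A.A (DR A.A)) :
    etaN A N ≤ Zy (δD A) (KT A ⊤) 0 := fun c hc => by
  obtain ⟨ω, -, rfl⟩ := mem_etaN.1 hc
  exact ⟨mem_KT_top _, δ_etaD A ω⟩

theorem Kil_bot {A : Type} [CommRing A] [Algebra ℂ A] {ω : DR A} (h : ω ∈ Kil (⊥ : Ideal A)) :
    ω = 0 := by
  refine (Submodule.mem_bot A).1 ((Submodule.span_le.2 ?_ : Kil (⊥ : Ideal A) ≤ ⊥) h)
  rintro _ ⟨a, ha, β, rfl | rfl⟩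
  · rw [(Submodule.mem_bot A).1 ha, zero_smul]; exact zero_mem _
  · rw [(Submodule.mem_bot A).1 ha, dd_zero, zero_mul]; exact zero_mem _

theorem etaN_Kil_le {A : Ob R} (𝔥 : Ideal A.A) : etaN A (Kil 𝔥) ≤ Zy (δD A) (KT A 𝔥) 0 :=
  fun c hc => by
  obtain ⟨ω, hω, rfl⟩ := mem_etaN.1 hc
  refine ⟨mem_K_top.2 fun x y hy => (DRP R).germ_eq_zero.2 ⟨_, y.toIdx, y.idx.pt, rfl, ?_⟩,
    δ_etaD A ω⟩
  have : pull y.toIdx.f ω = 0 :=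
    Kil_bot (pull_Kil _ (fun a ha => (Submodule.mem_bot _).2 (Subtype.ext (hy a ha))) hω)
  exact (DRP_map _ _).trans (by rw [this, map_zero])

theorem ker_toQuo {A : Ob R} (𝔞 : Ideal A.A) : RingHom.ker (A.toQuo 𝔞).f = 𝔞 :=
  Ideal.Quotient.mkₐ_ker ℂ 𝔞

theorem toQuo_surj {A : Ob R} (𝔞 : Ideal A.A) : Function.Surjective (A.toQuo 𝔞).f :=
  Ideal.Quotient.mkₐ_surjective ℂ 𝔞

theorem quo_ses {A : Ob R} (𝔞 : Ideal A.A) :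
    SES (δD A) (δD (A.quo 𝔞)) ((DRP R).res (A.toQuo 𝔞)) (KT A 𝔞) (KT A ⊤) (KT (A.quo 𝔞) ⊤) :=
  pair_ses _ _ (toQuo_surj 𝔞)
    (fun x y => by rw [ker_toQuo]; exact (or_iff_right y.not_kills_top).symm)
    (fun x y => iff_of_false y.not_kills_top (PtO.not_kills_top _))

theorem etaN_surj {A B : Ob R} (φ : Hom A B) {N : Submodule A.A (DR A.A)}
    {N' : Submodule B.A (DR B.A)} (h : ∀ ω ∈ N', ∃ β ∈ N, pull φ.f β = ω) :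
    ∀ c ∈ etaN B N', ∃ b ∈ etaN A N, (DRP R).res φ 0 b = c := fun c hc => by
  obtain ⟨ω, hω, rfl⟩ := mem_etaN.1 hc
  obtain ⟨β, hβ, rfl⟩ := h ω hω
  exact ⟨_, mem_etaN.2 ⟨β, hβ, rfl⟩, res_etaD φ β⟩

theorem quo_hs {A : Ob R} (𝔞 : Ideal A.A) : ∀ c ∈ etaN (A.quo 𝔞) ⊤,
    ∃ b ∈ etaN A ⊤, (DRP R).res (A.toQuo 𝔞) 0 b = c :=
  etaN_surj _ fun ω _ => (pull_surjective _ (toQuo_surj 𝔞) ω).imp fun β h => ⟨trivial, h⟩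

theorem mem_Kil_of_res {A : Ob R} {𝔞 : Ideal A.A} (hq : Reg (A.A ⧸ 𝔞)) {ω : DR A.A}
    (h : (DRP R).res (A.toQuo 𝔞) 0 (etaD A ω) = 0) : ω ∈ Kil 𝔞 := by
  rw [res_etaD] at h
  have := (pull_eq_zero_iff _ (toQuo_surj 𝔞) ω).1 (etaD_eq_zero (A := A.quo 𝔞) hq h)
  rwa [ker_toQuo] at this

theorem quo_hk {A : Ob R} {𝔞 : Ideal A.A} (hq : Reg (A.A ⧸ 𝔞)) : ∀ c ∈ etaN A ⊤,
    (DRP R).res (A.toQuo 𝔞) 0 c = 0 → c ∈ etaN A (Kil 𝔞) := fun c hc h => by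
  obtain ⟨ω, -, rfl⟩ := mem_etaN.1 hc
  exact mem_etaN.2 ⟨ω, mem_Kil_of_res hq h, rfl⟩

theorem rel_triv {j : ℕ} (H : IH R j) {A : Ob R} {𝔞 : Ideal A.A} (hq : Reg (A.A ⧸ 𝔞))
    {c : CD A j} (hc : c ∈ KT A 𝔞 j) (h : c ∈ BdN A ⊤ ⊤ j) : c ∈ BdN A 𝔞 (Kil 𝔞) j :=
  pair_triv ((DRP R).sq_δ A) (quo_ses 𝔞) (K_sc _ A ⊤) (etaN_le_top ⊤) (quo_hs 𝔞) (quo_hk hq)
    (H (A.quo 𝔞) hq) hc h

theorem rel_acycLt {j : ℕ} (H : IH R j) {A : Ob R} (hA : Reg A.A) {𝔞 : Ideal A.A}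
    (hq : Reg (A.A ⧸ 𝔞)) : AcycLt (δD A) (KT A 𝔞) (etaN A (Kil 𝔞)) j :=
  pair_acycLt ((DRP R).sq_δ A) (quo_ses 𝔞) (K_sc _ A ⊤) (etaN_le_top ⊤) (quo_hs 𝔞) (quo_hk hq)
    (H A hA) (H (A.quo 𝔞) hq)

theorem rel_lift {j : ℕ} {A : Ob R} (𝔞 : Ideal A.A) {c : CD A j} (hc : δD A j c = 0)
    (h : (DRP R).res (A.toQuo 𝔞) j c ∈ BdN (A.quo 𝔞) ⊤ ⊤ j) :
    ∃ b ∈ BdN A ⊤ ⊤ j, c - b ∈ KT A 𝔞 j := by
  obtain ⟨b, hb, h'⟩ := pair_lift ((DRP R).sq_δ A) (quo_ses 𝔞) (K_sc _ A ⊤) (etaN_le_top ⊤)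
    (quo_hs 𝔞) ⟨mem_KT_top c, hc⟩ h
  exact ⟨b, hb, h'.1⟩

theorem mv_forms {A U1 U2 U12 : Ob R} {f1 : Hom A U1} {f2 : Hom A U2} {g1 : Hom U1 U12}
    {g2 : Hom U2 U12} {𝔥 : Ideal A.A} {𝔥1 : Ideal U1.A} {𝔥2 : Ideal U2.A} {𝔥12 : Ideal U12.A}
    (H : MVSq f1 f2 g1 g2 𝔥 𝔥1 𝔥2 𝔥12) (hU : Reg U12.A) {N : Submodule A.A (DR A.A)}
    {N1 : Submodule U1.A (DR U1.A)} {N2 : Submodule U2.A (DR U2.A)}
    {N12 : Submodule U12.A (DR U12.A)} (n0 : etaN A N ≤ Zy (δD A) (KT A 𝔥) 0)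
    (n1 : etaN U1 N1 ≤ Zy (δD U1) (KT U1 𝔥1) 0) (n2 : etaN U2 N2 ≤ Zy (δD U2) (KT U2 𝔥2) 0)
    (glue : ∀ α ∈ N1, ∀ β ∈ N2, pull g1.f α = pull g2.f β →
      ∃ ω ∈ N, pull f1.f ω = α ∧ pull f2.f ω = β)
    (sum : ∀ ω ∈ N12, ∃ α ∈ N1, ∃ β ∈ N2, ω = pull g1.f α - pull g2.f β) {j : ℕ}
    (hA : AcycLt (δD U12) (KT U12 𝔥12) (etaN U12 N12) j) {c : CD A j} (hc : c ∈ KT A 𝔥 j)
    (h1 : (DRP R).res f1 j c ∈ BdN U1 𝔥1 N1 j) (h2 : (DRP R).res f2 j c ∈ BdN U2 𝔥2 N2 j) :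
    c ∈ BdN A 𝔥 N j := by
  refine mv_chase (f1 := (DRP R).res f1) (f2 := (DRP R).res f2) (g1 := (DRP R).res g1)
    (g2 := (DRP R).res g2) ((DRP R).sq_δ U1) ((DRP R).sq_δ U2) (K_sc _ A 𝔥) (K_sc _ U1 𝔥1)
    (K_sc _ U2 𝔥2) ((DRP R).res_δ f1) ((DRP R).res_δ f2) ((DRP R).res_δ g1) ((DRP R).res_δ g2)
    (fun j c => by rw [PSh.res_res, PSh.res_res, H.sq]) (mv_mem1 H _) (mv_mem2 H _) (mv_inj H _)
    (mv_glue H _) (mv_surj H _) (fun c hc => (n0 hc).1) n1 n2 ?_ ?_ hA hc h1 h2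
  · intro a ha b hb e
    obtain ⟨α, hα, rfl⟩ := mem_etaN.1 ha
    obtain ⟨β, hβ, rfl⟩ := mem_etaN.1 hb
    rw [res_etaD, res_etaD] at e
    obtain ⟨ω, hω, rfl, rfl⟩ := glue α hα β hβ (etaD_inj hU e)
    exact ⟨_, mem_etaN.2 ⟨ω, hω, rfl⟩, res_etaD _ _, res_etaD _ _⟩
  · intro c hc
    obtain ⟨ω, hω, rfl⟩ := mem_etaN.1 hc
    obtain ⟨α, hα, β, hβ, rfl⟩ := sum ω hω
    exact ⟨_, mem_etaN.2 ⟨α, hα, rfl⟩, _, mem_etaN.2 ⟨β, hβ, rfl⟩, by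
      rw [res_etaD, res_etaD, map_sub]⟩

end Pool.Agent.P.MP_824f38_ag.N
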