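import Pool.Agent.P.MP_824f38_ag.N.SZar
import Pool.Agent.P.MP_824f38_ag.N.CGlue
import Pool.Agent.P.MP_824f38_ag.N.CSum

/-! Triviality of Godement cocycles of forms descends along blow-ups of two coordinates. -/

set_option linter.unusedVariables false
set_option linter.unusedSectionVars false
set_option linter.style.haveILetI false

namespace Pool.Agent.P.MP_824f38_ag.N

variable {R : Type} [CommRing R] [Algebra ℂ R] [Algebra.FiniteType ℂ R]

/-- a chart of the blow-up -/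
@[reducible] noncomputable def Ob.bc (A : Ob R) (a b : A.A) : Ob R :=
  A.ext (Bch a b) (ft_bch a b) (bchC a b)

/-- the morphism to a chart of the blow-up -/
noncomputable def Ob.toBc (A : Ob R) (a b : A.A) : Hom A (A.bc a b) := ⟨bchC a b, rfl⟩

variable {A : Ob R} {x : Pt R} {a b : A.A}

theorem bc_mul (y : PtO (A.bc a b) x) :
    (y.pre (A.toBc a b)).y a * y.y (bchT a b) = (y.pre (A.toBc a b)).y b := by
  rw [pre_apply, pre_apply, ← map_mul]
  exact congrArg y.y (bch_mul a b)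

theorem bc_kills (y : PtO (A.bc a b) x) : y.Kills (Ideal.span {bchC a b a}) ↔
    (y.pre (A.toBc a b)).y a = 0 ∧ (y.pre (A.toBc a b)).y b = 0 := by
  rw [kills_one]
  exact ⟨fun h => ⟨h, by rw [← bc_mul, show (y.pre (A.toBc a b)).y a = 0 from h, zero_mul]⟩,
    fun h => h.1⟩

theorem bc_ext {y y' : PtO (A.bc a b) x} (e : y.pre (A.toBc a b) = y'.pre (A.toBc a b))
    (e' : y.y (bchT a b) = y'.y (bchT a b)) : y = y' := PtO.ext (bch_ext (pre_eq e) e')

theorem bc_uniq {y y' : PtO (A.bc a b) x} (h : ¬ y.Kills (Ideal.span {bchC a b a}))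
    (e : y.pre (A.toBc a b) = y'.pre (A.toBc a b)) : y = y' := by
  rw [kills_one] at h
  refine bc_ext e (mul_left_cancel₀ (a := (y.pre (A.toBc a b)).y a) h ?_)
  rw [bc_mul, e, bc_mul]

theorem bc_pt (y : PtO A x) (h : ¬ (y.y a = 0 ∧ y.y b = 0)) (hd : y.y a ∣ y.y b) :
    ∃ z : PtO (A.bc a b) x, z.pre (A.toBc a b) = y := by
  obtain ⟨t, ht⟩ := hd
  have ha : y.y a ≠ 0 := fun h0 => h ⟨h0, by rw [ht, h0, zero_mul]⟩
  obtain ⟨ψ, e, -⟩ := bch_lift y.y (mem_nonZeroDivisors_of_ne_zero ha) ht.symm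
  exact ⟨y.lift (A.toBc a b) ψ e, y.lift_pre (A.toBc a b) ψ e⟩

theorem bl_mvSq (g2 : Hom (A.bc b a) ((A.bc a b).aw (bchT a b)))
    (e : g2.comp (A.toBc b a) = ((A.bc a b).toAw (bchT a b)).comp (A.toBc a b))
    (e' : g2.f (bchT b a) * toAway (bchT a b) (bchT a b) = 1) :
    MVSq (A.toBc a b) (A.toBc b a) ((A.bc a b).toAw (bchT a b)) g2 (Ideal.span {a, b})
      (Ideal.span {bchC a b a}) (Ideal.span {bchC b a b})
      (Ideal.span {toAway (bchT a b) (bchC a b a)}) := by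
  refine ⟨e.symm, fun x y => by rw [bc_kills, kills_two],
    fun x y => by rw [bc_kills, kills_two, and_comm],
    fun x y => by rw [kills_one, kills_one]; rfl, fun x y y' => bc_uniq, fun x y y' => bc_uniq,
    fun x y y' => aw_pt_ext, fun x y h => ?_, fun x y1 y2 h e1 => ?_⟩
  · rw [kills_two] at h
    exact (ValuationRing.dvd_total (y.y a) (y.y b)).imp (bc_pt y h)
      (bc_pt y fun h' => h h'.symm)
  · rw [kills_one] at h
    have h1 : y1.y (bchT a b) * y2.y (bchT b a) = 1 := by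
      refine mul_left_cancel₀ (a := (y1.pre (A.toBc a b)).y a) h ?_
      rw [← mul_assoc, bc_mul, e1, bc_mul, mul_one]
    obtain ⟨z, hz⟩ := aw_pt y1 (h := bchT a b) (IsUnit.of_mul_eq_one _ h1)
    refine ⟨z, hz, bc_ext (by rw [← PtO.pre_comp, e, PtO.pre_comp, hz, e1]) ?_⟩
    have h2 : (z.pre g2).y (bchT b a) * y1.y (bchT a b) = 1 := by
      rw [← hz, pre_apply, pre_apply, ← map_mul]
      exact (congrArg z.y e').trans (map_one _)
    rw [← mul_one ((z.pre g2).y _), ← h1, ← mul_assoc, h2, one_mul]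

theorem Chart.reg_one {B : Type} [CommRing B] [Algebra ℂ B] [Algebra.FiniteType ℂ B] {N : ℕ}
    {y : Fin N → B} (H : Chart y) (i : Fin N) {u : B} (h : y i = u) :
    Reg (B ⧸ Ideal.span {u}) := by
  have := H.reg_quot {i}
  rwa [Finset.coe_singleton, Set.image_singleton, h] at this

theorem triv_bl {q : ℕ} (H : IH R q) {N : ℕ} {y : Fin N → A.A} (hy : Chart y) {i j : Fin N}
    (hij : i ≠ j) {c : CD A q} (hc : δD A q c = 0)
    (h1 : (DRP R).res (A.toBc (y i) (y j)) q c ∈ BdN (A.bc (y i) (y j)) ⊤ ⊤ q)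
    (h2 : (DRP R).res (A.toBc (y j) (y i)) q c ∈ BdN (A.bc (y j) (y i)) ⊤ ⊤ q) :
    c ∈ BdN A ⊤ ⊤ q := by
  obtain ⟨s, hs⟩ := exists_bch_sec hy hij
  obtain ⟨g, e, e'⟩ := exists_bch_g2 (y i) (y j)
  let g2 : Hom (A.bc (y j) (y i)) ((A.bc (y i) (y j)).aw (bchT (y i) (y j))) :=
    ⟨g, by rw [← AlgHom.comp_assoc, e]; rfl⟩
  have M := bl_mvSq g2 (Hom.ext e) e'
  let s' : Hom (A.bc (y i) (y j)) (A.quo (Ideal.span {y i, y j})) :=
    ⟨s, by rw [← AlgHom.comp_assoc, hs]⟩
  have hs' : s'.comp (A.toBc (y i) (y j)) = A.toQuo _ := Hom.ext hs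
  obtain ⟨b, hb, hcb⟩ := rel_lift (Ideal.span {y i, y j}) hc (by
    rw [← hs']; exact res_BdT s' h1)
  have c1 := chart_bch hy hij
  have c2 := chart_bch hy hij.symm
  haveI := ft_bch (y i) (y j)
  haveI := ft_bch (y j) (y i)
  haveI := ft_away (bchT (y i) (y j))
  have c12 := c1.loc (B := Localization.Away (bchT (y i) (y j)))
    (Submonoid.powers (bchT (y i) (y j)))
  have r1 := c1.reg_one i (Function.update_of_ne hij _ _)
  have r2 := c2.reg_one j (Function.update_of_ne hij.symm _ _)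
  have r12 := c12.reg_one i (u := toAway (bchT (y i) (y j)) (bchC (y i) (y j) (y i)))
    (congrArg _ (Function.update_of_ne hij _ _))
  have := mv_forms M c12.reg (etaN_Kil_le _) (etaN_Kil_le _) (etaN_Kil_le _)
    (fun α hα β hβ h => bl_glue hy hij g e e' hα hβ h) (fun ω hω => bl_sum _ _ g e e' hω)
    (rel_acycLt H c12.reg r12) hcb
    (rel_triv H r1 (K_res _ _ (fun x y => (M.k1 x y).1) hcb) (by
      rw [map_sub]; exact sub_mem h1 (res_BdT _ hb)))
    (rel_triv H r2 (K_res _ _ (fun x y => (M.k2 x y).1) hcb) (by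
      rw [map_sub]; exact sub_mem h2 (res_BdT _ hb)))
  have h3 := add_mem (BdN_le_top this) hb
  rwa [sub_add_cancel] at h3

end Pool.Agent.P.MP_824f38_ag.N
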