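import Pool.Agent.P.MP_824f38_ag.N.Mod
import Pool.Agent.P.MP_824f38_ag.N.VIn
import Pool.Agent.P.MP_824f38_ag.N.CSm
import Pool.Agent.P.MP_824f38_ag.N.CLoc
import Pool.Agent.P.MP_824f38_ag.N.CChart
import Pool.Agent.P.MP_824f38_ag.N.LPrime

/-! Forms on a regular object are determined by their germs at the valuation points. -/

set_option linter.unusedVariables false
set_option linter.unusedSectionVars false
set_option linter.style.haveILetI false

namespace Pool.Agent.P.MP_824f38_ag.N

variable {R : Type} [CommRing R] [Algebra ℂ R] [Algebra.FiniteType ℂ R]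

theorem etaD_eq_zero {A : Ob R} (hA : Reg A.A) {ω : DR A.A} (h : etaD A ω = 0) : ω = 0 := by
  refine (Submodule.mem_bot A.A).1 (mem_of_loc fun w => ?_)
  obtain ⟨n, y, H⟩ := hA w
  obtain ⟨g, hg, hd⟩ := lc_domain H
  haveI := hd g hg dvd_rfl
  haveI := ft_away g
  haveI := (hA.away g).smooth
  let ψ := IsScalarTower.toAlgHom ℂ (Localization.Away g) (KB (Localization.Away g))
  let p : PtO A (genPt ((toAway g).comp A.str)) := ⟨ψ.comp (toAway g), rfl⟩
  have h1 : (DRP R).germ p (up A ω) = 0 := congrFun (congrFun h _) p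
  have h2 := stEv_germ p ω
  rw [h1, map_zero] at h2
  have h3 : pull ψ (pull (toAway g) ω) = 0 := (pull_pull _ _ _).trans h2.symm
  have h4 : pull (toAway g) ω = 0 :=
    v_field_inj _ _ ψ (inj_KB _) (h3.trans (map_zero _).symm)
  obtain ⟨k, hk⟩ := dr_loc_ker g h4
  exact ⟨g ^ k, by rw [map_pow]; exact pow_ne_zero _ hg, hk⟩

theorem etaD_inj {A : Ob R} (hA : Reg A.A) : Function.Injective (etaD A) :=
  (injective_iff_map_eq_zero _).2 fun _ => etaD_eq_zero hA

end Pool.Agent.P.MP_824f38_ag.N
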