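import Pool.Agent.P.MP_824f38_ag.N.SBase
import Pool.Agent.P.MP_824f38_ag.N.GGal
import Pool.Agent.P.MP_824f38_ag.N.CRtInv

/-! Triviality of Godement cochains of forms descends along root covers. -/

set_option linter.unusedVariables false
set_option linter.unusedSectionVars false
set_option linter.style.haveILetI false

namespace Pool.Agent.P.MP_824f38_ag.N

variable {R : Type} [CommRing R] [Algebra ℂ R] [Algebra.FiniteType ℂ R]

/-- a root cover -/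
@[reducible] noncomputable def Ob.rt (A : Ob R) (u : A.A) (M : ℕ) : Ob R :=
  A.ext (Rt u M) (ft_rt u M) (toRt u M)

/-- the morphism to a root cover -/
noncomputable def Ob.toRtH (A : Ob R) (u : A.A) (M : ℕ) : Hom A (A.rt u M) := ⟨toRt u M, rfl⟩

theorem rt_galCov {A : Ob R} (u : A.A) {M : ℕ} (hM : 0 < M)
    {ρ : rootsOfUnity M ℂ →* (Rt u M →ₐ[ℂ] Rt u M)}
    (hρ : ∀ ζ, (ρ ζ).comp (toRt u M) = toRt u M ∧
      ρ ζ (AdjoinRoot.root _) = ((ζ : ℂˣ) : ℂ) • AdjoinRoot.root _) :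
    GalCov (A.toRtH u M) ρ ⊤ ⊤ := by
  refine ⟨fun ζ => (hρ ζ).1, fun x y => iff_of_false y.not_kills_top (PtO.not_kills_top _),
    fun x y _ => ?_, fun x y y' _ e => ?_⟩
  · obtain ⟨z, hz⟩ := x.root (y.y u) M hM
    obtain ⟨ψ, e, -⟩ := rt_lift y.y hz
    exact ⟨y.lift (A.toRtH u M) ψ e, y.lift_pre (A.toRtH u M) ψ e⟩
  · have e1 : y.y.comp (toRt u M) = y'.y.comp (toRt u M) := pre_eq e
    obtain ⟨ζ, hζ⟩ := exists_root_of_unity (a := y.y (AdjoinRoot.root _))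
      (b := y'.y (AdjoinRoot.root _)) hM (by
        rw [← map_pow, ← map_pow, rt_pow]; exact DFunLike.congr_fun e1 u)
    refine ⟨ζ, rt_ext (by rw [AlgHom.comp_assoc, (hρ ζ).1, e1]) ?_⟩
    rw [hζ, AlgHom.comp_apply, (hρ ζ).2, map_smul]

theorem triv_root {A : Ob R} (u : A.A) {M : ℕ} (hM : 0 < M) (hR : Reg (Rt u M)) :
    ∀ {j : ℕ} {c : CD A j}, (DRP R).res (A.toRtH u M) j c ∈ BdN (A.rt u M) ⊤ ⊤ j →
      c ∈ BdN A ⊤ ⊤ j := by
  haveI : NeZero M := ⟨hM.ne'⟩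
  obtain ⟨ρ, hρ⟩ := exists_rt_act u M
  have G := rt_galCov u hM hρ
  rintro (_ | j) c h
  · obtain ⟨ω, -, e⟩ := mem_etaN.1 h
    obtain ⟨β, rfl⟩ := rt_inv u hM ρ hρ (ω := ω) fun ζ => etaD_inj (A := A.rt u M) hR (by
      have := gal_res_inv (Z := DRP R) G 0 c ζ
      rwa [← e, res_etaD] at this)
    refine mem_etaN.2 ⟨β, trivial, (sub_eq_zero.1 (gal_inj G (Sub.top _) 0 _ (mem_KT_top _) ?_))⟩
    rw [map_sub, res_etaD, ← e]
    exact sub_self _
  · obtain ⟨b, hb, e⟩ := h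
    exact gal_triv G (Sub.top _) j (mem_KT_top c) hb e

end Pool.Agent.P.MP_824f38_ag.N
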