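import Pool.Agent.P.MP_824f38_ag.N.TRad
import Pool.Agent.P.MP_824f38_ag.N.ARz

/-! Row NEC-TTree: a closed property that holds near every valuation holds

dom_loc reduces to W : DCh. Let L = radCl W. For a valuation subring V of L that contains W (V is root closed, a ℂ-algebra through W) the hypothesis gives B, φ, y'; let t be the image of finitely many generators of B; then 𝒯 (adjoin ℂ (W ∪ t)) by Closed.pull: this is P t. rz_compact gives T; all t lie in one Rad field F.
rad_step and frac_step reduce to W' with j : F → Frac W' such that for each x in the union of the t, j x = a / b with a ∣ b or b ∣ a. Closed.zar: at a closed point w' take a valuation subring V' of KB W' that dominates the local ring of w' (LocalSubring.exists_le_valuationSubring, or Ideal.image_subset_nonunits_valuationSubring for the maximal ideal);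
extend j to L → KB W' (IsAlgClosed.lift, L is algebraic over F); the preimage of V' contains some t; for x in t, j x = a / b in V' and a ∣ b forces b / a to be a unit at w'. So j maps adjoin ℂ (W ∪ t) into Away h with w' h ≠ 0; Closed.pull. -/

set_option linter.unusedVariables false
set_option linter.unusedSectionVars false
set_option linter.style.haveILetI false
set_option linter.dupNamespace false

namespace Pool.Agent.P.MP_824f38_ag.N

theorem TTree_fac {B C K : Type} [CommRing B] [CommRing C] [CommRing K] (f : B →+* K)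
    (l : C →+* K) (hl : Function.Injective l) (h : ∀ x, f x ∈ l.range) :
    ∃ θ : B →+* C, ∀ x, l (θ x) = f x := by
  choose g hg using h
  exact ⟨{ toFun := g
           map_one' := hl (by rw [hg, map_one, map_one])
           map_mul' := fun x y => hl (by rw [map_mul, hg, hg, hg, map_mul])
           map_zero' := hl (by rw [hg, map_zero, map_zero])
           map_add' := fun x y => hl (by rw [map_add, hg, hg, hg, map_add]) }, hg⟩

section

variable {A : Type} [CommRing A] [Algebra ℂ A] {𝒯 : Prp A} {W L : Type} [CommRing W]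
  [Algebra ℂ W] [Field L]

/-- the property holds on every algebra that contains the image of `t` -/
def TTree_P (𝒯 : Prp A) (b : A →ₐ[ℂ] W) (ι : W →+* L) (t : Finset L) : Prop :=
  ∀ (C K : Type) [CommRing C] [Algebra ℂ C] [Algebra.FiniteType ℂ C] [CommRing K]
    (ψ : W →ₐ[ℂ] C) (l : C →+* K) (J : L →+* K), Function.Injective l →
      (∀ a, J (ι a) = l (ψ a)) → (∀ x ∈ t, J x ∈ l.range) → 𝒯 C (ψ.comp b)

theorem TTree_root (hL : RootClosed L) (V : ValuationSubring L) : RootClosed V := by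
  intro v M hM
  obtain ⟨z, hz⟩ := hL v M hM
  have : z ∈ V := by
    rcases V.mem_or_inv_mem z with h | h
    · exact h
    · rcases eq_or_ne z 0 with rfl | h0
      · exact V.zero_mem
      · obtain ⟨n, rfl⟩ := Nat.exists_eq_succ_of_ne_zero hM.ne'
        have e : z = v * z⁻¹ ^ n := by
          rw [← hz, pow_succ', mul_assoc, ← mul_pow, mul_inv_cancel₀ h0, one_pow, mul_one]
        rw [e]
        exact mul_mem v.2 (pow_mem h n)
  exact ⟨⟨z, this⟩, Subtype.ext hz⟩

theorem TTree_val (H : Closed 𝒯) (h : ∀ (V : Type) [CommRing V] [IsDomain V] [ValuationRing V]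
      [Algebra ℂ V], RootClosed V → ∀ y : A →ₐ[ℂ] V, ∃ (B : Type) (_ : CommRing B)
        (_ : Algebra ℂ B) (_ : Algebra.FiniteType ℂ B) (φ : A →ₐ[ℂ] B) (y' : B →ₐ[ℂ] V),
        y'.comp φ = y ∧ 𝒯 B φ) (b : A →ₐ[ℂ] W) (ι : W →+* L) (hL : RootClosed L)
    (V : ValuationSubring L) (hV : Set.range ι ⊆ V) :
    ∃ t : Finset L, (t : Set L) ⊆ V ∧ TTree_P 𝒯 b ι t := by
  classical
  let i : W →+* V := ι.codRestrict V fun a => hV ⟨a, rfl⟩
  letI : Algebra ℂ V := (i.comp (algebraMap ℂ W)).toAlgebra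
  let i' : W →ₐ[ℂ] V := ⟨i, fun _ => rfl⟩
  obtain ⟨B, _, _, hB, φ, y', e, hT⟩ := h V (TTree_root hL V) (i'.comp b)
  obtain ⟨s, hs⟩ := hB.out
  refine ⟨s.image fun x => (y' x : L), fun x hx => ?_, fun C K _ _ _ _ ψ l J hl hJ ht => ?_⟩
  · obtain ⟨z, -, rfl⟩ := Finset.mem_image.1 (Finset.mem_coe.1 hx)
    exact (y' z).2
  · let f : B →+* K := J.comp (V.subtype.comp (y' : B →+* V))
    have hf : ∀ x, f x = J (y' x : L) := fun _ => rfl
    have hc : ∀ c : ℂ, f (algebraMap ℂ B c) = l (algebraMap ℂ C c) := fun c => by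
      rw [hf, y'.commutes, ← ψ.commutes, ← hJ]; rfl
    obtain ⟨θ, hθ⟩ := TTree_fac f l hl fun x => by
      have hx : x ∈ Algebra.adjoin ℂ (s : Set B) := hs ▸ Algebra.mem_top
      induction hx using Algebra.adjoin_induction with
      | mem z hz => exact ht _ (Finset.mem_image_of_mem _ hz)
      | algebraMap c => exact ⟨_, (hc c).symm⟩
      | add x y _ _ hx hy => rw [map_add]; exact add_mem hx hy
      | mul x y _ _ hx hy => rw [map_mul]; exact mul_mem hx hy
    let θ' : B →ₐ[ℂ] C := ⟨θ, fun c => hl ((hθ _).trans (hc c))⟩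
    have e' : θ'.comp φ = ψ.comp b := AlgHom.ext fun a => hl (by
      have := DFunLike.congr_fun e a
      rw [AlgHom.comp_apply] at this
      refine (hθ (φ a)).trans ?_
      rw [hf, this]
      exact hJ _)
    exact e' ▸ H.pull B C φ θ' hT

theorem TTree_last (H : Closed 𝒯) (b : A →ₐ[ℂ] W) (ι : W →+* L) (T : Finset (Finset L))
    (hP : ∀ t ∈ T, TTree_P 𝒯 b ι t)
    (hT : ∀ V : ValuationSubring L, Set.range ι ⊆ V → ∃ t ∈ T, (t : Set L) ⊆ V) (W' : DCh)
    (ψ : W →ₐ[ℂ] W'.W) {K : Type} [Field K] (l : W'.W →+* K) (hl : Function.Injective l)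
    (J : L →+* K) (hJ : ∀ a, J (ι a) = l (ψ a))
    (hx : ∀ t ∈ T, ∀ x ∈ t, ∃ p q, q ≠ 0 ∧ J x = l p / l q ∧ (p ∣ q ∨ q ∣ p)) :
    𝒯 W'.W (ψ.comp b) := by
  refine H.zar W'.W _ W'.chart.reg fun w => ?_
  have l0 : ∀ {a}, a ≠ 0 → l a ≠ 0 := fun h => (map_ne_zero_iff l hl).2 h
  obtain ⟨θ, hθ⟩ := TTree_fac l.range.subtype l hl fun x => x.2
  obtain ⟨V, h1, h2⟩ := Ideal.image_subset_nonunits_valuationSubring
    (RingHom.ker ((w : W'.W →+* ℂ).comp θ)) (RingHom.ker_ne_top _)
  have h3 : ∀ c, c ≠ 0 → (l c)⁻¹ ∈ V → w c ≠ 0 := fun c hc hV hw => by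
    have e : θ ⟨l c, c, rfl⟩ = c := hl (hθ _)
    have := h2 ⟨⟨l c, c, rfl⟩, by
      change w (θ _) = 0
      rw [e, hw], rfl⟩
    exact (V.mem_nonunits_iff_or.1 this).elim (l0 hc) fun h => h hV
  obtain ⟨t, ht, htV⟩ := hT (V.comap J) (by
    rintro _ ⟨a, rfl⟩
    exact ValuationSubring.mem_comap.2 (hJ a ▸ h1 ⟨_, rfl⟩))
  have h4 : ∀ x ∈ t, ∃ c, w c ≠ 0 ∧ ∃ e, J x * l c = l e := fun x hxt => by
    obtain ⟨p, q, hq, e, ⟨c, rfl⟩ | ⟨c, rfl⟩⟩ := hx t ht x hxt
    · have e' : J x = (l c)⁻¹ := by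
        rw [e, map_mul, div_mul_eq_div_div, div_self (l0 (left_ne_zero_of_mul hq)), one_div]
      have hc := right_ne_zero_of_mul hq
      exact ⟨c, h3 c hc (e' ▸ ValuationSubring.mem_comap.1 (htV hxt)), 1, by
        rw [e', inv_mul_cancel₀ (l0 hc), map_one]⟩
    · exact ⟨1, by simp, c, by rw [e, map_one, mul_one, map_mul, mul_div_cancel_left₀ _ (l0 hq)]⟩
  choose! c hc e he using h4
  have hw : w (∏ x ∈ t, c x) ≠ 0 := by
    rw [map_prod]; exact Finset.prod_ne_zero_iff.2 hc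
  refine ⟨_, hw, ?_⟩
  set h := ∏ x ∈ t, c x with hh
  have h0 : h ≠ 0 := fun e => hw (by rw [e, map_zero])
  haveI := ft_away h
  let l' : Localization.Away h →+* K := IsLocalization.Away.lift h (l0 h0).isUnit
  have hl' : ∀ a, l' (algebraMap _ _ a) = l a := IsLocalization.Away.lift_eq _ _
  refine hP t ht (Localization.Away h) K ((toAway h).comp ψ) l' J ?_
    (fun a => (hJ a).trans (hl' _).symm) fun x hxt => ?_
  · rw [injective_iff_map_eq_zero]
    intro z hz
    obtain ⟨n, a, ha⟩ := IsLocalization.Away.surj h z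
    have : a = 0 := hl (by rw [← hl', ← ha, map_mul, hz, zero_mul, map_zero])
    rw [this, map_zero] at ha
    exact ((IsLocalization.Away.algebraMap_isUnit h).pow n).mul_left_eq_zero.1 ha
  · obtain ⟨v, hv⟩ := (isUnit_of_dvd_unit (map_dvd (algebraMap _ (Localization.Away h))
      (Finset.dvd_prod_of_mem c hxt)) (IsLocalization.Away.algebraMap_isUnit h)).exists_right_inv
    refine ⟨algebraMap _ _ (e x) * v, ?_⟩
    rw [map_mul, hl', ← he x hxt, ← hl', mul_assoc, ← map_mul, hv, map_one, mul_one]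

theorem TTree_frac (H : Closed 𝒯) {κ : Type} [Finite κ] (W : DCh) (b : A →ₐ[ℂ] W.W)
    (p q : κ → W.W) (h : ∀ (W' : DCh) (φ : W.W →ₐ[ℂ] W'.W), Function.Injective φ →
      (∀ i, φ (p i) ∣ φ (q i) ∨ φ (q i) ∣ φ (p i)) → 𝒯 W'.W (φ.comp b)) : 𝒯 W.W b := by
  have := Fintype.ofFinite κ
  obtain ⟨e, he⟩ := Countable.exists_injective_nat (κ ⊕ κ)
  refine frac_step H (Finset.univ.toList.map fun i => (e (.inl i), e (.inr i))) W b
    (Function.extend e (Sum.elim p q) 0) fun W' φ hφ h' => h W' φ hφ fun i => ?_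
  have := h' _ (List.mem_map_of_mem (Finset.mem_toList.2 (Finset.mem_univ i)))
  simpa only [he.extend_apply, Sum.elim_inl, Sum.elim_inr] using this

end

theorem tree {A : Type} [CommRing A] [Algebra ℂ A] [Algebra.FiniteType ℂ A] {𝒯 : Prp A}
    (H : Closed 𝒯) (hA : Reg A) (h : ∀ (V : Type) [CommRing V] [IsDomain V] [ValuationRing V]
      [Algebra ℂ V], RootClosed V → ∀ y : A →ₐ[ℂ] V, ∃ (B : Type) (_ : CommRing B)
        (_ : Algebra ℂ B) (_ : Algebra.FiniteType ℂ B) (φ : A →ₐ[ℂ] B) (y' : B →ₐ[ℂ] V),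
        y'.comp φ = y ∧ 𝒯 B φ) : 𝒯 A (AlgHom.id ℂ A) := by
  classical
  refine dom_loc H A _ hA fun W b _ => ?_
  rw [AlgHom.comp_id]
  let ι : W.W →+* radCl W.W := (algebraMap (FractionRing W.W) _).comp (algebraMap W.W _)
  obtain ⟨T, hP, hT⟩ := rz_compact (Set.range ι) (TTree_P 𝒯 b ι)
    (TTree_val H h b ι (rootClosed_radCl W.W))
  obtain ⟨F, hF, hF'⟩ := exists_rad_of_finset W.W ((T.biUnion id).image Subtype.val) fun x hx => by
    obtain ⟨z, -, rfl⟩ := Finset.mem_image.1 hx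
    exact z.2
  refine rad_step H W b hF fun W1 φ hφ ⟨j, hj⟩ => ?_
  choose p q hq hpq using fun x : T.biUnion id => IsFractionRing.div_surjective (A := W1.W)
    (j ⟨x.1, hF' _ (Finset.mem_image_of_mem _ x.2)⟩)
  refine TTree_frac H W1 _ p q fun W2 φ' hφ' hd => ?_
  have hl : Function.Injective ((algebraMap W2.W (KB W2.W)).comp (φ' : W1.W →+* W2.W)) :=
    (inj_KB W2.W).comp hφ'
  let μ : FractionRing W1.W →+* KB W2.W := IsFractionRing.lift hl
  have hμ : ∀ a, μ (algebraMap _ _ a) = algebraMap W2.W (KB W2.W) (φ' a) :=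
    IsFractionRing.lift_algebraMap hl
  letI : Algebra F (KB W2.W) := (μ.comp j).toAlgebra
  let J : KB W.W →ₐ[F] KB W2.W := IsAlgClosed.lift
  have hJ : ∀ x : F, J x = μ (j x) := J.commutes
  refine TTree_last H b ι T hP hT W2 (φ'.comp φ) (algebraMap _ (KB W2.W)) (inj_KB W2.W)
    ((J : KB W.W →+* KB W2.W).comp (radCl W.W).val) (fun a => ?_) fun t ht x hx => ?_
  · exact (hJ (algebraMap (FractionRing W.W) F (algebraMap W.W _ a))).trans (by rw [hj, hμ]; rfl)
  · let x' : T.biUnion id := ⟨x, Finset.mem_biUnion.2 ⟨t, ht, hx⟩⟩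
    refine ⟨φ' (p x'), φ' (q x'), (map_ne_zero_iff _ hφ').2 (nonZeroDivisors.ne_zero (hq x')), ?_,
      hd x'⟩
    rw [← hμ, ← hμ, ← map_div₀, hpq]
    exact hJ ⟨x.1, _⟩

end Pool.Agent.P.MP_824f38_ag.N
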