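import Pool.Agent.P.MP_824f38_ag.N.SBl
import Pool.Agent.P.MP_824f38_ag.N.SRoot
import Pool.Agent.P.MP_824f38_ag.N.TTree
import Pool.Agent.P.MP_824f38_ag.N.CDiv

/-! The Godement complex of the forms on a regular object is a resolution of the forms. -/

set_option linter.unusedVariables false
set_option linter.unusedSectionVars false
set_option linter.style.haveILetI false

namespace Pool.Agent.P.MP_824f38_ag.N

variable {R : Type} [CommRing R] [Algebra ℂ R] [Algebra.FiniteType ℂ R]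

/-- the cochain becomes trivial -/
def TrivOn {A : Ob R} {j : ℕ} (c : CD A j) : Prp A.A := fun B _ _ b =>
  ∀ hB : Algebra.FiniteType ℂ B,
    (DRP R).res (A.toExt B hB b) j c ∈ BdN (A.ext B hB b) ⊤ ⊤ j

theorem closed_trivOn {j : ℕ} (H : IH R j) {A : Ob R} {c : CD A j} (hc : δD A j c = 0) :
    Closed (TrivOn c) where
  pull B B' _ _ _ _ hB hB' b φ h _ :=
    res_BdT (A := A.ext B hB b) (B := A.ext B' hB' (φ.comp b)) ⟨φ, rfl⟩ (h hB)
  zar B _ _ hB b hR h _ := triv_zar H (A := A.ext B hB b) hR fun w =>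
    (h w).imp fun s hs => ⟨hs.1, hs.2 (ft_away s)⟩
  root B _ _ hB b u M hM hR h _ := triv_root (A := A.ext B hB b) u hM hR (h (ft_rt u M))
  bl B _ _ hB b N y i k hy hik h1 h2 _ := triv_bl H (A := A.ext B hB b) hy hik
    (((DRP R).res_δ _ j c).symm.trans (by rw [show (DRP R).δ A j c = 0 from hc, map_zero]))
    (h1 (ft_bch _ _)) (h2 (ft_bch _ _))

theorem mem_BdT_of_eta {A : Ob R} : ∀ {j : ℕ} {c : CD A j},
    (∃ z, ((DRP R).tw j).eta A z = c) → c ∈ BdN A ⊤ ⊤ j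
  | 0, c, ⟨z, e⟩ => ⟨z, trivial, e⟩
  | j + 1, c, ⟨z, e⟩ => by
    obtain ⟨b, rfl⟩ := (DRP R).cl_surj A j z
    exact ⟨b, mem_KT_top b, e⟩

theorem IH_all : ∀ j, IH R j
  | 0 => fun A _ i hi => absurd hi (Nat.not_lt_zero i)
  | j + 1 => fun A hA i hi => by
    rcases (Nat.lt_succ_iff_lt_or_eq.1 hi) with h | h
    · exact IH_all j A hA i h
    subst h
    intro c hc
    refine tree (closed_trivOn (IH_all i) hc.2) hA (fun V _ _ _ _ hV y => ?_) A.ft
    obtain ⟨B, φ, y', e, h⟩ := (DRP R).loc_triv hc.2 (x := ⟨V, hV, y.comp A.str⟩) ⟨y, rfl⟩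
    refine ⟨B.A, B.ring, B.alg, B.ft, φ.f, y'.y, congrArg PtO.y e, fun hB => ?_⟩
    exact res_BdT (A := B) (B := A.ext B.A hB φ.f) ⟨AlgHom.id ℂ _, φ.hf.symm⟩
      (mem_BdT_of_eta h)

theorem main_acyc {A : Ob R} (hA : Reg A.A) : Acyc (δD A) (KT A ⊤) (etaN A ⊤) :=
  ⟨etaN_le_top _, fun i => IH_all (i + 1) A hA i (Nat.lt_succ_self i)⟩

theorem sreg_quot {A : Type} [CommRing A] [Algebra ℂ A] [Algebra.FiniteType ℂ A] {σ : ℕ → A}
    (H : SReg σ) (i : ℕ) :
    SReg (Function.update (fun j => Ideal.Quotient.mkₐ ℂ (Ideal.span {σ i}) (σ j)) i 1) := by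
  intro w
  obtain ⟨n, y, lab, h, L⟩ := H (w.comp (Ideal.Quotient.mkₐ ℂ (Ideal.span {σ i})))
  obtain ⟨k, hk⟩ := L.ex i (by
    rw [AlgHom.comp_apply, Ideal.Quotient.mkₐ_eq_mk,
      Ideal.Quotient.eq_zero_iff_mem.2 (Ideal.mem_span_singleton_self _), map_zero])
  refine ⟨_, snc_quot _ (Ideal.Quotient.mkₐ_surjective ℂ _) h L {k} ?_ fun j => ?_⟩
  · rw [Finset.coe_singleton, Set.image_singleton, L.eq k i hk]
    exact congrArg _ (Ideal.Quotient.mkₐ_ker ℂ _)
  · by_cases hj : j = i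
    · right; rw [hj, Function.update_self, map_one]; exact one_ne_zero
    · refine Or.inl ⟨Function.update_of_ne hj _ _, fun l hl e => hj ?_⟩
      rw [Finset.mem_singleton.1 hl, hk] at e
      exact (WithBot.coe_injective e).symm

theorem snc_acyc (J : Finset ℕ) : ∀ {A : Ob R} {σ : ℕ → A.A}, FinDiv σ → SReg σ →
    Acyc (δD A) (KT A (Ideal.span {∏ j ∈ J, σ j})) (etaN A (Ne σ J fun _ => 1)) := by
  induction J using Finset.induction_on with
  | empty =>
    intro A σ _ H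
    rw [Finset.prod_empty, Ideal.span_singleton_one, Ne_empty]
    exact main_acyc H.reg
  | insert i J hi ih =>
    intro A σ hσ H
    have H' := sreg_quot H i
    set 𝔞 := Ideal.span {σ i} with h𝔞
    set σ' := Function.update (fun j => Ideal.Quotient.mkₐ ℂ 𝔞 (σ j)) i 1 with hσ'
    have e : ∀ j ∈ J, (A.toQuo 𝔞).f (σ j) = σ' j := fun j hj =>
      (Function.update_of_ne (a := j) (a' := i) (fun h => hi (h ▸ hj)) 1
        fun j => Ideal.Quotient.mkₐ ℂ 𝔞 (σ j)).symm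
    have f' : FinDiv σ' := hσ.imp fun m hm j hj => by
      by_cases h : j = i
      · rw [h, hσ', Function.update_self]
      · rw [hσ', Function.update_of_ne h, hm j hj, map_one]
    refine pair_acyc ((DRP R).sq_δ A) (pair_ses (Sub.top _) (A.toQuo 𝔞) (toQuo_surj 𝔞)
      (fun x y => ?_) (fun x y => ?_)) (K_sc _ A _) (etaN_surj _ fun ω hω => ?_) (fun c => ?_)
      (ih hσ H) (ih (A := A.quo 𝔞) f' H')
    · rw [ker_toQuo, kills_one, kills_one, kills_one, Finset.prod_insert hi, map_mul, mul_eq_zero,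
        or_comm]
    · rw [kills_one, kills_one, pre_apply, map_prod (A.toQuo 𝔞).f, Finset.prod_congr rfl e]
    · exact pull_Ne_surj _ (toQuo_surj 𝔞) (by rwa [Ne_congr e fun _ _ => rfl])
    · constructor
      · intro hc
        obtain ⟨ω, hω, rfl⟩ := mem_etaN.1 hc
        have := Ne_insert_le hi hω
        refine ⟨mem_etaN.2 ⟨ω, this.1, rfl⟩, ?_⟩
        rw [res_etaD, (pull_eq_zero_iff _ (toQuo_surj 𝔞) ω).2 (by rw [ker_toQuo]; exact this.2),
          map_zero]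
      · rintro ⟨hc, h0⟩
        obtain ⟨ω, hω, rfl⟩ := mem_etaN.1 hc
        exact mem_etaN.2 ⟨ω, div_snc hσ H hi ⟨hω, mem_Kil_of_res H'.reg h0⟩, rfl⟩

end Pool.Agent.P.MP_824f38_ag.N
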