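import Pool.Agent.P.MP_824f38_ag.N.TRoot

/-! Row NEC-TRad: radical towers

Radical extensions: Rad is closed under ⊔ (induction on the second field), so radCl is a directed union, every finite subset lies in one Rad field, and radCl is root closed (K is algebraically closed).
rad_step: induction on Rad F. For F' = F ⊔ W(α), α^M = β in F: given W', φ, j write j β = f / g with f, g in W'.W (j takes values in FractionRing W'.W). Let a = f g^(M-1); root_step gives W'' with z^M = a, so X^M - j β splits in FractionRing W''.W (roots ζ z / g);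
the minimal polynomial of α over F divides it; extend j (IntermediateField.exists_algHom_adjoin_of_splits or adjoinRootEquivAdjoin with a root). -/

set_option linter.unusedVariables false
set_option linter.unusedSectionVars false
set_option linter.style.haveILetI false
set_option linter.dupNamespace false

namespace Pool.Agent.P.MP_824f38_ag.N

variable {U : Type} [CommRing U] [Algebra ℂ U] {𝒯 : Prp U}

/-- fields obtained from the fraction field of `W` by successively adjoining roots -/
inductive Rad (W : Type) [CommRing W] [IsDomain W] :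
    IntermediateField (FractionRing W) (KB W) → Prop
  | bot : Rad W ⊥
  | step (F : IntermediateField (FractionRing W) (KB W)) (α : KB W) (M : ℕ) (hM : 0 < M)
      (h : α ^ M ∈ F) (hF : Rad W F) : Rad W (F ⊔ IntermediateField.adjoin _ {α})

/-- the radical closure -/
noncomputable def radCl (W : Type) [CommRing W] [IsDomain W] :
    IntermediateField (FractionRing W) (KB W) := sSup {F | Rad W F}

private theorem rad_sup {W : Type} [CommRing W] [IsDomain W]
    {F G : IntermediateField (FractionRing W) (KB W)} (hF : Rad W F) (hG : Rad W G) :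
    Rad W (F ⊔ G) := by
  induction hG with
  | bot => rwa [sup_bot_eq]
  | step G α M hM h hG ih =>
    rw [← sup_assoc]
    exact Rad.step _ α M hM ((le_sup_right : G ≤ F ⊔ G) h) ih

private theorem mem_radCl {W : Type} [CommRing W] [IsDomain W] {x : KB W} :
    x ∈ radCl W ↔ ∃ F, Rad W F ∧ x ∈ F := by
  constructor
  · intro hx
    haveI : Nonempty {F // Rad W F} := ⟨⟨⊥, Rad.bot⟩⟩
    have hd : Directed (· ≤ ·)
        (fun F : {F // Rad W F} => (F.1 : IntermediateField (FractionRing W) (KB W))) :=
      fun F G => ⟨⟨F.1 ⊔ G.1, rad_sup F.2 G.2⟩, le_sup_left, le_sup_right⟩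
    have h1 : radCl W = ⨆ F : {F // Rad W F}, F.1 := sSup_eq_iSup' _
    have h2 : x ∈ ((⨆ F : {F // Rad W F}, F.1 : IntermediateField (FractionRing W) (KB W)) :
        Set (KB W)) := by
      rw [← h1]; exact hx
    rw [IntermediateField.coe_iSup_of_directed hd] at h2
    obtain ⟨F, hF⟩ := Set.mem_iUnion.1 h2
    exact ⟨F.1, F.2, hF⟩
  · rintro ⟨F, hF, hx⟩
    exact (le_sSup (s := {F | Rad W F}) hF : F ≤ radCl W) hx

theorem rootClosed_radCl (W : Type) [CommRing W] [IsDomain W] : RootClosed (radCl W) := by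
  intro v M hM
  obtain ⟨F, hF, hv⟩ := mem_radCl.1 v.2
  obtain ⟨z, hz⟩ := IsAlgClosed.exists_pow_nat_eq (v : KB W) hM
  have hR := Rad.step F z M hM (by rw [hz]; exact hv) hF
  refine ⟨⟨z, mem_radCl.2 ⟨_, hR, ?_⟩⟩, Subtype.ext hz⟩
  exact (le_sup_right : _ ≤ F ⊔ IntermediateField.adjoin _ {z})
    (IntermediateField.mem_adjoin_simple_self _ z)

theorem exists_rad_of_finset (W : Type) [CommRing W] [IsDomain W] (t : Finset (KB W))
    (h : ∀ x ∈ t, x ∈ radCl W) : ∃ F, Rad W F ∧ ∀ x ∈ t, x ∈ F := by
  classical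
  induction t using Finset.induction_on with
  | empty => exact ⟨⊥, Rad.bot, fun x hx => absurd hx (Finset.notMem_empty x)⟩
  | insert a t ha ih =>
    obtain ⟨F, hF, hFt⟩ := ih fun x hx => h x (Finset.mem_insert_of_mem hx)
    obtain ⟨G, hG, haG⟩ := mem_radCl.1 (h a (Finset.mem_insert_self a t))
    refine ⟨F ⊔ G, rad_sup hF hG, fun x hx => ?_⟩
    rcases Finset.mem_insert.1 hx with rfl | hx
    · exact (le_sup_right : G ≤ F ⊔ G) haG
    · exact (le_sup_left : F ≤ F ⊔ G) (hFt x hx)

/-- extension of an embedding to a radical extension -/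
private theorem ext_hom {K0 K L : Type} [Field K0] [Field K] [Algebra K0 K] [Field L]
    (F : IntermediateField K0 K) (α : K) {M : ℕ} (hM : 0 < M) (h : α ^ M ∈ F) (j : F →+* L)
    {ζ : L} (hζ : IsPrimitiveRoot ζ M) {z : L} (hz : z ^ M = j ⟨α ^ M, h⟩) :
    ∃ j' : (F ⊔ IntermediateField.adjoin K0 {α} : IntermediateField K0 K) →+* L,
      ∀ x : F, j' ⟨x, (le_sup_left : F ≤ F ⊔ IntermediateField.adjoin K0 {α}) x.2⟩ = j x := by
  letI : Algebra F L := j.toAlgebra
  have hp : Polynomial.aeval α
      (Polynomial.X ^ M - Polynomial.C (⟨α ^ M, h⟩ : F) : Polynomial F) = 0 := by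
    rw [map_sub, map_pow, Polynomial.aeval_X, Polynomial.aeval_C]
    exact sub_self _
  have hmon : (Polynomial.X ^ M - Polynomial.C (⟨α ^ M, h⟩ : F) : Polynomial F).Monic :=
    Polynomial.monic_X_pow_sub_C _ hM.ne'
  have hint : IsIntegral F α := ⟨_, hmon, by rw [← Polynomial.aeval_def]; exact hp⟩
  have hsp : ((minpoly F α).map (algebraMap F L)).Splits := by
    have h1 := X_pow_sub_C_splits_of_isPrimitiveRoot hζ hz
    refine h1.of_dvd (Polynomial.monic_X_pow_sub_C _ hM.ne').ne_zero ?_
    have h2 := Polynomial.map_dvd (algebraMap F L) (minpoly.dvd F α hp)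
    rw [Polynomial.map_sub, Polynomial.map_pow, Polynomial.map_X, Polynomial.map_C] at h2
    exact h2
  obtain ⟨φ⟩ := IntermediateField.nonempty_algHom_adjoin_of_splits (F := F) (E := K) (K := L)
    (S := {α}) (fun s hs => by rw [Set.mem_singleton_iff.1 hs]; exact ⟨hint, hsp⟩)
  have hle : ∀ x : K, x ∈ (F ⊔ IntermediateField.adjoin K0 {α} : IntermediateField K0 K) →
      x ∈ IntermediateField.adjoin F {α} := by
    intro x hx
    rw [← IntermediateField.restrictScalars_adjoin_eq_sup] at hx
    exact hx
  let ι : (F ⊔ IntermediateField.adjoin K0 {α} : IntermediateField K0 K) →+*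
      IntermediateField.adjoin F {α} :=
    { toFun := fun x => ⟨x.1, hle x.1 x.2⟩
      map_one' := rfl
      map_mul' := fun _ _ => rfl
      map_zero' := rfl
      map_add' := fun _ _ => rfl }
  exact ⟨φ.toRingHom.comp ι, fun x => φ.commutes x⟩

theorem rad_step (H : Closed 𝒯) (W : DCh) (b : U →ₐ[ℂ] W.W)
    {F : IntermediateField (FractionRing W.W) (KB W.W)} (hF : Rad W.W F)
    (h : ∀ (W' : DCh) (φ : W.W →ₐ[ℂ] W'.W), Function.Injective φ →
      (∃ j : F →+* FractionRing W'.W, ∀ a : W.W,
        j (algebraMap (FractionRing W.W) F (algebraMap W.W _ a)) = algebraMap W'.W _ (φ a)) →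
      𝒯 W'.W (φ.comp b)) : 𝒯 W.W b := by
  induction hF with
  | bot =>
    have := h W (AlgHom.id ℂ W.W) Function.injective_id
      ⟨(IntermediateField.botEquiv (FractionRing W.W) (KB W.W)).toRingEquiv.toRingHom, fun a =>
        (IntermediateField.botEquiv (FractionRing W.W) (KB W.W)).commutes _⟩
    rwa [AlgHom.id_comp] at this
  | step F α M hM hα hF ih =>
    refine ih ?_
    rintro W' φ hφ ⟨j, hj⟩
    obtain ⟨f, g, hg, hfg⟩ := IsFractionRing.div_surjective W'.W (j ⟨α ^ M, hα⟩)
    refine root_step H W' (φ.comp b) (f * g ^ (M - 1)) hM ?_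
    rintro W'' ψ hψ ⟨z, hz⟩
    have hinj : Function.Injective
        ((algebraMap W''.W (FractionRing W''.W)).comp (ψ : W'.W →+* W''.W)) :=
      (IsFractionRing.injective W''.W (FractionRing W''.W)).comp hψ
    let m : FractionRing W'.W →+* FractionRing W''.W := IsFractionRing.lift hinj
    have hm : ∀ x : W'.W, m (algebraMap W'.W _ x) = algebraMap W''.W _ (ψ x) := fun x =>
      IsFractionRing.lift_algebraMap hinj x
    have hg0 : algebraMap W''.W (FractionRing W''.W) (ψ g) ≠ 0 := by
      intro h0
      refine nonZeroDivisors.ne_zero hg (hinj ?_)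
      rw [map_zero]; exact h0
    have hζ : IsPrimitiveRoot (algebraMap ℂ (FractionRing W''.W)
        (Complex.exp (2 * Real.pi * Complex.I / M))) M :=
      (Complex.isPrimitiveRoot_exp M hM.ne').map_of_injective (algebraMap ℂ _).injective
    have hroot : (algebraMap W''.W (FractionRing W''.W) z /
        algebraMap W''.W (FractionRing W''.W) (ψ g)) ^ M = (m.comp j) ⟨α ^ M, hα⟩ := by
      obtain ⟨M', rfl⟩ : ∃ M', M = M' + 1 := ⟨M - 1, by omega⟩
      rw [RingHom.comp_apply, ← hfg, map_div₀, hm, hm, div_pow, ← map_pow, hz,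
        Nat.add_sub_cancel, map_mul, map_pow, map_mul, map_pow, pow_succ', mul_div_mul_right]
      exact pow_ne_zero _ hg0
    obtain ⟨j', hj'⟩ := ext_hom F α hM hα (m.comp j) hζ hroot
    rw [← AlgHom.comp_assoc]
    refine h W'' (ψ.comp φ) (hψ.comp hφ) ⟨j', fun a => ?_⟩
    have h1 := hj' (algebraMap (FractionRing W.W) F (algebraMap W.W _ a))
    rw [RingHom.comp_apply, hj, hm] at h1
    exact h1

end Pool.Agent.P.MP_824f38_ag.N
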