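import Pool.Agent.P.MP_824f38_ag.N.TPt
import Pool.Agent.P.MP_824f38_ag.N.LPrime

/-! Row NEC-TRoot: extraction of roots and comparison of fractions

dom_loc: Closed.zar; at w take h from lc_domain (Chart.lc), W = Away h with Chart.loc. root_step: pt for the family (a); on W' pass successively to Rt (y i) M for all i (chart_kummer) and Rt ε M (chart_unit_root), using Closed.root; a general statement for charts B (not domains):
if 𝒯 holds for all charts B1 over B in which regular elements stay regular (rt_regular) and a has an M-th root, then 𝒯 B. Finish with dom_loc; a nonzero element of W' stays regular, hence nonzero in the nontrivial ring. frac_step: induction on the list, pt for the family (a, b) (trivial if both vanish). -/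

set_option linter.unusedVariables false
set_option linter.unusedSectionVars false
set_option linter.style.haveILetI false
set_option linter.dupNamespace false

namespace Pool.Agent.P.MP_824f38_ag.N

variable {U : Type} [CommRing U] [Algebra ℂ U] {𝒯 : Prp U}

theorem dom_loc (H : Closed 𝒯) (B : Type) [CommRing B] [Algebra ℂ B] [Algebra.FiniteType ℂ B]
    (b : U →ₐ[ℂ] B) (hB : Reg B) (h : ∀ (W : DCh) (φ : B →ₐ[ℂ] W.W),
      (∀ a ∈ nonZeroDivisors B, φ a ≠ 0) → 𝒯 W.W (φ.comp b)) : 𝒯 B b := by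
  refine H.zar B b hB fun w => ?_
  obtain ⟨n, y, hy⟩ := hB w
  obtain ⟨h1, e1, H1⟩ := lc_domain hy
  obtain ⟨h2, e2, H2⟩ := lc_chart hy
  have e : w (h1 * h2) ≠ 0 := by rw [map_mul]; exact mul_ne_zero e1 e2
  haveI := H1 (h1 * h2) e (dvd_mul_right _ _)
  haveI := ft_away (h1 * h2)
  refine ⟨h1 * h2, e, h ⟨Localization.Away (h1 * h2), n, _, H2 _ (dvd_mul_left _ _)⟩
    (toAway (h1 * h2)) fun a ha => ?_⟩
  exact nonZeroDivisors.ne_zero (IsLocalization.nonZeroDivisors_le_comap
    (Submonoid.powers (h1 * h2)) (Localization.Away (h1 * h2)) ha)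

private theorem troot_kum (H : Closed 𝒯) {N M : ℕ} (hM : 0 < M) (l : List (Fin N)) :
    ∀ (B : Type) [CommRing B] [Algebra ℂ B] [Algebra.FiniteType ℂ B] (b : U →ₐ[ℂ] B)
      (y : Fin N → B), Chart y →
      (∀ (B1 : Type) [CommRing B1] [Algebra ℂ B1] [Algebra.FiniteType ℂ B1] (φ : B →ₐ[ℂ] B1)
        (y1 : Fin N → B1), Chart y1 → (∀ a ∈ nonZeroDivisors B, φ a ∈ nonZeroDivisors B1) →
        (∀ i ∈ l, ∃ z, z ^ M = φ (y i)) → 𝒯 B1 (φ.comp b)) → 𝒯 B b := by
  induction l with
  | nil =>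
    intro B _ _ _ b y hy h
    exact h B (AlgHom.id ℂ B) y hy (fun a ha => ha) (fun i hi => absurd hi List.not_mem_nil)
  | cons i l ih =>
    intro B _ _ _ b y hy h
    haveI := ft_rt (y i) M
    have hc := chart_kummer hy i hM
    refine H.root B b (y i) M hM hc.reg (ih _ _ _ hc fun B1 _ _ _ φ y1 hy1 h1 h2 => ?_)
    refine h B1 (φ.comp (toRt (y i) M)) y1 hy1 (fun a ha => h1 _ (rt_regular _ hM ha)) fun k hk => ?_
    by_cases hki : k = i
    · subst hki
      exact ⟨φ (AdjoinRoot.root _), by rw [← map_pow, rt_pow]; rfl⟩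
    · obtain ⟨z, hz⟩ := h2 k ((List.mem_cons.1 hk).resolve_left hki)
      rw [Function.update_of_ne hki] at hz
      exact ⟨z, hz⟩

theorem root_step (H : Closed 𝒯) (W : DCh) (b : U →ₐ[ℂ] W.W) (a : W.W) {M : ℕ} (hM : 0 < M)
    (h : ∀ (W' : DCh) (φ : W.W →ₐ[ℂ] W'.W), Function.Injective φ → (∃ z, z ^ M = φ a) →
      𝒯 W'.W (φ.comp b)) : 𝒯 W.W b := by
  by_cases ha : a = 0
  · exact h W (AlgHom.id ℂ W.W) Function.injective_id ⟨0, by rw [ha, map_zero, zero_pow hM.ne']⟩
  refine pt H W b (fun _ : Unit => a) ⟨(), ha⟩ ?_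
  rintro W' φ hφ ⟨_, c, ε, hε, e, -⟩
  refine troot_kum H hM (List.finRange W'.N) W'.W _ W'.y W'.chart
    fun B1 _ _ _ φ1 y1 hy1 h1 h2 => ?_
  choose z hz using fun i => h2 i (List.mem_finRange i)
  haveI := ft_rt (φ1 ε) M
  have hc := chart_unit_root hy1 (hε.map φ1) hM
  refine H.root B1 _ (φ1 ε) M hM hc.reg (dom_loc H _ _ hc.reg fun W'' ψ hψ => ?_)
  refine h W'' (ψ.comp ((toRt (φ1 ε) M).comp (φ1.comp φ))) ?_
    ⟨ψ (AdjoinRoot.root _ * ∏ i, toRt (φ1 ε) M (z i) ^ c i), ?_⟩
  · refine (injective_iff_map_eq_zero _).2 fun x hx => ?_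
    by_contra h0
    have h3 : φ x ≠ 0 := fun h4 => h0 (hφ (h4.trans (map_zero φ).symm))
    exact hψ _ (rt_regular _ hM (h1 _ (mem_nonZeroDivisors_of_ne_zero h3))) hx
  · change _ = ψ (toRt (φ1 ε) M (φ1 (φ a)))
    rw [← map_pow, mul_pow, rt_pow, e, map_mul φ1, map_mul (toRt (φ1 ε) M), map_prod φ1,
      map_prod (toRt (φ1 ε) M), ← Finset.prod_pow]
    refine congrArg ψ (congrArg _ (Finset.prod_congr rfl fun i _ => ?_))
    rw [map_pow φ1, ← hz, map_pow, map_pow, pow_right_comm]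

theorem frac_step (H : Closed 𝒯) (l : List (ℕ × ℕ)) (W : DCh) (b : U →ₐ[ℂ] W.W) (a : ℕ → W.W)
    (h : ∀ (W' : DCh) (φ : W.W →ₐ[ℂ] W'.W), Function.Injective φ →
      (∀ x ∈ l, φ (a x.1) ∣ φ (a x.2) ∨ φ (a x.2) ∣ φ (a x.1)) → 𝒯 W'.W (φ.comp b)) :
    𝒯 W.W b := by
  induction l generalizing W with
  | nil => exact h W (AlgHom.id ℂ W.W) Function.injective_id fun x hx => absurd hx List.not_mem_nil
  | cons x l ih =>
    by_cases h0 : a x.1 = 0 ∧ a x.2 = 0
    · refine ih W b a fun W' φ hφ hl => h W' φ hφ fun y hy => ?_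
      rcases List.mem_cons.1 hy with rfl | hy
      · rw [h0.1, h0.2]
        exact Or.inl dvd_rfl
      · exact hl y hy
    · refine pt H W b (fun t : Bool => bif t then a x.1 else a x.2) ?_ ?_
      · rcases not_and_or.1 h0 with h1 | h1
        · exact ⟨true, h1⟩
        · exact ⟨false, h1⟩
      · rintro W' φ hφ ⟨k, -, -, -, -, hd⟩
        refine ih W' (φ.comp b) (fun i => φ (a i)) fun W'' ψ hψ hl =>
          h W'' (ψ.comp φ) (hψ.comp hφ) fun y hy => ?_
        rcases List.mem_cons.1 hy with rfl | hy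
        · cases k
          · exact Or.inr (map_dvd ψ (hd true))
          · exact Or.inl (map_dvd ψ (hd false))
        · exact hl y hy

end Pool.Agent.P.MP_824f38_ag.N
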