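import Pool.Agent.P.MP_824f38_ag.N.XDefs
import Pool.Agent.P.MP_824f38_ag.N.SIn
import Pool.Agent.P.MP_824f38_ag.N.MLu
import Pool.Agent.P.MP_824f38_ag.N.CNeSt
import Pool.Agent.P.MP_824f38_ag.N.CChart

/-! Row NEC-XChS: charts as neighbourhoods

s_chart: σ j = y j for j in the image of J, 1 otherwise; SReg from Chart.lc with labels lab i = i if i in J and w (y i) = 0, else ⊥; s_snc with J.image Fin.val (or J.map), Ne_map, Ne_congr.
loc_chart: loc_unif for A.A, y.y and A.ex m; B = A.ext W.W W.ft φ; Hom.map_ex. loc_sqrt: the subalgebra of x.V generated by the image of y and square roots (x.root); see Idx. loc_Ne: loc_sqrt, Ne_le_tw, Hom.map_ex. -/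

set_option linter.unusedVariables false
set_option linter.unusedSectionVars false
set_option linter.style.haveILetI false
set_option linter.dupNamespace false

namespace Pool.Agent.P.MP_824f38_ag.N

variable {R : Type} [CommRing R] [Algebra ℂ R] [Algebra.FiniteType ℂ R]

theorem s_chart {A : Ob R} {N : ℕ} {y : Fin N → A.A} (H : Chart y) (J : Finset (Fin N)) :
    Acyc (δD A) (KT A (Ideal.span {∏ j ∈ J, y j})) (etaN A (Ne y J fun _ => 1)) := by
  classical
  let σ : ℕ → A.A := fun j => if h : j < N then (if (⟨j, h⟩ : Fin N) ∈ J then y ⟨j, h⟩ else 1) else 1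
  have hσ : ∀ j ∈ J, σ (j : ℕ) = y j := fun j hj => by
    simp only [σ, j.2, dif_pos, Fin.eta, hj, if_true]
  have hfin : FinDiv σ := ⟨N, fun j hj => dif_neg (not_lt.2 hj)⟩
  have hreg : SReg σ := by
    intro w
    refine ⟨N, fun i => y i - algebraMap ℂ A.A (w (y i)),
      fun i => if i ∈ J ∧ w (y i) = 0 then ((i : ℕ) : WithBot ℕ) else ⊥, H.lc w, ?_, ?_⟩
    · intro i j hij
      split_ifs at hij with h
      · have e : (i : ℕ) = j := WithBot.coe_injective hij
        rw [← e, hσ i h.1, h.2, map_zero, sub_zero]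
      · exact absurd hij WithBot.bot_ne_coe
    · intro j hj
      by_cases h : j < N
      · by_cases h' : (⟨j, h⟩ : Fin N) ∈ J
        · have e : σ j = y ⟨j, h⟩ := hσ ⟨j, h⟩ h'
          exact ⟨⟨j, h⟩, if_pos ⟨h', e ▸ hj⟩⟩
        · have e : σ j = 1 := by simp only [σ, h, dif_pos, h', if_false]
          rw [e, map_one] at hj
          exact absurd hj one_ne_zero
      · have e : σ j = 1 := dif_neg h
        rw [e, map_one] at hj
        exact absurd hj one_ne_zero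
  have h := s_snc hfin hreg (J.image Fin.val)
  have hinj : Set.InjOn (Fin.val : Fin N → ℕ) J := Fin.val_injective.injOn
  rw [Finset.prod_image hinj, Finset.prod_congr rfl hσ,
    ← Ne_map (z := σ) (e := fun _ => 1) Fin.val hinj,
    Ne_congr (z' := y) (e' := fun _ => 1) hσ fun _ _ => rfl] at h
  exact h

theorem loc_chart {A : Ob R} {x : Pt R} (y : PtO A x) {m : Ideal R} (hx : ∃ r ∈ m, x.x r ≠ 0) :
    y.Loc fun B φ => IsDomain B.A ∧ ∃ (N : ℕ) (z : Fin N → B.A) (c : Fin N → ℕ), Chart z ∧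
      B.ex m = Ideal.span {∏ i, z i ^ c i} := by
  obtain ⟨r, hr, h0⟩ := hx
  have e : y.y (A.str r) = x.x r := DFunLike.congr_fun y.hy r
  obtain ⟨W, φ, y', hy, c, hc⟩ :=
    loc_unif x.root y.y (A.ex m) ⟨A.str r, Ideal.mem_map_of_mem _ hr, e ▸ h0⟩
  refine ⟨A.ext W.W W.ft φ, A.toExt W.W W.ft φ,
    ⟨y', by rw [← y.hy, ← hy]; rfl⟩, PtO.ext hy, W.dom, W.N, W.y, c, W.chart, ?_⟩
  exact ((A.toExt W.W W.ft φ).map_ex m).symm.trans hc

theorem loc_sqrt {A : Ob R} {x : Pt R} (y : PtO A x) {N : ℕ} (z : Fin N → A.A) :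
    y.Loc fun B φ => ∃ r : Fin N → B.A, ∀ i, r i ^ 2 = φ.f (z i) := by
  classical
  choose s hs using fun i => x.root (y.y (z i)) 2 two_pos
  let j : Idx x := ⟨y.idx.1 ⊔ Algebra.adjoin ℂ (Set.range s),
    y.idx.2.1.sup (Subalgebra.fg_def.2 ⟨_, Set.finite_range s, rfl⟩),
    fun r => le_sup_left (a := y.idx.1) (y.idx.2.2 r)⟩
  have hj : y.idx ≤ j := (le_sup_left : y.idx.1 ≤ y.idx.1 ⊔ Algebra.adjoin ℂ (Set.range s))
  refine ⟨j.ob, (Idx.inc hj).comp y.toIdx, j.pt, rfl,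
    fun i => ⟨s i, le_sup_right (a := y.idx.1) (Algebra.subset_adjoin ⟨i, rfl⟩)⟩, fun i => ?_⟩
  exact Subtype.ext (hs i)

theorem loc_Ne {A : Ob R} {x : Pt R} (y : PtO A x) {m : Ideal R} {N : ℕ} {z : Fin N → A.A}
    {c : Fin N → ℕ} (h : A.ex m = Ideal.span {∏ i, z i ^ c i}) : y.Loc fun B φ => ∀ a : ℕ,
      ∀ ω ∈ Ne z (Finset.univ.filter fun i => c i ≠ 0) fun i => a * c i + 1,
        up B (pull φ.f ω) ∈ (FS m a).S B := by
  refine (loc_sqrt y z).imp fun B φ ⟨r, hr⟩ a ω hω => ?_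
  have h1 := Ne_le_tw φ.f c a r hr hω
  have h2 : B.ex m = Ideal.span {φ.f (∏ i, z i ^ c i)} := by
    rw [← φ.map_ex, h, Ideal.map_span, Set.image_singleton]
    rfl
  rw [← h2] at h1
  exact h1

end Pool.Agent.P.MP_824f38_ag.N
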