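import Pool.Agent.P.MP_824f38_ag.N.XSlRel
import Pool.Agent.P.MP_824f38_ag.N.CNe

/-! Homogeneous relative forms come from logarithmic forms on the slice. -/

set_option linter.unusedVariables false
set_option linter.unusedSectionVars false
set_option linter.style.haveILetI false
set_option linter.dupNamespace false

namespace Pool.Agent.P.MP_824f38_ag.N

open V (Dg Hg IsCo pr Pk)

variable {R : Type} [CommRing R] [Algebra ℂ R] [IsDomain R] [Algebra.FiniteType ℂ R]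
  {I0 : Ideal R} {ν : ℕ} {M : GM R I0 ν} {R0 : Type} [CommRing R0] [Algebra ℂ R0]
  [Algebra.FiniteType ℂ R0]

namespace GM

namespace Slice

variable {I : Finset M.κ} (s : M.Slice I)

theorem XSlC1_log (hne : ∀ i, M.g i ≠ 0) {p : ℕ} {l : Dg M.m} {z : M.toMod.W I}
    (hz : z ∈ M.toMod.L p l I) :
    ∃ ω ∈ Ne s.σ (Finset.range M.m) (fun _ => 1) ⊓ Forms s.Sg p, ∀ φ τ, s.Un φ τ →
      ((zp τ l : (KB R)ˣ) : KB R) • pull φ ω = ((zp τ 1 : (KB R)ˣ) : KB R) • M.Ψ hne I z := by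
  haveI := s.ft
  obtain ⟨lam, -, h2, h3⟩ := s.exists_lam hne
  refine V.Mod.L_induction (P := fun p l z => ∃ ω ∈ Ne s.σ (Finset.range M.m) (fun _ => 1) ⊓
      Forms s.Sg p, ∀ φ τ, s.Un φ τ → ((zp τ l : (KB R)ˣ) : KB R) • pull φ ω =
        ((zp τ 1 : (KB R)ˣ) : KB R) • M.Ψ hne I z) (fun l a ha => ?_) (fun p l => ?_)
    (fun p l x y hx hy => ?_) (fun p l l' l'' a b x ha hb hx h => ?_) hz
  · refine ⟨_, ⟨smul_mem_Ne (algebraMap _ _ (s.mk' a)),
      Submodule.smul_mem _ _ (V.fn_mem (k := ℂ) _)⟩, fun φ τ hu => ?_⟩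
    have e : φ (∏ j ∈ Finset.range M.m, s.σ j ^ 1) = (zp τ 1 : (KB R)ˣ) := by
      simp only [map_prod, pow_one, Finset.prod_range, zp, Pi.one_apply, zpow_one, Units.coe_prod]
      exact Finset.prod_congr rfl fun j _ => (hu.2 j).symm
    rw [pull_smul, e, smul_comm, s.rel_fn hne ha φ τ hu]
  · exact ⟨0, zero_mem _, fun φ τ hu => by rw [map_zero, map_zero, smul_zero, smul_zero]⟩
  · obtain ⟨ω, hω, e⟩ := hx
    obtain ⟨ω', hω', e'⟩ := hy
    exact ⟨ω + ω', add_mem hω hω', fun φ τ hu => by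
      rw [map_add, map_add, smul_add, smul_add, e φ τ hu, e' φ τ hu]⟩
  obtain ⟨ω, hω, e⟩ := h
  have hj : ∀ j : Fin M.m, ∃ ω' ∈ Ne s.σ (Finset.range M.m) (fun _ => 1) ⊓ Forms s.Sg (p + 1),
      s.σ j • ω' = dd (s.σ j) * ω := fun j => by
    obtain ⟨ω', h1, h2⟩ := Ne_log (fun _ _ => le_rfl) (Finset.mem_range.2 j.2) hω.1
    refine ⟨V.ep (k := ℂ) (p + 1) ω', ⟨Ne_ep h1 _, V.ep_mem _ _⟩, ?_⟩
    rw [← map_smul, h2]
    exact V.ep_of_mem (V.dk_mul_mem _ hω.2)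
  choose w hw ew using hj
  refine ⟨s.mk' a • (dd (s.mk' b) * ω + s.mk' b • ∑ j, l' j • w j), Submodule.smul_mem _ _
    (add_mem ⟨Ne_mul_left hω.1 _, V.dk_mul_mem _ hω.2⟩ (Submodule.smul_mem _ _
      (sum_mem fun j _ => zsmul_mem (hw j) _))), fun φ τ hu => ?_⟩
  have e1 : ∀ j, pull φ (w j) = M.Ψ hne I (lam j) * pull φ ω := fun j => by
    have := congrArg (pull φ) (ew j)
    rw [pull_smul, map_mul, pull_dd, ← hu.2, ← h2 φ τ hu, smul_mul_assoc] at this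
    exact smul_right_injective _ (τ j).ne_zero this
  have e2 := h3 l' b hb φ τ hu
  rw [map_sub, map_mul, Ψ_fn, ← Algebra.smul_def, eq_sub_iff_add_eq, ← s.un_hom hne hu hb] at e2
  have e3 : pull φ (∑ j, l' j • w j) = M.Ψ hne I (∑ j, l' j • lam j) * pull φ ω := by
    simp only [map_sum, map_zsmul, e1, Finset.sum_mul, smul_mul_assoc]
  rw [map_mul, map_mul, ← mul_smul_comm, ← e φ τ hu, Ψ_fn, ← Algebra.smul_def, ← e2,
    ← s.un_hom hne hu ha, pull_smul, map_add, map_mul, pull_smul, e3, zp_add, zp_add,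
    Units.val_mul, Units.val_mul]
  simp only [smul_mul_assoc, mul_smul_comm, add_mul, smul_add, smul_smul]
  refine congrArg₂ (· + ·) ?_ ?_ <;> refine congrArg₂ (· • ·) (by ring) rfl

theorem lam_to_NN (hne : ∀ i, M.g i ≠ 0) (hI : I.Nonempty) (c : Fin M.m → ℕ) (a p : ℕ)
    {z : M.toMod.W I} (hz : z ∈ M.toMod.L p (1 + a • M.dg c) I) :
    ∃ ω ∈ s.NN c a p, ∀ φ, s.Gen φ → pull φ ω = M.Ψ hne I z := by
  obtain ⟨ω, hω, e⟩ := s.XSlC1_log hne hz
  refine ⟨s.mk' (M.toCh I (M.σp c)) ^ a • ω, ⟨Submodule.smul_mem_smul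
    (Ideal.mem_span_singleton_self _) hω.1, Submodule.smul_mem _ _ hω.2⟩, fun φ hφ => ?_⟩
  obtain ⟨τ, hu⟩ := s.gen_un hne hI hφ
  have e1 : φ (s.mk' (M.toCh I (M.σp c))) = (zp τ (M.dg c) : (KB R)ˣ) := by
    simp only [GM.σp, map_prod, map_pow, zp, GM.dg, zpow_natCast, Units.coe_prod,
      Units.val_pow_eq_pow_val]
    exact Finset.prod_congr rfl fun j _ => congrArg (· ^ c j) (hu.2 j).symm
  have e2 : ∀ n : ℕ, zp τ (n • M.dg c) = zp τ (M.dg c) ^ n := fun n => by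
    induction n with
    | zero => rw [zero_smul, zp_zero, pow_zero]
    | succ n ih => rw [succ_nsmul, zp_add, ih, pow_succ]
  have e3 := e φ τ hu
  rw [zp_add, Units.val_mul, mul_smul, e2] at e3
  rw [pull_smul, map_pow, e1, ← Units.val_pow_eq_pow_val]
  exact smul_right_injective _ (zp τ 1).ne_zero e3

end Slice

end GM

end Pool.Agent.P.MP_824f38_ag.N
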