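import Pool.Agent.P.MP_824f38_ag.N.XSlRel
import Pool.Agent.P.MP_824f38_ag.N.CNe

/-! Row NEC-XSlC2: invariant logarithmic forms come from homogeneous relative forms

Every element of Ne σ (range m) 1 lies in the additive closure of the ω with ∃ l, z in LL l, ∀ Un φ τ, zp τ l • pull φ ω = zp τ 1 • Ψ z (generator σ ^ (1 - 1_P) dσ_P β: dτ j = τ j λ j, rel_span; scalars are absorbed in β). So w = ∑ over a finite set of zp τ (1 + a c - l) • Ψ (z l) for all Un φ τ.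
Fix one φ, τ (exists_gen, gen_un), let ρ from exists_act and average over un_act: ∑ over ζ of zp ζ k vanishes unless M0 divides all k j (sum of a nontrivial character of a finite group, or one factor at a time with a primitive root). For k = M0 • k' use zp τ k = ψI (∏ z j ^ k' j) (un_hom) and mul_mem_LL; divide by the order of the group; finally take the part of degree p (V.pullk_ep, ep_mem_L). -/

set_option linter.unusedVariables false
set_option linter.unusedSectionVars false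
set_option linter.style.haveILetI false
set_option linter.dupNamespace false

namespace Pool.Agent.P.MP_824f38_ag.N

open V (Dg Hg IsCo pr Pk)

variable {R : Type} [CommRing R] [Algebra ℂ R] [IsDomain R] [Algebra.FiniteType ℂ R]
  {I0 : Ideal R} {ν : ℕ} {M : GM R I0 ν} {R0 : Type} [CommRing R0] [Algebra ℂ R0]
  [Algebra.FiniteType ℂ R0]

namespace GM

namespace Slice

variable {I : Finset M.κ} (s : M.Slice I)

private theorem psi_fn_mul (hne : ∀ i, M.g i ≠ 0) (b : M.Ch I) (z : M.toMod.W I) :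
    M.Ψ hne I (V.fn _ b * z) = M.ψI hne I b • M.Ψ hne I z := by
  rw [map_mul, Ψ, V.pullk_fn]
  exact (V.smul_eq _ _).symm

private theorem mono_lam (hne : ∀ i, M.g i ≠ 0) (P : Finset ℕ) (hP : P ⊆ Finset.range M.m) :
    ∃ Λ ∈ M.toMod.LL 0 I, ∀ φ τ, s.Un φ τ →
      pull φ (mono s.σ P) = (∏ j ∈ P, φ (s.σ j)) • M.Ψ hne I Λ := by
  haveI := s.ft
  obtain ⟨lam, hlam, hd, -⟩ := s.exists_lam hne
  induction P using Finset.induction_on with
  | empty =>
    exact ⟨1, V.Hg_one, fun φ τ _ => by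
      rw [mono_empty, Finset.prod_empty, map_one, map_one, one_smul]⟩
  | insert i P hi ih =>
    obtain ⟨Λ, hΛ, h⟩ := ih ((Finset.subset_insert _ _).trans hP)
    have hi' : i < M.m := Finset.mem_range.1 (hP (Finset.mem_insert_self _ _))
    have hm := V.Mod.mul_mem_LL (hlam ⟨i, hi'⟩).2 hΛ
    rw [add_zero] at hm
    refine ⟨V.sgn (insert i P) i • (lam ⟨i, hi'⟩ * Λ), zsmul_mem hm _, fun φ τ hu => ?_⟩
    have e1 : (τ ⟨i, hi'⟩ : KB R) = φ (s.σ i) := hu.2 ⟨i, hi'⟩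
    have e2 := hd φ τ hu ⟨i, hi'⟩
    rw [e1] at e2
    rw [CNe.mono_insert hi, map_zsmul, map_mul, pull_dd, h φ τ hu, ← e2, Finset.prod_insert hi,
      map_zsmul, map_mul, smul_mul_smul_comm, smul_comm]

private theorem cf_mul {K : Type} [CommRing K] (y : ℕ → K) {J P : Finset ℕ} (hP : P ⊆ J) :
    (∏ j ∈ J, y j ^ (if j ∈ P then 1 - 1 else 1)) * ∏ j ∈ P, y j = ∏ j ∈ J, y j := by
  have e : ∏ j ∈ P, y j = ∏ j ∈ J, if j ∈ P then y j else 1 := by
    rw [Finset.prod_ite_mem, Finset.inter_eq_right.2 hP]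
  rw [e, ← Finset.prod_mul_distrib]
  refine Finset.prod_congr rfl fun j _ => ?_
  split_ifs <;> simp

private theorem prod_sigma {φ : s.Sg →ₐ[ℂ] KB R} {τ : Fin M.m → (KB R)ˣ} (hu : s.Un φ τ) :
    ∏ j ∈ Finset.range M.m, φ (s.σ j) = ((zp τ 1 : (KB R)ˣ) : KB R) := by
  rw [Finset.prod_range, zp, Units.coe_prod]
  refine Finset.prod_congr rfl fun j _ => ?_
  rw [Pi.one_apply, zpow_one, hu.2 j]

private theorem sigma_pow {φ : s.Sg →ₐ[ℂ] KB R} {τ : Fin M.m → (KB R)ˣ} (hu : s.Un φ τ)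
    (c : Fin M.m → ℕ) (a : ℕ) : φ (s.mk' (M.toCh I (M.σp c)) ^ a) =
      ((zp τ (a • M.dg c) : (KB R)ˣ) : KB R) := by
  rw [map_pow, σp, map_prod, map_prod, map_prod, zp, Units.coe_prod, ← Finset.prod_pow]
  refine Finset.prod_congr rfl fun j _ => ?_
  have e : (a • M.dg c) j = ((c j * a : ℕ) : ℤ) := by
    rw [Pi.smul_apply, dg, nsmul_eq_mul, Nat.cast_mul, mul_comm]
  rw [e, zpow_natCast, Units.val_pow_eq_pow_val, hu.2 j, pow_mul, map_pow, map_pow, map_pow]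
  rfl

private theorem exists_unit (hne : ∀ i, M.g i ≠ 0) {k : Dg M.m} (hk : ∀ j, (s.M0 : ℤ) ∣ k j) :
    ∃ b ∈ M.toMod.Hc I k, s.mk' b = 1 := by
  have key : ∀ j : Fin M.m, ∃ b ∈ M.toMod.Hc I (Pi.single j (k j)), s.mk' b = 1 := by
    intro j
    obtain ⟨n, hn⟩ := hk j
    obtain ⟨u, hu⟩ := (s.unit j).exists_left_inv
    have hu1 : s.mk' u = 1 := by
      have := congrArg s.mk' hu
      rwa [map_mul, s.mk_z, mul_one, map_one] at this
    obtain ⟨n, rfl | rfl⟩ := Int.eq_nat_or_neg n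
    · refine ⟨s.z j ^ n, ?_, by rw [map_pow, s.mk_z, one_pow]⟩
      have h1 := V.Hg_pow (s.deg j) n
      have e : n • s.M0 • (Pi.single j 1 : Dg M.m) = Pi.single j (k j) := by
        rw [hn, ← Pi.single_smul, ← Pi.single_smul]
        simp [mul_comm]
      rwa [e] at h1
    · refine ⟨u ^ n, ?_, by rw [map_pow, hu1, one_pow]⟩
      have h1 := V.Hg_pow (V.Hg_inv (s.deg j) hu) n
      have e : n • -(s.M0 • (Pi.single j 1 : Dg M.m)) = Pi.single j (k j) := by
        rw [hn, ← Pi.single_smul, ← Pi.single_neg, ← Pi.single_smul]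
        simp [mul_comm]
      rwa [e] at h1
  choose b hb h1 using key
  refine ⟨∏ j, b j, ?_, by rw [map_prod]; exact Finset.prod_eq_one fun j _ => h1 j⟩
  have := V.Hg_prod Finset.univ fun j _ => hb j
  rwa [Finset.univ_sum_single] at this

/-- the character of the group given by a degree -/
private noncomputable def chi (k : Dg M.m) : s.Gp →* (KB R)ˣ :=
  MonoidHom.mk' (fun ζ => zp
    (fun j => (Units.map (algebraMap ℂ (KB R)).toMonoidHom (ζ j : ℂˣ))⁻¹) k) fun ζ ζ' => by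
      rw [← zp_mul]
      congr 1
      funext j
      rw [Pi.mul_apply, Pi.mul_apply, Subgroup.coe_mul, map_mul, mul_inv]

private theorem chi_dvd {k : Dg M.m} (h : ∀ ζ, s.chi k ζ = 1) (j : Fin M.m) :
    (s.M0 : ℤ) ∣ k j := by
  haveI : NeZero s.M0 := ⟨s.pos.ne'⟩
  have hμ := Complex.isPrimitiveRoot_exp s.M0 s.pos.ne'
  have h1 := h (Pi.mulSingle j hμ.toRootsOfUnity)
  change zp _ k = 1 at h1
  rw [zp, Finset.prod_eq_single j (fun b _ hb => by simp [Pi.mulSingle_eq_of_ne hb])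
    (fun h => absurd (Finset.mem_univ j) h), Pi.mulSingle_eq_same, inv_zpow, inv_eq_one,
    ← map_zpow] at h1
  have h2 := congrArg (fun u : (KB R)ˣ => (u : KB R)) h1
  simp only [Units.coe_map, Units.val_one, RingHom.toMonoidHom_eq_coe, MonoidHom.coe_coe] at h2
  have h3 := (algebraMap ℂ (KB R)).injective (h2.trans (map_one _).symm)
  rw [Units.val_zpow_eq_zpow_val] at h3
  exact (hμ.zpow_eq_one_iff_dvd _).1 h3

/-- the average of the form is the image of a homogeneous form of degree `d` -/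
private def Av (hne : ∀ i, M.g i ≠ 0) [Fintype s.Gp] (ρ : s.Gp →* (s.Sg →ₐ[ℂ] s.Sg))
    (φ : s.Sg →ₐ[ℂ] KB R) (d : Dg M.m) : AddSubgroup (DR s.Sg) where
  carrier := {ω | ∃ z ∈ M.toMod.LL d I, M.Ψ hne I z = ∑ ζ, pull (φ.comp (ρ ζ)) ω}
  zero_mem' := ⟨0, zero_mem _, by simp⟩
  add_mem' := by
    rintro x y ⟨a, ha, hx⟩ ⟨b, hb, hy⟩
    exact ⟨a + b, add_mem ha hb, by
      rw [map_add, hx, hy, ← Finset.sum_add_distrib]; simp only [map_add]⟩
  neg_mem' := by
    rintro x ⟨a, ha, hx⟩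
    exact ⟨-a, neg_mem ha, by rw [map_neg, hx, ← Finset.sum_neg_distrib]; simp only [map_neg]⟩

private theorem av_of (hne : ∀ i, M.g i ≠ 0) [Fintype s.Gp] {ρ : s.Gp →* (s.Sg →ₐ[ℂ] s.Sg)}
    (hρ : s.IsAct ρ) {φ : s.Sg →ₐ[ℂ] KB R} {τ : Fin M.m → (KB R)ˣ} (hu : s.Un φ τ)
    {k l : Dg M.m} {z : M.toMod.W I} (hz : z ∈ M.toMod.LL l I) {ω : DR s.Sg}
    (h : ∀ φ τ, s.Un φ τ → pull φ ω = ((zp τ k : (KB R)ˣ) : KB R) • M.Ψ hne I z) :
    ω ∈ s.Av hne ρ φ (k + l) := by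
  have e : ∑ ζ, pull (φ.comp (ρ ζ)) ω =
      (∑ ζ, (s.chi k ζ : KB R)) • ((zp τ k : (KB R)ˣ) : KB R) • M.Ψ hne I z := by
    rw [Finset.sum_smul]
    refine Finset.sum_congr rfl fun ζ _ => ?_
    rw [h _ _ (s.un_act hρ hu ζ), smul_smul, ← Units.val_mul]
    congr 2
    exact zp_mul _ τ k
  by_cases hχ : ∀ ζ, s.chi k ζ = 1
  · obtain ⟨b, hb, h1⟩ := s.exists_unit hne (s.chi_dvd hχ)
    have h2 := s.un_hom hne hu hb
    rw [h1, map_one, mul_one] at h2
    refine ⟨Fintype.card s.Gp • (V.fn _ b * z),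
      nsmul_mem (V.Mod.mul_mem_LL (V.Mod.fn_mem_L hb).2 hz) _, ?_⟩
    rw [e, map_nsmul, psi_fn_mul, h2]
    simp only [hχ, Units.val_one, Finset.sum_const, Finset.card_univ, nsmul_eq_mul, mul_one,
      Nat.cast_smul_eq_nsmul]
  · refine ⟨0, zero_mem _, ?_⟩
    have h0 : ∑ ζ, ((Units.coeHom (KB R)).comp (s.chi k)) ζ = 0 :=
      sum_hom_units_eq_zero _ fun h' => hχ fun ζ => Units.ext (DFunLike.congr_fun h' ζ)
    have h1 : ∑ ζ, (s.chi k ζ : KB R) = 0 := h0
    rw [e, h1, zero_smul, map_zero]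

private theorem aux_add {A : Type} [CommRing A] [Algebra ℂ A] (a b : A) (x y y' : DR A) :
    a • b • (x * (y + y')) = a • b • (x * y) + a • b • (x * y') := by
  rw [mul_add, smul_add, smul_add]

private theorem aux_neg {A : Type} [CommRing A] [Algebra ℂ A] (a b : A) (x y : DR A) :
    a • b • (x * -y) = -(a • b • (x * y)) := by
  rw [mul_neg, smul_neg, smul_neg]

private theorem aux_add' {A : Type} [CommRing A] [Algebra ℂ A] (a : A) (y y' : DR A) :
    a • (y + y') = a • y + a • y' := smul_add a y y'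

private theorem av_gen (hne : ∀ i, M.g i ≠ 0) [Fintype s.Gp] {ρ : s.Gp →* (s.Sg →ₐ[ℂ] s.Sg)}
    (hρ : s.IsAct ρ) {φ : s.Sg →ₐ[ℂ] KB R} {τ : Fin M.m → (KB R)ˣ} (hu : s.Un φ τ)
    (c : Fin M.m → ℕ) (a : ℕ) {P : Finset ℕ} (hP : P ⊆ Finset.range M.m) (β : DR s.Sg) :
    s.mk' (M.toCh I (M.σp c)) ^ a •
      CNe.cf s.σ (Finset.range M.m) (fun _ => 1) P • (mono s.σ P * β) ∈
      s.Av hne ρ φ (1 + a • M.dg c) := by
  obtain ⟨Λ, hΛ, hL⟩ := s.mono_lam hne P hP
  have hβ := s.rel_span hne β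
  induction hβ using AddSubgroup.closure_induction with
  | mem β hβ =>
    obtain ⟨l, z, hz, hr⟩ := hβ
    have hm := V.Mod.mul_mem_LL hΛ hz
    rw [zero_add] at hm
    have := s.av_of hne hρ hu (k := 1 + a • M.dg c - l) hm (ω := s.mk' (M.toCh I (M.σp c)) ^ a •
      CNe.cf s.σ (Finset.range M.m) (fun _ => 1) P • (mono s.σ P * β)) fun φ τ hu => by
        haveI := s.ft
        rw [pull_smul, CNe.pull_gen, ← pull_mono, hL φ τ hu, s.sigma_pow hu, map_mul, ← hr φ τ hu,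
          smul_mul_assoc, smul_smul, smul_smul, mul_assoc, cf_mul _ hP, s.prod_sigma hu,
          mul_smul_comm, smul_smul, ← Units.val_mul, ← Units.val_mul, ← zp_add, ← zp_add,
          sub_add_cancel, add_comm]
    rwa [sub_add_cancel] at this
  | zero => rw [mul_zero, smul_zero, smul_zero]; exact zero_mem _
  | add x y _ _ hx hy => rw [aux_add]; exact add_mem hx hy
  | neg x _ hx => rw [aux_neg]; exact neg_mem hx

theorem NN_to_lam (hne : ∀ i, M.g i ≠ 0) (hI : I.Nonempty) (c : Fin M.m → ℕ) (a p : ℕ)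
    {ω : DR s.Sg} (hω : ω ∈ s.NN c a p) {w : DR (KB R)} (h : ∀ φ, s.Gen φ → pull φ ω = w) :
    ∃ z ∈ M.toMod.L p (1 + a • M.dg c) I, M.Ψ hne I z = w := by
  haveI := s.ft
  haveI := s.finite_Gp
  haveI : Fintype s.Gp := Fintype.ofFinite _
  obtain ⟨φ, hφ⟩ := s.exists_gen hne
  obtain ⟨τ, hu⟩ := s.gen_un hne hI hφ
  obtain ⟨ρ, hρ⟩ := s.exists_act
  have key : ω ∈ s.Av hne ρ φ (1 + a • M.dg c) := by
    refine Submodule.smul_induction_on hω.1 (fun r hr x hx => ?_) fun x y => add_mem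
    obtain ⟨t, rfl⟩ := Ideal.mem_span_singleton'.1 hr
    rw [mul_comm, mul_smul]
    refine CNe.ind (Q := fun x => s.mk' (M.toCh I (M.σp c)) ^ a • x ∈
      s.Av hne ρ φ (1 + a • M.dg c)) ?_ (fun x y hx hy => ?_)
      (fun P hP β => s.av_gen hne hρ hu c a hP β) (Submodule.smul_mem _ t hx)
    · rw [smul_zero]; exact zero_mem _
    · rw [aux_add']; exact add_mem hx hy
  obtain ⟨z, hz, e⟩ := key
  rw [Finset.sum_congr rfl fun ζ _ => h _ (s.gen_act hρ hφ ζ), Finset.sum_const,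
    Finset.card_univ] at e
  have hn : (Fintype.card s.Gp : ℂ) ≠ 0 := Nat.cast_ne_zero.2 Fintype.card_ne_zero
  have hb : M.toCh I (algebraMap ℂ M.S (Fintype.card s.Gp : ℂ)⁻¹) ∈ M.toMod.Hc I 0 :=
    M.toMod.alg_mem I (M.hk _)
  have hm := V.Mod.mul_mem_LL (V.Mod.fn_mem_L hb).2 hz
  rw [zero_add] at hm
  refine ⟨_, V.Mod.ep_mem_L p hm, ?_⟩
  have e2 : M.Ψ hne I (V.fn _ (M.toCh I (algebraMap ℂ M.S (Fintype.card s.Gp : ℂ)⁻¹)) * z) =
      w := by
    rw [psi_fn_mul, e, AlgHom.commutes, AlgHom.commutes, ← Nat.cast_smul_eq_nsmul (KB R),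
      smul_smul, ← map_natCast (algebraMap ℂ (KB R)), ← map_mul, inv_mul_cancel₀ hn, map_one,
      one_smul]
  have hw : V.ep p w = w := V.ep_of_mem (h φ hφ ▸ pull_mem φ hω.2)
  rw [← hw, ← e2]
  exact (V.pullk_ep _ _ p _).symm

end Slice

end GM

end Pool.Agent.P.MP_824f38_ag.N
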