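import Pool.Agent.P.MP_824f38_ag.N.XSlTf
import Pool.Agent.P.MP_824f38_ag.N.VIn
import Pool.Agent.P.MP_824f38_ag.N.CSm
import Pool.Agent.P.MP_824f38_ag.N.CLoc
import Pool.Agent.P.MP_824f38_ag.N.LPrime

/-! Row NEC-XSlInj: forms on the slice are detected by the generic points

mem_of_loc with N = ⊥: at a closed point w of the slice (s.ft, sreg) lc_domain gives h with B = Localization.Away h a domain; B is smooth (Reg.away, Reg.smooth, ft_away), R → B is injective (str_regular) and B is algebraic over R (alg_slice; the inverse of h too). IsAlgClosed.lift gives B → KB R over R, injective because B is an algebraic domain extension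
(Ideal.eq_bot_of_comap_eq_bot or injective_of_algebraic style lemmas; make it a ℂ-algebra map). Its composite with toAway h is Gen; v_field_inj, pull_pull, dr_loc_ker. -/

set_option linter.unusedVariables false
set_option linter.unusedSectionVars false
set_option linter.style.haveILetI false
set_option linter.dupNamespace false

namespace Pool.Agent.P.MP_824f38_ag.N

open V (Dg Hg IsCo pr Pk)

variable {R : Type} [CommRing R] [Algebra ℂ R] [IsDomain R] [Algebra.FiniteType ℂ R]
  {I0 : Ideal R} {ν : ℕ} {M : GM R I0 ν} {R0 : Type} [CommRing R0] [Algebra ℂ R0]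
  [Algebra.FiniteType ℂ R0]

private theorem xsi_lift {B : Type} [CommRing B] [IsDomain B] [Algebra ℂ B] [Algebra R B]
    [IsScalarTower ℂ R B] [Algebra.IsAlgebraic R B] (hi : Function.Injective (algebraMap R B)) :
    ∃ ψ : B →ₐ[ℂ] KB R, Function.Injective ψ ∧
      ∀ r, ψ (algebraMap R B r) = algebraMap R (KB R) r := by
  haveI : FaithfulSMul R B := (faithfulSMul_iff_algebraMap_injective R B).2 hi
  haveI : FaithfulSMul R (KB R) := (faithfulSMul_iff_algebraMap_injective R _).2 (inj_KB R)
  let ψ : B →ₐ[R] KB R := IsAlgClosed.lift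
  refine ⟨ψ.restrictScalars ℂ, (injective_iff_map_eq_zero ψ).2 fun x hx => ?_, ψ.commutes⟩
  by_contra h0
  refine Ideal.comap_ne_bot_of_algebraic_mem (R := R) (I := RingHom.ker ψ) h0 hx
    (Algebra.IsAlgebraic.isAlgebraic x) (eq_bot_iff.2 fun r hr => inj_KB R ?_)
  rw [map_zero, ← ψ.commutes]
  exact hr

private theorem xsi_away {A : Type} [CommRing A] [Algebra ℂ A] (b : R →ₐ[ℂ] A) (h : A)
    [IsDomain (Localization.Away h)] (hreg : ∀ r, r ≠ 0 → b r ∈ nonZeroDivisors A)
    (halg : ∀ x, ∃ r : R, r ≠ 0 ∧ (b : R →+* A).IsIntegralElem (b r * x)) :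
    ∃ ψ : Localization.Away h →ₐ[ℂ] KB R, Function.Injective ψ ∧
      ∀ r, ψ (toAway h (b r)) = algebraMap R (KB R) r := by
  letI : Algebra R A := (b : R →+* A).toAlgebra
  haveI : IsScalarTower ℂ R A := IsScalarTower.of_algebraMap_eq fun c => (b.commutes c).symm
  have h1 : ∀ x : A, IsAlgebraic R (algebraMap A (Localization.Away h) x) := fun x => by
    obtain ⟨r, hr, hx⟩ := halg x
    have h2 : IsIntegral R (r • x) := hx
    exact IsAlgebraic.iff_exists_smul_integral.2 ⟨r, hr, by
      simpa only [map_smul, IsScalarTower.coe_toAlgHom'] using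
        h2.map (IsScalarTower.toAlgHom R A (Localization.Away h))⟩
  haveI : Algebra.IsAlgebraic R (Localization.Away h) := ⟨fun x => by
    obtain ⟨⟨a, c⟩, e⟩ := IsLocalization.surj (Submonoid.powers h) x
    refine IsAlgebraic.of_mul (IsLocalization.map_units (Localization.Away h) c).mem_nonZeroDivisors
      (h1 c) ?_
    rw [mul_comm, e]
    exact h1 a⟩
  refine xsi_lift ((injective_iff_map_eq_zero _).2 fun r hr => ?_)
  by_contra h0
  exact nonZeroDivisors.ne_zero (IsLocalization.nonZeroDivisors_le_comap (Submonoid.powers h)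
    (Localization.Away h) (hreg r h0)) hr

namespace GM

namespace Slice

variable {I : Finset M.κ} (s : M.Slice I)

theorem gen_inj (hne : ∀ i, M.g i ≠ 0) (hI : I.Nonempty) {ω : DR s.Sg}
    (h : ∀ φ, s.Gen φ → pull φ ω = 0) : ω = 0 := by
  haveI := s.ft
  refine mem_of_loc (A := s.Sg) (N := ⊥) fun w => ?_
  have hreg : Reg s.Sg := (s.sreg hI).reg
  obtain ⟨n, y, hy⟩ := hreg w
  obtain ⟨a, ha, hd⟩ := lc_domain hy
  haveI := hd a ha dvd_rfl
  haveI : Algebra.FiniteType ℂ (Localization.Away a) :=
    Algebra.FiniteType.trans (S := s.Sg) inferInstance inferInstance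
  haveI : Algebra.Smooth ℂ (Localization.Away a) := (hreg.away a).smooth
  obtain ⟨ψ, hψ, e⟩ := xsi_away (s.mk'.comp ((M.toCh I).comp M.ι)) a
    (fun r hr => s.str_regular hne hr) (s.alg_slice hne)
  have h1 : pull (toAway a) ω = 0 := by
    refine v_field_inj _ _ ψ hψ ?_
    rw [pull_pull, map_zero]
    exact h _ e
  obtain ⟨k, hk⟩ := dr_loc_ker a h1
  exact ⟨a ^ k, by rw [map_pow]; exact pow_ne_zero k ha, hk⟩

end Slice

end GM

end Pool.Agent.P.MP_824f38_ag.N
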