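import Pool.Agent.P.MP_824f38_ag.N.XChS
import Pool.Agent.P.MP_824f38_ag.N.GRow
import Pool.Agent.P.MP_824f38_ag.N.CBasis

/-! Row NEC-XTF: multiplication by a generator of m

The class of the B with B.ex m = span (B.str π) is UpC (Hom.map_ex). row_exact with T p = Sub.bot, S 0 = bot, S 1 = FS m 0, S 2 = FS m a, S p = bot for p ≥ 3, u 1 = NT.mul (π ^ a), all other u p = NT.zero; C_mul, C_zero, K_bot.
Stalk conditions: (p = 0) if π ^ a • z = 0 with z in FS m 0 then z is locally zero: loc_killed if x kills m; otherwise loc_chart and chart_tf (B is a domain and B.str π ≠ 0 because x π ≠ 0). (p = 1) twI (span π) a • ⊤ = π ^ a • (twI (span π) 0 • ⊤). -/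

set_option linter.unusedVariables false
set_option linter.unusedSectionVars false
set_option linter.style.haveILetI false
set_option linter.dupNamespace false

namespace Pool.Agent.P.MP_824f38_ag.N

variable {R : Type} [CommRing R] [Algebra ℂ R] [Algebra.FiniteType ℂ R]

/-- the maps of the row -/
private noncomputable def tfU (π : R) (a : ℕ) : ℕ → NT (DRP R) (DRP R)
  | 1 => NT.mul _ (π ^ a)
  | _ => NT.zero _ _

/-- the terms of the row -/
private noncomputable def tfS (m : Ideal R) (a : ℕ) : ℕ → Sub (DRP R)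
  | 1 => FS m 0
  | 2 => FS m a
  | _ => Sub.bot _

private theorem tf_smul_mem {m : Ideal R} {π : R} (hπ : π ∈ m) (a : ℕ) (A : Ob R) :
    ∀ z ∈ (FS m 0).S A, π ^ a • z ∈ (FS m a).S A := by
  intro z hz
  obtain ⟨ω, rfl⟩ := up_surj z
  have h0 : ω ∈ twI (A.ex m) 0 • (⊤ : Submodule A.A (DR A.A)) := hz
  have h1 : A.str (π ^ a) ∈ A.ex m ^ a := by
    rw [map_pow]
    exact Ideal.pow_mem_pow (Ideal.mem_map_of_mem (A.str : R →+* A.A) hπ) a
  change A.str (π ^ a) • ω ∈ twI (A.ex m) a • (⊤ : Submodule A.A (DR A.A))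
  rw [twI, pow_zero, one_mul] at h0
  rw [twI, mul_smul]
  exact Submodule.smul_mem_smul h1 h0

private theorem tf_div {m : Ideal R} {π : R} {A : Ob R}
    (hA : A.ex m = Ideal.span {A.str π}) (a : ℕ) :
    ∀ z ∈ (FS m a).S A, ∃ z' ∈ (FS m 0).S A, π ^ a • z' = z := by
  intro z hz
  obtain ⟨ω, rfl⟩ := up_surj z
  have h0 : ω ∈ twI (A.ex m) a • (⊤ : Submodule A.A (DR A.A)) := hz
  have e : A.ex m ^ a = Ideal.span {A.str (π ^ a)} := by
    rw [hA, Ideal.span_singleton_pow, map_pow]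
  rw [twI, mul_smul, e, Submodule.ideal_span_singleton_smul,
    Submodule.mem_smul_pointwise_iff_exists] at h0
  obtain ⟨β, hβ, rfl⟩ := h0
  refine ⟨up A β, ?_, rfl⟩
  change β ∈ twI (A.ex m) 0 • (⊤ : Submodule A.A (DR A.A))
  rw [twI, pow_zero, one_mul]
  exact hβ

private theorem tf_upC (m : Ideal R) (π : R) :
    UpC fun B : Ob R => B.ex m = Ideal.span {B.str π} := by
  intro A B φ h
  have h' : A.ex m = _ := h
  rw [← φ.map_ex, h', Ideal.map_span, Set.image_singleton]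
  exact congrArg (fun t => Ideal.span {t}) (φ.str_apply π)

private theorem tf_loc {m : Ideal R} {π : R} {A : Ob R}
    (hA : A.ex m = Ideal.span {A.str π}) (a : ℕ) {z : (DRP R).F A} (hz : z ∈ (FS m 0).S A)
    (h : π ^ a • z = 0) {x : Pt R} (y : PtO A x) :
    y.Loc fun B φ => (DRP R).map φ z = 0 := by
  by_cases hx : ∀ r ∈ m, x.x r = 0
  · refine (loc_killed y hx).imp fun B φ hB => ?_
    obtain ⟨hd, hb⟩ := hB
    have h1 := (FS m 0).mem φ z hz
    obtain ⟨ω, hω⟩ := up_surj ((DRP R).map φ z)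
    rw [← hω] at h1 ⊢
    have h0 : ω ∈ twI (B.ex m) 0 • (⊤ : Submodule B.A (DR B.A)) := h1
    rw [twI, pow_zero, one_mul, hb, Ideal.radical_bot_of_isReduced, Submodule.bot_smul,
      Submodule.mem_bot] at h0
    rw [h0, map_zero]
  · push Not at hx
    obtain ⟨B, φ, y', e, hd, N, w, c, H, -⟩ := loc_chart y hx
    refine ⟨B, φ, y', e, ?_⟩
    have hB : B.ex m = Ideal.span {B.str π} := tf_upC m π A B φ hA
    have hne : B.str π ≠ 0 := by
      intro h0
      obtain ⟨r, hr, hr'⟩ := hx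
      have h1 : B.str r ∈ B.ex m := Ideal.mem_map_of_mem (B.str : R →+* B.A) hr
      rw [hB, h0, Ideal.span_singleton_zero, Ideal.mem_bot] at h1
      apply hr'
      have h2 : y'.y (B.str r) = x.x r := DFunLike.congr_fun y'.hy r
      rw [← h2, h1, map_zero]
    have h1 : π ^ a • (DRP R).map φ z = 0 := by rw [← map_smul, h, map_zero]
    change (DRP R).map φ z = 0
    obtain ⟨ω, hω⟩ := up_surj ((DRP R).map φ z)
    rw [← hω] at h1 ⊢
    rw [up_smul, EmbeddingLike.map_eq_zero_iff, map_pow] at h1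
    rw [chart_tf H (mem_nonZeroDivisors_of_ne_zero (pow_ne_zero a hne)) h1, map_zero]

private theorem tf_row {m : Ideal R} {π : R} (hπ : π ∈ m) (a j p : ℕ) {A : Ob R}
    (hA : A.ex m = Ideal.span {A.str π}) (𝔥 : Ideal A.A) {c : CD A j}
    (hc : c ∈ (tfS m a (p + 1)).K A 𝔥 j) (h : (tfU π a (p + 1)).C A j c = 0) :
    ∃ c' ∈ (tfS m a p).K A 𝔥 j, (tfU π a p).C A j c' = c := by
  have key := row_exact (tf_upC m π) (tfU π a) ?_ (tfS m a) (fun _ => Sub.bot _) ?_ ?_ ?_ ?_
    j p hA 𝔥 hc (by rw [h]; exact zero_mem _)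
  · obtain ⟨c', h1, h2⟩ := key
    rw [K_bot, Submodule.mem_bot, sub_eq_zero] at h2
    exact ⟨c', h1, h2.symm⟩
  · intro p B z
    match p with
    | 0 => exact map_zero _
    | p + 1 => rfl
  · intro p B
    exact bot_le
  · intro p B hB z hz x y
    refine PtO.Loc.self ?_
    rw [(DRP R).map_id]
    match p with
    | 0 => exact zero_mem _
    | 1 => exact tf_smul_mem hπ a B z hz
    | p + 2 => exact zero_mem _
  · intro p B hB z hz x y
    refine PtO.Loc.self ?_
    have h0 : z = 0 := hz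
    rw [h0, map_zero, map_zero]
    exact zero_mem _
  · intro p B hB z hz hu x y
    match p with
    | 0 =>
      refine (tf_loc hB a hz hu y).imp fun D φ hD => ⟨0, zero_mem _, ?_⟩
      rw [hD, map_zero, sub_zero]
      exact zero_mem _
    | 1 =>
      refine PtO.Loc.self ?_
      obtain ⟨z', h1, h2⟩ := tf_div hB a z hz
      refine ⟨z', h1, ?_⟩
      rw [(DRP R).map_id]
      exact sub_eq_zero.2 h2.symm
    | p + 2 =>
      refine PtO.Loc.self ⟨0, zero_mem _, ?_⟩
      have h0 : z = 0 := hz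
      rw [h0, map_zero, map_zero, sub_zero]
      exact zero_mem _

theorem tf_inj {m : Ideal R} {π : R} (hπ : π ∈ m) {A : Ob R}
    (hA : A.ex m = Ideal.span {A.str π}) (a : ℕ) (𝔥 : Ideal A.A) (j : ℕ) :
    ∀ c ∈ (FS m 0).K A 𝔥 j, π ^ a • c = 0 → c = 0 := by
  intro c hc h
  obtain ⟨c', -, h2⟩ := tf_row hπ a j 0 hA 𝔥 (c := c) hc ((C_mul _ A j c).trans h)
  rw [← h2]
  exact C_zero A j c'

theorem tf_im {m : Ideal R} {π : R} (hπ : π ∈ m) {A : Ob R}
    (hA : A.ex m = Ideal.span {A.str π}) (a : ℕ) (𝔥 : Ideal A.A) (j : ℕ) (c : CD A j) :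
    c ∈ (FS m a).K A 𝔥 j ↔ ∃ b ∈ (FS m 0).K A 𝔥 j, π ^ a • b = c := by
  constructor
  · intro hc
    obtain ⟨c', h1, h2⟩ := tf_row hπ a j 1 hA 𝔥 (c := c) hc (C_zero A j c)
    exact ⟨c', h1, (C_mul _ A j c').symm.trans h2⟩
  · rintro ⟨b, hb, rfl⟩
    exact K_smul (tf_smul_mem hπ a) hb

end Pool.Agent.P.MP_824f38_ag.N
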