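import Pool.Agent.P.MP_824f38_ag.N.XRel
import Pool.Agent.P.MP_824f38_ag.N.XTF
import Pool.Agent.P.MP_824f38_ag.N.XProj
import Pool.Agent.P.MP_824f38_ag.N.CNe

/-! Row NEC-XSncTw: the filtered complex on a normal crossing object

s_snc and K_congr give Acyc (KT A (𝔥 * A.ex m)) (etaN Ne); relex_acyc with rel_ex, K_FS_le gives the same for (FS m 0).K A 𝔥; multiply by π ^ a (tf_inj, tf_im, smul_etaD, Submodule.ideal_span_singleton_smul or mem_span_singleton_smul); Proj.acyc with proj_FS and Ne_ep. -/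

set_option linter.unusedVariables false
set_option linter.unusedSectionVars false
set_option linter.style.haveILetI false
set_option linter.dupNamespace false

namespace Pool.Agent.P.MP_824f38_ag.N

variable {R : Type} [CommRing R] [Algebra ℂ R] [Algebra.FiniteType ℂ R]

private theorem acyc_smul {S : Type} [CommRing S] {W : ℕ → Type 1} [∀ j, AddCommGroup (W j)]
    [∀ j, Module S (W j)] {δ : Df S W} {K K' : Fm S W} {N N' : Submodule S (W 0)} (r : S)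
    (hsc : Sc δ K) (hinj : ∀ j, ∀ c ∈ K j, r • c = 0 → c = 0)
    (him : ∀ j c, c ∈ K' j ↔ ∃ b ∈ K j, r • b = c) (hN : ∀ c, c ∈ N' ↔ ∃ b ∈ N, r • b = c)
    (h : Acyc δ K N) : Acyc δ K' N' := by
  refine ⟨fun c hc => ?_, fun i c hc => ?_⟩
  · obtain ⟨b, hb, rfl⟩ := (hN c).1 hc
    obtain ⟨k1, k2⟩ := mem_Zy.1 (h.le hb)
    exact mem_Zy.2 ⟨(him 0 _).2 ⟨b, k1, rfl⟩, by rw [map_smul, k2, smul_zero]⟩
  · obtain ⟨k1, k2⟩ := mem_Zy.1 hc
    obtain ⟨b, hb, rfl⟩ := (him i c).1 k1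
    have k3 : δ i b = 0 := hinj _ _ (hsc i b hb) (by rw [← map_smul, k2])
    have k4 := h.ex i (mem_Zy.2 ⟨hb, k3⟩)
    cases i with
    | zero => exact (hN _).2 ⟨b, k4, rfl⟩
    | succ i =>
      obtain ⟨b', hb', rfl⟩ := mem_Bd_succ.1 k4
      exact mem_Bd_succ.2 ⟨r • b', (him i _).2 ⟨b', hb', rfl⟩, map_smul _ _ _⟩

theorem snc_tw {A : Ob R} {σ : ℕ → A.A} (hσ : FinDiv σ) (H : SReg σ) (J : Finset ℕ)
    {𝔥 : Ideal A.A} {m : Ideal R} {π : R} (hπ : π ∈ m) (hm : A.ex m = Ideal.span {A.str π})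
    (h1 : ∀ (x : Pt R) (y : PtO A x), y.Kills 𝔥 ↔ y.y (∏ j ∈ J, σ j) = 0)
    (h2 : ∀ (x : Pt R) (y : PtO A x), y.Kills (A.ex m) → y.Kills 𝔥) (a p : ℕ) :
    Acyc (δD A) (KP m a p A 𝔥)
      (etaN A ((Ideal.span {A.str π ^ a} • Ne σ J fun _ => 1) ⊓ Forms A.A p)) := by
  have e1 : KT A (Ideal.span {∏ j ∈ J, σ j}) = KT A (𝔥 * A.ex m) :=
    K_congr _ fun x y => by
      rw [kills_mul, kills_span, ← h1 x y]
      exact ⟨fun h => h.elim id (h2 x y), Or.inl⟩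
  have a1 : Acyc (δD A) (KT A (𝔥 * A.ex m)) (etaN A (Ne σ J fun _ => 1)) := e1 ▸ s_snc hσ H J
  have a2 : Acyc (δD A) ((FS m 0).K A 𝔥) (etaN A (Ne σ J fun _ => 1)) :=
    relex_acyc ((DRP R).sq_δ A) (K_FS_le m 0 A 𝔥) (rel_ex m A 𝔥) a1
  have hmem : ∀ ω : DR A.A, ω ∈ Ideal.span {A.str π ^ a} • Ne σ J (fun _ => 1) ↔
      ∃ β ∈ Ne σ J (fun _ => 1), A.str π ^ a • β = ω := fun ω => by
    rw [Submodule.ideal_span_singleton_smul]
    exact Submodule.mem_smul_pointwise_iff_exists _ _ _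
  have a3 : Acyc (δD A) ((FS m a).K A 𝔥)
      (etaN A (Ideal.span {A.str π ^ a} • Ne σ J fun _ => 1)) := by
    refine acyc_smul (π ^ a) (K_sc _ A 𝔥) (fun j => tf_inj hπ hm a 𝔥 j)
      (fun j => tf_im hπ hm a 𝔥 j) (fun c => ?_) a2
    constructor
    · intro hc
      obtain ⟨ω, hω, rfl⟩ := mem_etaN.1 hc
      obtain ⟨β, hβ, rfl⟩ := (hmem ω).1 hω
      exact ⟨etaD A β, mem_etaN.2 ⟨β, hβ, rfl⟩, by rw [smul_etaD, map_pow]⟩
    · rintro ⟨b, hb, rfl⟩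
      obtain ⟨β, hβ, rfl⟩ := mem_etaN.1 hb
      exact mem_etaN.2 ⟨_, (hmem _).2 ⟨β, hβ, rfl⟩, by rw [smul_etaD, map_pow]⟩
  refine (proj_FS m a p).acyc (fun ω hω => ?_) a3
  obtain ⟨β, hβ, rfl⟩ := (hmem ω).1 hω
  exact (hmem _).2 ⟨V.ep p β, Ne_ep hβ p, (map_smul (V.ep p) _ β).symm⟩

end Pool.Agent.P.MP_824f38_ag.N
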