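import Pool.Agent.P.MP_824f38_ag.N.XSlB
import Pool.Agent.P.MP_824f38_ag.N.XSlInj
import Pool.Agent.P.MP_824f38_ag.N.XSlC1
import Pool.Agent.P.MP_824f38_ag.N.XSlC2
import Pool.Agent.P.MP_824f38_ag.N.XSncTw

/-! The filtered complex on a chart `DI`. -/

set_option linter.unusedVariables false
set_option linter.unusedSectionVars false
set_option linter.style.haveILetI false
set_option linter.dupNamespace false

namespace Pool.Agent.P.MP_824f38_ag.N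

open V (Dg Hg IsCo pr Pk)

variable {R : Type} [CommRing R] [Algebra ℂ R] [IsDomain R] [Algebra.FiniteType ℂ R]
  {I0 : Ideal R} {ν : ℕ} {M : GM R I0 ν} {R0 : Type} [CommRing R0] [Algebra ℂ R0]
  [Algebra.FiniteType ℂ R0]

namespace GM

variable {τ : Type} {f : τ → R} {c : Fin M.m → ℕ} {μ : τ → M.S} {π : R0 →ₐ[ℂ] R}
  {m 𝔥 : Ideal R0}

theorem XChart_ex {B : Type} [CommRing B] [Algebra ℂ B] (g : R →ₐ[ℂ] B) {𝔞 𝔟 : Ideal R0}
    (h : 𝔞.map (π : R0 →+* R) ≤ 𝔟.map (π : R0 →+* R)) :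
    𝔞.map ((g.comp π : R0 →ₐ[ℂ] B) : R0 →+* B) ≤ 𝔟.map ((g.comp π : R0 →ₐ[ℂ] B) : R0 →+* B) := by
  rw [AlgHom.comp_toRingHom, ← Ideal.map_map, ← Ideal.map_map]
  exact Ideal.map_mono h

theorem XChart_desc {A B : Ob R0} {φ : N.Hom A B} {Γ : Type} [Group Γ] [Finite Γ]
    {ρ : Γ →* (B.A →ₐ[ℂ] B.A)} {𝔞 : Ideal A.A} {𝔟 : Ideal B.A} (G : GalCov φ ρ 𝔞 𝔟) {a p : ℕ}
    {ω : DR B.A} (h1 : etaD B ω ∈ KP m a p B 𝔟 0) (h : ∀ γ, pull (ρ γ) ω = ω) :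
    ∃ b ∈ Zy (δD A) (KP m a p A 𝔞) 0, etaD B ω = (DRP R0).res φ 0 b := by
  obtain ⟨b, hb, eb⟩ := gal_inv G _ 0 _ h1 fun γ => (res_etaD _ ω).trans (congrArg (etaD B) (h γ))
  refine ⟨b, ⟨hb, gal_inj G _ 1 _ (K_sc _ _ _ 0 b hb) ?_⟩, eb.symm⟩
  rw [PSh.res_δ, eb]
  exact δ_etaD _ ω

theorem XChart_acyc (F : M.Fin' f c μ) (hπ : Function.Surjective π)
    (hm : m.map (π : R0 →+* R) = Ideal.span (Set.range f)) (h𝔥 : 𝔥.map (π : R0 →+* R) = I0)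
    (hle : I0 ≤ Ideal.span (Set.range f)) {I : Finset M.κ} (hI : I.Nonempty) (a p : ℕ)
    (s : M.Slice I) :
    Acyc (δD (s.ob π)) (KP m a p (s.ob π) ((s.ob π).ex 𝔥)) (etaN (s.ob π) (s.NN c a p)) := by
  have hle' : (s.ob π).ex 𝔥 ≤ (s.ob π).ex m := by
    rw [← (s.hom π).map_ex, ← (s.hom π).map_ex]
    exact Ideal.map_mono (XChart_ex (M.toDI I) (by rw [hm, h𝔥]; exact hle))
  obtain ⟨π0, h0, h1, h2⟩ := s.ex_eq hI F π hπ hm
  have := snc_tw (A := s.ob π) s.finDiv (s.sreg hI) (Finset.range M.m) h0 h1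
    (s.kills_iff hI F π h𝔥) (fun x y h a ha => h a (hle' ha)) a p
  rw [h2 a] at this
  exact this

theorem XChart_ev (hne : ∀ i, M.g i ≠ 0) {I : Finset M.κ} (hI : I.Nonempty) (s : M.Slice I)
    {x : CD (M.ob π I) 0} {ω : DR s.Sg} (h : etaD (s.ob π) ω = (DRP R0).res (s.hom π) 0 x)
    {φ : s.Sg →ₐ[ℂ] KB R} (hφ : s.Gen φ) : M.evI hne π I x = toDV (genPt π) (pull φ ω) := by
  let y : PtO (s.ob π) (genPt π) := ⟨φ, AlgHom.ext fun r => hφ (π r)⟩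
  have e : y.pre (s.hom π) = M.yI hne π I := PtO.ext (s.gen_DI hne hI hφ)
  have h1 := congrArg (fun c : CD (s.ob π) 0 => stEv _ (c (genPt π) y)) h
  beta_reduce at h1
  rw [PSh.res_apply, e] at h1
  exact h1.symm.trans (stEv_germ y ω)

theorem XChart_res {A B : Ob R0} {φ : N.Hom A B} {Γ : Type} [Group Γ]
    {ρ : Γ →* (B.A →ₐ[ℂ] B.A)} {𝔞 : Ideal A.A} {𝔟 : Ideal B.A} (G : GalCov φ ρ 𝔞 𝔟)
    {a p j : ℕ} {x : CD A j} (hx : x ∈ Zy (δD A) (KP m a p A 𝔞) j) :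
    (DRP R0).res φ j x ∈ Zy (δD B) (KP m a p B 𝔟) j :=
  ⟨K_res _ φ (fun x y => (G.kill x y).1) hx.1,
    mem_Zy.1 hx |>.2 |> fun h => ((DRP R0).res_δ φ j x).symm.trans (by rw [h, map_zero])⟩

theorem chart_van (F : M.Fin' f c μ) (hπ : Function.Surjective π)
    (hm : m.map (π : R0 →+* R) = Ideal.span (Set.range f)) (h𝔥 : 𝔥.map (π : R0 →+* R) = I0)
    (hle : I0 ≤ Ideal.span (Set.range f)) {I : Finset M.κ} (hI : I.Nonempty) (a p j : ℕ) :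
    Van (δD (M.ob π I)) (KP m a p (M.ob π I) ((M.ob π I).ex 𝔥)) (j + 1) := by
  obtain ⟨s⟩ := M.exists_slice hI
  obtain ⟨ρ, hρ⟩ := s.exists_act
  haveI := s.finite_Gp
  have G := s.galCov hI hρ π h𝔥
  have H := XChart_acyc F hπ hm h𝔥 hle hI a p s
  intro x hx
  obtain ⟨b, hb, e⟩ := H.ex (j + 1) (XChart_res G hx)
  exact gal_triv G _ j hx.1 hb e

theorem chart_inj (F : M.Fin' f c μ) (hπ : Function.Surjective π)
    (hm : m.map (π : R0 →+* R) = Ideal.span (Set.range f)) (h𝔥 : 𝔥.map (π : R0 →+* R) = I0)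
    (hle : I0 ≤ Ideal.span (Set.range f)) {I : Finset M.κ} (hI : I.Nonempty) (a p : ℕ) :
    ∀ x ∈ Zy (δD (M.ob π I)) (KP m a p (M.ob π I) ((M.ob π I).ex 𝔥)) 0,
      M.evI F.ne π I x = 0 → x = 0 := by
  obtain ⟨s⟩ := M.exists_slice hI
  obtain ⟨ρ, hρ⟩ := s.exists_act
  haveI := s.finite_Gp
  have G := s.galCov hI hρ π h𝔥
  have H := XChart_acyc F hπ hm h𝔥 hle hI a p s
  intro x hx h0
  obtain ⟨ω, hω, e⟩ := mem_etaN.1 (H.ex 0 (XChart_res G hx))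
  have : ω = 0 := s.gen_inj F.ne hI fun φ hφ => (toDV (genPt π)).injective
    (((XChart_ev F.ne hI s e hφ).symm.trans h0).trans (map_zero _).symm)
  exact gal_inj G _ 0 x hx.1 (by rw [← e, this, map_zero])

theorem chart_im (F : M.Fin' f c μ) (hπ : Function.Surjective π)
    (hm : m.map (π : R0 →+* R) = Ideal.span (Set.range f)) (h𝔥 : 𝔥.map (π : R0 →+* R) = I0)
    (hle : I0 ≤ Ideal.span (Set.range f)) {I : Finset M.κ} (hI : I.Nonempty) (a p : ℕ)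
    (w : DV (genPt π)) : w ∈ M.Lam F.ne π p (1 + a • M.dg c) I ↔
      ∃ x ∈ Zy (δD (M.ob π I)) (KP m a p (M.ob π I) ((M.ob π I).ex 𝔥)) 0,
        M.evI F.ne π I x = w := by
  obtain ⟨s⟩ := M.exists_slice hI
  obtain ⟨ρ, hρ⟩ := s.exists_act
  haveI := s.finite_Gp
  have G := s.galCov hI hρ π h𝔥
  have H := XChart_acyc F hπ hm h𝔥 hle hI a p s
  constructor
  · rintro ⟨z, hz, rfl⟩
    obtain ⟨ω, hω, e⟩ := s.lam_to_NN F.ne hI c a p hz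
    have h1 := H.le (mem_etaN.2 ⟨ω, hω, rfl⟩)
    have h2 : ∀ γ, pull (ρ γ) ω = ω := fun γ =>
      sub_eq_zero.1 (s.gen_inj F.ne hI fun φ hφ => by
        rw [map_sub, pull_pull, e _ hφ, e _ (s.gen_act hρ hφ γ), sub_self])
    obtain ⟨b, hb, eb⟩ := XChart_desc G h1.1 h2
    obtain ⟨φ, hφ⟩ := s.exists_gen F.ne
    exact ⟨b, hb, (XChart_ev F.ne hI s eb hφ).trans (congrArg (toDV (genPt π)) (e φ hφ))⟩
  · rintro ⟨x, hx, rfl⟩
    obtain ⟨ω, hω, e⟩ := mem_etaN.1 (H.ex 0 (XChart_res G hx))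
    obtain ⟨z, hz, ez⟩ := s.NN_to_lam F.ne hI c a p hω
      (w := (toDV (genPt π)).symm (M.evI F.ne π I x)) fun φ hφ =>
        (toDV (genPt π)).eq_symm_apply.2 (XChart_ev F.ne hI s e hφ).symm
    exact ⟨z, hz, (toDV (genPt π)).eq_symm_apply.1 ez⟩

end GM

end Pool.Agent.P.MP_824f38_ag.N
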