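import Pool.Agent.P.MP_824f38_ag.N.XDefs
import Pool.Agent.P.MP_824f38_ag.N.MBasic
import Pool.Agent.P.MP_824f38_ag.N.GCech

/-! Row NEC-XDI: points of the charts DI

By rel, g k * σp χ = ι (ψ (g k)) (χ ≥ 1), so t * g i = g k in Ch I gives t * ι (ψ (g i)) = ι (ψ (g k)), an equation in DI I. DI_ext: Algebra.adjoin induction / AlgHom.ext_of_adjoin_eq_top style, cancel y (ψ g i) ≠ 0.
ch_lift: M.prop for x = y ∘ toDI gives φ0 on S with all σ nonzero and φ0 (g k) a unit; for i in I let t = g k / g i in DI I; y t * x (ψ g i) = x (ψ g k) = φ0 (g k) φ0 (σp χ), so φ0 (g k) = y t * φ0 (g i), φ0 (g i) is a unit, φ0 extends to Ch I (IsLocalization.Away.lift) and DI_ext applies.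
ch_sigma_ne: σ_rad. cechCov: uniq from ch_lift and DI_ext; cov and inter from M.prop, restricting the extension to Ch I (for inter each g i, i in I, is a unit as above). -/

set_option linter.unusedVariables false
set_option linter.unusedSectionVars false
set_option linter.style.haveILetI false
set_option linter.dupNamespace false

namespace Pool.Agent.P.MP_824f38_ag.N

open V (Dg Hg IsCo pr Pk)

variable {R : Type} [CommRing R] [Algebra ℂ R] [IsDomain R] [Algebra.FiniteType ℂ R]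
  {I0 : Ideal R} {ν : ℕ} {M : GM R I0 ν} {R0 : Type} [CommRing R0] [Algebra ℂ R0]
  [Algebra.FiniteType ℂ R0]

namespace GM

private theorem g_rel (k : M.κ) :
    M.g k * M.σp (fun j => (M.χ j).toNat) = M.ι (M.ψ (M.g k)) := by
  have h := M.rel (M.hg k)
  have e : M.σp (fun j => (-M.χ j).toNat) = 1 := by
    refine Finset.prod_eq_one fun j _ => ?_
    have := M.hχ j
    have h0 : (-M.χ j).toNat = 0 := by omega
    simp only [h0, pow_zero]
  rw [e, one_mul] at h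
  exact h

private theorem gen_rel {I : Finset M.κ} {i k : M.κ} {x : M.DI I}
    (e : x.1 * M.toCh I (M.g i) = M.toCh I (M.g k)) :
    x * M.toDI I (M.ψ (M.g i)) = M.toDI I (M.ψ (M.g k)) := by
  apply Subtype.ext
  change x.1 * M.toCh I (M.ι (M.ψ (M.g i))) = M.toCh I (M.ι (M.ψ (M.g k)))
  rw [← g_rel, ← g_rel, map_mul, map_mul, ← mul_assoc, e]

private theorem unit_g {I : Finset M.κ} {i : M.κ} (hi : i ∈ I) : IsUnit (M.toCh I (M.g i)) :=
  M.toMod.isUnit_g hi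

private theorem exists_quot {I : Finset M.κ} {i : M.κ} (hi : i ∈ I) (k : M.κ) :
    ∃ t : M.DI I, t * M.toDI I (M.ψ (M.g i)) = M.toDI I (M.ψ (M.g k)) := by
  obtain ⟨v, hv⟩ := (unit_g hi).exists_left_inv
  have e : (M.toCh I (M.g k) * v) * M.toCh I (M.g i) = M.toCh I (M.g k) := by
    rw [mul_assoc, hv, mul_one]
  exact ⟨⟨_, Algebra.subset_adjoin (Or.inr ⟨i, hi, k, e⟩)⟩, gen_rel e⟩

private theorem σp_ne {V : Type} [CommRing V] [IsDomain V] [Algebra ℂ V] (φ : M.S →ₐ[ℂ] V)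
    (hσ : ∀ j, φ (M.σ j) ≠ 0) (e : Fin M.m → ℕ) : φ (M.σp e) ≠ 0 := by
  rw [σp, map_prod]
  refine Finset.prod_ne_zero_iff.2 fun j _ => ?_
  rw [map_pow]
  exact pow_ne_zero _ (hσ j)

private theorem unit_of {I : Finset M.κ} {V : Type} [CommRing V] [IsDomain V] [Algebra ℂ V]
    (y : M.DI I →ₐ[ℂ] V) (φ : M.S →ₐ[ℂ] V) (hφ : φ.comp M.ι = y.comp (M.toDI I))
    (hσ : ∀ j, φ (M.σ j) ≠ 0) {k : M.κ} (hk : IsUnit (φ (M.g k))) {i : M.κ} (hi : i ∈ I) :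
    IsUnit (φ (M.g i)) := by
  obtain ⟨t, ht⟩ := exists_quot hi k
  have h1 := congrArg y ht
  have e : ∀ r, y (M.toDI I r) = φ (M.ι r) := fun r => (AlgHom.congr_fun hφ r).symm
  rw [map_mul, e, e, ← g_rel, ← g_rel, map_mul, map_mul, ← mul_assoc] at h1
  rw [← mul_right_cancel₀ (σp_ne φ hσ _) h1] at hk
  exact isUnit_of_mul_isUnit_right hk

private theorem exists_ext (I : Finset M.κ) {V : Type} [CommRing V] [Algebra ℂ V]
    (φ : M.S →ₐ[ℂ] V) (h : ∀ i ∈ I, IsUnit (φ (M.g i))) :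
    ∃ φ' : M.Ch I →ₐ[ℂ] V, ∀ s, φ' (M.toCh I s) = φ s := by
  have hu : IsUnit ((φ : M.S →+* V) (M.toMod.gI I)) := by
    change IsUnit (φ (∏ i ∈ I, M.g i))
    rw [map_prod]
    exact IsUnit.prod_iff.2 h
  refine ⟨{ IsLocalization.Away.lift (S := M.Ch I) (M.toMod.gI I) hu with
    commutes' := fun c => ?_ }, fun s =>
      IsLocalization.Away.lift_eq (S := M.Ch I) (M.toMod.gI I) hu s⟩
  exact (IsLocalization.Away.lift_eq (S := M.Ch I) (M.toMod.gI I) hu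
    (algebraMap ℂ M.S c)).trans (φ.commutes c)

private theorem exists_res (I : Finset M.κ) {V : Type} [CommRing V] [Algebra ℂ V]
    (φ : M.S →ₐ[ℂ] V) (h : ∀ i ∈ I, IsUnit (φ (M.g i))) :
    ∃ y : M.DI I →ₐ[ℂ] V, y.comp (M.toDI I) = φ.comp M.ι := by
  obtain ⟨φ', hφ'⟩ := exists_ext I φ h
  exact ⟨φ'.comp (M.DI I).val, AlgHom.ext fun r => hφ' (M.ι r)⟩

theorem DI_mem {I : Finset M.κ} {x : M.Ch I} (hx : x ∈ M.DI I) : x ∈ M.toMod.Hc I 0 := by
  induction hx using Algebra.adjoin_induction with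
  | mem x hx =>
    rcases hx with ⟨r, rfl⟩ | ⟨i, hi, k, e⟩
    · exact M.toMod.alg_mem I (M.hι r)
    · obtain ⟨v, hv⟩ := (unit_g hi).exists_left_inv
      have h1 : M.toCh I (M.g i) ∈ M.toMod.Hc I M.χ := M.toMod.alg_mem I (M.hg i)
      have h2 : M.toCh I (M.g k) ∈ M.toMod.Hc I M.χ := M.toMod.alg_mem I (M.hg k)
      refine V.Hg_of_mul_unit (V.Hg_inv h1 hv) hv ?_
      rw [mul_comm, e, add_zero]
      exact h2
  | algebraMap c =>
    have h : M.toCh I (algebraMap ℂ M.S c) ∈ M.toMod.Hc I 0 := M.toMod.alg_mem I (M.hk c)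
    rwa [AlgHom.commutes] at h
  | add x y _ _ hx hy => exact add_mem hx hy
  | mul x y _ _ hx hy => exact V.Hg_cast (V.Hg_mul hx hy) (add_zero 0)

theorem DI_ext {I : Finset M.κ} {V : Type} [CommRing V] [IsDomain V] [Algebra ℂ V]
    {y y' : M.DI I →ₐ[ℂ] V} (h : y.comp (M.toDI I) = y'.comp (M.toDI I))
    (hg : ∀ i ∈ I, y (M.toDI I (M.ψ (M.g i))) ≠ 0) : y = y' := by
  have e : ∀ r, y (M.toDI I r) = y' (M.toDI I r) := fun r => AlgHom.congr_fun h r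
  refine AlgHom.ext fun ⟨x, hx⟩ => ?_
  induction hx using Algebra.adjoin_induction with
  | mem x hx =>
    rcases hx with ⟨r, rfl⟩ | ⟨i, hi, k, e'⟩
    · exact e r
    · have h1 := gen_rel (x := ⟨x, Algebra.subset_adjoin (Or.inr ⟨i, hi, k, e'⟩)⟩) e'
      have h2 := congrArg y h1
      have h3 := congrArg y' h1
      rw [map_mul] at h2 h3
      rw [← e, ← e, ← h2] at h3
      exact (mul_right_cancel₀ (hg i hi) h3).symm
  | algebraMap c => exact (y.commutes c).trans (y'.commutes c).symm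
  | add a b ha hb iha ihb =>
    have h1 := map_add y ⟨a, ha⟩ ⟨b, hb⟩
    have h2 := map_add y' ⟨a, ha⟩ ⟨b, hb⟩
    rw [iha, ihb, ← h2] at h1
    exact h1
  | mul a b ha hb iha ihb =>
    have h1 := map_mul y ⟨a, ha⟩ ⟨b, hb⟩
    have h2 := map_mul y' ⟨a, ha⟩ ⟨b, hb⟩
    rw [iha, ihb, ← h2] at h1
    exact h1

theorem ch_lift {I : Finset M.κ} {V : Type} [CommRing V] [IsDomain V] [ValuationRing V]
    [Algebra ℂ V] (hV : RootClosed V) (y : M.DI I →ₐ[ℂ] V) (hy : ∃ a ∈ I0, y (M.toDI I a) ≠ 0) :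
    (∀ i ∈ I, y (M.toDI I (M.ψ (M.g i))) ≠ 0) ∧
      ∃ φ : M.Ch I →ₐ[ℂ] V, φ.comp (M.DI I).val = y := by
  obtain ⟨φ, hφ, hσ, k, hk⟩ := M.prop V hV (y.comp (M.toDI I)) hy
  have hu : ∀ i ∈ I, IsUnit (φ (M.g i)) := fun i hi => unit_of y φ hφ hσ hk hi
  have e : ∀ r, y (M.toDI I r) = φ (M.ι r) := fun r => (AlgHom.congr_fun hφ r).symm
  have h1 : ∀ i ∈ I, y (M.toDI I (M.ψ (M.g i))) ≠ 0 := fun i hi => by
    rw [e, ← g_rel, map_mul]
    exact mul_ne_zero (hu i hi).ne_zero (σp_ne φ hσ _)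
  obtain ⟨φ', hφ'⟩ := exists_ext I φ hu
  refine ⟨h1, φ', (DI_ext (AlgHom.ext fun r => ?_) h1).symm⟩
  exact (e r).trans (hφ' (M.ι r)).symm

theorem ch_sigma_ne {I : Finset M.κ} (hI : I.Nonempty) {V : Type} [CommRing V] [IsDomain V]
    [Algebra ℂ V] (φ : M.Ch I →ₐ[ℂ] V) (h : ∃ a ∈ I0, φ (M.toCh I (M.ι a)) ≠ 0) (j : ℕ) :
    φ (M.toCh I (M.σ j)) ≠ 0 := by
  obtain ⟨i, hi⟩ := hI
  obtain ⟨a, ha, h0⟩ := h
  obtain ⟨n, b, hb⟩ := M.σ_rad j ha i
  intro h1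
  have h2 := congrArg (fun s => φ (M.toCh I s)) hb
  simp only [map_mul, map_pow] at h2
  rw [h1, zero_mul] at h2
  exact pow_ne_zero n (mul_ne_zero h0 ((unit_g hi).map φ).ne_zero) h2

theorem ψI_rsC (hne : ∀ i, M.g i ≠ 0) {I J : Finset M.κ} (h : I ⊆ J) (x : M.Ch I) :
    M.ψI hne J (M.rsC h x) = M.ψI hne I x := by
  refine DFunLike.congr_fun (M.toMod.ch_ext
    (f := ((M.ψI hne J).comp (M.rsC h) : M.Ch I →ₐ[ℂ] KB R).toRingHom)
    (f' := (M.ψI hne I).toRingHom) fun s => ?_) x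
  change M.ψI hne J (M.rsC h (M.toCh I s)) = M.ψI hne I (M.toCh I s)
  rw [rsC_toCh, ψI_toCh, ψI_toCh]

theorem evI_res (hne : ∀ i, M.g i ≠ 0) (π : R0 →ₐ[ℂ] R) {I J : Finset M.κ} (h : I ⊆ J)
    (c : CD (M.ob π I) 0) :
    M.evI hne π J ((DRP R0).res (M.obRs π h) 0 c) = M.evI hne π I c := by
  have e : (M.yI hne π J).pre (M.obRs π h) = M.yI hne π I :=
    PtO.ext (AlgHom.ext fun x => ψI_rsC hne h x.1)
  change stEv _ (c (genPt π) ((M.yI hne π J).pre (M.obRs π h))) =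
    stEv _ (c (genPt π) (M.yI hne π I))
  rw [e]

theorem cechCov {A : Ob R0} [IsDomain A.A] {I0 : Ideal A.A} (M : GM A.A I0 ν) {𝔥 : Ideal R0}
    (h : A.ex 𝔥 = I0) : CechCov (M.ob A.str) M.αI (fun I J h => M.obRs A.str h) 𝔥 := by
  have key : ∀ x : Pt R0, (∃ a ∈ 𝔥, x.x a ≠ 0) → ∀ y : PtO A x, ∃ a ∈ I0, y.y a ≠ 0 := by
    rintro x ⟨a, ha, h0⟩ y
    refine ⟨A.str a, h ▸ Ideal.mem_map_of_mem (A.str : R0 →+* A.A) ha, fun e => h0 ?_⟩
    exact (DFunLike.congr_fun y.hy a).symm.trans e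
  have lift : ∀ (x : Pt R0) (y : PtO A x) (I : Finset M.κ) (φ : M.S →ₐ[ℂ] x.V),
      φ.comp M.ι = y.y → (∀ i ∈ I, IsUnit (φ (M.g i))) →
      ∃ y' : PtO (M.ob A.str I) x, y'.pre (M.αI I) = y := by
    intro x y I φ hφ hu
    obtain ⟨y', hy'⟩ := exists_res I φ hu
    rw [hφ] at hy'
    refine ⟨⟨y', ?_⟩, PtO.ext hy'⟩
    change (y'.comp (M.toDI I)).comp A.str = x.x
    rw [hy', y.hy]
  refine ⟨fun I J hIJ => Hom.ext (AlgHom.ext fun r => Subtype.ext (M.rsC_toCh hIJ _)),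
    fun I J K h1 h2 => Hom.ext (AlgHom.ext fun r => Subtype.ext (M.toMod.rs_rs I J K h1 h2 r.1)),
    fun x hx I hI y y' e => ?_, fun x hx y => ?_, fun x hx y I hI H => ?_⟩
  · exact PtO.ext (DI_ext (congrArg PtO.y e)
      (ch_lift x.root y.y (key x hx (y.pre (M.αI I)))).1)
  · obtain ⟨φ, hφ, hσ, k, hk⟩ := M.prop x.V x.root y.y (key x hx y)
    exact ⟨k, lift x y {k} φ hφ fun i hi => Finset.mem_singleton.1 hi ▸ hk⟩
  · obtain ⟨φ, hφ, hσ, k, hk⟩ := M.prop x.V x.root y.y (key x hx y)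
    refine lift x y I φ hφ fun i hi => ?_
    obtain ⟨y', hy'⟩ := H i hi
    exact unit_of (I := {i}) y'.y φ (hφ.trans (congrArg PtO.y hy').symm) hσ hk
      (Finset.mem_singleton_self i)

end GM

end Pool.Agent.P.MP_824f38_ag.N
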