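import Pool.Agent.P.MP_824f38_ag.N.Mod

/-! Definitions for the assembly, and small facts about points. -/

set_option linter.unusedVariables false
set_option linter.unusedSectionVars false
set_option linter.style.haveILetI false
set_option linter.dupNamespace false

namespace Pool.Agent.P.MP_824f38_ag.N

open V (Dg Hg IsCo pr Pk)

section

variable {R : Type} [CommRing R] [Algebra ℂ R]

theorem kills_ex {A : Ob R} {x : Pt R} (y : PtO A x) (𝔥 : Ideal R) :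
    y.Kills (A.ex 𝔥) ↔ ∀ a ∈ 𝔥, x.x a = 0 := by
  have e : ∀ a, y.y (A.str a) = x.x a := fun a => DFunLike.congr_fun y.hy a
  refine ⟨fun h a ha => e a ▸ h _ (Ideal.mem_map_of_mem _ ha), fun h => ?_⟩
  have : A.ex 𝔥 ≤ RingHom.ker y.y := Ideal.map_le_iff_le_comap.2 fun a ha => (e a).trans (h a ha)
  exact fun a ha => this ha

theorem kills_mul {A : Ob R} {x : Pt R} (y : PtO A x) (𝔞 𝔟 : Ideal A.A) :
    y.Kills (𝔞 * 𝔟) ↔ y.Kills 𝔞 ∨ y.Kills 𝔟 :=
  (RingHom.ker_isPrime y.y).mul_le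

theorem kills_span {A : Ob R} {x : Pt R} (y : PtO A x) (a : A.A) :
    y.Kills (Ideal.span {a}) ↔ y.y a = 0 :=
  (Ideal.span_singleton_le_iff_mem (RingHom.ker y.y))

theorem kills_map {A B : Ob R} (φ : Hom A B) {x : Pt R} (y : PtO B x) (𝔞 : Ideal A.A) :
    y.Kills (𝔞.map (φ.f : A.A →+* B.A)) ↔ (y.pre φ).Kills 𝔞 :=
  Ideal.map_le_iff_le_comap (K := RingHom.ker y.y)

theorem Ob.ex_top (A : Ob R) : A.ex ⊤ = ⊤ := Ideal.map_top _

theorem Ob.ex_mul (A : Ob R) (𝔞 𝔟 : Ideal R) : A.ex (𝔞 * 𝔟) = A.ex 𝔞 * A.ex 𝔟 :=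
  Ideal.map_mul _ _ _

theorem ex_self [Algebra.FiniteType ℂ R] (𝔥 : Ideal R) : (Ob.self R).ex 𝔥 = 𝔥 := Ideal.map_id _

theorem PtO.Loc.self {A : Ob R} {x : Pt R} {y : PtO A x} {P : ∀ B : Ob R, Hom A B → Prop}
    (h : P A (Hom.id A)) : y.Loc P := ⟨A, Hom.id A, y, rfl, h⟩

theorem PtO.Loc.bind {A : Ob R} {x : Pt R} {y : PtO A x} {P Q : ∀ B : Ob R, Hom A B → Prop}
    (h : y.Loc P) (H : ∀ (B : Ob R) (φ : Hom A B) (y' : PtO B x), y'.pre φ = y → P B φ →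
      y'.Loc fun D ψ => Q D (ψ.comp φ)) : y.Loc Q := by
  obtain ⟨B, φ, y', e, hP⟩ := h
  obtain ⟨D, ψ, y'', e', hQ⟩ := H B φ y' e hP
  exact ⟨D, ψ.comp φ, y'', by rw [PtO.pre_comp, e', e], hQ⟩

theorem PtO.Loc.imp {A : Ob R} {x : Pt R} {y : PtO A x} {P Q : ∀ B : Ob R, Hom A B → Prop}
    (h : y.Loc P) (H : ∀ B φ, P B φ → Q B φ) : y.Loc Q := by
  obtain ⟨B, φ, y', e, hP⟩ := h
  exact ⟨B, φ, y', e, H B φ hP⟩

theorem PtO.Loc.and {A : Ob R} {x : Pt R} {y : PtO A x} {P Q : ∀ B : Ob R, Hom A B → Prop}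
    (hP : ∀ B D φ (ψ : Hom B D), P B φ → P D (ψ.comp φ))
    (hQ : ∀ B D φ (ψ : Hom B D), Q B φ → Q D (ψ.comp φ)) (h : y.Loc P) (h' : y.Loc Q) :
    y.Loc fun B φ => P B φ ∧ Q B φ := by
  obtain ⟨B, φ, y1, e, h1⟩ := h
  obtain ⟨B', φ', y2, e', h2⟩ := h'
  obtain ⟨i, ψ, ψ', rfl, rfl⟩ := y1.exists_common y2
  have : ψ'.comp φ' = ψ.comp φ := Idx.hom_ext (e'.trans e.symm)
  exact ⟨_, ψ.comp φ, i.pt, e, hP _ _ _ _ h1, this ▸ hQ _ _ _ _ h2⟩

/-- near a point that kills `m` the ideal `m` vanishes and the ring is a domain -/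
theorem loc_killed {A : Ob R} {x : Pt R} (y : PtO A x) {m : Ideal R} (h : ∀ r ∈ m, x.x r = 0) :
    y.Loc fun B φ => IsDomain B.A ∧ B.ex m = ⊥ :=
  ⟨y.idx.ob, y.toIdx, y.idx.pt, rfl, inferInstanceAs (IsDomain y.idx.1),
    (Ideal.map_eq_bot_iff_le_ker _).2 fun r hr => Subtype.ext (h r hr)⟩

/-- `S'` is the part of degree `p` of `S` -/
structure Proj (p : ℕ) (S S' : Sub (DRP R)) : Prop where
  le : ∀ A, S'.S A ≤ S.S A
  map : ∀ A, ∀ z ∈ S.S A, (eN R p).app A z ∈ S'.S A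
  fix : ∀ A, ∀ z ∈ S'.S A, (eN R p).app A z = z

/-- the Godement complex of the filtered `p`-forms -/
noncomputable abbrev KP (m : Ideal R) (a p : ℕ) (A : Ob R) (𝔥 : Ideal A.A) : Fm R (CD A) :=
  (FSp m a p).K A 𝔥

/-- the Godement complex of the `p`-forms -/
noncomputable abbrev KF (p : ℕ) (A : Ob R) (𝔥 : Ideal A.A) : Fm R (CD A) := (FmS R p).K A 𝔥

/-- all irreducible closed subsets have transcendence degree at most `n` -/
def DimLe (R : Type) [CommRing R] [Algebra ℂ R] (n : ℕ) : Prop :=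
  ∀ (A : Ob R), IsDomain A.A → Function.Surjective A.str →
    ∀ (k : ℕ) (t : Fin k → A.A), AlgebraicIndependent ℂ t → k ≤ n

/-- vanishing above `n` and finiteness of the filtered cohomology relative to `𝔥` -/
structure QQ (m : Ideal R) (n : ℕ) (A : Ob R) (𝔥 : Ideal R) : Prop where
  van : ∀ p q, n < p + q → Van (δD A) (KP m 0 p A (A.ex 𝔥)) q
  fg : ∀ p q, FGP m (fun a => Zy (δD A) (KP m a p A (A.ex 𝔥)) q)
    (fun a => Bd (δD A) (KP m a p A (A.ex 𝔥)) ⊥ q)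

/-- the Cech differential of a constant family -/
abbrev idD (R : Type) [CommRing R] (ι : Type) [LinearOrder ι] (W : Type) [AddCommGroup W]
    [Module R W] : Df R (fun _ => Finset ι → W) :=
  cechD (F := fun _ : Finset ι => W) fun _ _ _ => LinearMap.id

end

namespace GM

variable {R : Type} [CommRing R] [Algebra ℂ R] [IsDomain R] [Algebra.FiniteType ℂ R]
  {I0 : Ideal R} {ν : ℕ} (M : GM R I0 ν) {R0 : Type} [CommRing R0] [Algebra ℂ R0]

noncomputable instance instOrd {R : Type} [CommRing R] [Algebra ℂ R] {I0 : Ideal R} {ν : ℕ}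
    (M : GM R I0 ν) : LinearOrder M.κ := M.ord

/-- the structure morphism of a chart -/
noncomputable def αI {A : Ob R0} {I0 : Ideal A.A} (M : GM A.A I0 ν) (I : Finset M.κ) :
    N.Hom A (M.ob A.str I) := ⟨M.toDI I, rfl⟩

/-- a cochain of relative forms as a cochain of forms on the function field -/
noncomputable def ΨC (hne : ∀ i, M.g i ≠ 0) (π : R0 →ₐ[ℂ] R) (z : ∀ I, M.toMod.W I) :
    Finset M.κ → DV (genPt π) := fun I => toDV (genPt π) (M.Ψ hne I (z I))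

namespace Slice

variable {M} {I : Finset M.κ} (s : M.Slice I)

/-- a point over the generic point with the values of the divisors as units -/
def Un (φ : s.Sg →ₐ[ℂ] KB R) (τ : Fin M.m → (KB R)ˣ) : Prop :=
  s.Gen φ ∧ ∀ j : Fin M.m, (τ j : KB R) = φ (s.σ j)

/-- the form `β` on the slice corresponds to the relative form `z` in degree `l` -/
def Rel (hne : ∀ i, M.g i ≠ 0) (l : Dg M.m) (β : DR s.Sg) (z : M.toMod.W I) : Prop :=
  ∀ φ τ, s.Un φ τ → ((zp τ l : (KB R)ˣ) : KB R) • pull φ β = M.Ψ hne I z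

end Slice

end GM

end Pool.Agent.P.MP_824f38_ag.N
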