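import Pool.Agent.P.MP_824f38_ag.N.XPrime
import Pool.Agent.P.MP_824f38_ag.N.MModel
import Pool.Agent.P.MP_824f38_ag.N.ADev
import Pool.Agent.P.MP_824f38_ag.N.GPair

/-! Row NEC-XDev: devissage

qq_prime: if A.ex m = ⊥ take 𝔥' = ⊤ and qq_of_bot (KP_bot, fg_of_le). Otherwise choose finitely many generators f of A.ex m, GM.model gives h, n', t, M, F; lift h to h0 in R and take 𝔥' = span h0 * m; qq_model; n' ≤ n by hn.
qq_step: pair_ses (kills_ex, kills_mul, Ob.ex_mul, Hom.map_ex), les_van, les_fg, KP_up, K_sc. qq_all: devissage for P 𝔞 𝔥 := QQ m n ((Ob.self R).quo 𝔞) 𝔥. h0: K_eq_bot_of_kills. h1: qq_step for the factor map R / 𝔞 → R / (𝔞 ⊔ 𝔥'). h2: qq_prime.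
End: qq_step for (Ob.self R).toQuo ⊥ with 𝔥 = ⊤, 𝔥' = ⊥. -/

set_option linter.unusedVariables false
set_option linter.unusedSectionVars false
set_option linter.style.haveILetI false
set_option linter.dupNamespace false

namespace Pool.Agent.P.MP_824f38_ag.N

variable {R : Type} [CommRing R] [Algebra ℂ R] [Algebra.FiniteType ℂ R]

theorem qq_of_bot {m : Ideal R} {n : ℕ} {A : Ob R} {𝔥 : Ideal R}
    (h : ∀ a p j, KP m a p A (A.ex 𝔥) j = ⊥) : QQ m n A 𝔥 := by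
  have hz : ∀ a p q, Zy (δD A) (KP m a p A (A.ex 𝔥)) q ≤ Bd (δD A) (KP m a p A (A.ex 𝔥)) ⊥ q :=
    fun a p q => (inf_le_left.trans (h a p q).le).trans bot_le
  exact ⟨fun p q _ => hz 0 p q, fun p q => fg_of_le fun a => hz a p q⟩

theorem qq_step {m : Ideal R} {n : ℕ} {A B : Ob R} (φ : Hom A B) (hφ : Function.Surjective φ.f)
    {𝔥 𝔥' : Ideal R}
    (h : ∀ (x : Pt R) (y : PtO A x), y.Kills (RingHom.ker φ.f) ↔ y.Kills (A.ex 𝔥'))
    (h1 : QQ m n A (𝔥 * 𝔥')) (h2 : QQ m n B 𝔥) : QQ m n A 𝔥 := by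
  haveI : IsNoetherianRing R := Algebra.FiniteType.isNoetherianRing ℂ R
  have H : ∀ a p, SES (δD A) (δD B) ((DRP R).res φ) (KP m a p A (A.ex (𝔥 * 𝔥')))
      (KP m a p A (A.ex 𝔥)) (KP m a p B (B.ex 𝔥)) := fun a p =>
    pair_ses _ φ hφ (fun x y => by rw [Ob.ex_mul, kills_mul, h])
      (fun x y => by rw [kills_ex, kills_ex])
  exact ⟨fun p q hq => les_van ((DRP R).sq_δ A) (H 0 p) (K_sc _ _ _) (h1.van p q hq)
    (h2.van p q hq), fun p q => les_fg ((DRP R).sq_δ A) ((DRP R).sq_δ B) (fun a => H a p)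
      (fun a => K_sc _ _ _) (fun a => K_sc _ _ _) (KP_up m p A _) (KP_up m p B _) (h1.fg p q)
      (h2.fg p q)⟩

theorem qq_prime {n : ℕ} (hn : DimLe R n) (m : Ideal R) {A : Ob R} [IsDomain A.A]
    (hs : Function.Surjective A.str) {𝔥 : Ideal R} (h : A.ex 𝔥 ≠ ⊥) :
    ∃ 𝔥', A.ex 𝔥' ≠ ⊥ ∧ QQ m n A (𝔥 * 𝔥') := by
  by_cases hm : A.ex m = ⊥
  · refine ⟨⊤, ?_, qq_of_bot fun a p j => KP_bot hm a p _ j⟩
    rw [Ob.ex_top]
    exact top_ne_bot
  haveI : IsNoetherianRing A.A := Algebra.FiniteType.isNoetherianRing ℂ A.A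
  obtain ⟨N, f, hf⟩ :=
    Submodule.fg_iff_exists_fin_generating_family.1 (IsNoetherian.noetherian (A.ex m))
  have hf' : A.ex m = Ideal.span (Set.range f) := hf.symm
  have hf0 : ∃ t, f t ≠ 0 := by
    by_contra hc
    refine hm ?_
    rw [hf', Ideal.span_eq_bot]
    rintro _ ⟨t, rfl⟩
    exact not_not.1 fun h0 => hc ⟨t, h0⟩
  obtain ⟨g, n', hg, ⟨t, ht⟩, M, c, μ, F⟩ := GM.model f hf0 h
  obtain ⟨g0, rfl⟩ := hs g
  have e : A.ex (Ideal.span {g0} * m) = Ideal.span {A.str g0} * Ideal.span (Set.range f) := by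
    rw [Ob.ex_mul, hf', Ob.ex, Ideal.map_span, Set.image_singleton]
    rfl
  have hne : Ideal.span {A.str g0} * Ideal.span (Set.range f) ≠ ⊥ := by
    intro h0
    rw [Ideal.mul_eq_bot, Ideal.span_singleton_eq_bot, ← hf'] at h0
    exact h0.elim hg hm
  refine ⟨Ideal.span {g0} * m, e ▸ hne, ?_⟩
  have Q : QQ m n' A (𝔥 * (Ideal.span {g0} * m)) :=
    qq_model hs M F hf' (by rw [Ob.ex_mul, e])
      (fun h0 => (Ideal.mul_eq_bot.1 h0).elim h hne)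
      (by rw [hf']; exact Ideal.mul_le_right.trans Ideal.mul_le_right)
  have hle := hn A inferInstance hs n' t ht
  exact ⟨fun p q hq => Q.van p q (by omega), Q.fg⟩

theorem qq_all {n : ℕ} (hn : DimLe R n) (m : Ideal R) : QQ m n (Ob.self R) ⊤ := by
  haveI : IsNoetherianRing R := Algebra.FiniteType.isNoetherianRing ℂ R
  have hb : ∀ 𝔞 𝔥 : Ideal R, ((Ob.self R).quo 𝔞).ex 𝔥 = ⊥ ↔ 𝔥 ≤ 𝔞 := fun 𝔞 𝔥 =>
    (Ideal.map_eq_bot_iff_le_ker _).trans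
      ⟨fun h r hr => Ideal.Quotient.eq_zero_iff_mem.1 (h hr),
        fun h r hr => Ideal.Quotient.eq_zero_iff_mem.2 (h hr)⟩
  have hk : ∀ (A : Ob R) (x : Pt R) (y : PtO A x), y.Kills ⊥ := fun A x y a ha => by
    rw [(Submodule.mem_bot _).1 ha, map_zero]
  have key : ∀ 𝔞 𝔥 : Ideal R, QQ m n ((Ob.self R).quo 𝔞) 𝔥 := by
    refine devissage (fun 𝔞 𝔥 => QQ m n ((Ob.self R).quo 𝔞) 𝔥) ?_ ?_ ?_
    · intro 𝔞 𝔥 hle
      refine qq_of_bot fun a p j => K_eq_bot_of_kills _ (fun x y => ?_) j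
      rw [(hb 𝔞 𝔥).2 hle]
      exact hk _ x y
    · intro 𝔞 𝔥 𝔥' k1 k2
      let φ : Hom ((Ob.self R).quo 𝔞) ((Ob.self R).quo (𝔞 ⊔ 𝔥')) :=
        ⟨Ideal.Quotient.factorₐ ℂ le_sup_left, rfl⟩
      have hφ : ∀ r : R, φ.f (Ideal.Quotient.mk 𝔞 r) = Ideal.Quotient.mk (𝔞 ⊔ 𝔥') r :=
        fun r => rfl
      refine qq_step φ (fun b => ?_) (fun x y => ?_) k1 k2
      · obtain ⟨r, rfl⟩ := Ideal.Quotient.mk_surjective b
        exact ⟨_, hφ r⟩
      have hy : ∀ r : R, y.y (Ideal.Quotient.mk 𝔞 r) = x.x r := fun r =>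
        DFunLike.congr_fun y.hy r
      rw [kills_ex]
      constructor
      · intro h r hr
        rw [← hy]
        refine h _ ((RingHom.mem_ker).2 ?_)
        rw [hφ]
        exact Ideal.Quotient.eq_zero_iff_mem.2 (Ideal.mem_sup_right hr)
      · intro h b hb'
        obtain ⟨r, rfl⟩ := Ideal.Quotient.mk_surjective b
        have h1 : r ∈ 𝔞 ⊔ 𝔥' := Ideal.Quotient.eq_zero_iff_mem.1 ((hφ r).symm.trans hb')
        obtain ⟨u, hu, v, hv, rfl⟩ := Submodule.mem_sup.1 h1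
        rw [map_add, Ideal.Quotient.eq_zero_iff_mem.2 hu, zero_add, hy]
        exact h v hv
    · intro 𝔞 𝔥 hp hle
      haveI : IsDomain ((Ob.self R).quo 𝔞).A := Ideal.Quotient.isDomain 𝔞
      obtain ⟨𝔥', k1, k2⟩ := qq_prime hn m (A := (Ob.self R).quo 𝔞)
        Ideal.Quotient.mk_surjective fun h0 => hle ((hb 𝔞 𝔥).1 h0)
      exact ⟨𝔥', fun h0 => k1 ((hb 𝔞 𝔥').2 h0), k2⟩
  refine qq_step ((Ob.self R).toQuo ⊥) Ideal.Quotient.mk_surjective (𝔥' := ⊥) (fun x y => ?_)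
    (qq_of_bot fun a p j => K_eq_bot_of_kills _ (fun x y => ?_) j) (key ⊥ ⊤)
  · rw [ex_self]
    refine ⟨fun _ => hk _ x y, fun h a ha => h a ?_⟩
    exact Ideal.Quotient.eq_zero_iff_mem.1 ha
  · rw [ex_self, Ideal.mul_bot]
    exact hk _ x y

end Pool.Agent.P.MP_824f38_ag.N
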