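import Pool.Agent.P.MP_824f38_ag.N.XDI
import Pool.Agent.P.MP_824f38_ag.N.MSm
import Pool.Agent.P.MP_824f38_ag.N.VIn
import Pool.Agent.P.MP_824f38_ag.N.ACech

/-! Row NEC-XLamI: relative forms inside the forms of the function field

Ψ_inj: v_inj with sm_toMod, ψI_toCh, ψσ, toMod_σ, ψinj, inj_KB. Ψ_res: V.pullk_pullk, ψI_rsC. Ψ_smul as in the proof of Lam.smul_mem. ΨC_cech: cechL_apply, V.cech_apply. zy_iff: choose preimages (zero on the sets of the wrong size); V.cech_mem and Ψ_inj on nonempty sets. -/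

set_option linter.unusedVariables false
set_option linter.unusedSectionVars false
set_option linter.style.haveILetI false
set_option linter.dupNamespace false

namespace Pool.Agent.P.MP_824f38_ag.N

open V (Dg Hg IsCo pr Pk)

variable {R : Type} [CommRing R] [Algebra ℂ R] [IsDomain R] [Algebra.FiniteType ℂ R]
  {I0 : Ideal R} {ν : ℕ} {M : GM R I0 ν} {R0 : Type} [CommRing R0] [Algebra ℂ R0]
  [Algebra.FiniteType ℂ R0]

namespace GM

theorem Ψ_inj (hne : ∀ i, M.g i ≠ 0) {I : Finset M.κ} (hI : I.Nonempty) {l : Dg M.m}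
    {x : M.toMod.W I} (hx : x ∈ M.toMod.LL l I) (h : M.Ψ hne I x = 0) : x = 0 := by
  refine v_inj M.m M.κ M.toMod I (M.sm_toMod.1 I hI) (KB R) (M.ψI hne I) (fun j => ?_)
    (fun l s hs h0 => ?_) (M.compat_ψI hne I) l x hx h
  · have := M.ψI_toCh hne I (M.σ j)
    rw [M.ψσ, map_one, ← M.toMod_σ] at this
    exact this
  · have h1 := M.ψI_toCh hne I s
    have h2 : algebraMap R (KB R) (M.ψ s) = 0 := h1.symm.trans h0
    have h3 : M.ψ s = 0 := inj_KB R (h2.trans (map_zero _).symm)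
    have h4 : s = 0 := M.ψinj l s hs h3
    rw [h4, map_zero]

theorem Ψ_res (hne : ∀ i, M.g i ≠ 0) {I J : Finset M.κ} (h : I ⊆ J) (x : M.toMod.W I) :
    M.Ψ hne J (M.toMod.res I J h x) = M.Ψ hne I x := by
  exact V.pullk_pullk _ _ _ _ _ _ (fun a => ψI_rsC hne h a) x

theorem ΨC_add (hne : ∀ i, M.g i ≠ 0) (π : R0 →ₐ[ℂ] R) (z z' : ∀ I, M.toMod.W I) :
    M.ΨC hne π (z + z') = M.ΨC hne π z + M.ΨC hne π z' := by
  funext I
  exact map_add (M.Ψ hne I) (z I) (z' I)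

theorem ΨC_smul (hne : ∀ i, M.g i ≠ 0) (π : R0 →ₐ[ℂ] R) {s : M.toMod.S} {r : R0}
    (h : M.ψ s = π r) (z : ∀ I, M.toMod.W I) : M.ΨC hne π (s • z) = r • M.ΨC hne π z := by
  funext I
  have h1 := M.ψI_toCh hne I s
  rw [h] at h1
  have h2 : M.Ψ hne I (s • z I) = algebraMap R (KB R) (π r) • M.Ψ hne I (z I) := by
    rw [V.Mod.smul_def (X := M.toMod), map_mul, V.Mod.act_apply, Ψ, V.pullk_fn, ← h1]
    exact (V.smul_eq _ _).symm
  exact congrArg (toDV (genPt π)) h2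

theorem ΨC_cech (hne : ∀ i, M.g i ≠ 0) (π : R0 →ₐ[ℂ] R) (z : ∀ I, M.toMod.W I) (q : ℕ) :
    M.ΨC hne π (V.cech M.toMod.res z) = idD R0 M.κ (DV (genPt π)) q (M.ΨC hne π z) := by
  funext J
  have h1 : M.Ψ hne J (V.cech M.toMod.res z J) =
      ∑ a ∈ J, V.sgn J a • M.Ψ hne (J.erase a) (z (J.erase a)) := by
    rw [V.cech_apply, map_sum]
    refine Finset.sum_congr rfl fun a _ => ?_
    rw [map_zsmul, Ψ_res]
  refine (congrArg (toDV (genPt π)) h1).trans ?_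
  rw [map_sum]
  refine Finset.sum_congr rfl fun a _ => ?_
  rw [map_zsmul]
  rfl

theorem XLamI_zero (hne : ∀ i, M.g i ≠ 0) (π : R0 →ₐ[ℂ] R) : M.ΨC hne π 0 = 0 := by
  funext I
  exact map_zero (M.Ψ hne I)

theorem XLamI_mem (hne : ∀ i, M.g i ≠ 0) (π : R0 →ₐ[ℂ] R) {p : ℕ} {l : Dg M.m} {q : ℕ}
    {z : ∀ I, M.toMod.W I} (h : z ∈ V.Coch (M.toMod.L p l) q) :
    M.ΨC hne π z ∈ CochL (F := fun _ => DV (genPt π)) (M.Lam hne π p l) q := fun I =>
  ⟨⟨z I, (h I).1, rfl⟩, fun hc => by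
    change toDV (genPt π) (M.Ψ hne I (z I)) = 0
    rw [(h I).2 hc, map_zero, map_zero]⟩

theorem zy_iff (hne : ∀ i, M.g i ≠ 0) (π : R0 →ₐ[ℂ] R) (p : ℕ) (l : Dg M.m) (q : ℕ)
    (w : Finset M.κ → DV (genPt π)) :
    w ∈ Zy (idD R0 M.κ (DV (genPt π))) (CochK (M.Lam hne π p l)) q ↔
      ∃ z, V.IsCyc M.toMod.res (M.toMod.L p l) q z ∧ M.ΨC hne π z = w := by
  constructor
  · rintro ⟨h1, h2⟩
    have h3 : ∀ I : Finset M.κ, ∃ x ∈ M.toMod.L p l I, toDV (genPt π) (M.Ψ hne I x) = w I ∧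
        (I.card ≠ q + 1 → x = 0) := fun I => by
      by_cases hc : I.card = q + 1
      · obtain ⟨x, hx, e⟩ := (h1 I).1
        exact ⟨x, hx, e, fun h => absurd hc h⟩
      · refine ⟨0, zero_mem _, ?_, fun _ => rfl⟩
        rw [(h1 I).2 hc, map_zero, map_zero]
    choose z hz e h0 using h3
    have hzc : z ∈ V.Coch (M.toMod.L p l) (q + 1) := fun I => ⟨hz I, h0 I⟩
    have hw : M.ΨC hne π z = w := funext e
    refine ⟨z, ⟨hzc, ?_⟩, hw⟩
    have h4 := V.cech_mem (r := M.toMod.res) (fun I J h x hx => V.Mod.res_mem_L I J h x hx) hzc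
    have h5 : M.ΨC hne π (V.cech M.toMod.res z) = 0 := by
      rw [ΨC_cech hne π z q, hw]
      exact h2
    funext J
    rcases J.eq_empty_or_nonempty with rfl | hJ
    · exact V.cech_empty _ _
    · refine Ψ_inj hne hJ (V.Mod.mem_L.1 (h4 J).1).2 ?_
      exact (toDV (genPt π)).injective ((congrFun h5 J).trans (map_zero _).symm)
  · rintro ⟨z, ⟨h1, h2⟩, rfl⟩
    refine ⟨XLamI_mem hne π h1, ?_⟩
    have h3 := ΨC_cech hne π z q
    rw [h2, XLamI_zero] at h3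
    exact h3.symm

theorem bd_of (hne : ∀ i, M.g i ≠ 0) (π : R0 →ₐ[ℂ] R) {p : ℕ} {l : Dg M.m} {q : ℕ}
    {z : ∀ I, M.toMod.W I} (h : V.IsBd M.toMod.res (M.toMod.L p l) q z) :
    M.ΨC hne π z ∈ Bd (idD R0 M.κ (DV (genPt π))) (CochK (M.Lam hne π p l)) ⊥ q := by
  obtain ⟨b, hb, h0, rfl⟩ := h
  cases q with
  | zero =>
    have h1 : b = 0 := funext fun I => by
      rcases I.eq_empty_or_nonempty with rfl | hI
      · exact h0
      · exact (hb I).2 hI.card_pos.ne'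
    rw [h1, map_zero, XLamI_zero]
    exact zero_mem _
  | succ q => exact ⟨M.ΨC hne π b, XLamI_mem hne π hb, (ΨC_cech hne π b q).symm⟩

end GM

end Pool.Agent.P.MP_824f38_ag.N
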