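import Pool.Agent.P.MP_824f38_ag.N.XLamI
import Pool.Agent.P.MP_824f38_ag.N.MInt

/-! Row NEC-XLamV: vanishing and finiteness for the Cech complex on the function field

rad_toMod (points: F.unit) gives Rad and Proper. lam_van: q ≥ 1 by v_vanish (hχ, sm_toMod) with zy_iff, bd_of; q = 0: by Dim the forms of degree p > ν vanish on nonempty charts. lam_fg: fin from v_fin (coefficients in H 0 are ι (ψ s) and ψ s = π r by surjectivity, ΨC_smul),
gen from v_gen (Fintype.ofFinite τ; ψ (μ k) = f k by F.wk, ψι, ψ_σp; f k = π r with r in m). -/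

set_option linter.unusedVariables false
set_option linter.unusedSectionVars false
set_option linter.style.haveILetI false
set_option linter.dupNamespace false

namespace Pool.Agent.P.MP_824f38_ag.N

open V (Dg Hg IsCo pr Pk)

variable {R : Type} [CommRing R] [Algebra ℂ R] [IsDomain R] [Algebra.FiniteType ℂ R]
  {I0 : Ideal R} {ν : ℕ} {M : GM R I0 ν} {R0 : Type} [CommRing R0] [Algebra ℂ R0]
  [Algebra.FiniteType ℂ R0]

namespace GM

variable {τ : Type} {f : τ → R} {c : Fin M.m → ℕ} {μ : τ → M.S}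

theorem xlamv_rad (h0 : I0 ≠ ⊥) (F : M.Fin' f c μ) : M.toMod.Rad (M.dg c) μ := by
  refine M.rad_toMod h0 F.wk ?_
  rintro w ⟨i, hi⟩
  obtain ⟨k, n, d, hd⟩ := F.unit i
  refine ⟨k, fun h => pow_ne_zero n hi ?_⟩
  rw [← map_pow, hd, map_mul, h, zero_mul]

theorem xlamv_split (hne : ∀ i, M.g i ≠ 0) (π : R0 →ₐ[ℂ] R) {β : Type} (T : Finset β)
    (s : β → M.toMod.S) (r : β → R0) (h : ∀ t, M.ψ (s t) = π (r t)) (y : β → ∀ I, M.toMod.W I)
    (z : ∀ I, M.toMod.W I) :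
    M.ΨC hne π z = ∑ t ∈ T, r t • M.ΨC hne π (y t) + M.ΨC hne π (z - ∑ t ∈ T, s t • y t) := by
  have e := map_sum (AddMonoidHom.mk' (M.ΨC hne π) (ΨC_add hne π)) (fun t => s t • y t) T
  simp only [AddMonoidHom.mk'_apply] at e
  rw [← Finset.sum_congr rfl fun t _ => ΨC_smul hne π (h t) (y t), ← e, ← ΨC_add, add_sub_cancel]

theorem lam_van (h0 : I0 ≠ ⊥) (F : M.Fin' f c μ) (π : R0 →ₐ[ℂ] R) {p q : ℕ} (h : ν < p + q) :
    Van (idD R0 M.κ (DV (genPt π))) (CochK (M.Lam F.ne π p 1)) q := by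
  intro w hw
  obtain ⟨z, hz, rfl⟩ := (zy_iff F.ne π p 1 q w).1 hw
  refine bd_of F.ne π ?_
  rcases Nat.eq_zero_or_pos q with rfl | hq
  · refine ⟨0, zero_mem _, rfl, ?_⟩
    rw [map_zero]
    funext I
    by_cases hI : I.card = 0 + 1
    · exact (M.sm_toMod.2 ν le_rfl I (Finset.card_pos.1 (by omega)) p h _ (hz.1 I).1.1).symm
    · exact ((hz.1 I).2 hI).symm
  · exact v_vanish M.m M.κ M.toMod M.ft M.hχ (xlamv_rad h0 F).proper M.sm_toMod.1 ν
      (M.sm_toMod.2 ν le_rfl) p q hq h z hz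

theorem lam_fg [Finite τ] (h0 : I0 ≠ ⊥) (F : M.Fin' f c μ) {π : R0 →ₐ[ℂ] R}
    (hπ : Function.Surjective π) {m : Ideal R0}
    (hm : m.map (π : R0 →+* R) = Ideal.span (Set.range f)) (p q : ℕ) : FGP m
      (fun a => Zy (idD R0 M.κ (DV (genPt π))) (CochK (M.Lam F.ne π p (1 + a • M.dg c))) q)
      (fun a => Bd (idD R0 M.κ (DV (genPt π))) (CochK (M.Lam F.ne π p (1 + a • M.dg c))) ⊥ q) := by
  classical
  have hrad := xlamv_rad h0 F
  refine ⟨fun a => ?_, ?_⟩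
  · obtain ⟨T, hT, hT'⟩ := v_fin M.m M.κ M.toMod M.ft hrad.proper p (1 + a • M.dg c) q
    refine ⟨T.image (M.ΨC F.ne π), fun w hw => ?_, fun w hw => ?_⟩
    · obtain ⟨t, ht, rfl⟩ := Finset.mem_image.1 hw
      exact (zy_iff F.ne π p _ q _).2 ⟨t, hT t ht, rfl⟩
    · obtain ⟨z, hz, rfl⟩ := (zy_iff F.ne π p _ q w).1 hw
      obtain ⟨s, -, hs⟩ := hT' z hz
      choose r hr using fun t => hπ (M.ψ (s t))
      rw [xlamv_split F.ne π T s r (fun t => (hr t).symm) (fun t => t) z]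
      refine Submodule.add_mem_sup (Submodule.sum_mem _ fun t ht => Submodule.smul_mem _ _
        (Submodule.subset_span (Finset.mem_coe.2 (Finset.mem_image_of_mem _ ht)))) ?_
      exact bd_of F.ne π hs
  · letI := Fintype.ofFinite τ
    obtain ⟨a0, ha0⟩ := v_gen M.m M.κ M.toMod M.ft τ (M.dg c) μ hrad p 1 q
    have hr : ∀ k, ∃ r ∈ m, M.ψ (μ k) = π r := fun k => by
      have h1 : f k ∈ m.map (π : R0 →+* R) := hm ▸ Ideal.subset_span ⟨k, rfl⟩
      obtain ⟨r, h2, h3⟩ := (Ideal.mem_map_iff_of_surjective (π : R0 →+* R) hπ).1 h1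
      have h4 := congrArg M.ψ (F.wk.eq k)
      rw [M.ψι, map_mul, M.ψ_σp, mul_one] at h4
      exact ⟨r, h2, h4.symm.trans h3.symm⟩
    choose r hr1 hr2 using hr
    refine ⟨a0, fun a ha w hw => ?_⟩
    obtain ⟨z, hz, rfl⟩ := (zy_iff F.ne π p _ q w).1 hw
    obtain ⟨y, hy, hb⟩ := ha0 a ha z hz
    rw [xlamv_split F.ne π Finset.univ μ r hr2 y z]
    exact Submodule.add_mem_sup (Submodule.sum_mem _ fun k _ => Submodule.smul_mem_smul (hr1 k)
      ((zy_iff F.ne π p _ q _).2 ⟨y k, hy k, rfl⟩)) (bd_of F.ne π hb)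

end GM

end Pool.Agent.P.MP_824f38_ag.N
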