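import Pool.Agent.P.MP_824f38_ag.N.XDefs
import Pool.Agent.P.MP_824f38_ag.N.GNt

/-! Row NEC-XTw: the towers of the filtered complexes

KP_anti, KP_up: K_mono, K_smul with m ^ (a+1) ≤ m ^ a and up_smul. st_FS_bot: on the class of objects B with B.ex m = ⊥ (UpC by Hom.map_ex) FS m a is locally zero (loc on y.idx.ob, a domain, so the radical of ⊥ is ⊥; see loc_killed),
so K_locLe with Sub.bot and K_bot give (FS m a).K B ⊤ j = ⊥; an element of the stalk is the germ of z over some A at y; move to B = y.idx.ob, use eta_mem_K. K_FS_le, KP_bot follow (kills_mul, kills_ex, mem_K_top). -/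

set_option linter.unusedVariables false
set_option linter.unusedSectionVars false
set_option linter.style.haveILetI false
set_option linter.dupNamespace false

namespace Pool.Agent.P.MP_824f38_ag.N

variable {R : Type} [CommRing R] [Algebra ℂ R] [Algebra.FiniteType ℂ R]

private theorem twI_succ {A : Type} [CommRing A] (m : Ideal A) (a : ℕ) :
    twI m (a + 1) = m * twI m a := by
  rw [twI, twI, pow_succ', mul_assoc]

theorem KP_anti (m : Ideal R) (a p : ℕ) (A : Ob R) (𝔥 : Ideal A.A) (j : ℕ) :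
    KP m (a + 1) p A 𝔥 j ≤ KP m a p A 𝔥 j :=
  K_mono (S := FSp m (a + 1) p) (T := FSp m a p) (fun B z hz => by
    have h : twI (B.ex m) (a + 1) ≤ twI (B.ex m) a := by
      rw [twI_succ]; exact Ideal.mul_le_right
    exact ⟨Submodule.smul_mono_left (N := (⊤ : Submodule B.A (DR B.A))) h hz.1, hz.2⟩) A 𝔥 j

theorem KP_up (m : Ideal R) (p : ℕ) (A : Ob R) (𝔥 : Ideal A.A) (j : ℕ) :
    Up m fun a => KP m a p A 𝔥 j := fun a r hr c hc => by
  refine K_smul (S := FSp m a p) (T := FSp m (a + 1) p) (fun B z hz => ⟨?_, Submodule.smul_mem _ r hz.2⟩) hc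
  obtain ⟨ω, rfl⟩ := up_surj z
  change B.str r • ω ∈ twI (B.ex m) (a + 1) • (⊤ : Submodule B.A (DR B.A))
  rw [twI_succ, Submodule.mul_smul]
  exact Submodule.smul_mem_smul (Ideal.mem_map_of_mem _ hr) hz.1

theorem tw_Zy (m : Ideal R) (p : ℕ) (A : Ob R) (𝔥 : Ideal A.A) (q : ℕ) :
    Tw m fun a => Zy (δD A) (KP m a p A 𝔥) q :=
  ⟨fun a c hc => ⟨KP_anti m a p A 𝔥 q hc.1, hc.2⟩, fun a r hr c hc =>
    ⟨KP_up m p A 𝔥 q a r hr c hc.1, Submodule.smul_mem _ r hc.2⟩⟩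

private theorem tw_Bd_gen {W : ℕ → Type 1} [∀ j, AddCommGroup (W j)] [∀ j, Module R (W j)]
    (δ : Df R W) {m : Ideal R} {K : ℕ → Fm R W} (h1 : ∀ a j, K (a + 1) j ≤ K a j)
    (h2 : ∀ j, Up m fun a => K a j) (q : ℕ) : Tw m fun a => Bd δ (K a) ⊥ q := by
  cases q with
  | zero => exact ⟨fun a => le_rfl, fun a r _ c hc => Submodule.smul_mem _ r hc⟩
  | succ q =>
    refine ⟨fun a => Submodule.map_mono (h1 a q), ?_⟩
    rintro a r hr _ ⟨b, hb, rfl⟩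
    exact ⟨_, h2 q a r hr b hb, map_smul _ r b⟩

theorem tw_Bd (m : Ideal R) (p : ℕ) (A : Ob R) (𝔥 : Ideal A.A) (q : ℕ) :
    Tw m fun a => Bd (δD A) (KP m a p A 𝔥) ⊥ q :=
  tw_Bd_gen (δD A) (K := fun a => KP m a p A 𝔥) (fun a => KP_anti m a p A 𝔥) (KP_up m p A 𝔥) q

theorem KP_le_KF (m : Ideal R) (a p : ℕ) (A : Ob R) (𝔥 : Ideal A.A) (j : ℕ) :
    KP m a p A 𝔥 j ≤ KF p A 𝔥 j :=
  K_mono (S := FSp m a p) (T := FmS R p) (fun B z hz => hz.2) A 𝔥 j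

private theorem KP_le_FS (m : Ideal R) (a p : ℕ) (A : Ob R) (𝔥 : Ideal A.A) (j : ℕ) :
    KP m a p A 𝔥 j ≤ (FS m a).K A 𝔥 j :=
  K_mono (S := FSp m a p) (T := FS m a) (fun B z hz => hz.1) A 𝔥 j

theorem KP_top (p : ℕ) (A : Ob R) (𝔥 : Ideal A.A) : KP ⊤ 0 p A 𝔥 = KF p A 𝔥 := by
  funext j
  refine le_antisymm (KP_le_KF ⊤ 0 p A 𝔥 j) 
    (K_mono (S := FmS R p) (T := FSp ⊤ 0 p) (fun B z hz => ⟨?_, hz⟩) A 𝔥 j)
  change (up B).symm z ∈ twI (B.ex ⊤) 0 • (⊤ : Submodule B.A (DR B.A))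
  rw [Ob.ex_top, twI, pow_zero, one_mul, Ideal.radical_top, Submodule.top_smul]
  trivial

private theorem K_FS_bot {m : Ideal R} {B : Ob R} (h : B.ex m = ⊥) (a j : ℕ) :
    (FS m a).K B ⊤ j ≤ ⊥ := by
  refine (K_locLe (𝒞 := fun B => B.ex m = ⊥) (T := Sub.bot _)
    (fun A B φ hA => (φ.map_ex m).symm.trans (by rw [show A.ex m = ⊥ from hA, Ideal.map_bot]))
    (fun A hA z hz x y => ?_) h ⊤ j).trans
    (K_bot B ⊤ j).le
  refine (loc_killed y (m := m) ((kills_ex y m).1 fun b hb => ?_)).imp fun D φ ⟨hD, e⟩ => ?_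
  · rw [hA] at hb
    rw [(Submodule.mem_bot _).1 hb, map_zero]
  · have h1 := (FS m a).mem φ z hz
    change (up D).symm _ ∈ twI (D.ex m) a • (⊤ : Submodule D.A (DR D.A)) at h1
    rw [e, twI, Ideal.radical_bot_of_isReduced, Ideal.mul_bot, Submodule.bot_smul] at h1
    exact (up D).symm.map_eq_zero_iff.1 h1

theorem st_FS_bot {m : Ideal R} {x : Pt R} (hx : ∀ r ∈ m, x.x r = 0) (a j : ℕ) :
    ((FS m a).tw j).st x = ⊥ := by
  refine le_bot_iff.1 ?_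
  rintro _ (rfl | ⟨A, y, z, hz, rfl⟩)
  · exact zero_mem _
  obtain ⟨B, φ, y', rfl, -, e⟩ := loc_killed y hx
  have := K_FS_bot e a j (eta_mem_K _ (((FS m a).tw j).mem φ z hz))
  rw [← PSh.germ_map]
  have h0 : ((DRP R).tw j).eta B (((DRP R).tw j).map φ z) = 0 := this
  exact congrFun (congrFun h0 x) y'

theorem K_FS_le (m : Ideal R) (a : ℕ) (A : Ob R) (𝔥 : Ideal A.A) (j : ℕ) :
    (FS m a).K A 𝔥 j ≤ KT A (𝔥 * A.ex m) j := fun c hc => mem_K_top.2 fun x y hy => by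
  rcases (kills_mul y _ _).1 hy with h | h
  · exact (hc x y).2 h
  · have := (hc x y).1
    rwa [st_FS_bot ((kills_ex y m).1 h)] at this

theorem KP_le_rel (m : Ideal R) (a p : ℕ) (A : Ob R) (𝔥 : Ideal A.A) (j : ℕ) :
    KP m a p A 𝔥 j ≤ KF p A (𝔥 * A.ex m) j := fun c hc =>
  (mem_K_iff _).2 ⟨((mem_K_iff _).1 (KP_le_KF m a p A 𝔥 j hc)).1,
    K_FS_le m a A 𝔥 j (KP_le_FS m a p A 𝔥 j hc)⟩

theorem KP_bot {m : Ideal R} {A : Ob R} (h : A.ex m = ⊥) (a p : ℕ) (𝔥 : Ideal A.A) (j : ℕ) :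
    KP m a p A 𝔥 j = ⊥ := le_bot_iff.1 fun c hc =>
  K_FS_bot h a j ((mem_K_iff _).1 (KP_le_FS m a p A 𝔥 j hc)).1

end Pool.Agent.P.MP_824f38_ag.N
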