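import Pool.Agent.P.MP_824f38_ag.N.XChart
import Pool.Agent.P.MP_824f38_ag.N.XLamV
import Pool.Agent.P.MP_824f38_ag.N.XTw
import Pool.Agent.P.MP_824f38_ag.N.ADc

/-! Row NEC-XPrime: vanishing and finiteness over a model

Double complex W i j = ∀ I, CD (M.ob A.str I) j, h i j = cechL (fun I J h => res (obRs h) j), v i j = LinearMap.pi / componentwise δD, M a i j = CochL (fun I => KP m a p _ _ j) (i + 1). Rows: cech_succ with cechCov; columns: chart_van on the sets with i + 1 elements (zero elsewhere); cechL_sq, cechL_mem, K_res, K_sc, res_δ.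
EdgeH is CochK of G I = Zy (KP ..) 0: cech_van / cech_fg with ev = evI, evI_res, chart_inj, chart_im, lam_van (zero_smul, add_zero), lam_fg. EdgeV is the image of KP on A under cechAug: cech_inj, cech_zero, van_iff_of_iso, fg_iff_of_iso; dc_van, dc_fg; KP_up. R0 is noetherian by Algebra.FiniteType.isNoetherianRing ℂ. -/

set_option linter.unusedVariables false
set_option linter.unusedSectionVars false
set_option linter.style.haveILetI false
set_option linter.dupNamespace false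

namespace Pool.Agent.P.MP_824f38_ag.N

variable {R : Type} [CommRing R] [Algebra ℂ R] [Algebra.FiniteType ℂ R]

section Dbl

variable {ι : Type} [LinearOrder ι] [Fintype ι] {A : Ob R} {D : Finset ι → Ob R}
  {α : ∀ I, Hom A (D I)} {r : ∀ I J : Finset ι, I ⊆ J → Hom (D I) (D J)} {𝔥 : Ideal R}
  {Z : PSh R}

/-- the terms of the Cech-Godement double complex -/
abbrev xpW (Z : PSh R) (D : Finset ι → Ob R) (i j : ℕ) : Type 1 := ∀ I, Z.C (D I) j

/-- the Cech differential -/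
noncomputable def xpH (Z : PSh R) (r : ∀ I J : Finset ι, I ⊆ J → Hom (D I) (D J)) (i j : ℕ) :
    xpW Z D i j →ₗ[R] xpW Z D (i + 1) j := cechL fun I J h => Z.res (r I J h) j

/-- the Godement differential -/
noncomputable def xpV (Z : PSh R) (D : Finset ι → Ob R) (i j : ℕ) :
    xpW Z D i j →ₗ[R] xpW Z D i (j + 1) :=
  LinearMap.pi fun I => (Z.δ (D I) j).comp (LinearMap.proj I)

theorem xpV_apply (i j : ℕ) (c : xpW Z D i j) (I : Finset ι) :
    xpV Z D i j c I = Z.δ (D I) j (c I) := rfl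

/-- the double complex of a subpresheaf -/
noncomputable def xpM (S : Sub Z) (D : Finset ι → Ob R) (𝔥 : Ideal R) (i j : ℕ) :
    Submodule R (xpW Z D i j) := CochL (fun I => S.K (D I) ((D I).ex 𝔥) j) (i + 1)

theorem xp_rr (H : CechCov D α r 𝔥) (j : ℕ) (I J K : Finset ι) (h : I ⊆ J) (h' : J ⊆ K)
    (x : Z.C (D I) j) :
    Z.res (r J K h') j (Z.res (r I J h) j x) = Z.res (r I K (h.trans h')) j x := by
  rw [Z.res_res, H.rr]

theorem xp_res (S : Sub Z) {B B' : Ob R} (φ : Hom B B') {j : ℕ} {c : Z.C B j}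
    (hc : c ∈ S.K B (B.ex 𝔥) j) : Z.res φ j c ∈ S.K B' (B'.ex 𝔥) j :=
  K_res S φ (fun x y h => (kills_ex _ 𝔥).2 ((kills_ex y 𝔥).1 h)) hc

theorem xp_dc (H : CechCov D α r 𝔥) (S : Sub Z)
    (hv : ∀ I, I.Nonempty → ∀ j, Van (Z.δ (D I)) (S.K (D I) ((D I).ex 𝔥)) (j + 1)) :
    DC (xpH Z r) (xpV Z D) (xpM S D 𝔥) where
  comm i j x := by
    funext J
    rw [xpV_apply, xpH, xpH, cechL_apply, cechL_apply, map_sum]
    refine Finset.sum_congr rfl fun a _ => ?_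
    rw [map_zsmul, xpV_apply, Z.res_δ]
  hh i j x := cechL_sq (xp_rr H j) x
  vv i j x := funext fun I => Z.sq_δ (D I) j (x I)
  hmem i j x hx := cechL_mem (r := fun I J h => Z.res (r I J h) j)
    (G := fun I => S.K (D I) ((D I).ex 𝔥) j) (fun I J h x hx => xp_res S _ hx) hx
  vmem i j x hx := fun I => ⟨K_sc S _ _ j _ (hx I).1, fun h => by
    rw [xpV_apply, (hx I).2 h, map_zero]⟩
  hex i j x hx h0 := cech_succ H S j i x hx h0
  vex i j x hx h0 := by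
    have key : ∀ I, ∃ y ∈ S.K (D I) ((D I).ex 𝔥) j,
        (I.card ≠ i + 1 → y = 0) ∧ Z.δ (D I) j y = x I := by
      intro I
      by_cases hI : I.card = i + 1
      · obtain ⟨y, hy, e⟩ := mem_Bd_succ.1 (hv I (Finset.card_pos.1 (by omega)) j
          (mem_Zy.2 ⟨(hx I).1, congrFun h0 I⟩))
        exact ⟨y, hy, fun h => absurd hI h, e⟩
      · exact ⟨0, zero_mem _, fun _ => rfl, by rw [map_zero, (hx I).2 hI]⟩
    choose y hy hy0 e using key
    exact ⟨y, fun I => ⟨hy I, hy0 I⟩, funext e⟩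

theorem xp_edgeH (S : Sub Z) : EdgeH (xpV Z D) (xpM S D 𝔥) =
    CochK fun I => Zy (Z.δ (D I)) (S.K (D I) ((D I).ex 𝔥)) 0 := by
  funext i
  ext c
  constructor
  · rintro ⟨h1, h2⟩ I
    exact ⟨mem_Zy.2 ⟨(h1 I).1, congrFun (LinearMap.mem_ker.1 h2) I⟩, (h1 I).2⟩
  · intro h
    exact ⟨fun I => ⟨(mem_Zy.1 (h I).1).1, (h I).2⟩,
      LinearMap.mem_ker.2 (funext fun I => (mem_Zy.1 (h I).1).2)⟩

theorem xp_aug (j : ℕ) (c : Z.C A j) :
    cechAug Z α (j + 1) (Z.δ A j c) = xpV Z D 0 j (cechAug Z α j c) := by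
  funext I
  rw [xpV_apply, gc_aug, gc_aug]
  split_ifs with h
  · exact Z.res_δ _ _ _
  · exact (map_zero _).symm

theorem xp_im (H : CechCov D α r 𝔥) (S : Sub Z) (j : ℕ) (c : xpW Z D 0 j) :
    c ∈ EdgeV (xpH Z r) (xpM S D 𝔥) j ↔ ∃ b ∈ S.K A (A.ex 𝔥) j, cechAug Z α j b = c :=
  cech_zero H S j c

theorem xp_zres (S : Sub Z) (I J : Finset ι) (h : I ⊆ J) :
    ∀ x ∈ Zy (Z.δ (D I)) (S.K (D I) ((D I).ex 𝔥)) 0,
      Z.res (r I J h) 0 x ∈ Zy (Z.δ (D J)) (S.K (D J) ((D J).ex 𝔥)) 0 := fun x hx =>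
  mem_Zy.2 ⟨xp_res S _ (mem_Zy.1 hx).1, by rw [← Z.res_δ, (mem_Zy.1 hx).2, map_zero]⟩

theorem xp_van (H : CechCov D α r 𝔥) (S : Sub Z)
    (hv : ∀ I, I.Nonempty → ∀ j, Van (Z.δ (D I)) (S.K (D I) ((D I).ex 𝔥)) (j + 1)) {q : ℕ}
    (h : Van (cechD fun I J h => Z.res (r I J h) 0)
      (CochK fun I => Zy (Z.δ (D I)) (S.K (D I) ((D I).ex 𝔥)) 0) q) :
    Van (Z.δ A) (S.K A (A.ex 𝔥)) q := by
  refine (van_iff_of_iso (W := Z.C A) (W' := fun j => xpW Z D 0 j) (δ' := fun j => xpV Z D 0 j)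
    (f := cechAug Z α) (K' := EdgeV (xpH Z r) (xpM S D 𝔥)) (fun j c _ => xp_aug j c)
    (K_sc S _ _) (cech_inj H S) (xp_im H S) q).2 ((dc_van (xp_dc H S hv) q).1 ?_)
  rw [xp_edgeH]
  exact h

theorem xp_fg [IsNoetherianRing R] (H : CechCov D α r 𝔥) {m : Ideal R} (S : ℕ → Sub Z)
    (hU : ∀ (B : Ob R) j, Up m fun a => (S a).K B (B.ex 𝔥) j)
    (hv : ∀ a I, I.Nonempty → ∀ j, Van (Z.δ (D I)) ((S a).K (D I) ((D I).ex 𝔥)) (j + 1)) {q : ℕ}
    (h : FGP m (fun a => Zy (cechD fun I J h => Z.res (r I J h) 0)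
        (CochK fun I => Zy (Z.δ (D I)) ((S a).K (D I) ((D I).ex 𝔥)) 0) q)
      (fun a => Bd (cechD fun I J h => Z.res (r I J h) 0)
        (CochK fun I => Zy (Z.δ (D I)) ((S a).K (D I) ((D I).ex 𝔥)) 0) ⊥ q)) :
    FGP m (fun a => Zy (Z.δ A) ((S a).K A (A.ex 𝔥)) q)
      (fun a => Bd (Z.δ A) ((S a).K A (A.ex 𝔥)) ⊥ q) := by
  refine (fg_iff_of_iso (W := Z.C A) (W' := fun j => xpW Z D 0 j) (δ' := fun j => xpV Z D 0 j)
    (f := cechAug Z α) (K := fun a => (S a).K A (A.ex 𝔥))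
    (K' := fun a => EdgeV (xpH Z r) (xpM (S a) D 𝔥)) (fun a j c _ => xp_aug j c)
    (fun a => K_sc (S a) _ _) (Z.sq_δ A) (fun j c => funext fun I => Z.sq_δ (D I) j (c I))
    (hU A) (fun a => cech_inj H (S a)) (fun a => xp_im H (S a)) q).2
    (dc_fg (M := fun a => xpM (S a) D 𝔥) (fun a => xp_dc H (S a) (hv a)) ?_ q ?_)
  · intro i j a s hs x hx I
    exact ⟨hU (D I) j a s hs _ (hx I).1, fun h => by
      rw [Pi.smul_apply, (hx I).2 h, smul_zero]⟩
  · simp only [xp_edgeH]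
    exact h

end Dbl

theorem qq_model {A : Ob R} [IsDomain A.A] (hs : Function.Surjective A.str) {I0 : Ideal A.A}
    {ν : ℕ} (M : GM A.A I0 ν) {τ : Type} [Finite τ] {f : τ → A.A} {c : Fin M.m → ℕ}
    {μ : τ → M.S} (F : M.Fin' f c μ) {m 𝔥 : Ideal R} (hm : A.ex m = Ideal.span (Set.range f))
    (h𝔥 : A.ex 𝔥 = I0) (h0 : I0 ≠ ⊥) (hle : I0 ≤ A.ex m) : QQ m ν A 𝔥 := by
  haveI : IsNoetherianRing R := Algebra.FiniteType.isNoetherianRing ℂ R
  have H := M.cechCov h𝔥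
  have hle' : I0 ≤ Ideal.span (Set.range f) := hm ▸ hle
  refine ⟨fun p q hpq => ?_, fun p q => ?_⟩
  · refine xp_van H (FSp m 0 p) (fun I hI j => GM.chart_van F hs hm h𝔥 hle' hI 0 p j) ?_
    refine cech_van (xp_rr H 0) (xp_zres _) (M.evI F.ne A.str)
      (fun I J h x => GM.evI_res F.ne A.str h x)
      (fun I hI => GM.chart_inj F hs hm h𝔥 hle' hI 0 p)
      (fun I hI => GM.chart_im F hs hm h𝔥 hle' hI 0 p) q ?_
    rw [zero_smul, add_zero]
    exact GM.lam_van h0 F A.str hpq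
  · refine xp_fg H (fun a => FSp m a p) (fun B j => KP_up m p B _ j)
      (fun a I hI j => GM.chart_van F hs hm h𝔥 hle' hI a p j) ?_
    exact cech_fg (xp_rr H 0) (fun a => xp_zres _) (fun I => (tw_Zy m p _ _ 0).smul)
      (M.evI F.ne A.str) (fun I J h x => GM.evI_res F.ne A.str h x)
      (fun a I hI => GM.chart_inj F hs hm h𝔥 hle' hI a p)
      (fun a I hI => GM.chart_im F hs hm h𝔥 hle' hI a p) q (GM.lam_fg h0 F hs hm p q)

end Pool.Agent.P.MP_824f38_ag.N
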