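import Pool.Agent.P.MP_824f38_ag.N.XChS
import Pool.Agent.P.MP_824f38_ag.N.XTw
import Pool.Agent.P.MP_824f38_ag.N.GFl
import Pool.Agent.P.MP_824f38_ag.N.GPair
import Pool.Agent.P.MP_824f38_ag.N.ALes

/-! Row NEC-XRel: the filtered complex and the complex relative to the zero set of m

rel_top: flasque with 𝒜 j x = if x kills m then ⊥ else ⊤ (so KK (𝒜 j) A ⊤ = KT A (A.ex m) j by mem_K_top, kills_ex) and ℬ j x = ((FS m 0).tw j).st x; hle by st_FS_bot. Local condition at (x, y): if x kills m then on B from loc_killed the restriction of c is zero.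
Otherwise δ c x y = germ y (cl c) lies in the stalk, so (Sub.germ_mem_iff, Sub.mem_tw_succ) locally cl (res c) = cl k with k in (FS m 0).K B ⊤ j, and c' = res c - k is a cocycle in KT B (B.ex m) j (K_FS_le). Pass to loc_chart; B.ex m and span (∏ over c i ≠ 0 of z i) have the same points (K_congr);
s_chart makes c' a coboundary (j ≥ 1) or etaD ω with ω in Ne (j = 0; then loc_Ne with a = 0 and eta_mem_K). rel_ex: relex_pair with pair_ses for A.toQuo 𝔥, twice. -/

set_option linter.unusedVariables false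
set_option linter.unusedSectionVars false
set_option linter.style.haveILetI false
set_option linter.dupNamespace false

namespace Pool.Agent.P.MP_824f38_ag.N

variable {R : Type} [CommRing R] [Algebra ℂ R] [Algebra.FiniteType ℂ R]

open Classical in
/-- zero at the points that kill `m`, everything at the other points -/
private noncomputable def xrelA (m : Ideal R) (j : ℕ) (x : Pt R) :
    Submodule R (((DRP R).tw j).Stalk x) :=
  if ∀ r ∈ m, x.x r = 0 then ⊥ else ⊤

private theorem xrel_KK (m : Ideal R) (A : Ob R) :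
    (fun j => (KK (xrelA m j) A ⊤ : Submodule R (CD A j))) = KT A (A.ex m) := by
  funext j
  ext c
  rw [mem_K_top]
  constructor
  · intro h x y hy
    have h1 := (h x y).1
    rwa [xrelA, if_pos ((kills_ex y m).1 hy), Submodule.mem_bot] at h1
  · intro h x y
    refine ⟨?_, fun h' => absurd h' y.not_kills_top⟩
    rw [xrelA]
    split_ifs with h1
    · exact (Submodule.mem_bot R).2 (h x y ((kills_ex y m).2 h1))
    · trivial

private theorem xrel_le (m : Ideal R) (A : Ob R) (j : ℕ) :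
    (FS m 0).K A ⊤ j ≤ KT A (A.ex m) j := by
  have h := K_FS_le m 0 A ⊤ j
  rwa [Ideal.top_mul] at h

private theorem xrel_res {m : Ideal R} {A B : Ob R} (φ : Hom A B) {j : ℕ} {c : CD A j}
    (hc : c ∈ KT A (A.ex m) j) : (DRP R).res φ j c ∈ KT B (B.ex m) j :=
  K_res _ φ (fun x y h => (kills_ex _ m).2 ((kills_ex y m).1 h)) hc

private theorem xrel_cyc {m : Ideal R} {A : Ob R} {j : ℕ} {c : CD A j}
    (hc : c ∈ KT A (A.ex m) j) (h0 : δD A j c = 0) {x : Pt R} (y : PtO A x)
    (hx : ∃ r ∈ m, x.x r ≠ 0) : y.Loc fun B φ =>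
      (DRP R).res φ j c ∈ (FS m 0).K B ⊤ j ⊔ Bd (δD B) (KT B (B.ex m)) ⊥ j := by
  refine (loc_chart y hx).bind fun B φ y' e hB => ?_
  obtain ⟨-, N, z, k, hz, hm⟩ := hB
  have h1 : KT B (B.ex m) =
      KT B (Ideal.span {∏ i ∈ Finset.univ.filter fun i => k i ≠ 0, z i}) := by
    refine K_congr _ fun x' w => ?_
    rw [hm, kills_span, kills_span, map_prod, map_prod, Finset.prod_eq_zero_iff,
      Finset.prod_eq_zero_iff]
    constructor
    · rintro ⟨i, hi, h⟩
      exact ⟨i, Finset.mem_univ i, by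
        rw [map_pow, h, zero_pow (Finset.mem_filter.1 hi).2]⟩
    · rintro ⟨i, -, h⟩
      rw [map_pow, pow_eq_zero_iff'] at h
      exact ⟨i, Finset.mem_filter.2 ⟨Finset.mem_univ i, h.2⟩, h.1⟩
  have h2 : (DRP R).res φ j c ∈ Zy (δD B) (KT B (B.ex m)) j :=
    mem_Zy.2 ⟨xrel_res φ hc, by rw [← (DRP R).res_δ, h0, map_zero]⟩
  have h3 := s_chart hz (Finset.univ.filter fun i => k i ≠ 0)
  rw [← h1] at h3
  have h4 := h3.ex j h2
  cases j with
  | succ j => exact PtO.Loc.self (Submodule.mem_sup_right h4)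
  | zero =>
    obtain ⟨ω, hω, e'⟩ := mem_etaN.1 h4
    refine (loc_Ne y' hm).imp fun D ψ hD => Submodule.mem_sup_left ?_
    have h5 := hD 0 ω (by simpa only [zero_mul, zero_add] using hω)
    rw [← (DRP R).res_res, ← e', res_etaD]
    exact eta_mem_K (j := 0) _ h5

theorem rel_top (m : Ideal R) (A : Ob R) :
    RelEx (δD A) ((FS m 0).K A ⊤) (KT A (A.ex m)) := by
  rw [← xrel_KK]
  refine flasque (DRP R) (xrelA m) (fun j x => ((FS m 0).tw j).st x) (fun j x => ?_)
    (fun B => ?_) (fun B => K_sc (FS m 0) B ⊤) (fun B j c hc hd x y => ?_) A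
  · rw [xrelA]
    split_ifs with h
    · exact (st_FS_bot h 0 j).le
    · exact le_top
  · rw [xrel_KK]
    exact K_sc _ B _
  have hc' : c ∈ KT B (B.ex m) j := by
    rw [← xrel_KK]
    exact hc
  by_cases hx : ∀ r ∈ m, x.x r = 0
  · refine (loc_killed y hx).imp fun D φ hD => ?_
    have h0 : KT D (D.ex m) j = ⊥ := by
      refine K_eq_bot_of_kills _ (fun x' w a ha => ?_) j
      rw [hD.2] at ha
      rw [Ideal.mem_bot.1 ha, map_zero]
    have h1 := xrel_res φ hc'
    rw [h0, Submodule.mem_bot] at h1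
    rw [h1]
    exact zero_mem _
  push Not at hx
  have h1 : ((DRP R).tw (j + 1)).germ y ((DRP R).cl B j c) ∈ ((FS m 0).tw (j + 1)).st x :=
    (hd x y).1
  refine ((Sub.germ_mem_iff _).1 h1).bind fun D φ y' e hD => ?_
  obtain ⟨k, hk, ek⟩ := (Sub.mem_tw_succ _).1 hD
  have h2 : (DRP R).res φ j c - k ∈ KT D (D.ex m) j :=
    sub_mem (xrel_res φ hc') (xrel_le m D j hk)
  have h3 : δD D j ((DRP R).res φ j c - k) = 0 := by
    rw [PSh.δ_apply, map_sub, ek, PSh.map_cl, sub_self, map_zero]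
  refine (xrel_cyc h2 h3 y' hx).imp fun E ψ hE => ?_
  rw [xrel_KK]
  have h4 : (DRP R).res ψ j k ∈ (FS m 0).K E ⊤ j :=
    K_res _ ψ (fun x' w h => absurd h w.not_kills_top) hk
  have h5 := add_mem hE (Submodule.mem_sup_left h4)
  rw [← map_add, sub_add_cancel] at h5
  exact h5

theorem rel_ex (m : Ideal R) (A : Ob R) (𝔥 : Ideal A.A) :
    RelEx (δD A) ((FS m 0).K A 𝔥) (KT A (𝔥 * A.ex m)) := by
  have hs : Function.Surjective (A.toQuo 𝔥).f := Ideal.Quotient.mkₐ_surjective ℂ 𝔥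
  have hk : RingHom.ker (A.toQuo 𝔥).f = 𝔥 := Ideal.Quotient.mkₐ_ker ℂ 𝔥
  refine relex_pair ((DRP R).sq_δ A) ((DRP R).sq_δ (A.quo 𝔥))
    (pair_ses (FS m 0) (A.toQuo 𝔥) hs (𝔥 := ⊤) (𝔥B := ⊤) (fun x y => ?_) fun x y => ?_)
    (pair_ses (Sub.top (DRP R)) (A.toQuo 𝔥) hs (𝔥 := A.ex m) (𝔥B := (A.quo 𝔥).ex m)
      (fun x y => ?_) fun x y => ?_)
    (K_sc _ A ⊤) (K_sc _ A _) (xrel_le m A) (rel_top m A) (rel_top m (A.quo 𝔥))
  · rw [hk]
    exact ⟨Or.inr, fun h => h.resolve_left y.not_kills_top⟩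
  · exact iff_of_false y.not_kills_top (PtO.not_kills_top _)
  · rw [hk, kills_mul, or_comm]
  · rw [kills_ex, kills_ex]

end Pool.Agent.P.MP_824f38_ag.N
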