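import Pool.Agent.P.MP_824f38_ag.N.XDefs
import Pool.Agent.P.MP_824f38_ag.N.MBasic
import Pool.Agent.P.MP_824f38_ag.N.LExch
import Pool.Agent.P.MP_824f38_ag.N.LDer

/-! Row NEC-XSlA: slices exist and have normal crossings

exists_slice: unit_ex with i in I and l = Pi.single j 1; z j = toCh a * (toCh (g i)) ^ (-k) (V.Mod.isUnit_g, alg_mem, Hg_inv, Hg_pow). sreg: for a point w' of the slice let w = w' ∘ mk'; w ∘ toCh is Plus, M.loc and Snc.loc give Snc on Ch I; ext_free with u a = z a - 1 and the Euler derivations (exists_euler for toMod.ρc I, toMod.coc I);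
snc_quot with P the image of Fin.castLE (Ideal.mk_ker). exists_act: exists_torus (or exists_twist) on Ch I fixes z j because ζ ^ M0 = 1 (zp_single, M0 • single j 1 = single j M0), so it descends (Ideal.Quotient.liftₐ); multiplicativity by co_hom_ext and zp_mul. -/

set_option linter.unusedVariables false
set_option linter.unusedSectionVars false
set_option linter.style.haveILetI false
set_option linter.dupNamespace false

namespace Pool.Agent.P.MP_824f38_ag.N

open V (Dg Hg IsCo pr Pk)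

variable {R : Type} [CommRing R] [Algebra ℂ R] [IsDomain R] [Algebra.FiniteType ℂ R]
  {I0 : Ideal R} {ν : ℕ} {M : GM R I0 ν} {R0 : Type} [CommRing R0] [Algebra ℂ R0]
  [Algebra.FiniteType ℂ R0]

namespace GM

private theorem xsla_hk (I : Finset M.κ) (c : ℂ) :
    algebraMap ℂ (M.Ch I) c ∈ Hg (M.toMod.ρc I) 0 := by
  rw [← (M.toCh I).commutes c]
  exact M.toMod.alg_mem I (M.hk c)

theorem exists_slice {I : Finset M.κ} (hI : I.Nonempty) : Nonempty (M.Slice I) := by
  obtain ⟨i, hi⟩ := hI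
  obtain ⟨N, hN, hu⟩ := M.unit_ex
  choose k a ha n hn using fun j : Fin M.m => hu i (Pi.single j 1)
  have hg : IsUnit (M.toCh I (M.g i)) := M.toMod.isUnit_g hi
  choose v hv using fun j => (hg.pow (k j)).exists_left_inv
  refine ⟨⟨N, hN, fun j => M.toCh I (a j) * v j, fun j => ?_, fun j => ?_⟩⟩
  · refine IsUnit.mul ?_ (IsUnit.of_mul_eq_one _ (hv j))
    refine isUnit_of_dvd_unit (map_dvd (M.toCh I) (hn j)) ?_
    rw [map_pow]
    exact hg.pow _
  · have h1 := V.Hg_inv (V.Hg_pow (M.toMod.alg_mem I (M.hg i)) (k j)) (hv j)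
    exact V.Hg_cast (V.Hg_mul (M.toMod.alg_mem I (ha j)) h1) (add_neg_cancel_right _ _)

namespace Slice

variable {I : Finset M.κ} (s : M.Slice I)

theorem mk_surj : Function.Surjective s.mk' := by
  exact Ideal.Quotient.mkₐ_surjective ℂ _

theorem mk_z (j : Fin M.m) : s.mk' (s.z j) = 1 := by
  rw [← sub_eq_zero, ← map_one s.mk', ← map_sub]
  exact Ideal.Quotient.eq_zero_iff_mem.2 (Ideal.subset_span ⟨j, rfl⟩)

theorem lift {V : Type} [CommRing V] [Algebra ℂ V] (φ : M.Ch I →ₐ[ℂ] V)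
    (h : ∀ j, φ (s.z j) = 1) : ∃ φ' : s.Sg →ₐ[ℂ] V, φ'.comp s.mk' = φ := by
  have H : Ideal.span (Set.range fun j => s.z j - 1) ≤ RingHom.ker φ := by
    refine Ideal.span_le.2 ?_
    rintro _ ⟨j, rfl⟩
    change φ (s.z j - 1) = 0
    rw [map_sub, h, map_one, sub_self]
  exact ⟨Ideal.Quotient.liftₐ _ φ fun a ha => H ha, AlgHom.ext fun x => rfl⟩

theorem finDiv : FinDiv s.σ := by
  refine ⟨M.m, fun j hj => ?_⟩
  rw [σ, M.σ_one j hj, map_one, map_one]

theorem sreg (hI : I.Nonempty) : SReg s.σ := by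
  classical
  intro w'
  obtain ⟨i, hi⟩ := hI
  haveI : Algebra.FiniteType ℂ M.toMod.S := M.ft
  haveI : Algebra.FiniteType ℂ (M.Ch I) :=
    Algebra.FiniteType.trans (S := M.toMod.S) inferInstance inferInstance
  have hp : M.Plus ((w'.comp s.mk').comp (M.toCh I)) :=
    ⟨i, ((M.toMod.isUnit_g hi).map (w'.comp s.mk')).ne_zero⟩
  have h1 : Snc (fun j => M.toCh I (M.σ j)) (w'.comp s.mk') (ν + M.m) :=
    Snc.loc (A := M.toMod.S) (B := M.Ch I) (Submonoid.powers (M.toMod.gI I)) (M.loc _ hp)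
  choose θ hθ using exists_euler (M.toMod.coc I) (xsla_hk I)
  have hw : ∀ j, (w'.comp s.mk') (s.z j) = 1 := fun j => by
    rw [AlgHom.comp_apply, s.mk_z, map_one]
  have hz : ∀ a b, (w'.comp s.mk') (θ a (s.z b - 1)) =
      (((s.M0 • Pi.single b 1 : Dg M.m) a : ℤ) : ℂ) := by
    intro a b
    rw [map_sub, Derivation.map_one_eq_zero, sub_zero, hθ a _ _ (s.deg b), map_zsmul, hw,
      zsmul_one]
  obtain ⟨y, lab, hk, H, L, hy⟩ := ext_free h1 (fun a => s.z a - 1)
    (fun a => by rw [map_sub, hw, map_one, sub_self]) θ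
    (fun a => by
      rw [hz, Pi.smul_apply, Pi.single_eq_same, nsmul_one, Int.cast_natCast]
      exact Nat.cast_ne_zero.2 s.pos.ne')
    (fun a b hab => by
      rw [hz, Pi.smul_apply, Pi.single_eq_of_ne hab, smul_zero, Int.cast_zero])
    (fun a j hj => by
      rcases lt_or_ge j M.m with h | h
      · rw [hθ a _ (M.toCh I (M.σ j)) (M.toMod.alg_mem I (M.hσ ⟨j, h⟩)), map_zsmul, hj, smul_zero]
      · rw [M.σ_one j h, map_one, Derivation.map_one_eq_zero, map_zero])
  refine ⟨_, snc_quot s.mk' s.mk_surj H L (Finset.univ.image (Fin.castLE hk)) ?_ fun j =>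
    Or.inl ⟨rfl, fun i hi => ?_⟩⟩
  · have e : y '' (Finset.univ.image (Fin.castLE hk) : Finset _) = Set.range fun j => s.z j - 1 := by
      rw [Finset.coe_image, Finset.coe_univ, Set.image_univ, ← Set.range_comp]
      exact congrArg Set.range (funext fun a => (hy a).1)
    rw [e]
    exact congrArg (sat _) Ideal.mk_ker
  · obtain ⟨a, -, rfl⟩ := Finset.mem_image.1 hi
    rw [(hy a).2]
    exact WithBot.bot_ne_coe

theorem finite_Gp : Finite s.Gp := by
  haveI : NeZero s.M0 := ⟨s.pos.ne'⟩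
  infer_instance

theorem exists_act : ∃ ρ, s.IsAct ρ := by
  have ext : ∀ f g : s.Sg →ₐ[ℂ] s.Sg,
      (∀ l, ∀ b ∈ M.toMod.Hc I l, f (s.mk' b) = g (s.mk' b)) → f = g := by
    intro f g h
    have := co_hom_ext (M.toMod.coc I) (φ := f.comp s.mk') (φ' := g.comp s.mk') h
    refine AlgHom.ext fun x => ?_
    obtain ⟨b, rfl⟩ := s.mk_surj x
    exact DFunLike.congr_fun this b
  have ex : ∀ ζ : s.Gp, ∃ f : s.Sg →ₐ[ℂ] s.Sg, ∀ l, ∀ b ∈ M.toMod.Hc I l,
      f (s.mk' b) = ((zp (fun j => (ζ j : ℂˣ)) l : ℂˣ) : ℂ) • s.mk' b := by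
    intro ζ
    obtain ⟨α, hα⟩ := exists_torus (M.toMod.coc I) (xsla_hk I) fun j => (ζ j : ℂˣ)
    obtain ⟨f, hf⟩ := s.lift (s.mk'.comp (α : M.Ch I →ₐ[ℂ] M.Ch I)) fun j => by
      change s.mk' (α (s.z j)) = 1
      rw [hα _ _ (s.deg j), ← Pi.single_smul, zp_single, nsmul_one, zpow_natCast,
        (mem_rootsOfUnity _ _).1 (ζ j).2, Units.val_one, one_smul, s.mk_z]
    refine ⟨f, fun l b hb => ?_⟩
    have : f (s.mk' b) = s.mk' (α b) := DFunLike.congr_fun hf b
    rw [this, hα l b hb, map_smul]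
  choose f hf using ex
  refine ⟨⟨⟨f, ext _ _ fun l b hb => ?_⟩, fun ζ ζ' => ext _ _ fun l b hb => ?_⟩, hf⟩
  · have e : zp (fun j => ((1 : s.Gp) j : ℂˣ)) l = 1 :=
      Finset.prod_eq_one fun j _ => one_zpow _
    rw [hf _ l b hb, e, Units.val_one, one_smul]
    rfl
  · change f (ζ * ζ') (s.mk' b) = f ζ (f ζ' (s.mk' b))
    have e : zp (fun j => ((ζ * ζ') j : ℂˣ)) l =
        zp (fun j => (ζ j : ℂˣ)) l * zp (fun j => (ζ' j : ℂˣ)) l := zp_mul _ _ l
    rw [hf _ l b hb, hf _ l b hb, map_smul, hf _ l b hb, e, Units.val_mul, smul_smul, mul_comm]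

end Slice

end GM

end Pool.Agent.P.MP_824f38_ag.N
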