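import Pool.Agent.P.MP_824f38_ag.N.XSlA
import Pool.Agent.P.MP_824f38_ag.N.XDI
import Pool.Agent.P.MP_824f38_ag.N.GGal
import Pool.Agent.P.MP_824f38_ag.N.CRt

/-! Row NEC-XSlB: the slice is a Galois cover of the chart

galCov: fix by DI_mem (degree 0); kill by kills_ex; lift: ch_lift, then exists_twist with τ j ^ M0 * φ (z j) = 1 (x.root, φ (z j) is a unit), Slice.lift. trans: φ = y ∘ mk', φ' = y' ∘ mk' agree on ι R; the σ j are nonzero (ch_sigma_ne);
for homogeneous b of degree l, rel and mem_Hc give φ b * φ σ ^ (l+) * u = φ σ ^ (l-) * v with u ≠ 0, v depending only on x. For b = z j: φ (σ j) ^ M0 = φ' (σ j) ^ M0, exists_root_of_unity gives ζ j, and φ' b = ζ ^ (-l) φ b; co_hom_ext on Ch I, mk_surj.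
kills_iff: σ_rad for one direction; for the other F.mono, pow_mem_span (g i is a unit on the chart) and ι (f0 k) = μ0 k * σp e. ex_eq: F.unit gives k with μ k a unit on Ch I, ι (f k') = μ k' σp c; choose π0 in m with π π0 = f k (Ideal.mem_map_iff_of_surjective). -/

set_option linter.unusedVariables false
set_option linter.unusedSectionVars false
set_option linter.style.haveILetI false
set_option linter.dupNamespace false

namespace Pool.Agent.P.MP_824f38_ag.N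

open V (Dg Hg IsCo pr Pk)

variable {R : Type} [CommRing R] [Algebra ℂ R] [IsDomain R] [Algebra.FiniteType ℂ R]
  {I0 : Ideal R} {ν : ℕ} {M : GM R I0 ν} {R0 : Type} [CommRing R0] [Algebra ℂ R0]
  [Algebra.FiniteType ℂ R0]

namespace GM

private theorem hk_ch (I : Finset M.κ) (c : ℂ) : algebraMap ℂ (M.Ch I) c ∈ M.toMod.Hc I 0 := by
  have := M.toMod.alg_mem I (l := 0) (s := algebraMap ℂ M.S c) (M.hk c)
  rw [← (M.toCh I).commutes c]
  exact this

private theorem zp_rel {I : Finset M.κ} {K : Type} [CommRing K] [Algebra ℂ K]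
    (φ : M.Ch I →ₐ[ℂ] K) (a : Fin M.m → Kˣ) (ha : ∀ j : Fin M.m, (a j : K) = φ (M.toCh I (M.σ j)))
    {l : Dg M.m} {t : M.S} (ht : t ∈ M.H l) :
    (zp a l : K) * φ (M.toCh I t) = φ (M.toCh I (M.ι (M.ψ t))) := by
  have hp : ∀ e : Fin M.m → ℕ, φ (M.toCh I (M.σp e)) = (zp a (M.dg e) : K) := fun e => by
    simp only [σp, zp, dg, map_prod, map_pow, ← ha, zpow_natCast, Units.coe_prod,
      Units.val_pow_eq_pow_val]
  have h := congrArg (fun u => φ (M.toCh I u)) (M.rel ht)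
  simp only [map_mul, hp] at h
  have e : (M.dg fun j => (l j).toNat) = (M.dg fun j => (-l j).toNat) + l := by
    funext j
    simp only [dg, Pi.add_apply]
    omega
  rw [e, zp_add, Units.val_mul] at h
  refine (Units.isUnit (zp a (M.dg fun j => (-l j).toNat))).mul_left_cancel ?_
  rw [← h]
  ring

private theorem tw_of_agree {I : Finset M.κ} {K : Type} [Field K] [Algebra ℂ K]
    (φ φ' : M.Ch I →ₐ[ℂ] K) (hι : ∀ r, φ (M.toCh I (M.ι r)) = φ' (M.toCh I (M.ι r)))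
    (hσ : ∀ j, φ (M.toCh I (M.σ j)) ≠ 0) (hσ' : ∀ j, φ' (M.toCh I (M.σ j)) ≠ 0) :
    ∃ τ : Fin M.m → Kˣ, ∀ l, ∀ b ∈ M.toMod.Hc I l, φ' b = (zp τ l : K) * φ b := by
  let a : Fin M.m → Kˣ := fun j => Units.mk0 _ (hσ j)
  let a' : Fin M.m → Kˣ := fun j => Units.mk0 _ (hσ' j)
  obtain ⟨φ2, h2⟩ := exists_twist (M.toMod.coc I) (hk_ch I) φ (a'⁻¹ * a)
  have e1 : φ2.comp (M.toCh I) = φ'.comp (M.toCh I) := co_hom_ext M.co fun l t ht => by
    have h3 := h2 l (M.toCh I t) (M.toMod.alg_mem I ht)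
    have h4 := zp_rel φ a (fun j => rfl) ht
    have h5 := zp_rel φ' a' (fun j => rfl) ht
    have h6 : (zp a'⁻¹ l : K) * (zp a' l : K) = 1 := by
      rw [← Units.val_mul, ← zp_mul, inv_mul_cancel]
      simp [zp]
    rw [AlgHom.comp_apply, AlgHom.comp_apply, h3, zp_mul, Units.val_mul, mul_assoc, h4, hι, ← h5,
      ← mul_assoc, h6, one_mul]
  have e2 : (φ2 : M.Ch I →+* K) = (φ' : M.Ch I →+* K) :=
    M.toMod.ch_ext fun t => DFunLike.congr_fun e1 t
  refine ⟨a'⁻¹ * a, fun l b hb => ?_⟩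
  rw [← h2 l b hb]
  exact (DFunLike.congr_fun e2 b).symm

namespace Slice

variable {I : Finset M.κ} (s : M.Slice I)

private theorem str_eq (π : R0 →ₐ[ℂ] R) (r : R0) :
    (s.ob π).str r = s.mk' (M.toCh I (M.ι (π r))) := rfl

private theorem pt_eq (π : R0 →ₐ[ℂ] R) {x : Pt R0} (y : PtO (s.ob π) x) (r : R0) :
    y.y (s.mk' (M.toCh I (M.ι (π r)))) = x.x r := DFunLike.congr_fun y.hy r

private theorem zp_deg {V : Type} [CommRing V] (τ : Fin M.m → Vˣ) (j : Fin M.m) :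
    zp τ (s.M0 • Pi.single j 1) = τ j ^ s.M0 := by
  rw [← Pi.single_smul', zp_single, nsmul_eq_mul, mul_one, zpow_natCast]

theorem galCov (hI : I.Nonempty) {ρ : s.Gp →* (s.Sg →ₐ[ℂ] s.Sg)} (hρ : s.IsAct ρ)
    (π : R0 →ₐ[ℂ] R) {𝔥 : Ideal R0} (h : 𝔥.map (π : R0 →+* R) = I0) :
    GalCov (s.hom π) ρ ((M.ob π I).ex 𝔥) ((s.ob π).ex 𝔥) := by
  refine ⟨fun ζ => AlgHom.ext fun b => ?_, fun x y => ?_, fun x y hy => ?_,
    fun x y y' hy e => ?_⟩
  · have := hρ ζ 0 b.1 (DI_mem b.2)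
    rw [zp_zero, Units.val_one, one_smul] at this
    exact this
  · rw [kills_ex, kills_ex]
  · rw [kills_ex] at hy
    push Not at hy
    obtain ⟨a, ha, ha0⟩ := hy
    obtain ⟨-, φ, hφ⟩ := ch_lift x.root y.y ⟨π a, h ▸ Ideal.mem_map_of_mem _ ha,
      fun e => ha0 ((DFunLike.congr_fun y.hy a).symm.trans e)⟩
    have hu : ∀ j, ∃ τ : x.Vˣ, (τ : x.V) ^ s.M0 * φ (s.z j) = 1 := fun j => by
      obtain ⟨v, hv⟩ := ((s.unit j).map φ).exists_left_inv
      obtain ⟨t, ht⟩ := x.root v s.M0 s.pos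
      have : IsUnit t := (isUnit_pow_iff s.pos.ne').1 (ht ▸ IsUnit.of_mul_eq_one _ hv)
      exact ⟨this.unit, by rw [this.unit_spec, ht, hv]⟩
    choose τ hτ using hu
    obtain ⟨φ1, h1⟩ := exists_twist (M.toMod.coc I) (hk_ch I) φ τ
    obtain ⟨φ2, h2⟩ := s.lift φ1 fun j => by
      rw [h1 _ _ (s.deg j), s.zp_deg, Units.val_pow_eq_pow_val, hτ]
    have e : φ2.comp (s.mk'.comp (M.DI I).val) = y.y := by
      rw [← AlgHom.comp_assoc, h2, ← hφ]
      refine AlgHom.ext fun b => ?_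
      have := h1 0 b.1 (DI_mem b.2)
      rw [zp_zero, Units.val_one, one_mul] at this
      exact this
    exact ⟨⟨φ2, by rw [← y.hy, ← e]; rfl⟩, PtO.ext e⟩
  · rw [kills_ex] at hy
    push Not at hy
    obtain ⟨a, ha, ha0⟩ := hy
    have hinj := IsFractionRing.injective x.V (FractionRing x.V)
    let κ : x.V →ₐ[ℂ] FractionRing x.V := IsScalarTower.toAlgHom ℂ x.V (FractionRing x.V)
    have hκ : Function.Injective κ := hinj
    have hσ : ∀ (y : PtO (s.ob π) x) (j : ℕ),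
        (κ.comp (y.y.comp s.mk')) (M.toCh I (M.σ j)) ≠ 0 := fun y j h0 =>
      ch_sigma_ne hI (y.y.comp s.mk') ⟨π a, h ▸ Ideal.mem_map_of_mem _ ha,
        fun e => ha0 ((s.pt_eq π y a).symm.trans e)⟩ j (hκ (h0.trans (map_zero κ).symm))
    obtain ⟨τ, hτ⟩ := tw_of_agree (κ.comp (y.y.comp s.mk')) (κ.comp (y'.y.comp s.mk'))
      (fun r => congrArg κ (DFunLike.congr_fun (congrArg PtO.y e) (M.toDI I r))) (hσ y) (hσ y')
    have hζ : ∀ j, ∃ ζ : rootsOfUnity s.M0 ℂ,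
        (τ j : FractionRing x.V) = ((ζ : ℂˣ) : ℂ) • (1 : FractionRing x.V) := fun j => by
      refine exists_root_of_unity s.pos ?_
      have := hτ _ _ (s.deg j)
      simp only [AlgHom.comp_apply, s.mk_z, map_one, mul_one] at this
      rw [one_pow, this, s.zp_deg, Units.val_pow_eq_pow_val]
    choose ζ hζ using hζ
    have hz : ∀ l, (zp τ l : FractionRing x.V) =
        algebraMap ℂ _ ((zp (fun j => (ζ j : ℂˣ)) l : ℂˣ) : ℂ) := fun l => by
      have e1 : τ = fun j => Units.map (algebraMap ℂ (FractionRing x.V) : ℂ →* _) (ζ j : ℂˣ) := by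
        funext j
        refine Units.ext ?_
        rw [hζ, Algebra.smul_def, mul_one]
        rfl
      have e2 : zp τ l = Units.map (algebraMap ℂ (FractionRing x.V) : ℂ →* _)
          (zp (fun j => (ζ j : ℂˣ)) l) := by
        rw [e1]
        simp only [zp, map_prod, map_zpow]
      rw [e2]; rfl
    have e3 : y'.y.comp s.mk' = (y.y.comp (ρ ζ)).comp s.mk' :=
      co_hom_ext (M.toMod.coc I) fun l b hb => hκ (by
        have h1 := hτ l b hb
        rw [hz, ← Algebra.smul_def] at h1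
        rw [AlgHom.comp_apply (y.y.comp (ρ ζ)), AlgHom.comp_apply y.y, hρ ζ l b hb, map_smul,
          map_smul]
        exact h1)
    refine ⟨ζ, AlgHom.ext fun b => ?_⟩
    obtain ⟨b, rfl⟩ := s.mk_surj b
    exact DFunLike.congr_fun e3 b

theorem kills_iff (hI : I.Nonempty) {τ : Type} {f : τ → R} {c : Fin M.m → ℕ} {μ : τ → M.S}
    (F : M.Fin' f c μ) (π : R0 →ₐ[ℂ] R) {𝔥 : Ideal R0} (h : 𝔥.map (π : R0 →+* R) = I0)
    (x : Pt R0) (y : PtO (s.ob π) x) :
    y.Kills ((s.ob π).ex 𝔥) ↔ y.y (∏ j ∈ Finset.range M.m, s.σ j) = 0 := by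
  rw [kills_ex]
  constructor
  · intro H
    by_contra h0
    let θ : M.S →ₐ[ℂ] x.V := y.y.comp (s.mk'.comp (M.toCh I))
    have hσ : ∀ j : Fin M.m, θ (M.σ j) ≠ 0 := fun j hj => h0 (by
      rw [map_prod]
      exact Finset.prod_eq_zero (Finset.mem_range.2 j.2) hj)
    have hI0 : I0 ≤ RingHom.ker (θ.comp M.ι) :=
      h.ge.trans (Ideal.map_le_iff_le_comap.2 fun a ha => (s.pt_eq π y a).trans (H a ha))
    obtain ⟨N, f0, hf0, e, μ0, W, hW⟩ := F.mono
    obtain ⟨i, hi⟩ := hI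
    obtain ⟨n, hn⟩ := M.pow_mem_span hW i
    have hμ : Ideal.span (Set.range μ0) ≤ RingHom.ker θ := by
      rw [Ideal.span_le]
      rintro _ ⟨k, rfl⟩
      have h1 : θ (M.ι (f0 k)) = 0 := hI0 (hf0 ▸ Ideal.subset_span ⟨k, rfl⟩)
      rw [W.eq k, map_mul] at h1
      refine (mul_eq_zero.1 h1).resolve_right ?_
      rw [σp, map_prod]
      exact Finset.prod_ne_zero_iff.2 fun j _ => by rw [map_pow]; exact pow_ne_zero _ (hσ j)
    have h2 : θ (M.g i ^ n) = 0 := hμ hn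
    have h3 : IsUnit (θ (M.g i)) := (M.toMod.isUnit_g hi).map (y.y.comp s.mk')
    rw [map_pow] at h2
    exact (h3.pow n).ne_zero h2
  · intro H a ha
    rw [map_prod] at H
    obtain ⟨j, -, hj⟩ := Finset.prod_eq_zero_iff.1 H
    by_contra h0
    exact ch_sigma_ne hI (y.y.comp s.mk') ⟨π a, h ▸ Ideal.mem_map_of_mem _ ha,
      fun e => h0 ((s.pt_eq π y a).symm.trans e)⟩ j hj

theorem ex_eq (hI : I.Nonempty) {τ : Type} {f : τ → R} {c : Fin M.m → ℕ} {μ : τ → M.S}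
    (F : M.Fin' f c μ) (π : R0 →ₐ[ℂ] R) (hπ : Function.Surjective π) {m : Ideal R0}
    (hm : m.map (π : R0 →+* R) = Ideal.span (Set.range f)) : ∃ π0 ∈ m,
      (s.ob π).ex m = Ideal.span {(s.ob π).str π0} ∧ ∀ a : ℕ,
        Ideal.span {(s.ob π).str π0 ^ a} = Ideal.span {s.mk' (M.toCh I (M.σp c)) ^ a} := by
  obtain ⟨i, hi⟩ := hI
  obtain ⟨k, n, hk⟩ := F.unit i
  let θ : M.S →ₐ[ℂ] s.Sg := s.mk'.comp (M.toCh I)
  have hg : IsUnit (θ (M.g i)) := (M.toMod.isUnit_g hi).map s.mk'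
  have hu : IsUnit (θ (μ k)) :=
    isUnit_of_dvd_unit (map_dvd θ hk) (by rw [map_pow]; exact hg.pow n)
  have hf : f k ∈ m.map (π : R0 →+* R) := hm ▸ Ideal.subset_span ⟨k, rfl⟩
  obtain ⟨π0, h0, e⟩ := (Ideal.mem_map_iff_of_surjective (π : R0 →+* R) hπ).1 hf
  have e0 : (s.ob π).str π0 = θ (μ k) * θ (M.σp c) := by
    rw [← map_mul, ← F.wk.eq k, ← e]; rfl
  have hs : ∀ a : ℕ, Ideal.span {(s.ob π).str π0 ^ a} =
      Ideal.span {s.mk' (M.toCh I (M.σp c)) ^ a} := fun a => by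
    rw [e0, mul_pow]
    exact Ideal.span_singleton_mul_left_unit (hu.pow a) _
  refine ⟨π0, h0, le_antisymm (Ideal.map_le_iff_le_comap.2 fun a ha => ?_) ?_, hs⟩
  · have h1 := hs 1
    rw [pow_one, pow_one] at h1
    have h2 : Ideal.span (Set.range f) ≤
        (Ideal.span {θ (M.σp c)}).comap ((θ.comp M.ι : R →ₐ[ℂ] s.Sg) : R →+* s.Sg) := by
      rw [Ideal.span_le]
      rintro _ ⟨k', rfl⟩
      change θ (M.ι (f k')) ∈ Ideal.span {θ (M.σp c)}
      rw [F.wk.eq k', map_mul]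
      exact Ideal.mul_mem_left _ _ (Ideal.mem_span_singleton_self _)
    have h3 := h2 (hm ▸ Ideal.mem_map_of_mem (π : R0 →+* R) ha)
    rw [h1]
    exact h3
  · rw [Ideal.span_singleton_le_iff_mem]
    exact Ideal.mem_map_of_mem _ h0

end Slice

end GM

end Pool.Agent.P.MP_824f38_ag.N
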