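import Pool.Agent.P.MP_824f38_ag.N.XSlA
import Pool.Agent.P.MP_824f38_ag.N.XDI

/-! Row NEC-XSlG: generic points of the slice

gen_un: g i * σp χ = ι (ψ (g i)) by rel, χ ≥ 1 and ψ (g i) ≠ 0 (ψinj). un_hom: first for b = toCh s by rel (zp as a quotient of monomials), then mem_Hc, cancelling ψ (gI) ^ e ≠ 0. exists_gen: exists_twist of ψI with τ j ^ M0 * ψI (z j) = 1, Slice.lift. gen_DI: DI_mem and un_hom for l = 0. -/

set_option linter.unusedVariables false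
set_option linter.unusedSectionVars false
set_option linter.style.haveILetI false
set_option linter.dupNamespace false

namespace Pool.Agent.P.MP_824f38_ag.N

open V (Dg Hg IsCo pr Pk)

variable {R : Type} [CommRing R] [Algebra ℂ R] [IsDomain R] [Algebra.FiniteType ℂ R]
  {I0 : Ideal R} {ν : ℕ} {M : GM R I0 ν} {R0 : Type} [CommRing R0] [Algebra ℂ R0]
  [Algebra.FiniteType ℂ R0]

namespace GM

namespace Slice

variable {I : Finset M.κ} (s : M.Slice I)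

theorem gen_un (hne : ∀ i, M.g i ≠ 0) (hI : I.Nonempty) {φ : s.Sg →ₐ[ℂ] KB R} (h : s.Gen φ) :
    ∃ τ, s.Un φ τ := by
  obtain ⟨i, hi⟩ := hI
  have h1 := congrArg (fun x => φ (s.mk' (M.toCh I x))) (M.rel (M.hg i))
  have h2 : M.σp (fun j => (-M.χ j).toNat) = 1 :=
    Finset.prod_eq_one fun j _ => by
      have := M.hχ j
      simp only [show (-M.χ j).toNat = 0 by omega, pow_zero]
  simp only [h2, one_mul, map_mul] at h1
  rw [h (M.ψ (M.g i))] at h1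
  have h3 : algebraMap R (KB R) (M.ψ (M.g i)) ≠ 0 := fun h0 =>
    hne i (M.ψinj _ _ (M.hg i) (inj_KB R (h0.trans (map_zero _).symm)))
  rw [← h1] at h3
  have h4 := right_ne_zero_of_mul h3
  simp only [σp, map_prod, map_pow] at h4
  have h5 : ∀ j : Fin M.m, φ (s.σ j) ≠ 0 := fun j h0 => by
    refine Finset.prod_ne_zero_iff.1 h4 j (Finset.mem_univ j) ?_
    have := M.hχ j
    exact (congrArg (· ^ (M.χ j).toNat) h0).trans (zero_pow (by omega))
  exact ⟨fun j => Units.mk0 _ (h5 j), h, fun j => rfl⟩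

theorem un_hom (hne : ∀ i, M.g i ≠ 0) {φ : s.Sg →ₐ[ℂ] KB R} {τ : Fin M.m → (KB R)ˣ}
    (h : s.Un φ τ) {l : Dg M.m} {b : M.Ch I} (hb : b ∈ M.toMod.Hc I l) :
    ((zp τ l : (KB R)ˣ) : KB R) * φ (s.mk' b) = M.ψI hne I b := by
  have hσ : ∀ e : Fin M.m → ℕ,
      φ (s.mk' (M.toCh I (M.σp e))) = ((∏ j, τ j ^ e j : (KB R)ˣ) : KB R) := fun e => by
    simp only [σp, map_prod, map_pow, Units.coe_prod, Units.val_pow_eq_pow_val]
    exact Finset.prod_congr rfl fun j _ => congrArg (· ^ e j) (h.2 j).symm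
  have key : ∀ (l : Dg M.m) (x : M.S), x ∈ M.H l →
      ((zp τ l : (KB R)ˣ) : KB R) * φ (s.mk' (M.toCh I x)) = M.ψI hne I (M.toCh I x) := by
    intro l x hx
    have h1 := congrArg (fun x => φ (s.mk' (M.toCh I x))) (M.rel hx)
    simp only [map_mul, hσ] at h1
    rw [h.1 (M.ψ x)] at h1
    have h2 : (∏ j, τ j ^ (-l j).toNat) * zp τ l = ∏ j, τ j ^ (l j).toNat := by
      rw [zp, ← Finset.prod_mul_distrib]
      refine Finset.prod_congr rfl fun j _ => ?_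
      rw [← zpow_natCast, ← zpow_natCast, ← zpow_add]
      congr 1
      omega
    rw [M.ψI_toCh]
    refine (Units.mul_right_inj (∏ j, τ j ^ (-l j).toNat)).1 ?_
    rw [← h1, ← h2, Units.val_mul]
    ring
  obtain ⟨e, x, hx, he⟩ := M.toMod.mem_Hc.1 hb
  have he' : M.toCh I (M.toMod.gI I ^ e) * b = M.toCh I x := by
    rw [map_pow]; exact he
  have h1 := key _ x hx
  have h2 := key _ _ (V.Hg_pow (M.toMod.gI_mem I) e)
  have h3 : IsUnit (M.ψI hne I (M.toCh I (M.toMod.gI I ^ e))) := by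
    rw [map_pow, map_pow]
    exact ((M.toMod.isUnit_gI (Finset.Subset.refl I)).map (M.ψI hne I)).pow e
  refine h3.mul_left_cancel ?_
  rw [← he', zp_add, Units.val_mul, map_mul, map_mul, map_mul] at h1
  rw [← h1, ← h2]
  ring

theorem exists_gen (hne : ∀ i, M.g i ≠ 0) : ∃ φ, s.Gen φ := by
  have hz : ∀ j, M.ψI hne I (s.z j) ≠ 0 := fun j => ((s.unit j).map (M.ψI hne I)).ne_zero
  choose t ht using fun j => IsAlgClosed.exists_pow_nat_eq (M.ψI hne I (s.z j))⁻¹ s.pos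
  have ht0 : ∀ j, t j ≠ 0 := fun j h0 => by
    have := ht j
    rw [h0, zero_pow s.pos.ne'] at this
    exact inv_ne_zero (hz j) this.symm
  have hk : ∀ c : ℂ, algebraMap ℂ (M.Ch I) c ∈ Hg (M.toMod.ρc I) 0 := fun c => by
    rw [IsScalarTower.algebraMap_apply ℂ M.toMod.S (M.Ch I)]
    exact M.toMod.alg_mem I (M.hk c)
  obtain ⟨φ', hφ'⟩ := exists_twist (M.toMod.coc I) hk (M.ψI hne I) fun j => Units.mk0 _ (ht0 j)
  obtain ⟨φ, hφ⟩ := s.lift φ' fun j => by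
    rw [hφ' _ _ (s.deg j), ← Pi.single_smul, zp_single, nsmul_eq_mul, mul_one, zpow_natCast,
      Units.val_pow_eq_pow_val, Units.val_mk0, ht j, inv_mul_cancel₀ (hz j)]
  refine ⟨φ, fun r => (DFunLike.congr_fun hφ _).trans ?_⟩
  rw [hφ' 0 (M.toCh I (M.ι r)) (M.toMod.alg_mem I (M.hι r)), zp_zero, Units.val_one, one_mul,
    M.ψI_toCh, M.ψι]

theorem gen_act {ρ : s.Gp →* (s.Sg →ₐ[ℂ] s.Sg)} (hρ : s.IsAct ρ) {φ : s.Sg →ₐ[ℂ] KB R}
    (h : s.Gen φ) (ζ : s.Gp) : s.Gen (φ.comp (ρ ζ)) := by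
  intro r
  rw [AlgHom.comp_apply, hρ ζ 0 (M.toCh I (M.ι r)) (M.toMod.alg_mem I (M.hι r)), zp_zero,
    Units.val_one, one_smul, h r]

theorem un_act {ρ : s.Gp →* (s.Sg →ₐ[ℂ] s.Sg)} (hρ : s.IsAct ρ) {φ : s.Sg →ₐ[ℂ] KB R}
    {τ : Fin M.m → (KB R)ˣ} (h : s.Un φ τ) (ζ : s.Gp) : s.Un (φ.comp (ρ ζ))
      fun j => (Units.map (algebraMap ℂ (KB R)).toMonoidHom (ζ j : ℂˣ))⁻¹ * τ j := by
  refine ⟨s.gen_act hρ h.1 ζ, fun j => ?_⟩
  have h1 := hρ ζ _ (M.toCh I (M.σ j)) (M.toMod.alg_mem I (M.hσ j))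
  rw [zp_neg, zp_single, zpow_one] at h1
  rw [AlgHom.comp_apply, σ, h1, map_smul, Algebra.smul_def, Units.val_mul, h.2 j, ← map_inv]
  rfl

theorem gen_DI (hne : ∀ i, M.g i ≠ 0) (hI : I.Nonempty) {φ : s.Sg →ₐ[ℂ] KB R} (h : s.Gen φ) :
    φ.comp (s.mk'.comp (M.DI I).val) = (M.ψI hne I).comp (M.DI I).val := by
  obtain ⟨τ, hτ⟩ := s.gen_un hne hI h
  refine AlgHom.ext fun x => ?_
  have := s.un_hom hne hτ (DI_mem x.2)
  rw [zp_zero, Units.val_one, one_mul] at this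
  exact this

end Slice

end GM

end Pool.Agent.P.MP_824f38_ag.N
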