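import Pool.Agent.P.MP_824f38_ag.N.XSlG

/-! Forms on the slice and homogeneous relative forms. -/

set_option linter.unusedVariables false
set_option linter.unusedSectionVars false
set_option linter.style.haveILetI false
set_option linter.dupNamespace false

namespace Pool.Agent.P.MP_824f38_ag.N

open V (Dg Hg IsCo pr Pk)

section

variable {K : Type} [CommRing K] [Algebra ℂ K]

theorem XSlRel.lg_mul {u u' : Kˣ} {w w' : DR K} (h : (u : K) • w = dd (u : K))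
    (h' : (u' : K) • w' = dd (u' : K)) :
    ((u * u' : Kˣ) : K) • (w + w') = dd ((u * u' : Kˣ) : K) := by
  rw [Units.val_mul, dd_mul, ← h, ← h', smul_add, smul_smul, smul_smul, mul_comm (u' : K),
    add_comm]

theorem XSlRel.lg_one : ((1 : Kˣ) : K) • (0 : DR K) = dd ((1 : Kˣ) : K) := by
  rw [smul_zero, Units.val_one, dd_eq_dk, V.dk_one]

theorem XSlRel.lg_inv {u : Kˣ} {w : DR K} (h : (u : K) • w = dd (u : K)) :
    ((u⁻¹ : Kˣ) : K) • (-w) = dd ((u⁻¹ : Kˣ) : K) := by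
  have e := dd_mul ((u⁻¹ : Kˣ) : K) (u : K)
  rw [Units.inv_mul, dd_eq_dk, V.dk_one, ← h, smul_smul, Units.inv_mul, one_smul] at e
  rw [neg_eq_of_add_eq_zero_right e.symm, smul_smul, Units.inv_mul, one_smul]

theorem XSlRel.lg_zpow {u : Kˣ} {w : DR K} (h : (u : K) • w = dd (u : K)) (n : ℤ) :
    ((u ^ n : Kˣ) : K) • (n • w) = dd ((u ^ n : Kˣ) : K) := by
  induction n using Int.induction_on with
  | zero => rw [zpow_zero, zero_smul]; exact XSlRel.lg_one
  | succ n ih => rw [zpow_add_one, add_smul, one_smul]; exact XSlRel.lg_mul ih h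
  | pred n ih =>
    rw [zpow_sub_one, sub_smul, one_smul, sub_eq_add_neg]
    exact XSlRel.lg_mul ih (XSlRel.lg_inv h)

theorem XSlRel.lg_zp {m : ℕ} {τ : Fin m → Kˣ} {w : Fin m → DR K}
    (h : ∀ j, (τ j : K) • w j = dd (τ j : K)) (l : Dg m) :
    ((zp τ l : Kˣ) : K) • ∑ j, l j • w j = dd ((zp τ l : Kˣ) : K) := by
  classical
  rw [zp]
  induction (Finset.univ : Finset (Fin m)) using Finset.induction_on with
  | empty => rw [Finset.prod_empty, Finset.sum_empty]; exact XSlRel.lg_one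
  | insert j S hj ih =>
    rw [Finset.prod_insert hj, Finset.sum_insert hj]
    exact XSlRel.lg_mul (XSlRel.lg_zpow (h j) (l j)) ih

end

variable {R : Type} [CommRing R] [Algebra ℂ R] [IsDomain R] [Algebra.FiniteType ℂ R]
  {I0 : Ideal R} {ν : ℕ} {M : GM R I0 ν} {R0 : Type} [CommRing R0] [Algebra ℂ R0]
  [Algebra.FiniteType ℂ R0]

namespace GM

theorem Ψ_fn (hne : ∀ i, M.g i ≠ 0) (I : Finset M.κ) (b : M.Ch I) :
    M.Ψ hne I (V.fn _ b) = algebraMap (KB R) (DR (KB R)) (M.ψI hne I b) := V.pullk_fn _ _ b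

theorem Ψ_dk (hne : ∀ i, M.g i ≠ 0) (I : Finset M.κ) (b : M.Ch I) :
    M.Ψ hne I (V.dk _ b) = dd (M.ψI hne I b) := V.pullk_dk _ _ b

namespace Slice

variable {I : Finset M.κ} (s : M.Slice I)

theorem Rel.add {s : M.Slice I} {hne : ∀ i, M.g i ≠ 0} {l : Dg M.m} {β β' : DR s.Sg}
    {z z' : M.toMod.W I} (h : s.Rel hne l β z) (h' : s.Rel hne l β' z') :
    s.Rel hne l (β + β') (z + z') := by
  intro φ τ hu
  rw [map_add, smul_add, h φ τ hu, h' φ τ hu, map_add]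

theorem Rel.mul {s : M.Slice I} {hne : ∀ i, M.g i ≠ 0} {l l' : Dg M.m} {β β' : DR s.Sg}
    {z z' : M.toMod.W I} (h : s.Rel hne l β z) (h' : s.Rel hne l' β' z') :
    s.Rel hne (l + l') (β * β') (z * z') := by
  intro φ τ hu
  rw [map_mul, map_mul, ← h φ τ hu, ← h' φ τ hu, zp_add, Units.val_mul, smul_mul_smul_comm]

theorem rel_fn (hne : ∀ i, M.g i ≠ 0) {l : Dg M.m} {b : M.Ch I} (hb : b ∈ M.toMod.Hc I l) :
    s.Rel hne l (algebraMap s.Sg (DR s.Sg) (s.mk' b)) (V.fn _ b) := by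
  intro φ τ hu
  rw [pull_algebraMap, Ψ_fn, ← s.un_hom hne hu hb, map_mul, Algebra.smul_def]

theorem exists_lam (hne : ∀ i, M.g i ≠ 0) : ∃ lam : Fin M.m → M.toMod.W I,
    (∀ j, lam j ∈ M.toMod.L 1 0 I) ∧ (∀ φ τ, s.Un φ τ → ∀ j,
      (τ j : KB R) • M.Ψ hne I (lam j) = dd (τ j : KB R)) ∧
    ∀ (l : Dg M.m), ∀ b ∈ M.toMod.Hc I l,
      s.Rel hne l (dd (s.mk' b)) (V.dk _ b - V.fn _ b * ∑ j, l j • lam j) := by
  choose v hv using fun j => (s.unit j).exists_left_inv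
  obtain ⟨n, hn⟩ : ∃ n, s.M0 = n + 1 := ⟨s.M0 - 1, by have := s.pos; omega⟩
  have hc : ∀ c : ℂ, algebraMap ℂ (M.Ch I) c ∈ M.toMod.Hc I 0 := fun c => by
    rw [IsScalarTower.algebraMap_apply ℂ M.toMod.S (M.toMod.Ch I)]
    exact M.toMod.alg_mem I (M.toMod.hk c)
  have key : ∀ φ τ, s.Un φ τ → ∀ j, (τ j : KB R) • M.Ψ hne I
      (V.fn _ (algebraMap ℂ (M.Ch I) ((n + 1 : ℕ) : ℂ)⁻¹ * v j) * V.dk _ (s.z j)) =
        dd (τ j : KB R) := by
    intro φ τ hu j
    have e := s.un_hom hne hu (s.deg j)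
    rw [s.mk_z, map_one, mul_one, ← Pi.single_smul', zp_single, hn, nsmul_eq_mul, mul_one,
      zpow_natCast, Units.val_pow_eq_pow_val] at e
    have e1 : M.ψI hne I (v j) * (τ j : KB R) ^ (n + 1) = 1 := by
      rw [e, ← map_mul, hv, map_one]
    have e2 : algebraMap ℂ (KB R) ((n + 1 : ℕ) : ℂ)⁻¹ * ((n + 1 : ℕ) : KB R) = 1 := by
      rw [← map_natCast (algebraMap ℂ (KB R)), ← map_mul,
        inv_mul_cancel₀ (Nat.cast_ne_zero.2 n.succ_ne_zero), map_one]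
    rw [map_mul, Ψ_fn, Ψ_dk, map_mul, AlgHom.commutes, ← e, ← Algebra.smul_def, dd_eq_dk,
      V.dk_pow, ← V.smul_eq, smul_smul, smul_smul, dd_eq_dk]
    refine (congrArg (· • V.dk ℂ (τ j : KB R)) ?_).trans (one_smul _ _)
    linear_combination (algebraMap ℂ (KB R) ((n + 1 : ℕ) : ℂ)⁻¹ * ((n + 1 : ℕ) : KB R)) * e1 + e2
  refine ⟨_, fun j => ?_, key, fun l b hb φ τ hu => ?_⟩
  · have h := V.Mod.mul_mem_L
      (V.Mod.fn_mem_L (V.Hg_mul (hc ((n + 1 : ℕ) : ℂ)⁻¹) (V.Hg_inv (s.deg j) (hv j))))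
      (V.Mod.dk_mem_L (s.deg j))
    rwa [zero_add, zero_add, neg_add_cancel] at h
  · have h := XSlRel.lg_zp (key φ τ hu) l
    rw [pull_dd, map_sub, map_mul, Ψ_fn, Ψ_dk, map_sum, ← Algebra.smul_def, ← s.un_hom hne hu hb,
      dd_mul, ← h, smul_smul, mul_comm (φ _)]
    simp only [map_zsmul, add_sub_cancel_right]

theorem rel_span (hne : ∀ i, M.g i ≠ 0) (β : DR s.Sg) :
    β ∈ AddSubgroup.closure {β | ∃ l, ∃ z ∈ M.toMod.LL l I, s.Rel hne l β z} := by
  obtain ⟨lam, hlam, -, h3⟩ := s.exists_lam hne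
  have hb : ∀ b : M.Ch I, algebraMap s.Sg (DR s.Sg) (s.mk' b) ∈
      AddSubgroup.closure {β | ∃ l, ∃ z ∈ M.toMod.LL l I, s.Rel hne l β z} ∧
      dd (s.mk' b) ∈ AddSubgroup.closure {β | ∃ l, ∃ z ∈ M.toMod.LL l I, s.Rel hne l β z} := by
    refine (M.toMod.coc I).induction (fun l b hb => ⟨AddSubgroup.subset_closure
      ⟨l, _, (V.Mod.fn_mem_L hb).2, s.rel_fn hne hb⟩, AddSubgroup.subset_closure
        ⟨l, _, sub_mem (V.Mod.dk_mem_L hb).2 ?_, h3 l b hb⟩⟩) fun x y hx hy => ?_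
    · exact V.Hg_cast (V.Mod.mul_mem_LL (V.Mod.fn_mem_L hb).2
        (sum_mem (S := M.toMod.LL 0 I) fun j _ => zsmul_mem (V.Mod.mem_L.1 (hlam j)).2 _))
        (add_zero l)
    · rw [map_add, map_add, dd_add]
      exact ⟨add_mem hx.1 hy.1, add_mem hx.2 hy.2⟩
  induction β using dr_induction with
  | h0 a => obtain ⟨b, rfl⟩ := s.mk_surj a; exact (hb b).1
  | h1 a => obtain ⟨b, rfl⟩ := s.mk_surj a; exact (hb b).2
  | hadd x y hx hy => exact add_mem hx hy
  | hmul x y hx hy =>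
    induction hx using AddSubgroup.closure_induction with
    | mem x hx =>
      induction hy using AddSubgroup.closure_induction with
      | mem y hy =>
        obtain ⟨l, z, hz, h⟩ := hx
        obtain ⟨l', z', hz', h'⟩ := hy
        exact AddSubgroup.subset_closure ⟨l + l', _, V.Mod.mul_mem_LL hz hz', h.mul h'⟩
      | zero => rw [mul_zero]; exact zero_mem _
      | add a b _ _ ha hb => rw [mul_add]; exact add_mem ha hb
      | neg a _ ha => rw [mul_neg]; exact neg_mem ha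
    | zero => rw [zero_mul]; exact zero_mem _
    | add a b _ _ ha hb => rw [add_mul]; exact add_mem ha hb
    | neg a _ ha => rw [neg_mul]; exact neg_mem ha

end Slice

end GM

end Pool.Agent.P.MP_824f38_ag.N
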