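import Pool.Agent.P.MP_824f38_ag.N.XSlA

/-! Row NEC-XSlTf: homogeneous elements are regular on the slice

Ch I is a domain (localisation of the domain S at gI ≠ 0). Let Z k be the unit ∏ z j ^ k j for k in Dg m, of degree M0 • k. Define the additive map r b = ∑ over l of Z (-(l / M0)) * pr l b (componentwise integer division; finsum or via AddMonoidAlgebra / IsCo.exists_sum). Then r ((z j - 1) b) = 0, mk' (r b) = mk' b, r (b' x) = b' r x for b' of degree 0.
For b of degree l the element b' = b ^ M0 * Z (-l) has degree 0 and mk' b' = mk' b ^ M0. alg_slice: such b' satisfies b' * ι (ψ gI) ^ e = ι (ψ s) (mem_Hc, rel; multiply by σp), so mk' b is algebraic; sums of algebraic elements over a domain need the regularity (use IsAlgebraic.exists_integral_multiple style: ∃ r ≠ 0 with r • b integral). -/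

set_option linter.unusedVariables false
set_option linter.unusedSectionVars false
set_option linter.style.haveILetI false
set_option linter.dupNamespace false

namespace Pool.Agent.P.MP_824f38_ag.N

open V (Dg Hg IsCo pr Pk)

section

variable {T : Type} [CommRing T] {m : ℕ} {ρ : T →+* AddMonoidAlgebra T (Dg m)}

private theorem exists_wt (w : Dg m → T) : ∃ r : T →+ T, ∀ l, ∀ x ∈ Hg ρ l, r x = w l * x := by
  refine ⟨(Finsupp.liftAddHom fun l => AddMonoidHom.mulLeft (w l)).comp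
    ((AddMonoidAlgebra.coeffAddEquiv (R := T) (M := Dg m)).toAddMonoidHom.comp
      ρ.toAddMonoidHom), fun l x hx => ?_⟩
  change Finsupp.liftAddHom (fun l => AddMonoidHom.mulLeft (w l)) (ρ x).coeff = _
  rw [V.mem_Hg.1 hx, AddMonoidAlgebra.coeff_single, Finsupp.liftAddHom_apply_single]
  rfl

private theorem zpow_mem {u : Tˣ} {d : Dg m} (hu : (u : T) ∈ Hg ρ d) (n : ℤ) :
    ((u ^ n : Tˣ) : T) ∈ Hg ρ (n • d) := by
  obtain ⟨k, rfl | rfl⟩ := n.eq_nat_or_neg
  · rw [zpow_natCast, Units.val_pow_eq_pow_val, natCast_zsmul]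
    exact V.Hg_pow hu k
  · rw [zpow_neg, zpow_natCast, neg_smul, natCast_zsmul]
    refine V.Hg_inv (u := ((u ^ k : Tˣ) : T)) ?_ (Units.inv_mul _)
    rw [Units.val_pow_eq_pow_val]
    exact V.Hg_pow hu k

private theorem zp_mem {M0 : ℕ} {z : Fin m → Tˣ}
    (hz : ∀ j, (z j : T) ∈ Hg ρ (M0 • Pi.single j 1)) (k : Dg m) :
    ((zp z k : Tˣ) : T) ∈ Hg ρ (M0 • k) := by
  rw [zp, Units.coe_prod]
  refine V.Hg_cast (V.Hg_prod Finset.univ fun j _ => zpow_mem (hz j) (k j)) ?_
  funext i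
  simp [Finset.sum_apply, Pi.single_apply, mul_comm]

private theorem map_zp {T' : Type} [CommRing T'] (f : T →+* T') {z : Fin m → Tˣ}
    (hf : ∀ j, f (z j) = 1) (k : Dg m) : f ((zp z k : Tˣ) : T) = 1 := by
  have h1 : ∀ j, Units.map (f : T →* T') (z j) = 1 := fun j => Units.ext (hf j)
  have h2 : Units.map (f : T →* T') (zp z k) = 1 := by
    simp only [zp, map_prod, map_zpow, h1, one_zpow, Finset.prod_const_one]
  exact congrArg Units.val h2

private theorem mem_of_mul_mem [IsDomain T] (co : IsCo ρ) {M0 : ℕ} (hM : 0 < M0)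
    {z : Fin m → Tˣ} (hz : ∀ j, (z j : T) ∈ Hg ρ (M0 • Pi.single j 1)) {b : T}
    (hb : b ∈ Hg ρ 0) (h0 : b ≠ 0) {x : T}
    (hx : b * x ∈ Ideal.span (Set.range fun j => (z j : T) - 1)) :
    x ∈ Ideal.span (Set.range fun j => (z j : T) - 1) := by
  obtain ⟨r, hr⟩ := exists_wt (ρ := ρ) fun l => ((zp z (-fun i => l i / M0) : Tˣ) : T)
  have h1 : ∀ j y, r (y * (z j - 1)) = 0 := by
    intro j y
    induction y using co.induction with
    | hadd x y hx hy => rw [add_mul, map_add, hx, hy, add_zero]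
    | h0 l y hy =>
      have e : (-fun i => l i / (M0 : ℤ) : Dg m) =
          (-fun i => (l + M0 • Pi.single j (1 : ℤ) : Dg m) i / (M0 : ℤ)) + Pi.single j 1 := by
        funext i
        have hM' : (M0 : ℤ) ≠ 0 := by omega
        rw [Pi.add_apply, Pi.neg_apply, Pi.neg_apply, Pi.add_apply, Pi.smul_apply, nsmul_eq_mul,
          Int.add_mul_ediv_left _ _ hM']
        ring
      rw [mul_sub, mul_one, map_sub, hr _ _ (V.Hg_mul hy (hz j)), hr _ _ hy, e, zp_add, zp_single,
        zpow_one, Units.val_mul]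
      ring
  have h2 : ∀ y, Ideal.Quotient.mk (Ideal.span (Set.range fun j => (z j : T) - 1)) (r y) =
      Ideal.Quotient.mk _ y := by
    intro y
    induction y using co.induction with
    | hadd x y hx hy => rw [map_add, map_add, map_add, hx, hy]
    | h0 l y hy =>
      rw [hr _ _ hy, map_mul, map_zp, one_mul]
      intro j
      rw [← map_one (Ideal.Quotient.mk _), Ideal.Quotient.eq]
      exact Ideal.subset_span ⟨j, rfl⟩
  have h3 : ∀ y, r (b * y) = b * r y := by
    intro y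
    induction y using co.induction with
    | hadd x y hx hy => rw [mul_add, map_add, map_add, mul_add, hx, hy]
    | h0 l y hy =>
      rw [hr _ _ (V.Hg_mul hb hy), hr _ _ hy, zero_add]
      ring
  obtain ⟨c, hc⟩ := Ideal.mem_span_range_iff_exists_fun.1 hx
  have h4 : b * r x = 0 := by
    rw [← h3, ← hc, map_sum]
    exact Finset.sum_eq_zero fun j _ => h1 j _
  rw [← Ideal.Quotient.eq_zero_iff_mem, ← h2, (mul_eq_zero.1 h4).resolve_left h0, map_zero]

end

variable {R : Type} [CommRing R] [Algebra ℂ R] [IsDomain R] [Algebra.FiniteType ℂ R]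
  {I0 : Ideal R} {ν : ℕ} {M : GM R I0 ν} {R0 : Type} [CommRing R0] [Algebra ℂ R0]
  [Algebra.FiniteType ℂ R0]

namespace GM

namespace Slice

variable {I : Finset M.κ} (s : M.Slice I)

private theorem gI_le (hne : ∀ i, M.g i ≠ 0) :
    Submonoid.powers (M.toMod.gI I) ≤ nonZeroDivisors M.toMod.S :=
  powers_le_nonZeroDivisors_of_noZeroDivisors (M₀ := M.S)
    (Finset.prod_ne_zero_iff.2 fun i _ => hne i)

private theorem dom_Ch (hne : ∀ i, M.g i ≠ 0) : IsDomain (M.Ch I) :=
  haveI : IsDomain M.toMod.S := M.dom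
  IsLocalization.isDomain_localization (gI_le hne)

private theorem toCh_inj (hne : ∀ i, M.g i ≠ 0) : Function.Injective (M.toCh I) :=
  IsLocalization.injective (M.Ch I) (gI_le (I := I) hne)

private theorem exists_deg_zero {l : Dg M.m} {b : M.Ch I} (hb : b ∈ M.toMod.Hc I l) :
    ∃ u : (M.Ch I)ˣ, b ^ s.M0 * u ∈ M.toMod.Hc I 0 ∧ s.mk' (b ^ s.M0 * u) = s.mk' b ^ s.M0 := by
  refine ⟨zp (fun j => (s.unit j).unit) (-l), V.Hg_cast (V.Hg_mul (V.Hg_pow hb s.M0)
    (zp_mem (z := fun j => (s.unit j).unit) s.deg (-l))) (by simp), ?_⟩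
  have h := map_zp (s.mk' : M.Ch I →+* s.Sg) (z := fun j => (s.unit j).unit) s.mk_z (-l)
  rw [map_mul, map_pow]
  exact (congrArg (s.mk' b ^ s.M0 * ·) h).trans (mul_one _)

theorem mk_regular (hne : ∀ i, M.g i ≠ 0) {l : Dg M.m} {b : M.Ch I} (hb : b ∈ M.toMod.Hc I l)
    (h0 : b ≠ 0) : s.mk' b ∈ nonZeroDivisors s.Sg := by
  haveI := dom_Ch (I := I) hne
  obtain ⟨u, hu, e⟩ := s.exists_deg_zero hb
  have h1 : s.mk' (b ^ s.M0 * u) ∈ nonZeroDivisors s.Sg := by
    rw [mem_nonZeroDivisors_iff_left]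
    intro x hx
    obtain ⟨y, rfl⟩ := s.mk_surj x
    rw [← map_mul] at hx
    exact Ideal.Quotient.eq_zero_iff_mem.2 (mem_of_mul_mem (M.toMod.coc I) s.pos
      (z := fun j => (s.unit j).unit) s.deg hu (mul_ne_zero (pow_ne_zero _ h0) u.ne_zero)
      (Ideal.Quotient.eq_zero_iff_mem.1 hx))
  obtain ⟨k, hk⟩ := Nat.exists_eq_succ_of_ne_zero s.pos.ne'
  rw [e, hk, pow_succ] at h1
  exact (mul_mem_nonZeroDivisors.1 h1).2

theorem str_regular (hne : ∀ i, M.g i ≠ 0) {r : R} (hr : r ≠ 0) :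
    s.mk' (M.toCh I (M.ι r)) ∈ nonZeroDivisors s.Sg := by
  refine s.mk_regular hne (M.toMod.alg_mem I (M.hι r)) fun h => hr ?_
  refine M.ι_injective (toCh_inj (I := I) hne ?_)
  rw [h, map_zero, map_zero]

theorem alg_slice (hne : ∀ i, M.g i ≠ 0) (x : s.Sg) : ∃ r : R, r ≠ 0 ∧
    ((s.mk'.comp ((M.toCh I).comp M.ι) : R →ₐ[ℂ] s.Sg) : R →+* s.Sg).IsIntegralElem
      (s.mk' (M.toCh I (M.ι r)) * x) := by
  haveI := dom_Ch (I := I) hne
  obtain ⟨b, rfl⟩ := s.mk_surj x
  set f : R →+* s.Sg := ((s.mk'.comp ((M.toCh I).comp M.ι) : R →ₐ[ℂ] s.Sg) : R →+* s.Sg) with hf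
  change ∃ r : R, r ≠ 0 ∧ f.IsIntegralElem (f r * s.mk' b)
  induction b using (M.toMod.coc I).induction with
  | hadd x y hx hy =>
    obtain ⟨r, hr, hx⟩ := hx
    obtain ⟨r', hr', hy⟩ := hy
    refine ⟨r * r', mul_ne_zero hr hr', ?_⟩
    have e : f (r * r') * s.mk' (x + y) = f r' * (f r * s.mk' x) + f r * (f r' * s.mk' y) := by
      rw [map_mul, map_add]
      ring
    rw [e]
    exact RingHom.IsIntegralElem.add f (RingHom.IsIntegralElem.mul f f.isIntegralElem_map hx)
      (RingHom.IsIntegralElem.mul f f.isIntegralElem_map hy)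
  | h0 l b hb =>
    obtain ⟨u, hu, e⟩ := s.exists_deg_zero hb
    obtain ⟨n, a, ha, hn⟩ := M.toMod.mem_Hc.1 hu
    rw [add_zero] at ha
    have hg : (M.toMod.gI I ^ n : M.S) ∈ M.H (n • I.card • M.χ) := V.Hg_pow (M.toMod.gI_mem I) n
    have hg0 : (M.toMod.gI I ^ n : M.S) ≠ 0 :=
      pow_ne_zero (M₀ := M.S) _ (Finset.prod_ne_zero_iff.2 fun i _ => hne i)
    have hn' : M.toCh I (M.toMod.gI I ^ n : M.S) * (b ^ s.M0 * u) = M.toCh I a := by
      rw [map_pow]
      exact hn
    generalize (M.toMod.gI I ^ n : M.S) = G at hg hg0 hn'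
    have r1 := congrArg (M.toCh I) (M.rel hg)
    have r2 := congrArg (M.toCh I) (M.rel (l := n • I.card • M.χ) ha)
    rw [map_mul, map_mul] at r1 r2
    have hσ : M.toCh I (M.σp fun j => (-(n • I.card • M.χ) j).toNat) ≠ 0 := by
      intro h
      have h1 := toCh_inj (I := I) hne (h.trans (map_zero _).symm)
      have h2 := M.ψ_σp fun j => (-(n • I.card • M.χ) j).toNat
      rw [h1, map_zero] at h2
      exact zero_ne_one h2
    have key : M.toCh I (M.ι (M.ψ G)) * (b ^ s.M0 * u) = M.toCh I (M.ι (M.ψ a)) := by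
      refine mul_left_cancel₀ hσ ?_
      rw [← mul_assoc, ← r1, ← r2, ← hn']
      ring
    have key' : f (M.ψ G) * s.mk' b ^ s.M0 = f (M.ψ a) := by
      rw [← e]
      exact (map_mul s.mk' _ _).symm.trans (congrArg s.mk' key)
    refine ⟨M.ψ G, fun h => hg0 (M.ψinj _ _ hg h), ?_⟩
    obtain ⟨k, hk⟩ := Nat.exists_eq_succ_of_ne_zero s.pos.ne'
    refine ⟨Polynomial.X ^ s.M0 - Polynomial.C (M.ψ G ^ k * M.ψ a),
      Polynomial.monic_X_pow_sub_C _ s.pos.ne', ?_⟩
    rw [Polynomial.eval₂_sub, Polynomial.eval₂_X_pow, Polynomial.eval₂_C, map_mul, map_pow, ← key',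
      mul_pow, hk, Nat.succ_eq_add_one]
    ring

end Slice

end GM

end Pool.Agent.P.MP_824f38_ag.N
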